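import Pool.Agent.Lib.MP_d6b03d_al.Stmts

/-!
MP_d6b03d_al, G2: elements of bounded displacement are absorbed.
-/

set_option autoImplicit false

namespace Pool.Agent.D6b

open Multiplicative

section

variable {G : Type} [Group G]

theorem Xn_conj_mem (X : Subgroup G) (t : G) (n : ℕ) : ∀ (j : ℕ), j ≤ n → ∀ x ∈ X,
    t ^ j * x * (t ^ j)⁻¹ ∈ Xn t X n := by
  induction n with
  | zero =>
    intro j hj x hx
    obtain rfl : j = 0 := by omega
    simpa [Xn] using hx
  | succ n ih =>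
    intro j hj x hx
    rcases Nat.lt_or_ge n j with h | h
    · obtain ⟨j', rfl⟩ : ∃ j', j = j' + 1 := ⟨j - 1, by omega⟩
      have h1 := ih j' (by omega) x hx
      have h2 : t ^ (j' + 1) * x * (t ^ (j' + 1))⁻¹ ∈ cj t (Xn t X n) := by
        refine ⟨t ^ j' * x * (t ^ j')⁻¹, h1, ?_⟩
        simp only [MulEquiv.coe_toMonoidHom, MulAut.conj_apply, pow_succ']
        group
      exact (le_sup_right : cj t (Xn t X n) ≤ Xn t X n ⊔ cj t (Xn t X n)) h2
    · exact (le_sup_left : Xn t X n ≤ Xn t X n ⊔ cj t (Xn t X n)) (ih j h x hx)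

/-- the subgroup generated by the `t ^ i x t ^ (-i)`, `|i| ≤ r` -/
def Sab (X : Subgroup G) (t : G) (r : ℕ) : Subgroup G :=
  Subgroup.closure {g | ∃ (i : ℤ) (x : G), -(r : ℤ) ≤ i ∧ i ≤ r ∧ x ∈ X ∧
    g = t ^ i * x * (t ^ i)⁻¹}

theorem Sab_mono (X : Subgroup G) (t : G) {r r' : ℕ} (h : r ≤ r') : Sab X t r ≤ Sab X t r' := by
  apply Subgroup.closure_mono
  rintro g ⟨i, x, h1, h2, h3, h4⟩
  exact ⟨i, x, by omega, by omega, h3, h4⟩

theorem Sab_mem (X : Subgroup G) (t : G) {r : ℕ} (i : ℤ) (x : G) (h1 : -(r : ℤ) ≤ i)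
    (h2 : i ≤ r) (hx : x ∈ X) : t ^ i * x * (t ^ i)⁻¹ ∈ Sab X t r :=
  Subgroup.subset_closure ⟨i, x, h1, h2, hx, rfl⟩

theorem Sab_conj (X : Subgroup G) (t : G) (R : ℕ) (c : G) (hc : c ∈ Sab X t R) :
    t ^ R * c * (t ^ R)⁻¹ ∈ Xn t X (2 * R) := by
  have key : Sab X t R ≤ (Xn t X (2 * R)).comap (MulAut.conj (t ^ R)).toMonoidHom := by
    rw [Sab, Subgroup.closure_le]
    rintro g ⟨i, x, h1, h2, h3, rfl⟩
    have h := Xn_conj_mem X t (2 * R) ((R : ℤ) + i).toNat (by omega) x h3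
    have e : t ^ (((R : ℤ) + i).toNat) = t ^ R * t ^ i := by
      rw [← zpow_natCast, Int.toNat_of_nonneg (by omega), zpow_add, zpow_natCast]
    rw [e] at h
    simp only [Subgroup.coe_comap, Set.mem_preimage, MulEquiv.coe_toMonoidHom, MulAut.conj_apply,
      SetLike.mem_coe]
    convert h using 1
    group
  exact key hc

theorem walk_absorb (X : Subgroup G) (t : G) (η : G →* Multiplicative ℤ)
    (hX : ∀ x ∈ X, η x = 1) (ht : η t = ofAdd 1) {v w : G ⧸ X} (p : (CG X t).Walk v w) :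
    w = ((1 : G) : G ⧸ X) → ∀ c : G, (c : G ⧸ X) = v →
    ∃ h : ℤ, -(p.length : ℤ) ≤ h ∧ h ≤ p.length ∧ η c = ofAdd h ∧
      c * (t ^ h)⁻¹ ∈ Sab X t p.length := by
  induction p with
  | nil =>
    intro hw c hc
    have h1 : c ∈ X := by
      have : (c : G ⧸ X) = ((1 : G) : G ⧸ X) := hc.trans hw
      rw [QuotientGroup.eq] at this
      simpa using this
    refine ⟨0, by simp, by simp, by simp [hX c h1], ?_⟩
    have := Sab_mem X t (r := 0) 0 c (by simp) (by simp) h1
    simpa using this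
  | @cons u v w h p ih =>
    intro hw c' hc'
    obtain ⟨c, rfl⟩ := QuotientGroup.mk_surjective v
    obtain ⟨k, hk1, hk2, hk3, hk4⟩ := ih hw c rfl
    rw [CG, SimpleGraph.fromRel_adj] at h
    obtain ⟨_, h⟩ := h
    have hle : Sab X t p.length ≤ Sab X t (p.length + 1) := Sab_mono X t (by omega)
    rw [SimpleGraph.Walk.length_cons]
    rcases h with ⟨g, hg1, hg2⟩ | ⟨g, hg1, hg2⟩
    · -- `c' X = g X`, `c X = g t X`
      rw [← hc', QuotientGroup.eq] at hg1
      rw [QuotientGroup.eq] at hg2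
      -- `x = c⁻¹ g t ∈ X`, `x' = c'⁻¹ g`
      have e1 : c' = c * (c⁻¹ * (g * t)) * t⁻¹ * (c'⁻¹ * g)⁻¹ := by group
      have hx' : (c'⁻¹ * g)⁻¹ ∈ X := X.inv_mem hg1
      generalize (c'⁻¹ * g)⁻¹ = x' at e1 hx'
      generalize c⁻¹ * (g * t) = x at e1 hg2
      subst e1
      refine ⟨k - 1, by push_cast; omega, by push_cast; omega, ?_, ?_⟩
      · simp only [map_mul, map_inv, hk3, hX x hg2, hX x' hx', ht, mul_one]
        rw [← ofAdd_neg, ← ofAdd_add, sub_eq_add_neg]
      · have e2 : c * x * t⁻¹ * x' * (t ^ (k - 1))⁻¹ =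
            (c * (t ^ k)⁻¹) * (t ^ k * x * (t ^ k)⁻¹) *
              (t ^ (k - 1) * x' * (t ^ (k - 1))⁻¹) := by
          have : t ^ (k - 1) = t ^ k * t⁻¹ := by rw [zpow_sub_one]
          rw [this]; group
        rw [e2]
        refine mul_mem (mul_mem (hle hk4) ?_) ?_
        · exact Sab_mem X t k x (by push_cast; omega) (by push_cast; omega) hg2
        · exact Sab_mem X t (k - 1) x' (by push_cast; omega) (by push_cast; omega) hx'
    · -- `c X = g X`, `c' X = g t X`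
      rw [QuotientGroup.eq] at hg1
      rw [← hc', QuotientGroup.eq] at hg2
      have e1 : c' = c * (c⁻¹ * g) * t * (c'⁻¹ * (g * t))⁻¹ := by group
      have hx' : (c'⁻¹ * (g * t))⁻¹ ∈ X := X.inv_mem hg2
      generalize (c'⁻¹ * (g * t))⁻¹ = x' at e1 hx'
      generalize c⁻¹ * g = x at e1 hg1
      subst e1
      refine ⟨k + 1, by push_cast; omega, by push_cast; omega, ?_, ?_⟩
      · simp only [map_mul, hk3, hX x hg1, hX x' hx', ht, mul_one]
        rw [← ofAdd_add]
      · have e2 : c * x * t * x' * (t ^ (k + 1))⁻¹ =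
            (c * (t ^ k)⁻¹) * (t ^ k * x * (t ^ k)⁻¹) *
              (t ^ (k + 1) * x' * (t ^ (k + 1))⁻¹) := by
          have : t ^ (k + 1) = t ^ k * t := by rw [zpow_add_one]
          rw [this]; group
        rw [e2]
        refine mul_mem (mul_mem (hle hk4) ?_) ?_
        · exact Sab_mem X t k x (by push_cast; omega) (by push_cast; omega) hg1
        · exact Sab_mem X t (k + 1) x' (by push_cast; omega) (by push_cast; omega) hx'

end

theorem stAbsorb : StAbsorb := by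
  intro G _ X t η h R c hc hR
  obtain ⟨p, hp⟩ := h.tree.connected.exists_walk_length_eq_dist (c • vx t X 0) (vx t X 0)
  rw [SimpleGraph.dist_comm] at hp
  have e0 : vx t X 0 = ((1 : G) : G ⧸ X) := by simp [vx]
  have e1 : ((c : G) : G ⧸ X) = c • vx t X 0 := by
    rw [e0, MulAction.Quotient.smul_mk, smul_eq_mul, mul_one]
  obtain ⟨k, _, _, hk3, hk4⟩ := walk_absorb X t η h.ht h.et p e0 c e1
  have hk : k = 0 := by
    rw [hc] at hk3
    exact (ofAdd_eq_one.mp hk3.symm)
  subst hk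
  apply Sab_conj
  apply Sab_mono X t (r := p.length) (by omega)
  simpa using hk4

end Pool.Agent.D6b
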