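import Pool.Agent.Lib.MP_d6b03d_al.AxisIn

/-!
MP_d6b03d_al, module T8: an automorphism of a tree without fixed vertices has an axis.
-/

set_option autoImplicit false

namespace Pool.Agent.D6b

open AxisIn in
theorem stAxis (h2 : StLocal) : StAxis := by
  classical
  intro V S hS G _ _ hA hN g hfix
  have hc := hS.connected
  have : Nonempty V := hc.nonempty
  have hex : ∃ d : ℕ, ∃ v : V, S.dist v (g • v) = d := ⟨_, Classical.arbitrary V, rfl⟩
  set m := Nat.find hex with hmdef
  obtain ⟨v, hv⟩ := Nat.find_spec hex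
  rw [← hmdef] at hv
  have hmin : ∀ w : V, m ≤ S.dist w (g • w) := fun w => Nat.find_min' hex ⟨w, rfl⟩
  have hm : 1 ≤ m := by
    by_contra h
    have h0 : S.dist v (g • v) = 0 := by omega
    exact hfix v (hc.dist_eq_zero_iff.mp h0).symm
  obtain ⟨W, hW⟩ := hc.exists_walk_length_eq_dist v (g • v)
  rw [hv] at hW
  obtain ⟨p, hp⟩ : ∃ p : ℕ → V, p = W.getVert := ⟨_, rfl⟩
  have p0 : p 0 = v := by rw [hp]; simp
  have pm : p m = g • v := by rw [hp, ← hW]; simp
  have padj : ∀ i < m, S.Adj (p i) (p (i + 1)) := by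
    intro i hi
    rw [hp]
    exact W.adj_getVert_succ (by omega)
  have pdist : ∀ k i : ℕ, i + k ≤ m → S.dist (p i) (p (i + k)) ≤ k := by
    intro k
    induction k with
    | zero => intro i _; simp
    | succ k ih =>
      intro i hi
      have h1 := ih i (by omega)
      have h2 : S.dist (p (i + k)) (p (i + (k + 1))) = 1 :=
        SimpleGraph.dist_eq_one_iff_adj.2 (padj (i + k) (by omega))
      have h3 := hc.dist_triangle (u := p i) (v := p (i + k)) (w := p (i + (k + 1)))
      omega
  have pne : ∀ i : ℕ, i + 2 ≤ m → p i ≠ p (i + 2) := by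
    intro i hi he
    have h1 := pdist i 0 (by omega)
    have h3 := pdist (m - (i + 2)) (i + 2) (by omega)
    have e : i + 2 + (m - (i + 2)) = m := by omega
    rw [e, ← he, pm] at h3
    rw [zero_add, p0] at h1
    have h4 := hc.dist_triangle (u := v) (v := p i) (w := g • v)
    rw [hv] at h4
    omega
  have hm0 : (0 : ℤ) < m := by exact_mod_cast hm
  obtain ⟨L, hL⟩ : ∃ L : ℤ → V, L = fun z : ℤ => g ^ (z / m) • p (z % m).toNat := ⟨_, rfl⟩
  have L1 : ∀ (q : ℤ) (r : ℕ), r < m → L (q * m + r) = g ^ q • p r := by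
    intro q r hr
    have hr' : (r : ℤ) < m := by exact_mod_cast hr
    have e1 : (q * m + r) / (m : ℤ) = q := by
      rw [add_comm, Int.add_mul_ediv_right _ _ hm0.ne', Int.ediv_eq_zero_of_lt (by positivity) hr']
      ring
    have e2 : (q * m + r) % (m : ℤ) = r := by
      rw [add_comm, Int.add_mul_emod_self_right, Int.emod_eq_of_lt (by positivity) hr']
    rw [hL]
    simp only
    rw [e1, e2, Int.toNat_natCast]
  have L2 : ∀ (q : ℤ) (r : ℕ), r ≤ m → L (q * m + r) = g ^ q • p r := by
    intro q r hr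
    rcases Nat.lt_or_ge r m with h | h
    · exact L1 q r h
    · obtain rfl : r = m := le_antisymm hr h
      have e := L1 (q + 1) 0 (by omega)
      rw [p0] at e
      rw [pm, ← mul_smul, ← zpow_add_one, ← e]
      congr 1
      push_cast
      ring
  have hz : ∀ z : ℤ, ∃ (q : ℤ) (r : ℕ), r < m ∧ z = q * m + r := by
    intro z
    refine ⟨z / m, (z % m).toNat, ?_, ?_⟩
    · have := Int.emod_lt_of_pos z hm0
      have := Int.emod_nonneg z hm0.ne'
      omega
    · rw [Int.toNat_of_nonneg (Int.emod_nonneg z hm0.ne')]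
      have := Int.emod_add_mul_ediv z m
      linarith [mul_comm (z / (m : ℤ)) (m : ℤ)]
  have hLg : ∀ i : ℤ, g • L i = L (i + m) := by
    intro z
    obtain ⟨q, r, hr, rfl⟩ := hz z
    rw [L1 q r hr, ← mul_smul, ← zpow_one_add, ← L1 (1 + q) r hr]
    congr 1
    ring
  have hLadj : ∀ z : ℤ, S.Adj (L z) (L (z + 1)) := by
    intro z
    obtain ⟨q, r, hr, rfl⟩ := hz z
    have e := L2 q (r + 1) hr
    have e' : q * (m : ℤ) + r + 1 = q * m + ((r + 1 : ℕ) : ℤ) := by push_cast; ring
    rw [e', e, L1 q r hr]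
    exact hA _ _ _ (padj r hr)
  have hLne : ∀ z : ℤ, L z ≠ L (z + 2) := by
    intro z
    obtain ⟨q, r, hr, rfl⟩ := hz z
    rcases Nat.lt_or_ge m (r + 2) with h | h
    · have hr1 : r + 1 = m := by omega
      have e' : q * (m : ℤ) + r + 2 = (q + 1) * m + ((1 : ℕ) : ℤ) := by
        rw [← hr1]; push_cast; ring
      rw [e', L2 (q + 1) 1 hm, L1 q r hr, zpow_add_one, mul_smul]
      intro hE
      have hE' : p r = g • p 1 := smul_left_cancel _ hE
      rcases Nat.lt_or_ge 1 m with h1 | h1
      · have hd := hmin (p 1)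
        have hd2 := pdist (r - 1) 1 (by omega)
        have e3 : 1 + (r - 1) = r := by omega
        rw [e3, hE'] at hd2
        omega
      · have hm1 : m = 1 := by omega
        have hr0 : r = 0 := by omega
        have hp1 : p 1 = g • v := by rw [← pm, hm1]
        have had := padj 0 (by omega)
        rw [zero_add, p0, hp1] at had
        rw [hr0, p0, hp1] at hE'
        exact hN g v (g • v) had rfl hE'.symm
    · have e := L2 q (r + 2) h
      have e' : q * (m : ℤ) + r + 2 = q * m + ((r + 2 : ℕ) : ℤ) := by push_cast; ring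
      rw [e', e, L1 q r hr]
      intro hE
      exact pne r h (smul_left_cancel _ hE)
  have hle : ∀ i j : ℤ, i ≤ j → S.dist (L i) (L j) = (i - j).natAbs := by
    intro i j hij
    have h := h2 V S hS (j - i).toNat (fun k : ℕ => L (i + k)) ?_ ?_
    · have e1 : i + ((0 : ℕ) : ℤ) = i := by simp
      have e2 : i + ((j - i).toNat : ℤ) = j := by omega
      rw [e1, e2] at h
      rw [h]
      omega
    · intro k _
      have := hLadj (i + k)
      have e : i + ((k + 1 : ℕ) : ℤ) = i + k + 1 := by push_cast; ring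
      rw [e]
      exact this
    · intro k _
      have := hLne (i + k)
      have e : i + ((k + 2 : ℕ) : ℤ) = i + k + 2 := by push_cast; ring
      rw [e]
      exact this
  refine ⟨m, L, hm, ?_, hLg⟩
  intro i j
  rcases le_total i j with h | h
  · exact hle i j h
  · rw [SimpleGraph.dist_comm, hle j i h]
    omega

end Pool.Agent.D6b
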