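import Pool.Agent.Lib.MP_d6b03d_al.Stmts

/-!
MP_d6b03d_al, module T9: the axis lies in every invariant convex set, and commuting elements
translate it.
-/

set_option autoImplicit false

namespace Pool.Agent.D6b

open Multiplicative Base

namespace AxisIn

variable {V : Type} {S : SimpleGraph V}

theorem dist_smul_le (hS : S.IsTree) {G : Type} [Group G] [MulAction G V] (hA : ActsOn S G)
    (g : G) (u v : V) : S.dist (g • u) (g • v) ≤ S.dist u v := by
  obtain ⟨p, hp⟩ := hS.connected.exists_walk_length_eq_dist u v
  let f : S →g S := ⟨fun x => g • x, fun {a b} hab => hA g a b hab⟩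
  have h1 := SimpleGraph.dist_le (p.map f)
  rw [SimpleGraph.Walk.length_map, hp] at h1
  exact h1

theorem dist_smul (hS : S.IsTree) {G : Type} [Group G] [MulAction G V] (hA : ActsOn S G)
    (g : G) (u v : V) : S.dist (g • u) (g • v) = S.dist u v := by
  apply le_antisymm (dist_smul_le hS hA g u v)
  have h := dist_smul_le hS hA g⁻¹ (g • u) (g • v)
  simpa using h

theorem btw_move (h1 : StFourPt) (hS : S.IsTree) {P x Q a : V} (hb : Btw S P x Q)
    (ha : S.dist a P ≤ S.dist P x) : Btw S a x Q := by
  unfold Btw at *
  have tri : S.dist a Q ≤ S.dist a x + S.dist x Q := hS.connected.dist_triangle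
  have tri2 : S.dist x Q ≤ S.dist x a + S.dist a Q := hS.connected.dist_triangle
  have e4 : S.dist x a = S.dist a x := SimpleGraph.dist_comm
  have h := h1 V S hS P Q a x
  have e1 : S.dist P a = S.dist a P := SimpleGraph.dist_comm
  have e2 : S.dist Q x = S.dist x Q := SimpleGraph.dist_comm
  have e3 : S.dist Q a = S.dist a Q := SimpleGraph.dist_comm
  rcases le_max_iff.1 h with h | h
  · omega
  · omega

end AxisIn

open AxisIn in
theorem stAxisIn (h1 : StFourPt) (h7 : StClose) : StAxisIn := by
  intro V S hS G _ _ hA g m L hm hL hg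
  have hgi : ∀ i : ℤ, g⁻¹ • L i = L (i - m) := by
    intro i
    rw [inv_smul_eq_iff, hg]
    congr 1
    ring
  have hpow : ∀ (k : ℕ) (i : ℤ), g ^ k • L i = L (i + k * m) := by
    intro k
    induction k with
    | zero => intro i; simp
    | succ n ih =>
      intro i
      rw [pow_succ, mul_smul, hg, ih]
      congr 1
      push_cast
      ring
  have hpowi : ∀ (k : ℕ) (i : ℤ), (g⁻¹) ^ k • L i = L (i - k * m) := by
    intro k
    induction k with
    | zero => intro i; simp
    | succ n ih =>
      intro i
      rw [pow_succ, mul_smul, hgi, ih]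
      congr 1
      push_cast
      ring
  have hzpow : ∀ (k : ℤ) (i : ℤ), g ^ k • L i = L (i + k * m) := by
    intro k i
    obtain ⟨n, rfl | rfl⟩ := k.eq_nat_or_neg
    · rw [zpow_natCast, hpow]
    · rw [zpow_neg, zpow_natCast, ← inv_pow, hpowi]
      congr 1
      ring
  have hinj : Function.Injective L := by
    intro i j hij
    have h := hL i j
    rw [hij, SimpleGraph.dist_self] at h
    omega
  refine ⟨?_, ?_⟩
  · intro U hU ⟨u, hu⟩ hgU hgiU i
    have hk : ∀ k : ℕ, g ^ k • u ∈ U := by
      intro k
      induction k with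
      | zero => simpa using hu
      | succ n ih =>
        rw [pow_succ', mul_smul]
        exact hgU _ ih
    have hki : ∀ k : ℕ, (g⁻¹) ^ k • u ∈ U := by
      intro k
      induction k with
      | zero => simpa using hu
      | succ n ih =>
        rw [pow_succ', mul_smul]
        exact hgiU _ ih
    set R := S.dist u (L 0) with hR
    set k : ℕ := R + i.natAbs with hkdef
    have hkm : (R : ℤ) + |i| ≤ k * m := by
      have e : ((k : ℤ)) = R + |i| := by
        rw [hkdef]
        push_cast
        rfl
      have hm' : (1 : ℤ) ≤ m := by exact_mod_cast hm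
      have hk0 : (0 : ℤ) ≤ k := by positivity
      rw [← e]
      nlinarith
    have hi := abs_le.1 (le_refl |i|)
    have d1 : S.dist ((g⁻¹) ^ k • u) (L (-(k * m : ℤ))) = R := by
      have e : L (-(k * m : ℤ)) = (g⁻¹) ^ k • L 0 := by
        rw [hpowi]
        congr 1
        ring
      rw [e, dist_smul hS hA]
    have d2 : S.dist (g ^ k • u) (L (k * m : ℤ)) = R := by
      have e : L (k * m : ℤ) = g ^ k • L 0 := by
        rw [hpow]
        congr 1
        ring
      rw [e, dist_smul hS hA]
    have l1 := hL (-(k * m : ℤ)) i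
    have l2 := hL i (k * m : ℤ)
    have l3 := hL (-(k * m : ℤ)) (k * m : ℤ)
    have b0 : Btw S (L (-(k * m : ℤ))) (L i) (L (k * m : ℤ)) := by
      unfold Btw
      rw [l1, l2, l3]
      generalize (k * m : ℤ) = z at *
      omega
    have b1 : Btw S ((g⁻¹) ^ k • u) (L i) (L (k * m : ℤ)) := by
      apply btw_move h1 hS b0
      rw [d1, l1]
      generalize (k * m : ℤ) = z at *
      omega
    have b1' : Btw S (L (k * m : ℤ)) (L i) ((g⁻¹) ^ k • u) := by
      unfold Btw at *
      rw [SimpleGraph.dist_comm (u := L (k * m : ℤ)) (v := L i),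
        SimpleGraph.dist_comm (u := L i) (v := (g⁻¹) ^ k • u),
        SimpleGraph.dist_comm (u := L (k * m : ℤ)) (v := (g⁻¹) ^ k • u)]
      omega
    have b2 : Btw S (g ^ k • u) (L i) ((g⁻¹) ^ k • u) := by
      apply btw_move h1 hS b1'
      rw [d2, SimpleGraph.dist_comm, l2]
      generalize (k * m : ℤ) = z at *
      omega
    exact hU _ (hk k) _ (hki k) _ b2
  · intro h hcomm
    have hz : ∀ k : ℤ, g ^ k * h = h * g ^ k := fun k =>
      (Commute.zpow_left (show Commute g h from hcomm) k).eq
    have hline : IsLine S (fun i => h • L i) := by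
      intro i j
      rw [dist_smul hS hA]
      exact hL i j
    have hm0 : (0 : ℤ) < m := by exact_mod_cast hm
    have hclose : ∃ R : ℕ, ∀ i : ℤ, ∃ j : ℤ, S.dist (h • L i) (L j) ≤ R := by
      refine ⟨∑ r ∈ Finset.range m, S.dist (h • L (r : ℤ)) (L 0), fun i => ?_⟩
      refine ⟨i / m * m, ?_⟩
      have hr0 : 0 ≤ i % m := Int.emod_nonneg _ hm0.ne'
      have hr1 : i % m < m := Int.emod_lt_of_pos _ hm0
      obtain ⟨r, hr⟩ := Int.eq_ofNat_of_zero_le hr0
      have e1 : L i = g ^ (i / m) • L (r : ℤ) := by
        rw [hzpow]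
        congr 1
        have := Int.emod_add_mul_ediv i m
        rw [hr] at this
        linarith [mul_comm (i / (m : ℤ)) (m : ℤ)]
      have e2 : L (i / m * m) = g ^ (i / m) • L 0 := by
        rw [hzpow]
        congr 1
        ring
      rw [e1, e2, ← mul_smul, ← hz, mul_smul, dist_smul hS hA]
      have hrm : r ∈ Finset.range m := by
        rw [Finset.mem_range]
        rw [hr] at hr1
        exact_mod_cast hr1
      exact Finset.single_le_sum (f := fun r : ℕ => S.dist (h • L (r : ℤ)) (L 0))
        (fun _ _ => Nat.zero_le _) hrm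
    obtain ⟨R, hR⟩ := hclose
    obtain ⟨c, ε, hε, hc⟩ := h7 V S hS L (fun i => h • L i) hL hline R hR
    have key : ε = 1 := by
      have e1 : g • (h • L 0) = L (c + ε * 0 + m) := by
        rw [show h • L 0 = L (c + ε * 0) from hc 0, hg]
      have e2 : g • (h • L 0) = L (c + ε * m) := by
        rw [← mul_smul, hcomm, mul_smul, hg]
        have := hc (0 + m)
        simpa using this
      have e3 := hinj (e1.symm.trans e2)
      rcases hε with h | h
      · exact h
      · rw [h] at e3
        omega
    refine ⟨c, fun i => ?_⟩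
    have := hc i
    rw [key] at this
    simp only [one_mul] at this
    rw [this, add_comm]

end Pool.Agent.D6b
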