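import Pool.Agent.Lib.MP_d6b03d_al.Stmts

/-!
MP_d6b03d_al: module G1, change of base for stages.
-/

set_option autoImplicit false

namespace Pool.Agent.D6b

open Multiplicative Base

namespace BC

theorem first_step {V : Type} (S : SimpleGraph V) (hc : S.Connected) (p q : V) (h : p ≠ q) :
    ∃ p1 : V, S.Adj p p1 ∧ Btw S p p1 q := by
  obtain ⟨w, hw⟩ := (hc.preconnected p q).exists_walk_length_eq_dist
  cases w with
  | nil => exact absurd rfl h
  | @cons _ p1 _ hadj w' =>
    refine ⟨p1, hadj, ?_⟩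
    have h1 : S.dist p p1 = 1 := SimpleGraph.dist_eq_one_iff_adj.mpr hadj
    have h2 : S.dist p1 q ≤ w'.length := SimpleGraph.dist_le w'
    have h3 : S.dist p q ≤ S.dist p p1 + S.dist p1 q := hc.dist_triangle
    simp only [SimpleGraph.Walk.length_cons] at hw
    unfold Btw
    omega

theorem btw_symm {V : Type} (S : SimpleGraph V) (p r q : V) (h : Btw S p r q) : Btw S q r p := by
  unfold Btw at *
  rw [S.dist_comm (u := q) (v := r), S.dist_comm (u := r) (v := p), S.dist_comm (u := q) (v := p)]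
  omega

theorem mem_cj {G : Type} [Group G] (t : G) (X : Subgroup G) (g : G) :
    g ∈ cj t X ↔ t⁻¹ * g * t ∈ X := by
  unfold cj
  constructor
  · rintro ⟨x, hx, rfl⟩
    have : t⁻¹ * ((MulAut.conj t).toMonoidHom x) * t = x := by
      simp [mul_assoc]
    rw [this]
    exact hx
  · intro h
    exact ⟨t⁻¹ * g * t, h, by simp [mul_assoc]⟩

end BC

open BC in
theorem stBC (T4 : StBtwU) (B0 : StBasic) (B3 : StBCTree) : StBC := by
  intro H G _ _ _ pr em X D st
  set t : G := em th with ht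
  set X' : Subgroup G := X ⊔ cj t X with hX'
  have hle : X ≤ X' := le_sup_left
  obtain ⟨td', meet⟩ := B3 G X t (hz.comp pr) st.td
  have hconn : (CG X t).Connected := st.td.tree.1
  have hconn' : (CG X' t).Connected := td'.tree.1
  obtain ⟨act, ninv, line, tvx, fixiff, adjiff, gen, fixht⟩ := B0 G X t (hz.comp pr)
  obtain ⟨act', ninv', line', tvx', fixiff', adjiff', gen', fixht'⟩ := B0 G X' t (hz.comp pr)
  have line1 := line st.td
  have line1' := line' td'
  have adj1 := adjiff st.td.et st.td.ht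
  have adj1' := adjiff' td'.et td'.ht
  -- the edge lemma
  have edge : ∀ e g : G, e • (g : G ⧸ X') = (g : G ⧸ X') →
      e • ((g * t : G) : G ⧸ X') = ((g * t : G) : G ⧸ X') →
      e • ((g * t : G) : G ⧸ X) = ((g * t : G) : G ⧸ X) := by
    intro e g h1 h2
    rw [fixiff'] at h1 h2
    rw [fixiff]
    have h3 : g⁻¹ * e * g ∈ cj t X' := by
      rw [mem_cj]
      have : t⁻¹ * (g⁻¹ * e * g) * t = (g * t)⁻¹ * e * (g * t) := by group
      rw [this]; exact h2
    have h4 := meet _ h1 h3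
    rw [mem_cj] at h4
    have : t⁻¹ * (g⁻¹ * e * g) * t = (g * t)⁻¹ * e * (g * t) := by group
    rw [this] at h4
    exact h4
  -- the projection
  let π : G ⧸ X → G ⧸ X' := Subgroup.quotientMapOfLE hle
  have hπ : ∀ g : G, π (g : G ⧸ X) = (g : G ⧸ X') := fun g => rfl
  have πadj : ∀ u v : G ⧸ X, (CG X t).Adj u v → (CG X' t).Adj (π u) (π v) := by
    intro u v h
    rw [adj1] at h
    rw [adj1']
    obtain ⟨g, h⟩ := h
    refine ⟨g, ?_⟩
    rcases h with ⟨rfl, rfl⟩ | ⟨rfl, rfl⟩
    · left; exact ⟨rfl, rfl⟩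
    · right; exact ⟨rfl, rfl⟩
  let πh : CG X t →g CG X' t := ⟨π, fun {u v} h => πadj u v h⟩
  have πdist : ∀ u v : G ⧸ X, (CG X' t).dist (π u) (π v) ≤ (CG X t).dist u v := by
    intro u v
    obtain ⟨w, hw⟩ := (hconn.preconnected u v).exists_walk_length_eq_dist
    rw [← hw, ← SimpleGraph.Walk.length_map πh w]
    exact SimpleGraph.dist_le _
  have edge2 : ∀ (e : G) (p p1 : G ⧸ X'), (CG X' t).Adj p p1 → e • p = p → e • p1 = p1 →
      ∃ u : G ⧸ X, e • u = u ∧ (CG X' t).dist p (π u) ≤ 1 := by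
    intro e p p1 hadj h1 h2
    have hd : (CG X' t).dist p p1 = 1 := SimpleGraph.dist_eq_one_iff_adj.mpr hadj
    rw [adj1'] at hadj
    obtain ⟨g, ⟨rfl, rfl⟩ | ⟨rfl, rfl⟩⟩ := hadj
    · refine ⟨((g * t : G) : G ⧸ X), edge e g h1 h2, ?_⟩
      rw [hπ]; exact hd.le
    · refine ⟨((g * t : G) : G ⧸ X), edge e g h2 h1, ?_⟩
      rw [hπ, SimpleGraph.dist_self]; exact Nat.zero_le _
  have fixb : ∀ (g : G) (p q r : G ⧸ X'), g • p = p → g • q = q → Btw (CG X' t) p r q →
      g • r = r := (T4 (G ⧸ X') (CG X' t) td'.tree).2 G act'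
  have near : ∀ (e : G) (p q : G ⧸ X'), p ≠ q → e • p = p → e • q = q →
      ∃ u : G ⧸ X, e • u = u ∧ (CG X' t).dist p (π u) ≤ 1 := by
    intro e p q hne hp hq
    obtain ⟨p1, hadj, hb⟩ := first_step (CG X' t) hconn' p q hne
    exact edge2 e p p1 hadj hp (fixb e p q p1 hp hq hb)
  have NX' : ∀ n : H, hz n = 1 → em n ∈ X' := fun n hn => hle (st.NX n hn)
  refine ⟨st.sec, by omega, td', NX', ?_, ?_, ?_, st.J⟩
  · -- F1
    intro e he p q hp hq
    by_cases hpq : p = q
    · subst hpq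
      rw [SimpleGraph.dist_self]; exact Nat.zero_le _
    · obtain ⟨u, hu, hu1⟩ := near e p q hpq hp hq
      obtain ⟨u', hu', hu1'⟩ := near e q p (Ne.symm hpq) hq hp
      have h1 := st.F1 e he u u' hu hu'
      have h2 := πdist u u'
      have h3 : (CG X' t).dist p q ≤ (CG X' t).dist p (π u) + (CG X' t).dist (π u) q :=
        hconn'.dist_triangle
      have h4 : (CG X' t).dist (π u) q ≤ (CG X' t).dist (π u) (π u') +
        (CG X' t).dist (π u') q := hconn'.dist_triangle
      rw [SimpleGraph.dist_comm (u := π u') (v := q)] at h4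
      change (CG X t).dist u u' ≤ D at h1
      change (CG X' t).dist p q ≤ D + 2
      omega
  · -- F2
    intro n hn hn1 p hp
    have hv0 : em n • vx t X' 0 = vx t X' 0 := by
      unfold vx
      rw [fixiff']
      simpa using NX' n hn
    by_cases hpq : p = vx t X' 0
    · refine ⟨0, ?_⟩
      change (CG X' t).dist p (vx t X' 0) ≤ D + 2
      rw [← hpq, SimpleGraph.dist_self]; exact Nat.zero_le _
    · obtain ⟨u, hu, hu1⟩ := near (em n) p _ hpq hp hv0
      obtain ⟨j, hj⟩ := st.F2 n hn hn1 u hu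
      refine ⟨j, ?_⟩
      have h2 := πdist u (vx t X j)
      have h5 : π (vx t X j) = vx t X' j := rfl
      rw [h5] at h2
      have h3 : (CG X' t).dist p (vx t X' j) ≤ (CG X' t).dist p (π u) +
        (CG X' t).dist (π u) (vx t X' j) := hconn'.dist_triangle
      change (CG X t).dist u (vx t X j) ≤ D at hj
      change (CG X' t).dist p (vx t X' j) ≤ D + 2
      omega
  · -- F3
    intro e h0 h1
    change e • vx t X' 0 = vx t X' 0 at h0
    change e • vx t X' ((D + 2 : ℕ) : ℤ) = vx t X' ((D + 2 : ℕ) : ℤ) at h1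
    have hall : ∀ i : ℕ, i ≤ D + 2 → e • vx t X' (i : ℤ) = vx t X' (i : ℤ) := by
      intro i hi
      refine fixb e _ _ _ h0 h1 ?_
      unfold Btw
      rw [line1', line1', line1']
      omega
    have hv : ∀ i : ℕ, i + 1 ≤ D + 2 → e • vx t X ((i + 1 : ℕ) : ℤ) = vx t X ((i + 1 : ℕ) : ℤ) := by
      intro i hi
      have a1 := hall i (by omega)
      have a2 := hall (i + 1) hi
      have hpow : t ^ (((i + 1 : ℕ) : ℤ)) = t ^ ((i : ℤ)) * t := by
        push_cast
        rw [zpow_add, zpow_one]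
      unfold vx at a1 a2 ⊢
      rw [hpow] at a2 ⊢
      exact edge e _ a1 a2
    have b0 := hv 0 (by omega)
    have b1 := hv D (by omega)
    -- move by t⁻¹
    have mv : ∀ i : ℤ, e • vx t X (i + 1) = vx t X (i + 1) →
        (t⁻¹ * e * t) • vx t X i = vx t X i := by
      intro i hi
      have h2 : t • vx t X i = vx t X (i + 1) := by
        have := tvx i 1
        rwa [zpow_one] at this
      rw [mul_smul, mul_smul, h2, hi, ← h2, inv_smul_smul]
    have c0 : (t⁻¹ * e * t) • vx t X 0 = vx t X 0 := mv 0 (by simpa using b0)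
    have c1 : (t⁻¹ * e * t) • vx t X (D : ℤ) = vx t X (D : ℤ) := mv D (by simpa using b1)
    obtain ⟨n, hn, hen⟩ := st.F3 _ c0 c1
    refine ⟨th * n * th⁻¹, ?_, ?_⟩
    · simp [hn]
    · rw [map_mul, map_mul, map_inv, ← hen, ← ht]
      group

end Pool.Agent.D6b
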