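import Pool.Agent.Lib.MP_d6b03d_al.Stmts

/-!
MP_d6b03d_al, B3: change of the base `X` to `X ⊔ t X t⁻¹`.
-/

set_option autoImplicit false

namespace Pool.Agent.D6b

open Multiplicative HNNExtension

namespace BCTree

theorem mem_cj {G : Type} [Group G] {t : G} {X : Subgroup G} {g : G} :
    g ∈ cj t X ↔ ∃ x ∈ X, t * x * t⁻¹ = g := by
  simp [cj, Subgroup.mem_map]

/-- two homomorphisms agreeing on `X` and on `t X t⁻¹` agree on the join -/
theorem ext_join {G L : Type} [Group G] [Group L] (X : Subgroup G) (t : G)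
    (Ψ : G →* L) (ψ : ↥(X ⊔ cj t X) →* L)
    (hX : ∀ (x : G) (hx : x ∈ X), Ψ x = ψ ⟨x, Subgroup.mem_sup_left hx⟩)
    (hc : ∀ (x : G) (hx : x ∈ X), Ψ (t * x * t⁻¹) =
      ψ ⟨t * x * t⁻¹, Subgroup.mem_sup_right (mem_cj.2 ⟨x, hx, rfl⟩)⟩) :
    ∀ x : ↥(X ⊔ cj t X), Ψ x = ψ x := by
  have hle : X ⊔ cj t X ≤
      Subgroup.map (X ⊔ cj t X).subtype ((Ψ.comp (X ⊔ cj t X).subtype).eqLocus ψ) := by
    rw [sup_le_iff]
    constructor
    · intro x hx
      exact ⟨⟨x, Subgroup.mem_sup_left hx⟩, hX x hx, rfl⟩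
    · intro g hg
      obtain ⟨x, hx, rfl⟩ := mem_cj.1 hg
      exact ⟨⟨t * x * t⁻¹, Subgroup.mem_sup_right hg⟩, hc x hx, rfl⟩
  rintro ⟨x, hx⟩
  obtain ⟨y, hy, hyx⟩ := hle hx
  have hy' : Ψ y = ψ y := hy
  have : y = ⟨x, hx⟩ := Subtype.ext hyx
  rw [← this]
  exact hy'

end BCTree

open BCTree in
/-- B3 -/
theorem stBCTree (hB : StBasic) (h1 : StBS1) (h2 : StBS2) (hU : StUP) : StBCTree := by
  intro G _ X t η hTD
  have hker : X ⊔ cj t X ≤ η.ker := by
    rw [sup_le_iff]
    constructor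
    · intro x hx
      exact hTD.ht x hx
    · intro g hg
      obtain ⟨x, hx, rfl⟩ := mem_cj.1 hg
      simp [MonoidHom.mem_ker, hTD.ht x hx]
  constructor
  · refine hU G (X ⊔ cj t X) t η (fun x hx => hker hx) hTD.et ?_ ?_
    · obtain ⟨-, -, -, -, -, -, hcl, -⟩ := hB G X t η
      rw [eq_top_iff, ← hcl hTD]
      apply Subgroup.closure_mono
      apply Set.union_subset_union_left
      exact fun x hx => Subgroup.mem_sup_left hx
    · intro L _ ψ y hrel
      obtain ⟨Ψ, hΨX, hΨt⟩ := h2 G X t η hTD L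
        (ψ.comp (Subgroup.inclusion (le_sup_left : X ≤ X ⊔ cj t X))) y (by
          intro x x' hx
          exact hrel ⟨x, Subgroup.mem_sup_left x.2⟩ ⟨x', Subgroup.mem_sup_left x'.2⟩ hx)
      refine ⟨Ψ, ?_, hΨt⟩
      apply ext_join X t Ψ ψ
      · intro x hx
        exact hΨX ⟨x, hx⟩
      · intro x hx
        have hx1 : Ψ x = ψ ⟨x, Subgroup.mem_sup_left hx⟩ := hΨX ⟨x, hx⟩
        rw [map_mul, map_mul, map_inv, hΨt, hx1]
        exact hrel ⟨x, Subgroup.mem_sup_left hx⟩
          ⟨t * x * t⁻¹, Subgroup.mem_sup_right (mem_cj.2 ⟨x, hx, rfl⟩)⟩ rfl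
  · intro g hg hg'
    obtain ⟨x, hx, rfl⟩ := mem_cj.1 hg'
    -- the HNN extension of `X'` over `X ≃ t X t⁻¹`
    let X' : Subgroup G := X ⊔ cj t X
    let A : Subgroup X' := X.subgroupOf X'
    let B : Subgroup X' := (cj t X).subgroupOf X'
    let φ : A ≃* B :=
      { toFun := fun a => ⟨⟨t * ((a : X') : G) * t⁻¹,
          Subgroup.mem_sup_right (mem_cj.2 ⟨((a : X') : G), a.2, rfl⟩)⟩,
          (mem_cj.2 ⟨((a : X') : G), a.2, rfl⟩ : t * ((a : X') : G) * t⁻¹ ∈ cj t X)⟩
        invFun := fun b => ⟨⟨t⁻¹ * ((b : X') : G) * t, by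
            obtain ⟨x, hx, hxb⟩ := mem_cj.1 b.2
            have hxb' : t * x * t⁻¹ = ((b : X') : G) := hxb
            apply Subgroup.mem_sup_left
            rw [← hxb']
            simpa [mul_assoc] using hx⟩, by
            obtain ⟨x, hx, hxb⟩ := mem_cj.1 b.2
            have hxb' : t * x * t⁻¹ = ((b : X') : G) := hxb
            change t⁻¹ * ((b : X') : G) * t ∈ X
            rw [← hxb']
            simpa [mul_assoc] using hx⟩
        left_inv := by
          intro a
          ext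
          simp [mul_assoc]
        right_inv := by
          intro a
          ext
          simp [mul_assoc]
        map_mul' := by
          intro a b
          ext
          simp [mul_assoc] }
    obtain ⟨Ψ, hΨX, hΨt⟩ := h2 G X t η hTD (HNNExtension X' A B φ)
      (HNNExtension.of.comp (Subgroup.inclusion (le_sup_left : X ≤ X'))) HNNExtension.t (by
        intro x x' hx
        have := equiv_eq_conj (φ := φ) ⟨Subgroup.inclusion (le_sup_left : X ≤ X') x, x.2⟩
        simp only [MonoidHom.coe_comp, Function.comp_apply]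
        rw [← this]
        congr 1
        ext
        exact hx)
    have hΨ : ∀ x : X', Ψ x = HNNExtension.of x := by
      apply ext_join X t Ψ (HNNExtension.of (φ := φ))
      · intro x hx
        exact hΨX ⟨x, hx⟩
      · intro x hx
        have hx1 : Ψ x = HNNExtension.of (⟨x, Subgroup.mem_sup_left hx⟩ : X') := hΨX ⟨x, hx⟩
        rw [map_mul, map_mul, map_inv, hΨt, hx1]
        exact (equiv_eq_conj (φ := φ) ⟨⟨x, Subgroup.mem_sup_left hx⟩, hx⟩).symm
    have hfin := (h1 X' A B φ).2.1 ⟨t * x * t⁻¹, hg⟩ ⟨x, hx⟩ (by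
      rw [← hΨ, ← hΨ, ← hΨt]
      simp)
    exact hfin

end Pool.Agent.D6b
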