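import Pool.Agent.Lib.MP_d6b03d_al.Stmts

/-!
MP_d6b03d_al, module B1: the coset graph of an HNN extension is a tree.
-/

set_option autoImplicit false

namespace Pool.Agent.D6b

open Multiplicative

namespace BS1

variable {Γ : Type} [Group Γ] {A B : Subgroup Γ} {φ : A ≃* B}

/-- adjacency in the coset graph, one step from a given representative -/
theorem step (g : HNNExtension Γ A B φ)
    (v : HNNExtension Γ A B φ ⧸ (HNNExtension.of (φ := φ)).range)
    (h : (CG (HNNExtension.of (φ := φ)).range (HNNExtension.t (φ := φ))).Adj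
      (g : HNNExtension Γ A B φ ⧸ (HNNExtension.of (φ := φ)).range) v) :
    ∃ (x : Γ) (u : ℤˣ), v = ((g * HNNExtension.of x * HNNExtension.t ^ (u : ℤ) :
      HNNExtension Γ A B φ) : HNNExtension Γ A B φ ⧸ (HNNExtension.of (φ := φ)).range) := by
  unfold CG at h
  rw [SimpleGraph.fromRel_adj] at h
  obtain ⟨-, ⟨k, hk1, hk2⟩ | ⟨k, hk1, hk2⟩⟩ := h
  · rw [QuotientGroup.eq] at hk1
    obtain ⟨x, hx⟩ := hk1
    refine ⟨x, 1, ?_⟩
    rw [hk2, hx]
    simp
  · rw [QuotientGroup.eq] at hk2
    obtain ⟨x, hx⟩ := hk2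
    refine ⟨x, -1, ?_⟩
    rw [hk1, hx]
    simp

theorem conj_mem (u : ℤˣ) (x : Γ) (hx : x ∈ HNNExtension.toSubgroup A B u) :
    (HNNExtension.t ^ (u : ℤ) * HNNExtension.of x * HNNExtension.t ^ ((-u : ℤˣ) : ℤ) :
      HNNExtension Γ A B φ) ∈ (HNNExtension.of (φ := φ)).range := by
  rcases Int.units_eq_one_or u with rfl | rfl
  · refine ⟨φ ⟨x, hx⟩, ?_⟩
    rw [HNNExtension.equiv_eq_conj]
    simp
  · refine ⟨φ.symm ⟨x, hx⟩, ?_⟩
    rw [HNNExtension.equiv_symm_eq_conj]
    simp

/-- a non-backtracking path gives a reduced word -/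
theorem word (n : ℕ) : ∀ (p : ℕ → HNNExtension Γ A B φ ⧸ (HNNExtension.of (φ := φ)).range)
    (_ : ∀ i < n, (CG (HNNExtension.of (φ := φ)).range (HNNExtension.t (φ := φ))).Adj
      (p i) (p (i + 1)))
    (_ : ∀ i, i + 2 ≤ n → p i ≠ p (i + 2))
    (g : HNNExtension Γ A B φ) (_ : p 0 = (g : HNNExtension Γ A B φ ⧸ (HNNExtension.of (φ := φ)).range)),
    ∃ (x : Γ) (l : List (ℤˣ × Γ)), l.length = n ∧
      l.IsChain (fun a b => a.2 ∈ HNNExtension.toSubgroup A B a.1 → a.1 = b.1) ∧
      p n = ((g * (HNNExtension.of x *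
        (l.map (fun x => HNNExtension.t ^ (x.1 : ℤ) * HNNExtension.of x.2)).prod) :
        HNNExtension Γ A B φ) : HNNExtension Γ A B φ ⧸ (HNNExtension.of (φ := φ)).range) ∧
      ∀ y ∈ l.head?, p 1 = ((g * HNNExtension.of x * HNNExtension.t ^ (y.1 : ℤ) :
        HNNExtension Γ A B φ) : HNNExtension Γ A B φ ⧸ (HNNExtension.of (φ := φ)).range) := by
  induction n with
  | zero =>
    intro p _ _ g hg
    exact ⟨1, [], rfl, List.isChain_nil, by simpa using hg, by simp⟩
  | succ n ih =>
    intro p h1 h2 g hg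
    have h0 := h1 0 (Nat.succ_pos n)
    rw [hg] at h0
    obtain ⟨x, u, hxu⟩ := step g _ h0
    obtain ⟨x', l, hl, hc, hp, hh⟩ := ih (fun i => p (i + 1))
      (fun i hi => h1 (i + 1) (by omega)) (fun i hi => h2 (i + 1) (by omega)) _ hxu
    refine ⟨x, (u, x') :: l, by simp [hl], ?_, ?_, ?_⟩
    · rw [List.isChain_cons]
      refine ⟨?_, hc⟩
      intro y hy hx'
      by_contra hne
      have hy1 : y.1 = -u := by
        rcases Int.units_eq_one_or u with rfl | rfl <;>
          rcases Int.units_eq_one_or y.1 with h | h <;> simp_all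
      have h3 := hh y hy
      have h4 : n ≠ 0 := by
        rintro rfl
        rw [List.length_eq_zero_iff] at hl
        subst hl
        simp at hy
      apply h2 0 (by omega)
      have h5 : p (0 + 2) = p (1 + 1) := rfl
      rw [h5, h3, hg, QuotientGroup.eq, hy1]
      obtain ⟨z, hz⟩ := conj_mem (φ := φ) u x' hx'
      refine ⟨x * z, ?_⟩
      rw [map_mul, hz]
      group
    · rw [hp]
      simp [mul_assoc]
    · intro y hy
      simp only [List.head?_cons, Option.mem_def, Option.some.injEq] at hy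
      subst hy
      exact hxu

theorem closed (n : ℕ) (p : ℕ → HNNExtension Γ A B φ ⧸ (HNNExtension.of (φ := φ)).range)
    (h1 : ∀ i < n, (CG (HNNExtension.of (φ := φ)).range (HNNExtension.t (φ := φ))).Adj
      (p i) (p (i + 1)))
    (h2 : ∀ i, i + 2 ≤ n → p i ≠ p (i + 2)) (h : p n = p 0) : n = 0 := by
  obtain ⟨g, hg⟩ := QuotientGroup.mk_surjective (p 0)
  obtain ⟨x, l, hl, hc, hp, -⟩ := word n p h1 h2 g hg.symm
  rw [h, ← hg, QuotientGroup.eq] at hp
  let w : HNNExtension.NormalWord.ReducedWord Γ A B := ⟨x, l, hc⟩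
  have hw : w.toList = [] := by
    apply HNNExtension.ReducedWord.toList_eq_nil_of_mem_of_range φ w
    have e : g⁻¹ * (g * (HNNExtension.of x *
        (l.map (fun x => HNNExtension.t ^ (x.1 : ℤ) * HNNExtension.of x.2)).prod)) =
        w.prod φ := by
      rw [inv_mul_cancel_left]
      rfl
    rw [← e]
    exact hp
  rw [← hl]
  have : l = [] := hw
  rw [this]
  rfl

theorem acyclic : (CG (HNNExtension.of (φ := φ)).range (HNNExtension.t (φ := φ))).IsAcyclic := by
  intro v c hc
  have h3 := hc.three_le_length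
  have h4 : c.length = 0 := by
    apply closed c.length c.getVert (fun i hi => c.adj_getVert_succ hi)
    · intro i hi he
      by_cases h5 : i + 2 = c.length
      · have h6 : c.getVert i = c.getVert 0 := by
          rw [he, h5, SimpleGraph.Walk.getVert_length, SimpleGraph.Walk.getVert_zero]
        have h7 := hc.getVert_injOn' (by simp; omega) (by simp) h6
        omega
      · have h7 := hc.getVert_injOn' (by simp; omega) (by simp; omega) he
        omega
    · rw [SimpleGraph.Walk.getVert_length, SimpleGraph.Walk.getVert_zero]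
  omega

theorem reach (k g : HNNExtension Γ A B φ) :
    (CG (HNNExtension.of (φ := φ)).range (HNNExtension.t (φ := φ))).Reachable
      (k : HNNExtension Γ A B φ ⧸ (HNNExtension.of (φ := φ)).range)
      ((k * g : HNNExtension Γ A B φ) : HNNExtension Γ A B φ ⧸ (HNNExtension.of (φ := φ)).range) := by
  induction g using HNNExtension.induction_on generalizing k with
  | of x =>
    have : (k : HNNExtension Γ A B φ ⧸ (HNNExtension.of (φ := φ)).range) =
        ((k * HNNExtension.of x : HNNExtension Γ A B φ) : _ ⧸ _) := by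
      rw [QuotientGroup.eq]
      exact ⟨x, by simp⟩
    rw [← this]
  | t =>
    by_cases he : (k : HNNExtension Γ A B φ ⧸ (HNNExtension.of (φ := φ)).range) =
        ((k * HNNExtension.t : HNNExtension Γ A B φ) : _ ⧸ _)
    · rw [← he]
    · apply SimpleGraph.Adj.reachable
      unfold CG
      rw [SimpleGraph.fromRel_adj]
      exact ⟨he, Or.inl ⟨k, rfl, rfl⟩⟩
  | mul x y hx hy =>
    have := (hx k).trans (hy (k * x))
    rwa [mul_assoc] at this
  | inv x hx =>
    have := (hx (k * x⁻¹)).symm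
    rwa [inv_mul_cancel_right] at this

theorem tree : (CG (HNNExtension.of (φ := φ)).range (HNNExtension.t (φ := φ))).IsTree := by
  refine ⟨?_, acyclic⟩
  have : Nonempty (HNNExtension Γ A B φ ⧸ (HNNExtension.of (φ := φ)).range) :=
    ⟨((1 : HNNExtension Γ A B φ) : _ ⧸ _)⟩
  refine ⟨?_⟩
  intro u v
  obtain ⟨a, rfl⟩ := QuotientGroup.mk_surjective u
  obtain ⟨b, rfl⟩ := QuotientGroup.mk_surjective v
  have := reach (φ := φ) a (a⁻¹ * b)
  rwa [mul_inv_cancel_left] at this

theorem two (u : ℤˣ) (x y : Γ) (h : (HNNExtension.of x : HNNExtension Γ A B φ) =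
    HNNExtension.t ^ (u : ℤ) * HNNExtension.of y * HNNExtension.t ^ ((-u : ℤˣ) : ℤ)) :
    y ∈ HNNExtension.toSubgroup A B u := by
  by_contra hy
  let w : HNNExtension.NormalWord.ReducedWord Γ A B := ⟨1, [(u, y), (-u, 1)], by
    rw [List.isChain_cons]
    refine ⟨?_, List.isChain_singleton _⟩
    intro z _ hz
    exact absurd hz hy⟩
  have hw : w.toList = [] := by
    apply HNNExtension.ReducedWord.toList_eq_nil_of_mem_of_range φ w
    refine ⟨x, ?_⟩
    rw [h]
    simp [w, HNNExtension.NormalWord.ReducedWord.prod, mul_assoc]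
  simp [w] at hw

end BS1

theorem stBS1 : StBS1 := by
  intro Γ _ A B φ
  refine ⟨BS1.tree, ?_, ?_, ?_⟩
  · intro x y h
    have hy : y ∈ A := by
      have := BS1.two (φ := φ) 1 x y (by rw [h]; simp)
      simpa using this
    have h2 : (HNNExtension.of x : HNNExtension Γ A B φ) =
        HNNExtension.of ((φ ⟨y, hy⟩ : B) : Γ) := by
      rw [HNNExtension.equiv_eq_conj, h]
    rw [HNNExtension.of_injective φ h2]
    exact (φ ⟨y, hy⟩).2
  · intro x y h
    have hy : y ∈ B := by
      have := BS1.two (φ := φ) (-1) x y (by rw [h]; simp)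
      simpa using this
    have h2 : (HNNExtension.of x : HNNExtension Γ A B φ) =
        HNNExtension.of ((φ.symm ⟨y, hy⟩ : A) : Γ) := by
      rw [HNNExtension.equiv_symm_eq_conj, h]
    rw [HNNExtension.of_injective φ h2]
    exact (φ.symm ⟨y, hy⟩).2
  · refine ⟨HNNExtension.lift 1 (ofAdd 1) (fun a => by simp), fun x => by simp, by simp⟩

end Pool.Agent.D6b
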