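import Pool.Agent.Lib.MP_d6b03d_al.Stmts

/-!
MP_d6b03d_al, B2: a group acting on its coset tree has the universal property of the HNN
extension.
-/

set_option autoImplicit false

namespace Pool.Agent.D6b

open Multiplicative HNNExtension

namespace BS2

variable {G : Type} [Group G]

/-- `A = {x ∈ X | t x t⁻¹ ∈ X}` -/
def sA (X : Subgroup G) (t : G) : Subgroup X :=
  (X.comap (MulAut.conj t).toMonoidHom).comap X.subtype

/-- `B = {x ∈ X | t⁻¹ x t ∈ X}` -/
def sB (X : Subgroup G) (t : G) : Subgroup X :=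
  (X.comap (MulAut.conj t⁻¹).toMonoidHom).comap X.subtype

theorem mem_sA {X : Subgroup G} {t : G} {x : X} : x ∈ sA X t ↔ t * x * t⁻¹ ∈ X := Iff.rfl

theorem mem_sB {X : Subgroup G} {t : G} {x : X} : x ∈ sB X t ↔ t⁻¹ * x * t ∈ X := by
  have : x ∈ sB X t ↔ t⁻¹ * x * t⁻¹⁻¹ ∈ X := Iff.rfl
  rw [this, inv_inv]

/-- conjugation by `t` -/
def sφ (X : Subgroup G) (t : G) : sA X t ≃* sB X t where
  toFun a := ⟨⟨t * a * t⁻¹, mem_sA.1 a.2⟩, mem_sB.2 (by simp [mul_assoc])⟩
  invFun b := ⟨⟨t⁻¹ * b * t, mem_sB.1 b.2⟩, mem_sA.2 (by simp [mul_assoc])⟩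
  left_inv a := by ext; simp [mul_assoc]
  right_inv b := by ext; simp [mul_assoc]
  map_mul' a b := by ext; simp [mul_assoc]

@[simp] theorem coe_sφ (X : Subgroup G) (t : G) (a : sA X t) :
    (((sφ X t a : sB X t) : X) : G) = t * ((a : X) : G) * t⁻¹ := rfl

/-- the map from the HNN extension to `G` -/
noncomputable def Phi (X : Subgroup G) (t : G) : HNNExtension X (sA X t) (sB X t) (sφ X t) →* G :=
  HNNExtension.lift X.subtype t (by intro a; simp)

@[simp] theorem Phi_of (X : Subgroup G) (t : G) (x : X) : Phi X t (HNNExtension.of x) = x := by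
  simp [Phi]

@[simp] theorem Phi_t (X : Subgroup G) (t : G) : Phi X t HNNExtension.t = t := by
  simp [Phi]

/-- the partial products of a word -/
def pp (X : Subgroup G) (t : G) (x : X) (l : List (ℤˣ × X)) (i : ℕ) : G :=
  x * ((l.take i).map (fun y => t ^ (y.1 : ℤ) * (y.2 : G))).prod

theorem pp_succ (X : Subgroup G) (t : G) (x : X) (l : List (ℤˣ × X)) (i : ℕ) (h : i < l.length) :
    pp X t x l (i + 1) = pp X t x l i * (t ^ ((l[i]).1 : ℤ) * ((l[i]).2 : G)) := by
  unfold pp
  rw [← List.take_append_getElem h, List.map_append, List.prod_append]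
  simp only [List.map_cons, List.map_nil, List.prod_cons, List.prod_nil, mul_one]
  group

theorem pp_zero (X : Subgroup G) (t : G) (x : X) (l : List (ℤˣ × X)) : pp X t x l 0 = x := by
  simp [pp]

theorem reduced_nil (hL : StLocal) (hB : StBasic) {X : Subgroup G} {t : G}
    {η : G →* Multiplicative ℤ} (hTD : TD X t η) (x : X) (l : List (ℤˣ × X))
    (hc : l.IsChain (fun a b => a.2 ∈ toSubgroup (sA X t) (sB X t) a.1 → a.1 = b.1))
    (hp : pp X t x l l.length ∈ X) : l = [] := by
  obtain ⟨-, -, -, -, -, hAdj, -, -⟩ := hB G X t η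
  have hAdj := hAdj hTD.et hTD.ht
  have key := hL (G ⧸ X) (CG X t) hTD.tree l.length (fun i => ((pp X t x l i : G) : G ⧸ X)) ?_ ?_
  · -- the end points coincide
    have h0 : ((pp X t x l 0 : G) : G ⧸ X) = ((1 : G) : G ⧸ X) := by
      rw [pp_zero, QuotientGroup.eq]; simp
    have h1 : ((pp X t x l l.length : G) : G ⧸ X) = ((1 : G) : G ⧸ X) := by
      rw [QuotientGroup.eq]; simpa using hp
    simp only [h0, h1, SimpleGraph.dist_self] at key
    exact List.length_eq_zero_iff.1 key.symm
  · intro i hi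
    rw [hAdj]
    rw [pp_succ X t x l i hi]
    rcases Int.units_eq_one_or (l[i]).1 with h | h
    · refine ⟨pp X t x l i, Or.inl ⟨rfl, ?_⟩⟩
      rw [h, QuotientGroup.eq]
      simp
    · refine ⟨pp X t x l i * t⁻¹, Or.inr ⟨?_, ?_⟩⟩
      · rw [h, QuotientGroup.eq]
        simp
      · simp
  · intro i hi heq
    have hi0 : i < l.length := by omega
    have hi1 : i + 1 < l.length := by omega
    rw [QuotientGroup.eq, pp_succ X t x l (i + 1) hi1, pp_succ X t x l i hi0] at heq
    have hmem : t ^ ((l[i]).1 : ℤ) * ((l[i]).2 : G) * t ^ ((l[i + 1]).1 : ℤ) ∈ X := by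
      have := X.mul_mem heq (X.inv_mem (l[i + 1]).2.2)
      simpa [mul_assoc] using this
    have hchain := (List.isChain_iff_getElem.1 hc) i hi1
    have hη := hTD.ht _ hmem
    have hx2 : η ((l[i]).2 : G) = 1 := hTD.ht _ (l[i]).2.2
    rw [map_mul, map_mul, map_zpow, map_zpow, hTD.et, hx2, mul_one] at hη
    rcases Int.units_eq_one_or (l[i]).1 with h | h <;>
      rcases Int.units_eq_one_or (l[i + 1]).1 with h' | h'
    · rw [h, h'] at hη
      exact absurd hη (by decide)
    · rw [h, h'] at hchain hmem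
      have : (l[i]).2 ∈ toSubgroup (sA X t) (sB X t) 1 := by
        rw [toSubgroup_one, mem_sA]
        simpa using hmem
      exact absurd (hchain this) (by decide)
    · rw [h, h'] at hchain hmem
      have : (l[i]).2 ∈ toSubgroup (sA X t) (sB X t) (-1) := by
        rw [toSubgroup_neg_one, mem_sB]
        simpa using hmem
      exact absurd (hchain this) (by decide)
    · rw [h, h'] at hη
      exact absurd hη (by decide)

theorem Phi_prod (X : Subgroup G) (t : G) (x : X) (l : List (ℤˣ × X))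
    (hc : l.IsChain (fun a b => a.2 ∈ toSubgroup (sA X t) (sB X t) a.1 → a.1 = b.1)) :
    Phi X t (NormalWord.ReducedWord.prod (sφ X t) ⟨x, l, hc⟩) = pp X t x l l.length := by
  simp only [NormalWord.ReducedWord.prod, pp, List.take_length, map_mul, map_list_prod, List.map_map, Phi_of]
  congr 3
  funext y
  simp

theorem Phi_injective (hL : StLocal) (hB : StBasic) {X : Subgroup G} {t : G}
    {η : G →* Multiplicative ℤ} (hTD : TD X t η) : Function.Injective (Phi X t) := by
  rw [injective_iff_map_eq_one]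
  intro z hz
  obtain ⟨d⟩ := NormalWord.TransversalPair.nonempty X (sA X t) (sB X t)
  obtain ⟨w, rfl⟩ : ∃ w : NormalWord d, w.prod (sφ X t) = z :=
    ⟨NormalWord.equiv (sφ X t) d z, (NormalWord.equiv (sφ X t) d).symm_apply_apply z⟩
  have h1 : Phi X t (NormalWord.ReducedWord.prod (sφ X t) ⟨w.head, w.toList, w.chain⟩) = 1 := hz
  rw [Phi_prod] at h1
  have hnil : w.toList = [] := reduced_nil hL hB hTD w.head w.toList w.chain (by rw [h1]; exact one_mem X)
  have h2 : w.head = 1 := by
    rw [hnil] at h1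
    simpa [pp] using h1
  simp [NormalWord.ReducedWord.prod, hnil, h2]

theorem Phi_surjective (hB : StBasic) {X : Subgroup G} {t : G}
    {η : G →* Multiplicative ℤ} (hTD : TD X t η) : Function.Surjective (Phi X t) := by
  obtain ⟨-, -, -, -, -, -, hcl, -⟩ := hB G X t η
  have hcl := hcl hTD
  rw [← MonoidHom.range_eq_top, eq_top_iff, ← hcl, Subgroup.closure_le]
  rintro g (hg | hg)
  · exact ⟨HNNExtension.of ⟨g, hg⟩, by simp⟩
  · rw [Set.mem_singleton_iff] at hg
    subst hg
    exact ⟨HNNExtension.t, by simp⟩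

end BS2

open BS2 in
/-- B2 -/
theorem stBS2 (hL : StLocal) (hB : StBasic) : StBS2 := by
  intro G _ X t η hTD L _ ψ y hrel
  have hbij : Function.Bijective (Phi X t) := ⟨Phi_injective hL hB hTD, Phi_surjective hB hTD⟩
  let E : HNNExtension X (sA X t) (sB X t) (sφ X t) ≃* G := MulEquiv.ofBijective (Phi X t) hbij
  have hlift : ∀ a : sA X t, y * ψ (a : X) = ψ ((sφ X t a : sB X t) : X) * y := by
    intro a
    have := hrel (a : X) ((sφ X t a : sB X t) : X) (by simp)
    rw [← this]
    simp
  refine ⟨(HNNExtension.lift ψ y hlift).comp E.symm.toMonoidHom, ?_, ?_⟩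
  · intro x
    have : E.symm (x : G) = HNNExtension.of x := by
      rw [MulEquiv.symm_apply_eq]
      simp [E]
    simp [this]
  · have : E.symm t = HNNExtension.t := by
      rw [MulEquiv.symm_apply_eq]
      simp [E]
    simp [this]

end Pool.Agent.D6b
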