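import Pool.Agent.Lib.MP_d6b03d_al.Stmts

/-!
MP_d6b03d_al, M2: a base group with two kernels.
-/

set_option autoImplicit false

namespace Pool.Agent.D6b

open Multiplicative Base

namespace BaseEx

/-! ### the semidirect product `N ⋊ ℤ` for a unit `u` -/

/-- `N ⋊ ℤ`, where `1 : ℤ` acts by the unit `u` -/
structure SD {R : Type} [CommRing R] (u : Rˣ) (N : Type) [AddCommGroup N] [Module R N] where
  v : N
  m : ℤ

section SDsec

variable {R : Type} [CommRing R] (u : Rˣ) (N : Type) [AddCommGroup N] [Module R N]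

variable {u N} in
theorem SD.ext' {x y : SD u N} (h1 : x.v = y.v) (h2 : x.m = y.m) : x = y := by
  cases x; cases y; cases h1; cases h2; rfl

instance : Mul (SD u N) := ⟨fun x y => ⟨x.v + (u ^ x.m) • y.v, x.m + y.m⟩⟩
instance : One (SD u N) := ⟨⟨0, 0⟩⟩
instance : Inv (SD u N) := ⟨fun x => ⟨-((u ^ (-x.m)) • x.v), -x.m⟩⟩

variable {u N}

theorem mul_v (x y : SD u N) : (x * y).v = x.v + (u ^ x.m) • y.v := rfl
theorem mul_m (x y : SD u N) : (x * y).m = x.m + y.m := rfl
theorem one_v : (1 : SD u N).v = 0 := rfl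
theorem one_m : (1 : SD u N).m = 0 := rfl
theorem inv_v (x : SD u N) : (x⁻¹).v = -((u ^ (-x.m)) • x.v) := rfl
theorem inv_m (x : SD u N) : (x⁻¹).m = -x.m := rfl

instance : Group (SD u N) := Group.ofLeftAxioms
  (by
    intro x y z
    apply SD.ext'
    · simp only [mul_v, mul_m, smul_add, zpow_add, mul_smul, add_assoc]
    · simp only [mul_m, add_assoc])
  (by
    intro x
    apply SD.ext'
    · simp only [mul_v, one_v, one_m, zpow_zero, one_smul, zero_add]
    · simp only [mul_m, one_m, zero_add])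
  (by
    intro x
    apply SD.ext'
    · simp only [mul_v, inv_v, inv_m, one_v, neg_add_cancel]
    · simp only [mul_m, inv_m, one_m, neg_add_cancel])

/-- the height -/
def sdh : SD u N →* Multiplicative ℤ where
  toFun x := ofAdd x.m
  map_one' := rfl
  map_mul' x y := by rw [mul_m, ofAdd_add]

/-- the section of the height -/
def sds : Multiplicative ℤ →* SD u N where
  toFun n := ⟨0, toAdd n⟩
  map_one' := rfl
  map_mul' x y := by
    apply SD.ext'
    · simp only [mul_v, smul_zero, add_zero]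
    · simp only [mul_m, toAdd_mul]

theorem sdh_iff (x : SD u N) : sdh x = 1 ↔ x.m = 0 := Iff.rfl

theorem th_zpow (k : ℤ) : ((⟨0, 1⟩ : SD u N)) ^ k = ⟨0, k⟩ := by
  have h : (⟨0, 1⟩ : SD u N) = sds (ofAdd 1) := rfl
  rw [h, ← map_zpow, ← ofAdd_zsmul, smul_eq_mul, mul_one]
  rfl

/-- the base structure -/
@[reducible] def sdBase (htf : ∀ (k : ℕ) (x : N), 0 < k → k • x = 0 → x = 0)
    (hnt : ∃ x : N, x ≠ 0)
    (hs : ∀ m : ℤ, m ≠ 0 → ∀ x : N, ∃ y : N, y - (u ^ m) • y = x) : Base (SD u N) where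
  hz := sdh
  th := ⟨0, 1⟩
  hz_th := rfl
  comm := by
    intro x y hx hy
    rw [sdh_iff] at hx hy
    apply SD.ext'
    · simp only [mul_v, hx, hy, zpow_zero, one_smul, add_comm]
    · simp only [mul_m, hx, hy]
  tf := by
    intro x hx k hk hxk
    rw [sdh_iff] at hx
    have h1 : ∀ j : ℕ, (x ^ j) = ⟨j • x.v, 0⟩ := by
      intro j
      induction j with
      | zero =>
        rw [pow_zero, zero_smul]
        rfl
      | succ j ih =>
        rw [pow_succ, ih]
        apply SD.ext'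
        · simp only [mul_v, zpow_zero, one_smul, succ_nsmul]
        · simp only [mul_m, hx, add_zero]
    rw [h1] at hxk
    have h2 : k • x.v = 0 := congrArg SD.v hxk
    exact SD.ext' (htf k x.v hk h2) hx
  nt := by
    obtain ⟨x, hx⟩ := hnt
    exact ⟨⟨x, 0⟩, rfl, fun h => hx (congrArg SD.v h)⟩
  surj := by
    intro m hm x hx
    rw [sdh_iff] at hx
    obtain ⟨y, hy⟩ := hs m hm x.v
    refine ⟨⟨y, 0⟩, rfl, ?_⟩
    rw [th_zpow]
    apply SD.ext'
    · simp only [mul_v, mul_m, inv_v, hx, zpow_zero, one_smul, smul_zero, add_zero,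
        zero_add, smul_neg, neg_zero]
      rw [← hy, sub_eq_add_neg]
    · simp only [mul_m, inv_m, hx, neg_zero, add_zero]

end SDsec

/-! ### the subgroups coming from submodules -/

section Sub

variable {R : Type} [CommRing R] {u : Rˣ} {N : Type} [AddCommGroup N] [Module R N]
  {K : Type} [AddCommGroup K] [Module R K]

/-- the subgroup of `N ⋊ ℤ` given by a submodule -/
def sub (u : Rˣ) (j : K →ₗ[R] N) : Subgroup (SD u N) where
  carrier := {x | x.m = 0 ∧ ∃ a : K, x.v = j a}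
  mul_mem' := by
    rintro x y ⟨hx, a, ha⟩ ⟨hy, b, hb⟩
    refine ⟨by rw [mul_m, hx, hy, add_zero], a + b, ?_⟩
    rw [mul_v, hx, zpow_zero, one_smul, ha, hb, map_add]
  one_mem' := ⟨rfl, 0, by rw [map_zero, one_v]⟩
  inv_mem' := by
    rintro x ⟨hx, a, ha⟩
    refine ⟨by rw [inv_m, hx, neg_zero], -a, ?_⟩
    rw [inv_v, hx, neg_zero, zpow_zero, one_smul, ha, map_neg]

theorem mem_sub (j : K →ₗ[R] N) (x : SD u N) : x ∈ sub u j ↔ x.m = 0 ∧ ∃ a : K, x.v = j a :=
  Iff.rfl

theorem sub_conj (j : K →ₗ[R] N) (x : SD u N) :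
    x ∈ sub u j ↔ (⟨0, 1⟩ : SD u N) * x * (⟨0, 1⟩ : SD u N)⁻¹ ∈ sub u j := by
  have hv : ((⟨0, 1⟩ : SD u N) * x * (⟨0, 1⟩ : SD u N)⁻¹).v = u • x.v := by
    simp only [mul_v, mul_m, inv_v, smul_zero, neg_zero, zpow_one, zero_add, add_zero]
  have hm : ((⟨0, 1⟩ : SD u N) * x * (⟨0, 1⟩ : SD u N)⁻¹).m = x.m := by
    simp only [mul_m, inv_m]
    omega
  rw [mem_sub, mem_sub, hv, hm]
  refine and_congr_right fun _ => ⟨?_, ?_⟩
  · rintro ⟨a, ha⟩
    refine ⟨u • a, ?_⟩
    rw [ha, Units.smul_def, Units.smul_def, map_smul]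
  · rintro ⟨a, ha⟩
    refine ⟨u⁻¹ • a, ?_⟩
    rw [Units.smul_def, map_smul, ← ha, ← Units.smul_def, inv_smul_smul]

theorem sub_surj (j : K →ₗ[R] N) (hs : ∀ m : ℤ, m ≠ 0 → ∀ x : K, ∃ y : K, y - (u ^ m) • y = x)
    (m : ℤ) (hm : m ≠ 0) (x : SD u N) (hx : x ∈ sub u j) :
    ∃ y : SD u N, y ∈ sub u j ∧ y * (⟨0, 1⟩ : SD u N) ^ m * y⁻¹ = x * (⟨0, 1⟩ : SD u N) ^ m := by
  obtain ⟨hx0, a, ha⟩ := hx
  obtain ⟨b, hb⟩ := hs m hm a
  refine ⟨⟨j b, 0⟩, ⟨rfl, b, rfl⟩, ?_⟩
  rw [th_zpow]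
  apply SD.ext'
  · simp only [mul_v, mul_m, inv_v, hx0, zpow_zero, one_smul, smul_zero, add_zero,
      zero_add, smul_neg, neg_zero]
    rw [ha, ← hb, map_sub, sub_eq_add_neg, Units.smul_def, Units.smul_def, map_smul]
  · simp only [mul_m, inv_m, hx0, neg_zero, add_zero]

theorem sub_cent (j : K →ₗ[R] N) (hj : Function.Injective j)
    (hi : ∀ m : ℤ, m ≠ 0 → ∀ x : K, (u ^ m) • x = x → x = 0)
    (m : ℤ) (hm : m ≠ 0) (x : SD u N) (hx : x ∈ sub u j)
    (hc : x * (⟨0, 1⟩ : SD u N) ^ m = (⟨0, 1⟩ : SD u N) ^ m * x) : x = 1 := by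
  obtain ⟨hx0, a, ha⟩ := hx
  rw [th_zpow] at hc
  have h1 := congrArg SD.v hc
  simp only [mul_v, hx0, zpow_zero, smul_zero, add_zero, zero_add] at h1
  rw [ha, Units.smul_def, ← map_smul, ← Units.smul_def] at h1
  have h2 := hi m hm a (hj h1).symm
  apply SD.ext'
  · rw [ha, h2, map_zero, one_v]
  · rw [hx0, one_m]

end Sub

/-! ### the ring of rational functions without pole at `1` -/

/-- abbreviation for the field of rational functions -/
abbrev KK := RatFunc ℚ

/-- rational functions without pole at 1 -/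
noncomputable def RR : Subring KK where
  carrier := {f | f.denom.eval 1 ≠ 0}
  mul_mem' := by
    intro f g hf hg
    obtain ⟨c, hc⟩ := RatFunc.denom_mul_dvd f g
    intro h
    have h2 := congrArg (Polynomial.eval 1) hc
    rw [Polynomial.eval_mul, Polynomial.eval_mul, h, zero_mul] at h2
    exact mul_ne_zero hf hg h2
  one_mem' := by
    show Polynomial.eval 1 (RatFunc.denom (1 : KK)) ≠ 0
    rw [RatFunc.denom_one, Polynomial.eval_one]
    exact one_ne_zero
  add_mem' := by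
    intro f g hf hg
    obtain ⟨c, hc⟩ := RatFunc.denom_add_dvd f g
    intro h
    have h2 := congrArg (Polynomial.eval 1) hc
    rw [Polynomial.eval_mul, Polynomial.eval_mul, h, zero_mul] at h2
    exact mul_ne_zero hf hg h2
  zero_mem' := by
    show Polynomial.eval 1 (RatFunc.denom (0 : KK)) ≠ 0
    rw [RatFunc.denom_zero, Polynomial.eval_one]
    exact one_ne_zero
  neg_mem' := by
    intro f hf
    have h1 : RatFunc.denom (-f) ∣ RatFunc.denom f := by
      rw [RatFunc.denom_dvd (RatFunc.denom_ne_zero f)]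
      refine ⟨-f.num, ?_⟩
      rw [map_neg, neg_div, RatFunc.num_div_denom]
    obtain ⟨c, hc⟩ := h1
    intro h
    have h2 := congrArg (Polynomial.eval 1) hc
    rw [Polynomial.eval_mul, h, zero_mul] at h2
    exact hf h2

theorem mem_RR (f : KK) : f ∈ RR ↔ f.denom.eval 1 ≠ 0 := Iff.rfl

theorem mem_RR_of_div (p q : Polynomial ℚ) (hq : q.eval 1 ≠ 0) :
    (algebraMap (Polynomial ℚ) KK p) / (algebraMap (Polynomial ℚ) KK q) ∈ RR := by
  have hq0 : q ≠ 0 := by
    rintro rfl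
    exact hq Polynomial.eval_zero
  have h1 : RatFunc.denom ((algebraMap (Polynomial ℚ) KK p) / (algebraMap (Polynomial ℚ) KK q)) ∣
      q := by
    rw [RatFunc.denom_dvd hq0]
    exact ⟨p, rfl⟩
  obtain ⟨c, hc⟩ := h1
  rw [mem_RR]
  intro h
  apply hq
  rw [hc, Polynomial.eval_mul, h, zero_mul]

theorem X_mem : (RatFunc.X : KK) ∈ RR := by
  have h := mem_RR_of_div Polynomial.X 1 (by rw [Polynomial.eval_one]; exact one_ne_zero)
  rwa [map_one, div_one, RatFunc.algebraMap_X] at h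

theorem Xinv_mem : (RatFunc.X : KK)⁻¹ ∈ RR := by
  have h := mem_RR_of_div 1 Polynomial.X (by rw [Polynomial.eval_X]; exact one_ne_zero)
  rwa [map_one, one_div, RatFunc.algebraMap_X] at h

theorem const_mem (k : ℕ) : ((k : KK))⁻¹ ∈ RR := by
  rcases Nat.eq_zero_or_pos k with rfl | hk
  · rw [Nat.cast_zero, inv_zero]
    exact RR.zero_mem
  · have h := mem_RR_of_div 1 (k : Polynomial ℚ) (by
      rw [Polynomial.eval_natCast]
      exact Nat.cast_ne_zero.mpr hk.ne')
    rwa [map_one, one_div, map_natCast] at h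

theorem pole_not_mem : ((RatFunc.X : KK) - 1)⁻¹ ∉ RR := by
  intro h
  rw [mem_RR] at h
  have hX : (RatFunc.X : KK) - 1 ≠ 0 := by
    rw [← RatFunc.algebraMap_X, ← map_one (algebraMap (Polynomial ℚ) KK), ← map_sub]
    apply RatFunc.algebraMap_ne_zero
    exact Polynomial.X_sub_C_ne_zero 1
  have h1 := RatFunc.num_div_denom (((RatFunc.X : KK) - 1)⁻¹)
  set p := RatFunc.num (((RatFunc.X : KK) - 1)⁻¹) with hp
  set q := RatFunc.denom (((RatFunc.X : KK) - 1)⁻¹) with hq
  have hq0 : algebraMap (Polynomial ℚ) KK q ≠ 0 :=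
    RatFunc.algebraMap_ne_zero (RatFunc.denom_ne_zero _)
  rw [div_eq_iff hq0] at h1
  have h2 : (algebraMap (Polynomial ℚ) KK p) * ((RatFunc.X : KK) - 1) =
      algebraMap (Polynomial ℚ) KK q := by
    rw [h1]
    field_simp
  rw [← RatFunc.algebraMap_X, ← map_one (algebraMap (Polynomial ℚ) KK), ← map_sub,
    ← map_mul] at h2
  have h3 := RatFunc.algebraMap_injective ℚ h2
  apply h
  rw [← h3, Polynomial.eval_mul, Polynomial.eval_sub, Polynomial.eval_X, Polynomial.eval_one,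
    sub_self, mul_zero]

/-- the unit `X` -/
noncomputable def uu : RRˣ where
  val := ⟨RatFunc.X, X_mem⟩
  inv := ⟨(RatFunc.X)⁻¹, Xinv_mem⟩
  val_inv := by
    apply Subtype.ext
    exact mul_inv_cancel₀ RatFunc.X_ne_zero
  inv_val := by
    apply Subtype.ext
    exact inv_mul_cancel₀ RatFunc.X_ne_zero

theorem uu_zpow (m : ℤ) : ((((uu ^ m : RRˣ)) : RR) : KK) = (RatFunc.X : KK) ^ m := by
  have h := map_zpow (Units.map (RR.subtype : RR →* KK)) uu m
  have h2 := congrArg (fun x : KKˣ => (x : KK)) h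
  simp only [Units.coe_map, Units.val_zpow_eq_zpow_val] at h2
  exact h2

theorem uu_smul (m : ℤ) (a : KK) : (uu ^ m) • a = (RatFunc.X : KK) ^ m * a := by
  rw [Units.smul_def, Subring.smul_def, uu_zpow, smul_eq_mul]

theorem X_pow_ne (n : ℕ) (hn : n ≠ 0) : (RatFunc.X : KK) ^ n ≠ 1 := by
  intro h
  rw [← RatFunc.algebraMap_X, ← map_one (algebraMap (Polynomial ℚ) KK), ← map_pow] at h
  have h2 := RatFunc.algebraMap_injective ℚ h
  have h3 := congrArg Polynomial.natDegree h2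
  rw [Polynomial.natDegree_X_pow, Polynomial.natDegree_one] at h3
  exact hn h3

theorem X_zpow_ne (m : ℤ) (hm : m ≠ 0) : (RatFunc.X : KK) ^ m ≠ 1 := by
  intro h
  rcases Int.eq_nat_or_neg m with ⟨n, rfl | rfl⟩
  · rw [zpow_natCast] at h
    exact X_pow_ne n (by simpa using hm) h
  · rw [zpow_neg, zpow_natCast, inv_eq_one] at h
    exact X_pow_ne n (by simpa using hm) h

theorem K_surj (m : ℤ) (hm : m ≠ 0) (x : KK) : ∃ y : KK, y - (uu ^ m) • y = x := by
  have h : (1 : KK) - RatFunc.X ^ m ≠ 0 := sub_ne_zero.mpr (X_zpow_ne m hm).symm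
  refine ⟨(1 - RatFunc.X ^ m)⁻¹ * x, ?_⟩
  rw [uu_smul]
  field_simp

theorem K_inj (m : ℤ) (hm : m ≠ 0) (x : KK) (hx : (uu ^ m) • x = x) : x = 0 := by
  have h : (1 : KK) - RatFunc.X ^ m ≠ 0 := sub_ne_zero.mpr (X_zpow_ne m hm).symm
  rw [uu_smul] at hx
  have h2 : (1 - RatFunc.X ^ m) * x = 0 := by rw [sub_mul, hx, one_mul, sub_self]
  exact (mul_eq_zero.mp h2).resolve_left h

/-- `RR` as a submodule of `KK` -/
noncomputable def WW : Submodule RR KK where
  carrier := RR
  add_mem' := RR.add_mem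
  zero_mem' := RR.zero_mem
  smul_mem' := by
    intro c x hx
    exact RR.mul_mem c.2 hx

theorem mem_WW (f : KK) : f ∈ WW ↔ f ∈ RR := Iff.rfl

/-- the module `K × K / W` -/
abbrev NN := KK × (KK ⧸ WW)

theorem N_tf (k : ℕ) (x : NN) (hk : 0 < k) (hx : k • x = 0) : x = 0 := by
  obtain ⟨a, b⟩ := x
  obtain ⟨b, rfl⟩ := Submodule.Quotient.mk_surjective WW b
  have hk0 : (k : KK) ≠ 0 := Nat.cast_ne_zero.mpr hk.ne'
  have h1 : k • a = 0 := congrArg Prod.fst hx
  have h2 : k • (Submodule.Quotient.mk b : KK ⧸ WW) = 0 := congrArg Prod.snd hx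
  rw [← Submodule.Quotient.mk_smul, Submodule.Quotient.mk_eq_zero, mem_WW, nsmul_eq_mul] at h2
  rw [nsmul_eq_mul] at h1
  have ha : a = 0 := (mul_eq_zero.mp h1).resolve_left hk0
  have hb : b ∈ RR := by
    have h3 := RR.mul_mem (const_mem k) h2
    rwa [← mul_assoc, inv_mul_cancel₀ hk0, one_mul] at h3
  rw [ha, Prod.mk_eq_zero, Submodule.Quotient.mk_eq_zero]
  exact ⟨rfl, hb⟩

theorem N_surj (m : ℤ) (hm : m ≠ 0) (x : NN) : ∃ y : NN, y - (uu ^ m) • y = x := by
  obtain ⟨a, b⟩ := x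
  obtain ⟨b, rfl⟩ := Submodule.Quotient.mk_surjective WW b
  obtain ⟨a', ha⟩ := K_surj m hm a
  obtain ⟨b', hb⟩ := K_surj m hm b
  refine ⟨(a', Submodule.Quotient.mk b'), ?_⟩
  rw [Units.smul_def] at ha hb ⊢
  rw [← ha, ← hb]
  rfl

/-- first embedding -/
noncomputable def j1 : KK →ₗ[RR] NN := LinearMap.inl RR KK (KK ⧸ WW)

/-- second embedding -/
noncomputable def j2 : KK →ₗ[RR] NN := LinearMap.prod LinearMap.id WW.mkQ

theorem j1_inj : Function.Injective j1 := LinearMap.inl_injective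

theorem j2_inj : Function.Injective j2 := fun _ _ h => congrArg Prod.fst h

instance countable_poly : Countable (Polynomial ℚ) := by
  have h : Cardinal.mk (Polynomial ℚ) ≤ Cardinal.aleph0 := by
    refine (Polynomial.cardinalMk_le_max).trans ?_
    simp
  exact Cardinal.mk_le_aleph0_iff.mp h

instance countable_KK : Countable KK := by
  have h : Function.Surjective (fun pq : Polynomial ℚ × Polynomial ℚ =>
      (algebraMap (Polynomial ℚ) KK pq.1) / (algebraMap (Polynomial ℚ) KK pq.2)) := by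
    intro f
    exact ⟨(f.num, f.denom), RatFunc.num_div_denom f⟩
  exact h.countable

instance countable_SD : Countable (SD uu NN) := by
  have hq : Countable (KK ⧸ WW) := (Submodule.Quotient.mk_surjective WW).countable
  have h : Function.Injective (fun x : SD uu NN => (x.v, x.m)) := by
    intro x y hxy
    exact SD.ext' (congrArg Prod.fst hxy) (congrArg Prod.snd hxy)
  exact h.countable

end BaseEx

open BaseEx in
/-- M2: the base group with its two kernels -/
theorem stBaseEx : StBaseEx := by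
  have hnt : ∃ x : NN, x ≠ 0 := ⟨(1, 0), fun h => one_ne_zero (congrArg Prod.fst h)⟩
  refine ⟨SD uu NN, inferInstance, sdBase N_tf hnt N_surj, countable_SD, ?_⟩
  refine ⟨sub uu j1, sub uu j2, fun x hx => (sdh_iff x).mpr hx.1, fun x hx => (sdh_iff x).mpr hx.1,
    sub_conj j1, sub_conj j2, fun m hm x hx => sub_surj j1 K_surj m hm x hx,
    fun m hm x hx => sub_surj j2 K_surj m hm x hx,
    fun m hm x hx hc => sub_cent j1 j1_inj K_inj m hm x hx hc,
    fun m hm x hx hc => sub_cent j2 j2_inj K_inj m hm x hx hc, ?_⟩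
  have hX : (RatFunc.X : KK) - 1 ≠ 0 := by
    rw [← RatFunc.algebraMap_X, ← map_one (algebraMap (Polynomial ℚ) KK), ← map_sub]
    apply RatFunc.algebraMap_ne_zero
    exact Polynomial.X_sub_C_ne_zero 1
  set r : KK := (RatFunc.X - 1)⁻¹ with hr
  have hv : (⟨j1 (-r), 0⟩ : SD uu NN) * ⟨j2 r, 0⟩ =
      ⟨((0, Submodule.Quotient.mk r) : NN), 0⟩ := by
    apply SD.ext'
    · simp only [mul_v, zpow_zero, one_smul]
      show ((-r, 0) : NN) + ((r, Submodule.Quotient.mk r) : NN) = (0, Submodule.Quotient.mk r)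
      rw [Prod.mk_add_mk, neg_add_cancel, zero_add]
    · rfl
  refine ⟨⟨j1 (-r), 0⟩, ⟨j2 r, 0⟩, ⟨rfl, -r, rfl⟩, ⟨rfl, r, rfl⟩, ?_, ?_⟩
  · rw [hv]
    intro h
    have h1 : ((0, Submodule.Quotient.mk r) : NN) = 0 := congrArg SD.v h
    have h2 : (Submodule.Quotient.mk r : KK ⧸ WW) = 0 := congrArg Prod.snd h1
    rw [Submodule.Quotient.mk_eq_zero] at h2
    exact pole_not_mem h2
  · rw [hv]
    apply SD.ext'
    · show ((0, Submodule.Quotient.mk r) : NN) + (uu ^ (0 : ℤ)) • (0 : NN) =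
        0 + (uu ^ (1 : ℤ)) • ((0, Submodule.Quotient.mk r) : NN)
      rw [smul_zero, add_zero, zero_add]
      have h1 : (uu ^ (1 : ℤ)) • ((0, Submodule.Quotient.mk r) : NN) =
          ((uu ^ (1 : ℤ)) • (0 : KK), (Submodule.Quotient.mk ((uu ^ (1 : ℤ)) • r) : KK ⧸ WW)) := rfl
      rw [h1, smul_zero, uu_smul, zpow_one]
      congr 1
      rw [eq_comm, Submodule.Quotient.eq]
      have h2 : RatFunc.X * r - r = 1 := by
        rw [hr]
        field_simp
      rw [h2]
      exact RR.one_mem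
    · rfl

end Pool.Agent.D6b
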