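import Pool.Agent.Lib.MP_d6b03d_al.Defs

/-!
MP_d6b03d_al: statements of the modules (all of them are `Prop`s; each module proves one of them,
possibly from others as hypotheses).
-/

set_option autoImplicit false

namespace Pool.Agent.D6b

open Multiplicative Base

/-! ## Trees -/

/-- T1: four point condition -/
def StFourPt : Prop := ∀ (V : Type) (S : SimpleGraph V), S.IsTree → ∀ x y z w : V,
  S.dist x y + S.dist z w ≤ max (S.dist x z + S.dist y w) (S.dist x w + S.dist y z)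

/-- T2: local geodesics are geodesics -/
def StLocal : Prop := ∀ (V : Type) (S : SimpleGraph V), S.IsTree → ∀ (n : ℕ) (p : ℕ → V),
  (∀ i < n, S.Adj (p i) (p (i + 1))) → (∀ i, i + 2 ≤ n → p i ≠ p (i + 2)) →
  S.dist (p 0) (p n) = n

/-- T3: subgraphs of trees -/
def StSub : Prop := ∀ (V : Type) (S' S : SimpleGraph V), S' ≤ S → S.IsTree → ∀ u v : V,
  S'.Reachable u v → (S.Adj u v → S'.Adj u v) ∧ ∀ r, Btw S u r v → S'.Reachable u r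

/-- T4: points between are determined by the distance; fixed point sets are convex -/
def StBtwU : Prop := ∀ (V : Type) (S : SimpleGraph V), S.IsTree →
  (∀ p q r r' : V, Btw S p r q → Btw S p r' q → S.dist p r = S.dist p r' → r = r') ∧
  ∀ (G : Type) [Group G] [MulAction G V], ActsOn S G → ∀ (g : G) (p q r : V),
    g • p = p → g • q = q → Btw S p r q → g • r = r

/-- T5: concatenation with small overlaps -/
def StConcat : Prop := ∀ (V : Type) (S : SimpleGraph V), S.IsTree →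
  ∀ (n : ℕ) (p : ℕ → V) (c : ℕ → ℕ),
  (∀ i, 1 ≤ i → i < n → S.dist (p (i - 1)) (p i) + S.dist (p i) (p (i + 1)) ≤
    S.dist (p (i - 1)) (p (i + 1)) + 2 * c i) →
  (∀ i < n, c i + c (i + 1) < S.dist (p i) (p (i + 1))) →
  (∑ i ∈ Finset.range n, (S.dist (p i) (p (i + 1)) - c i - c (i + 1)) ≤ S.dist (p 0) (p n)) ∧
  ∀ j < n, ∀ x : V, Btw S (p j) x (p (j + 1)) → c j ≤ S.dist (p j) x →
    c (j + 1) ≤ S.dist x (p (j + 1)) → Btw S (p 0) x (p n)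

/-- T6: a geodesic with both ends close to a line runs in the line except near its ends -/
def StNear : Prop := ∀ (V : Type) (S : SimpleGraph V), S.IsTree → ∀ (L : ℤ → V), IsLine S L →
  ∀ (r D : ℕ) (p : ℕ → V), (∀ i ≤ r, ∀ j ≤ r, S.dist (p i) (p j) = ((i : ℤ) - j).natAbs) →
  (∃ a : ℤ, S.dist (p 0) (L a) ≤ D) → (∃ b : ℤ, S.dist (p r) (L b) ≤ D) →
  ∀ i, D ≤ i → i + D ≤ r → ∃ j : ℤ, p i = L j

/-- T7: lines at bounded distance coincide -/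
def StClose : Prop := ∀ (V : Type) (S : SimpleGraph V), S.IsTree → ∀ (L L' : ℤ → V),
  IsLine S L → IsLine S L' → ∀ R : ℕ, (∀ i : ℤ, ∃ j : ℤ, S.dist (L' i) (L j) ≤ R) →
  ∃ c ε : ℤ, (ε = 1 ∨ ε = -1) ∧ ∀ i : ℤ, L' i = L (c + ε * i)

/-- T8: an automorphism without fixed vertices has an axis -/
def StAxis : Prop := ∀ (V : Type) (S : SimpleGraph V), S.IsTree →
  ∀ (G : Type) [Group G] [MulAction G V], ActsOn S G → NoInv S G → ∀ g : G,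
  (∀ v : V, g • v ≠ v) → ∃ (m : ℕ) (L : ℤ → V), 1 ≤ m ∧ IsLine S L ∧
    ∀ i : ℤ, g • L i = L (i + m)

/-- T9: the axis is in every invariant convex set, and commuting elements translate it -/
def StAxisIn : Prop := ∀ (V : Type) (S : SimpleGraph V), S.IsTree →
  ∀ (G : Type) [Group G] [MulAction G V], ActsOn S G → ∀ (g : G) (m : ℕ) (L : ℤ → V), 1 ≤ m →
  IsLine S L → (∀ i : ℤ, g • L i = L (i + m)) →
  (∀ U : Set V, Cvx S U → U.Nonempty → (∀ u ∈ U, g • u ∈ U) → (∀ u ∈ U, g⁻¹ • u ∈ U) →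
    ∀ i : ℤ, L i ∈ U) ∧
  ∀ h : G, g * h = h * g → ∃ c : ℤ, ∀ i : ℤ, h • L i = L (i + c)

/-- T10: a fixed vertex projects to a fixed vertex of an invariant convex set -/
def StProjFix : Prop := ∀ (V : Type) (S : SimpleGraph V), S.IsTree →
  ∀ (G : Type) [Group G] [MulAction G V], ActsOn S G → ∀ (e : G) (U : Set V), Cvx S U →
  U.Nonempty → (∀ u ∈ U, e • u ∈ U) → ∀ c : V, e • c = c → ∃ c' ∈ U, e • c' = c'

/-- T11: two commuting automorphisms -/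
def StTC : Prop := ∀ (V : Type) (S : SimpleGraph V), S.IsTree →
  ∀ (G : Type) [Group G] [MulAction G V], ActsOn S G → NoInv S G → ∀ e g : G, e * g = g * e →
  (∃ v : V, e • v = v ∧ g • v = v) ∨
  ∃ (L : ℤ → V) (a b : ℤ), IsLine S L ∧ (a ≠ 0 ∨ b ≠ 0) ∧
    ∀ i : ℤ, e • L i = L (i + a) ∧ g • L i = L (i + b)

/-- T12: deep points of a geodesic with ends near a convex set lie in the set -/
def StDeep : Prop := ∀ (V : Type) (S : SimpleGraph V), S.IsTree → ∀ (U : Set V), Cvx S U →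
  ∀ (p q u u' x : V) (R : ℕ), u ∈ U → u' ∈ U → S.dist p u ≤ R → S.dist q u' ≤ R →
  Btw S p x q → R ≤ S.dist p x → R ≤ S.dist x q → x ∈ U

/-! ## Coset trees of HNN extensions -/

/-- B0: basic facts about coset trees -/
def StBasic : Prop := ∀ (G : Type) [Group G] (X : Subgroup G) (t : G) (η : G →* Multiplicative ℤ),
  ActsOn (CG X t) G ∧
  ((∀ x ∈ X, η x = 1) → η t = ofAdd 1 → NoInv (CG X t) G) ∧
  (TD X t η → IsLine (CG X t) (vx t X)) ∧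
  (∀ i j : ℤ, t ^ j • vx t X i = vx t X (i + j)) ∧
  (∀ g x : G, g • (x : G ⧸ X) = x ↔ x⁻¹ * g * x ∈ X) ∧
  (η t = ofAdd 1 → (∀ x ∈ X, η x = 1) → ∀ u v : G ⧸ X, (CG X t).Adj u v ↔
    ∃ g : G, (u = g ∧ v = ((g * t : G) : G ⧸ X)) ∨ (v = g ∧ u = ((g * t : G) : G ⧸ X))) ∧
  (TD X t η → Subgroup.closure ((X : Set G) ∪ {t}) = ⊤) ∧
  (TD X t η → ∀ e : G, ∀ p : G ⧸ X, e • p = p → η e = 1)

/-- B1: the coset graph of an HNN extension is a tree; edge stabilizers -/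
def StBS1 : Prop := ∀ (Γ : Type) [Group Γ] (A B : Subgroup Γ) (φ : A ≃* B),
  (CG (HNNExtension.of (φ := φ)).range (HNNExtension.t (φ := φ))).IsTree ∧
  (∀ x y : Γ, (HNNExtension.of x : HNNExtension Γ A B φ) =
    HNNExtension.t * HNNExtension.of y * HNNExtension.t⁻¹ → x ∈ B) ∧
  (∀ x y : Γ, (HNNExtension.of x : HNNExtension Γ A B φ) =
    HNNExtension.t⁻¹ * HNNExtension.of y * HNNExtension.t → x ∈ A) ∧
  ∃ η : HNNExtension Γ A B φ →* Multiplicative ℤ, (∀ x, η (HNNExtension.of x) = 1) ∧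
    η HNNExtension.t = ofAdd 1

/-- B2: a group acting on its coset tree has the universal property of the HNN extension -/
def StBS2 : Prop := ∀ (G : Type) [Group G] (X : Subgroup G) (t : G) (η : G →* Multiplicative ℤ),
  TD X t η → ∀ (L : Type) [Group L] (ψ : X →* L) (y : L),
  (∀ x x' : X, t * x * t⁻¹ = x' → y * ψ x * y⁻¹ = ψ x') →
  ∃ Ψ : G →* L, (∀ x : X, Ψ x = ψ x) ∧ Ψ t = y

/-- B2': the universal property implies that the coset graph is a tree -/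
def StUP : Prop := ∀ (G : Type) [Group G] (X : Subgroup G) (t : G) (η : G →* Multiplicative ℤ),
  (∀ x ∈ X, η x = 1) → η t = ofAdd 1 → Subgroup.closure ((X : Set G) ∪ {t}) = ⊤ →
  (∀ (L : Type) [Group L] (ψ : X →* L) (y : L),
    (∀ x x' : X, t * x * t⁻¹ = x' → y * ψ x * y⁻¹ = ψ x') →
    ∃ Ψ : G →* L, (∀ x : X, Ψ x = ψ x) ∧ Ψ t = y) → TD X t η

/-- B3: change of the base `X` to `X ⊔ t X t⁻¹` -/
def StBCTree : Prop := ∀ (G : Type) [Group G] (X : Subgroup G) (t : G)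
  (η : G →* Multiplicative ℤ), TD X t η → TD (X ⊔ cj t X) t η ∧
  ∀ g ∈ X ⊔ cj t X, g ∈ cj t (X ⊔ cj t X) → g ∈ cj t X

/-- B4: two trees, first step -/
def StS1Tree : Prop := ∀ (G : Type) [Group G] (X : Subgroup G) (t : G)
  (η : G →* Multiplicative ℤ), TD X t η → ∀ (C C' : Subgroup G) (φ : C ≃* C'), C ≤ X → C' ≤ X →
  TwoTree t X (HNNExtension.of (φ := φ)) HNNExtension.t C C' 1

/-- B5: two trees, second step -/
def StS2Tree : Prop := ∀ (G : Type) [Group G] (X : Subgroup G) (t : G)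
  (η : G →* Multiplicative ℤ), TD X t η → ∀ m : ℕ, 1 ≤ m → ∀ κ ∈ X,
  ∀ (φ : Subgroup.zpowers (t ^ (-(m : ℤ)) * κ) ≃* Subgroup.zpowers (t ^ (-(m : ℤ)))),
  ((φ ⟨t ^ (-(m : ℤ)) * κ, Subgroup.mem_zpowers _⟩ : Subgroup.zpowers (t ^ (-(m : ℤ)))) : G) =
    t ^ (-(m : ℤ)) →
  TwoTree t X (HNNExtension.of (φ := φ)) HNNExtension.t (Subgroup.zpowers (t ^ (-(m : ℤ)) * κ))
    (Subgroup.zpowers (t ^ (-(m : ℤ)))) m

/-- B6: incidence of vertices and copies -/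
def StInc : Prop := ∀ (G G' : Type) [Group G] [Group G'] (X : Subgroup G) (t : G)
  (η : G →* Multiplicative ℤ) (ι : G →* G') (s : G') (C C' : Subgroup G) (m : ℕ),
  TD X t η → 1 ≤ m → TwoTree t X ι s C C' m →
  (∀ p : G' ⧸ XX ι s t X m, Cvx (CG ι.range s) {c | Inc ι (XX ι s t X m) p c} ∧
    ∃ c, Inc ι (XX ι s t X m) p c) ∧
  (∀ c : G' ⧸ ι.range, Cvx (CG (XX ι s t X m) (ι t)) {p | Inc ι (XX ι s t X m) p c}) ∧
  (∀ g g' : G, (CG (XX ι s t X m) (ι t)).dist (ι g : G' ⧸ XX ι s t X m) (ι g') =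
    (CG X t).dist (g : G ⧸ X) g') ∧
  (∀ x ∈ XX ι s t X m, (CG ι.range s).Adj ((1 : G') : G' ⧸ ι.range) (x : G' ⧸ ι.range) →
    ∃ y ∈ X, ∃ j : ℕ, j < m ∧ ((x : G' ⧸ ι.range) = ((ι (y * t ^ j) * s : G') : G' ⧸ ι.range) ∨
      (x : G' ⧸ ι.range) = ((ι (y * t ^ j) * s⁻¹ : G') : G' ⧸ ι.range)))

/-! ## Stages -/

/-- G0: the trivial stage -/
def StInit : Prop := ∀ (H : Type) [Group H] [Base H],
  IsStage (MonoidHom.id H) (MonoidHom.id H) (hz (H := H)).ker 1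

/-- G1: change of base for stages -/
def StBC : Prop := ∀ (H G : Type) [Group H] [Base H] [Group G] (pr : G →* H) (em : H →* G)
  (X : Subgroup G) (D : ℕ), IsStage pr em X D → IsStage pr em (X ⊔ cj (em th) X) (D + 2)

/-- G2: elements of bounded displacement are absorbed -/
def StAbsorb : Prop := ∀ (G : Type) [Group G] (X : Subgroup G) (t : G)
  (η : G →* Multiplicative ℤ), TD X t η → ∀ (R : ℕ) (c : G), η c = 1 →
  (CG X t).dist (vx t X 0) (c • vx t X 0) ≤ R → t ^ R * c * (t ^ R)⁻¹ ∈ Xn t X (2 * R)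

/-- G3: lines -/
def StLL : Prop := ∀ (H G : Type) [Group H] [Base H] [Group G] (pr : G →* H) (em : H →* G)
  (X : Subgroup G) (D : ℕ), IsStage pr em X D →
  (∀ (γ : G) (R : ℕ), (∀ i : ℤ, ∃ j : ℤ, (CG X (em th)).dist (γ • vx (em th) X i)
    (vx (em th) X j) ≤ R) → ∃ h : H, γ = em h) ∧
  (∀ (γ : G) (n n' : H), hz n = 1 → n ≠ 1 → hz n' = 1 → γ * em n * γ⁻¹ = em n' →
    ∃ h : H, γ = em h) ∧
  (∀ (γ : G) (i j : ℤ), γ • vx (em th) X i = vx (em th) X j →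
    γ • vx (em th) X (i + D) = vx (em th) X (j + D) → ∃ h : H, γ = em h) ∧
  (∀ h : H, h ≠ 1 → ∀ x : G, pr x = 1 → x * em h = em h * x → x = 1)

/-- G4: centralizers, first step -/
def StS1Prep : Prop := ∀ (H G : Type) [Group H] [Base H] [Group G] (pr : G →* H) (em : H →* G)
  (X : Subgroup G) (D : ℕ), IsStage pr em X D →
  ∀ g : G, hz (pr g) = 1 → pr g ≠ 1 → ¬ ConjN em g →
  (∀ c, c * g = g * c → hz (pr c) = 1) ∧
  (∃ R : ℕ, ∀ c, c * g = g * c → c ∈ Subgroup.closure {x : G | hz (pr x) = 1 ∧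
    (CG X (em th)).dist (vx (em th) X 0) (x • vx (em th) X 0) ≤ R}) ∧
  (∀ c, c * g = g * c → pr c = 1 → c = 1) ∧
  (∀ c, c * g = g * c → c ≠ 1 → ¬ ConjN em c) ∧
  (∀ γ c, c * g = g * c → c ≠ 1 → (γ * c * γ⁻¹) * g = g * (γ * c * γ⁻¹) → γ * g = g * γ)

/-- G5: centralizers, second step -/
def StS2Prep : Prop := ∀ (H G : Type) [Group H] [Base H] [Group G] (pr : G →* H) (em : H →* G)
  (X : Subgroup G) (D : ℕ), IsStage pr em X D →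
  ∀ g : G, hz (pr g) ≠ 1 → ¬ ConjH em g →
  ∃ (g₀ : G) (m : ℕ), 1 ≤ m ∧ pr g₀ = th ^ (-(m : ℤ)) ∧ ¬ ConjH em g₀ ∧
    (∀ c, c * g₀ = g₀ * c → c ∈ Subgroup.zpowers g₀) ∧
    ∃ (y : G) (k : ℤ), g = y * g₀ ^ k * y⁻¹

/-- G6: abstract form of the preservation of `J` -/
def StJ : Prop := ∀ (H G' V : Type) [Group H] [Base H] [Group G'] [MulAction G' V]
  (S : SimpleGraph V), S.IsTree → ActsOn S G' → NoInv S G' → ∀ pr : G' →* H,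
  (∀ (L : ℤ → V) (z : G'), IsLine S L → hz (pr z) = 1 → (∀ i : ℤ, z • L i = L i) →
    z = 1 ∨ ∀ (x : G') (c : ℤ), hz (pr x) = 1 → (∀ i : ℤ, x • L i = L (i + c)) → c = 0) →
  (∀ (v : V) (e g : G'), e • v = v → g • v = v → e * g = g * e → pr e = 1 → hz (pr g) = 1 →
    pr g ≠ 1 → e = 1) →
  ∀ e g : G', e * g = g * e → pr e = 1 → hz (pr g) = 1 → pr g ≠ 1 → e = 1

/-! ## First step -/

/-- H1: fixed vertices in the tree of copies -/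
def StS1Star : Prop := ∀ (H G G' : Type) [Group H] [Base H] [Group G] [Group G']
  (pr : G →* H) (em : H →* G) (X : Subgroup G) (D : ℕ) (ι : G →* G') (s : G')
  (C C' : Subgroup G) (pr' : G' →* H), S1Hyp pr em X D ι s C C' pr' →
  (∀ (e : G') (c c' : G' ⧸ ι.range), (CG ι.range s).Adj c c' → e • c = c → e • c' = c' →
    ConjN (ι.comp em) e) ∧
  (∀ (e : G') (c₀ c₁ c₂ c₃ : G' ⧸ ι.range), (CG ι.range s).Adj c₀ c₁ →
    (CG ι.range s).Adj c₁ c₂ → (CG ι.range s).Adj c₂ c₃ → c₀ ≠ c₂ → c₁ ≠ c₃ →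
    e • c₀ = c₀ → e • c₁ = c₁ → e • c₂ = c₂ → e • c₃ = c₃ → e = 1) ∧
  (∀ (n : H) (c : G' ⧸ ι.range), hz n = 1 → n ≠ 1 → ι (em n) • c = c →
    c ≠ ((1 : G') : G' ⧸ ι.range) → ∃ h : H, c = ((ι (em h) * s : G') : G' ⧸ ι.range) ∧
    ∃ c₀ ∈ C, c₀ ≠ 1 ∧ (ι (em h) * s)⁻¹ * ι (em n) * (ι (em h) * s) = ι c₀) ∧
  (∀ c : G' ⧸ ι.range, Inc ι (XX ι s (em th) X 1) (vx (ι (em th)) _ 0) c →
    Inc ι (XX ι s (em th) X 1) (vx (ι (em th)) _ 1) c → c = ((1 : G') : G' ⧸ ι.range))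

/-- H2: `F1`, `F2`, `F3` for the first step -/
def StS1F : Prop := ∀ (H G G' : Type) [Group H] [Base H] [Group G] [Group G']
  (pr : G →* H) (em : H →* G) (X : Subgroup G) (D : ℕ) (ι : G →* G') (s : G')
  (C C' : Subgroup G) (pr' : G' →* H), S1Hyp pr em X D ι s C C' pr' →
  (∀ e : G', ¬ ConjN (ι.comp em) e → ∀ p q : G' ⧸ XX ι s (em th) X 1, e • p = p → e • q = q →
    (CG (XX ι s (em th) X 1) (ι (em th))).dist p q ≤ D) ∧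
  (∀ n : H, hz n = 1 → n ≠ 1 → ∀ p : G' ⧸ XX ι s (em th) X 1, ι (em n) • p = p →
    ∃ i : ℤ, (CG (XX ι s (em th) X 1) (ι (em th))).dist p (vx (ι (em th)) _ i) ≤ D) ∧
  (∀ e : G', e • vx (ι (em th)) (XX ι s (em th) X 1) 0 = vx (ι (em th)) _ 0 →
    e • vx (ι (em th)) (XX ι s (em th) X 1) D = vx (ι (em th)) _ D →
    ∃ n : H, hz n = 1 ∧ e = ι (em n))

/-- H3: the first step gives a stage -/
def StS1Inv : Prop := ∀ (H G G' : Type) [Group H] [Base H] [Group G] [Group G']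
  (pr : G →* H) (em : H →* G) (X : Subgroup G) (D : ℕ) (ι : G →* G') (s : G')
  (C C' : Subgroup G) (pr' : G' →* H), S1Hyp pr em X D ι s C C' pr' →
  IsStage pr' (ι.comp em) (XX ι s (em th) X 1) D

/-- H4: the first step, existence -/
def StS1Ext : Prop := ∀ (H G : Type) [Group H] [Base H] [Group G] (pr : G →* H) (em : H →* G)
  (X : Subgroup G) (D : ℕ), IsStage pr em X D → ∀ C : Subgroup G, C ≤ X →
  (∀ γ : G, ∀ c ∈ C, c ≠ 1 → γ * c * γ⁻¹ ∈ C → γ ∈ C) →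
  (∀ c ∈ C, c ≠ 1 → ¬ ConjN em c) → (∀ c ∈ C, pr c = 1 → c = 1) →
  ∃ (G' : Type) (_ : Group G') (ι : G →* G') (s : G') (pr' : G' →* H) (X' : Subgroup G')
    (D' : ℕ), Function.Injective ι ∧ (Countable G → Countable G') ∧ (∀ g, pr' (ι g) = pr g) ∧
    pr' s = 1 ∧ s ≠ 1 ∧ IsStage pr' (ι.comp em) X' D' ∧
    ∀ c ∈ C, s * ι c * s⁻¹ = ι (em (pr c))

/-- the first task: `g` becomes conjugate into `H` (`g` of height zero) -/
def StS1 : Prop := ∀ (H : Type) [Group H] [Base H] (A : Stg H) (g s₀ : A.G),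
  hz (A.pr g) = 1 → A.pr g ≠ 1 → s₀ ≠ 1 → ∃ (B : Stg H) (f : A.G →* B.G), Ext1 A B f ∧
    f s₀ ≠ 1 ∧ ConjH B.em (f g)

/-! ## Second step -/

/-- K1: overlaps of the axes -/
def StS2Pair : Prop := ∀ (H G : Type) [Group H] [Base H] [Group G] (pr : G →* H) (em : H →* G)
  (X : Subgroup G) (D : ℕ), IsStage pr em X D → ∀ (m : ℕ) (κ g : G), 1 ≤ m → κ ∈ X →
  g = em th ^ (-(m : ℤ)) * κ → (∀ c : G, c * g = g * c → c ∈ Subgroup.zpowers g) →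
  ¬ ConjH em g → ∃ D₃ : ℕ, ∀ (p q : G ⧸ X) (γ : G),
    (∃ (k : ℤ) (j : ℕ), j < m ∧ p = ((g ^ k * em th ^ (-(j : ℤ)) : G) : G ⧸ X)) →
    (∃ (k : ℤ) (j : ℕ), j < m ∧ q = ((g ^ k * em th ^ (-(j : ℤ)) : G) : G ⧸ X)) →
    (∀ i j : ℤ, p = γ • vx (em th) X i → q = γ • vx (em th) X j →
      (CG X (em th)).dist p q ≤ D₃) ∧
    (γ ∉ Subgroup.zpowers g →
      (∃ (k : ℤ) (j : ℕ), j < m ∧ p = ((γ * g ^ k * em th ^ (-(j : ℤ)) : G) : G ⧸ X)) →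
      (∃ (k : ℤ) (j : ℕ), j < m ∧ q = ((γ * g ^ k * em th ^ (-(j : ℤ)) : G) : G ⧸ X)) →
      (CG X (em th)).dist p q ≤ D₃)

/-- K2: vertices common to adjacent copies -/
def StS2Lines : Prop := ∀ (H G G' : Type) [Group H] [Base H] [Group G] [Group G']
  (pr : G →* H) (em : H →* G) (X : Subgroup G) (D : ℕ) (ι : G →* G') (s : G') (m : ℕ)
  (κ g : G) (pr' : G' →* H), S2Hyp pr em X D ι s m κ g pr' →
  (∀ γ q : G, Inc ι (XX ι s (em th) X m) ((ι q : G') : G' ⧸ XX ι s (em th) X m)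
      ((ι γ * s⁻¹ : G') : G' ⧸ ι.range) →
    ∃ (k : ℤ) (j : ℕ), j < m ∧ (q : G ⧸ X) = ((γ * g ^ k * em th ^ (-(j : ℤ)) : G) : G ⧸ X)) ∧
  (∀ γ q : G, Inc ι (XX ι s (em th) X m) ((ι q : G') : G' ⧸ XX ι s (em th) X m)
      ((ι γ * s : G') : G' ⧸ ι.range) → ∃ i : ℤ, (q : G ⧸ X) = γ • vx (em th) X i) ∧
  (∀ (h : H) (i : ℤ), Inc ι (XX ι s (em th) X m) (vx (ι (em th)) _ i)
      ((ι (em h) * s : G') : G' ⧸ ι.range)) ∧
  (∀ (e : G') (c c' : G' ⧸ ι.range), (CG ι.range s).Adj c c' → e • c = c → e • c' = c' →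
    hz (pr' e) = 1 → e = 1)

/-- K3: no long path lies in four consecutive copies -/
def StS2Four : Prop := ∀ (H G G' : Type) [Group H] [Base H] [Group G] [Group G']
  (pr : G →* H) (em : H →* G) (X : Subgroup G) (D : ℕ) (ι : G →* G') (s : G') (m : ℕ)
  (κ g : G) (pr' : G' →* H), S2Hyp pr em X D ι s m κ g pr' →
  ∃ D₃ : ℕ, ∀ (p q : G' ⧸ XX ι s (em th) X m) (c₀ c₁ c₂ c₃ : G' ⧸ ι.range),
    (CG ι.range s).Adj c₀ c₁ → (CG ι.range s).Adj c₁ c₂ → (CG ι.range s).Adj c₂ c₃ →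
    c₀ ≠ c₂ → c₁ ≠ c₃ →
    (Inc ι (XX ι s (em th) X m) p c₀ ∧ Inc ι (XX ι s (em th) X m) p c₁ ∧
      Inc ι (XX ι s (em th) X m) p c₂ ∧ Inc ι (XX ι s (em th) X m) p c₃) →
    (Inc ι (XX ι s (em th) X m) q c₀ ∧ Inc ι (XX ι s (em th) X m) q c₁ ∧
      Inc ι (XX ι s (em th) X m) q c₂ ∧ Inc ι (XX ι s (em th) X m) q c₃) →
    (CG (XX ι s (em th) X m) (ι (em th))).dist p q ≤ D₃

/-- K4: `F1`, `F2`, `F3` for the second step -/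
def StS2F : Prop := ∀ (H G G' : Type) [Group H] [Base H] [Group G] [Group G']
  (pr : G →* H) (em : H →* G) (X : Subgroup G) (D : ℕ) (ι : G →* G') (s : G') (m : ℕ)
  (κ g : G) (pr' : G' →* H), S2Hyp pr em X D ι s m κ g pr' → ∃ D' : ℕ, 1 ≤ D' ∧
  (∀ e : G', ¬ ConjN (ι.comp em) e → ∀ p q : G' ⧸ XX ι s (em th) X m, e • p = p → e • q = q →
    (CG (XX ι s (em th) X m) (ι (em th))).dist p q ≤ D') ∧
  (∀ n : H, hz n = 1 → n ≠ 1 → ∀ p : G' ⧸ XX ι s (em th) X m, ι (em n) • p = p →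
    ∃ i : ℤ, (CG (XX ι s (em th) X m) (ι (em th))).dist p (vx (ι (em th)) _ i) ≤ D') ∧
  (∀ e : G', e • vx (ι (em th)) (XX ι s (em th) X m) 0 = vx (ι (em th)) _ 0 →
    e • vx (ι (em th)) (XX ι s (em th) X m) D' = vx (ι (em th)) _ D' →
    ∃ n : H, hz n = 1 ∧ e = ι (em n))

/-- K5: the second step gives a stage -/
def StS2Inv : Prop := ∀ (H G G' : Type) [Group H] [Base H] [Group G] [Group G']
  (pr : G →* H) (em : H →* G) (X : Subgroup G) (D : ℕ) (ι : G →* G') (s : G') (m : ℕ)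
  (κ g : G) (pr' : G' →* H), S2Hyp pr em X D ι s m κ g pr' →
  ∃ D' : ℕ, IsStage pr' (ι.comp em) (XX ι s (em th) X m) D'

/-- the second task: `g` becomes conjugate into `H` (`g` of nonzero height) -/
def StS2 : Prop := ∀ (H : Type) [Group H] [Base H] (A : Stg H) (g s₀ : A.G),
  hz (A.pr g) ≠ 1 → s₀ ≠ 1 → ∃ (B : Stg H) (f : A.G →* B.G), Ext1 A B f ∧
    f s₀ ≠ 1 ∧ ConjH B.em (f g)

/-! ## General position -/

/-- P1: abstract ping-pong -/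
def StPP : Prop := ∀ (G V ι : Type) [Group G] [MulAction G V] (B : Subgroup G) (a : ι → G)
  (U : ι → Bool → Set V) (v₀ : V),
  (∀ β ∈ B, ∀ i e, β • v₀ ∉ U i e) →
  (∀ i, ∀ p ∉ U i false, a i • p ∈ U i true) →
  (∀ i, ∀ p ∉ U i true, (a i)⁻¹ • p ∈ U i false) →
  (∀ β ∈ B, ∀ i e j d, ∀ p ∈ U j d, β • p ∈ U i e → β = 1 ∧ i = j ∧ e = d) →
  FreeOver B a

/-- P2: directions -/
def StDir : Prop := ∀ (G : Type) [Group G] (X : Subgroup G) (t : G) (η : G →* Multiplicative ℤ),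
  TD X t η → ∀ M : ℕ, ∀ β ∈ cj t (Xn t X M), β • vx t X 0 = vx t X 0 ∨
    (CG X t).dist (vx t X 1) (β • vx t X 0) + 1 = (CG X t).dist (vx t X 0) (β • vx t X 0)

/-- P3: the fixed part of the standard line -/
def StFixInt : Prop := ∀ (G : Type) [Group G] (X : Subgroup G) (t : G)
  (η : G →* Multiplicative ℤ) (D : ℕ) (Nn : Subgroup G), GH X t η D Nn → ∀ k ∈ X, k ∉ Nn →
  ∃ a b : ℕ, ∀ i : ℤ, k • vx t X i = vx t X i ↔ (-(a : ℤ) ≤ i ∧ i ≤ b)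

/-- P4: exits of three letter words -/
def StExit : Prop := ∀ (G : Type) [Group G] (X : Subgroup G) (t : G) (η : G →* Multiplicative ℤ),
  TD X t η → ∀ (κ₁ κ₂ κ₃ : G) (α₁ β₁ α₂ β₂ α₃ β₃ : ℕ),
  (∀ i : ℤ, κ₁ • vx t X i = vx t X i ↔ ((α₁ : ℤ) ≤ i ∧ i ≤ β₁)) →
  (∀ i : ℤ, κ₂ • vx t X i = vx t X i ↔ ((α₂ : ℤ) ≤ i ∧ i ≤ β₂)) →
  (∀ i : ℤ, κ₃ • vx t X i = vx t X i ↔ ((α₃ : ℤ) ≤ i ∧ i ≤ β₃)) →
  1 ≤ α₁ → α₁ ≤ β₁ → β₁ < α₂ → α₂ ≤ β₂ → β₂ < α₃ → α₃ ≤ β₃ →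
  (∀ m : ℤ, (CG X t).dist (vx t X m) ((κ₁ * κ₂ * κ₃) • vx t X 0) =
    (m - β₁).natAbs + (2 * α₃ - β₁)) ∧
  (∀ m : ℤ, (CG X t).dist (vx t X m) ((κ₁ * κ₂ * κ₃)⁻¹ • vx t X 0) = (m - α₃).natAbs + α₃)

/-- P5: free over all `t X_n t⁻¹` -/
def StFreeY : Prop := ∀ (G : Type) [Group G] (X : Subgroup G) (t : G)
  (η : G →* Multiplicative ℤ) (D : ℕ) (Nn : Subgroup G), GH X t η D Nn →
  ∀ (ι : Type) (k : G) (y : ι → G) (l : ι → ℕ) (c : ι → Bool → ℕ),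
  k • vx t X 0 = vx t X 0 → k • vx t X 1 ≠ vx t X 1 →
  (∀ i (m : ℤ), (CG X t).dist (vx t X m) (y i • vx t X 0) =
    (m - c i true).natAbs + (l i - c i true)) →
  (∀ i (m : ℤ), (CG X t).dist (vx t X m) ((y i)⁻¹ • vx t X 0) =
    (m - c i false).natAbs + (l i - c i false)) →
  (∀ i e, D ≤ c i e) → (∀ i, c i true + c i false + 2 * D < l i) →
  (∀ i e j d, c i e = c j d → i = j ∧ e = d) →
  ∀ M : ℕ, FreeOver (cj t (Xn t X M)) (fun i => k * y i * k⁻¹)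

/-- P6: general position, one side -/
def StGenSide : Prop := ∀ (G : Type) [Group G] (X : Subgroup G) (t : G)
  (η : G →* Multiplicative ℤ) (D : ℕ) (Nn : Subgroup G), GH X t η D Nn →
  ∀ k ∈ X, ∀ u ∈ X, k ∉ Nn → u ∉ Nn →
  ∃ (a₁ a₂ a₃ : G) (M₀ : ℕ), a₁ ∈ Xn t X M₀ ∧ a₂ ∈ Xn t X M₀ ∧ a₃ ∈ Xn t X M₀ ∧
    a₁ ∈ Mcl t k ∧ a₃ ∈ Mcl t k ∧
    (∃ m₁ ∈ Mcl t k, ∃ m₂ ∈ Mcl t k, ∃ j : ℤ, a₂ = m₁ * (t ^ j * u * (t ^ j)⁻¹) * m₂) ∧
    ∀ M : ℕ, FreeOver (cj t (Xn t X M)) ![a₁, a₂, a₃]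

/-- P7: general position -/
def StGen : Prop := ∀ (H G : Type) [Group H] [Base H] [Group G] (pr : G →* H) (em : H →* G)
  (X : Subgroup G) (D : ℕ), IsStage pr em X D → ∀ k ∈ X, ∀ u ∈ X, pr k = 1 → pr u = 1 → k ≠ 1 →
  u ≠ 1 → ∃ (M : ℕ) (a₁ a₂ a₃ w b : G), a₁ ∈ Xn (em th) X M ∧ a₂ ∈ Xn (em th) X M ∧
    a₃ ∈ Xn (em th) X M ∧ w ∈ cj (em th) (Xn (em th) X M) ∧ b ∈ cj (em th) (Xn (em th) X M) ∧
    a₁ ∈ Mcl (em th) k ∧ a₃ ∈ Mcl (em th) k ∧ w ∈ Mcl (em th) k ∧ b ∈ Mcl (em th) k ∧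
    (∃ m₁ ∈ Mcl (em th) k, ∃ m₂ ∈ Mcl (em th) k, ∃ j : ℤ,
      a₂ = m₁ * (em th ^ j * u * (em th ^ j)⁻¹) * m₂) ∧
    FreeOver (cj (em th) (Xn (em th) X M)) ![a₁, a₂, a₃] ∧ FreeOver (Xn (em th) X M) ![w, b]

/-! ## Third step -/

/-- E1: free families, associativity -/
def StFAssoc : Prop := ∀ (G : Type) [Group G] (Y : Subgroup G) (α β : Type) (a : α → G)
  (b : β → G), FreeOver Y (Sum.elim a b) ↔
    FreeOver Y a ∧ FreeOver (Y ⊔ Subgroup.closure (Set.range a)) b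

/-- E2: the free factor generated by `Y` and `a₁ b a₂ b a₃` is malnormal -/
def StMal : Prop := ∀ (G : Type) [Group G] (Y : Subgroup G) (a₁ a₂ a₃ b : G), b ∈ Y →
  FreeOver Y ![a₁, a₂, a₃] →
  FreeOver Y ![a₁ * b * a₂ * b * a₃] ∧
  ∀ x ∈ Y ⊔ Subgroup.closure {a₁, a₂, a₃},
    ∀ z ∈ Y ⊔ Subgroup.closure {a₁ * b * a₂ * b * a₃}, z ≠ 1 →
    x⁻¹ * z * x ∈ Y ⊔ Subgroup.closure {a₁ * b * a₂ * b * a₃} →
    x ∈ Y ⊔ Subgroup.closure {a₁ * b * a₂ * b * a₃}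

/-- E3: subtrees of subgroups generated by elements of `X` and `t X t⁻¹` -/
def StSubtree : Prop := ∀ (G : Type) [Group G] (X : Subgroup G) (t : G)
  (η : G →* Multiplicative ℤ), TD X t η → ∀ K : Subgroup G,
  K = Subgroup.closure {g | g ∈ K ∧ (g ∈ X ∨ g ∈ cj t X)} → X ⊓ cj t X ≤ K →
  Cvx (CG X t) {p | ∃ g ∈ K, p = g • vx t X 0 ∨ p = g • vx t X 1} ∧
  ∀ z : G, (∃ g ∈ K, z • vx t X 0 = g • vx t X 0 ∨ z • vx t X 0 = g • vx t X 1) →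
    (∃ g ∈ K, z • vx t X 1 = g • vx t X 0 ∨ z • vx t X 1 = g • vx t X 1) → z ∈ K

/-- E4: the geometry of the words in `Y` and `a₁ b a₂ b a₃` -/
def StCore : Prop := ∀ (G : Type) [Group G] (X : Subgroup G) (t : G)
  (η : G →* Multiplicative ℤ), TD X t η → ∀ a₁ ∈ X, ∀ a₂ ∈ X, ∀ a₃ ∈ X, ∀ b ∈ cj t X, b ∉ X →
  FreeOver (cj t X) ![a₁, a₂, a₃] →
  (∀ z ∈ cj t X ⊔ Subgroup.closure {a₁ * b * a₂ * b * a₃}, z ∉ cj t X →
    ∃ y : G, Btw (CG X t) (vx t X 1) (y • vx t X 0) (z • vx t X 1) ∧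
      Btw (CG X t) (vx t X 1) ((y * b) • vx t X 0) (z • vx t X 1)) ∧
  (∀ z ∈ cj t X ⊔ Subgroup.closure {a₁ * b * a₂ * b * a₃},
    (∀ β ∈ cj t X ⊔ Subgroup.closure {a₁ * b * a₂ * b * a₃}, β⁻¹ * z * β ∉ cj t X) →
    ∃ y ∈ cj t X ⊔ Subgroup.closure {a₁, a₂, a₃}, ∀ U : Set (G ⧸ X), Cvx (CG X t) U →
      U.Nonempty → (∀ u ∈ U, z • u ∈ U) → (∀ u ∈ U, z⁻¹ • u ∈ U) →
      y • vx t X 0 ∈ U ∧ (y * b) • vx t X 0 ∈ U)

/-- E5: the facts `g1`, `g2` -/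
def StEAlg : Prop := ∀ (G : Type) [Group G] (X : Subgroup G) (t : G)
  (η : G →* Multiplicative ℤ), TD X t η → ∀ a₁ ∈ X, ∀ a₂ ∈ X, ∀ a₃ ∈ X, ∀ w ∈ cj t X,
  ∀ b ∈ cj t X, FreeOver (cj t X) ![a₁, a₂, a₃] → FreeOver X ![w, b] →
  FreeOver X ![w] ∧ FreeOver (cj t X) ![a₁ * b * a₂ * b * a₃] ∧
  (∀ z ∈ cj t X ⊔ Subgroup.closure {a₁ * b * a₂ * b * a₃}, ∀ x ∈ X ⊔ cj t X,
    x⁻¹ * z * x ∈ X ⊔ Subgroup.closure {w} →
    ∃ β ∈ cj t X ⊔ Subgroup.closure {a₁ * b * a₂ * b * a₃}, β⁻¹ * z * β ∈ cj t X) ∧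
  (∀ z ∈ cj t X ⊔ Subgroup.closure {a₁ * b * a₂ * b * a₃}, ∀ x ∈ X ⊔ cj t X,
    x ∉ cj t X ⊔ Subgroup.closure {a₁ * b * a₂ * b * a₃} →
    x⁻¹ * z * x ∈ cj t X ⊔ Subgroup.closure {a₁ * b * a₂ * b * a₃} →
    ∃ β ∈ cj t X ⊔ Subgroup.closure {a₁ * b * a₂ * b * a₃}, β⁻¹ * z * β ∈ cj t X) ∧
  (∀ z ∈ X ⊔ Subgroup.closure {w}, z ∈ cj t X ⊔ Subgroup.closure {a₁ * b * a₂ * b * a₃} →
    z ∈ cj t X)

/-- E6: extending an isomorphism to free products with `ℤ` -/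
def StEIso : Prop := ∀ (L : Type) [Group L] (X Y : Subgroup L) (ψ : X ≃* Y) (w v : L),
  FreeOver X ![w] → FreeOver Y ![v] →
  ∃ φ : ↥(X ⊔ Subgroup.closure {w}) ≃* ↥(Y ⊔ Subgroup.closure {v}),
    (∀ (x : L) (hx : x ∈ X) (hx' : x ∈ X ⊔ Subgroup.closure {w}),
      ((φ ⟨x, hx'⟩ : ↥(Y ⊔ Subgroup.closure {v})) : L) = ψ ⟨x, hx⟩) ∧
    ∀ hw : w ∈ X ⊔ Subgroup.closure {w},
      ((φ ⟨w, hw⟩ : ↥(Y ⊔ Subgroup.closure {v})) : L) = v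

/-- E7: construction of the third extension -/
def StEBuild : Prop := ∀ (H G : Type) [Group H] [Base H] [Group G] (pr : G →* H) (em : H →* G)
  (X : Subgroup G) (D : ℕ), IsStage pr em X D → ∀ a₁ ∈ X, ∀ a₂ ∈ X, ∀ a₃ ∈ X,
  ∀ w ∈ cj (em th) X, ∀ b ∈ cj (em th) X, pr a₁ = 1 → pr a₂ = 1 → pr a₃ = 1 → pr w = 1 →
  pr b = 1 → FreeOver (cj (em th) X) ![a₁, a₂, a₃] → FreeOver X ![w, b] →
  ∃ (G' : Type) (_ : Group G') (f : G →* G') (pr' : G' →* H) (A B : Subgroup G) (Dp : ℕ),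
    EHyp pr em X Dp f A B pr' ∧ (Countable G → Countable G') ∧
    f (em th * w * (em th)⁻¹) = f (a₁ * b * a₂ * b * a₃)

/-- E8: good edges: lifting of paths; `F1`, `F2`, `F3` for the third step -/
def StEF : Prop := ∀ (H G G' : Type) [Group H] [Base H] [Group G] [Group G']
  (pr : G →* H) (em : H →* G) (X : Subgroup G) (Dp : ℕ) (f : G →* G') (A B : Subgroup G)
  (pr' : G' →* H), EHyp pr em X Dp f A B pr' →
  (∀ e : G', ¬ ConjN (f.comp em) e → ∀ p q : G' ⧸ (X ⊔ cj (em th) X).map f,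
    e • p = p → e • q = q → (CG ((X ⊔ cj (em th) X).map f) (f (em th))).dist p q ≤ Dp + 2) ∧
  (∀ n : H, hz n = 1 → n ≠ 1 → ∀ p : G' ⧸ (X ⊔ cj (em th) X).map f, f (em n) • p = p →
    ∃ i : ℤ, (CG ((X ⊔ cj (em th) X).map f) (f (em th))).dist p
      (vx (f (em th)) _ i) ≤ Dp + 2) ∧
  (∀ e : G', e • vx (f (em th)) ((X ⊔ cj (em th) X).map f) 0 = vx (f (em th)) _ 0 →
    e • vx (f (em th)) ((X ⊔ cj (em th) X).map f) ((Dp + 2 : ℕ) : ℤ) =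
      vx (f (em th)) _ ((Dp + 2 : ℕ) : ℤ) → ∃ n : H, hz n = 1 ∧ e = f (em n))

/-- E9: the third step gives a stage -/
def StEInv : Prop := ∀ (H G G' : Type) [Group H] [Base H] [Group G] [Group G']
  (pr : G →* H) (em : H →* G) (X : Subgroup G) (Dp : ℕ) (f : G →* G') (A B : Subgroup G)
  (pr' : G' →* H), EHyp pr em X Dp f A B pr' →
  IsStage pr' (f.comp em) ((X ⊔ cj (em th) X).map f) (Dp + 2)

/-- the third task: `u` gets into the `t`-closure of `k` -/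
def StE : Prop := ∀ (H : Type) [Group H] [Base H] (A : Stg H) (k u s₀ : A.G),
  A.pr k = 1 → k ≠ 1 → A.pr u = 1 → u ≠ 1 → A.pr s₀ = 1 → s₀ ≠ 1 →
  ∃ (B : Stg H) (f : A.G →* B.G), Ext1 A B f ∧ f s₀ ≠ 1 ∧ f u ∈ Mcl (B.em th) (f k)

/-! ## The limit -/

/-- the three tasks -/
structure Tasks (H : Type) [Group H] [Base H] : Prop where
  start : ∃ (A : Stg H) (s : A.G), A.pr s = 1 ∧ s ≠ 1
  t1 : ∀ (A : Stg H) (g s₀ : A.G), A.pr g ≠ 1 → A.pr s₀ = 1 → s₀ ≠ 1 →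
    ∃ (B : Stg H) (f : A.G →* B.G), Ext1 A B f ∧ f s₀ ≠ 1 ∧ ConjH B.em (f g)
  t2 : ∀ (A : Stg H) (k u s₀ : A.G), A.pr k = 1 → k ≠ 1 → A.pr u = 1 → A.pr s₀ = 1 → s₀ ≠ 1 →
    ∃ (B : Stg H) (f : A.G →* B.G), Ext1 A B f ∧ f s₀ ≠ 1 ∧ f u ∈ Mcl (B.em th) (f k)
  cen : ∀ (A : Stg H) (h : H), h ≠ 1 → ∀ x : A.G, A.pr x = 1 → x * A.em h = A.em h * x → x = 1

/-- M1: the limit group -/
def StLimit : Prop := ∀ (H : Type) [Group H] [Base H] [Countable H], Tasks H →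
  ∃ (G : Type) (_ : Group G) (pr : G →* H) (em : H →* G), (∀ h, pr (em h) = h) ∧
    (∃ x, pr x = 1 ∧ x ≠ 1) ∧
    (∀ g, pr g ≠ 1 → ConjH em g) ∧
    (∀ h, h ≠ 1 → ∀ x, pr x = 1 → x * em h = em h * x → x = 1) ∧
    ∀ k u, pr k = 1 → k ≠ 1 → pr u = 1 → u ∈ Mcl (em (th : H)) k

/-- the two kernels in the base group -/
def TwoKernels (H : Type) [Group H] [Base H] : Prop :=
  ∃ V₁ V₂ : Subgroup H, (∀ x : H, x ∈ V₁ → hz x = 1) ∧ (∀ x : H, x ∈ V₂ → hz x = 1) ∧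
    (∀ x : H, x ∈ V₁ ↔ th * x * th⁻¹ ∈ V₁) ∧ (∀ x : H, x ∈ V₂ ↔ th * x * th⁻¹ ∈ V₂) ∧
    (∀ m : ℤ, m ≠ 0 → ∀ x : H, x ∈ V₁ → ∃ y : H, y ∈ V₁ ∧ y * th ^ m * y⁻¹ = x * th ^ m) ∧
    (∀ m : ℤ, m ≠ 0 → ∀ x : H, x ∈ V₂ → ∃ y : H, y ∈ V₂ ∧ y * th ^ m * y⁻¹ = x * th ^ m) ∧
    (∀ m : ℤ, m ≠ 0 → ∀ x : H, x ∈ V₁ → x * th ^ m = th ^ m * x → x = 1) ∧
    (∀ m : ℤ, m ≠ 0 → ∀ x : H, x ∈ V₂ → x * th ^ m = th ^ m * x → x = 1) ∧
    ∃ v₁ v₂ : H, v₁ ∈ V₁ ∧ v₂ ∈ V₂ ∧ v₁ * v₂ ≠ 1 ∧ v₁ * v₂ * th = th * (v₁ * v₂)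

/-- M2: the base group with its two kernels -/
def StBaseEx : Prop := ∃ (H : Type) (i : Group H) (j : @Base H i), Countable H ∧
  @TwoKernels H i j

end Pool.Agent.D6b
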