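import Mathlib
import Pool.Agent.Lib.MP_d6b03d_al.Stmts

/-!
B0: elementary facts about the coset graphs `CG X t`.
-/

set_option autoImplicit false

namespace Pool.Agent.D6b

open Multiplicative

section

variable {G : Type} [Group G]

/-- the height of a vertex of the coset graph -/
noncomputable def hgt (η : G →* Multiplicative ℤ) (X : Subgroup G) (p : G ⧸ X) : ℤ :=
  toAdd (η p.out)

theorem hgt_mk {X : Subgroup G} {η : G →* Multiplicative ℤ} (hX : ∀ x ∈ X, η x = 1) (g : G) :
    hgt η X (g : G ⧸ X) = toAdd (η g) := by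
  unfold hgt
  obtain ⟨h, hh⟩ := QuotientGroup.mk_out_eq_mul X g
  rw [hh, map_mul, hX _ h.2, mul_one]

theorem hgt_smul {X : Subgroup G} {η : G →* Multiplicative ℤ} (hX : ∀ x ∈ X, η x = 1) (g : G)
    (p : G ⧸ X) : hgt η X (g • p) = toAdd (η g) + hgt η X p := by
  induction p using QuotientGroup.induction_on with
  | H x =>
    rw [MulAction.Quotient.smul_coe, smul_eq_mul, hgt_mk hX, hgt_mk hX, map_mul, toAdd_mul]

theorem adj_cases {X : Subgroup G} {t : G} {u v : G ⧸ X} (h : (CG X t).Adj u v) :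
    ∃ g : G, (u = g ∧ v = ((g * t : G) : G ⧸ X)) ∨ (v = g ∧ u = ((g * t : G) : G ⧸ X)) := by
  unfold CG at h
  rw [SimpleGraph.fromRel_adj] at h
  rcases h.2 with ⟨g, h1, h2⟩ | ⟨g, h1, h2⟩
  · exact ⟨g, Or.inl ⟨h1, h2⟩⟩
  · exact ⟨g, Or.inr ⟨h1, h2⟩⟩

theorem hgt_adj {X : Subgroup G} {t : G} {η : G →* Multiplicative ℤ} (hX : ∀ x ∈ X, η x = 1)
    (ht : η t = ofAdd 1) {u v : G ⧸ X} (h : (CG X t).Adj u v) :
    (hgt η X u - hgt η X v).natAbs = 1 := by
  obtain ⟨g, ⟨h1, h2⟩ | ⟨h1, h2⟩⟩ := adj_cases h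
  · rw [h1, h2, hgt_mk hX, hgt_mk hX, map_mul, ht, toAdd_mul, toAdd_ofAdd]
    omega
  · rw [h1, h2, hgt_mk hX, hgt_mk hX, map_mul, ht, toAdd_mul, toAdd_ofAdd]
    omega

theorem hgt_walk {X : Subgroup G} {t : G} {η : G →* Multiplicative ℤ} (hX : ∀ x ∈ X, η x = 1)
    (ht : η t = ofAdd 1) {u v : G ⧸ X} (w : (CG X t).Walk u v) :
    (hgt η X u - hgt η X v).natAbs ≤ w.length := by
  induction w with
  | nil => simp
  | cons h p ih =>
    have := hgt_adj hX ht h
    rw [SimpleGraph.Walk.length_cons]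
    omega

theorem adj_mk {X : Subgroup G} {t : G} {η : G →* Multiplicative ℤ} (hX : ∀ x ∈ X, η x = 1)
    (ht : η t = ofAdd 1) (g : G) : (CG X t).Adj (g : G ⧸ X) ((g * t : G) : G ⧸ X) := by
  unfold CG
  rw [SimpleGraph.fromRel_adj]
  refine ⟨?_, Or.inl ⟨g, rfl, rfl⟩⟩
  intro h
  have := congrArg (hgt η X) h
  rw [hgt_mk hX, hgt_mk hX, map_mul, ht, toAdd_mul, toAdd_ofAdd] at this
  omega

theorem vx_smul (t : G) (X : Subgroup G) (i j : ℤ) : t ^ j • vx t X i = vx t X (i + j) := by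
  unfold vx
  rw [MulAction.Quotient.smul_coe, smul_eq_mul, ← zpow_add, add_comm]

theorem fix_iff (X : Subgroup G) (g x : G) : g • (x : G ⧸ X) = x ↔ x⁻¹ * g * x ∈ X := by
  rw [MulAction.Quotient.smul_coe, smul_eq_mul]
  constructor
  · intro h
    have := (QuotientGroup.eq (s := X)).1 h.symm
    rwa [← mul_assoc] at this
  · intro h
    apply Eq.symm
    rw [QuotientGroup.eq, ← mul_assoc]
    exact h

theorem actsOn_CG (X : Subgroup G) (t : G) : ActsOn (CG X t) G := by
  intro g u v h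
  unfold CG at h ⊢
  rw [SimpleGraph.fromRel_adj] at h ⊢
  obtain ⟨h1, h2⟩ := h
  refine ⟨fun h => h1 (smul_left_cancel g h), ?_⟩
  rcases h2 with ⟨x, h3, h4⟩ | ⟨x, h3, h4⟩
  · left
    refine ⟨g * x, ?_, ?_⟩
    · rw [h3, MulAction.Quotient.smul_coe, smul_eq_mul]
    · rw [h4, MulAction.Quotient.smul_coe, smul_eq_mul, mul_assoc]
  · right
    refine ⟨g * x, ?_, ?_⟩
    · rw [h3, MulAction.Quotient.smul_coe, smul_eq_mul]
    · rw [h4, MulAction.Quotient.smul_coe, smul_eq_mul, mul_assoc]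

theorem noInv_CG {X : Subgroup G} {t : G} {η : G →* Multiplicative ℤ} (hX : ∀ x ∈ X, η x = 1)
    (ht : η t = ofAdd 1) : NoInv (CG X t) G := by
  intro g u v h h1 h2
  have e1 := congrArg (hgt η X) h1
  have e2 := congrArg (hgt η X) h2
  rw [hgt_smul hX] at e1 e2
  have e3 := hgt_adj hX ht h
  omega

theorem isLine_vx {X : Subgroup G} {t : G} {η : G →* Multiplicative ℤ} (h : TD X t η) :
    IsLine (CG X t) (vx t X) := by
  have hh : ∀ i : ℤ, hgt η X (vx t X i) = i := by
    intro i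
    unfold vx
    rw [hgt_mk h.ht, map_zpow, h.et, toAdd_zpow, toAdd_ofAdd]
    simp
  have lower : ∀ i j : ℤ, (i - j).natAbs ≤ (CG X t).dist (vx t X i) (vx t X j) := by
    intro i j
    obtain ⟨w, hw⟩ := h.tree.connected.exists_walk_length_eq_dist (vx t X i) (vx t X j)
    rw [← hw]
    have := hgt_walk h.ht h.et w
    rwa [hh, hh] at this
  have upper : ∀ (n : ℕ) (i : ℤ), (CG X t).dist (vx t X i) (vx t X (i + n)) ≤ n := by
    intro n
    induction n with
    | zero =>
      intro i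
      simp
    | succ n ih =>
      intro i
      have h1 := ih i
      have h2 : (CG X t).Adj (vx t X (i + n)) (vx t X (i + (n + 1 : ℕ))) := by
        unfold vx
        have h3 : t ^ (i + ((n + 1 : ℕ) : ℤ)) = t ^ (i + (n : ℤ)) * t := by
          rw [← zpow_add_one]
          congr 1
          push_cast
          ring
        rw [h3]
        exact adj_mk h.ht h.et _
      have h3 := SimpleGraph.dist_eq_one_iff_adj.2 h2
      have h4 := h.tree.connected.dist_triangle (u := vx t X i) (v := vx t X (i + n))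
        (w := vx t X (i + (n + 1 : ℕ)))
      omega
  intro i j
  refine le_antisymm ?_ (lower i j)
  rcases le_total i j with hij | hij
  · have := upper (j - i).toNat i
    have e : i + ((j - i).toNat : ℤ) = j := by omega
    rw [e] at this
    omega
  · have := upper (i - j).toNat j
    have e : j + ((i - j).toNat : ℤ) = i := by omega
    rw [e, SimpleGraph.dist_comm] at this
    omega

theorem closure_top {X : Subgroup G} {t : G} {η : G →* Multiplicative ℤ} (h : TD X t η) :
    Subgroup.closure ((X : Set G) ∪ {t}) = ⊤ := by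
  rw [eq_top_iff]
  intro g _
  set K := Subgroup.closure ((X : Set G) ∪ {t}) with hK
  have hXK : ∀ x ∈ X, x ∈ K := fun x hx => Subgroup.subset_closure (Or.inl hx)
  have htK : t ∈ K := Subgroup.subset_closure (Or.inr rfl)
  have key : ∀ (u v : G ⧸ X) (_ : (CG X t).Walk u v), (∃ a ∈ K, u = (a : G ⧸ X)) →
      ∃ b ∈ K, v = (b : G ⧸ X) := by
    intro u v w
    induction w with
    | nil => exact fun h => h
    | cons hadj p ih =>
      rintro ⟨a, ha, hu⟩
      apply ih
      obtain ⟨x, ⟨h1, h2⟩ | ⟨h1, h2⟩⟩ := adj_cases hadj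
      · have h3 : a⁻¹ * x ∈ X := (QuotientGroup.eq (s := X)).1 (hu.symm.trans h1)
        have h4 : x ∈ K := by
          have : x = a * (a⁻¹ * x) := by group
          rw [this]
          exact K.mul_mem ha (hXK _ h3)
        exact ⟨x * t, K.mul_mem h4 htK, h2⟩
      · have h3 : a⁻¹ * (x * t) ∈ X := (QuotientGroup.eq (s := X)).1 (hu.symm.trans h2)
        have h4 : x ∈ K := by
          have : x = a * (a⁻¹ * (x * t)) * t⁻¹ := by group
          rw [this]
          exact K.mul_mem (K.mul_mem ha (hXK _ h3)) (K.inv_mem htK)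
        exact ⟨x, h4, h1⟩
  obtain ⟨w⟩ := h.tree.connected.preconnected ((1 : G) : G ⧸ X) (g : G ⧸ X)
  obtain ⟨b, hb, hgb⟩ := key _ _ w ⟨1, K.one_mem, rfl⟩
  have h3 : b⁻¹ * g ∈ X := (QuotientGroup.eq (s := X)).1 hgb.symm
  have : g = b * (b⁻¹ * g) := by group
  rw [this]
  exact K.mul_mem hb (hXK _ h3)

end

theorem stBasic : StBasic := by
  intro G _ X t η
  refine ⟨actsOn_CG X t, fun hX ht => noInv_CG hX ht, isLine_vx, vx_smul t X, fix_iff X, ?_,
    closure_top, ?_⟩
  · intro ht hX u v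
    constructor
    · exact adj_cases
    · rintro ⟨g, ⟨h1, h2⟩ | ⟨h1, h2⟩⟩
      · rw [h1, h2]
        exact adj_mk hX ht g
      · rw [h1, h2]
        exact (adj_mk hX ht g).symm
  · intro h e p hp
    have h1 := congrArg (hgt η X) hp
    rw [hgt_smul h.ht] at h1
    have h2 : toAdd (η e) = 0 := by omega
    exact Multiplicative.toAdd.injective (by rw [h2]; rfl)

end Pool.Agent.D6b
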