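import Mathlib
import Pool.Agent.Lib.MP_d6b03d_al.Stmts

/-!
T4: points between are determined by the distance; fixed point sets are convex.
-/

set_option autoImplicit false

namespace Pool.Agent.D6b

/-- automorphisms preserve the distance -/
theorem dist_smul {V : Type} {S : SimpleGraph V} (hS : S.Connected) {G : Type} [Group G]
    [MulAction G V] (hG : ActsOn S G) (g : G) (u v : V) : S.dist (g • u) (g • v) = S.dist u v := by
  have key : ∀ (g : G) (u v : V), S.dist (g • u) (g • v) ≤ S.dist u v := by
    intro g u v
    obtain ⟨w, hw⟩ := hS.exists_walk_length_eq_dist u v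
    let f : S →g S := ⟨fun x => g • x, fun {a b} h => hG g a b h⟩
    have h1 := SimpleGraph.dist_le (w.map f)
    rw [SimpleGraph.Walk.length_map, hw] at h1
    exact h1
  refine le_antisymm (key g u v) ?_
  have h2 := key g⁻¹ (g • u) (g • v)
  rwa [inv_smul_smul, inv_smul_smul] at h2

theorem btw_unique {V : Type} {S : SimpleGraph V} (hS : S.IsTree) {p q r r' : V}
    (h : Btw S p r q) (h' : Btw S p r' q) (hd : S.dist p r = S.dist p r') : r = r' := by
  obtain ⟨w1, hw1⟩ := hS.connected.exists_walk_length_eq_dist p r
  obtain ⟨w2, hw2⟩ := hS.connected.exists_walk_length_eq_dist r q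
  obtain ⟨v1, hv1⟩ := hS.connected.exists_walk_length_eq_dist p r'
  obtain ⟨v2, hv2⟩ := hS.connected.exists_walk_length_eq_dist r' q
  have hw : (w1.append w2).length = S.dist p q := by
    rw [SimpleGraph.Walk.length_append, hw1, hw2]
    exact h
  have hv : (v1.append v2).length = S.dist p q := by
    rw [SimpleGraph.Walk.length_append, hv1, hv2]
    exact h'
  have pw := (w1.append w2).isPath_of_length_eq_dist hw
  have pv := (v1.append v2).isPath_of_length_eq_dist hv
  have e := hS.isAcyclic.path_unique ⟨_, pw⟩ ⟨_, pv⟩
  have e' : w1.append w2 = v1.append v2 := congrArg Subtype.val e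
  have g1 : (w1.append w2).getVert w1.length = r := by
    rw [SimpleGraph.Walk.getVert_append]
    simp
  have g2 : (v1.append v2).getVert v1.length = r' := by
    rw [SimpleGraph.Walk.getVert_append]
    simp
  rw [← g1, ← g2, e', hw1, hv1, hd]

theorem stBtwU : StBtwU := by
  intro V S hS
  refine ⟨fun p q r r' h h' hd => btw_unique hS h h' hd, ?_⟩
  intro G _ _ hG g p q r hp hq h
  have h1 := dist_smul hS.connected hG g p r
  have h2 := dist_smul hS.connected hG g r q
  rw [hp] at h1
  rw [hq] at h2
  refine btw_unique hS (p := p) (q := q) ?_ h h1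
  unfold Btw at h ⊢
  rw [h1, h2]
  exact h

end Pool.Agent.D6b
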