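import Pool.Agent.Lib.MP_d6b03d_al.Stmts

/-!
MP_d6b03d_al, T7: lines at bounded distance coincide (`StClose`), from T6 (`StNear`).
-/

set_option autoImplicit false

namespace Pool.Agent.D6b

/-- an isometry of `ℤ` is `i ↦ c + ε i`, `ε = ±1` -/
theorem int_isometry (f : ℤ → ℤ) (h : ∀ i k : ℤ, (f i - f k).natAbs = (i - k).natAbs) :
    ∃ c ε : ℤ, (ε = 1 ∨ ε = -1) ∧ ∀ i : ℤ, f i = c + ε * i := by
  have h10 := h 1 0
  rcases (show f 1 - f 0 = 1 ∨ f 1 - f 0 = -1 by omega) with h1 | h1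
  · refine ⟨f 0, 1, Or.inl rfl, fun i => ?_⟩
    have ha := h i 0
    have hb := h i 1
    omega
  · refine ⟨f 0, -1, Or.inr rfl, fun i => ?_⟩
    have ha := h i 0
    have hb := h i 1
    omega

/-- two lines with `L' i` in `L` for all `i` -/
theorem line_eq_of_mem {V : Type} {S : SimpleGraph V} {L L' : ℤ → V} (hL : IsLine S L)
    (hL' : IsLine S L') (h : ∀ i : ℤ, ∃ j : ℤ, L' i = L j) :
    ∃ c ε : ℤ, (ε = 1 ∨ ε = -1) ∧ ∀ i : ℤ, L' i = L (c + ε * i) := by
  choose f hf using h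
  obtain ⟨c, ε, hε, hc⟩ := int_isometry f (fun i k => by
    rw [← hL, ← hf, ← hf, hL'])
  exact ⟨c, ε, hε, fun i => by rw [hf, hc]⟩

/-- T7: lines at bounded distance coincide -/
theorem stClose (h6 : StNear) : StClose := by
  intro V S hS L L' hL hL' R hR
  refine line_eq_of_mem hL hL' (fun i => ?_)
  have key := h6 V S hS L hL (2 * R) R (fun k => L' (i - R + k))
    (fun a _ b _ => by
      rw [hL']
      congr 1
      ring)
    (hR _) (hR _) R le_rfl (by omega)
  simpa using key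

end Pool.Agent.D6b
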