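import Pool.Agent.Lib.MP_d6b03d_al.Stmts

/-!
MP_d6b03d_al, E4: the geometry of the words in `Y` and `a₁ b a₂ b a₃`.
-/

set_option autoImplicit false

namespace Pool.Agent.D6b

open Multiplicative

namespace Core

section Tree

variable {V : Type} {S : SimpleGraph V} {G : Type} [Group G] [MulAction G V]

theorem dist_smul_le (h : ActsOn S G) (hc : S.Connected) (g : G) (p q : V) :
    S.dist (g • p) (g • q) ≤ S.dist p q := by
  obtain ⟨w, hw⟩ := hc.exists_walk_length_eq_dist p q
  let φ : S →g S := ⟨fun u => g • u, fun {u v} h' => h g u v h'⟩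
  have := SimpleGraph.dist_le (w.map φ)
  rw [SimpleGraph.Walk.length_map, hw] at this
  exact this

theorem dist_smul (h : ActsOn S G) (hc : S.Connected) (g : G) (p q : V) :
    S.dist (g • p) (g • q) = S.dist p q := by
  apply le_antisymm (dist_smul_le h hc g p q)
  have := dist_smul_le h hc g⁻¹ (g • p) (g • q)
  simpa using this

theorem ext_dist (h1 : StFourPt) (h2 : StLocal) (hS : S.IsTree) {p q r s : V}
    (hr : S.dist p q = S.dist p r + 1) (hrq : S.Adj r q) (hqs : S.Adj q s) (hne : r ≠ s) :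
    S.dist p s = S.dist p q + 1 := by
  have hrs : S.dist r s = 2 := by
    have := h2 V S hS 2 (fun i => if i = 0 then r else if i = 1 then q else s) ?_ ?_
    · simpa using this
    · intro i hi
      interval_cases i
      · simpa using hrq
      · simpa using hqs
    · intro i hi
      have : i = 0 := by omega
      subst this
      simpa using hne
  have h4 := h1 V S hS p q r s
  have hrq1 : S.dist q r = 1 := SimpleGraph.dist_eq_one_iff_adj.2 hrq.symm
  have hqs1 : S.dist q s = 1 := SimpleGraph.dist_eq_one_iff_adj.2 hqs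
  have htri : S.dist p s ≤ S.dist p q + S.dist q s := hS.1.dist_triangle
  rcases le_max_iff.1 h4 with h | h <;> omega

/-- the data of an edge `v₀ v₁` with its stabilizers -/
structure Ctx (S : SimpleGraph V) (X Y : Subgroup G) (v0 v1 : V) : Prop where
  four : StFourPt
  loc : StLocal
  tree : S.IsTree
  act : ActsOn S G
  s0 : ∀ g : G, g • v0 = v0 ↔ g ∈ X
  s1 : ∀ g : G, g • v1 = v1 ↔ g ∈ Y
  adj : S.Adj v0 v1

/-- the state of a walk -/
def Stt (S : SimpleGraph V) (v0 v1 p : V) (g : G) (n : ℕ) : Prop :=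
  S.dist p (g • v1) = n ∧ S.dist p (g • v0) = n + 1

variable {X Y : Subgroup G} {v0 v1 : V}

theorem Ctx.ds (h : Ctx S X Y v0 v1) (g : G) (p q : V) : S.dist (g • p) (g • q) = S.dist p q :=
  dist_smul h.act h.tree.1 g p q

theorem Ctx.d1 (h : Ctx S X Y v0 v1) : S.dist v1 v0 = 1 :=
  SimpleGraph.dist_eq_one_iff_adj.2 h.adj.symm

theorem Ctx.start1 (h : Ctx S X Y v0 v1) {y : G} (hy : y ∈ Y) : Stt S v0 v1 v1 y 0 := by
  constructor
  · rw [(h.s1 y).2 hy]; simp
  · have := h.ds y v1 v0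
    rw [(h.s1 y).2 hy, h.d1] at this
    simpa using this

theorem Ctx.fin (h : Ctx S X Y v0 v1) {p : V} {g : G} {n : ℕ} (hs : Stt S v0 v1 p g n) {x : G}
    (hx : x ∈ X) (hx' : x ∉ Y) : S.dist p ((g * x) • v1) = n + 2 := by
  have hgx : (g * x) • v0 = g • v0 := by rw [mul_smul, (h.s0 x).2 hx]
  have := ext_dist h.four h.loc h.tree (p := p) (q := g • v0) (r := g • v1) (s := (g * x) • v1)
    (by rw [hs.1, hs.2]) (h.act g _ _ h.adj.symm) (by rw [← hgx]; exact h.act _ _ _ h.adj) ?_
  · rw [this, hs.2]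
  · intro heq
    rw [mul_smul, smul_left_cancel_iff] at heq
    exact hx' ((h.s1 x).1 heq.symm)

theorem Ctx.step (h : Ctx S X Y v0 v1) {p : V} {g : G} {n : ℕ} (hs : Stt S v0 v1 p g n) {x y : G}
    (hx : x ∈ X) (hx' : x ∉ Y) (hy : y ∈ Y) (hy' : y ∉ X) :
    Stt S v0 v1 p (g * (x * y)) (n + 2) := by
  have hf := h.fin hs hx hx'
  have hgx : (g * x) • v0 = g • v0 := by rw [mul_smul, (h.s0 x).2 hx]
  have hgy : (g * (x * y)) • v1 = (g * x) • v1 := by
    rw [← mul_assoc, mul_smul (g * x) y, (h.s1 y).2 hy]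
  have := ext_dist h.four h.loc h.tree (p := p) (q := (g * x) • v1) (r := (g * x) • v0)
    (s := (g * (x * y)) • v0)
    (by rw [hf, hgx, hs.2]) (h.act _ _ _ h.adj) (by rw [← hgy]; exact h.act _ _ _ h.adj.symm) ?_
  · refine ⟨by rw [hgy, hf], by rw [this, hf]⟩
  · intro heq
    rw [← mul_assoc, mul_smul (g * x) y, smul_left_cancel_iff] at heq
    exact hy' ((h.s0 y).1 heq.symm)

theorem Ctx.start0 (h : Ctx S X Y v0 v1) {x y : G} (hx : x ∈ X) (hy : y ∈ Y)
    (hy' : y ∉ X) : Stt S v0 v1 v0 (x * y) 1 := by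
  have hxy : (x * y) • v1 = x • v1 := by rw [mul_smul, (h.s1 y).2 hy]
  have hx0 : x • v0 = v0 := (h.s0 x).2 hx
  have h01 : S.Adj v0 (x • v1) := by
    have := h.act x _ _ h.adj
    rwa [hx0] at this
  have hd : S.dist v0 (x • v1) = 1 := SimpleGraph.dist_eq_one_iff_adj.2 h01
  have := ext_dist h.four h.loc h.tree (p := v0) (q := x • v1) (r := v0) (s := (x * y) • v0)
    (by rw [hd]; simp) h01 (by rw [← hxy]; exact h.act _ _ _ h.adj.symm) ?_
  · exact ⟨by rw [hxy, hd], by rw [this, hd]⟩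
  · intro heq
    rw [mul_smul, ← hx0, smul_left_cancel_iff, hx0] at heq
    exact hy' ((h.s0 y).1 heq.symm)

/-- the letter `v ^ (± 1)` -/
def Vl (v : G) (e : Bool) : G := if e then v else v⁻¹

/-- a word `v = x y x' y x''` and its inverse, with the overlap condition -/
structure Alt (X Y : Subgroup G) (v : G) (A1 A2 A3 β : Bool → G) : Prop where
  hv : ∀ e, Vl v e = A1 e * β e * (A2 e * β e) * A3 e
  m1 : ∀ e, A1 e ∈ X
  m2 : ∀ e, A2 e ∈ X
  m3 : ∀ e, A3 e ∈ X
  n1 : ∀ e, A1 e ∉ Y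
  n2 : ∀ e, A2 e ∉ Y
  n3 : ∀ e, A3 e ∉ Y
  mb : ∀ e, β e ∈ Y
  nb : ∀ e, β e ∉ X
  ov : ∀ e e' y, y ∈ Y → ¬ (e ≠ e' ∧ y = 1) → A3 e * y * A1 e' ∉ Y

variable {v : G} {A1 A2 A3 β : Bool → G}

theorem Ctx.d6 (h : Ctx S X Y v0 v1) (ha : Alt X Y v A1 A2 A3 β) (e : Bool) :
    S.dist v1 (Vl v e • v1) = 6 := by
  have s0 := h.start1 (one_mem Y)
  have s1 := h.step s0 (ha.m1 e) (ha.n1 e) (ha.mb e) (ha.nb e)
  have s2 := h.step s1 (ha.m2 e) (ha.n2 e) (ha.mb e) (ha.nb e)
  have s3 := h.fin s2 (ha.m3 e) (ha.n3 e)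
  rw [one_mul] at s3
  rw [ha.hv e, s3]

theorem Ctx.d5 (h : Ctx S X Y v0 v1) (ha : Alt X Y v A1 A2 A3 β) (e : Bool) :
    S.dist v0 (Vl v e • v1) = 5 := by
  have s1 := h.start0 (ha.m1 e) (ha.mb e) (ha.nb e)
  have s2 := h.step s1 (ha.m2 e) (ha.n2 e) (ha.mb e) (ha.nb e)
  have s3 := h.fin s2 (ha.m3 e) (ha.n3 e)
  rw [ha.hv e, s3]

theorem Ctx.d3 (h : Ctx S X Y v0 v1) (ha : Alt X Y v A1 A2 A3 β) (e : Bool) :
    S.dist v1 ((A1 e * β e) • v0) = 3 := by
  have s0 := h.start1 (one_mem Y)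
  have s1 := h.step s0 (ha.m1 e) (ha.n1 e) (ha.mb e) (ha.nb e)
  rw [one_mul] at s1
  exact s1.2

theorem Ctx.d3' (h : Ctx S X Y v0 v1) (ha : Alt X Y v A1 A2 A3 β) (e : Bool) :
    S.dist ((A1 e * β e) • v0) (Vl v e • v1) = 3 := by
  have s2 := h.start0 (ha.m2 e) (ha.mb e) (ha.nb e)
  have s3 := h.fin s2 (ha.m3 e) (ha.n3 e)
  rw [ha.hv e, mul_assoc, mul_smul (A1 e * β e) (A2 e * β e * A3 e) v1, h.ds, s3]

theorem Ctx.d10 (h : Ctx S X Y v0 v1) (ha : Alt X Y v A1 A2 A3 β) (e e' : Bool) (y : G)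
    (hy : y ∈ Y) (hr : ¬ (e ≠ e' ∧ y = 1)) :
    10 ≤ S.dist v1 ((Vl v e * y * Vl v e') • v1) := by
  have s0 := h.start1 (one_mem Y)
  have s1 := h.step s0 (ha.m1 e) (ha.n1 e) (ha.mb e) (ha.nb e)
  have s2 := h.step s1 (ha.m2 e) (ha.n2 e) (ha.mb e) (ha.nb e)
  by_cases hyX : y ∈ X
  · have hx : A3 e * y * A1 e' ∈ X := X.mul_mem (X.mul_mem (ha.m3 e) hyX) (ha.m1 e')
    have s3 := h.step s2 hx (ha.ov e e' y hy hr) (ha.mb e') (ha.nb e')
    have s4 := h.step s3 (ha.m2 e') (ha.n2 e') (ha.mb e') (ha.nb e')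
    have s5 := h.fin s4 (ha.m3 e') (ha.n3 e')
    have : Vl v e * y * Vl v e' = 1 * (A1 e * β e) * (A2 e * β e) * (A3 e * y * A1 e' * β e') *
        (A2 e' * β e') * A3 e' := by
      rw [ha.hv e, ha.hv e']
      group
    rw [this, s5]
  · have s3 := h.step s2 (ha.m3 e) (ha.n3 e) hy hyX
    have s4 := h.step s3 (ha.m1 e') (ha.n1 e') (ha.mb e') (ha.nb e')
    have s5 := h.step s4 (ha.m2 e') (ha.n2 e') (ha.mb e') (ha.nb e')
    have s6 := h.fin s5 (ha.m3 e') (ha.n3 e')
    have : Vl v e * y * Vl v e' = 1 * (A1 e * β e) * (A2 e * β e) * (A3 e * y) *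
        (A1 e' * β e') * (A2 e' * β e') * A3 e' := by
      rw [ha.hv e, ha.hv e']
      group
    rw [this, s6]
    omega

/-- partial products of a sequence of letters -/
def gs (v : G) (e : ℕ → Bool) (y : ℕ → G) (g0 : G) : ℕ → G
  | 0 => g0
  | j + 1 => gs v e y g0 j * Vl v (e j) * y j

omit [MulAction G V] in
theorem gs_mul (v : G) (e : ℕ → Bool) (y : ℕ → G) (h g0 : G) (j : ℕ) :
    gs v e y (h * g0) j = h * gs v e y g0 j := by
  induction j with
  | zero => rfl
  | succ j ih => simp only [gs, ih, mul_assoc]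

theorem gs_add (v : G) (e : ℕ → Bool) (y : ℕ → G) (g0 : G) (k j : ℕ) :
    gs v e y g0 (k + j) =
      gs v (fun i => e (k + i)) (fun i => y (k + i)) (gs v e y g0 k) j := by
  induction j with
  | zero => rfl
  | succ j ih =>
    rw [← add_assoc]
    simp only [gs, ih]

theorem Ctx.geo (hC : StConcat) (h : Ctx S X Y v0 v1) (ha : Alt X Y v A1 A2 A3 β) (n : ℕ)
    (e : ℕ → Bool) (y : ℕ → G) (g0 : G) (hy : ∀ j < n, y j ∈ Y)
    (hr : ∀ j, j + 1 < n → ¬ (e j ≠ e (j + 1) ∧ y j = 1)) :
    4 * n ≤ S.dist (g0 • v1) (gs v e y g0 n • v1) ∧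
    ∀ j < n, Btw S (g0 • v1) (gs v e y g0 j • v0) (gs v e y g0 n • v1) ∧
      Btw S (g0 • v1) (gs v e y g0 j • (A1 (e j) * β (e j)) • v0) (gs v e y g0 n • v1) := by
  have hsucc : ∀ j < n, gs v e y g0 (j + 1) • v1 = gs v e y g0 j • Vl v (e j) • v1 := by
    intro j hj
    simp only [gs]
    rw [mul_smul, mul_smul, (h.s1 (y j)).2 (hy j hj)]
  have hd : ∀ j < n, S.dist (gs v e y g0 j • v1) (gs v e y g0 (j + 1) • v1) = 6 := by
    intro j hj
    rw [hsucc j hj, h.ds, h.d6 ha]
  obtain ⟨c1, c2⟩ := hC V S h.tree n (fun j => gs v e y g0 j • v1) (fun _ => 1) (by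
    intro i hi1 hin
    obtain ⟨k, rfl⟩ : ∃ k, i = k + 1 := ⟨i - 1, by omega⟩
    have e1 := hd k (by omega)
    have e2 := hd (k + 1) hin
    have e3 : 10 ≤ S.dist (gs v e y g0 k • v1) (gs v e y g0 (k + 1 + 1) • v1) := by
      rw [hsucc (k + 1) hin]
      simp only [gs]
      rw [mul_assoc, mul_smul, smul_smul (Vl v (e k) * y k), h.ds]
      exact h.d10 ha (e k) (e (k + 1)) (y k) (hy k (by omega)) (hr k hin)
    simp only [Nat.add_sub_cancel]
    omega) (by
    intro i hi
    have e1 := hd i hi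
    omega)
  constructor
  · refine le_trans ?_ c1
    rw [Finset.sum_congr rfl (g := fun _ => 4)]
    · simp [mul_comm]
    · intro i hi
      have := hd i (Finset.mem_range.1 hi)
      omega
  · intro j hj
    constructor
    · apply c2 j hj
      · simp only [Btw]
        rw [hd j hj, hsucc j hj, h.ds, h.ds, h.d1, h.d5 ha]
      · rw [h.ds, h.d1]
      · rw [hsucc j hj, h.ds, h.d5 ha]
        omega
    · apply c2 j hj
      · simp only [Btw]
        rw [hd j hj, hsucc j hj, h.ds, h.ds, h.d3 ha, h.d3' ha]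
      · rw [h.ds, h.d3 ha]
        omega
      · rw [hsucc j hj, h.ds, h.d3' ha]
        omega

end Tree

/-! ### words -/

section Words

variable {G : Type} [Group G]

/-- the product of a word in `v` with coefficients -/
def W (v : G) (l : List (Bool × G)) : G := (l.map (fun x => Vl v x.1 * x.2)).prod

/-- reduced words with coefficients in `Y` -/
def Rd (Y : Subgroup G) (l : List (Bool × G)) : Prop :=
  (∀ x ∈ l, x.2 ∈ Y) ∧ l.IsChain (fun x y => ¬ (x.1 ≠ y.1 ∧ x.2 = 1))

@[simp] theorem W_nil (v : G) : W v [] = 1 := rfl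

@[simp] theorem W_cons (v : G) (x : Bool × G) (l : List (Bool × G)) :
    W v (x :: l) = Vl v x.1 * x.2 * W v l := by
  simp [W]

theorem W_append (v : G) (l l' : List (Bool × G)) : W v (l ++ l') = W v l * W v l' := by
  simp [W]

theorem Vl_not (v : G) (e e' : Bool) (h : e ≠ e') : Vl v e * Vl v e' = 1 := by
  cases e <;> cases e' <;> simp_all [Vl]

theorem redform (Y : Subgroup G) (v : G) (z : G) (hz : z ∈ Y ⊔ Subgroup.closure {v}) :
    ∃ y0 ∈ Y, ∃ l, Rd Y l ∧ z = y0 * W v l := by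
  have hcl : Y ⊔ Subgroup.closure {v} = Subgroup.closure ((Y : Set G) ∪ {v}) := by
    rw [Subgroup.closure_union, Subgroup.closure_eq]
  have hV : ∀ (e : Bool) (z : G), (∃ y0 ∈ Y, ∃ l, Rd Y l ∧ z = y0 * W v l) →
      ∃ y0 ∈ Y, ∃ l, Rd Y l ∧ Vl v e * z = y0 * W v l := by
    rintro e z ⟨y0, hy0, l, hl, rfl⟩
    rcases l with _ | ⟨x, l⟩
    · refine ⟨1, one_mem Y, [(e, y0)], ⟨by simpa using hy0, List.isChain_singleton _⟩, by simp⟩
    · by_cases hc : e ≠ x.1 ∧ y0 = 1
      · refine ⟨x.2, hl.1 x (by simp), l, ⟨fun z hz => hl.1 z (by simp [hz]), hl.2.tail⟩, ?_⟩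
        rw [hc.2, one_mul, W_cons, ← mul_assoc, ← mul_assoc, Vl_not v e x.1 hc.1, one_mul]
      · refine ⟨1, one_mem Y, (e, y0) :: x :: l, ⟨?_, ?_⟩, ?_⟩
        · intro z hz
          rcases List.mem_cons.1 hz with rfl | hz
          · exact hy0
          · exact hl.1 z hz
        · exact List.isChain_cons_cons.2 ⟨hc, hl.2⟩
        · simp [mul_assoc]
  have hYl : ∀ (y z : G), y ∈ Y → (∃ y0 ∈ Y, ∃ l, Rd Y l ∧ z = y0 * W v l) →
      ∃ y0 ∈ Y, ∃ l, Rd Y l ∧ y * z = y0 * W v l := by
    rintro y z hy ⟨y0, hy0, l, hl, rfl⟩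
    exact ⟨y * y0, Y.mul_mem hy hy0, l, hl, by simp [mul_assoc]⟩
  rw [hcl] at hz
  induction hz using Subgroup.closure_induction_left with
  | one => exact ⟨1, one_mem Y, [], ⟨by simp, List.isChain_nil⟩, by simp⟩
  | mul_left x hx y _ ih =>
    rcases hx with hx | hx
    · exact hYl x y hx ih
    · rw [Set.mem_singleton_iff] at hx
      subst hx
      exact hV true y ih
  | inv_mul_cancel x hx y _ ih =>
    rcases hx with hx | hx
    · exact hYl x⁻¹ y (Y.inv_mem hx) ih
    · rw [Set.mem_singleton_iff] at hx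
      subst hx
      exact hV false y ih

theorem gs_list (v : G) (l : List (Bool × G)) : ∀ (g0 : G) (e : ℕ → Bool) (y : ℕ → G),
    (∀ j (h : j < l.length), e j = (l[j]).1 ∧ y j = (l[j]).2) →
    gs v e y g0 l.length = g0 * W v l := by
  induction l with
  | nil => intro g0 e y _; simp [gs]
  | cons x l ih =>
    intro g0 e y h
    rw [List.length_cons, add_comm, gs_add]
    rw [ih]
    · have h0 := h 0 (by simp)
      simp only [List.getElem_cons_zero] at h0
      simp only [gs, h0.1, h0.2, W_cons]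
      group
    · intro j hj
      have := h (1 + j) (by simp; omega)
      simpa [add_comm 1 j] using this

theorem Rd.concat {Y : Subgroup G} {l : List (Bool × G)} {e : Bool} {y y' : G}
    (h : Rd Y (l ++ [(e, y)])) (hy' : y' ∈ Y) : Rd Y (l ++ [(e, y * y')]) := by
  constructor
  · intro x hx
    rcases List.mem_append.1 hx with hx | hx
    · exact h.1 x (by simp [hx])
    · rw [List.mem_singleton] at hx
      subst hx
      exact Y.mul_mem (h.1 (e, y) (by simp)) hy'
  · have := List.isChain_append.1 h.2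
    refine List.isChain_append.2 ⟨this.1, List.isChain_singleton _, ?_⟩
    intro x hx z hz
    have h3 := this.2.2 x hx (e, y) (by simp)
    simp only [List.head?_cons, Option.mem_def, Option.some.injEq] at hz
    subst hz
    exact h3

/-- move the first coefficient to the end by a conjugation -/
theorem norm_form (Y : Subgroup G) (v z β y0 : G) (l : List (Bool × G))
    (hβ : β ∈ Y ⊔ Subgroup.closure {v}) (hy0 : y0 ∈ Y) (hl : Rd Y l)
    (hz : β⁻¹ * z * β = y0 * W v l)
    (hn : ∀ β ∈ Y ⊔ Subgroup.closure {v}, β⁻¹ * z * β ∉ Y) :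
    ∃ β' ∈ Y ⊔ Subgroup.closure {v}, ∃ l', Rd Y l' ∧ l'.length = l.length ∧ l' ≠ [] ∧
      β'⁻¹ * z * β' = W v l' := by
  rcases List.eq_nil_or_concat l with rfl | ⟨l1, ⟨e, y⟩, rfl⟩
  · exfalso
    apply hn β hβ
    rw [hz]
    simpa using hy0
  · refine ⟨β * y0, Subgroup.mul_mem _ hβ (Subgroup.mem_sup_left hy0), l1 ++ [(e, y * y0)],
      ?_, by simp, by simp, ?_⟩
    · rw [List.concat_eq_append] at hl
      exact hl.concat hy0
    · have : (β * y0)⁻¹ * z * (β * y0) = y0⁻¹ * (β⁻¹ * z * β) * y0 := by group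
      rw [this, hz]
      simp only [List.concat_eq_append, W_append, W_cons, W_nil, mul_one]
      group

/-- a shortest conjugate is cyclically reduced -/
theorem cyc_form (Y : Subgroup G) (v z : G) (hz : z ∈ Y ⊔ Subgroup.closure {v})
    (hn : ∀ β ∈ Y ⊔ Subgroup.closure {v}, β⁻¹ * z * β ∉ Y) :
    ∃ β ∈ Y ⊔ Subgroup.closure {v}, ∃ l, Rd Y l ∧ ∃ hl : l ≠ [], β⁻¹ * z * β = W v l ∧
      ¬ ((l.getLast hl).1 ≠ (l.head hl).1 ∧ (l.getLast hl).2 = 1) := by
  classical
  let P : ℕ → Prop := fun n => ∃ β ∈ Y ⊔ Subgroup.closure {v}, ∃ l, Rd Y l ∧ l.length = n ∧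
    l ≠ [] ∧ β⁻¹ * z * β = W v l
  have hP : ∃ n, P n := by
    obtain ⟨y0, hy0, l, hl, hzl⟩ := redform Y v z hz
    obtain ⟨β', hβ', l', h1, h2, h3, h4⟩ := norm_form Y v z 1 y0 l (one_mem _) hy0 hl
      (by simpa using hzl) hn
    exact ⟨l.length, β', hβ', l', h1, h2, h3, h4⟩
  obtain ⟨β, hβ, l, hl, hlen, hne, hzl⟩ := Nat.find_spec hP
  refine ⟨β, hβ, l, hl, hne, hzl, ?_⟩
  rintro ⟨h1, h2⟩
  -- `l = x :: l2 ++ [(e, 1)]`
  obtain ⟨x, l1, rfl⟩ := List.exists_cons_of_ne_nil hne
  rcases List.eq_nil_or_concat l1 with rfl | ⟨l2, w, hlw⟩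
  · simp at h1
  rw [List.concat_eq_append] at hlw
  subst hlw
  simp only [List.head_cons, ne_eq] at h1 h2
  have hlast : (x :: (l2 ++ [w])).getLast (by simp) = w := by
    simp [List.getLast_cons]
  rw [hlast] at h1 h2
  have hxB : ∀ e, Vl v e ∈ Y ⊔ Subgroup.closure {v} := by
    intro e
    have hv : v ∈ Y ⊔ Subgroup.closure {v} :=
      Subgroup.mem_sup_right (Subgroup.subset_closure rfl)
    cases e
    · exact Subgroup.inv_mem _ hv
    · exact hv
  have hW : (β * Vl v x.1)⁻¹ * z * (β * Vl v x.1) = x.2 * W v l2 := by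
    have : (β * Vl v x.1)⁻¹ * z * (β * Vl v x.1) =
        (Vl v x.1)⁻¹ * (β⁻¹ * z * β) * Vl v x.1 := by group
    rw [this, hzl]
    simp only [W_cons, W_append, W_nil, mul_one, h2]
    have h3 := Vl_not v w.1 x.1 h1
    calc (Vl v x.1)⁻¹ * (Vl v x.1 * x.2 * (W v l2 * Vl v w.1)) * Vl v x.1
        = x.2 * W v l2 * (Vl v w.1 * Vl v x.1) := by group
      _ = x.2 * W v l2 := by rw [h3, mul_one]
  have hl2 : Rd Y l2 := by
    constructor
    · intro z hz
      exact hl.1 z (by simp [hz])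
    · have := hl.2.tail
      simp only [List.tail_cons] at this
      exact this.left_of_append
  obtain ⟨β', hβ', l', g1, g2, g3, g4⟩ := norm_form Y v z (β * Vl v x.1) x.2 l2
    (Subgroup.mul_mem _ hβ (hxB _)) (hl.1 x (by simp)) hl2 hW hn
  have := Nat.find_min hP (m := l'.length) (by
    rw [← hlen, g2]
    simp)
  exact this ⟨β', hβ', l', g1, rfl, g3, g4⟩

/-- a two letter word over `Y` -/
theorem two_letter {Y : Subgroup G} {a : Fin 3 → G} (hF : FreeOver Y a) (i j : Fin 3)
    (d d' : Bool) (y : G) (hy : y ∈ Y) (h : ¬ (i = j ∧ d ≠ d' ∧ y = 1)) :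
    (if d then a i else (a i)⁻¹) * y * (if d' then a j else (a j)⁻¹) ∉ Y := by
  have := hF [(i, d, y), (j, d', 1)] (by simp) ⟨by
    intro x hx
    simp only [List.mem_cons, List.not_mem_nil, or_false] at hx
    rcases hx with rfl | rfl
    · exact hy
    · exact one_mem Y, List.isChain_cons_cons.2 ⟨h, List.isChain_singleton _⟩⟩
  simpa [wprod] using this

theorem one_letter {Y : Subgroup G} {a : Fin 3 → G} (hF : FreeOver Y a) (i : Fin 3) :
    a i ∉ Y := by
  have := hF [(i, true, 1)] (by simp) ⟨by simp, List.isChain_singleton _⟩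
  simpa [wprod] using this

theorem alt_of_free {X Y : Subgroup G} {a₁ a₂ a₃ b : G} (h₁ : a₁ ∈ X) (h₂ : a₂ ∈ X)
    (h₃ : a₃ ∈ X) (hb : b ∈ Y) (hb' : b ∉ X) (hF : FreeOver Y ![a₁, a₂, a₃]) :
    Alt X Y (a₁ * b * a₂ * b * a₃) (fun e => if e then a₁ else a₃⁻¹)
      (fun e => if e then a₂ else a₂⁻¹) (fun e => if e then a₃ else a₁⁻¹)
      (fun e => if e then b else b⁻¹) where
  hv := by
    intro e
    cases e
    · simp [Vl, mul_assoc]
    · simp [Vl, mul_assoc]
  m1 := by intro e; cases e <;> simp [h₁, h₃]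
  m2 := by intro e; cases e <;> simp [h₂]
  m3 := by intro e; cases e <;> simp [h₁, h₃]
  n1 := by
    have f1 := one_letter hF 0
    have f3 := one_letter hF 2
    intro e; cases e <;> simpa
  n2 := by
    have f1 := one_letter hF 1
    intro e; cases e <;> simpa
  n3 := by
    have f1 := one_letter hF 0
    have f3 := one_letter hF 2
    intro e; cases e <;> simpa
  mb := by intro e; cases e <;> simp [hb]
  nb := by intro e; cases e <;> simp [hb']
  ov := by
    intro e e' y hy hr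
    cases e <;> cases e'
    · have := two_letter hF 0 2 false false y hy (by simp)
      simpa using this
    · have := two_letter hF 0 0 false true y hy (by simpa using hr)
      simpa using this
    · have := two_letter hF 2 2 true false y hy (by simpa using hr)
      simpa using this
    · have := two_letter hF 2 0 true true y hy (by simp)
      simpa using this

end Words

end Core

open Core in
/-- E4 -/
theorem stCore (h1 : StFourPt) (h2 : StLocal) (h5 : StConcat) (h12 : StDeep) (hB : StBasic) :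
    StCore := by
  intro G _ X t η hTD a₁ ha₁ a₂ ha₂ a₃ ha₃ b hb hb' hF
  obtain ⟨hact, -, hline, -, hfix, -, -, -⟩ := hB G X t η
  have hC : Ctx (CG X t) X (cj t X) (vx t X 0) (vx t X 1) := by
    refine ⟨h1, h2, hTD.tree, hact, ?_, ?_, ?_⟩
    · intro g
      have := hfix g (t ^ (0 : ℤ))
      simpa [vx] using this
    · intro g
      have := hfix g (t ^ (1 : ℤ))
      rw [vx, this, zpow_one]
      constructor
      · intro h
        exact ⟨t⁻¹ * g * t, h, by simp [mul_assoc]⟩
      · rintro ⟨x, hx, rfl⟩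
        simpa [mul_assoc] using hx
    · have := hline hTD 0 1
      rw [← SimpleGraph.dist_eq_one_iff_adj, this]
      rfl
  have hA := alt_of_free ha₁ ha₂ ha₃ hb hb' hF
  have hpick : ∀ e : Bool, ∃ u ∈ cj t X ⊔ Subgroup.closure {a₁, a₂, a₃},
      (u • vx t X 0 = vx t X 0 ∧ (u * b) • vx t X 0 =
        ((if e then a₁ else a₃⁻¹) * (if e then b else b⁻¹)) • vx t X 0) ∨
      (u • vx t X 0 = ((if e then a₁ else a₃⁻¹) * (if e then b else b⁻¹)) • vx t X 0 ∧
        (u * b) • vx t X 0 = vx t X 0) := by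
    intro e
    have hcl : ∀ x ∈ ({a₁, a₂, a₃} : Set G), x ∈ cj t X ⊔ Subgroup.closure {a₁, a₂, a₃} :=
      fun x hx => Subgroup.mem_sup_right (Subgroup.subset_closure hx)
    cases e
    · refine ⟨a₃⁻¹ * b⁻¹, Subgroup.mul_mem _ (Subgroup.inv_mem _ (hcl a₃ (by simp)))
        (Subgroup.inv_mem _ (Subgroup.mem_sup_left hb)), Or.inr ⟨by simp, ?_⟩⟩
      rw [inv_mul_cancel_right]
      exact (hC.s0 _).2 (X.inv_mem ha₃)
    · refine ⟨a₁, hcl a₁ (by simp), Or.inl ⟨(hC.s0 _).2 ha₁, by simp⟩⟩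
  constructor
  · intro z hz hzY
    obtain ⟨y0, hy0, l, hl, hzl⟩ := redform _ _ z hz
    have hlne : l ≠ [] := by
      rintro rfl
      apply hzY
      rw [hzl]
      simpa using hy0
    have hlen : 0 < l.length := List.length_pos_iff.2 hlne
    have hgd : ∀ j (h : j < l.length), l.getD j (true, 1) = l[j] := by
      intro j h
      simp [h]
    have geo := hC.geo h5 hA l.length (fun j => (l.getD j (true, 1)).1)
      (fun j => (l.getD j (true, 1)).2) y0 (by
        intro j hj
        simp only [hgd j hj]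
        exact hl.1 _ (List.getElem_mem hj)) (by
        intro j hj
        simp only [hgd j (by omega), hgd (j + 1) hj]
        exact (List.isChain_iff_getElem.1 hl.2) j hj)
    have hgl := gs_list (a₁ * b * a₂ * b * a₃) l y0 (fun j => (l.getD j (true, 1)).1)
      (fun j => (l.getD j (true, 1)).2) (by
        intro j hj
        simp only [hgd j hj]
        exact ⟨trivial, trivial⟩)
    rw [hgl, ← hzl] at geo
    obtain ⟨g1, g2⟩ := geo.2 0 hlen
    simp only [gs, (hC.s1 y0).2 hy0] at g1 g2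
    obtain ⟨u, -, hu⟩ := hpick (l.getD 0 (true, 1)).1
    refine ⟨y0 * u, ?_⟩
    rw [mul_smul, mul_assoc, mul_smul]
    rcases hu with ⟨hu1, hu2⟩ | ⟨hu1, hu2⟩
    · rw [hu1, hu2]
      exact ⟨g1, g2⟩
    · rw [hu1, hu2]
      exact ⟨g2, g1⟩
  · intro z hz hn
    obtain ⟨β, hβ, l, hl, hlne, hzl, hcyc⟩ := cyc_form _ _ z hz hn
    have hlen : 0 < l.length := List.length_pos_iff.2 hlne
    set n := l.length with hn_def
    let e : ℕ → Bool := fun j => (l[j % n]'(Nat.mod_lt _ hlen)).1
    let y : ℕ → G := fun j => (l[j % n]'(Nat.mod_lt _ hlen)).2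
    have hy : ∀ j, y j ∈ cj t X := fun j => hl.1 _ (List.getElem_mem _)
    have hr : ∀ j, ¬ (e j ≠ e (j + 1) ∧ y j = 1) := by
      intro j
      have hj := Nat.mod_lt j hlen
      by_cases hj1 : j % n + 1 < n
      · have hmod : (j + 1) % n = j % n + 1 := by
          rw [Nat.add_mod, Nat.mod_eq_of_lt (show 1 < n by omega)]
          exact Nat.mod_eq_of_lt hj1
        have := (List.isChain_iff_getElem.1 hl.2) (j % n) hj1
        simpa [e, y, hmod] using this
      · have hj2 : j % n = n - 1 := by omega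
        have hmod : (j + 1) % n = 0 := by
          have := Nat.div_add_mod j n
          rw [show j + 1 = n * (j / n + 1) by rw [Nat.mul_add]; omega]
          simp
        have hgl : l.getLast hlne = l[j % n] := by
          rw [List.getLast_eq_getElem]
          simp only [hj2]
          rfl
        have hhd : l.head hlne = l[(j + 1) % n]'(Nat.mod_lt _ hlen) := by
          rw [List.head_eq_getElem]
          simp only [hmod]
        rw [hgl, hhd] at hcyc
        exact hcyc
    set v := a₁ * b * a₂ * b * a₃ with hv_def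
    set z' := β⁻¹ * z * β with hz'_def
    have hgn : gs v e y 1 n = z' := by
      rw [hzl, hn_def, gs_list, one_mul]
      intro j hj
      have hm : j % n = j := Nat.mod_eq_of_lt hj
      constructor
      · change (l[j % n]'(Nat.mod_lt _ hlen)).1 = _
        congr 2
      · change (l[j % n]'(Nat.mod_lt _ hlen)).2 = _
        congr 2
    have hper : ∀ j, gs v e y 1 (n + j) = z' * gs v e y 1 j := by
      intro j
      rw [gs_add, hgn]
      have he : (fun i => e (n + i)) = e := by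
        funext i
        simp [e]
      have hy' : (fun i => y (n + i)) = y := by
        funext i
        simp [y]
      rw [he, hy']
      have := gs_mul v e y z' 1 j
      rwa [mul_one] at this
    have hpow : ∀ K : ℕ, gs v e y 1 (n * K) = z' ^ K := by
      intro K
      induction K with
      | zero => simp [gs]
      | succ K ih =>
        rw [Nat.mul_succ, add_comm, hper, ih, pow_succ']
    have hg0 : ∀ (g0 : G) (j : ℕ), gs v e y g0 j = g0 * gs v e y 1 j := by
      intro g0 j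
      have := gs_mul v e y g0 1 j
      rwa [mul_one] at this
    obtain ⟨u, huM, hu⟩ := hpick (e 0)
    refine ⟨β * u, Subgroup.mul_mem _ ?_ huM, ?_⟩
    · have hle : cj t X ⊔ Subgroup.closure {v} ≤ cj t X ⊔ Subgroup.closure {a₁, a₂, a₃} := by
        rw [sup_le_iff]
        refine ⟨le_sup_left, ?_⟩
        rw [Subgroup.closure_le, Set.singleton_subset_iff]
        have hcl : ∀ x ∈ ({a₁, a₂, a₃} : Set G), x ∈ cj t X ⊔ Subgroup.closure {a₁, a₂, a₃} :=
          fun x hx => Subgroup.mem_sup_right (Subgroup.subset_closure hx)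
        have hbM : b ∈ cj t X ⊔ Subgroup.closure {a₁, a₂, a₃} := Subgroup.mem_sup_left hb
        exact Subgroup.mul_mem _ (Subgroup.mul_mem _ (Subgroup.mul_mem _ (Subgroup.mul_mem _
          (hcl a₁ (by simp)) hbM) (hcl a₂ (by simp))) hbM) (hcl a₃ (by simp))
      exact hle hβ
    · intro U hU hUne hU1 hU2
      obtain ⟨q, hq⟩ := hUne
      let U' : Set (G ⧸ X) := {p | β • p ∈ U}
      have hU' : Cvx (CG X t) U' := by
        intro p hp r hr' s hs
        refine hU _ hp _ hr' _ ?_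
        simp only [Btw, hC.ds]
        exact hs
      have hU1' : ∀ p ∈ U', z' • p ∈ U' := by
        intro p hp
        have : β • z' • p = z • β • p := by
          rw [smul_smul, smul_smul]
          congr 1
          rw [hz'_def]
          group
        change β • z' • p ∈ U
        rw [this]
        exact hU1 _ hp
      have hU2' : ∀ p ∈ U', z'⁻¹ • p ∈ U' := by
        intro p hp
        have : β • z'⁻¹ • p = z⁻¹ • β • p := by
          rw [smul_smul, smul_smul]
          congr 1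
          rw [hz'_def]
          group
        change β • z'⁻¹ • p ∈ U
        rw [this]
        exact hU2 _ hp
      have hP1 : ∀ K : ℕ, ∀ p ∈ U', (z' ^ K) • p ∈ U' := by
        intro K
        induction K with
        | zero => intro p hp; simpa using hp
        | succ K ih =>
          intro p hp
          rw [pow_succ', mul_smul]
          exact hU1' _ (ih p hp)
      have hP2 : ∀ K : ℕ, ∀ p ∈ U', ((z' ^ K)⁻¹) • p ∈ U' := by
        intro K
        induction K with
        | zero => intro p hp; simpa using hp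
        | succ K ih =>
          intro p hp
          rw [pow_succ, mul_inv_rev, mul_smul]
          exact hU2' _ (ih p hp)
      have hq' : β⁻¹ • q ∈ U' := by
        change β • β⁻¹ • q ∈ U
        rwa [smul_inv_smul]
      set R := (CG X t).dist (vx t X 1) (β⁻¹ • q) with hR
      obtain ⟨K, hK⟩ : ∃ K, K = R + 1 := ⟨_, rfl⟩
      have geo0 := hC.geo h5 hA (n * K) e y 1 (fun j _ => hy j) (fun j _ => hr j)
      have geo1 := hC.geo h5 hA (n * K) e y (z' ^ K)⁻¹ (fun j _ => hy j) (fun j _ => hr j)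
      have geo2 := hC.geo h5 hA (n * (2 * K)) e y (z' ^ K)⁻¹ (fun j _ => hy j) (fun j _ => hr j)
      have d0 := geo0.1
      have d1 := geo1.1
      have hnK : K ≤ n * K := Nat.le_mul_of_pos_left K hlen
      have hjlt : n * K < n * (2 * K) := by
        apply Nat.mul_lt_mul_of_pos_left _ hlen
        omega
      obtain ⟨b1, b2⟩ := geo2.2 (n * K) hjlt
      rw [hg0, hpow, inv_mul_cancel, hg0, hpow, two_mul, pow_add z' K K, inv_mul_cancel_left] at b1 b2
      rw [hg0, hpow, inv_mul_cancel] at d1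
      rw [hpow] at d0
      have heK : e (n * K) = e 0 := by simp [e]
      rw [heK] at b2
      rw [one_smul] at b1 b2 d0 d1
      have conn := hC.tree.1
      have deep : ∀ x : G ⧸ X, (CG X t).dist (vx t X 1) x ≤ 3 →
          Btw (CG X t) ((z' ^ K)⁻¹ • vx t X 1) x (z' ^ K • vx t X 1) → β • x ∈ U := by
        intro x hx hbx
        refine h12 (G ⧸ X) (CG X t) hC.tree U' hU' ((z' ^ K)⁻¹ • vx t X 1) (z' ^ K • vx t X 1)
          ((z' ^ K)⁻¹ • β⁻¹ • q) (z' ^ K • β⁻¹ • q) x R (hP2 K _ hq') (hP1 K _ hq') ?_ ?_ hbx ?_ ?_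
        · rw [hC.ds]
        · rw [hC.ds]
        · have := conn.dist_triangle (u := (z' ^ K)⁻¹ • vx t X 1) (v := x) (w := vx t X 1)
          rw [(CG X t).dist_comm (u := x)] at this
          omega
        · have := conn.dist_triangle (u := vx t X 1) (v := x) (w := z' ^ K • vx t X 1)
          omega
      have r0 := deep (vx t X 0) (by rw [hC.d1]; omega) b1
      have r1 := deep _ (by rw [hC.d3 hA]) b2
      rw [mul_smul, mul_assoc, mul_smul]
      rcases hu with ⟨hu1, hu2⟩ | ⟨hu1, hu2⟩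
      · rw [hu1, hu2]
        exact ⟨r0, r1⟩
      · rw [hu1, hu2]
        exact ⟨r1, r0⟩

end Pool.Agent.D6b
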