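import Mathlib
import Pool.Agent.Lib.MP_d6b03d_al.Stmts

/-!
T12: deep points of a geodesic with ends near a convex set lie in the set.
-/

set_option autoImplicit false

namespace Pool.Agent.D6b

/-- a geodesic `[p, q]` is contained in `[p, u] ∪ [u, q]` -/
theorem btw_split (h1 : StFourPt) {V : Type} {S : SimpleGraph V} (hS : S.IsTree) {p x q : V}
    (h : Btw S p x q) (u : V) : Btw S p x u ∨ Btw S u x q := by
  have h4 := h1 V S hS p q x u
  have t1 := hS.connected.dist_triangle (u := p) (v := x) (w := u)
  have t2 := hS.connected.dist_triangle (u := u) (v := x) (w := q)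
  have c1 := SimpleGraph.dist_comm (G := S) (u := q) (v := u)
  have c2 := SimpleGraph.dist_comm (G := S) (u := u) (v := x)
  have c3 := SimpleGraph.dist_comm (G := S) (u := q) (v := x)
  unfold Btw at h ⊢
  rcases le_max_iff.1 h4 with h5 | h5
  · right; omega
  · left; omega

theorem stDeep (h1 : StFourPt) : StDeep := by
  intro V S hS U hU p q u u' x R hu hu' hpu hqu' hx hpx hxq
  have z : ∀ a b : V, S.dist a b = 0 → a = b := by
    intro a b h
    rwa [hS.connected.dist_eq_zero_iff] at h
  rcases btw_split h1 hS hx u with h | h
  · have : S.dist x u = 0 := by unfold Btw at h; omega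
    rw [z _ _ this]
    exact hu
  · rcases btw_split h1 hS h u' with h' | h'
    · exact hU u hu u' hu' x h'
    · have c := SimpleGraph.dist_comm (G := S) (u := q) (v := u')
      have : S.dist u' x = 0 := by unfold Btw at h'; omega
      rw [← z _ _ this]
      exact hu'

end Pool.Agent.D6b
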