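import Pool.Agent.Lib.MP_d6b03d_al.Stmts

/-!
MP_d6b03d_al, P2: directions.
-/

set_option autoImplicit false

namespace Pool.Agent.D6b

open Multiplicative Base

namespace Dir

section

variable {G : Type} [Group G] {X : Subgroup G} {t : G} {η : G →* Multiplicative ℤ}

/-- height of a vertex -/
def hgt (η : G →* Multiplicative ℤ) (hX : ∀ x ∈ X, η x = 1) : G ⧸ X → ℤ :=
  Quotient.lift (fun g => toAdd (η g)) (by
    intro a b hab
    have h1 : a⁻¹ * b ∈ X := QuotientGroup.leftRel_apply.1 hab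
    have h2 := hX _ h1
    have h3 : η a = η b := by
      rw [map_mul, map_inv, inv_mul_eq_one] at h2
      exact h2
    simp [h3])

lemma hgt_mk (hX : ∀ x ∈ X, η x = 1) (g : G) : hgt η hX (g : G ⧸ X) = toAdd (η g) := rfl

lemma hgt_smul (hX : ∀ x ∈ X, η x = 1) (g : G) (u : G ⧸ X) :
    hgt η hX (g • u) = toAdd (η g) + hgt η hX u := by
  induction u using QuotientGroup.induction_on with
  | H x =>
    have : g • (x : G ⧸ X) = ((g * x : G) : G ⧸ X) := rfl
    rw [this, hgt_mk, hgt_mk, map_mul, toAdd_mul]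

lemma hgt_vx (hX : ∀ x ∈ X, η x = 1) (et : η t = ofAdd 1) (i : ℤ) : hgt η hX (vx t X i) = i := by
  unfold vx
  rw [hgt_mk, map_zpow, et]
  simp

/-- the subgraph of the edges of positive height -/
def up (η : G →* Multiplicative ℤ) (hX : ∀ x ∈ X, η x = 1) (t : G) : SimpleGraph (G ⧸ X) where
  Adj u v := (CG X t).Adj u v ∧ 1 ≤ hgt η hX u ∧ 1 ≤ hgt η hX v
  symm := ⟨fun _ _ h => ⟨h.1.symm, h.2.2, h.2.1⟩⟩
  loopless := ⟨fun _ h => h.1.ne rfl⟩

lemma up_smul (hA : ActsOn (CG X t) G) (hX : ∀ x ∈ X, η x = 1) {g : G} (hg : η g = 1)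
    {u v : G ⧸ X} (h : (up η hX t).Reachable u v) : (up η hX t).Reachable (g • u) (g • v) := by
  let f : up η hX t →g up η hX t :=
    { toFun := fun u => g • u
      map_rel' := by
        intro a b hab
        refine ⟨hA g a b hab.1, ?_, ?_⟩
        · rw [hgt_smul, hg]; simpa using hab.2.1
        · rw [hgt_smul, hg]; simpa using hab.2.2 }
  exact h.map f

/-- the subgroup of the elements of height 0 which preserve the branch of `v₁` -/
def KK (hA : ActsOn (CG X t) G) (hX : ∀ x ∈ X, η x = 1) : Subgroup G where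
  carrier := {b | η b = 1 ∧ (up η hX t).Reachable (vx t X 1) (b • vx t X 1)}
  one_mem' := ⟨map_one _, by rw [one_smul]⟩
  mul_mem' := by
    rintro a b ⟨ha, ha'⟩ ⟨hb, hb'⟩
    refine ⟨by rw [map_mul, ha, hb, one_mul], ?_⟩
    rw [mul_smul]
    exact ha'.trans (up_smul hA hX ha hb')
  inv_mem' := by
    rintro a ⟨ha, ha'⟩
    have h1 : η a⁻¹ = 1 := by rw [map_inv, ha, inv_one]
    refine ⟨h1, ?_⟩
    have h2 := up_smul hA hX h1 ha'
    rw [inv_smul_smul] at h2
    exact h2.symm

end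

end Dir

open Dir in
theorem stDir (h0 : StBasic) (h3 : StSub) : StDir := by
  intro G _ X t η td M β hβ
  obtain ⟨hA, hNo, hL, hvx, hfix, hadj, hcl, hft⟩ := h0 G X t η
  have hX := td.ht
  have et := td.et
  have hadjv : ∀ i : ℤ, (CG X t).Adj (vx t X i) (vx t X (i + 1)) := by
    intro i
    rw [hadj et hX]
    refine ⟨t ^ i, Or.inl ⟨rfl, ?_⟩⟩
    unfold vx
    rw [zpow_add_one]
  have hpath : ∀ j : ℕ, (up η hX t).Reachable (vx t X 1) (vx t X ((j : ℤ) + 1)) := by
    intro j
    induction j with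
    | zero => simp
    | succ j ih =>
      refine ih.trans (SimpleGraph.Adj.reachable ?_)
      have := hadjv ((j : ℤ) + 1)
      refine ⟨by push_cast; exact this, ?_, ?_⟩
      · rw [hgt_vx hX et]; omega
      · rw [hgt_vx hX et]; push_cast; omega
  have hgen : ∀ j : ℕ, ∀ x ∈ X, t ^ (j + 1) * x * (t ^ (j + 1))⁻¹ ∈ KK hA hX := by
    intro j x hx
    have h1 : η (t ^ (j + 1) * x * (t ^ (j + 1))⁻¹) = 1 := by
      rw [map_mul, map_mul, map_inv, hX x hx]; simp
    refine ⟨h1, ?_⟩
    have h2 := up_smul hA hX h1 (hpath j)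
    have h4 : (t ^ (j + 1) * x * (t ^ (j + 1))⁻¹) • vx t X ((j : ℤ) + 1)
        = vx t X ((j : ℤ) + 1) := by
      unfold vx
      rw [hfix]
      have : (t ^ ((j : ℤ) + 1))⁻¹ * (t ^ (j + 1) * x * (t ^ (j + 1))⁻¹) * t ^ ((j : ℤ) + 1)
          = x := by
        have : (t ^ ((j : ℤ) + 1)) = t ^ (j + 1) := by
          rw [← zpow_natCast]; push_cast; rfl
        rw [this]; group
      rw [this]
      exact hx
    rw [h4] at h2
    exact (hpath j).trans h2.symm
  have hXn : ∀ (M j : ℕ), ∀ x ∈ Xn t X M, t ^ (j + 1) * x * (t ^ (j + 1))⁻¹ ∈ KK hA hX := by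
    intro M
    induction M with
    | zero => exact hgen
    | succ M ih =>
      intro j
      have h1 : Xn t X (M + 1) ≤
          (KK hA hX).comap (MulAut.conj (t ^ (j + 1))).toMonoidHom := by
        refine sup_le ?_ ?_
        · intro x hx
          exact ih j x hx
        · rintro _ ⟨x, hx, rfl⟩
          have := ih (j + 1) x hx
          rw [Subgroup.mem_comap]
          have e : (MulAut.conj (t ^ (j + 1))).toMonoidHom ((MulAut.conj t).toMonoidHom x)
              = t ^ (j + 1 + 1) * x * (t ^ (j + 1 + 1))⁻¹ := by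
            simp only [MulEquiv.toMonoidHom_eq_coe, MonoidHom.coe_coe, MulAut.conj_apply]
            rw [pow_succ t (j + 1)]
            group
          rw [e]
          exact this
      intro x hx
      exact h1 hx
  have hβK : β ∈ KK hA hX := by
    obtain ⟨x, hx, rfl⟩ := hβ
    have := hXn M 0 x hx
    simpa using this
  obtain ⟨hβ1, hβ2⟩ := hβK
  by_cases hq : β • vx t X 0 = vx t X 0
  · exact Or.inl hq
  right
  set S := CG X t with hS
  set q := β • vx t X 0 with hqd
  let S2 : SimpleGraph (G ⧸ X) :=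
    { Adj := fun u v => S.Adj u v ∧ u ≠ vx t X 0 ∧ v ≠ vx t X 0
      symm := ⟨fun _ _ h => ⟨h.1.symm, h.2.2, h.2.1⟩⟩
      loopless := ⟨fun _ h => h.1.ne rfl⟩ }
  have hne : ∀ u, 1 ≤ hgt η hX u → u ≠ vx t X 0 := by
    rintro u hu rfl
    rw [hgt_vx hX et] at hu
    omega
  have hle : up η hX t ≤ S2 := by
    intro u v h
    exact ⟨h.1, hne _ h.2.1, hne _ h.2.2⟩
  have hv1 : vx t X 1 ≠ vx t X 0 := hne _ (by rw [hgt_vx hX et])
  have hr1 : S2.Reachable (vx t X 1) q := by
    refine (hβ2.mono hle).trans (SimpleGraph.Adj.reachable ?_)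
    refine ⟨?_, ?_, hq⟩
    · have := hA β _ _ (hadjv 0)
      simpa using this.symm
    · refine hne _ ?_
      rw [hgt_smul, hβ1, hgt_vx hX et]; simp
  have hS2S : S2 ≤ S := fun u v h => h.1
  have hiso : ¬ S2.Reachable (vx t X 1) (vx t X 0) := by
    rintro ⟨w⟩
    have hw : ∀ a b : G ⧸ X, S2.Walk a b → a = vx t X 0 → b ≠ vx t X 0 → False := by
      intro a b w ha hb
      cases w with
      | nil => exact hb ha
      | cons h _ => exact h.2.1 ha
    exact hw _ _ w.reverse rfl hv1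
  have hbtw : ¬ Btw S (vx t X 1) (vx t X 0) q := by
    intro hb
    exact hiso ((h3 _ S2 S hS2S td.tree _ _ hr1).2 _ hb)
  have h01 : S.Adj (vx t X 0) (vx t X 1) := by simpa using hadjv 0
  have hd1 : S.dist (vx t X 1) (vx t X 0) = 1 := SimpleGraph.dist_eq_one_iff_adj.2 h01.symm
  have hd0 : S.dist (vx t X 0) (vx t X 1) = 1 := SimpleGraph.dist_eq_one_iff_adj.2 h01
  have hconn := td.tree.connected
  have ht1 : S.dist (vx t X 0) q ≤ S.dist (vx t X 0) (vx t X 1) + S.dist (vx t X 1) q :=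
    hconn.dist_triangle
  have ht2 : S.dist (vx t X 1) q ≤ S.dist (vx t X 1) (vx t X 0) + S.dist (vx t X 0) q :=
    hconn.dist_triangle
  have hne' : S.dist q (vx t X 0) ≠ S.dist q (vx t X 1) := td.tree.dist_ne_of_adj q h01
  rw [SimpleGraph.dist_comm, SimpleGraph.dist_comm (u := q)] at hne'
  unfold Btw at hbtw
  omega

end Pool.Agent.D6b
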