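import Pool.Agent.Lib.MP_d6b03d_al.Stmts

/-!
MP_d6b03d_al, module StE: the third task.
-/

set_option autoImplicit false

namespace Pool.Agent.D6b

open Multiplicative Base

namespace ETask

variable {G : Type} [Group G]

theorem mem_mcl_self (t k : G) : k ∈ Mcl t k :=
  Subgroup.subset_closure ⟨0, by simp⟩

theorem mcl_conj {t k x : G} (hx : x ∈ Mcl t k) (i : ℤ) : t ^ i * x * (t ^ i)⁻¹ ∈ Mcl t k := by
  have h : Mcl t k ≤ (Mcl t k).comap (MulAut.conj (t ^ i)).toMonoidHom := by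
    unfold Mcl
    rw [Subgroup.closure_le]
    rintro _ ⟨j, rfl⟩
    apply Subgroup.subset_closure
    refine ⟨i + j, ?_⟩
    show t ^ i * (t ^ j * k * (t ^ j)⁻¹) * (t ^ i)⁻¹ = _
    rw [zpow_add]
    group
  exact h hx

theorem mcl_conj' {t k x : G} {i : ℤ} (hx : t ^ i * x * (t ^ i)⁻¹ ∈ Mcl t k) : x ∈ Mcl t k := by
  have := mcl_conj hx (-i)
  have e : t ^ (-i) * (t ^ i * x * (t ^ i)⁻¹) * (t ^ (-i))⁻¹ = x := by
    rw [zpow_neg]
    group
  rwa [e] at this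

theorem mcl_map {G' : Type} [Group G'] (f : G →* G') {t k x : G} {κ : G'}
    (hk : f k ∈ Mcl (f t) κ) (hx : x ∈ Mcl t k) : f x ∈ Mcl (f t) κ := by
  have h : Mcl t k ≤ (Mcl (f t) κ).comap f := by
    conv_lhs => unfold Mcl
    rw [Subgroup.closure_le]
    rintro _ ⟨j, rfl⟩
    show f (t ^ j * k * (t ^ j)⁻¹) ∈ Mcl (f t) κ
    rw [map_mul, map_mul, map_inv, map_zpow]
    exact mcl_conj hk j
  exact h hx

theorem mcl_ker {H : Type} [Group H] (pr : G →* H) {t k x : G} (hk : pr k = 1)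
    (hx : x ∈ Mcl t k) : pr x = 1 := by
  have h : Mcl t k ≤ pr.ker := by
    unfold Mcl
    rw [Subgroup.closure_le]
    rintro _ ⟨j, rfl⟩
    show pr _ = 1
    rw [map_mul, map_mul, hk, map_inv]
    simp
  exact h hx

theorem le_Xn (t : G) (X : Subgroup G) (n : ℕ) : X ≤ Xn t X n := by
  induction n with
  | zero => exact le_refl _
  | succ n ih => exact le_trans ih le_sup_left

theorem stage_iter (h1 : StBC) {H : Type} [Group H] [Base H] (pr : G →* H) (em : H →* G)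
    (X : Subgroup G) (D : ℕ) (hst : IsStage pr em X D) (n : ℕ) :
    ∃ D' : ℕ, IsStage pr em (Xn (em th) X n) D' := by
  induction n with
  | zero => exact ⟨D, hst⟩
  | succ n ih =>
    obtain ⟨D', hD'⟩ := ih
    exact ⟨D' + 2, h1 H G pr em _ D' hD'⟩

end ETask

open ETask in
theorem stE (h1 : StBC) (h2 : StAbsorb) (h7 : StGen) (hE7 : StEBuild) (hE9 : StEInv) : StE := by
  intro H _ _ A k u s₀ hk hk1 hu hu1 hs hs1
  obtain ⟨G, cnt, pr, em, X, D, ok⟩ := A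
  simp only at k u s₀ hk hk1 hu hu1 hs hs1 ⊢
  set t : G := em th with ht
  set v₀ := vx t X 0 with hv₀
  set R : ℕ := max ((CG X t).dist v₀ (k • v₀))
    (max ((CG X t).dist v₀ (u • v₀)) ((CG X t).dist v₀ (s₀ • v₀))) with hR
  have hT := ok.td
  have hab : ∀ c : G, pr c = 1 → (CG X t).dist v₀ (c • v₀) ≤ R →
      t ^ R * c * (t ^ R)⁻¹ ∈ Xn t X (2 * R) := by
    intro c hc hd
    exact h2 G X t (hz.comp pr) hT R c (by simp [hc]) hd
  have hk' := hab k hk (le_max_left _ _)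
  have hu' := hab u hu (le_trans (le_max_left _ _) (le_max_right _ _))
  have hs' := hab s₀ hs (le_trans (le_max_right _ _) (le_max_right _ _))
  set k' := t ^ R * k * (t ^ R)⁻¹ with hk'd
  set u' := t ^ R * u * (t ^ R)⁻¹ with hu'd
  set s' := t ^ R * s₀ * (t ^ R)⁻¹ with hs'd
  obtain ⟨D₁, hst1⟩ := stage_iter h1 pr em X D ok (2 * R)
  set X₁ := Xn t X (2 * R) with hX₁
  have hpk' : pr k' = 1 := by
    rw [hk'd, map_mul, map_mul, hk, map_inv]
    simp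
  have hpu' : pr u' = 1 := by
    rw [hu'd, map_mul, map_mul, hu, map_inv]
    simp
  have hne : ∀ x : G, x ≠ 1 → t ^ R * x * (t ^ R)⁻¹ ≠ 1 := by
    intro x hx h
    apply hx
    have : x = (t ^ R)⁻¹ * (t ^ R * x * (t ^ R)⁻¹) * t ^ R := by group
    rw [this, h]
    group
  obtain ⟨M, a₁, a₂, a₃, w, b, ha₁, ha₂, ha₃, hw, hb, ma₁, ma₃, mw, mb, ⟨m₁, hm₁, m₂, hm₂, j, hj⟩,
    f1, f2⟩ := h7 H G pr em X₁ D₁ hst1 k' hk' u' hu' hpk' hpu' (hne k hk1) (hne u hu1)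
  obtain ⟨D₂, hst2⟩ := stage_iter h1 pr em X₁ D₁ hst1 M
  have pa₁ := mcl_ker pr hpk' ma₁
  have pa₃ := mcl_ker pr hpk' ma₃
  have pw := mcl_ker pr hpk' mw
  have pb := mcl_ker pr hpk' mb
  have pa₂ : pr a₂ = 1 := by
    rw [hj, map_mul, map_mul, map_mul, map_mul, mcl_ker pr hpk' hm₁, mcl_ker pr hpk' hm₂, hpu',
      map_inv]
    simp
  obtain ⟨G', _, f, pr', A', B', Dp, hE, hcnt, hrel⟩ := hE7 H G pr em _ D₂ hst2 a₁ ha₁ a₂ ha₂ a₃
    ha₃ w hw b hb pa₁ pa₂ pa₃ pw pb f1 f2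
  have hok := hE9 H G G' pr em _ Dp f A' B' pr' hE
  refine ⟨⟨G', hcnt cnt, pr', f.comp em, _, Dp + 2, hok⟩, f, ⟨hE.pri, fun h => rfl⟩, ?_, ?_⟩
  · intro h
    refine hne s₀ hs1 (hE.inj _ ?_ ?_)
    · exact Subgroup.mem_sup_left (le_Xn t X₁ M hs')
    · show f (t ^ R * s₀ * (t ^ R)⁻¹) = 1
      have h' : f s₀ = 1 := h
      rw [map_mul, map_mul, h', map_inv]
      simp
  · show f u ∈ Mcl (f t) (f k)
    have c1 : f k ∈ Mcl (f t) (f k) := mem_mcl_self _ _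
    have c2 : f k' ∈ Mcl (f t) (f k) := by
      rw [hk'd, map_mul, map_mul, map_inv, map_pow, ← zpow_natCast]
      exact mcl_conj c1 R
    have c3 : ∀ x ∈ Mcl t k', f x ∈ Mcl (f t) (f k) := fun x hx => mcl_map f c2 hx
    have c4 : f (a₁ * b * a₂ * b * a₃) ∈ Mcl (f t) (f k) := by
      rw [← hrel, map_mul, map_mul, map_inv]
      have := mcl_conj (c3 w mw) 1
      rwa [zpow_one] at this
    have c5 : f a₂ ∈ Mcl (f t) (f k) := by
      have e : a₂ = b⁻¹ * a₁⁻¹ * (a₁ * b * a₂ * b * a₃) * a₃⁻¹ * b⁻¹ := by group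
      rw [e, map_mul, map_mul, map_mul, map_mul, map_inv, map_inv, map_inv]
      exact Subgroup.mul_mem _ (Subgroup.mul_mem _ (Subgroup.mul_mem _ (Subgroup.mul_mem _
        (Subgroup.inv_mem _ (c3 b mb)) (Subgroup.inv_mem _ (c3 a₁ ma₁))) c4)
        (Subgroup.inv_mem _ (c3 a₃ ma₃))) (Subgroup.inv_mem _ (c3 b mb))
    have c6 : f (t ^ j * u' * (t ^ j)⁻¹) ∈ Mcl (f t) (f k) := by
      have e : t ^ j * u' * (t ^ j)⁻¹ = m₁⁻¹ * a₂ * m₂⁻¹ := by
        rw [hj, ht]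
        group
      rw [e, map_mul, map_mul, map_inv, map_inv]
      exact Subgroup.mul_mem _ (Subgroup.mul_mem _ (Subgroup.inv_mem _ (c3 m₁ hm₁)) c5)
        (Subgroup.inv_mem _ (c3 m₂ hm₂))
    rw [map_mul, map_mul, map_inv, map_zpow] at c6
    have c7 := mcl_conj' c6
    rw [hu'd, map_mul, map_mul, map_inv, map_pow, ← zpow_natCast] at c7
    exact mcl_conj' c7

end Pool.Agent.D6b
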