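import Pool.Agent.Lib.MP_d6b03d_al.Stmts

/-!
MP_d6b03d_al: module E5 (`StEAlg`): the facts `g1`, `g2`.
-/

set_option autoImplicit false

namespace Pool.Agent.D6b

open Multiplicative Base

namespace EAlg

/-- a subfamily of a free family is free -/
theorem reindex {G : Type} [Group G] {ι ι' : Type} {P : Subgroup G} {a : ι → G} (f : ι' → ι)
    (hf : Function.Injective f) (h : FreeOver P a) : FreeOver P (a ∘ f) := by
  intro l hl hr
  have h1 := h (l.map fun x => (f x.1, x.2)) (by simpa using hl) ?_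
  · have e : wprod a (l.map fun x => (f x.1, x.2)) = wprod (a ∘ f) l := by
      unfold wprod
      rw [List.map_map]
      rfl
    rwa [e] at h1
  · refine ⟨?_, ?_⟩
    · intro x hx
      obtain ⟨y, hy, rfl⟩ := List.mem_map.1 hx
      exact hr.1 y hy
    · rw [List.isChain_map]
      refine hr.2.imp ?_
      rintro x y hxy ⟨h1, h2, h3⟩
      exact hxy ⟨hf h1, h2, h3⟩

theorem notMem {G : Type} [Group G] {P : Subgroup G} {b : G} (h : FreeOver P ![b]) : b ∉ P := by
  have h1 := h [((0 : Fin 1), true, (1 : G))] (by simp) ⟨by simp [P.one_mem], by simp⟩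
  simpa [wprod] using h1

theorem dist_le {V G : Type} [Group G] [MulAction G V] {S : SimpleGraph V} (hS : S.Connected)
    (hA : ActsOn S G) (g : G) (u v : V) : S.dist (g • u) (g • v) ≤ S.dist u v := by
  obtain ⟨w, hw⟩ := hS.exists_walk_length_eq_dist u v
  let f : S →g S := ⟨fun x => g • x, fun {a b} hab => hA g a b hab⟩
  have h1 := SimpleGraph.dist_le (w.map f)
  rw [SimpleGraph.Walk.length_map, hw] at h1
  exact h1

theorem dist_eq {V G : Type} [Group G] [MulAction G V] {S : SimpleGraph V} (hS : S.Connected)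
    (hA : ActsOn S G) (g : G) (u v : V) : S.dist (g • u) (g • v) = S.dist u v := by
  refine le_antisymm (dist_le hS hA g u v) ?_
  have h := dist_le hS hA g⁻¹ (g • u) (g • v)
  rwa [inv_smul_smul, inv_smul_smul] at h

/-- the vertices of the subtree of `K` -/
def DD {G : Type} [Group G] (X : Subgroup G) (t : G) (K : Subgroup G) : Set (G ⧸ X) :=
  {p | ∃ g ∈ K, p = g • vx t X 0 ∨ p = g • vx t X 1}

theorem DD_smul {G : Type} [Group G] {X : Subgroup G} {t : G} {K : Subgroup G} {k : G}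
    (hk : k ∈ K) {p : G ⧸ X} (hp : p ∈ DD X t K) : k • p ∈ DD X t K := by
  obtain ⟨g, hg, h | h⟩ := hp
  · exact ⟨k * g, K.mul_mem hk hg, Or.inl (by rw [h, mul_smul])⟩
  · exact ⟨k * g, K.mul_mem hk hg, Or.inr (by rw [h, mul_smul])⟩

end EAlg

open EAlg

theorem stEAlg (h2 : StLocal) (hB : StBasic) (hE1 : StFAssoc) (hE2 : StMal)
    (hE3 : StSubtree) (hE4 : StCore) : StEAlg := by
  intro G _ X t η hTD a₁ ha₁ a₂ ha₂ a₃ ha₃ w hw b hb hfa hfw
  obtain ⟨hact, -, hline, -, hst, hadj, -, -⟩ := hB G X t η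
  have hconn := hTD.tree.connected
  have hL := hline hTD
  -- freeness
  have hFw : FreeOver X ![w] := by
    have h := reindex (fun _ : Fin 1 => (0 : Fin 2)) (fun _ _ _ => Subsingleton.elim _ _) hfw
    have e : (![w, b] ∘ fun _ : Fin 1 => (0 : Fin 2)) = ![w] := by
      funext i; fin_cases i; rfl
    rwa [e] at h
  have hFb : FreeOver X ![b] := by
    have h := reindex (fun _ : Fin 1 => (1 : Fin 2)) (fun _ _ _ => Subsingleton.elim _ _) hfw
    have e : (![w, b] ∘ fun _ : Fin 1 => (1 : Fin 2)) = ![b] := by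
      funext i; fin_cases i; rfl
    rwa [e] at h
  have hbX : b ∉ X := notMem hFb
  have hFs : FreeOver X (Sum.elim ![w] ![b]) := by
    have hinj : Function.Injective
        (Sum.elim (fun _ => 0) (fun _ => 1) : Fin 1 ⊕ Fin 1 → Fin 2) := by
      rintro (i | i) (j | j) hij
      · rw [Subsingleton.elim i j]
      · simp at hij
      · simp at hij
      · rw [Subsingleton.elim i j]
    have h := reindex _ hinj hfw
    have e : (![w, b] ∘ (Sum.elim (fun _ => 0) (fun _ => 1) : Fin 1 ⊕ Fin 1 → Fin 2)) =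
        Sum.elim ![w] ![b] := by
      funext i
      rcases i with i | i <;> fin_cases i <;> rfl
    rwa [e] at h
  have hbA : b ∉ X ⊔ Subgroup.closure {w} := by
    have h := ((hE1 G X (Fin 1) (Fin 1) ![w] ![b]).1 hFs).2
    have e : Set.range ![w] = {w} := by simp
    rw [e] at h
    exact notMem h
  obtain ⟨hFv, hmal⟩ := hE2 G (cj t X) a₁ a₂ a₃ b hb hfa
  -- `b` fixes `v₁` and not `v₀`
  have hv1 : vx t X 1 = ((t : G) : G ⧸ X) := by simp [vx]
  have hv0 : vx t X 0 = ((1 : G) : G ⧸ X) := by simp [vx]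
  have hbv1 : b • vx t X 1 = vx t X 1 := by
    rw [hv1, hst]
    obtain ⟨x, hx, rfl⟩ := hb
    have e : t⁻¹ * (MulAut.conj t).toMonoidHom x * t = x := by
      simp [MulAut.conj_apply, mul_assoc]
    rw [e]; exact hx
  have hbv0 : b • vx t X 0 ≠ vx t X 0 := by
    rw [hv0, Ne, hst]
    simpa using hbX
  have hd01 : (CG X t).Adj (vx t X 0) (vx t X 1) := by
    rw [← SimpleGraph.dist_eq_one_iff_adj, hL]; rfl
  -- the vertex `y v₁` is between `y v₀` and `y b v₀`
  have hbt : ∀ y : G, Btw (CG X t) (y • vx t X 0) (y • vx t X 1) ((y * b) • vx t X 0) := by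
    intro y
    have hb1 : (y * b) • vx t X 1 = y • vx t X 1 := by rw [mul_smul, hbv1]
    have e1 : (CG X t).Adj (y • vx t X 0) (y • vx t X 1) := hact y _ _ hd01
    have e2 : (CG X t).Adj (y • vx t X 1) ((y * b) • vx t X 0) := by
      have := hact (y * b) _ _ hd01.symm
      rwa [hb1] at this
    have hne : y • vx t X 0 ≠ (y * b) • vx t X 0 := by
      rw [mul_smul]
      intro h
      exact hbv0 (smul_left_cancel _ h).symm
    have h3 := h2 _ _ hTD.tree 2
      (fun i => if i = 0 then y • vx t X 0 else if i = 1 then y • vx t X 1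
        else (y * b) • vx t X 0) ?_ ?_
    · have h4 : (CG X t).dist (y • vx t X 0) ((y * b) • vx t X 0) = 2 := by simpa using h3
      unfold Btw
      rw [h4, SimpleGraph.dist_eq_one_iff_adj.mpr e1, SimpleGraph.dist_eq_one_iff_adj.mpr e2]
    · intro i hi
      interval_cases i
      · simpa using e1
      · simpa using e2
    · intro i hi
      have : i = 0 := by omega
      subst this
      simpa using hne
  -- subtree facts
  have hcl : ∀ (K : Subgroup G) (T : Set G) (P : Subgroup G), K = P ⊔ Subgroup.closure T →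
      (P = X ∧ T ⊆ cj t X ∨ P = cj t X ∧ T ⊆ X) →
      Cvx (CG X t) (DD X t K) ∧ ∀ z : G, z • vx t X 0 ∈ DD X t K → z • vx t X 1 ∈ DD X t K →
        z ∈ K := by
    intro K T P hK hPT
    refine hE3 G X t η hTD K ?_ ?_
    · apply le_antisymm
      · conv_lhs => rw [hK]
        refine sup_le ?_ ?_
        · intro p hp
          refine Subgroup.subset_closure ⟨?_, ?_⟩
          · rw [hK]; exact Subgroup.mem_sup_left hp
          · rcases hPT with ⟨rfl, -⟩ | ⟨rfl, -⟩
            · exact Or.inl hp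
            · exact Or.inr hp
        · rw [Subgroup.closure_le]
          intro p hp
          refine Subgroup.subset_closure ⟨?_, ?_⟩
          · rw [hK]; exact Subgroup.mem_sup_right (Subgroup.subset_closure hp)
          · rcases hPT with ⟨-, h⟩ | ⟨-, h⟩
            · exact Or.inr (h hp)
            · exact Or.inl (h hp)
      · rw [Subgroup.closure_le]
        intro p hp
        exact hp.1
    · intro p hp
      rw [hK]
      refine Subgroup.mem_sup_left ?_
      rcases hPT with ⟨rfl, -⟩ | ⟨rfl, -⟩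
      · exact hp.1
      · exact hp.2
  obtain ⟨hcA, hzA⟩ := hcl (X ⊔ Subgroup.closure {w}) {w} X rfl
    (Or.inl ⟨rfl, by simpa using hw⟩)
  obtain ⟨hcΓ, hzΓ⟩ := hcl (cj t X ⊔ Subgroup.closure {a₁, a₂, a₃}) {a₁, a₂, a₃} (cj t X) rfl
    (Or.inr ⟨rfl, by
      rintro p (rfl | rfl | rfl)
      · exact ha₁
      · exact ha₂
      · exact ha₃⟩)
  -- FACT
  have hfact : ∀ y : G, y • vx t X 0 ∈ DD X t (X ⊔ Subgroup.closure {w}) →
      (y * b) • vx t X 0 ∈ DD X t (X ⊔ Subgroup.closure {w}) → False := by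
    intro y hy hyb
    have h3 := hcA _ hy _ hyb _ (hbt y)
    have h4 := hzA y hy h3
    have h5 := hzA (y * b) hyb (by rw [mul_smul, hbv1]; exact h3)
    apply hbA
    have := (X ⊔ Subgroup.closure {w}).mul_mem ((X ⊔ Subgroup.closure {w}).inv_mem h4) h5
    rwa [inv_mul_cancel_left] at this
  -- the translated subtrees
  have hU : ∀ (K : Subgroup G) (x z : G), Cvx (CG X t) (DD X t K) → x⁻¹ * z * x ∈ K →
      Cvx (CG X t) {p | x⁻¹ • p ∈ DD X t K} ∧ ({p | x⁻¹ • p ∈ DD X t K} : Set (G ⧸ X)).Nonempty ∧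
      (∀ u ∈ {p | x⁻¹ • p ∈ DD X t K}, z • u ∈ {p | x⁻¹ • p ∈ DD X t K}) ∧
      (∀ u ∈ {p | x⁻¹ • p ∈ DD X t K}, z⁻¹ • u ∈ {p | x⁻¹ • p ∈ DD X t K}) := by
    intro K x z hK hxz
    refine ⟨?_, ?_, ?_, ?_⟩
    · intro p hp q hq r hr
      refine hK _ hp _ hq _ ?_
      unfold Btw at hr ⊢
      rw [dist_eq hconn hact, dist_eq hconn hact, dist_eq hconn hact]
      exact hr
    · refine ⟨x • vx t X 0, ?_⟩
      show x⁻¹ • x • vx t X 0 ∈ DD X t K
      rw [inv_smul_smul]
      exact ⟨1, K.one_mem, Or.inl (one_smul _ _).symm⟩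
    · intro u hu
      show x⁻¹ • z • u ∈ DD X t K
      have e : x⁻¹ • z • u = (x⁻¹ * z * x) • x⁻¹ • u := by
        rw [mul_smul, mul_smul, smul_inv_smul]
      rw [e]
      exact DD_smul hxz hu
    · intro u hu
      show x⁻¹ • z⁻¹ • u ∈ DD X t K
      have e : x⁻¹ • z⁻¹ • u = (x⁻¹ * z * x)⁻¹ • x⁻¹ • u := by
        have : (x⁻¹ * z * x)⁻¹ = x⁻¹ * z⁻¹ * x := by group
        rw [this, mul_smul, mul_smul, smul_inv_smul]
      rw [e]
      exact DD_smul (K.inv_mem hxz) hu
  obtain ⟨hC1, hC2⟩ := hE4 G X t η hTD a₁ ha₁ a₂ ha₂ a₃ ha₃ b hb hbX hfa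
  have hBΓ : cj t X ⊔ Subgroup.closure {a₁ * b * a₂ * b * a₃} ≤
      cj t X ⊔ Subgroup.closure {a₁, a₂, a₃} := by
    refine sup_le le_sup_left ?_
    rw [Subgroup.closure_le]
    rintro p rfl
    have hb' : b ∈ cj t X ⊔ Subgroup.closure {a₁, a₂, a₃} := Subgroup.mem_sup_left hb
    have h1 : a₁ ∈ cj t X ⊔ Subgroup.closure {a₁, a₂, a₃} :=
      Subgroup.mem_sup_right (Subgroup.subset_closure (by simp))
    have h2 : a₂ ∈ cj t X ⊔ Subgroup.closure {a₁, a₂, a₃} :=
      Subgroup.mem_sup_right (Subgroup.subset_closure (by simp))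
    have h3 : a₃ ∈ cj t X ⊔ Subgroup.closure {a₁, a₂, a₃} :=
      Subgroup.mem_sup_right (Subgroup.subset_closure (by simp))
    exact Subgroup.mul_mem _ (Subgroup.mul_mem _ (Subgroup.mul_mem _ (Subgroup.mul_mem _ h1 hb')
      h2) hb') h3
  refine ⟨hFw, hFv, ?_, ?_, ?_⟩
  · intro z hz x _ hxz
    by_contra hcon
    push Not at hcon
    obtain ⟨y, -, hy⟩ := hC2 z hz hcon
    obtain ⟨c1, c2, c3, c4⟩ := hU (X ⊔ Subgroup.closure {w}) x z hcA hxz
    obtain ⟨h3, h4⟩ := hy _ c1 c2 c3 c4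
    refine hfact (x⁻¹ * y) ?_ ?_
    · rw [mul_smul]; exact h3
    · rw [mul_assoc, mul_smul]; exact h4
  · intro z hz x _ hxB hxz
    by_contra hcon
    push Not at hcon
    obtain ⟨y, hyΓ, hy⟩ := hC2 z hz hcon
    obtain ⟨c1, c2, c3, c4⟩ := hU (cj t X ⊔ Subgroup.closure {a₁, a₂, a₃}) x z hcΓ (hBΓ hxz)
    obtain ⟨h3, h4⟩ := hy _ c1 c2 c3 c4
    have h3' : (x⁻¹ * y) • vx t X 0 ∈ DD X t (cj t X ⊔ Subgroup.closure {a₁, a₂, a₃}) := by
      rw [mul_smul]; exact h3
    have h4' : (x⁻¹ * y * b) • vx t X 0 ∈ DD X t (cj t X ⊔ Subgroup.closure {a₁, a₂, a₃}) := by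
      rw [mul_assoc, mul_smul]; exact h4
    have h5 := hcΓ _ h3' _ h4' _ (hbt (x⁻¹ * y))
    have h6 := hzΓ _ h3' h5
    have h7 : x ∈ cj t X ⊔ Subgroup.closure {a₁, a₂, a₃} := by
      have := Subgroup.mul_mem _ hyΓ (Subgroup.inv_mem _ h6)
      have e : y * (x⁻¹ * y)⁻¹ = x := by group
      rwa [e] at this
    have hz1 : z ≠ 1 := by
      rintro rfl
      refine hcon 1 (Subgroup.one_mem _) ?_
      simp
    exact hxB (hmal x h7 z hz hz1 hxz)
  · intro z hzA' hzB
    by_contra hzY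
    obtain ⟨y, h3, h4⟩ := hC1 z hzB hzY
    have e1 : vx t X 1 ∈ DD X t (X ⊔ Subgroup.closure {w}) :=
      ⟨1, Subgroup.one_mem _, Or.inr (one_smul _ _).symm⟩
    have e2 : z • vx t X 1 ∈ DD X t (X ⊔ Subgroup.closure {w}) := DD_smul hzA' e1
    exact hfact y (hcA _ e1 _ e2 _ h3) (hcA _ e1 _ e2 _ h4)

end Pool.Agent.D6b
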