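import Pool.Agent.Lib.MP_d6b03d_al.Stmts

/-!
MP_d6b03d_al, E7: construction of the third extension (helper69).
-/

set_option autoImplicit false

namespace Pool.Agent.D6b

open Multiplicative Base

namespace EB

theorem countable_HNN (Γ : Type) [Group Γ] [Countable Γ] (A B : Subgroup Γ) (φ : A ≃* B) :
    Countable (HNNExtension Γ A B φ) := by
  have h1 : Countable (FreeMonoid (Γ ⊕ Multiplicative ℤ)) :=
    inferInstanceAs (Countable (List (Γ ⊕ Multiplicative ℤ)))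
  have h2 : Countable (Monoid.Coprod Γ (Multiplicative ℤ)) :=
    Function.Surjective.countable (f := Monoid.Coprod.mk) Monoid.Coprod.mk_surjective
  exact Function.Surjective.countable (f := (HNNExtension.con Γ A B φ).mk') Con.mk'_surjective

theorem eqOn_sup {G L : Type} [Group G] [Group L] (X Y : Subgroup G) (f g : ↥(X ⊔ Y) →* L)
    (h1 : ∀ x (hx : x ∈ X), f ⟨x, le_sup_left (a := X) hx⟩ = g ⟨x, le_sup_left (a := X) hx⟩)
    (h2 : ∀ x (hx : x ∈ Y), f ⟨x, le_sup_right (b := Y) hx⟩ = g ⟨x, le_sup_right (b := Y) hx⟩) :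
    f = g := by
  have h3 : X ⊔ Y ≤ (f.eqLocus g).map (X ⊔ Y).subtype := by
    apply sup_le
    · intro x hx
      exact ⟨⟨x, le_sup_left (a := X) hx⟩, h1 x hx, rfl⟩
    · intro x hx
      exact ⟨⟨x, le_sup_right (b := Y) hx⟩, h2 x hx, rfl⟩
  ext ⟨z, hz⟩
  obtain ⟨⟨z', hz'⟩, h4, h5⟩ := h3 hz
  simp only [Subgroup.subtype_apply] at h5
  subst h5
  exact h4

end EB

open EB in
theorem stEBuild (hB0 : StBasic) (hBS1 : StBS1) (hBS2 : StBS2) (hBC : StBC) (hAlg : StEAlg)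
    (hIso : StEIso) : StEBuild := by
  intro H G _ _ _ pr em X D hst a₁ ha₁ a₂ ha₂ a₃ ha₃ w hw b hb hp1 hp2 hp3 hpw hpb hF1 hF2
  have hstG := hBC H G pr em X D hst
  obtain ⟨hFw, hFv, hg1a, hg1b, hg2⟩ := hAlg G X (em th) (hz.comp pr) hst.td a₁ ha₁ a₂ ha₂ a₃ ha₃
    w hw b hb hF1 hF2
  have hprt : pr (em th) = th := hst.sec th
  generalize hv : a₁ * b * a₂ * b * a₃ = v at *
  have hXΓ : X ≤ X ⊔ cj (em th) X := le_sup_left
  have hYΓ : cj (em th) X ≤ X ⊔ cj (em th) X := le_sup_right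
  have hwΓ : w ∈ X ⊔ cj (em th) X := hYΓ hw
  have hvΓ : v ∈ X ⊔ cj (em th) X := by
    rw [← hv]
    exact mul_mem (mul_mem (mul_mem (mul_mem (hXΓ ha₁) (hYΓ hb)) (hXΓ ha₂)) (hYΓ hb)) (hXΓ ha₃)
  have hprv : pr v = 1 := by
    rw [← hv]
    simp [hp1, hp2, hp3, hpb]
  have hAΓ : X ⊔ Subgroup.closure {w} ≤ X ⊔ cj (em th) X :=
    sup_le hXΓ ((Subgroup.closure_le _).2 (by simpa using hwΓ))
  have hBΓ : cj (em th) X ⊔ Subgroup.closure {v} ≤ X ⊔ cj (em th) X :=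
    sup_le hYΓ ((Subgroup.closure_le _).2 (by simpa using hvΓ))
  have hwA : w ∈ X ⊔ Subgroup.closure {w} :=
    (le_sup_right : _ ≤ X ⊔ Subgroup.closure {w}) (Subgroup.subset_closure rfl)
  -- the isomorphism
  obtain ⟨φ, hφX, hφw⟩ := hIso G X (cj (em th) X)
    (X.equivMapOfInjective (MulAut.conj (em th)).toMonoidHom (MulAut.conj (em th)).injective)
    w v hFw hFv
  have hφX' : ∀ (x : G) (hx : x ∈ X),
      ((φ ⟨x, (le_sup_left : X ≤ X ⊔ Subgroup.closure {w}) hx⟩ :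
        ↥(cj (em th) X ⊔ Subgroup.closure {v})) : G) = em th * x * (em th)⁻¹ := by
    intro x hx
    rw [hφX x hx]
    rfl
  let φ' : (X ⊔ Subgroup.closure {w}).subgroupOf (X ⊔ cj (em th) X) ≃*
      (cj (em th) X ⊔ Subgroup.closure {v}).subgroupOf (X ⊔ cj (em th) X) :=
    (Subgroup.subgroupOfEquivOfLe hAΓ).trans (φ.trans (Subgroup.subgroupOfEquivOfLe hBΓ).symm)
  have hφ' : ∀ (a : (X ⊔ Subgroup.closure {w}).subgroupOf (X ⊔ cj (em th) X)),
      (((φ' a : (cj (em th) X ⊔ Subgroup.closure {v}).subgroupOf (X ⊔ cj (em th) X)) :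
        ↥(X ⊔ cj (em th) X)) : G) = φ ⟨((a : ↥(X ⊔ cj (em th) X)) : G), a.2⟩ := by
    intro a
    rfl
  obtain ⟨hT, hEB, hEA, -⟩ := hBS1 ↥(X ⊔ cj (em th) X) _ _ φ'
  -- the relation
  have hrel : ∀ (a : G) (ha : a ∈ X ⊔ Subgroup.closure {w}),
      (HNNExtension.t (φ := φ')) * HNNExtension.of ⟨a, hAΓ ha⟩ * (HNNExtension.t (φ := φ'))⁻¹ =
        HNNExtension.of ⟨φ ⟨a, ha⟩, hBΓ (φ ⟨a, ha⟩).2⟩ := by
    intro a ha
    exact (HNNExtension.equiv_eq_conj (φ := φ') ⟨⟨a, hAΓ ha⟩, ha⟩).symm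
  obtain ⟨f, hfX, hft⟩ := hBS2 G X (em th) (hz.comp pr) hst.td
    (HNNExtension ↥(X ⊔ cj (em th) X) _ _ φ') (HNNExtension.of.comp (Subgroup.inclusion hXΓ))
    HNNExtension.t (by
      intro x x' hxx'
      have h1 := hrel x ((le_sup_left : X ≤ X ⊔ Subgroup.closure {w}) x.2)
      have h2 : (HNNExtension.of.comp (Subgroup.inclusion hXΓ)) x =
        (HNNExtension.of ⟨(x : G), hAΓ ((le_sup_left : X ≤ X ⊔ Subgroup.closure {w}) x.2)⟩ :
          HNNExtension _ _ _ φ') := rfl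
      rw [h2, h1]
      rw [MonoidHom.comp_apply]
      congr 1
      apply Subtype.ext
      show ((φ ⟨(x : G), _⟩ : ↥(cj (em th) X ⊔ Subgroup.closure {v})) : G) = (x' : G)
      rw [hφX' x x.2, hxx'])
  have hfΓ : ∀ (g : G) (hg : g ∈ X ⊔ cj (em th) X), f g = HNNExtension.of ⟨g, hg⟩ := by
    have h1 : f.comp (X ⊔ cj (em th) X).subtype = HNNExtension.of := by
      apply eqOn_sup
      · intro x hx
        exact hfX ⟨x, hx⟩
      · intro x hx
        have hx' := hx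
        obtain ⟨y, hy, hyx⟩ := hx'
        have h2 : x = em th * y * (em th)⁻¹ := hyx.symm
        have h3 : f y = HNNExtension.of ⟨y, hXΓ hy⟩ := hfX ⟨y, hy⟩
        have h4 : f x = HNNExtension.of ⟨φ ⟨y, (le_sup_left : X ≤ X ⊔ Subgroup.closure {w}) hy⟩,
            hBΓ (φ ⟨y, (le_sup_left : X ≤ X ⊔ Subgroup.closure {w}) hy⟩).2⟩ := by
          rw [h2, map_mul, map_mul, map_inv, hft, h3,
            hrel y ((le_sup_left : X ≤ X ⊔ Subgroup.closure {w}) hy)]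
        rw [MonoidHom.comp_apply]
        show f x = _
        rw [h4]
        congr 1
        apply Subtype.ext
        show ((φ ⟨y, _⟩ : ↥(cj (em th) X ⊔ Subgroup.closure {v})) : G) = x
        rw [hφX' y hy, h2]
    intro g hg
    exact DFunLike.congr_fun h1 ⟨g, hg⟩
  -- the projection
  have hprA : ∀ (a : G) (ha : a ∈ X ⊔ Subgroup.closure {w}),
      th * pr a = pr (φ ⟨a, ha⟩ : ↥(cj (em th) X ⊔ Subgroup.closure {v})) * th := by
    have h1 : ((MulAut.conj (th : H)).toMonoidHom.comp (pr.comp (X ⊔ Subgroup.closure {w}).subtype)) =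
        (pr.comp (cj (em th) X ⊔ Subgroup.closure {v}).subtype).comp φ.toMonoidHom := by
      apply eqOn_sup
      · intro x hx
        show th * pr x * th⁻¹ = pr (φ ⟨x, _⟩ : ↥(cj (em th) X ⊔ Subgroup.closure {v}))
        rw [hφX' x hx, map_mul, map_mul, map_inv, hprt]
      · intro x hx
        obtain ⟨k, rfl⟩ := Subgroup.mem_closure_singleton.1 hx
        show th * pr (w ^ k) * th⁻¹ = pr (φ ⟨w ^ k, _⟩ : ↥(cj (em th) X ⊔ Subgroup.closure {v}))
        have h2 : (⟨w ^ k, (le_sup_right : _ ≤ X ⊔ Subgroup.closure {w}) hx⟩ :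
            ↥(X ⊔ Subgroup.closure {w})) = ⟨w, hwA⟩ ^ k := by
          apply Subtype.ext
          simp
        have h5 : φ ((⟨w, hwA⟩ : ↥(X ⊔ Subgroup.closure {w})) ^ k) = (φ ⟨w, hwA⟩) ^ k :=
          map_zpow φ _ _
        rw [h2, h5, SubgroupClass.coe_zpow, hφw, map_zpow, map_zpow, hpw, hprv]
        simp
    intro a ha
    have h3 := DFunLike.congr_fun h1 ⟨a, ha⟩
    have h4 : th * pr a * th⁻¹ = pr (φ ⟨a, ha⟩ : ↥(cj (em th) X ⊔ Subgroup.closure {v})) := h3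
    rw [← h4]
    group
  let pr' : HNNExtension ↥(X ⊔ cj (em th) X) _ _ φ' →* H :=
    HNNExtension.lift (pr.comp (X ⊔ cj (em th) X).subtype) th (fun a => by
      have := hprA a a.2
      exact this)
  have hpr't : pr' HNNExtension.t = th := HNNExtension.lift_t _ _ _
  have hpr'of : ∀ g : ↥(X ⊔ cj (em th) X), pr' (HNNExtension.of g) = pr g :=
    fun g => HNNExtension.lift_of _ _ _ g
  have hpri : ∀ g, pr' (f g) = pr g := by
    have h1 : pr'.comp f = pr := by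
      apply MonoidHom.eq_of_eqOn_dense ((hB0 G X (em th) (hz.comp pr)).2.2.2.2.2.2.1 hst.td)
      rintro x (hx | hx)
      · rw [MonoidHom.comp_apply, hfΓ x (hXΓ hx), hpr'of]
      · rw [Set.mem_singleton_iff] at hx
        rw [hx, MonoidHom.comp_apply, hft, hpr't, hprt]
    exact fun g => DFunLike.congr_fun h1 g
  have hrange : (X ⊔ cj (em th) X).map f = (HNNExtension.of (φ := φ')).range := by
    ext z
    constructor
    · rintro ⟨g, hg, rfl⟩
      exact ⟨⟨g, hg⟩, (hfΓ g hg).symm⟩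
    · rintro ⟨⟨g, hg⟩, rfl⟩
      exact ⟨g, hg, hfΓ g hg⟩
  refine ⟨HNNExtension ↥(X ⊔ cj (em th) X) _ _ φ', inferInstance, f, pr',
    X ⊔ Subgroup.closure {w}, cj (em th) X ⊔ Subgroup.closure {v}, D + 2, ?_, ?_, ?_⟩
  · refine ⟨hst.sec, le_sup_left, le_sup_left, hAΓ, hBΓ, hstG, ?_, ⟨?_, ?_, ?_⟩, ?_, ?_, ?_, ?_,
      hpri, hg1a, hg1b, hg2⟩
    · intro x hx h1
      rw [hfΓ x hx, ← map_one (HNNExtension.of (φ := φ'))] at h1
      have := HNNExtension.of_injective φ' h1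
      exact congrArg Subtype.val this
    · rintro _ ⟨g, hg, rfl⟩
      rw [MonoidHom.comp_apply, hpri]
      exact hstG.td.ht g hg
    · rw [MonoidHom.comp_apply, hpri, hprt]
      exact hz_th
    · rw [hrange, hft]
      exact hT
    · intro x hx y hy h1
      rw [hfΓ x hx, hfΓ y hy, hft] at h1
      exact hEB _ _ h1
    · intro x hx y hy h1
      rw [hfΓ x hx, hfΓ y hy, hft] at h1
      exact hEA _ _ h1
    · intro x hx
      refine ⟨φ ⟨x, hx⟩, (φ ⟨x, hx⟩).2, ?_⟩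
      rw [hft, hfΓ x (hAΓ hx), hfΓ _ (hBΓ (φ ⟨x, hx⟩).2), hrel x hx]
    · intro y hy
      refine ⟨φ.symm ⟨y, hy⟩, (φ.symm ⟨y, hy⟩).2, ?_⟩
      rw [hft, hfΓ _ (hAΓ (φ.symm ⟨y, hy⟩).2), hfΓ _ (hBΓ hy), hrel _ (φ.symm ⟨y, hy⟩).2]
      congr 1
      apply Subtype.ext
      simp
  · intro hc
    exact countable_HNN _ _ _ φ'
  · rw [map_mul, map_mul, map_inv, hft, hfΓ w hwΓ, hfΓ v hvΓ, hrel w hwA]
    congr 1
    apply Subtype.ext
    exact hφw hwA

end Pool.Agent.D6b
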