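import Pool.Agent.Lib.MP_d6b03d_al.Stmts

/-!
MP_d6b03d_al, module E8: good edges, lifting of paths; `F1`, `F2`, `F3` for the third step.
-/

set_option autoImplicit false

namespace Pool.Agent.D6b

open Multiplicative Base

namespace EFMod

/-- the abstract data used for the lifting of paths -/
structure Dat {G G' : Type} [Group G] [Group G'] (f : G →* G') (t : G) (Γ Y A B : Subgroup G)
    (η : G →* Multiplicative ℤ) (η' : G' →* Multiplicative ℤ) : Prop where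
  YB : Y ≤ B
  AG : A ≤ Γ
  BG : B ≤ Γ
  Yt : ∀ y ∈ Y, t⁻¹ * y * t ∈ Γ
  inj : ∀ x ∈ Γ, f x = 1 → x = 1
  td : TD Γ t η
  td' : TD (Γ.map f) (f t) η'
  eB : ∀ x ∈ Γ, ∀ y ∈ Γ, f x = f t * f y * (f t)⁻¹ → x ∈ B
  eA : ∀ x ∈ Γ, ∀ y ∈ Γ, f x = (f t)⁻¹ * f y * f t → x ∈ A
  rAB : ∀ x ∈ A, ∃ y ∈ B, f t * f x * (f t)⁻¹ = f y
  rBA : ∀ y ∈ B, ∃ x ∈ A, f t * f x * (f t)⁻¹ = f y
  g1a : ∀ z ∈ B, ∀ x ∈ Γ, x⁻¹ * z * x ∈ A → ∃ β ∈ B, β⁻¹ * z * β ∈ Y
  g1b : ∀ z ∈ B, ∀ x ∈ Γ, x ∉ B → x⁻¹ * z * x ∈ B → ∃ β ∈ B, β⁻¹ * z * β ∈ Y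
  g2 : ∀ z ∈ A, z ∈ B → z ∈ Y

section

variable {G G' : Type} [Group G] [Group G'] {f : G →* G'} {t : G} {Γ Y A B : Subgroup G}
  {η : G →* Multiplicative ℤ} {η' : G' →* Multiplicative ℤ}

theorem adj_one (hB : StBasic) (d : Dat f t Γ Y A B η η') {q : G' ⧸ Γ.map f}
    (h : (CG (Γ.map f) (f t)).Adj ((1 : G') : G' ⧸ Γ.map f) q) :
    ∃ γ ∈ Γ, q = ((f γ * f t : G') : G' ⧸ Γ.map f) ∨
      q = ((f γ * (f t)⁻¹ : G') : G' ⧸ Γ.map f) := by
  obtain ⟨-, -, -, -, -, h6, -, -⟩ := hB G' (Γ.map f) (f t) η'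
  rcases (h6 d.td'.et d.td'.ht _ _).1 h with ⟨g, ⟨h1, h2⟩ | ⟨h1, h2⟩⟩
  · have := QuotientGroup.eq.1 h1
    obtain ⟨γ, hγ, hγ'⟩ := this
    refine ⟨γ, hγ, Or.inl ?_⟩
    rw [h2]
    have : g = f γ := by rw [show f γ = 1⁻¹ * g from hγ']; group
    rw [this]
  · have := QuotientGroup.eq.1 h2
    obtain ⟨γ, hγ, hγ'⟩ := this
    refine ⟨γ, hγ, Or.inr ?_⟩
    rw [h1]
    have : g = f γ * (f t)⁻¹ := by rw [show f γ = 1⁻¹ * (g * f t) from hγ']; group
    rw [this]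

/-- `f e` fixes the up-neighbour. -/
theorem fix_up (hB : StBasic) (d : Dat f t Γ Y A B η η') {e γ : G} (he : e ∈ Γ) (hγ : γ ∈ Γ)
    (h : f e • ((f γ * f t : G') : G' ⧸ Γ.map f) = ((f γ * f t : G') : G' ⧸ Γ.map f)) :
    γ⁻¹ * e * γ ∈ B := by
  obtain ⟨-, -, -, -, h5, -, -, -⟩ := hB G' (Γ.map f) (f t) η'
  obtain ⟨y, hy, hy'⟩ := (h5 _ _).1 h
  refine d.eB _ (mul_mem (mul_mem (inv_mem hγ) he) hγ) y hy ?_
  rw [show f y = (f γ * f t)⁻¹ * f e * (f γ * f t) from hy']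
  simp only [map_mul, map_inv]
  group

/-- `f e` fixes the down-neighbour. -/
theorem fix_down (hB : StBasic) (d : Dat f t Γ Y A B η η') {e γ : G} (he : e ∈ Γ) (hγ : γ ∈ Γ)
    (h : f e • ((f γ * (f t)⁻¹ : G') : G' ⧸ Γ.map f) = ((f γ * (f t)⁻¹ : G') : G' ⧸ Γ.map f)) :
    γ⁻¹ * e * γ ∈ A := by
  obtain ⟨-, -, -, -, h5, -, -, -⟩ := hB G' (Γ.map f) (f t) η'
  obtain ⟨y, hy, hy'⟩ := (h5 _ _).1 h
  refine d.eA _ (mul_mem (mul_mem (inv_mem hγ) he) hγ) y hy ?_
  rw [show f y = (f γ * (f t)⁻¹)⁻¹ * f e * (f γ * (f t)⁻¹) from hy']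
  simp only [map_mul, map_inv]
  group

theorem coset_B (d : Dat f t Γ Y A B η η') (g : G') {β : G} (hβ : β ∈ B) :
    ((g * f β * f t : G') : G' ⧸ Γ.map f) = ((g * f t : G') : G' ⧸ Γ.map f) := by
  obtain ⟨α, hα, h⟩ := d.rBA β hβ
  rw [QuotientGroup.eq]
  refine ⟨α⁻¹, inv_mem (d.AG hα), ?_⟩
  rw [← h]
  simp only [map_inv]
  group

/-- the good pair lemma -/
theorem good_pair (hB : StBasic) (d : Dat f t Γ Y A B η η') {e γ : G} (he : e ∈ Γ) (hγ : γ ∈ Γ)
    (h : f e • ((f γ * f t : G') : G' ⧸ Γ.map f) = ((f γ * f t : G') : G' ⧸ Γ.map f))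
    {u : G' ⧸ Γ.map f} (hu : (CG (Γ.map f) (f t)).Adj ((1 : G') : G' ⧸ Γ.map f) u)
    (hne : u ≠ ((f γ * f t : G') : G' ⧸ Γ.map f)) (hfu : f e • u = u) :
    ∃ β ∈ B, (γ * β)⁻¹ * e * (γ * β) ∈ Y := by
  have hz := fix_up hB d he hγ h
  have key : ∃ β ∈ B, β⁻¹ * (γ⁻¹ * e * γ) * β ∈ Y := by
    obtain ⟨δ, hδ, rfl | rfl⟩ := adj_one hB d hu
    · have hz2 := fix_up hB d he hδ hfu
      have hx : (γ⁻¹ * δ)⁻¹ * (γ⁻¹ * e * γ) * (γ⁻¹ * δ) = δ⁻¹ * e * δ := by group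
      refine d.g1b _ hz (γ⁻¹ * δ) (mul_mem (inv_mem hγ) hδ) ?_ (by rw [hx]; exact hz2)
      intro hxB
      apply hne
      have := coset_B d (f γ) hxB
      rw [← this]
      congr 1
      simp only [map_mul, map_inv]
      group
    · have hz2 := fix_down hB d he hδ hfu
      have hx : (γ⁻¹ * δ)⁻¹ * (γ⁻¹ * e * γ) * (γ⁻¹ * δ) = δ⁻¹ * e * δ := by group
      exact d.g1a _ hz (γ⁻¹ * δ) (mul_mem (inv_mem hγ) hδ) (by rw [hx]; exact hz2)
  obtain ⟨β, hβ, h1⟩ := key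
  refine ⟨β, hβ, ?_⟩
  have : (γ * β)⁻¹ * e * (γ * β) = β⁻¹ * (γ⁻¹ * e * γ) * β := by group
  rw [this]
  exact h1

/-- lifting of one edge, based at `Γ'` -/
theorem step_one (hB : StBasic) (d : Dat f t Γ Y A B η η') {e : G} (he : e ∈ Γ)
    {q u u' : G' ⧸ Γ.map f}
    (hq : (CG (Γ.map f) (f t)).Adj ((1 : G') : G' ⧸ Γ.map f) q) (hfq : f e • q = q)
    (hu : (CG (Γ.map f) (f t)).Adj ((1 : G') : G' ⧸ Γ.map f) u) (huq : u ≠ q)
    (hfu : f e • u = u)
    (hu' : (CG (Γ.map f) (f t)).Adj q u') (huq' : u' ≠ ((1 : G') : G' ⧸ Γ.map f))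
    (hfu' : f e • u' = u') :
    ∃ g : G, g⁻¹ * e * g ∈ Γ ∧ ((f g : G') : G' ⧸ Γ.map f) = q ∧
      (CG Γ t).Adj ((1 : G) : G ⧸ Γ) (g : G ⧸ Γ) := by
  obtain ⟨-, -, -, -, -, h6, -, -⟩ := hB G Γ t η
  obtain ⟨γ, hγ, rfl | rfl⟩ := adj_one hB d hq
  · obtain ⟨β, hβ, hy⟩ := good_pair hB d he hγ hfq hu huq hfu
    refine ⟨γ * β * t, ?_, ?_, ?_⟩
    · have := d.Yt _ hy
      have e1 : t⁻¹ * ((γ * β)⁻¹ * e * (γ * β)) * t = (γ * β * t)⁻¹ * e * (γ * β * t) := by group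
      rwa [e1] at this
    · rw [← coset_B d (f γ) hβ]
      simp only [map_mul]
    · rw [h6 d.td.et d.td.ht]
      refine ⟨γ * β, Or.inl ⟨?_, rfl⟩⟩
      rw [QuotientGroup.eq]
      simpa using mul_mem hγ (d.BG hβ)
  · have hx := fix_down hB d he hγ hfq
    obtain ⟨y, hy, hxy⟩ := d.rAB _ hx
    have hyΓ := d.BG hy
    -- translate by `(f γ * (f t)⁻¹)⁻¹`
    have hfy : f y = (f γ * (f t)⁻¹)⁻¹ * f e * (f γ * (f t)⁻¹) := by
      rw [← hxy]
      simp only [map_mul, map_inv]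
      group
    obtain ⟨act, -, -, -, -, -, -, -⟩ := hB G' (Γ.map f) (f t) η'
    have hw : ∀ v : G' ⧸ Γ.map f, f e • v = v →
        f y • ((f γ * (f t)⁻¹)⁻¹ • v) = (f γ * (f t)⁻¹)⁻¹ • v := by
      intro v hv
      rw [hfy, smul_smul]
      have : (f γ * (f t)⁻¹)⁻¹ * f e * (f γ * (f t)⁻¹) * (f γ * (f t)⁻¹)⁻¹ =
        (f γ * (f t)⁻¹)⁻¹ * f e := by group
      rw [this, ← smul_smul, hv]
    have hb1 : (f γ * (f t)⁻¹)⁻¹ • ((1 : G') : G' ⧸ Γ.map f) =
        ((f 1 * f t : G') : G' ⧸ Γ.map f) := by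
      change (((f γ * (f t)⁻¹)⁻¹ * 1 : G') : G' ⧸ Γ.map f) = _
      rw [QuotientGroup.eq]
      refine ⟨γ, hγ, ?_⟩
      simp only [map_one]
      group
    have hb2 : (f γ * (f t)⁻¹)⁻¹ • ((f γ * (f t)⁻¹ : G') : G' ⧸ Γ.map f) =
        ((1 : G') : G' ⧸ Γ.map f) := by
      change (((f γ * (f t)⁻¹)⁻¹ * (f γ * (f t)⁻¹) : G') : G' ⧸ Γ.map f) = _
      congr 1
      group
    have hf1 : f e • ((1 : G') : G' ⧸ Γ.map f) = ((1 : G') : G' ⧸ Γ.map f) := by
      change ((f e * 1 : G') : G' ⧸ Γ.map f) = _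
      rw [eq_comm, QuotientGroup.eq]
      exact ⟨e, he, by group⟩
    obtain ⟨β, hβ, hyβ⟩ := good_pair hB d hyΓ (one_mem Γ)
      (by rw [← hb1]; exact hw _ hf1)
      (u := (f γ * (f t)⁻¹)⁻¹ • u')
      (by rw [← hb2]; exact act _ _ _ hu')
      (by
        rw [← hb1]
        intro h
        exact huq' (smul_left_cancel _ h))
      (hw _ hfu')
    rw [one_mul] at hyβ
    obtain ⟨α, hα, hαβ⟩ := d.rBA β hβ
    have hYt := d.Yt _ hyβ
    have hinj : α⁻¹ * (γ⁻¹ * e * γ) * α = t⁻¹ * (β⁻¹ * y * β) * t := by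
      have h1 : f ((α⁻¹ * (γ⁻¹ * e * γ) * α)⁻¹ * (t⁻¹ * (β⁻¹ * y * β) * t)) = 1 := by
        have h2 : f (γ⁻¹ * e * γ) = (f t)⁻¹ * f y * f t := by
          rw [← hxy]
          group
        have h3 : f α = (f t)⁻¹ * f β * f t := by
          rw [← hαβ]
          group
        rw [map_mul, map_inv f (α⁻¹ * (γ⁻¹ * e * γ) * α), map_mul f _ α, map_mul f α⁻¹,
          map_inv f α, h2, h3]
        simp only [map_mul, map_inv]
        group
      have h2 := d.inj _ (mul_mem (inv_mem (mul_mem (mul_mem (inv_mem (d.AG hα)) (d.AG hx))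
        (d.AG hα))) hYt) h1
      exact eq_of_inv_mul_eq_one h2
    refine ⟨γ * α * t⁻¹, ?_, ?_, ?_⟩
    · have : (γ * α * t⁻¹)⁻¹ * e * (γ * α * t⁻¹) = β⁻¹ * y * β := by
        have h1 : (γ * α * t⁻¹)⁻¹ * e * (γ * α * t⁻¹) =
            t * (α⁻¹ * (γ⁻¹ * e * γ) * α) * t⁻¹ := by group
        rw [h1, hinj]
        group
      rw [this]
      exact d.BG (d.YB hyβ)
    · rw [QuotientGroup.eq]
      refine ⟨β⁻¹, inv_mem (d.BG hβ), ?_⟩
      rw [map_inv, ← hαβ]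
      simp only [map_mul, map_inv]
      group
    · rw [h6 d.td.et d.td.ht]
      refine ⟨γ * α * t⁻¹, Or.inr ⟨rfl, ?_⟩⟩
      rw [QuotientGroup.eq]
      have : (1 : G)⁻¹ * (γ * α * t⁻¹ * t) = γ * α := by group
      rw [this]
      exact mul_mem hγ (d.AG hα)

/-- lifting of one edge -/
theorem step (hB : StBasic) (d : Dat f t Γ Y A B η η') {e g : G} (he : g⁻¹ * e * g ∈ Γ)
    {q u u' : G' ⧸ Γ.map f}
    (hq : (CG (Γ.map f) (f t)).Adj ((f g : G') : G' ⧸ Γ.map f) q) (hfq : f e • q = q)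
    (hu : (CG (Γ.map f) (f t)).Adj ((f g : G') : G' ⧸ Γ.map f) u) (huq : u ≠ q)
    (hfu : f e • u = u)
    (hu' : (CG (Γ.map f) (f t)).Adj q u') (huq' : u' ≠ ((f g : G') : G' ⧸ Γ.map f))
    (hfu' : f e • u' = u') :
    ∃ g' : G, g'⁻¹ * e * g' ∈ Γ ∧ ((f g' : G') : G' ⧸ Γ.map f) = q ∧
      (CG Γ t).Adj ((g : G) : G ⧸ Γ) (g' : G ⧸ Γ) := by
  obtain ⟨act', -⟩ := hB G' (Γ.map f) (f t) η'
  obtain ⟨act, -⟩ := hB G Γ t η
  have hb : (f g)⁻¹ • ((f g : G') : G' ⧸ Γ.map f) = ((1 : G') : G' ⧸ Γ.map f) := by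
    change (((f g)⁻¹ * f g : G') : G' ⧸ Γ.map f) = _
    congr 1
    group
  have hw : ∀ v : G' ⧸ Γ.map f, f e • v = v →
      f (g⁻¹ * e * g) • ((f g)⁻¹ • v) = (f g)⁻¹ • v := by
    intro v hv
    rw [smul_smul]
    have : f (g⁻¹ * e * g) * (f g)⁻¹ = (f g)⁻¹ * f e := by
      simp only [map_mul, map_inv]
      group
    rw [this, ← smul_smul, hv]
  obtain ⟨k, h1, h2, h3⟩ := step_one hB d he (q := (f g)⁻¹ • q) (u := (f g)⁻¹ • u)
    (u' := (f g)⁻¹ • u') (by rw [← hb]; exact act' _ _ _ hq) (hw _ hfq)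
    (by rw [← hb]; exact act' _ _ _ hu) (fun h => huq (smul_left_cancel _ h)) (hw _ hfu)
    (act' _ _ _ hu') (fun h => huq' (by rw [← hb] at h; exact smul_left_cancel _ h)) (hw _ hfu')
  refine ⟨g * k, ?_, ?_, ?_⟩
  · have : (g * k)⁻¹ * e * (g * k) = k⁻¹ * (g⁻¹ * e * g) * k := by group
    rw [this]
    exact h1
  · rw [map_mul]
    change f g • ((f k : G') : G' ⧸ Γ.map f) = q
    rw [h2, smul_inv_smul]
  · have := act g _ _ h3
    change (CG Γ t).Adj ((g * 1 : G) : G ⧸ Γ) ((g * k : G) : G ⧸ Γ) at this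
    rwa [mul_one] at this

/-- lifting of paths -/
theorem lift_path (hB : StBasic) (d : Dat f t Γ Y A B η η') {e : G} (he : e ∈ Γ)
    (p : ℕ → G' ⧸ Γ.map f) (h0 : p 0 = ((1 : G') : G' ⧸ Γ.map f)) (r : ℕ)
    (hadj : ∀ i < r, (CG (Γ.map f) (f t)).Adj (p i) (p (i + 1)))
    (hfix : ∀ i ≤ r, f e • p i = p i)
    (hu : ∀ i < r, ∃ u, (CG (Γ.map f) (f t)).Adj (p i) u ∧ u ≠ p (i + 1) ∧ f e • u = u)
    (hu' : ∀ i < r, ∃ u, (CG (Γ.map f) (f t)).Adj (p (i + 1)) u ∧ u ≠ p i ∧ f e • u = u) :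
    ∃ g : ℕ → G, g 0 = 1 ∧ (∀ i ≤ r, (g i)⁻¹ * e * g i ∈ Γ ∧
      ((f (g i) : G') : G' ⧸ Γ.map f) = p i) ∧
      ∀ i < r, (CG Γ t).Adj ((g i : G) : G ⧸ Γ) (g (i + 1) : G ⧸ Γ) := by
  induction r with
  | zero =>
    refine ⟨fun _ => 1, rfl, ?_, by simp⟩
    intro i hi
    obtain rfl : i = 0 := by omega
    refine ⟨by simpa using he, ?_⟩
    rw [h0, map_one]
  | succ r ih =>
    obtain ⟨g, hg0, hg1, hg2⟩ := ih (fun i hi => hadj i (by omega)) (fun i hi => hfix i (by omega))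
      (fun i hi => hu i (by omega)) (fun i hi => hu' i (by omega))
    obtain ⟨hr1, hr2⟩ := hg1 r le_rfl
    obtain ⟨u, hu1, hu2, hu3⟩ := hu r (by omega)
    obtain ⟨u', hu1', hu2', hu3'⟩ := hu' r (by omega)
    obtain ⟨g', h1, h2, h3⟩ := step hB d hr1 (q := p (r + 1)) (u := u) (u' := u')
      (by rw [hr2]; exact hadj r (by omega)) (hfix (r + 1) le_rfl)
      (by rw [hr2]; exact hu1) hu2 hu3 hu1' (by rw [hr2]; exact hu2') hu3'
    refine ⟨fun i => if i ≤ r then g i else g', by simp [hg0], ?_, ?_⟩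
    · intro i hi
      by_cases h : i ≤ r
      · simp only [h, if_true]
        exact hg1 i h
      · obtain rfl : i = r + 1 := by omega
        simp only [h, if_false]
        exact ⟨h1, h2⟩
    · intro i hi
      by_cases h : i < r
      · have e1 : i ≤ r := by omega
        have e2 : i + 1 ≤ r := by omega
        simp only [e1, e2, if_true]
        exact hg2 i h
      · obtain rfl : i = r := by omega
        have e2 : ¬ (i + 1 ≤ i) := by omega
        simp only [le_refl, if_true, e2, if_false]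
        exact h3

/-- if the projection of a walk has no backtracking, neither has the walk -/
theorem ne_of_map {a b : G} (h : ((f a : G') : G' ⧸ Γ.map f) ≠ ((f b : G') : G' ⧸ Γ.map f)) :
    ((a : G) : G ⧸ Γ) ≠ (b : G ⧸ Γ) := by
  intro hab
  apply h
  rw [QuotientGroup.eq] at hab ⊢
  exact ⟨_, hab, by simp⟩

/-- geodesics as sequences -/
theorem geo {V : Type} (S : SimpleGraph V) (hS : S.Connected) (p q : V) : ∃ c : ℕ → V,
    c 0 = p ∧ c (S.dist p q) = q ∧ (∀ i < S.dist p q, S.Adj (c i) (c (i + 1))) ∧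
    ∀ i ≤ S.dist p q, S.dist p (c i) = i ∧ S.dist (c i) q = S.dist p q - i := by
  obtain ⟨w, hw⟩ := hS.exists_walk_length_eq_dist p q
  refine ⟨w.getVert, w.getVert_zero, by rw [← hw]; exact w.getVert_length, ?_, ?_⟩
  · intro i hi
    exact w.adj_getVert_succ (by omega)
  · intro i hi
    have h1 : S.dist p (w.getVert i) ≤ i := by
      have := SimpleGraph.dist_le (w.take i)
      refine this.trans ?_
      rw [SimpleGraph.Walk.take_length]
      omega
    have h2 : S.dist (w.getVert i) q ≤ S.dist p q - i := by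
      have := SimpleGraph.dist_le (w.drop i)
      refine this.trans ?_
      rw [SimpleGraph.Walk.drop_length]
      omega
    have h3 : S.dist p q ≤ S.dist p (w.getVert i) + S.dist (w.getVert i) q :=
      hS.dist_triangle
    omega

/-- a geodesic has no backtracking -/
theorem geo_ne {V : Type} {S : SimpleGraph V} {p q : V} {c : ℕ → V}
    (h : ∀ i ≤ S.dist p q, S.dist p (c i) = i ∧ S.dist (c i) q = S.dist p q - i) {i j : ℕ}
    (hi : i ≤ S.dist p q) (hj : j ≤ S.dist p q) (hij : i ≠ j) : c i ≠ c j := by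
  intro e
  have h1 := (h i hi).1
  have h2 := (h j hj).1
  rw [e] at h1
  omega

/-- a long fixed path in `T'` gives a long fixed path in `T⁺` -/
theorem lift_long (hB : StBasic) (d : Dat f t Γ Y A B η η') {e : G} (he : e ∈ Γ)
    (p : ℕ → G' ⧸ Γ.map f) (h0 : p 0 = ((1 : G') : G' ⧸ Γ.map f)) (r : ℕ)
    (hadj : ∀ i < r, (CG (Γ.map f) (f t)).Adj (p i) (p (i + 1)))
    (hne : ∀ i, i + 2 ≤ r → p i ≠ p (i + 2))
    (hfix : ∀ i ≤ r, f e • p i = p i)
    (hu : ∀ i < r, ∃ u, (CG (Γ.map f) (f t)).Adj (p i) u ∧ u ≠ p (i + 1) ∧ f e • u = u)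
    (hu' : ∀ i < r, ∃ u, (CG (Γ.map f) (f t)).Adj (p (i + 1)) u ∧ u ≠ p i ∧ f e • u = u) :
    ∃ v : ℕ → G ⧸ Γ, v 0 = ((1 : G) : G ⧸ Γ) ∧ (∀ i ≤ r, e • v i = v i) ∧
      (∀ i < r, (CG Γ t).Adj (v i) (v (i + 1))) ∧ (∀ i, i + 2 ≤ r → v i ≠ v (i + 2)) ∧
      (1 ≤ r → ∀ g : G, ((f g : G') : G' ⧸ Γ.map f) ≠ p 1 → v 1 ≠ (g : G ⧸ Γ)) := by
  obtain ⟨g, hg0, hg1, hg2⟩ := lift_path hB d he p h0 r hadj hfix hu hu'
  obtain ⟨-, -, -, -, h5, -, -, -⟩ := hB G Γ t η
  refine ⟨fun i => (g i : G ⧸ Γ), by simp [hg0], ?_, hg2, ?_, ?_⟩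
  · intro i hi
    exact (h5 _ _).2 (hg1 i hi).1
  · intro i hi
    apply ne_of_map (f := f)
    rw [(hg1 i (by omega)).2, (hg1 (i + 2) (by omega)).2]
    exact hne i hi
  · intro hr g' hg'
    apply ne_of_map (f := f)
    rw [(hg1 1 hr).2]
    exact hg'.symm

end

section

variable {H : Type} [Group H] [Base H] {G G' : Type} [Group G] [Group G'] {f : G →* G'}
  {Γ Y A B : Subgroup G} {em : H →* G} {pr : G →* H} {η' : G' →* Multiplicative ℤ}

theorem F1 (h2 : StLocal) (h4 : StBtwU) (hB : StBasic) {η : G →* Multiplicative ℤ}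
    (d : Dat f (em th) Γ Y A B η η') {D : ℕ}
    (hF1 : ∀ e : G, ¬ ConjN em e → ∀ p q : G ⧸ Γ, e • p = p → e • q = q →
      (CG Γ (em th)).dist p q ≤ D)
    (e' : G') (hc : ¬ ConjN (f.comp em) e') (p q : G' ⧸ Γ.map f) (hp : e' • p = p)
    (hq : e' • q = q) : (CG (Γ.map f) (f (em th))).dist p q ≤ D + 2 := by
  by_contra hcon
  push Not at hcon
  obtain ⟨act', -, -, -, h5', -, -, -⟩ := hB G' (Γ.map f) (f (em th)) η'
  obtain ⟨c, c0, c1, cadj, cd⟩ := geo (CG (Γ.map f) (f (em th))) d.td'.tree.1 p q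
  set L := (CG (Γ.map f) (f (em th))).dist p q with hL
  have hfc : ∀ i ≤ L, e' • c i = c i := by
    intro i hi
    refine (h4 _ _ d.td'.tree).2 G' act' e' p q (c i) hp hq ?_
    unfold Btw
    rw [(cd i hi).1, (cd i hi).2]
    omega
  have hcne : ∀ i j, i ≤ L → j ≤ L → i ≠ j → c i ≠ c j := fun i j hi hj hij =>
    geo_ne cd hi hj hij
  obtain ⟨k, hk⟩ := QuotientGroup.mk_surjective (c 1)
  have hek : k⁻¹ * e' * k ∈ Γ.map f := by
    rw [← h5', hk]
    exact hfc 1 (by omega)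
  obtain ⟨e, he, hee⟩ := hek
  have hee' : f e * k⁻¹ = k⁻¹ * e' := by
    rw [show f e = k⁻¹ * e' * k from hee]
    group
  have hw : ∀ v : G' ⧸ Γ.map f, e' • v = v → f e • (k⁻¹ • v) = k⁻¹ • v := by
    intro v hv
    rw [smul_smul, hee', ← smul_smul, hv]
  obtain ⟨v, v0, vfix, vadj, vne, -⟩ := lift_long hB d he (fun i => k⁻¹ • c (i + 1))
    (by
      change k⁻¹ • c 1 = _
      rw [← hk]
      change ((k⁻¹ * k : G') : G' ⧸ Γ.map f) = _
      rw [inv_mul_cancel]) (L - 2)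
    (fun i hi => act' _ _ _ (cadj (i + 1) (by omega)))
    (fun i hi h => hcne (i + 1) (i + 3) (by omega) (by omega) (by omega)
      (smul_left_cancel _ h))
    (fun i hi => hw _ (hfc _ (by omega)))
    (fun i hi => ⟨k⁻¹ • c i, act' _ _ _ (cadj i (by omega)).symm,
      fun h => hcne i (i + 2) (by omega) (by omega) (by omega) (smul_left_cancel _ h),
      hw _ (hfc _ (by omega))⟩)
    (fun i hi => ⟨k⁻¹ • c (i + 3), act' _ _ _ (cadj (i + 2) (by omega)),
      fun h => hcne (i + 3) (i + 1) (by omega) (by omega) (by omega) (smul_left_cancel _ h),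
      hw _ (hfc _ (by omega))⟩)
  have hdist := h2 _ _ d.td.tree (L - 2) v vadj vne
  have hnc : ¬ ConjN em e := by
    rintro ⟨g, n, hn, rfl⟩
    apply hc
    refine ⟨k * f g, n, hn, ?_⟩
    have h1 : e' = k * f (g * em n * g⁻¹) * k⁻¹ := by
      rw [show f (g * em n * g⁻¹) = k⁻¹ * e' * k from hee]
      group
    rw [h1]
    simp only [map_mul, map_inv, MonoidHom.comp_apply]
    group
  have := hF1 e hnc (v 0) (v (L - 2)) (vfix 0 (by omega)) (vfix _ le_rfl)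
  rw [hdist] at this
  omega

theorem F3 (h4 : StBtwU) (hB : StBasic) {η : G →* Multiplicative ℤ}
    (d : Dat f (em th) Γ Y A B η η') {D : ℕ}
    (hF3 : ∀ e : G, e • vx (em th) Γ 0 = vx (em th) Γ 0 →
      e • vx (em th) Γ D = vx (em th) Γ D → ∃ n : H, hz n = 1 ∧ e = em n)
    (e' : G') (h0 : e' • vx (f (em th)) (Γ.map f) 0 = vx (f (em th)) _ 0)
    (hD : e' • vx (f (em th)) (Γ.map f) ((D + 2 : ℕ) : ℤ) =
      vx (f (em th)) _ ((D + 2 : ℕ) : ℤ)) : ∃ n : H, hz n = 1 ∧ e' = f (em n) := by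
  obtain ⟨act', -, line', shift', h5', -, -, -⟩ := hB G' (Γ.map f) (f (em th)) η'
  obtain ⟨-, -, -, -, h5, -, -, -⟩ := hB G Γ (em th) η
  have hline := line' d.td'
  -- all vertices between are fixed
  have hfix : ∀ i : ℕ, i ≤ D + 2 → e' • vx (f (em th)) (Γ.map f) (i : ℤ) =
      vx (f (em th)) (Γ.map f) (i : ℤ) := by
    intro i hi
    refine (h4 _ _ d.td'.tree).2 G' act' e' _ _ _ h0 hD ?_
    unfold Btw
    rw [hline, hline, hline]
    omega
  -- `e₁' = t'⁻¹ e' t'`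
  have hfix1 : ∀ i : ℤ, -1 ≤ i → i ≤ D + 1 →
      ((f (em th))⁻¹ * e' * f (em th)) • vx (f (em th)) (Γ.map f) i =
        vx (f (em th)) (Γ.map f) i := by
    intro i hi1 hi2
    have h1 := hfix (i + 1).toNat (by omega)
    rw [Int.toNat_of_nonneg (by omega)] at h1
    have h2 := shift' i 1
    rw [zpow_one] at h2
    rw [mul_smul, mul_smul, h2, h1, ← h2, inv_smul_smul]
  have hmem : (f (em th))⁻¹ * e' * f (em th) ∈ Γ.map f := by
    have h1 := hfix1 0 (by omega) (by omega)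
    have h2 := (h5' ((f (em th))⁻¹ * e' * f (em th)) ((f (em th)) ^ (0 : ℤ))).1 h1
    simpa using h2
  obtain ⟨e₁, he₁, hee⟩ := hmem
  replace hee : f e₁ = (f (em th))⁻¹ * e' * f (em th) := hee
  have hc : ∀ j : ℕ, j ≤ D + 1 → ((em th) ^ j)⁻¹ * e₁ * (em th) ^ j ∈ Γ := by
    intro j
    induction j with
    | zero => intro _; simpa using he₁
    | succ j ih =>
      intro hj
      have hcj := ih (by omega)
      set c := ((em th) ^ j)⁻¹ * e₁ * (em th) ^ j with hcdef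
      have hA : c ∈ A := by
        have h1 := hfix1 ((j : ℤ) - 1) (by omega) (by omega)
        have h2 := (h5' ((f (em th))⁻¹ * e' * f (em th)) ((f (em th)) ^ ((j : ℤ) - 1))).1 h1
        obtain ⟨y, hy, hyy⟩ := h2
        refine d.eA c hcj y hy ?_
        rw [show f y = (f (em th) ^ ((j : ℤ) - 1))⁻¹ * ((f (em th))⁻¹ * e' * f (em th)) *
          f (em th) ^ ((j : ℤ) - 1) from hyy, ← hee, hcdef]
        simp only [map_mul, map_inv, map_pow]
        rw [zpow_sub, zpow_natCast, zpow_one]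
        group
      have hBm : c ∈ B := by
        have h1 := hfix1 ((j : ℤ) + 1) (by omega) (by omega)
        have h2 := (h5' ((f (em th))⁻¹ * e' * f (em th)) ((f (em th)) ^ ((j : ℤ) + 1))).1 h1
        obtain ⟨y, hy, hyy⟩ := h2
        refine d.eB c hcj y hy ?_
        rw [show f y = (f (em th) ^ ((j : ℤ) + 1))⁻¹ * ((f (em th))⁻¹ * e' * f (em th)) *
          f (em th) ^ ((j : ℤ) + 1) from hyy, ← hee, hcdef]
        simp only [map_mul, map_inv, map_pow]
        rw [zpow_add, zpow_natCast, zpow_one]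
        group
      have hY := d.Yt _ (d.g2 c hA hBm)
      have h1 : (em th)⁻¹ * c * em th = ((em th) ^ (j + 1))⁻¹ * e₁ * (em th) ^ (j + 1) := by
        rw [hcdef, pow_succ]
        group
      rwa [h1] at hY
  have hv : ∀ j : ℕ, j ≤ D + 1 → e₁ • vx (em th) Γ (j : ℤ) = vx (em th) Γ (j : ℤ) := by
    intro j hj
    refine (h5 _ _).2 ?_
    have := hc j hj
    rwa [zpow_natCast]
  obtain ⟨n, hn, hen⟩ := hF3 e₁ (by simpa using hv 0 (by omega)) (hv D (by omega))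
  refine ⟨th * n * th⁻¹, ?_, ?_⟩
  · rw [map_mul, map_mul, hn, map_inv]
    simp
  · have h1 : e' = f (em th) * f e₁ * (f (em th))⁻¹ := by
      rw [hee]
      group
    rw [h1, hen]
    simp only [map_mul, map_inv]

theorem F2 (h2 : StLocal) (h4 : StBtwU) (hB : StBasic) {η : G →* Multiplicative ℤ}
    (d : Dat f (em th) Γ Y A B η η') {D : ℕ}
    (hNX : ∀ n : H, hz n = 1 → em n ∈ Γ)
    (hF2 : ∀ n : H, hz n = 1 → n ≠ 1 → ∀ p : G ⧸ Γ, em n • p = p →
      ∃ i : ℤ, (CG Γ (em th)).dist p (vx (em th) Γ i) ≤ D)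
    (n : H) (hn : hz n = 1) (hn1 : n ≠ 1) (p : G' ⧸ Γ.map f) (hp : f (em n) • p = p) :
    ∃ i : ℤ, (CG (Γ.map f) (f (em th))).dist p (vx (f (em th)) _ i) ≤ D + 2 := by
  obtain ⟨act', -, line', shift', h5', -, -, -⟩ := hB G' (Γ.map f) (f (em th)) η'
  obtain ⟨-, -, line, shift, h5, -, -, -⟩ := hB G Γ (em th) η
  have hline' := line' d.td'
  have hline := line d.td
  -- `f (em n)` fixes the standard line
  have hstd : ∀ n : H, hz n = 1 → ∀ i : ℤ, f (em n) • vx (f (em th)) (Γ.map f) i =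
      vx (f (em th)) (Γ.map f) i := by
    intro n hn i
    refine (h5' _ _).2 ⟨em (th ^ (-i) * n * th ^ i), hNX _ ?_, ?_⟩
    · rw [map_mul, map_mul, hn, mul_one, ← map_mul, ← zpow_add]
      simp
    · simp only [map_mul, map_zpow, map_inv, zpow_neg]
  -- nearest vertex of the line
  obtain ⟨i₀, hi₀⟩ : ∃ i₀ : ℤ, ∀ i : ℤ,
      (CG (Γ.map f) (f (em th))).dist (vx (f (em th)) (Γ.map f) i₀) p ≤
        (CG (Γ.map f) (f (em th))).dist (vx (f (em th)) (Γ.map f) i) p := by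
    let F : ℤ → ℕ := fun i => (CG (Γ.map f) (f (em th))).dist (vx (f (em th)) (Γ.map f) i) p
    exact ⟨Function.argmin F, fun i => Function.argmin_le F i⟩
  refine ⟨i₀, ?_⟩
  by_contra hcon
  push Not at hcon
  rw [SimpleGraph.dist_comm] at hcon
  obtain ⟨c, c0, c1, cadj, cd⟩ := geo (CG (Γ.map f) (f (em th))) d.td'.tree.1
    (vx (f (em th)) (Γ.map f) i₀) p
  set L := (CG (Γ.map f) (f (em th))).dist (vx (f (em th)) (Γ.map f) i₀) p with hL
  have hfc : ∀ i ≤ L, f (em n) • c i = c i := by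
    intro i hi
    refine (h4 _ _ d.td'.tree).2 G' act' (f (em n)) _ _ (c i) (hstd n hn i₀) hp ?_
    unfold Btw
    rw [(cd i hi).1, (cd i hi).2]
    omega
  have hcne : ∀ i j, i ≤ L → j ≤ L → i ≠ j → c i ≠ c j := fun i j hi hj hij =>
    geo_ne cd hi hj hij
  -- the second vertex is not on the line
  have hc1 : ∀ i : ℤ, vx (f (em th)) (Γ.map f) i ≠ c 1 := by
    intro i h
    have h1 := hi₀ i
    rw [h, (cd 1 (by omega)).2] at h1
    omega
  set k : G' := (f (em th)) ^ i₀ with hk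
  set n' : H := th ^ (-i₀) * n * th ^ i₀ with hn'
  have hzn' : hz n' = 1 := by
    rw [hn', map_mul, map_mul, hn, mul_one, ← map_mul, ← zpow_add]
    simp
  have hn'1 : n' ≠ 1 := by
    intro h
    apply hn1
    have : n = th ^ i₀ * n' * th ^ (-i₀) := by
      rw [hn']
      group
    rw [this, h]
    group
  have hee' : f (em n') * k⁻¹ = k⁻¹ * f (em n) := by
    rw [hn', hk]
    simp only [map_mul, map_zpow]
    group
  have hw : ∀ v : G' ⧸ Γ.map f, f (em n) • v = v → f (em n') • (k⁻¹ • v) = k⁻¹ • v := by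
    intro v hv
    rw [smul_smul, hee', ← smul_smul, hv]
  have hsh : ∀ i : ℤ, k⁻¹ • vx (f (em th)) (Γ.map f) i = vx (f (em th)) (Γ.map f) (i - i₀) := by
    intro i
    have := shift' (i - i₀) i₀
    rw [sub_add_cancel] at this
    rw [← this, hk, inv_smul_smul]
  have hadj1 : (CG (Γ.map f) (f (em th))).Adj (c 0) (vx (f (em th)) (Γ.map f) (i₀ + 1)) := by
    rw [c0, ← SimpleGraph.dist_eq_one_iff_adj, hline']
    omega
  obtain ⟨v, v0, vfix, vadj, vne, vone⟩ := lift_long hB d (hNX n' hzn')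
    (fun i => k⁻¹ • c i)
    (by
      rw [c0, hsh]
      simp [vx]) (L - 1)
    (fun i hi => act' _ _ _ (cadj i (by omega)))
    (fun i hi h => hcne i (i + 2) (by omega) (by omega) (by omega)
      (smul_left_cancel _ h))
    (fun i hi => hw _ (hfc _ (by omega)))
    (fun i hi => by
      rcases Nat.eq_zero_or_pos i with rfl | hpos
      · refine ⟨k⁻¹ • vx (f (em th)) (Γ.map f) (i₀ + 1), act' _ _ _ hadj1,
          fun h => hc1 (i₀ + 1) (smul_left_cancel _ h), hw _ (hstd n hn _)⟩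
      · obtain ⟨j, rfl⟩ := Nat.exists_eq_succ_of_ne_zero hpos.ne'
        exact ⟨k⁻¹ • c j, act' _ _ _ (cadj j (by omega)).symm,
          fun h => hcne j (j + 2) (by omega) (by omega) (by omega) (smul_left_cancel _ h),
          hw _ (hfc _ (by omega))⟩)
    (fun i hi => ⟨k⁻¹ • c (i + 2), act' _ _ _ (cadj (i + 1) (by omega)),
      fun h => hcne (i + 2) i (by omega) (by omega) (by omega) (smul_left_cancel _ h),
      hw _ (hfc _ (by omega))⟩)
  have hv1 : ∀ i : ℤ, v 1 ≠ vx (em th) Γ i := by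
    intro i
    refine vone (by omega) ((em th) ^ i) ?_
    intro h
    change _ = k⁻¹ • c 1 at h
    apply hc1 (i + i₀)
    have h1 := hsh (i + i₀)
    rw [add_sub_cancel_right] at h1
    have h2 : vx (f (em th)) (Γ.map f) i = k⁻¹ • c 1 := by
      rw [← h]
      simp [vx]
    rw [h2] at h1
    exact smul_left_cancel _ h1
  obtain ⟨j, hj⟩ := hF2 n' hzn' hn'1 (v (L - 1)) (vfix _ le_rfl)
  -- the concatenated walk
  set a : ℕ := j.natAbs with ha
  have hw2 : (CG Γ (em th)).dist (vx (em th) Γ j) (v (L - 1)) = a + (L - 1) := by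
    let u : ℕ → G ⧸ Γ := fun m => if m ≤ a then vx (em th) Γ (j.sign * (a - m)) else v (m - a)
    have hu0 : u 0 = vx (em th) Γ j := by
      simp only [u, Nat.zero_le, if_true]
      congr 1
      rw [ha]
      simp only [Nat.cast_zero, sub_zero, Int.natCast_natAbs]
      exact Int.sign_mul_abs j
    have hua : u a = v 0 := by
      simp only [u, le_refl, if_true]
      rw [v0]
      simp [vx]
    have huv : ∀ m, u (a + m) = v m := by
      intro m
      rcases Nat.eq_zero_or_pos m with rfl | hm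
      · exact hua
      · have : ¬ (a + m ≤ a) := by omega
        simp only [u, this, if_false]
        congr 1
        omega
    have hus : ∀ m, m ≤ a → u m = vx (em th) Γ (j.sign * (a - m)) := by
      intro m hm
      simp only [u, hm, if_true]
    have key := h2 _ _ d.td.tree (a + (L - 1)) u ?_ ?_
    · rw [hu0, huv] at key
      exact key
    · intro i hi
      rcases lt_or_ge i a with hia | hia
      · rw [hus i hia.le, hus (i + 1) hia, ← SimpleGraph.dist_eq_one_iff_adj, hline]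
        have hs : j.sign * (a - (i : ℤ)) - j.sign * (a - ((i + 1 : ℕ) : ℤ)) = j.sign := by
          push_cast
          ring
        rw [hs]
        have : j ≠ 0 := by
          intro h
          rw [h] at ha
          simp at ha
          omega
        exact Int.natAbs_sign_of_ne_zero this
      · obtain ⟨m, rfl⟩ := Nat.exists_eq_add_of_le hia
        rw [huv, add_assoc, huv]
        exact vadj m (by omega)
    · intro i hi
      rcases lt_or_ge i a with hia | hia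
      · have hj0 : j ≠ 0 := by
          intro h
          rw [h] at ha
          simp at ha
          omega
        rcases Nat.lt_or_ge (i + 1) a with hia2 | hia2
        · rw [hus i hia.le, hus (i + 2) hia2]
          intro h
          have h1 := hline (j.sign * (a - (i : ℤ))) (j.sign * (a - ((i + 2 : ℕ) : ℤ)))
          rw [h, SimpleGraph.dist_self] at h1
          have hs : j.sign * (a - (i : ℤ)) - j.sign * (a - ((i + 2 : ℕ) : ℤ)) =
              j.sign * 2 := by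
            push_cast
            ring
          rw [hs, Int.natAbs_mul, Int.natAbs_sign_of_ne_zero hj0] at h1
          simp at h1
        · have h1 : i + 2 = a + 1 := by omega
          rw [h1, huv, hus i hia.le]
          exact (hv1 _).symm
      · obtain ⟨m, rfl⟩ := Nat.exists_eq_add_of_le hia
        rw [huv, add_assoc, huv]
        exact vne m (by omega)
  rw [SimpleGraph.dist_comm, hw2] at hj
  omega

end

end EFMod

/-- E8 -/
theorem stEF (h2 : StLocal) (h4 : StBtwU) (hB : StBasic) : StEF := by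
  intro H G G' _ _ _ _ pr em X Dp f A B pr' h
  have d : EFMod.Dat f (em th) (X ⊔ cj (em th) X) (cj (em th) X) A B (hz.comp pr)
      (hz.comp pr') :=
    { YB := h.YB
      AG := h.AG
      BG := h.BG
      Yt := by
        rintro y ⟨x, hx, rfl⟩
        apply Subgroup.mem_sup_left
        have : (em th)⁻¹ * (MulAut.conj (em th)).toMonoidHom x * em th = x := by
          simp [mul_assoc]
        rw [this]
        exact hx
      inj := h.inj
      td := h.st.td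
      td' := h.tr
      eB := h.eB
      eA := h.eA
      rAB := h.rAB
      rBA := h.rBA
      g1a := h.g1a
      g1b := h.g1b
      g2 := h.g2 }
  refine ⟨?_, ?_, ?_⟩
  · exact EFMod.F1 h2 h4 hB d h.st.F1
  · exact EFMod.F2 h2 h4 hB d h.st.NX h.st.F2
  · exact EFMod.F3 h4 hB d h.st.F3

end Pool.Agent.D6b
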