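import Pool.Agent.Lib.MP_d6b03d_al.Tools

/-!
MP_d6b03d_al, module E9: the third step gives a stage.
-/

set_option autoImplicit false

namespace Pool.Agent.D6b

open Multiplicative Base

open Tl in
theorem stEInv (hB : StBasic) (h7 : StClose) (h6 : StJ) (h8 : StEF) : StEInv := by
  intro H G G' _ _ _ _ pr em X Dp f A B pr' hE
  obtain ⟨F1, F2, F3⟩ := h8 H G G' pr em X Dp f A B pr' hE
  set Γ := X ⊔ cj (em th) X with hΓ
  set Γ' := Γ.map f with hΓ'
  have hT : TD Γ' (f (em th)) (hz.comp pr') := hE.tr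
  set S := CG Γ' (f (em th)) with hS
  have hB' := hB G' Γ' (f (em th)) (hz.comp pr')
  have hA : ActsOn S G' := hB'.1
  have hNI : NoInv S G' := hB'.2.1 hT.ht hT.et
  have tree : S.IsTree := hT.tree
  have hvx : IsLine S (vx (f (em th)) Γ') := hB'.2.2.1 hT
  obtain ⟨ht, ht1, ht2, ht3, ht4⟩ := exists_ht hB hT
  refine ⟨?_, by omega, hT, ?_, F1, F2, F3, ?_⟩
  · intro h
    show pr' (f (em h)) = h
    rw [hE.pri, hE.sec]
  · intro n hn
    exact ⟨em n, hE.st.NX n hn, rfl⟩
  · refine h6 H G' (G' ⧸ Γ') S tree hA hNI pr' ?_ ?_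
    · intro L z hL hz0 hzL
      by_cases hN : ConjN (f.comp em) z
      · obtain ⟨γ, n, hn, hzn⟩ := hN
        by_cases hn1 : n = 1
        · left
          rw [hzn, hn1]
          simp
        · right
          intro x c hx hxL
          have hL' := line_smul tree hA γ⁻¹ hL
          have hfix : ∀ i : ℤ, f (em n) • (γ⁻¹ • L i) = γ⁻¹ • L i := by
            intro i
            have e1 : f (em n) = γ⁻¹ * z * γ := by
              rw [hzn]
              simp [mul_assoc]
            rw [e1, ← mul_smul, mul_assoc, mul_inv_cancel, mul_one, mul_smul, hzL i]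
          obtain ⟨c₀, ε, hε, hcε⟩ := h7 _ S tree (vx (f (em th)) Γ') (fun i => γ⁻¹ • L i) hvx hL'
            (Dp + 2) (fun i => F2 n hn hn1 _ (hfix i))
          have g1 : ∀ i : ℤ, toAdd ((hz.comp pr') γ⁻¹) + ht (L i) = c₀ + ε * i := by
            intro i
            rw [← ht2, hcε i, ht4]
          have g2 : ht (L c) = ht (L 0) := by
            have := hxL 0
            rw [zero_add] at this
            rw [← this, ht2]
            have e : (hz.comp pr') x = 1 := hx
            rw [e]
            simp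
          have g3 := g1 c
          have g4 := g1 0
          rw [g2, g4] at g3
          rcases hε with rfl | rfl <;> omega
      · exfalso
        have h1 := F1 z hN (L 0) (L ((Dp : ℤ) + 3)) (hzL _) (hzL _)
        rw [hL] at h1
        omega
    · intro v e g hev hgv heg he1 hg0 hg1
      obtain ⟨δ, rfl⟩ := QuotientGroup.mk_surjective v
      have hst := (hB'.2.2.2.2.1)
      obtain ⟨e₀, he₀, he₀'⟩ := (hst e δ).1 hev
      obtain ⟨g₀, hg₀, hg₀'⟩ := (hst g δ).1 hgv
      have hcomm : e₀ * g₀ = g₀ * e₀ := by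
        have h1 : (e₀ * g₀) * (g₀ * e₀)⁻¹ = 1 := by
          apply hE.inj _ (Subgroup.mul_mem _ (Subgroup.mul_mem _ he₀ hg₀)
            (Subgroup.inv_mem _ (Subgroup.mul_mem _ hg₀ he₀)))
          rw [map_mul, map_inv, map_mul, map_mul, he₀', hg₀', mul_inv_eq_one]
          calc δ⁻¹ * e * δ * (δ⁻¹ * g * δ) = δ⁻¹ * (e * g) * δ := by group
            _ = δ⁻¹ * (g * e) * δ := by rw [heg]
            _ = _ := by group
        rwa [mul_inv_eq_one] at h1
      have p1 : pr e₀ = 1 := by
        rw [← hE.pri, he₀', map_mul, map_mul, he1, map_inv]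
        simp
      have p2 : pr g₀ = (pr' δ)⁻¹ * pr' g * pr' δ := by
        rw [← hE.pri, hg₀', map_mul, map_mul, map_inv]
      have p3 : hz (pr g₀) = 1 := by
        rw [p2, map_mul, map_mul, hg0, map_inv]
        simp
      have p4 : pr g₀ ≠ 1 := by
        intro h
        apply hg1
        rw [p2] at h
        have : pr' g = pr' δ * ((pr' δ)⁻¹ * pr' g * pr' δ) * (pr' δ)⁻¹ := by group
        rw [this, h]
        simp
      have p5 : e₀ = 1 := hE.st.J e₀ g₀ hcomm p1 p3 p4
      rw [p5, map_one] at he₀'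
      have : e = δ * (δ⁻¹ * e * δ) * δ⁻¹ := by group
      rw [this, ← he₀']
      simp

end Pool.Agent.D6b
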