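import Pool.Agent.Lib.MP_d6b03d_al.Stmts

/-!
MP_d6b03d_al, module E6: extending an isomorphism to free products with `ℤ`.
-/

set_option autoImplicit false

namespace Pool.Agent.D6b

open HNNExtension HNNExtension.NormalWord

namespace EI

variable {L : Type} [Group L]

/-- `X * ℤ` -/
abbrev FP (X : Subgroup L) : Type := HNNExtension X ⊥ ⊥ (MulEquiv.refl (⊥ : Subgroup X))

/-- the map `X * ℤ → L` -/
noncomputable def F (X : Subgroup L) (w : L) : FP X →* L :=
  HNNExtension.lift X.subtype w (by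
    rintro ⟨a, ha⟩
    rw [Subgroup.mem_bot] at ha
    subst ha
    simp)

lemma F_of (X : Subgroup L) (w : L) (x : X) : F X w (of x) = x := by
  rw [F, lift_of]; rfl

lemma F_t (X : Subgroup L) (w : L) : F X w HNNExtension.t = w := by
  rw [F, lift_t]

lemma exists_red (X : Subgroup L) (g : FP X) : ∃ w : ReducedWord X ⊥ ⊥,
    w.prod (MulEquiv.refl (⊥ : Subgroup X)) = g := by
  obtain ⟨d⟩ := TransversalPair.nonempty X (⊥ : Subgroup X) ⊥
  refine ⟨(g • (NormalWord.empty : NormalWord d)).toReducedWord, ?_⟩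
  rw [prod_smul, prod_empty, mul_one]

/-- translation of letters -/
def tr (X : Subgroup L) (l : List (ℤˣ × X)) : List (Fin 1 × Bool × L) :=
  l.map fun p => (0, decide (p.1 = 1), (p.2 : L))

lemma F_prod (X : Subgroup L) (w : L) (r : ReducedWord X ⊥ ⊥) :
    F X w (r.prod (MulEquiv.refl (⊥ : Subgroup X))) = r.head * wprod ![w] (tr X r.toList) := by
  rw [ReducedWord.prod, map_mul, F_of, wprod, tr, List.map_map, map_list_prod, List.map_map]
  congr 2
  apply List.map_congr_left
  rintro ⟨u, g⟩ _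
  simp only [Function.comp_apply, map_mul, map_zpow, F_t, F_of]
  rcases Int.units_eq_one_or u with rfl | rfl <;> simp

lemma tr_red (X : Subgroup L) (r : ReducedWord X ⊥ ⊥) : Red X (tr X r.toList) := by
  refine ⟨?_, ?_⟩
  · intro x hx
    rw [tr, List.mem_map] at hx
    obtain ⟨p, -, rfl⟩ := hx
    exact p.2.2
  · rw [tr, List.isChain_map]
    refine r.chain.imp ?_
    rintro ⟨u, g⟩ ⟨u', g'⟩ h ⟨-, h1, h2⟩
    simp only at h h1 h2
    have hg : g ∈ toSubgroup (⊥ : Subgroup X) ⊥ u := by
      have : g = 1 := Subtype.ext h2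
      rw [this]
      exact Subgroup.one_mem _
    exact h1 (by rw [h hg])

lemma F_inj (X : Subgroup L) (w : L) (h : FreeOver X ![w]) : Function.Injective (F X w) := by
  rw [injective_iff_map_eq_one]
  intro g hg
  obtain ⟨r, rfl⟩ := exists_red X g
  rw [F_prod] at hg
  by_cases hn : r.toList = []
  · rw [hn, tr, List.map_nil, wprod, List.map_nil, List.prod_nil, mul_one] at hg
    have : r.head = 1 := Subtype.ext hg
    rw [ReducedWord.prod, hn, this]
    simp
  · exfalso
    refine h (tr X r.toList) ?_ (tr_red X r) ?_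
    · rw [tr, Ne, List.map_eq_nil_iff]; exact hn
    · have : wprod ![w] (tr X r.toList) = (r.head : L)⁻¹ := by
        rw [eq_inv_iff_mul_eq_one, ← hg]
        have h1 : (r.head : L) * wprod ![w] (tr X r.toList) = 1 := hg
        have h2 : wprod ![w] (tr X r.toList) = (r.head : L)⁻¹ := eq_inv_of_mul_eq_one_right h1
        rw [h2]; simp
      rw [this]
      exact X.inv_mem r.head.2

lemma F_range (X : Subgroup L) (w : L) : (F X w).range = X ⊔ Subgroup.closure {w} := by
  apply le_antisymm
  · rintro _ ⟨g, rfl⟩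
    induction g using HNNExtension.induction_on with
    | of g => rw [F_of]; exact Subgroup.mem_sup_left g.2
    | t => rw [F_t]; exact Subgroup.mem_sup_right (Subgroup.subset_closure rfl)
    | mul x y hx hy => rw [map_mul]; exact Subgroup.mul_mem _ hx hy
    | inv x hx => rw [map_inv]; exact Subgroup.inv_mem _ hx
  · apply sup_le
    · intro x hx
      exact ⟨of ⟨x, hx⟩, F_of X w ⟨x, hx⟩⟩
    · rw [Subgroup.closure_le]
      rintro _ rfl
      exact ⟨HNNExtension.t, F_t X _⟩

/-- `X * ℤ ≅ ⟨X, w⟩` -/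
noncomputable def E (X : Subgroup L) (w : L) (h : FreeOver X ![w]) :
    FP X ≃* ↥(X ⊔ Subgroup.closure {w}) :=
  (MonoidHom.ofInjective (F_inj X w h)).trans (MulEquiv.subgroupCongr (F_range X w))

lemma E_val (X : Subgroup L) (w : L) (h : FreeOver X ![w]) (g : FP X) :
    ((E X w h g : ↥(X ⊔ Subgroup.closure {w})) : L) = F X w g := rfl

/-- functoriality -/
noncomputable def K {X Y : Subgroup L} (ψ : X ≃* Y) : FP X →* FP Y :=
  HNNExtension.lift (of.comp ψ.toMonoidHom) HNNExtension.t (by
    rintro ⟨a, ha⟩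
    rw [Subgroup.mem_bot] at ha
    subst ha
    simp)

lemma K_of {X Y : Subgroup L} (ψ : X ≃* Y) (x : X) : K ψ (of x) = of (ψ x) := by
  rw [K, lift_of]; rfl

lemma K_t {X Y : Subgroup L} (ψ : X ≃* Y) : K ψ HNNExtension.t = HNNExtension.t := by
  rw [K, lift_t]

/-- functoriality, isomorphism -/
noncomputable def KE {X Y : Subgroup L} (ψ : X ≃* Y) : FP X ≃* FP Y :=
  MonoidHom.toMulEquiv (K ψ) (K ψ.symm)
    (by
      apply HNNExtension.hom_ext
      · ext x
        simp [K_of]
      · simp [K_t])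
    (by
      apply HNNExtension.hom_ext
      · ext x
        simp [K_of]
      · simp [K_t])

end EI

open EI

theorem eIso : StEIso := by
  intro L _ X Y ψ w v hX hY
  refine ⟨((E X w hX).symm.trans (KE ψ)).trans (E Y v hY), ?_, ?_⟩
  · intro x hx hx'
    have h1 : (⟨x, hx'⟩ : ↥(X ⊔ Subgroup.closure {w})) = E X w hX (of ⟨x, hx⟩) := by
      apply Subtype.ext
      rw [E_val, F_of]
    rw [h1, MulEquiv.trans_apply, MulEquiv.trans_apply, MulEquiv.symm_apply_apply, E_val]
    change F Y v (K ψ (of ⟨x, hx⟩)) = _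
    rw [K_of, F_of]
  · intro hw
    have h1 : (⟨w, hw⟩ : ↥(X ⊔ Subgroup.closure {w})) = E X w hX HNNExtension.t := by
      apply Subtype.ext
      rw [E_val, F_t]
    rw [h1, MulEquiv.trans_apply, MulEquiv.trans_apply, MulEquiv.symm_apply_apply, E_val]
    change F Y v (K ψ HNNExtension.t) = _
    rw [K_t, F_t]

end Pool.Agent.D6b
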