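import Mathlib
import Pool.Agent.Lib.MP_d6b03d_al.Stmts

/-!
T1: the four point condition in trees.
-/

set_option autoImplicit false

namespace Pool.Agent.D6b

open SimpleGraph

namespace FourPt

theorem btw_uniq {V : Type} {S : SimpleGraph V} (hS : S.IsTree) {p q r r' : V}
    (h : Btw S p r q) (h' : Btw S p r' q) (hd : S.dist p r = S.dist p r') : r = r' := by
  obtain ⟨w1, hw1⟩ := hS.connected.exists_walk_length_eq_dist p r
  obtain ⟨w2, hw2⟩ := hS.connected.exists_walk_length_eq_dist r q
  obtain ⟨v1, hv1⟩ := hS.connected.exists_walk_length_eq_dist p r'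
  obtain ⟨v2, hv2⟩ := hS.connected.exists_walk_length_eq_dist r' q
  have hw : (w1.append w2).length = S.dist p q := by
    rw [Walk.length_append, hw1, hw2]
    exact h
  have hv : (v1.append v2).length = S.dist p q := by
    rw [Walk.length_append, hv1, hv2]
    exact h'
  have pw := (w1.append w2).isPath_of_length_eq_dist hw
  have pv := (v1.append v2).isPath_of_length_eq_dist hv
  have e := hS.isAcyclic.path_unique ⟨_, pw⟩ ⟨_, pv⟩
  have e' : w1.append w2 = v1.append v2 := congrArg Subtype.val e
  have g1 : (w1.append w2).getVert w1.length = r := by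
    rw [Walk.getVert_append]
    simp
  have g2 : (v1.append v2).getVert v1.length = r' := by
    rw [Walk.getVert_append]
    simp
  rw [← g1, ← g2, e', hw1, hv1, hd]

/-- a vertex of a shortest walk is between its ends -/
theorem btw_of_mem {V : Type} {S : SimpleGraph V} (hS : S.Connected) {p q v : V}
    (W : S.Walk p q) (hW : W.length = S.dist p q) (hv : v ∈ W.support) : Btw S p v q := by
  classical
  unfold Btw
  have h1 := congrArg Walk.length (W.take_spec hv)
  rw [Walk.length_append] at h1
  have h2 := dist_le (W.takeUntil v hv)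
  have h3 := dist_le (W.dropUntil v hv)
  have h4 := hS.dist_triangle (u := p) (v := v) (w := q)
  omega

/-- the point closest to `z` between `x` and `y` is between `x` and `z` -/
theorem closest {V : Type} {S : SimpleGraph V} (hS : S.IsTree) {x y z m : V}
    (hm : Btw S x m y) (hmin : ∀ v, Btw S x v y → S.dist m z ≤ S.dist v z) : Btw S x m z := by
  obtain ⟨W1, h1⟩ := hS.connected.exists_walk_length_eq_dist x m
  obtain ⟨W2, h2⟩ := hS.connected.exists_walk_length_eq_dist m z
  have p1 := W1.isPath_of_length_eq_dist h1
  have p2 := W2.isPath_of_length_eq_dist h2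
  have hdis : ∀ v, v ∈ W1.support → v ∈ W2.support → v = m := by
    intro v hv1 hv2
    have b1 := btw_of_mem hS.connected W1 h1 hv1
    have b2 := btw_of_mem hS.connected W2 h2 hv2
    have b3 : Btw S x v y := by
      unfold Btw at *
      have t1 := hS.connected.dist_triangle (u := x) (v := v) (w := y)
      have t2 := hS.connected.dist_triangle (u := v) (v := m) (w := y)
      omega
    have h3 := hmin v b3
    unfold Btw at b2
    have h4 : S.dist m v = 0 := by omega
    exact (hS.connected.dist_eq_zero_iff.1 h4).symm
  have p3 : (W1.append W2).IsPath := by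
    rw [Walk.isPath_def, Walk.support_append, List.nodup_append']
    refine ⟨p1.support_nodup, p2.support_nodup.tail, ?_⟩
    intro v hv1 hv2
    have e := hdis v hv1 (List.mem_of_mem_tail hv2)
    subst e
    have h5 := p2.support_nodup
    rw [Walk.support_eq_cons, List.nodup_cons] at h5
    exact h5.1 hv2
  obtain ⟨W3, p4, h3⟩ := hS.connected.exists_path_of_dist x z
  have e : W1.append W2 = W3 := (hS.existsUnique_path x z).unique p3 p4
  unfold Btw
  rw [← h3, ← e, Walk.length_append, h1, h2]

theorem btw_symm {V : Type} {S : SimpleGraph V} {p r q : V} (h : Btw S p r q) : Btw S q r p := by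
  unfold Btw at *
  rw [S.dist_comm (u := q) (v := r), S.dist_comm (u := r) (v := p),
    S.dist_comm (u := q) (v := p)]
  omega

theorem median {V : Type} {S : SimpleGraph V} (hS : S.IsTree) (x y z : V) :
    ∃ m, Btw S x m y ∧ Btw S x m z ∧ Btw S y m z := by
  classical
  have hne : ∃ k, ∃ m, Btw S x m y ∧ S.dist m z = k := ⟨_, x, by simp [Btw], rfl⟩
  obtain ⟨m, hm, hk⟩ := Nat.find_spec hne
  have hmin : ∀ v, Btw S x v y → S.dist m z ≤ S.dist v z := by
    intro v hv
    rw [hk]
    exact Nat.find_min' hne ⟨v, hv, rfl⟩
  refine ⟨m, hm, closest hS hm hmin, closest hS (btw_symm hm) ?_⟩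
  intro v hv
  exact hmin v (btw_symm hv)

theorem main {V : Type} {S : SimpleGraph V} (hS : S.IsTree) {x y z w m n : V}
    (m1 : Btw S x m y) (m2 : Btw S x m z) (m3 : Btw S y m z)
    (n1 : Btw S x n y) (n2 : Btw S x n w) (n3 : Btw S y n w) (h : S.dist x m ≤ S.dist x n) :
    S.dist x y + S.dist z w ≤ S.dist x w + S.dist y z := by
  have tri := fun u v w => hS.connected.dist_triangle (u := u) (v := v) (w := w)
  obtain ⟨W, hW⟩ := hS.connected.exists_walk_length_eq_dist x n
  -- the point of the geodesic from `x` to `n`
  set m' := W.getVert (S.dist x m) with hm'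
  have h1 : S.dist x m' ≤ S.dist x m := by
    have := dist_le (W.take (S.dist x m))
    rw [Walk.take_length] at this
    exact this.trans (min_le_left _ _)
  have h2 : S.dist m' n ≤ S.dist x n - S.dist x m := by
    have := dist_le (W.drop (S.dist x m))
    rw [Walk.drop_length, hW] at this
    exact this
  have h3 := tri x m' n
  have h4 : S.dist x m' = S.dist x m := by omega
  have h5 : S.dist m' n = S.dist x n - S.dist x m := by omega
  have h6 : Btw S x m' y := by
    unfold Btw at *
    have t1 := tri x m' y
    have t2 := tri m' n y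
    omega
  have h7 : m' = m := btw_uniq hS h6 m1 h4
  rw [h7] at h5
  unfold Btw at *
  have t1 := tri z m w
  have t2 := tri m n w
  have c1 := S.dist_comm (u := z) (v := m)
  have c2 := S.dist_comm (u := m) (v := y)
  omega

end FourPt

theorem stFourPt : StFourPt := by
  intro V S hS x y z w
  obtain ⟨m, m1, m2, m3⟩ := FourPt.median hS x y z
  obtain ⟨n, n1, n2, n3⟩ := FourPt.median hS x y w
  rcases le_total (S.dist x m) (S.dist x n) with h | h
  · exact (FourPt.main hS m1 m2 m3 n1 n2 n3 h).trans (le_max_right _ _)
  · have h1 := FourPt.main hS n1 n2 n3 m1 m2 m3 h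
    rw [S.dist_comm (u := w) (v := z)] at h1
    exact h1.trans (le_max_left _ _)

end Pool.Agent.D6b
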