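import Pool.Agent.Lib.MP_d6b03d_al.Tools
import Pool.Agent.Lib.MP_d6b03d_al.FourPt

/-!
MP_d6b03d_al: module P4 (`StExit`): exits of three letter words.
-/

set_option autoImplicit false

namespace Pool.Agent.D6b

open Multiplicative Base

namespace Exit

theorem step {V : Type} {S : SimpleGraph V} (hS : S.Connected) {u c : V} (h : u ≠ c) :
    ∃ d, S.dist u d = 1 ∧ S.dist d c + 1 = S.dist u c := by
  obtain ⟨w, hw⟩ := hS.exists_walk_length_eq_dist u c
  cases w with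
  | nil => exact absurd rfl h
  | @cons _ d _ hadj p =>
    refine ⟨d, SimpleGraph.dist_eq_one_iff_adj.mpr hadj, ?_⟩
    simp only [SimpleGraph.Walk.length_cons] at hw
    have h1 := SimpleGraph.dist_le p
    have h2 : S.dist u c ≤ S.dist u d + S.dist d c := hS.dist_triangle
    have h3 : S.dist u d = 1 := SimpleGraph.dist_eq_one_iff_adj.mpr hadj
    omega

/-- a turn: the directions at `w` to `x` and to `z` are different -/
theorem turn {V : Type} {S : SimpleGraph V} (hS : S.IsTree) {x w z a b : V} (hab : a ≠ b)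
    (ha : S.dist w a = 1) (hb : S.dist w b = 1) (hxa : S.dist x a + 1 = S.dist x w)
    (hzb : S.dist z b + 1 = S.dist z w) : S.dist x z = S.dist x w + S.dist w z := by
  obtain ⟨m, h1, h2, h3⟩ := FourPt.median hS x w z
  have tri := fun u v w => hS.connected.dist_triangle (u := u) (v := v) (w := w)
  by_cases hm : w = m
  · subst hm
    exact h2.symm
  · exfalso
    obtain ⟨c, hc1, hc2⟩ := step hS.connected hm
    unfold Btw at h1 h2 h3
    have hac : c = a := by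
      apply FourPt.btw_uniq hS (p := w) (q := x)
      · unfold Btw
        have e1 := tri c m x
        have e2 := tri w c x
        have e3 := S.dist_comm (u := x) (v := m)
        have e4 := S.dist_comm (u := x) (v := w)
        have e5 := S.dist_comm (u := m) (v := w)
        omega
      · unfold Btw
        have e1 := S.dist_comm (u := x) (v := a)
        have e2 := S.dist_comm (u := x) (v := w)
        omega
      · omega
    have hbc : c = b := by
      apply FourPt.btw_uniq hS (p := w) (q := z)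
      · unfold Btw
        have e1 := tri c m z
        have e2 := tri w c z
        omega
      · unfold Btw
        have e1 := S.dist_comm (u := z) (v := b)
        have e2 := S.dist_comm (u := z) (v := w)
        omega
      · omega
    exact hab (hac.symm.trans hbc)

end Exit

theorem stExit (hB : StBasic) : StExit := by
  intro G _ X t η hT κ₁ κ₂ κ₃ α₁ β₁ α₂ β₂ α₃ β₃ f1 f2 f3 q1 q2 q3 q4 q5 q6
  have hS := hT.tree
  have hA : ActsOn (CG X t) G := (hB G X t η).1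
  have hL : IsLine (CG X t) (vx t X) := (hB G X t η).2.2.1 hT
  obtain ⟨ht, g1, g2, g3, g4⟩ := Tl.exists_ht hB hT
  have tri := fun u v w => hS.connected.dist_triangle (u := u) (v := v) (w := w)
  have dsm := fun g u v => Tl.dist_smul hS hA (g := g) (u := u) (v := v)
  have k1 : toAdd (η κ₁) = 0 := by
    have := g2 κ₁ (vx t X α₁)
    rw [(f1 α₁).2 ⟨le_rfl, by exact_mod_cast q2⟩] at this
    omega
  have k2 : toAdd (η κ₂) = 0 := by
    have := g2 κ₂ (vx t X α₂)
    rw [(f2 α₂).2 ⟨le_rfl, by exact_mod_cast q4⟩] at this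
    omega
  have k3 : toAdd (η κ₃) = 0 := by
    have := g2 κ₃ (vx t X α₃)
    rw [(f3 α₃).2 ⟨le_rfl, by exact_mod_cast q6⟩] at this
    omega
  have k1' : toAdd (η κ₁⁻¹) = 0 := by rw [map_inv, toAdd_inv, k1, neg_zero]
  have k2' : toAdd (η κ₂⁻¹) = 0 := by rw [map_inv, toAdd_inv, k2, neg_zero]
  have k3' : toAdd (η κ₃⁻¹) = 0 := by rw [map_inv, toAdd_inv, k3, neg_zero]
  set L := vx t X with hLdef
  -- the second letter
  have A2 : ∀ i c : ℤ, i ≤ β₂ → (β₂ : ℤ) ≤ c → ((CG X t).dist (L i) (κ₂ • L c) : ℤ) = c - i := by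
    intro i c hi hc
    have e0 := (f2 β₂).2 ⟨by exact_mod_cast q4, le_rfl⟩
    have e1 := tri (L i) (L β₂) (κ₂ • L c)
    have e2 : (CG X t).dist (L β₂) (κ₂ • L c) = ((β₂ : ℤ) - c).natAbs := by
      rw [← hL]
      conv_lhs => rw [← e0]
      rw [dsm]
    have e3 := hL i β₂
    have e4 := g3 (L i) (κ₂ • L c)
    rw [g2, g4, g4, k2] at e4
    omega
  -- two letters
  have A1 : ∀ m c : ℤ, (β₂ : ℤ) ≤ c →
      ((CG X t).dist (L m) ((κ₁ * κ₂) • L c) : ℤ) = (m - β₁).natAbs + (c - β₁) := by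
    intro m c hc
    have e0 := (f1 β₁).2 ⟨by exact_mod_cast q2, le_rfl⟩
    have e1 : (CG X t).dist (L β₁) ((κ₁ * κ₂) • L c) = (CG X t).dist (L β₁) (κ₂ • L c) := by
      conv_lhs => rw [← e0]
      rw [mul_smul, dsm]
    have e2 := A2 β₁ c (by omega) hc
    rcases le_or_gt m β₁ with hm | hm
    · have e3 := tri (L m) (L β₁) ((κ₁ * κ₂) • L c)
      have e4 := g3 (L m) ((κ₁ * κ₂) • L c)
      rw [g2, g4, g4, map_mul, toAdd_mul, k1, k2] at e4
      have e5 := hL m β₁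
      omega
    · have e3 := Exit.turn hS (x := L m) (w := L β₁) (z := (κ₁ * κ₂) • L c) (a := L (β₁ + 1))
        (b := κ₁ • L (β₁ + 1)) (by
          intro h
          have := (f1 (β₁ + 1)).1 h.symm
          omega) (by rw [hL]; omega) (by
          conv_lhs => rw [← e0]
          rw [dsm, hL]
          omega) (by rw [hL, hL]; omega) (by
          have e6 := A2 (β₁ + 1) c (by omega) hc
          have e7 : (CG X t).dist ((κ₁ * κ₂) • L c) (κ₁ • L (β₁ + 1)) =
              (CG X t).dist (L (β₁ + 1)) (κ₂ • L c) := by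
            rw [mul_smul, dsm, SimpleGraph.dist_comm]
          rw [e7]
          have e8 : (CG X t).dist ((κ₁ * κ₂) • L c) (L β₁) =
              (CG X t).dist (L β₁) ((κ₁ * κ₂) • L c) := SimpleGraph.dist_comm
          rw [e8, e1]
          omega)
      have e5 := hL m β₁
      omega
  have e3 := (f3 α₃).2 ⟨le_rfl, by exact_mod_cast q6⟩
  constructor
  · intro m
    have w : (κ₁ * κ₂ * κ₃) • L α₃ = (κ₁ * κ₂) • L α₃ := by rw [mul_smul, e3]
    have b1 := A1 m α₃ (by omega)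
    have b2 := A1 m (α₃ - 1) (by omega)
    have b3 : (CG X t).dist ((κ₁ * κ₂ * κ₃) • L 0) ((κ₁ * κ₂) • L α₃) = α₃ := by
      rw [← w, dsm, hL]
      omega
    have b4 := Exit.turn hS (x := L m) (w := (κ₁ * κ₂) • L α₃) (z := (κ₁ * κ₂ * κ₃) • L 0)
      (a := (κ₁ * κ₂) • L (α₃ - 1)) (b := (κ₁ * κ₂ * κ₃) • L (α₃ - 1)) (by
        intro h
        rw [mul_smul (κ₁ * κ₂) κ₃, smul_left_cancel_iff] at h
        have := (f3 (α₃ - 1)).1 h.symm
        omega) (by rw [dsm, hL]; omega) (by rw [← w, dsm, hL]; omega) (by omega) (by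
        rw [b3, dsm, hL]; omega)
    have b5 : (CG X t).dist ((κ₁ * κ₂) • L α₃) ((κ₁ * κ₂ * κ₃) • L 0) = α₃ := by
      rw [SimpleGraph.dist_comm, b3]
    omega
  · intro m
    have e3' : κ₃⁻¹ • L α₃ = L α₃ := by rw [inv_smul_eq_iff, e3]
    have e2' : κ₂⁻¹ • L β₂ = L β₂ := by
      rw [inv_smul_eq_iff, (f2 β₂).2 ⟨by exact_mod_cast q4, le_rfl⟩]
    have e1' : κ₁⁻¹ • L β₁ = L β₁ := by
      rw [inv_smul_eq_iff, (f1 β₁).2 ⟨by exact_mod_cast q2, le_rfl⟩]
    have hy : (κ₁ * κ₂ * κ₃)⁻¹ = κ₃⁻¹ * (κ₂⁻¹ * κ₁⁻¹) := by group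
    rw [hy]
    -- the descending part
    have c1 : (CG X t).dist (L β₂) ((κ₂⁻¹ * κ₁⁻¹) • L 0) ≤ β₂ := by
      have d1 : (CG X t).dist (L β₂) (κ₂⁻¹ • L β₁) = ((β₂ : ℤ) - β₁).natAbs := by
        conv_lhs => rw [← e2']
        rw [dsm, hL]
      have d2 : (CG X t).dist (κ₂⁻¹ • L β₁) ((κ₂⁻¹ * κ₁⁻¹) • L 0) = β₁ := by
        conv_lhs => rw [← e1']
        rw [← mul_smul, dsm, hL]
        omega
      have d3 := tri (L β₂) (κ₂⁻¹ • L β₁) ((κ₂⁻¹ * κ₁⁻¹) • L 0)
      omega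
    have c2 : ∀ c : ℤ, (β₂ : ℤ) ≤ c →
        ((CG X t).dist (L c) ((κ₂⁻¹ * κ₁⁻¹) • L 0) : ℤ) = c := by
      intro c hc
      have d1 := tri (L c) (L β₂) ((κ₂⁻¹ * κ₁⁻¹) • L 0)
      have d2 := hL c β₂
      have d3 := g3 (L c) ((κ₂⁻¹ * κ₁⁻¹) • L 0)
      rw [g2, g4, g4, map_mul, toAdd_mul, k1', k2'] at d3
      omega
    have c3 : ((CG X t).dist (L α₃) ((κ₃⁻¹ * (κ₂⁻¹ * κ₁⁻¹)) • L 0) : ℤ) = α₃ := by
      conv_lhs => rw [← e3']
      rw [mul_smul, dsm]
      exact c2 α₃ (by omega)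
    rcases le_or_gt (α₃ : ℤ) m with hm | hm
    · have d1 := tri (L m) (L α₃) ((κ₃⁻¹ * (κ₂⁻¹ * κ₁⁻¹)) • L 0)
      have d2 := hL m α₃
      have d3 := g3 (L m) ((κ₃⁻¹ * (κ₂⁻¹ * κ₁⁻¹)) • L 0)
      rw [g2, g4, g4, map_mul, toAdd_mul, map_mul, toAdd_mul, k1', k2', k3'] at d3
      omega
    · have d1 := Exit.turn hS (x := L m) (w := L α₃) (z := (κ₃⁻¹ * (κ₂⁻¹ * κ₁⁻¹)) • L 0)
        (a := L (α₃ - 1)) (b := κ₃⁻¹ • L (α₃ - 1)) (by
          intro h
          have h' : κ₃ • L (α₃ - 1) = L (α₃ - 1) := eq_inv_smul_iff.1 h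
          have := (f3 (α₃ - 1)).1 h'
          omega) (by rw [hL]; omega) (by
          conv_lhs => rw [← e3']
          rw [dsm, hL]
          omega) (by rw [hL, hL]; omega) (by
          have d4 : (CG X t).dist ((κ₃⁻¹ * (κ₂⁻¹ * κ₁⁻¹)) • L 0) (κ₃⁻¹ • L (α₃ - 1)) =
              (CG X t).dist (L (α₃ - 1)) ((κ₂⁻¹ * κ₁⁻¹) • L 0) := by
            rw [mul_smul, dsm, SimpleGraph.dist_comm]
          have d5 := c2 (α₃ - 1) (by omega)
          have d6 : (CG X t).dist ((κ₃⁻¹ * (κ₂⁻¹ * κ₁⁻¹)) • L 0) (L α₃) =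
              (CG X t).dist (L α₃) ((κ₃⁻¹ * (κ₂⁻¹ * κ₁⁻¹)) • L 0) := SimpleGraph.dist_comm
          rw [d4, d6]
          omega)
      have d2 := hL m α₃
      omega

end Pool.Agent.D6b
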