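import Pool.Agent.Lib.MP_d6b03d_al.Stmts

/-!
MP_d6b03d_al, module E1: free families over a subgroup, associativity (`StFAssoc`).
-/

set_option autoImplicit false

namespace Pool.Agent.D6b

namespace FA

variable {G : Type} [Group G] {ι : Type}

/-- the letter `a i ^ (± 1)` -/
def sg (a : ι → G) (i : ι) (e : Bool) : G := if e then a i else (a i)⁻¹

theorem sg_not (a : ι → G) (i : ι) (e : Bool) : sg a i (!e) = (sg a i e)⁻¹ := by
  cases e <;> simp [sg]

theorem wprod_nil (a : ι → G) : wprod a [] = 1 := rfl

theorem wprod_cons (a : ι → G) (x : ι × Bool × G) (l : List (ι × Bool × G)) :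
    wprod a (x :: l) = sg a x.1 x.2.1 * x.2.2 * wprod a l := by
  simp [wprod, sg, mul_assoc]

theorem wprod_append (a : ι → G) (l l' : List (ι × Bool × G)) :
    wprod a (l ++ l') = wprod a l * wprod a l' := by
  simp [wprod]

/-- the relation between neighbours in a reduced word -/
def Rl (x y : ι × Bool × G) : Prop := ¬ (x.1 = y.1 ∧ x.2.1 ≠ y.2.1 ∧ x.2.2 = 1)

theorem red_iff {P : Subgroup G} {l : List (ι × Bool × G)} :
    Red P l ↔ (∀ x ∈ l, x.2.2 ∈ P) ∧ l.IsChain Rl := Iff.rfl

theorem red_nil (P : Subgroup G) : Red P ([] : List (ι × Bool × G)) := by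
  rw [red_iff]; exact ⟨by simp, List.isChain_nil⟩

theorem red_cons {P : Subgroup G} {x : ι × Bool × G} {l : List (ι × Bool × G)} :
    Red P (x :: l) ↔ x.2.2 ∈ P ∧ (∀ y ∈ l.head?, Rl x y) ∧ Red P l := by
  rw [red_iff, red_iff, List.isChain_cons]
  constructor
  · rintro ⟨h1, h2, h3⟩
    exact ⟨h1 x (by simp), h2, fun z hz => h1 z (by simp [hz]), h3⟩
  · rintro ⟨h1, h2, h3, h4⟩
    refine ⟨fun z hz => ?_, h2, h4⟩
    rcases List.mem_cons.1 hz with rfl | hz
    · exact h1
    · exact h3 z hz

theorem red_cons_cons {P : Subgroup G} {x y : ι × Bool × G} {l : List (ι × Bool × G)} :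
    Red P (x :: y :: l) ↔ x.2.2 ∈ P ∧ Rl x y ∧ Red P (y :: l) := by
  rw [red_cons]; simp

/-- one may test with `≠ 1` only -/
theorem freeOver_iff {P : Subgroup G} {a : ι → G} :
    FreeOver P a ↔ ∀ l : List (ι × Bool × G), l ≠ [] → Red P l → wprod a l ≠ 1 := by
  constructor
  · intro h l h1 h2 h3
    exact h l h1 h2 (h3 ▸ P.one_mem)
  · intro h l h1 h2 h3
    obtain h4 | ⟨L, x, h4⟩ := List.eq_nil_or_concat' l
    · exact h1 h4
    · set w := wprod a l with hw
      refine h (L ++ [(x.1, x.2.1, x.2.2 * w⁻¹)]) (by simp) ?_ ?_
      · rw [h4, red_iff, List.isChain_append] at h2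
        rw [red_iff, List.isChain_append]
        obtain ⟨g1, g2, g3, g4⟩ := h2
        refine ⟨fun z hz => ?_, g2, List.isChain_singleton _, ?_⟩
        · rcases List.mem_append.1 hz with hz | hz
          · exact g1 z (List.mem_append.2 (Or.inl hz))
          · rw [List.mem_singleton] at hz
            subst hz
            exact P.mul_mem (g1 x (by simp)) (P.inv_mem h3)
        · intro u hu v hv
          simp only [List.head?_cons, Option.mem_def, Option.some.injEq] at hv
          subst hv
          have := g4 u hu x (by simp)
          simpa [Rl] using this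
      · rw [h4, wprod_append, wprod_cons, wprod_nil, mul_one] at hw
        rw [wprod_append, wprod_cons, wprod_nil, mul_one]
        simp only
        rw [← mul_assoc (sg a x.1 x.2.1), ← mul_assoc (wprod a L), ← hw, mul_inv_cancel]

/-- products of words lie in the generated subgroup -/
theorem wprod_mem {P : Subgroup G} {a : ι → G} (l : List (ι × Bool × G)) (hl : Red P l) :
    wprod a l ∈ P ⊔ Subgroup.closure (Set.range a) := by
  induction l with
  | nil => rw [wprod_nil]; exact one_mem _
  | cons x l ih =>
    rw [red_cons] at hl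
    rw [wprod_cons]
    have h1 : a x.1 ∈ P ⊔ Subgroup.closure (Set.range a) :=
      Subgroup.mem_sup_right (Subgroup.subset_closure ⟨x.1, rfl⟩)
    refine mul_mem (mul_mem ?_ (Subgroup.mem_sup_left hl.1)) (ih hl.2.2)
    unfold sg
    split
    · exact h1
    · exact inv_mem h1

/-- reduced forms -/
theorem reduced_form {P : Subgroup G} {a : ι → G} (z : G)
    (hz : z ∈ P ⊔ Subgroup.closure (Set.range a)) :
    ∃ y₀ ∈ P, ∃ l : List (ι × Bool × G), Red P l ∧ z = y₀ * wprod a l := by
  classical
  have hcl : P ⊔ Subgroup.closure (Set.range a) =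
      Subgroup.closure ((P : Set G) ∪ Set.range a) := by
    rw [Subgroup.closure_union, Subgroup.closure_eq]
  rw [hcl] at hz
  have key : ∀ (i : ι) (e : Bool) (y : G), (∃ y₀ ∈ P, ∃ l : List (ι × Bool × G), Red P l ∧
      y = y₀ * wprod a l) → ∃ y₀ ∈ P, ∃ l : List (ι × Bool × G), Red P l ∧
      sg a i e * y = y₀ * wprod a l := by
    rintro i e y ⟨y₀, hy₀, l, hl, rfl⟩
    by_cases hr : Red P ((i, e, y₀) :: l)
    · refine ⟨1, one_mem _, (i, e, y₀) :: l, hr, ?_⟩
      rw [wprod_cons]
      simp [mul_assoc]
    · rw [red_cons] at hr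
      push Not at hr
      have h1 : ¬ ∀ y ∈ l.head?, Rl (i, e, y₀) y := fun h => hr hy₀ h hl
      push Not at h1
      obtain ⟨x, hx, hx'⟩ := h1
      cases l with
      | nil => simp at hx
      | cons x' l =>
        simp only [List.head?_cons, Option.mem_def, Option.some.injEq] at hx
        subst hx
        unfold Rl at hx'
        rw [not_not] at hx'
        obtain ⟨g1, g2, g3⟩ := hx'
        simp only at g1 g2 g3
        rw [red_cons] at hl
        refine ⟨x'.2.2, hl.1, l, hl.2.2, ?_⟩
        have g4 : x'.2.1 = !e := by
          revert g2; cases e <;> cases x'.2.1 <;> simp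
        rw [wprod_cons, ← g1, g3, g4, sg_not]
        group
  refine Subgroup.closure_induction_left (p := fun z _ => ∃ y₀ ∈ P,
    ∃ l : List (ι × Bool × G), Red P l ∧ z = y₀ * wprod a l) ?_ ?_ ?_ hz
  · exact ⟨1, one_mem _, [], red_nil P, by simp [wprod_nil]⟩
  · rintro x (hx | ⟨i, rfl⟩) y - hy
    · obtain ⟨y₀, hy₀, l, hl, rfl⟩ := hy
      exact ⟨x * y₀, mul_mem hx hy₀, l, hl, by rw [mul_assoc]⟩
    · simpa [sg] using key i true y hy
  · rintro x (hx | ⟨i, rfl⟩) y - hy
    · obtain ⟨y₀, hy₀, l, hl, rfl⟩ := hy
      exact ⟨x⁻¹ * y₀, mul_mem (inv_mem hx) hy₀, l, hl, by rw [mul_assoc]⟩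
    · simpa [sg] using key i false y hy

section Assoc

variable {α β : Type} {a : α → G} {b : β → G} {Y : Subgroup G}

/-- words in `a` are words in `Sum.elim a b` -/
def inj (l : List (α × Bool × G)) : List ((α ⊕ β) × Bool × G) :=
  l.map fun x => (Sum.inl x.1, x.2)

omit [Group G] in
theorem inj_cons (x : α × Bool × G) (l : List (α × Bool × G)) :
    (inj (x :: l) : List ((α ⊕ β) × Bool × G)) = (Sum.inl x.1, x.2) :: inj l := rfl

theorem wprod_inj (l : List (α × Bool × G)) :
    wprod (Sum.elim a b) (inj l) = wprod a l := by
  induction l with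
  | nil => rfl
  | cons x l ih => rw [inj_cons, wprod_cons, wprod_cons, ih]; rfl

theorem red_inj {l : List (α × Bool × G)} (h : Red Y l) :
    Red Y (inj l : List ((α ⊕ β) × Bool × G)) := by
  rw [red_iff] at h ⊢
  refine ⟨?_, ?_⟩
  · intro x hx
    simp only [inj, List.mem_map] at hx
    obtain ⟨y, hy, rfl⟩ := hx
    exact h.1 y hy
  · rw [inj, List.isChain_map]
    refine h.2.imp ?_
    intro x y hxy
    simpa [Rl] using hxy

/-- expansion of the words over `Z` -/
theorem expand (L : List (β × Bool × G))
    (hL : Red (Y ⊔ Subgroup.closure (Set.range a)) L) :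
    ∃ L' : List ((α ⊕ β) × Bool × G), Red Y L' ∧ wprod (Sum.elim a b) L' = wprod b L ∧
      (L = [] → L' = []) ∧
      ∀ x ∈ L.head?, ∃ y ∈ L'.head?, y.1 = Sum.inr x.1 ∧ y.2.1 = x.2.1 := by
  induction L with
  | nil => exact ⟨[], red_nil Y, rfl, fun _ => rfl, by simp⟩
  | cons x L ih =>
    rw [red_cons] at hL
    obtain ⟨hx1, hx2, hL2⟩ := hL
    obtain ⟨L', hL', hp, hn, hh⟩ := ih hL2
    obtain ⟨y₀, hy₀, l, hl, hz⟩ := reduced_form x.2.2 hx1
    refine ⟨(Sum.inr x.1, x.2.1, y₀) :: (inj l ++ L'), ?_, ?_, by simp, ?_⟩
    · -- reducedness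
      cases l with
      | nil =>
        simp only [inj, List.map_nil, List.nil_append]
        rw [red_cons]
        refine ⟨hy₀, ?_, hL'⟩
        intro v hv
        cases L with
        | nil =>
          rw [hn rfl] at hv
          simp at hv
        | cons u L =>
          obtain ⟨v', hv', h1, h2⟩ := hh u (by simp)
          have : v = v' := by
            rw [Option.mem_def] at hv hv'
            rw [hv] at hv'
            exact Option.some.inj hv'
          subst this
          have h3 := hx2 u (by simp)
          unfold Rl at h3 ⊢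
          rintro ⟨g1, g2, g3⟩
          simp only at g1 g2 g3
          rw [h1, Sum.inr.injEq] at g1
          rw [h2] at g2
          apply h3
          refine ⟨g1, g2, ?_⟩
          rw [hz, wprod_nil, mul_one, g3]
      | cons u l =>
        have hl' := red_inj (β := β) hl
        rw [inj_cons, List.cons_append, red_cons]
        refine ⟨hy₀, ?_, ?_⟩
        · intro v hv
          simp only [List.head?_cons, Option.mem_def, Option.some.injEq] at hv
          subst hv
          unfold Rl
          rintro ⟨g1, -, -⟩
          simp at g1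
        · rw [← List.cons_append, ← inj_cons]
          rw [red_iff] at hl' hL' ⊢
          refine ⟨?_, ?_⟩
          · intro z hz
            rcases List.mem_append.1 hz with hz | hz
            · exact hl'.1 z hz
            · exact hL'.1 z hz
          · rw [List.isChain_append]
            refine ⟨hl'.2, hL'.2, ?_⟩
            intro p hp q hq
            have hp' : ∃ i, p.1 = Sum.inl i := by
              have : p ∈ (inj (u :: l) : List ((α ⊕ β) × Bool × G)) :=
                List.mem_of_getLast? hp
              simp only [inj, List.mem_map] at this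
              obtain ⟨r, -, rfl⟩ := this
              exact ⟨r.1, rfl⟩
            have hq' : ∃ j, q.1 = Sum.inr j := by
              cases L with
              | nil =>
                rw [hn rfl] at hq
                simp at hq
              | cons w L =>
                obtain ⟨v', hv', h1, h2⟩ := hh w (by simp)
                have : q = v' := by
                  rw [Option.mem_def] at hq hv'
                  rw [hq] at hv'
                  exact Option.some.inj hv'
                subst this
                exact ⟨_, h1⟩
            obtain ⟨i, hi⟩ := hp'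
            obtain ⟨j, hj⟩ := hq'
            unfold Rl
            rintro ⟨g1, -, -⟩
            rw [hi, hj] at g1
            simp at g1
    · rw [wprod_cons, wprod_append, wprod_inj, hp, wprod_cons, hz]
      simp only [sg, Sum.elim_inr, mul_assoc]
    · intro y hy
      simp only [List.head?_cons, Option.mem_def, Option.some.injEq] at hy
      subst hy
      exact ⟨(Sum.inr x.1, x.2.1, y₀), by simp, rfl, rfl⟩

/-- grouping the words over `Y`: the initial run of `a`-letters, and a word in `b` -/
def split (a : α → G) : List ((α ⊕ β) × Bool × G) →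
    List (α × Bool × G) × List (β × Bool × G)
  | [] => ([], [])
  | (Sum.inl i, e, y) :: L => ((i, e, y) :: (split a L).1, (split a L).2)
  | (Sum.inr j, e, y) :: L => ([], (j, e, y * wprod a (split a L).1) :: (split a L).2)

theorem wprod_split (L : List ((α ⊕ β) × Bool × G)) :
    wprod (Sum.elim a b) L = wprod a (split a L).1 * wprod b (split a L).2 := by
  induction L with
  | nil => simp [split, wprod_nil]
  | cons x L ih =>
    obtain ⟨i | j, e, y⟩ := x
    · rw [wprod_cons, ih, split, wprod_cons]
      simp [sg, mul_assoc]
    · rw [wprod_cons, ih, split, wprod_cons, wprod_nil]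
      simp [sg, mul_assoc]

theorem split_red1 (L : List ((α ⊕ β) × Bool × G)) (hL : Red Y L) :
    Red Y (split a L).1 := by
  induction L with
  | nil => exact red_nil Y
  | cons x L ih =>
    obtain ⟨i | j, e, y⟩ := x
    · rw [red_cons] at hL
      rw [split, red_cons]
      refine ⟨hL.1, ?_, ih hL.2.2⟩
      intro v hv
      cases L with
      | nil => simp [split] at hv
      | cons u L =>
        have h3 := hL.2.1 u (by simp)
        obtain ⟨i' | j', e', y'⟩ := u
        · simp only [split, List.head?_cons, Option.mem_def, Option.some.injEq] at hv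
          subst hv
          simpa [Rl] using h3
        · simp [split] at hv
    · exact red_nil Y

theorem split_red2 (hf : FreeOver Y a) (L : List ((α ⊕ β) × Bool × G)) (hL : Red Y L) :
    Red (Y ⊔ Subgroup.closure (Set.range a)) (split a L).2 := by
  induction L with
  | nil => exact red_nil _
  | cons x L ih =>
    obtain ⟨i | j, e, y⟩ := x
    · rw [red_cons] at hL
      exact ih hL.2.2
    · rw [red_cons] at hL
      rw [split, red_cons]
      refine ⟨mul_mem (Subgroup.mem_sup_left hL.1) (wprod_mem _ (split_red1 L hL.2.2)), ?_,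
        ih hL.2.2⟩
      intro v hv
      cases L with
      | nil => simp [split] at hv
      | cons u L =>
        have h3 := hL.2.1 u (by simp)
        have h4 := split_red1 (a := a) _ hL.2.2
        obtain ⟨i' | j', e', y'⟩ := u
        · unfold Rl
          rintro ⟨-, -, g3⟩
          simp only at g3
          have g4 := hf _ (by simp [split]) h4
          apply g4
          rw [show wprod a (split a ((Sum.inl i', e', y') :: L)).1 = y⁻¹ from
            (inv_eq_of_mul_eq_one_right g3).symm]
          exact inv_mem hL.1
        · simp only [split, List.head?_cons, Option.mem_def, Option.some.injEq] at hv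
          subst hv
          simpa [Rl, split, wprod_nil] using h3

theorem split_ne (L : List ((α ⊕ β) × Bool × G)) (hL : L ≠ []) (h1 : (split a L).1 = []) :
    (split a L).2 ≠ [] := by
  cases L with
  | nil => exact absurd rfl hL
  | cons x L =>
    obtain ⟨i | j, e, y⟩ := x
    · simp [split] at h1
    · simp [split]

end Assoc

end FA

open FA in
/-- E1: free families, associativity -/
theorem stFAssoc : StFAssoc := by
  intro G _ Y α β a b
  constructor
  · intro h
    refine ⟨?_, ?_⟩
    · intro l h1 h2
      rw [← wprod_inj (b := b)]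
      refine h _ ?_ (red_inj h2)
      cases l with
      | nil => exact absurd rfl h1
      | cons x l => simp [inj_cons]
    · rw [freeOver_iff]
      intro L h1 h2 h3
      obtain ⟨L', g1, g2, -, g3⟩ := expand (b := b) L h2
      refine h L' ?_ g1 ?_
      · intro h0
        cases L with
        | nil => exact absurd rfl h1
        | cons x L =>
          obtain ⟨y, hy, -⟩ := g3 x (by simp)
          rw [h0] at hy
          simp at hy
      · rw [g2, h3]
        exact one_mem _
  · rintro ⟨h1, h2⟩
    rw [freeOver_iff]
    intro L h3 h4 h5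
    rw [wprod_split (a := a)] at h5
    by_cases h6 : (split a L).2 = []
    · have h7 : (split a L).1 ≠ [] := fun h => split_ne L h3 h h6
      rw [h6, wprod_nil, mul_one] at h5
      exact (freeOver_iff.1 h1) _ h7 (split_red1 L h4) h5
    · refine h2 _ h6 (split_red2 h1 L h4) ?_
      rw [show wprod b (split a L).2 = (wprod a (split a L).1)⁻¹ from
        (inv_eq_of_mul_eq_one_right h5).symm]
      exact inv_mem (wprod_mem _ (split_red1 L h4))

end Pool.Agent.D6b
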