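import Mathlib

/-!
MP_d6b03d_al: statement-level definitions (Frobenius groups inside an arbitrary group).
-/

set_option autoImplicit false

namespace Pool.Agent.D6b

variable {G : Type} [Group G]

/-- `C ^ g = g⁻¹ C g` -/
def conjBy (C : Subgroup G) (g : G) : Subgroup G := C.map (MulAut.conj g⁻¹).toMonoidHom

/-- The subgroup `L` is a Frobenius group with kernel `F` and complement `C` (literally as in the
problem file; `F = 1` is not excluded here). -/
structure IsFrob (L F C : Subgroup G) : Prop where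
  kernel_le : F ≤ L
  compl_le : C ≤ L
  normal : ∀ g ∈ L, ∀ f ∈ F, g⁻¹ * f * g ∈ F
  sup_eq : F ⊔ C = L
  inf_eq : F ⊓ C = ⊥
  mal : ∀ g ∈ L, g ∉ C → C ⊓ conjBy C g = ⊥
  cover : (F : Set G) \ {1} = (L : Set G) \ ⋃ g ∈ L, (conjBy C g : Set G)

/-- `U(a)`: the union of the kernels of the subgroups which are Frobenius groups with
complement `⟨a⟩`. -/
def UU (a : G) : Set G := {x | ∃ L F : Subgroup G, IsFrob L F (Subgroup.zpowers a) ∧ x ∈ F}

/-- The same with nontrivial kernels only. -/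
def UU' (a : G) : Set G :=
  {x | ∃ L F : Subgroup G, F ≠ ⊥ ∧ IsFrob L F (Subgroup.zpowers a) ∧ x ∈ F}

/-- The standing hypothesis (*), with a nontrivial kernel. -/
def Star (H : Subgroup G) (a : G) : Prop :=
  H ≠ ⊤ ∧ a ∈ H ∧ a ^ 2 ≠ 1 ∧
  ∀ g : G, g ∉ H → ∃ F C : Subgroup G, F ≠ ⊥ ∧
    IsFrob (Subgroup.closure {a, g⁻¹ * a * g}) F C ∧ a ∈ C

end Pool.Agent.D6b
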