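import Pool.Agent.Lib.MP_d6b03d_al.Defs
import Pool.Agent.Lib.MP_d6b03d_al.Stmts
import Pool.Agent.Lib.MP_d6b03d_al.FinalDefs

set_option autoImplicit false

namespace Pool.Agent.D6b

open Multiplicative Base

section

variable {H : Type} [Group H] [Base H] {G : Type} [Group G] {pr : G →* H} {em : H →* G}

theorem mem_conjBy {C : Subgroup G} {g x : G} : x ∈ conjBy C g ↔ ∃ c ∈ C, g⁻¹ * c * g = x := by
  unfold conjBy
  simp [Subgroup.mem_map, MulAut.conj_apply]

/-- K-conjugacy -/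
theorem kconj (sec : ∀ h, pr (em h) = h) (hc : ∀ g, pr g ≠ 1 → ConjH em g) (g : G)
    (hg : pr g ≠ 1) : ∃ κ, pr κ = 1 ∧ g = κ * em (pr g) * κ⁻¹ := by
  obtain ⟨γ, h, rfl⟩ := hc g hg
  refine ⟨γ * (em (pr γ))⁻¹, by simp [sec], ?_⟩
  simp only [map_mul, map_inv, sec]
  group

theorem cent_em (sec : ∀ h, pr (em h) = h)
    (cen : ∀ h, h ≠ 1 → ∀ x, pr x = 1 → x * em h = em h * x → x = 1)
    (d : H) (hd : d ≠ 1) (z : G) (hz : z * em d = em d * z) : z = em (pr z) := by
  have h1 : pr z * d = d * pr z := by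
    have := congrArg pr hz
    simpa [sec] using this
  have h2 : (z * (em (pr z))⁻¹) * em d = em d * (z * (em (pr z))⁻¹) := by
    have h3 : (em (pr z))⁻¹ * em d = em d * (em (pr z))⁻¹ := by
      rw [← map_inv, ← map_mul, ← map_mul]
      congr 1
      rw [inv_mul_eq_iff_eq_mul, ← mul_assoc, h1, mul_assoc, mul_inv_cancel, mul_one]
    rw [mul_assoc, h3, ← mul_assoc, hz, mul_assoc]
  have h4 := cen d hd _ (by simp [sec]) h2
  exact mul_inv_eq_one.1 h4

theorem th_ne_one : (th : H) ≠ 1 := by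
  intro h
  have h1 := hz_th (H := H)
  rw [h, map_one] at h1
  have := congrArg toAdd h1
  simp at this

/-- the intersection of `⟨a, a ^ g⟩` with the kernel is not trivial -/
theorem key (sec : ∀ h, pr (em h) = h) (hc : ∀ g, pr g ≠ 1 → ConjH em g)
    (cen : ∀ h, h ≠ 1 → ∀ x, pr x = 1 → x * em h = em h * x → x = 1)
    (g : G) (hg : g ∉ em.range) :
    ∃ k ∈ Subgroup.closure {em th, g⁻¹ * em th * g}, pr k = 1 ∧ k ≠ 1 := by
  by_contra hcon
  push Not at hcon
  set L := Subgroup.closure {em th, g⁻¹ * em th * g} with hL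
  have haL : em th ∈ L := Subgroup.subset_closure (by simp)
  have hbL : g⁻¹ * em th * g ∈ L := Subgroup.subset_closure (by simp)
  set h := pr g with hh
  set f := (em h)⁻¹ * g with hf
  have hfg : g = em h * f := by rw [hf]; group
  have hf1 : f ≠ 1 := by
    intro h1
    apply hg
    rw [hfg, h1, mul_one]
    exact ⟨h, rfl⟩
  have hprf : pr f = 1 := by rw [hf]; simp [sec, hh]
  set th' : H := h⁻¹ * th * h with hth'
  have hth'1 : th' ≠ 1 := by
    intro h1
    apply th_ne_one (H := H)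
    have : (th : H) = h * th' * h⁻¹ := by rw [hth']; group
    rw [this, h1]; group
  have hb : g⁻¹ * em th * g = f⁻¹ * em th' * f := by
    rw [hfg, hth', map_mul, map_mul, map_inv]; group
  set d : H := th⁻¹ * th' with hd
  have hzd : hz d = 1 := by
    rw [hd, hth']
    simp only [map_mul, map_inv]
    rw [mul_comm (hz h)⁻¹ (hz th)]
    group
  set l₁ : G := (em th)⁻¹ * (g⁻¹ * em th * g) with hl₁
  have hl₁L : l₁ ∈ L := L.mul_mem (L.inv_mem haL) hbL
  have hprl₁ : pr l₁ = d := by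
    rw [hl₁, hb]
    simp only [map_mul, map_inv, sec, hprf]
    rw [hd]; group
  have hend : g⁻¹ * em th * g = em th' → False := by
    intro h1
    rw [hb] at h1
    apply hf1
    apply cen th' hth'1 f hprf
    calc f * em th' = f * (f⁻¹ * em th' * f) := by rw [h1]
      _ = em th' * f := by group
  by_cases hd1 : d = 1
  · have h1 : l₁ = 1 := hcon l₁ hl₁L (by rw [hprl₁, hd1])
    have h2 : (em th : G) = em th' := by
      rw [hd] at hd1
      rw [inv_mul_eq_one.1 hd1]
    apply hend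
    rw [hl₁] at h1
    rw [← h2]
    exact (inv_mul_eq_one.1 h1).symm
  · obtain ⟨κ, hκ, hκ2⟩ := kconj sec hc l₁ (by rw [hprl₁]; exact hd1)
    rw [hprl₁] at hκ2
    set l₂ : G := (em th)⁻¹ * l₁ * em th with hl₂
    have hl₂L : l₂ ∈ L := L.mul_mem (L.mul_mem (L.inv_mem haL) hl₁L) haL
    have hprl₂ : pr l₂ = th⁻¹ * d * th := by
      rw [hl₂]; simp only [map_mul, map_inv, sec, hprl₁]
    have hz2 : hz (th⁻¹ * d * th) = 1 := by
      simp only [map_mul, map_inv, hzd]; group
    have hcomm : l₁ * l₂ = l₂ * l₁ := by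
      have h1 : l₁ * l₂ * (l₂ * l₁)⁻¹ = 1 := by
        apply hcon _ (L.mul_mem (L.mul_mem hl₁L hl₂L) (L.inv_mem (L.mul_mem hl₂L hl₁L)))
        simp only [map_mul, map_inv, hprl₁, hprl₂]
        rw [comm d (th⁻¹ * d * th) hzd hz2, mul_inv_cancel]
      exact mul_inv_eq_one.1 h1
    have h5 : (κ⁻¹ * l₂ * κ) * em d = em d * (κ⁻¹ * l₂ * κ) := by
      have h6 : em d = κ⁻¹ * l₁ * κ := by rw [hκ2]; group
      rw [h6]
      calc κ⁻¹ * l₂ * κ * (κ⁻¹ * l₁ * κ) = κ⁻¹ * (l₂ * l₁) * κ := by group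
        _ = κ⁻¹ * (l₁ * l₂) * κ := by rw [hcomm]
        _ = κ⁻¹ * l₁ * κ * (κ⁻¹ * l₂ * κ) := by group
    have h7 := cent_em sec cen d hd1 _ h5
    have h8 : pr (κ⁻¹ * l₂ * κ) = th⁻¹ * d * th := by
      simp only [map_mul, map_inv, hκ, hprl₂]; group
    rw [h8] at h7
    have h9 : l₂ = κ * ((em th)⁻¹ * em d * em th) * κ⁻¹ := by
      have : l₂ = κ * (κ⁻¹ * l₂ * κ) * κ⁻¹ := by group
      rw [this, h7]; simp only [map_mul, map_inv]
    have h10 : l₂ = (em th)⁻¹ * (κ * em d * κ⁻¹) * em th := by rw [hl₂, ← hκ2]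
    set z : G := κ⁻¹ * em th * κ * (em th)⁻¹ with hzz
    have h11 : z * em d = em d * z := by
      have h12 := h9.symm.trans h10
      -- κ t⁻¹ d t κ⁻¹ = t⁻¹ κ d κ⁻¹ t
      have h13 : z * em d * z⁻¹ = em d := by
        rw [hzz]
        calc κ⁻¹ * em th * κ * (em th)⁻¹ * em d * (κ⁻¹ * em th * κ * (em th)⁻¹)⁻¹
            = κ⁻¹ * em th * (κ * ((em th)⁻¹ * em d * em th) * κ⁻¹) * (em th)⁻¹ * κ := by group
          _ = κ⁻¹ * em th * ((em th)⁻¹ * (κ * em d * κ⁻¹) * em th) * (em th)⁻¹ * κ := by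
              rw [h12]
          _ = em d := by group
      calc z * em d = z * em d * z⁻¹ * z := by group
        _ = em d * z := by rw [h13]
    have h14 : z = 1 := by
      apply cen d hd1 z _ h11
      rw [hzz]; simp only [map_mul, map_inv, hκ, sec]; group
    have h15 : κ = 1 := by
      apply cen th th_ne_one κ hκ
      have : κ * em th = κ * z * em th := by rw [h14, mul_one]
      rw [this, hzz]
      -- κ κ⁻¹ t κ t⁻¹ t
      group
    apply hend
    rw [h15] at hκ2
    have h16 : l₁ = em d := by rw [hκ2]; group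
    have : g⁻¹ * em th * g = em th * l₁ := by rw [hl₁]; group
    rw [this, h16, ← map_mul]
    congr 1
    rw [hd]; group

theorem final_star (sec : ∀ h, pr (em h) = h) (hK : ∃ x, pr x = 1 ∧ x ≠ 1)
    (hc : ∀ g, pr g ≠ 1 → ConjH em g)
    (cen : ∀ h, h ≠ 1 → ∀ x, pr x = 1 → x * em h = em h * x → x = 1)
    (gen : ∀ k u, pr k = 1 → k ≠ 1 → pr u = 1 → u ∈ Mcl (em (th : H)) k) :
    Star em.range (em th) := by
  obtain ⟨x₀, hx₀, hx₀1⟩ := hK
  refine ⟨?_, ⟨th, rfl⟩, ?_, ?_⟩
  · intro htop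
    have : x₀ ∈ em.range := by rw [htop]; trivial
    obtain ⟨h, rfl⟩ := this
    rw [sec] at hx₀
    exact hx₀1 (by rw [hx₀, map_one])
  · intro h
    have h1 := congrArg (fun x => hz (pr x)) h
    simp only [map_pow, sec, hz_th, map_one] at h1
    have := congrArg toAdd h1
    simp at this
  · intro g hg
    obtain ⟨k, hkL, hk1, hk⟩ := key sec hc cen g hg
    set L := Subgroup.closure {em th, g⁻¹ * em th * g} with hL
    have haL : em th ∈ L := Subgroup.subset_closure (by simp)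
    have hKL : pr.ker ≤ L := by
      intro u hu
      have h1 := gen k u hk1 hk hu
      refine (Subgroup.closure_le L).2 ?_ h1
      rintro _ ⟨i, rfl⟩
      exact L.mul_mem (L.mul_mem (L.zpow_mem haL i) hkL) (L.inv_mem (L.zpow_mem haL i))
    have hemL : ∀ l ∈ L, em (pr l) ∈ L := by
      intro l hl
      have h1 : l * (em (pr l))⁻¹ ∈ L := hKL (by simp [MonoidHom.mem_ker, sec])
      have h2 : em (pr l) = (l * (em (pr l))⁻¹)⁻¹ * l := by group
      rw [h2]
      exact L.mul_mem (L.inv_mem h1) hl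
    refine ⟨pr.ker, em.range ⊓ L, ?_, ?_, ⟨⟨th, rfl⟩, haL⟩⟩
    · intro h
      have : x₀ ∈ pr.ker := hx₀
      rw [h] at this
      exact hx₀1 (Subgroup.mem_bot.1 this)
    · refine ⟨hKL, inf_le_right, ?_, ?_, ?_, ?_, ?_⟩
      · intro x _ f hf
        rw [MonoidHom.mem_ker] at hf ⊢
        simp [hf]
      · apply le_antisymm (sup_le hKL inf_le_right)
        intro l hl
        have h2 : l = (l * (em (pr l))⁻¹) * em (pr l) := by group
        rw [h2]
        exact Subgroup.mul_mem_sup (by simp [MonoidHom.mem_ker, sec])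
          ⟨⟨pr l, rfl⟩, hemL l hl⟩
      · rw [Subgroup.eq_bot_iff_forall]
        rintro x ⟨hx1, ⟨h, rfl⟩, _⟩
        have : h = 1 := by
          have h3 : pr (em h) = 1 := hx1
          rwa [sec] at h3
        rw [this, map_one]
      · intro x hxL hx
        rw [Subgroup.eq_bot_iff_forall]
        rintro c ⟨⟨⟨c₁, rfl⟩, _⟩, hc2⟩
        obtain ⟨_, ⟨⟨c₂, rfl⟩, _⟩, hc3⟩ := mem_conjBy.1 hc2
        have hxr : x ∉ em.range := fun h => hx ⟨h, hxL⟩
        have hκ : (em (pr x))⁻¹ * x ≠ 1 := by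
          intro h
          apply hxr
          exact ⟨pr x, inv_mul_eq_one.1 h⟩
        have hpr : (pr x)⁻¹ * c₂ * pr x = c₁ := by
          have := congrArg pr hc3
          simpa [sec] using this
        by_contra hne
        have hc1 : c₁ ≠ 1 := by
          rintro rfl
          exact hne (map_one em)
        apply hκ
        apply cen c₁ hc1 _ (by simp [sec])
        have h4 : em c₂ = em (pr x) * em c₁ * (em (pr x))⁻¹ := by
          rw [← hpr]; simp only [map_mul, map_inv]; group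
        rw [h4] at hc3
        calc (em (pr x))⁻¹ * x * em c₁
            = (em (pr x))⁻¹ * x * (x⁻¹ * (em (pr x) * em c₁ * (em (pr x))⁻¹) * x) := by rw [hc3]
          _ = em c₁ * ((em (pr x))⁻¹ * x) := by group
      · ext x
        simp only [Set.mem_sdiff, SetLike.mem_coe, Set.mem_singleton_iff, Set.mem_iUnion,
          not_exists]
        constructor
        · rintro ⟨hx1, hx2⟩
          refine ⟨hKL hx1, ?_⟩
          intro y _ hxy
          obtain ⟨_, ⟨⟨c, rfl⟩, _⟩, h5⟩ := mem_conjBy.1 hxy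
          have h6 : pr x = 1 := hx1
          rw [← h5] at h6
          simp only [map_mul, map_inv, sec] at h6
          have h7 : c = 1 := by
            have : c = pr y * ((pr y)⁻¹ * c * pr y) * (pr y)⁻¹ := by group
            rw [this, h6]; group
          apply hx2
          rw [← h5, h7, map_one]; group
        · rintro ⟨hxL, hx⟩
          constructor
          · rw [MonoidHom.mem_ker]
            by_contra hne
            obtain ⟨κ, hκ1, hκ2⟩ := kconj sec hc x hne
            refine hx κ⁻¹ (L.inv_mem (hKL hκ1)) (mem_conjBy.2 ⟨em (pr x), ⟨⟨_, rfl⟩, hemL x hxL⟩, ?_⟩)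
            rw [inv_inv]; exact hκ2.symm
          · rintro rfl
            exact hx 1 L.one_mem (mem_conjBy.2 ⟨1, Subgroup.one_mem _, by group⟩)

/-- the kernels coming from the base group -/
theorem kernel_frob (sec : ∀ h, pr (em h) = h) (V : Subgroup H)
    (hV : ∀ x : H, x ∈ V → hz x = 1) (hst : ∀ x : H, x ∈ V ↔ th * x * th⁻¹ ∈ V)
    (hsurj : ∀ m : ℤ, m ≠ 0 → ∀ x : H, x ∈ V → ∃ y : H, y ∈ V ∧ y * th ^ m * y⁻¹ = x * th ^ m)
    (hinj : ∀ m : ℤ, m ≠ 0 → ∀ x : H, x ∈ V → x * th ^ m = th ^ m * x → x = 1) :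
    IsFrob (V.map em ⊔ Subgroup.zpowers (em th)) (V.map em) (Subgroup.zpowers (em th)) := by
  have heminj : Function.Injective em := fun x y hxy => by
    have := congrArg pr hxy
    rwa [sec, sec] at this
  -- `V` is stable under conjugation by powers of `th`
  have hpow : ∀ (m : ℕ) (x : H), x ∈ V → th ^ m * x * (th ^ m)⁻¹ ∈ V ∧
      (th ^ m)⁻¹ * x * th ^ m ∈ V := by
    intro m
    induction m with
    | zero => intro x hx; simpa using hx
    | succ m ih =>
      intro x hx
      constructor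
      · have h1 := (hst _).1 (ih x hx).1
        have h2 : th * (th ^ m * x * (th ^ m)⁻¹) * th⁻¹ = th ^ (m + 1) * x * (th ^ (m + 1))⁻¹ := by
          rw [pow_succ']; group
        rwa [h2] at h1
      · have h0 : th⁻¹ * ((th ^ m)⁻¹ * x * th ^ m) * th ∈ V := by
          rw [hst]
          have : th * (th⁻¹ * ((th ^ m)⁻¹ * x * th ^ m) * th) * th⁻¹ =
              (th ^ m)⁻¹ * x * th ^ m := by group
          rw [this]
          exact (ih x hx).2
        have h2 : th⁻¹ * ((th ^ m)⁻¹ * x * th ^ m) * th = (th ^ (m + 1))⁻¹ * x * th ^ (m + 1) := by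
          rw [pow_succ]; group
        rwa [h2] at h0
  have hzpow : ∀ (m : ℤ) (x : H), x ∈ V → th ^ m * x * (th ^ m)⁻¹ ∈ V := by
    intro m x hx
    obtain ⟨n, rfl | rfl⟩ := m.eq_nat_or_neg
    · simpa using (hpow n x hx).1
    · simpa using (hpow n x hx).2
  -- every element of `L` has the form `em x * a ^ m`
  have hform : ∀ g ∈ V.map em ⊔ Subgroup.zpowers (em th),
      ∃ x ∈ V, ∃ m : ℤ, g = em x * em th ^ m := by
    intro g hg
    have hsub : V.map em ⊔ Subgroup.zpowers (em th) ≤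
        { carrier := {g | ∃ x ∈ V, ∃ m : ℤ, g = em x * em th ^ m}
          mul_mem' := by
            rintro _ _ ⟨x, hx, m, rfl⟩ ⟨y, hy, n, rfl⟩
            refine ⟨x * (th ^ m * y * (th ^ m)⁻¹), V.mul_mem hx (hzpow m y hy), m + n, ?_⟩
            simp only [map_mul, map_inv, map_zpow]
            group
          one_mem' := ⟨1, V.one_mem, 0, by simp⟩
          inv_mem' := by
            rintro _ ⟨x, hx, m, rfl⟩
            refine ⟨th ^ (-m) * x⁻¹ * (th ^ (-m))⁻¹, hzpow (-m) _ (V.inv_mem hx), -m, ?_⟩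
            simp only [map_mul, map_inv, map_zpow]
            group : Subgroup G } := by
      apply sup_le
      · rintro _ ⟨x, hx, rfl⟩
        exact ⟨x, hx, 0, by simp⟩
      · rintro _ ⟨m, rfl⟩
        exact ⟨1, V.one_mem, m, by simp⟩
    exact hsub hg
  have hhz : ∀ (x : H) (m : ℤ), x ∈ V → toAdd (hz (x * th ^ m)) = m := by
    intro x m hx
    rw [map_mul, hV x hx, map_zpow, hz_th]
    simp
  refine ⟨le_sup_left, le_sup_right, ?_, rfl, ?_, ?_, ?_⟩
  · intro g hg f hf
    obtain ⟨x, hx, m, rfl⟩ := hform g hg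
    obtain ⟨y, hy, rfl⟩ := hf
    refine ⟨th ^ (-m) * (x⁻¹ * y * x) * (th ^ (-m))⁻¹, hzpow (-m) _
      (V.mul_mem (V.mul_mem (V.inv_mem hx) hy) hx), ?_⟩
    simp only [map_mul, map_inv, map_zpow]
    group
  · rw [Subgroup.eq_bot_iff_forall]
    rintro _ ⟨⟨x, hx, rfl⟩, m, hm⟩
    have h1 : x = th ^ m := heminj (by rw [map_zpow]; exact hm.symm)
    have h2 := hhz 1 m V.one_mem
    rw [one_mul, ← h1, hV x hx] at h2
    have h3 : m = 0 := by simpa using h2.symm
    rw [h1, h3]; simp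
  · intro g hg hgC
    obtain ⟨x, hx, m, rfl⟩ := hform g hg
    rw [Subgroup.eq_bot_iff_forall]
    rintro _ ⟨⟨i, rfl⟩, hc⟩
    obtain ⟨_, ⟨j, rfl⟩, h1⟩ := mem_conjBy.1 hc
    have hx1 : x ≠ 1 := by
      rintro rfl
      exact hgC ⟨m, by simp⟩
    have h2 : (x * th ^ m)⁻¹ * th ^ j * (x * th ^ m) = th ^ i := by
      apply heminj
      simpa only [map_mul, map_inv, map_zpow] using h1
    have h3 : j = i := by
      have := congrArg (fun y => toAdd (hz y)) h2
      simp only [map_mul, map_inv, map_zpow, hV x hx, hz_th] at this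
      simp at this
      omega
    subst h3
    have h4 : x * th ^ j = th ^ j * x := by
      have h5 : th ^ j * x * th ^ m = x * th ^ m * th ^ j := by
        calc th ^ j * x * th ^ m
            = (x * th ^ m) * ((x * th ^ m)⁻¹ * th ^ j * (x * th ^ m)) := by group
          _ = x * th ^ m * th ^ j := by rw [h2]
      have h6 : (th : H) ^ m * th ^ j = th ^ j * th ^ m := by rw [← zpow_add, ← zpow_add, add_comm]
      rw [mul_assoc x, h6, ← mul_assoc] at h5
      exact (mul_right_cancel h5).symm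
    by_cases hj : j = 0
    · rw [hj]; simp
    · exact absurd (hinj j hj x hx h4) hx1
  · ext g
    simp only [Set.mem_sdiff, SetLike.mem_coe, Set.mem_singleton_iff, Set.mem_iUnion, not_exists]
    constructor
    · rintro ⟨⟨x, hx, rfl⟩, hx1⟩
      refine ⟨Subgroup.mem_sup_left ⟨x, hx, rfl⟩, ?_⟩
      intro y hy hxy
      obtain ⟨_, ⟨j, rfl⟩, h1⟩ := mem_conjBy.1 hxy
      obtain ⟨z, hz', m, rfl⟩ := hform y hy
      have h2 : (z * th ^ m)⁻¹ * th ^ j * (z * th ^ m) = x := by
        apply heminj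
        simpa only [map_mul, map_inv, map_zpow] using h1
      have h3 : j = 0 := by
        have := congrArg (fun y => toAdd (hz y)) h2
        simp only [map_mul, map_inv, map_zpow, hV x hx, hV z hz', hz_th] at this
        simpa using this
      apply hx1
      rw [← h2, h3]; simp
    · rintro ⟨hg, hx⟩
      obtain ⟨x, hxV, m, rfl⟩ := hform g hg
      by_cases hm : m = 0
      · subst hm
        refine ⟨⟨x, hxV, by simp⟩, ?_⟩
        intro h1
        rw [h1] at hx
        exact hx 1 (Subgroup.one_mem _) (mem_conjBy.2 ⟨1, Subgroup.one_mem _, by group⟩)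
      · exfalso
        obtain ⟨y, hy, h1⟩ := hsurj m hm x hxV
        refine hx (em y)⁻¹ (Subgroup.mem_sup_left ((V.map em).inv_mem ⟨y, hy, rfl⟩))
          (mem_conjBy.2 ⟨em th ^ m, ⟨m, rfl⟩, ?_⟩)
        rw [inv_inv, ← map_zpow, ← map_inv, ← map_mul, ← map_mul, ← map_mul, h1]

theorem not_mem_UU (n : G) (a : G) (ha : a ≠ 1) (hn : n ≠ 1) (hc : n * a = a * n) :
    n ∉ UU a := by
  rintro ⟨L, F, hF, hnF⟩
  have hnC : n ∉ Subgroup.zpowers a := by
    intro h
    have : n ∈ F ⊓ Subgroup.zpowers a := ⟨hnF, h⟩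
    rw [hF.inf_eq] at this
    exact hn (Subgroup.mem_bot.1 this)
  have h1 := hF.mal n (hF.kernel_le hnF) hnC
  have h2 : a ∈ Subgroup.zpowers a ⊓ conjBy (Subgroup.zpowers a) n := by
    refine ⟨Subgroup.mem_zpowers a, mem_conjBy.2 ⟨a, Subgroup.mem_zpowers a, ?_⟩⟩
    rw [mul_assoc, ← hc]; group
  rw [h1] at h2
  exact ha (Subgroup.mem_bot.1 h2)

end

theorem counter_aux (H : Type) [Group H] [Base H] [Countable H] (htk : TwoKernels H)
    (hLim : StLimit) (hT : Tasks H) :
    ∃ (G : Type) (_ : Group G) (H : Subgroup G) (a : G), Star H a ∧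
      (∀ n : ℕ, 0 < n → a ^ n ≠ 1) ∧ ∃ x ∈ UU' a, ∃ y ∈ UU' a, x * y ∉ UU a := by
  obtain ⟨V₁, V₂, hV₁, hV₂, hs₁, hs₂, hsj₁, hsj₂, hi₁, hi₂, v₁, v₂, hv₁, hv₂,
    hne, hcomm⟩ := htk
  obtain ⟨G, iG, pr, em, sec, hK, hc, cen, gen⟩ := hLim H hT
  have heminj : Function.Injective em := fun x y hxy => by
    have := congrArg pr hxy
    rwa [sec, sec] at this
  have hv₁1 : v₁ ≠ 1 := by
    rintro rfl
    apply hne
    rw [one_mul]
    apply hi₂ 1 one_ne_zero v₂ hv₂
    simpa using hcomm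
  have hv₂1 : v₂ ≠ 1 := by
    rintro rfl
    apply hne
    rw [mul_one]
    apply hi₁ 1 one_ne_zero v₁ hv₁
    simpa using hcomm
  refine ⟨G, iG, em.range, em th, final_star sec hK hc cen gen, ?_, em v₁, ?_, em v₂, ?_, ?_⟩
  · intro n hn h
    have h1 := congrArg (fun x => toAdd (hz (pr x))) h
    simp only [map_pow, sec, hz_th, map_one] at h1
    simp at h1
    omega
  · refine ⟨_, V₁.map em, ?_, kernel_frob sec V₁ hV₁ hs₁ hsj₁ hi₁, ⟨v₁, hv₁, rfl⟩⟩
    intro h
    have : em v₁ ∈ V₁.map em := ⟨v₁, hv₁, rfl⟩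
    rw [h] at this
    apply hv₁1
    apply heminj
    rw [map_one]; exact Subgroup.mem_bot.1 this
  · refine ⟨_, V₂.map em, ?_, kernel_frob sec V₂ hV₂ hs₂ hsj₂ hi₂, ⟨v₂, hv₂, rfl⟩⟩
    intro h
    have : em v₂ ∈ V₂.map em := ⟨v₂, hv₂, rfl⟩
    rw [h] at this
    apply hv₂1
    apply heminj
    rw [map_one]; exact Subgroup.mem_bot.1 this
  · rw [← map_mul]
    apply not_mem_UU
    · intro h
      apply th_ne_one (H := H)
      apply heminj
      rw [h, map_one]
    · intro h
      apply hne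
      apply heminj
      rw [h, map_one]
    · rw [← map_mul, hcomm, map_mul]

/-- The counterexample, from the limit group and the base group. -/
theorem counterexample (hB : StBaseEx) (hLim : StLimit)
    (hT : ∀ (H : Type) [Group H] [Base H] [Countable H], Tasks H) :
    ∃ (G : Type) (_ : Group G) (H : Subgroup G) (a : G), Star H a ∧
      (∀ n : ℕ, 0 < n → a ^ n ≠ 1) ∧ ∃ x ∈ UU' a, ∃ y ∈ UU' a, x * y ∉ UU a := by
  obtain ⟨H, i, j, hcount, htk⟩ := hB
  exact counter_aux H htk hLim (hT H)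

end Pool.Agent.D6b
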