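import Pool.Agent.Lib.MP_d6b03d_al.Stmts

/-!
MP_d6b03d_al: module P3, the fixed part of the standard line.
-/

set_option autoImplicit false

namespace Pool.Agent.D6b

open Multiplicative Base

open Classical in
theorem stFixInt (T4 : StBtwU) (B0 : StBasic) : StFixInt := by
  intro G _ X t η D Nn gh k hk hkN
  obtain ⟨act, ninv, line, tvx, fixiff, adjiff, gen, fixht⟩ := B0 G X t η
  have line1 := line gh.td
  have fixb : ∀ (p q r : G ⧸ X), k • p = p → k • q = q → Btw (CG X t) p r q →
      k • r = r := fun p q r => (T4 (G ⧸ X) (CG X t) gh.td.tree).2 G act k p q r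
  have h0 : k • vx t X 0 = vx t X 0 := by
    unfold vx
    rw [fixiff]
    simpa using hk
  have btw : ∀ i j l : ℤ, i ≤ j → j ≤ l → Btw (CG X t) (vx t X i) (vx t X j) (vx t X l) := by
    intro i j l h1 h2
    unfold Btw
    rw [line1, line1, line1]
    omega
  have conv : ∀ i j l : ℤ, i ≤ j → j ≤ l → k • vx t X i = vx t X i → k • vx t X l = vx t X l →
      k • vx t X j = vx t X j := fun i j l h1 h2 hi hl => fixb _ _ _ hi hl (btw i j l h1 h2)
  have hD : ¬ k • vx t X (D : ℤ) = vx t X (D : ℤ) := by
    intro h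
    exact hkN (gh.F3 k 0 h0 (by simpa using h))
  have hD' : ¬ k • vx t X (-(D : ℤ)) = vx t X (-(D : ℤ)) := by
    intro h
    exact hkN (gh.F3 k (-(D : ℤ)) h (by simpa using h0))
  let P : ℕ → Prop := fun j => k • vx t X (j : ℤ) = vx t X (j : ℤ)
  let Q : ℕ → Prop := fun j => k • vx t X (-(j : ℤ)) = vx t X (-(j : ℤ))
  have hP : P (Nat.findGreatest P D) :=
    Nat.findGreatest_spec (m := 0) (Nat.zero_le _) (by simpa [P] using h0)
  have hQ : Q (Nat.findGreatest Q D) :=
    Nat.findGreatest_spec (m := 0) (Nat.zero_le _) (by simpa [Q] using h0)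
  refine ⟨Nat.findGreatest Q D, Nat.findGreatest P D, ?_⟩
  intro i
  constructor
  · intro hi
    have hi1 : i < D := by
      by_contra hc
      exact hD (conv 0 D i (by omega) (by omega) h0 hi)
    have hi2 : -(D : ℤ) < i := by
      by_contra hc
      exact hD' (conv i (-(D : ℤ)) 0 (by omega) (by omega) hi h0)
    constructor
    · rcases le_or_gt 0 i with hs | hs
      · omega
      · have : (-i).toNat ≤ Nat.findGreatest Q D := by
          apply Nat.le_findGreatest (by omega)
          change k • vx t X (-(((-i).toNat : ℕ) : ℤ)) = vx t X (-(((-i).toNat : ℕ) : ℤ))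
          have e : (-(((-i).toNat : ℕ) : ℤ)) = i := by omega
          rw [e]; exact hi
        omega
    · rcases le_or_gt 0 i with hs | hs
      · have : i.toNat ≤ Nat.findGreatest P D := by
          apply Nat.le_findGreatest (by omega)
          change k • vx t X ((i.toNat : ℕ) : ℤ) = vx t X ((i.toNat : ℕ) : ℤ)
          have e : ((i.toNat : ℕ) : ℤ) = i := by omega
          rw [e]; exact hi
        omega
      · omega
  · rintro ⟨ha, hb⟩
    exact conv _ i _ ha hb hQ hP

end Pool.Agent.D6b
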