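import Pool.Agent.Lib.MP_d6b03d_al.Tools
import Pool.Agent.Lib.MP_d6b03d_al.Basic

/-!
P5: free over all `t X_n t⁻¹` (helper54).
-/

set_option autoImplicit false

namespace Pool.Agent.D6b

open Multiplicative Base

namespace FrY

section

variable {V : Type} {S : SimpleGraph V}

/-- twice the Gromov product -/
noncomputable def gp (S : SimpleGraph V) (o p q : V) : ℤ :=
  (S.dist o p : ℤ) + S.dist o q - S.dist p q

theorem gp_comm (o p q : V) : gp S o p q = gp S o q p := by
  unfold gp
  rw [SimpleGraph.dist_comm (u := p) (v := q)]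
  ring

theorem gp_hyp (h1 : StFourPt) (hS : S.IsTree) {o p q r : V} {n : ℤ} (h : n ≤ gp S o p q)
    (h' : n ≤ gp S o q r) : n ≤ gp S o p r := by
  have h4 := h1 V S hS p r o q
  unfold gp at *
  rw [SimpleGraph.dist_comm (u := p) (v := o), SimpleGraph.dist_comm (u := r) (v := q),
    SimpleGraph.dist_comm (u := r) (v := o)] at h4
  rcases le_max_iff.1 h4 with h5 | h5 <;> omega

/-- a point at given distance between two points -/
theorem exists_btw (hS : S.IsTree) (p q : V) (n : ℕ) (hn : n ≤ S.dist p q) :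
    ∃ x : V, S.dist p x = n ∧ S.dist x q = S.dist p q - n := by
  obtain ⟨w, hw⟩ := hS.connected.exists_walk_length_eq_dist p q
  refine ⟨w.getVert n, ?_⟩
  have h1 : S.dist p (w.getVert n) ≤ n := by
    have := SimpleGraph.dist_le (w.take n)
    refine this.trans ?_
    rw [SimpleGraph.Walk.take_length]
    exact min_le_left _ _
  have h2 : S.dist (w.getVert n) q ≤ S.dist p q - n := by
    have := SimpleGraph.dist_le (w.drop n)
    refine this.trans ?_
    rw [SimpleGraph.Walk.drop_length, hw]
  have h3 := hS.connected.dist_triangle (u := p) (v := w.getVert n) (w := q)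
  omega

end

section

variable {G : Type} [Group G] {X : Subgroup G} {t : G} {η : G →* Multiplicative ℤ}

theorem par (hT : TD X t η) (u v : G ⧸ X) :
    ∃ k : ℤ, ((CG X t).dist u v : ℤ) = hgt η X u - hgt η X v + 2 * k := by
  obtain ⟨w, hw⟩ := hT.tree.connected.exists_walk_length_eq_dist u v
  rw [← hw]
  clear hw
  induction w with
  | nil => exact ⟨0, by simp⟩
  | cons h p ih =>
    obtain ⟨k, hk⟩ := ih
    have h2 := hgt_adj hT.ht hT.et h
    rw [SimpleGraph.Walk.length_cons]
    push_cast
    rw [hk]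
    rcases Int.natAbs_eq (hgt η X _ - hgt η X _) with h3 | h3
    · rw [h2] at h3
      exact ⟨k, by push_cast at h3; linarith⟩
    · rw [h2] at h3
      exact ⟨k + 1, by push_cast at h3; linarith⟩

theorem gp_even (hT : TD X t η) (o p q : G ⧸ X) : ∃ k : ℤ, gp (CG X t) o p q = 2 * k := by
  obtain ⟨a, ha⟩ := par hT o p
  obtain ⟨b, hb⟩ := par hT o q
  obtain ⟨c, hc⟩ := par hT p q
  unfold gp
  rw [ha, hb, hc]
  exact ⟨hgt η X o - hgt η X p + a + b - c, by ring⟩

end

end FrY

open FrY in
theorem stFreeY (h1 : StFourPt) (h0 : StBasic) (hP : StPP) (hD : StDir) : StFreeY := by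
  intro G _ X t η D Nn hG ι k y l c hk0 hk1 hy hy' hc hl hinj M
  have hT := hG.td
  have hS := hT.tree
  have hA : ActsOn (CG X t) G := (h0 G X t η).1
  have hL : IsLine (CG X t) (vx t X) := (h0 G X t η).2.2.1 hT
  have dsm : ∀ (g : G) (u v : G ⧸ X), (CG X t).dist (g • u) (g • v) = (CG X t).dist u v :=
    fun g u v => Tl.dist_smul hS hA g u v
  have hyp : ∀ {o p q r : G ⧸ X} {n : ℤ}, n ≤ gp (CG X t) o p q → n ≤ gp (CG X t) o q r →
      n ≤ gp (CG X t) o p r := fun h h' => gp_hyp h1 hS h h'
  have even : ∀ o p q : G ⧸ X, ∃ k : ℤ, gp (CG X t) o p q = 2 * k := gp_even hT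
  have gsm : ∀ (g : G) (o p q : G ⧸ X), gp (CG X t) (g • o) (g • p) (g • q) =
      gp (CG X t) o p q := by
    intro g o p q
    unfold gp
    rw [dsm, dsm, dsm]
  have gcm : ∀ o p q : G ⧸ X, gp (CG X t) o p q = gp (CG X t) o q p := fun o p q => gp_comm o p q
  have hgp : ∀ o p q : G ⧸ X, gp (CG X t) o p q =
    ((CG X t).dist o p : ℤ) + (CG X t).dist o q - (CG X t).dist p q := fun o p q => rfl
  have dnn : ∀ u v : G ⧸ X, (CG X t).dist u v = 0 → u = v := by
    intro u v h
    exact (hS.connected.dist_eq_zero_iff).1 h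
  obtain ⟨w, hw⟩ : ∃ w : ι → Bool → G, ∀ i e, w i e = if e then y i else (y i)⁻¹ :=
    ⟨_, fun i e => rfl⟩
  have hwd : ∀ i e (m : ℤ), (CG X t).dist (vx t X m) (w i e • vx t X 0) =
      (m - c i e).natAbs + (l i - c i e) := by
    intro i e m
    rw [hw]
    cases e
    · simpa using hy' i m
    · simpa using hy i m
  have hki : k⁻¹ • vx t X 0 = vx t X 0 := by rw [inv_smul_eq_iff, hk0]
  have hDp := hG.Dpos
  have hlc : ∀ i e, c i e + D < l i := by
    intro i e
    have h2 := hl i
    have h3 := hc i true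
    have h4 := hc i false
    cases e <;> omega
  -- points
  obtain ⟨z, hz⟩ : ∃ z : ι → Bool → G ⧸ X, ∀ i e, z i e = k • (w i e • vx t X 0) :=
    ⟨_, fun i e => rfl⟩
  have hz0 : ∀ i e, (CG X t).dist (vx t X 0) (z i e) = l i := by
    intro i e
    have h2 := dsm k (vx t X 0) (w i e • vx t X 0)
    rw [hk0, hwd] at h2
    rw [hz, h2]
    have h3 := hlc i e
    omega
  have hE1 : gp (CG X t) (vx t X 0) (vx t X 1) (k • vx t X 1) ≤ 0 := by
    obtain ⟨r, hr⟩ := even (vx t X 0) (vx t X 1) (k • vx t X 1)
    have h2 := dsm k (vx t X 0) (vx t X 1)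
    rw [hk0, hL] at h2
    have h3 := hL 0 1
    have h4 : (CG X t).dist (vx t X 1) (k • vx t X 1) ≠ 0 := fun h => hk1 (dnn _ _ h).symm
    rw [hgp] at hr ⊢
    omega
  have hE2 : ∀ i e, 2 ≤ gp (CG X t) (vx t X 0) (k • vx t X 1) (z i e) := by
    intro i e
    rw [hgp, hz0, hz, dsm, hwd]
    have h2 := dsm k (vx t X 0) (vx t X 1)
    rw [hk0, hL] at h2
    have h3 := hlc i e
    have h4 := hc i e
    omega
  have hL0 : ∀ q : G ⧸ X, 2 ≤ gp (CG X t) (vx t X 0) (vx t X 1) q → ∀ i e,
      gp (CG X t) (vx t X 0) q (z i e) ≤ 0 := by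
    intro q hq i e
    by_contra hcon
    obtain ⟨r, hr⟩ := even (vx t X 0) q (z i e)
    have h2 : 2 ≤ gp (CG X t) (vx t X 0) q (z i e) := by omega
    have h3 := hyp hq h2
    have h4 := hE2 i e
    rw [gcm] at h4
    have h5 := hyp h3 h4
    omega
  -- elements of `B`
  have hB : ∀ β ∈ cj t (Xn t X M), β • vx t X 0 ≠ vx t X 0 →
      2 ≤ gp (CG X t) (vx t X 0) (vx t X 1) (β • vx t X 0) := by
    intro β hβ hne
    rcases hD G X t η hT M β hβ with h | h
    · exact absurd h hne
    · rw [hgp, hL]
      omega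
  have hflip : ∀ (g : G) (p : G ⧸ X), gp (CG X t) (vx t X 0) (g • p) (g • vx t X 0) +
      gp (CG X t) (vx t X 0) p (g⁻¹ • vx t X 0) = 2 * (CG X t).dist (vx t X 0) (g • vx t X 0) := by
    intro g p
    have h2 := dsm g (g⁻¹ • vx t X 0) p
    rw [smul_inv_smul] at h2
    have h3 := dsm g (g⁻¹ • vx t X 0) (vx t X 0)
    rw [smul_inv_smul] at h3
    have h4 := dsm g p (vx t X 0)
    rw [hgp, hgp, h2, h3, h4, SimpleGraph.dist_comm (u := p) (v := vx t X 0),
      SimpleGraph.dist_comm (u := g⁻¹ • vx t X 0) (v := p),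
      SimpleGraph.dist_comm (u := g⁻¹ • vx t X 0) (v := vx t X 0)]
    ring
  have hazt : ∀ i, (k * y i * k⁻¹) • vx t X 0 = z i true := by
    intro i
    rw [mul_smul, mul_smul, hki, hz, hw]
    simp
  have hazf : ∀ i, (k * y i * k⁻¹)⁻¹ • vx t X 0 = z i false := by
    intro i
    rw [mul_inv_rev, mul_inv_rev, inv_inv, mul_smul, mul_smul, hki, hz, hw]
    simp
  apply hP G (G ⧸ X) ι (cj t (Xn t X M)) (fun i => k * y i * k⁻¹)
    (fun i e => {p | 2 * ((c i e : ℤ) + D) < gp (CG X t) (vx t X 0) p (z i e)}) (vx t X 0)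
  · intro β hβ i e
    simp only [Set.mem_ofPred_eq, not_lt]
    by_cases h : β • vx t X 0 = vx t X 0
    · rw [h, hgp]
      have h2 := hL 0 0
      omega
    · have h2 := hL0 _ (hB β hβ h) i e
      omega
  · intro i p hp
    simp only [Set.mem_ofPred_eq, not_lt] at hp ⊢
    have h2 := hflip (k * y i * k⁻¹) p
    rw [hazt, hazf, hz0] at h2
    have h3 := hl i
    omega
  · intro i p hp
    simp only [Set.mem_ofPred_eq, not_lt] at hp ⊢
    have h2 := hflip (k * y i * k⁻¹)⁻¹ p
    rw [inv_inv, hazt, hazf, hz0] at h2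
    have h3 := hl i
    omega
  · intro β hβ i e j d p hp hβp
    simp only [Set.mem_ofPred_eq] at hp hβp
    -- `k v₁` is between `v₀` and `p`
    have hkp : ∀ q i' e', 2 * ((c i' e' : ℤ) + D) < gp (CG X t) (vx t X 0) q (z i' e') →
        2 ≤ gp (CG X t) (vx t X 0) q (k • vx t X 1) := by
      intro q i' e' hq
      have h2 := hE2 i' e'
      rw [gcm] at h2
      exact hyp (by omega) h2
    by_cases hβ0 : β • vx t X 0 = vx t X 0
    swap
    · exfalso
      -- `v₁` is between `v₀` and `β p`
      have hβi : β⁻¹ • vx t X 0 ≠ vx t X 0 := by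
        intro h
        exact hβ0 (inv_smul_eq_iff.1 h).symm
      have h2 := hB β⁻¹ (inv_mem hβ) hβi
      have h3 : gp (CG X t) (vx t X 0) p (β⁻¹ • vx t X 0) ≤ 0 := by
        by_contra hcon
        obtain ⟨r, hr⟩ := even (vx t X 0) p (β⁻¹ • vx t X 0)
        have h4 : 2 ≤ gp (CG X t) (vx t X 0) p (β⁻¹ • vx t X 0) := by omega
        have h5 := hkp p j d hp
        rw [gcm] at h4
        have h6 := hyp (hyp h2 h4) h5
        omega
      have h4 := hflip β p
      have h5 := hB β hβ hβ0
      have h6 : (CG X t).dist (vx t X 0) (β • vx t X 0) ≠ 0 := fun h => hβ0 (dnn _ _ h).symm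
      have h7 : 2 ≤ gp (CG X t) (vx t X 0) (β • p) (β • vx t X 0) := by omega
      rw [gcm] at h7
      have h8 := hL0 _ (hyp h5 h7) i e
      omega
    · -- `β` fixes `v₀`
      obtain ⟨b, hb⟩ : ∃ b : G, b = k⁻¹ * β * k := ⟨_, rfl⟩
      obtain ⟨q, hq⟩ : ∃ q : G ⧸ X, q = k⁻¹ • p := ⟨_, rfl⟩
      have hb0 : b • vx t X 0 = vx t X 0 := by
        rw [hb, mul_smul, mul_smul, hk0, hβ0, hki]
      have hqj : 2 * ((c j d : ℤ) + D) < gp (CG X t) (vx t X 0) q (w j d • vx t X 0) := by
        have h2 := gsm k (vx t X 0) q (w j d • vx t X 0)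
        rw [hk0, hq, smul_inv_smul, ← hz] at h2
        rw [hq, ← h2]
        exact hp
      have hbq : 2 * ((c i e : ℤ) + D) < gp (CG X t) (vx t X 0) (b • q)
          (w i e • vx t X 0) := by
        have h2 := gsm k (vx t X 0) (b • q) (w i e • vx t X 0)
        have h3 : k • b • q = β • p := by
          rw [hb, hq, ← mul_smul, ← mul_smul]
          congr 1
          group
        rw [hk0, h3, ← hz] at h2
        rw [← h2]
        exact hβp
      have hgw : ∀ i' e' (m : ℕ), gp (CG X t) (vx t X 0) (vx t X m) (w i' e' • vx t X 0) =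
          2 * min (m : ℤ) (c i' e') := by
        intro i' e' m
        have h2 := hL 0 m
        have h3 := hwd i' e' 0
        have h4 := hwd i' e' m
        have h5 := hlc i' e'
        rw [hgp, h2, h3, h4]
        rcases le_total (m : ℤ) (c i' e') with h6 | h6
        · rw [min_eq_left h6]
          omega
        · rw [min_eq_right h6]
          omega
      have hgq : ∀ (i' : ι) (e' : Bool) (r : G ⧸ X) (m : ℕ),
          2 * ((c i' e' : ℤ) + D) < gp (CG X t) (vx t X 0) r (w i' e' • vx t X 0) →
          gp (CG X t) (vx t X 0) (vx t X m) r = 2 * min (m : ℤ) (c i' e') := by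
        intro i' e' r m hr
        have h2 := hgw i' e' m
        apply le_antisymm
        · by_contra hcon
          rw [not_le] at hcon
          have h3 : 2 * min (m : ℤ) (c i' e') + 1 ≤
              gp (CG X t) (vx t X 0) (vx t X m) r := by omega
          have h4 : 2 * min (m : ℤ) (c i' e') + 1 ≤
              gp (CG X t) (vx t X 0) r (w i' e' • vx t X 0) := by
            have := min_le_right (m : ℤ) (c i' e')
            omega
          have h5 := hyp h3 h4
          omega
        · have := min_le_right (m : ℤ) (c i' e')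
          exact hyp (q := w i' e' • vx t X 0) h2.ge (by rw [gcm]; omega)
      have hbm : ∀ m : ℕ, m ≤ c i e → m ≤ c j d → b • vx t X m = vx t X m := by
        intro m hm1 hm2
        have h2 := hgq j d q m hqj
        have h3 := hgq i e (b • q) m hbq
        have h4 := gsm b (vx t X 0) (vx t X m) q
        rw [hb0, h2, gcm] at h4
        have h5 : (2 * m : ℤ) ≤ gp (CG X t) (vx t X 0) (b • q) (b • vx t X m) := by
          rw [h4, min_eq_left (by exact_mod_cast hm2)]
        have h6 : (2 * m : ℤ) ≤ gp (CG X t) (vx t X 0) (vx t X m) (b • q) := by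
          rw [h3, min_eq_left (by exact_mod_cast hm1)]
        have h7 := hyp h6 h5
        have h8 := dsm b (vx t X 0) (vx t X m)
        have h9 := hL 0 m
        rw [hb0, h9] at h8
        rw [hgp, h8, h9] at h7
        exact (dnn _ _ (by omega)).symm
      have hbN : b ∈ Nn := by
        apply hG.F3 b 0 hb0
        rw [zero_add]
        exact hbm D (hc i e) (hc j d)
      have hcc : c i e = c j d := by
        have h2 := hgq j d q (max (c i e) (c j d)) hqj
        have h3 := hgq i e (b • q) (max (c i e) (c j d)) hbq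
        have h4 := gsm b (vx t X 0) (vx t X ((max (c i e) (c j d) : ℕ) : ℤ)) q
        rw [hb0, hG.NX b hbN, h2, h3] at h4
        push_cast at h4
        rcases le_total (c i e) (c j d) with h5 | h5
        · rw [max_eq_right (by exact_mod_cast h5), min_eq_left (le_refl _),
            min_eq_right (by exact_mod_cast h5)] at h4
          omega
        · rw [max_eq_left (by exact_mod_cast h5), min_eq_left (le_refl _),
            min_eq_right (by exact_mod_cast h5)] at h4
          omega
      obtain ⟨rfl, rfl⟩ := hinj i e j d hcc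
      refine ⟨?_, rfl, rfl⟩
      -- a vertex `x` far from the line, fixed by `b`
      have h0w := hwd i e 0
      have hlce := hlc i e
      obtain ⟨x, hx1, hx2⟩ := exists_btw hS (vx t X 0) (w i e • vx t X 0) (c i e + D + 1)
        (by rw [h0w]; omega)
      have hxw : 2 * ((c i e : ℤ) + D + 1) ≤ gp (CG X t) (vx t X 0) x (w i e • vx t X 0) := by
        rw [hgp, hx1, hx2, h0w]
        omega
      have hxq : 2 * ((c i e : ℤ) + D + 1) ≤ gp (CG X t) (vx t X 0) x q := by
        apply hyp hxw
        obtain ⟨r, hr⟩ := even (vx t X 0) q (w i e • vx t X 0)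
        rw [gcm]
        omega
      have hbx : b • x = x := by
        have h2 : 2 * ((c i e : ℤ) + D + 1) ≤ gp (CG X t) (vx t X 0) (b • q) (b • x) := by
          have h3 := gsm b (vx t X 0) x q
          rw [hb0, gcm] at h3
          rw [h3]
          exact hxq
        have h4 : 2 * ((c i e : ℤ) + D + 1) ≤
            gp (CG X t) (vx t X 0) (w i e • vx t X 0) (b • q) := by
          obtain ⟨r, hr⟩ := even (vx t X 0) (b • q) (w i e • vx t X 0)
          rw [gcm]
          omega
        have h5 := hyp (hyp hxw h4) h2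
        have h6 := dsm b (vx t X 0) x
        rw [hb0, hx1] at h6
        rw [hgp, h6, hx1] at h5
        exact (dnn _ _ (by push_cast at h5; omega)).symm
      by_contra hne
      have hb1 : b ≠ 1 := by
        intro h
        apply hne
        rw [h] at hb
        have : β = k * 1 * k⁻¹ := by
          rw [hb]
          group
        rw [this]
        group
      obtain ⟨m, hm⟩ := hG.F2 b hbN hb1 x hbx
      have h2 := hwd i e m
      have h3 := hS.connected.dist_triangle (u := vx t X m) (v := x) (w := w i e • vx t X 0)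
      rw [SimpleGraph.dist_comm (u := vx t X m) (v := x)] at h3
      omega

end Pool.Agent.D6b
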