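import Pool.Agent.Lib.MP_d6b03d_al.Basic

/-!
P7: general position, both sides.
-/

set_option autoImplicit false

namespace Pool.Agent.D6b

open Multiplicative Base

namespace Gen

section Conj

variable {G : Type} [Group G]

theorem mem_cj {t : G} {X : Subgroup G} {x : G} : x ∈ cj t X ↔ t⁻¹ * x * t ∈ X := by
  unfold cj
  rw [Subgroup.mem_map]
  constructor
  · rintro ⟨y, hy, rfl⟩
    have : t⁻¹ * ((MulAut.conj t).toMonoidHom y) * t = y := by
      simp only [MulEquiv.coe_toMonoidHom, MulAut.conj_apply]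
      group
    rw [this]; exact hy
  · intro h
    refine ⟨_, h, ?_⟩
    simp only [MulEquiv.coe_toMonoidHom, MulAut.conj_apply]
    group

theorem cj_cj (s t : G) (X : Subgroup G) : cj s (cj t X) = cj (s * t) X := by
  ext x
  rw [mem_cj, mem_cj, mem_cj]
  have : t⁻¹ * (s⁻¹ * x * s) * t = (s * t)⁻¹ * x * (s * t) := by group
  rw [this]

theorem Xn_closure (t : G) (X : Subgroup G) (n : ℕ) :
    Xn t X n = Subgroup.closure {g | ∃ i : ℕ, i ≤ n ∧ ∃ x ∈ X, g = t ^ i * x * (t ^ i)⁻¹} := by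
  induction n with
  | zero =>
    unfold Xn
    apply le_antisymm
    · intro x hx
      exact Subgroup.subset_closure ⟨0, le_rfl, x, hx, by simp⟩
    · rw [Subgroup.closure_le]
      rintro g ⟨i, hi, x, hx, rfl⟩
      have : i = 0 := by omega
      subst this
      simpa using hx
  | succ n ih =>
    unfold Xn
    rw [ih]
    apply le_antisymm
    · apply sup_le
      · apply Subgroup.closure_mono
        rintro g ⟨i, hi, x, hx, rfl⟩
        exact ⟨i, by omega, x, hx, rfl⟩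
      · unfold cj
        rw [MonoidHom.map_closure, Subgroup.closure_le]
        rintro g ⟨_, ⟨i, hi, x, hx, rfl⟩, rfl⟩
        apply Subgroup.subset_closure
        refine ⟨i + 1, by omega, x, hx, ?_⟩
        simp only [MulEquiv.coe_toMonoidHom, MulAut.conj_apply]
        rw [pow_succ']
        group
    · rw [Subgroup.closure_le]
      rintro g ⟨i, hi, x, hx, rfl⟩
      rcases Nat.eq_zero_or_pos i with h | h
      · subst h
        exact Subgroup.mem_sup_left (Subgroup.subset_closure ⟨0, by omega, x, hx, rfl⟩)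
      · apply Subgroup.mem_sup_right
        rw [mem_cj]
        apply Subgroup.subset_closure
        refine ⟨i - 1, by omega, x, hx, ?_⟩
        obtain ⟨j, rfl⟩ : ∃ j, i = j + 1 := ⟨i - 1, by omega⟩
        rw [Nat.add_sub_cancel, pow_succ']
        group

theorem Xn_mono (t : G) (X : Subgroup G) {m n : ℕ} (h : m ≤ n) : Xn t X m ≤ Xn t X n := by
  rw [Xn_closure, Xn_closure]
  apply Subgroup.closure_mono
  rintro g ⟨i, hi, x, hx, rfl⟩
  exact ⟨i, by omega, x, hx, rfl⟩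

theorem cj_Xn (t : G) (X : Subgroup G) (n : ℕ) : cj (t ^ n) (Xn t⁻¹ X n) = Xn t X n := by
  rw [Xn_closure, Xn_closure]
  unfold cj
  rw [MonoidHom.map_closure]
  congr 1
  ext g
  constructor
  · rintro ⟨_, ⟨i, hi, x, hx, rfl⟩, rfl⟩
    refine ⟨n - i, by omega, x, hx, ?_⟩
    obtain ⟨j, rfl⟩ : ∃ j, n = j + i := ⟨n - i, by omega⟩
    simp only [MulEquiv.coe_toMonoidHom, MulAut.conj_apply]
    rw [Nat.add_sub_cancel, pow_add]
    group
  · rintro ⟨i, hi, x, hx, rfl⟩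
    refine ⟨_, ⟨n - i, by omega, x, hx, rfl⟩, ?_⟩
    obtain ⟨j, rfl⟩ : ∃ j, n = i + j := ⟨n - i, by omega⟩
    simp only [MulEquiv.coe_toMonoidHom, MulAut.conj_apply]
    rw [Nat.add_sub_cancel_left, pow_add]
    group

theorem Mcl_conj {t k : G} (j : ℤ) {a : G} (h : a ∈ Mcl t k) : t ^ j * a * (t ^ j)⁻¹ ∈ Mcl t k := by
  unfold Mcl at h ⊢
  induction h using Subgroup.closure_induction with
  | mem x hx =>
    obtain ⟨i, rfl⟩ := hx
    apply Subgroup.subset_closure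
    refine ⟨j + i, ?_⟩
    rw [zpow_add]
    group
  | one => simp
  | mul x y _ _ hx hy =>
    have : t ^ j * (x * y) * (t ^ j)⁻¹ = (t ^ j * x * (t ^ j)⁻¹) * (t ^ j * y * (t ^ j)⁻¹) := by
      group
    rw [this]
    exact Subgroup.mul_mem _ hx hy
  | inv x _ hx =>
    have : t ^ j * x⁻¹ * (t ^ j)⁻¹ = (t ^ j * x * (t ^ j)⁻¹)⁻¹ := by group
    rw [this]
    exact Subgroup.inv_mem _ hx

theorem Mcl_inv (t k : G) : Mcl t⁻¹ k = Mcl t k := by
  unfold Mcl
  congr 1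
  ext x
  constructor
  · rintro ⟨i, rfl⟩
    exact ⟨-i, by group⟩
  · rintro ⟨i, rfl⟩
    exact ⟨-i, by group⟩

/-- subfamilies -/
theorem freeOver_comp {ι κ : Type} {P : Subgroup G} {a : ι → G} (h : FreeOver P a) (f : κ → ι)
    (hf : Function.Injective f) : FreeOver P (fun i => a (f i)) := by
  intro l hl hr hw
  refine h (l.map fun x => (f x.1, x.2.1, x.2.2)) (by simpa using hl) ⟨?_, ?_⟩ ?_
  · intro x hx
    obtain ⟨y, hy, rfl⟩ := List.mem_map.1 hx
    exact hr.1 y hy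
  · rw [List.isChain_map]
    refine hr.2.imp ?_
    rintro x y hxy ⟨h1, h2, h3⟩
    exact hxy ⟨hf h1, h2, h3⟩
  · unfold wprod at hw ⊢
    rw [List.map_map]
    exact hw

theorem wprod_conj {ι : Type} (g : G) (a : ι → G) (l : List (ι × Bool × G)) :
    wprod (fun i => g * a i * g⁻¹) l =
      g * wprod a (l.map fun x => (x.1, x.2.1, g⁻¹ * x.2.2 * g)) * g⁻¹ := by
  induction l with
  | nil => unfold wprod; simp
  | cons x l ih =>
    unfold wprod at ih ⊢
    rw [List.map_cons, List.prod_cons, List.map_cons, List.map_cons, List.prod_cons, ih]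
    simp only
    cases x.2.1
    · simp only [Bool.false_eq_true, if_false]
      group
    · simp only [if_true]
      group

/-- conjugation -/
theorem freeOver_conj {ι : Type} {P : Subgroup G} {a : ι → G} (h : FreeOver P a) (g : G) :
    FreeOver (cj g P) (fun i => g * a i * g⁻¹) := by
  intro l hl hr hw
  rw [wprod_conj, mem_cj] at hw
  refine h (l.map fun x => (x.1, x.2.1, g⁻¹ * x.2.2 * g)) (by simpa using hl) ⟨?_, ?_⟩ ?_
  · intro x hx
    obtain ⟨y, hy, rfl⟩ := List.mem_map.1 hx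
    exact mem_cj.1 (hr.1 y hy)
  · rw [List.isChain_map]
    refine hr.2.imp ?_
    rintro x y hxy ⟨h1, h2, h3⟩
    refine hxy ⟨h1, h2, ?_⟩
    have : x.2.2 = g * (g⁻¹ * x.2.2 * g) * g⁻¹ := by group
    rw [this]
    simp only at h3
    rw [h3]
    group
  · have : g⁻¹ * (g * wprod a (l.map fun x => (x.1, x.2.1, g⁻¹ * x.2.2 * g)) * g⁻¹) * g =
        wprod a (l.map fun x => (x.1, x.2.1, g⁻¹ * x.2.2 * g)) := by group
    rw [this] at hw
    exact hw

theorem CG_inv (X : Subgroup G) (t : G) : CG X t⁻¹ = CG X t := by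
  unfold CG
  ext u v
  rw [SimpleGraph.fromRel_adj, SimpleGraph.fromRel_adj]
  constructor
  · rintro ⟨h1, ⟨g, h2, h3⟩ | ⟨g, h2, h3⟩⟩
    · exact ⟨h1, Or.inr ⟨g * t⁻¹, h3, by rw [h2]; congr 1; group⟩⟩
    · exact ⟨h1, Or.inl ⟨g * t⁻¹, h3, by rw [h2]; congr 1; group⟩⟩
  · rintro ⟨h1, ⟨g, h2, h3⟩ | ⟨g, h2, h3⟩⟩
    · exact ⟨h1, Or.inr ⟨g * t, h3, by rw [h2]; congr 1; group⟩⟩
    · exact ⟨h1, Or.inl ⟨g * t, h3, by rw [h2]; congr 1; group⟩⟩

theorem vx_inv (X : Subgroup G) (t : G) (i : ℤ) : vx t⁻¹ X i = vx t X (-i) := by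
  unfold vx
  congr 1
  rw [inv_zpow, zpow_neg]

/-- the mirror image of `GH` -/
theorem GH_mirror {X : Subgroup G} {t : G} {η : G →* Multiplicative ℤ} {D : ℕ} {Nn : Subgroup G}
    (h : GH X t η D Nn) : GH X t⁻¹ η⁻¹ D Nn where
  td := {
    ht := fun x hx => by rw [MonoidHom.inv_apply, h.td.ht x hx, inv_one]
    et := by rw [MonoidHom.inv_apply, map_inv, inv_inv, h.td.et]
    tree := by rw [CG_inv]; exact h.td.tree }
  Dpos := h.Dpos
  NX := fun n hn i => by rw [vx_inv]; exact h.NX n hn _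
  F2 := fun n hn hn1 p hp => by
    obtain ⟨i, hi⟩ := h.F2 n hn hn1 p hp
    refine ⟨-i, ?_⟩
    rw [CG_inv, vx_inv, neg_neg]
    exact hi
  F3 := fun e i h1 h2 => by
    rw [vx_inv] at h1 h2
    refine h.F3 e (-(i + D)) h2 ?_
    have : -(i + (D : ℤ)) + D = -i := by ring
    rw [this]
    exact h1

end Conj

section StageGH

variable {H G : Type} [Group H] [Base H] [Group G] {pr : G →* H} {em : H →* G}
  {X : Subgroup G} {D : ℕ}

/-- the image of `N` -/
def Nn (em : H →* G) : Subgroup G := (hz (H := H)).ker.map em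

theorem mem_Nn {x : G} : x ∈ Nn em ↔ ∃ n : H, hz n = 1 ∧ x = em n := by
  unfold Nn
  rw [Subgroup.mem_map]
  constructor
  · rintro ⟨n, hn, rfl⟩
    exact ⟨n, hn, rfl⟩
  · rintro ⟨n, hn, rfl⟩
    exact ⟨n, hn, rfl⟩

theorem hz_conj {n x : H} (hn : hz n = 1) : hz (x * n * x⁻¹) = 1 := by
  rw [map_mul, map_mul, hn, map_inv, mul_one, mul_inv_cancel]

theorem stage_GH (h : IsStage pr em X D) : GH X (em th) (hz.comp pr) D (Nn em) where
  td := h.td
  Dpos := h.Dpos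
  NX := by
    intro n hn i
    obtain ⟨n', hn', rfl⟩ := mem_Nn.1 hn
    unfold vx
    rw [fix_iff]
    have : (em th ^ i)⁻¹ * em n' * em th ^ i = em (th ^ (-i) * n' * (th ^ (-i))⁻¹) := by
      rw [map_mul, map_mul, map_inv, map_zpow, zpow_neg, inv_inv]
    rw [this]
    exact h.NX _ (hz_conj hn')
  F2 := by
    intro n hn hn1 p hp
    obtain ⟨n', hn', rfl⟩ := mem_Nn.1 hn
    exact h.F2 n' hn' (fun h0 => hn1 (by rw [h0, map_one])) p hp
  F3 := by
    intro e i h1 h2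
    have key : ∀ j : ℤ, e • vx (em th) X (i + j) = vx (em th) X (i + j) →
        ((em th ^ i)⁻¹ * e * em th ^ i) • vx (em th) X j = vx (em th) X j := by
      intro j hj
      have e1 : vx (em th) X j = (em th ^ i)⁻¹ • vx (em th) X (i + j) := by
        rw [← zpow_neg, vx_smul]
        congr 1
        ring
      rw [e1, smul_smul]
      have e2 : (em th ^ i)⁻¹ * e * em th ^ i * (em th ^ i)⁻¹ = (em th ^ i)⁻¹ * e := by group
      rw [e2, mul_smul, hj]
    obtain ⟨n, hn, hne⟩ := h.F3 _ (key 0 (by rw [add_zero]; exact h1)) (key D h2)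
    rw [mem_Nn]
    refine ⟨th ^ i * n * (th ^ i)⁻¹, hz_conj hn, ?_⟩
    rw [map_mul, map_mul, map_inv, map_zpow, ← hne]
    group

theorem not_mem_Nn (h : IsStage pr em X D) {k : G} (hk : pr k = 1) (hk1 : k ≠ 1) : k ∉ Nn em := by
  intro hc
  obtain ⟨n, hn, rfl⟩ := mem_Nn.1 hc
  rw [h.sec] at hk
  exact hk1 (by rw [hk, map_one])

end StageGH

end Gen

/-- P7: general position -/
theorem stGen (hS : StGenSide) : StGen := by
  intro H G _ _ _ pr em X D hst k hk u hu hk1 hu1 hkn hun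
  have hGH := Gen.stage_GH hst
  have hkN := Gen.not_mem_Nn hst hk1 hkn
  have huN := Gen.not_mem_Nn hst hu1 hun
  obtain ⟨a₁, a₂, a₃, M₀, h1, h2, h3, m1, m3, m2, hf⟩ := hS G X (em th) _ D _ hGH k hk u hu hkN huN
  obtain ⟨b₁, b₂, b₃, M₁, g1, _, g3, n1, n3, _, gf⟩ :=
    hS G X (em th)⁻¹ _ D _ (Gen.GH_mirror hGH) k hk k hk hkN hkN
  obtain ⟨M, hM⟩ : ∃ M, M = max M₀ M₁ := ⟨_, rfl⟩
  have hM0 : M₀ ≤ M := by omega
  have hM1 : M₁ ≤ M := by omega
  have hmem : ∀ x ∈ Xn (em th)⁻¹ X M₁, em th ^ (M + 1) * x * (em th ^ (M + 1))⁻¹ ∈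
      cj (em th) (Xn (em th) X M) := by
    intro x hx
    rw [Gen.mem_cj, ← Gen.cj_Xn, Gen.mem_cj]
    have e : (em th ^ M)⁻¹ * ((em th)⁻¹ * (em th ^ (M + 1) * x * (em th ^ (M + 1))⁻¹) * em th) *
        em th ^ M = x := by
      rw [pow_succ']
      group
    rw [e]
    exact Gen.Xn_mono _ _ hM1 hx
  have hmcl : ∀ x ∈ Mcl (em th)⁻¹ k, em th ^ (M + 1) * x * (em th ^ (M + 1))⁻¹ ∈
      Mcl (em th) k := by
    intro x hx
    rw [Gen.Mcl_inv] at hx
    have := Gen.Mcl_conj ((M + 1 : ℕ) : ℤ) hx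
    rw [zpow_natCast] at this
    exact this
  refine ⟨M, a₁, a₂, a₃, em th ^ (M + 1) * b₁ * (em th ^ (M + 1))⁻¹,
    em th ^ (M + 1) * b₃ * (em th ^ (M + 1))⁻¹, Gen.Xn_mono _ _ hM0 h1, Gen.Xn_mono _ _ hM0 h2,
    Gen.Xn_mono _ _ hM0 h3, hmem _ g1, hmem _ g3, m1, m3, hmcl _ n1, hmcl _ n3, m2, hf M, ?_⟩
  have hc := Gen.freeOver_conj (gf M) (em th ^ (M + 1))
  have hX : cj (em th ^ (M + 1)) (cj (em th)⁻¹ (Xn (em th)⁻¹ X M)) = Xn (em th) X M := by
    rw [Gen.cj_cj, pow_succ, mul_inv_cancel_right, Gen.cj_Xn]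
  rw [hX] at hc
  have hs := Gen.freeOver_comp hc ![0, 2] (by decide)
  convert hs using 1
  funext i
  fin_cases i <;> rfl

end Pool.Agent.D6b
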