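import Pool.Agent.Lib.MP_d6b03d_al.Stmts

/-!
MP_d6b03d_al, module B6: incidence of vertices and copies.
-/

set_option autoImplicit false

namespace Pool.Agent.D6b

open Multiplicative

namespace IncM

section A

variable {G : Type} [Group G]

lemma cg_adj (X : Subgroup G) (t : G) (u v : G ⧸ X) :
    (CG X t).Adj u v ↔ u ≠ v ∧
      ((∃ g : G, u = (g : G ⧸ X) ∧ v = ((g * t : G) : G ⧸ X)) ∨
        ∃ g : G, v = (g : G ⧸ X) ∧ u = ((g * t : G) : G ⧸ X)) := by
  rw [CG, SimpleGraph.fromRel_adj]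

lemma cg_adj_mul (X : Subgroup G) (t : G) (g : G) (h : t ∉ X) :
    (CG X t).Adj (g : G ⧸ X) ((g * t : G) : G ⧸ X) := by
  rw [cg_adj]
  refine ⟨?_, Or.inl ⟨g, rfl, rfl⟩⟩
  intro he
  rw [QuotientGroup.eq] at he
  apply h
  simpa using he

/-- induced subgraph, on the same vertices -/
def ind {V : Type} (S : SimpleGraph V) (U : Set V) : SimpleGraph V where
  Adj u v := S.Adj u v ∧ u ∈ U ∧ v ∈ U
  symm := ⟨fun _ _ h => ⟨h.1.symm, h.2.2, h.2.1⟩⟩
  loopless := ⟨fun _ h => S.irrefl h.1⟩

lemma ind_mem {V : Type} (S : SimpleGraph V) (U : Set V) {u v : V} (h : (ind S U).Reachable u v)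
    (hu : u ∈ U) : v ∈ U := by
  obtain ⟨p⟩ := h
  induction p with
  | nil => exact hu
  | cons hadj _ ih => exact ih hadj.2.2

lemma cvx_of_conn (h3 : StSub) {V : Type} (S : SimpleGraph V) (hS : S.IsTree) (U : Set V)
    (h : ∀ p ∈ U, ∀ q ∈ U, (ind S U).Reachable p q) : Cvx S U := by
  intro p hp q hq r hr
  have hle : ind S U ≤ S := fun _ _ h => h.1
  exact ind_mem S U ((h3 V (ind S U) S hle hS p q (h p hp q hq)).2 r hr) hp

lemma dist_map {V W : Type} (S : SimpleGraph V) (T : SimpleGraph W) (hS : S.IsTree)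
    (hT : T.IsTree) (f : V → W) (hf : Function.Injective f)
    (hadj : ∀ u v, S.Adj u v → T.Adj (f u) (f v)) (u v : V) :
    T.dist (f u) (f v) = S.dist u v := by
  obtain ⟨p, hp⟩ := (hS.1.preconnected u v).exists_walk_length_eq_dist
  have hpp : p.IsPath := SimpleGraph.Walk.isPath_of_length_eq_dist p hp
  obtain ⟨q, hq⟩ := (hT.1.preconnected (f u) (f v)).exists_walk_length_eq_dist
  have hqp : q.IsPath := SimpleGraph.Walk.isPath_of_length_eq_dist q hq
  let F : S →g T := ⟨f, fun {a b} h => hadj a b h⟩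
  have hmp : (p.map F).IsPath := SimpleGraph.Walk.map_isPath_of_injective hf hpp
  have := hT.2.path_unique ⟨q, hqp⟩ ⟨p.map F, hmp⟩
  have h2 : q = p.map F := congrArg Subtype.val this
  rw [← hq, ← hp, h2, SimpleGraph.Walk.length_map]

end A

end IncM

open IncM

theorem incStmt (h3 : StSub) (h0 : StBasic) : StInc := by
  intro G G' _ _ X t η ι s C C' m htd hm tt
  obtain ⟨-, -, -, -, -, -, hcl', -⟩ := h0 G X t η
  have hcl := hcl' htd
  set X' := XX ι s t X m with hX'
  have hιX : ∀ x ∈ X, ι x ∈ X' := fun x hx => Subgroup.subset_closure (Or.inl ⟨x, hx, rfl⟩)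
  have hyX : ∀ j : ℕ, j < m → ι (t ^ j) * s * (ι (t ^ j))⁻¹ ∈ X' := fun j hj =>
    Subgroup.subset_closure (Or.inr ⟨j, hj, rfl⟩)
  have hs : s ∉ ι.range := by
    obtain ⟨η', h1, h2⟩ := tt.sht
    rintro ⟨g, hg⟩
    rw [← hg, h1] at h2
    have := congrArg toAdd h2
    simp at this
  have htX : ι t ∉ X' := by
    intro h
    have h1 := tt.meet t h
    have h2 := htd.ht t h1
    rw [htd.et] at h2
    have := congrArg toAdd h2
    simp at this
  have hmk : ∀ (g : G') (z : G), ((g * ι z : G') : G' ⧸ ι.range) = (g : G' ⧸ ι.range) := by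
    intro g z
    rw [eq_comm, QuotientGroup.eq]
    exact ⟨z, by group⟩
  have hmk' : ∀ (g : G') (z : G'), z ∈ X' → ((g * z : G') : G' ⧸ X') = (g : G' ⧸ X') := by
    intro g z hz
    rw [eq_comm, QuotientGroup.eq]
    simpa using hz
  have hyR : ∀ (h : G') (j : ℕ), ((h * (ι (t ^ j) * s * (ι (t ^ j))⁻¹) : G') : G' ⧸ ι.range) =
      ((h * ι (t ^ j) * s : G') : G' ⧸ ι.range) := by
    intro h j
    have := hmk (h * ι (t ^ j) * s) (t ^ j)⁻¹
    rw [← this]
    congr 1
    simp only [map_inv, mul_assoc]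
  -- adjacency in the tree of copies
  have hadj : ∀ (h : G') (j : ℕ), (CG ι.range s).Adj (h : G' ⧸ ι.range)
      ((h * (ι (t ^ j) * s * (ι (t ^ j))⁻¹) : G') : G' ⧸ ι.range) := by
    intro h j
    rw [hyR, ← hmk h (t ^ j)]
    exact cg_adj_mul _ _ _ hs
  refine ⟨?_, ?_, ?_, ?_⟩
  · intro p
    refine ⟨?_, ?_⟩
    · apply cvx_of_conn h3 _ tt.str
      have key : ∀ x ∈ X', ∀ h : G', (h : G' ⧸ X') = p →
          (ind (CG ι.range s) {c | Inc ι X' p c}).Reachable (h : G' ⧸ ι.range)
            ((h * x : G') : G' ⧸ ι.range) := by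
        intro x hx
        rw [hX', XX] at hx
        induction hx using Subgroup.closure_induction with
        | mem x hx =>
          intro h hh
          rcases hx with ⟨g, hg, rfl⟩ | ⟨j, hj, rfl⟩
          · rw [hmk]
          · apply SimpleGraph.Adj.reachable
            exact ⟨hadj h j, ⟨h, hh, rfl⟩, ⟨_, (hmk' h _ (hyX j hj)).trans hh, rfl⟩⟩
        | one => intro h _; rw [mul_one]
        | mul x y hx _ ihx ihy =>
          intro h hh
          have h1 := ihx h hh
          have h2 := ihy (h * x) ((hmk' h x hx).trans hh)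
          rw [mul_assoc] at h2
          exact h1.trans h2
        | inv x hx ih =>
          intro h hh
          have h1 := ih (h * x⁻¹) ((hmk' h _ (Subgroup.inv_mem _ hx)).trans hh)
          rw [inv_mul_cancel_right] at h1
          exact h1.symm
      rintro _ ⟨g, hg, rfl⟩ _ ⟨g', hg', rfl⟩
      have hx : g⁻¹ * g' ∈ X' := by
        rw [← QuotientGroup.eq, hg, hg']
      have := key _ hx g hg
      rwa [mul_inv_cancel_left] at this
    · obtain ⟨g, rfl⟩ := QuotientGroup.mk_surjective p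
      exact ⟨(g : G' ⧸ ι.range), g, rfl, rfl⟩
  · intro c
    apply cvx_of_conn h3 _ tt.ttr
    have key : ∀ x : G, ∀ h : G', (h : G' ⧸ ι.range) = c →
        (ind (CG X' (ι t)) {p | Inc ι X' p c}).Reachable (h : G' ⧸ X')
          ((h * ι x : G') : G' ⧸ X') := by
      intro x
      have hx : x ∈ Subgroup.closure ((X : Set G) ∪ {t}) := by rw [hcl]; trivial
      induction hx using Subgroup.closure_induction with
      | mem x hx =>
        intro h hh
        rcases hx with hx | hx
        · rw [hmk' h _ (hιX x hx)]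
        · rw [Set.mem_singleton_iff] at hx
          subst hx
          apply SimpleGraph.Adj.reachable
          exact ⟨cg_adj_mul _ _ _ htX, ⟨h, rfl, hh⟩, ⟨_, rfl, (hmk h _).trans hh⟩⟩
      | one => intro h _; rw [map_one, mul_one]
      | mul x y _ _ ihx ihy =>
        intro h hh
        have h1 := ihx h hh
        have h2 := ihy (h * ι x) ((hmk h x).trans hh)
        rw [mul_assoc, ← map_mul] at h2
        exact h1.trans h2
      | inv x _ ih =>
        intro h hh
        have h1 := ih (h * ι x⁻¹) ((hmk h _).trans hh)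
        rw [mul_assoc, ← map_mul, inv_mul_cancel, map_one, mul_one] at h1
        exact h1.symm
    rintro _ ⟨g, rfl, hg⟩ _ ⟨g', rfl, hg'⟩
    have hx : g⁻¹ * g' ∈ ι.range := by
      rw [← QuotientGroup.eq, hg, hg']
    obtain ⟨z, hz⟩ := hx
    have := key z g hg
    rwa [hz, mul_inv_cancel_left] at this
  · have hwd : ∀ a b : G, (a : G ⧸ X) = b ↔ (ι a : G' ⧸ X') = (ι b : G' ⧸ X') := by
      intro a b
      rw [QuotientGroup.eq, QuotientGroup.eq, ← map_inv, ← map_mul]
      exact ⟨fun h => hιX _ h, fun h => tt.meet _ h⟩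
    let f : G ⧸ X → G' ⧸ X' := Quotient.lift (fun a : G => (ι a : G' ⧸ X')) (by
      intro a b hab
      exact (hwd a b).1 (Quotient.sound hab))
    have hf : ∀ a : G, f (a : G ⧸ X) = (ι a : G' ⧸ X') := fun a => rfl
    intro g g'
    rw [← hf g, ← hf g']
    apply dist_map _ _ htd.tree tt.ttr f
    · intro u v huv
      obtain ⟨a, rfl⟩ := QuotientGroup.mk_surjective u
      obtain ⟨b, rfl⟩ := QuotientGroup.mk_surjective v
      rw [hf, hf] at huv
      exact (hwd a b).2 huv
    · intro u v huv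
      rw [cg_adj] at huv
      rcases huv with ⟨-, ⟨a, rfl, rfl⟩ | ⟨a, rfl, rfl⟩⟩
      · rw [hf, hf, map_mul]
        exact cg_adj_mul _ _ _ htX
      · rw [hf, hf, map_mul]
        exact (cg_adj_mul _ _ _ htX).symm
  · intro x hx hx1
    let S4 : SimpleGraph (G' ⧸ ι.range) :=
      { Adj := fun u v => (CG ι.range s).Adj u v ∧ ∃ x' ∈ X', ∃ j : ℕ, j < m ∧
          ((u = (x' : G' ⧸ ι.range) ∧
              v = ((x' * (ι (t ^ j) * s * (ι (t ^ j))⁻¹) : G') : G' ⧸ ι.range)) ∨
            (v = (x' : G' ⧸ ι.range) ∧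
              u = ((x' * (ι (t ^ j) * s * (ι (t ^ j))⁻¹) : G') : G' ⧸ ι.range)))
        symm := ⟨fun u v h => by
          obtain ⟨h1, x', hx', j, hj, h2⟩ := h
          exact ⟨h1.symm, x', hx', j, hj, h2.symm⟩⟩
        loopless := ⟨fun u h => SimpleGraph.irrefl _ h.1⟩ }
    have hle : S4 ≤ CG ι.range s := fun _ _ h => h.1
    have key : ∀ x ∈ X', ∀ h ∈ X', S4.Reachable (h : G' ⧸ ι.range)
        ((h * x : G') : G' ⧸ ι.range) := by
      intro x hx
      rw [hX', XX] at hx
      induction hx using Subgroup.closure_induction with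
      | mem x hx =>
        intro h hh
        rcases hx with ⟨g, hg, rfl⟩ | ⟨j, hj, rfl⟩
        · rw [hmk]
        · apply SimpleGraph.Adj.reachable
          exact ⟨hadj h j, h, hh, j, hj, Or.inl ⟨rfl, rfl⟩⟩
      | one => intro h _; rw [mul_one]
      | mul x y hx _ ihx ihy =>
        intro h hh
        have h1 := ihx h hh
        have h2 := ihy (h * x) (Subgroup.mul_mem _ hh hx)
        rw [mul_assoc] at h2
        exact h1.trans h2
      | inv x hx ih =>
        intro h hh
        have h1 := ih (h * x⁻¹) (Subgroup.mul_mem _ hh (Subgroup.inv_mem _ hx))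
        rw [inv_mul_cancel_right] at h1
        exact h1.symm
    have hr := key x hx 1 X'.one_mem
    rw [one_mul] at hr
    obtain ⟨-, x', hx', j, hj, hc⟩ := (h3 _ S4 _ hle tt.str _ _ hr).1 hx1
    rcases hc with ⟨h1, h2⟩ | ⟨h1, h2⟩
    · rw [QuotientGroup.eq] at h1
      simp only [inv_one, one_mul] at h1
      obtain ⟨z, rfl⟩ := h1
      refine ⟨z, tt.meet z hx', j, hj, Or.inl ?_⟩
      rw [h2, hyR, map_mul]
    · rw [QuotientGroup.eq] at h2
      simp only [inv_one, one_mul] at h2
      obtain ⟨z, hz⟩ := h2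
      have hzX : ι z ∈ X' := by
        rw [hz]
        exact X'.mul_mem hx' (hyX j hj)
      refine ⟨z, tt.meet z hzX, j, hj, Or.inr ?_⟩
      rw [h1]
      have : x' = ι (z * t ^ j) * s⁻¹ * ι (t ^ j)⁻¹ := by
        rw [map_mul, hz, map_inv]
        group
      rw [this, hmk]

end Pool.Agent.D6b
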