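import Pool.Agent.Lib.MP_d6b03d_al.Basic

/-!
G0: the trivial stage.
-/

set_option autoImplicit false

namespace Pool.Agent.D6b

open Multiplicative Base

section

variable {G : Type} [Group G]

theorem hgt_ker_inj {η : G →* Multiplicative ℤ} {u v : G ⧸ η.ker}
    (h : hgt η η.ker u = hgt η η.ker v) : u = v := by
  induction u using QuotientGroup.induction_on with
  | H x =>
    induction v using QuotientGroup.induction_on with
    | H y =>
      rw [hgt_mk (fun x hx => hx), hgt_mk (fun x hx => hx)] at h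
      have h1 : η x = η y := Multiplicative.toAdd.injective h
      rw [QuotientGroup.eq, MonoidHom.mem_ker, map_mul, map_inv, h1, inv_mul_cancel]

theorem hgt_vx {η : G →* Multiplicative ℤ} {t : G} (ht : η t = ofAdd 1) (i : ℤ) :
    hgt η η.ker (vx t η.ker i) = i := by
  unfold vx
  rw [hgt_mk (fun x hx => hx), map_zpow, ht, ← ofAdd_zsmul, toAdd_ofAdd]
  simp

theorem eq_vx {η : G →* Multiplicative ℤ} {t : G} (ht : η t = ofAdd 1) (u : G ⧸ η.ker) :
    u = vx t η.ker (hgt η η.ker u) := hgt_ker_inj (by rw [hgt_vx ht])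

theorem tree_ker {η : G →* Multiplicative ℤ} {t : G} (ht : η t = ofAdd 1) :
    (CG η.ker t).IsTree := by
  have hX : ∀ x ∈ η.ker, η x = 1 := fun x hx => hx
  have hadj : ∀ i : ℤ, (CG η.ker t).Adj (vx t η.ker i) (vx t η.ker (i + 1)) := by
    intro i
    have h := adj_mk hX ht (t ^ i)
    rw [← zpow_add_one] at h
    exact h
  refine ⟨?_, ?_⟩
  · have hr : ∀ i : ℤ, (CG η.ker t).Reachable (vx t η.ker 0) (vx t η.ker i) := by
      intro i
      induction i using Int.induction_on with
      | zero => exact SimpleGraph.Reachable.refl _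
      | succ i ih => exact ih.trans (hadj _).reachable
      | pred i ih =>
        have h := hadj (-(i : ℤ) - 1)
        rw [sub_add_cancel] at h
        exact ih.trans h.symm.reachable
    have : Nonempty (G ⧸ η.ker) := ⟨vx t η.ker 0⟩
    refine ⟨fun u v => ?_⟩
    rw [eq_vx ht u, eq_vx ht v]
    exact (hr _).symm.trans (hr _)
  · rw [SimpleGraph.isAcyclic_iff_forall_adj_isBridge]
    -- an edge between heights `i` and `i + 1` is a bridge
    have key : ∀ (i : ℤ) (e : Sym2 (G ⧸ η.ker)), e = s(vx t η.ker i, vx t η.ker (i + 1)) →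
        ∀ a b : G ⧸ η.ker, ((CG η.ker t).deleteEdges {e}).Walk a b →
        (hgt η η.ker a ≤ i ↔ hgt η η.ker b ≤ i) := by
      intro i e he a b w
      induction w with
      | nil => exact Iff.rfl
      | cons h p ih =>
        refine Iff.trans ?_ ih
        rw [SimpleGraph.deleteEdges_adj] at h
        obtain ⟨h1, h2⟩ := h
        have h3 := hgt_adj hX ht h1
        rename_i a c _
        by_contra hcon
        apply h2
        rw [Set.mem_singleton_iff, he]
        have h4 : (hgt η η.ker a = i ∧ hgt η η.ker c = i + 1) ∨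
            (hgt η η.ker c = i ∧ hgt η η.ker a = i + 1) := by omega
        rcases h4 with ⟨h5, h6⟩ | ⟨h5, h6⟩
        · rw [eq_vx ht a, eq_vx ht c, h5, h6]
        · rw [eq_vx ht a, eq_vx ht c, h5, h6, Sym2.eq_swap]
    have main : ∀ i : ℤ, (CG η.ker t).IsBridge s(vx t η.ker i, vx t η.ker (i + 1)) := by
      intro i
      rw [SimpleGraph.isBridge_iff]
      rintro ⟨w⟩
      have h := key i _ rfl _ _ w
      rw [hgt_vx ht, hgt_vx ht] at h
      omega
    intro v w hvw
    have h3 := hgt_adj hX ht hvw
    have h4 : hgt η η.ker w = hgt η η.ker v + 1 ∨ hgt η η.ker v = hgt η η.ker w + 1 := by omega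
    rcases h4 with h | h
    · have h5 := main (hgt η η.ker v)
      rw [← h, ← eq_vx ht v, ← eq_vx ht w] at h5
      exact h5
    · have h5 := main (hgt η η.ker w)
      rw [← h, ← eq_vx ht v, ← eq_vx ht w, Sym2.eq_swap] at h5
      exact h5

end

theorem stInit : StInit := by
  intro H _ _
  have hX : ∀ x ∈ (hz (H := H)).ker, (hz (H := H)) x = 1 := fun x hx => hx
  have hfix : ∀ (e : H) (p : H ⧸ (hz (H := H)).ker), e • p = p → hz e = 1 := by
    intro e p hp
    have h1 := congrArg (hgt hz (hz (H := H)).ker) hp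
    rw [hgt_smul hX] at h1
    have h2 : toAdd (hz e) = 0 := by omega
    exact Multiplicative.toAdd.injective (by rw [h2]; rfl)
  refine ⟨fun h => rfl, le_refl _, ⟨fun x hx => hx, hz_th, ?_⟩, fun n hn => hn, ?_, ?_, ?_, ?_⟩
  · exact tree_ker hz_th
  · intro e he p q hp _
    exact absurd ⟨1, e, hfix e p hp, by simp⟩ he
  · intro n _ _ p _
    refine ⟨hgt hz (hz (H := H)).ker p, ?_⟩
    have h := eq_vx (η := hz (H := H)) hz_th p
    change (CG (hz (H := H)).ker th).dist p (vx th (hz (H := H)).ker _) ≤ 1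
    rw [← h, SimpleGraph.dist_self]
    exact zero_le_one
  · intro e he _
    exact ⟨e, hfix e _ he, rfl⟩
  · intro e g _ he _ _
    exact he

end Pool.Agent.D6b
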