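import Mathlib
import Pool.Agent.Lib.MP_d6b03d_al.Stmts

/-!
G6: abstract form of the preservation of `J`.
-/

set_option autoImplicit false

namespace Pool.Agent.D6b

open Multiplicative Base

theorem smul_zpow_line {V G : Type} [Group G] [MulAction G V] {L : ℤ → V} {e : G} {a : ℤ}
    (h : ∀ i : ℤ, e • L i = L (i + a)) (k : ℤ) : ∀ i : ℤ, e ^ k • L i = L (i + k * a) := by
  induction k using Int.induction_on with
  | zero => intro i; simp
  | succ n ih =>
    intro i
    rw [zpow_add_one, mul_smul, h, ih]
    congr 1; ring
  | pred n ih =>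
    intro i
    rw [zpow_sub_one, mul_smul]
    have : e⁻¹ • L i = L (i - a) := by
      rw [inv_smul_eq_iff, h]
      congr 1; ring
    rw [this, ih]
    congr 1; ring

theorem stJ (hT : StTC) : StJ := by
  intro H G' V _ _ _ _ S hS hA hN pr hL hV e g hc he hg hg1
  rcases hT V S hS G' hA hN e g hc with ⟨v, hev, hgv⟩ | ⟨L, a, b, hLine, hab, hLL⟩
  · exact hV v e g hev hgv hc he hg hg1
  · have h1 : ∀ i : ℤ, e • L i = L (i + a) := fun i => (hLL i).1
    have h2 : ∀ i : ℤ, g • L i = L (i + b) := fun i => (hLL i).2
    have hz0 : hz (pr (e ^ b * g ^ (-a))) = 1 := by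
      rw [map_mul, map_mul, map_zpow, map_zpow, map_zpow, map_zpow, he, hg, map_one, one_zpow,
        one_zpow, mul_one]
    have hfix : ∀ i : ℤ, (e ^ b * g ^ (-a)) • L i = L i := by
      intro i
      rw [mul_smul, smul_zpow_line h2, smul_zpow_line h1]
      congr 1; ring
    have he0 : hz (pr e) = 1 := by rw [he, map_one]
    rcases hL L _ hLine hz0 hfix with h3 | h3
    · have h4 : (pr g) ^ (-a) = 1 := by
        have := congrArg pr h3
        rwa [map_mul, map_zpow, map_zpow, he, one_zpow, one_mul, map_one] at this
      have ha : a = 0 := by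
        by_contra hne
        apply hg1
        refine tf (pr g) hg a.natAbs (by omega) ?_
        rcases Int.natAbs_eq a with h5 | h5
        · rw [← zpow_natCast, ← h5]
          rw [zpow_neg, inv_eq_one] at h4
          exact h4
        · have h6 : ((a.natAbs : ℕ) : ℤ) = -a := by omega
          rw [← zpow_natCast, h6]
          exact h4
      subst ha
      rcases hL L e hLine he0 (fun i => by rw [h1, add_zero]) with h5 | h5
      · exact h5
      · exfalso
        have := h5 g b hg h2
        omega
    · exfalso
      have := h3 e a he0 h1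
      have := h3 g b hg h2
      omega

end Pool.Agent.D6b
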