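import Mathlib
import Pool.Agent.Lib.MP_d6b03d_al.Stmts
import Pool.Agent.Lib.MP_d6b03d_al.Basic
import Pool.Agent.Lib.MP_d6b03d_al.BtwU

/-!
G3: elements which move the standard line a bounded distance come from `H`.
-/

set_option autoImplicit false

namespace Pool.Agent.D6b

open Multiplicative Base

/-- the height of an element which maps `v_i` to `v_j` -/
theorem ht_of_smul {G : Type} [Group G] {X : Subgroup G} {t : G} {η : G →* Multiplicative ℤ}
    (h : TD X t η) {γ : G} {i j : ℤ} (e : γ • vx t X i = vx t X j) : toAdd (η γ) = j - i := by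
  have h1 := hgt_smul h.ht γ (vx t X i)
  rw [e] at h1
  unfold vx at h1
  rw [hgt_mk h.ht, hgt_mk h.ht, map_zpow η, map_zpow η, h.et, toAdd_zpow, toAdd_zpow,
    toAdd_ofAdd, smul_eq_mul, smul_eq_mul, mul_one, mul_one] at h1
  omega

/-- images of `N` fix the standard line -/
theorem em_fix {H G : Type} [Group H] [Base H] [Group G] {pr : G →* H} {em : H →* G}
    {X : Subgroup G} {D : ℕ} (st : IsStage pr em X D) {n : H} (hn : hz n = 1) (i : ℤ) :
    em n • vx (em th) X i = vx (em th) X i := by
  unfold vx
  rw [fix_iff]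
  have : (em th ^ i)⁻¹ * em n * em th ^ i = em ((th ^ i)⁻¹ * n * th ^ i) := by
    simp only [map_mul, map_inv, map_zpow]
  rw [this]
  apply st.NX
  rw [map_mul, map_mul, map_inv, hn, mul_one, inv_mul_cancel]

/-- part (3) -/
theorem ll_aux {H G : Type} [Group H] [Base H] [Group G] {pr : G →* H} {em : H →* G}
    {X : Subgroup G} {D : ℕ} (st : IsStage pr em X D) (γ : G) (i j : ℤ)
    (h1 : γ • vx (em th) X i = vx (em th) X j)
    (h2 : γ • vx (em th) X (i + D) = vx (em th) X (j + D)) : ∃ h : H, γ = em h := by
  have e0 : ((em th) ^ (-j) * γ * (em th) ^ i) • vx (em th) X 0 = vx (em th) X 0 := by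
    rw [mul_smul, mul_smul, vx_smul, zero_add, h1, vx_smul]
    congr 1; ring
  have e1 : ((em th) ^ (-j) * γ * (em th) ^ i) • vx (em th) X D = vx (em th) X D := by
    rw [mul_smul, mul_smul, vx_smul, add_comm (D : ℤ) i, h2, vx_smul]
    congr 1; ring
  obtain ⟨n, hn, hn'⟩ := st.F3 _ e0 e1
  refine ⟨th ^ j * n * (th ^ i)⁻¹, ?_⟩
  rw [map_mul, map_mul, ← hn', map_inv, map_zpow, map_zpow]
  group

theorem stLL (hC : StClose) : StLL := by
  intro H G _ _ _ pr em X D st
  have hT := st.td.tree
  have hL := isLine_vx st.td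
  have hA := actsOn_CG X (em th)
  have P1 : ∀ (γ : G) (R : ℕ), (∀ i : ℤ, ∃ j : ℤ, (CG X (em th)).dist (γ • vx (em th) X i)
      (vx (em th) X j) ≤ R) → ∃ h : H, γ = em h := by
    intro γ R hR
    have hL' : IsLine (CG X (em th)) (fun i => γ • vx (em th) X i) := by
      intro i j
      show (CG X (em th)).dist (γ • _) (γ • _) = _
      rw [dist_smul hT.1 hA]
      exact hL i j
    obtain ⟨c, ε, hε, h⟩ := hC _ _ hT _ _ hL hL' R hR
    have h0 := h 0
    have h1 := h 1
    have g0 := ht_of_smul st.td h0
    have g1 := ht_of_smul st.td h1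
    have hε1 : ε = 1 := by
      rcases hε with e | e
      · exact e
      · subst e
        omega
    subst hε1
    refine ll_aux st γ 0 c ?_ ?_
    · have := h 0
      simp only [mul_zero, add_zero] at this
      exact this
    · have := h (0 + D)
      simp only [one_mul, zero_add] at this ⊢
      exact this
  have P2 : ∀ (γ : G) (n n' : H), hz n = 1 → n ≠ 1 → hz n' = 1 → γ * em n * γ⁻¹ = em n' →
      ∃ h : H, γ = em h := by
    intro γ n n' hn hn1 hn' e
    have hn'1 : n' ≠ 1 := by
      intro h0
      rw [h0, map_one] at e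
      apply hn1
      have e1 : em n = 1 := by
        have : em n = γ⁻¹ * (γ * em n * γ⁻¹) * γ := by group
        rw [this, e]
        group
      have := st.sec n
      rw [e1, map_one] at this
      exact this.symm
    refine P1 γ D fun i => ?_
    refine st.F2 n' hn' hn'1 _ ?_
    rw [← e, mul_smul, inv_smul_smul, mul_smul, em_fix st hn]
  refine ⟨P1, P2, fun γ i j h1 h2 => ll_aux st γ i j h1 h2, ?_⟩
  intro h hh x hx hc
  by_cases h0 : hz h = 1
  · obtain ⟨h', hh'⟩ := P2 x h h h0 hh h0 (by rw [hc]; group)
    have := st.sec h'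
    rw [← hh', hx] at this
    rw [hh', ← this, map_one]
  · set m : ℤ := toAdd (hz h) with hm
    have hm0 : m ≠ 0 := by
      intro h1
      apply h0
      rw [← ofAdd_toAdd (hz h), ← hm, h1]
      rfl
    have hν : hz (h * th ^ (-m)) = 1 := by
      rw [map_mul, map_zpow, hz_th]
      apply toAdd.injective
      rw [toAdd_mul, toAdd_zpow, toAdd_ofAdd, ← hm, toAdd_one]
      simp
    obtain ⟨y, hy, hy'⟩ := surj m hm0 _ hν
    have hy2 : y * th ^ m * y⁻¹ = h := by
      rw [hy']
      group
    set x' := (em y)⁻¹ * x * em y with hx'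
    have hpr : pr x' = 1 := by
      rw [hx', map_mul, map_mul, hx, map_inv]
      group
    have hcomm : Commute x' (em th ^ m) := by
      have e1 : em th ^ m = (em y)⁻¹ * em h * em y := by
        rw [← hy2, map_mul, map_mul, map_inv, map_zpow]
        group
      show x' * em th ^ m = em th ^ m * x'
      rw [e1, hx']
      calc (em y)⁻¹ * x * em y * ((em y)⁻¹ * em h * em y)
          = (em y)⁻¹ * (x * em h) * em y := by group
        _ = (em y)⁻¹ * (em h * x) * em y := by rw [hc]
        _ = _ := by group
    have hd : ∀ q : ℤ, (CG X (em th)).dist (x' • vx (em th) X (m * q)) (vx (em th) X (m * q)) =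
        (CG X (em th)).dist (x' • vx (em th) X 0) (vx (em th) X 0) := by
      intro q
      have e1 : vx (em th) X (m * q) = ((em th) ^ (m * q)) • vx (em th) X 0 := by
        rw [vx_smul, zero_add]
      have e2 : x' * (em th) ^ (m * q) = (em th) ^ (m * q) * x' := by
        rw [zpow_mul]
        exact hcomm.zpow_right q
      rw [e1, ← mul_smul, e2, mul_smul, dist_smul hT.1 hA]
    obtain ⟨h', hh'⟩ := P1 x' ((CG X (em th)).dist (x' • vx (em th) X 0) (vx (em th) X 0) +
        2 * m.natAbs) (fun i => by
      refine ⟨i, ?_⟩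
      have a1 := hT.1.dist_triangle (u := x' • vx (em th) X i)
        (v := x' • vx (em th) X (m * (i / m))) (w := vx (em th) X i)
      have a2 := hT.1.dist_triangle (u := x' • vx (em th) X (m * (i / m)))
        (v := vx (em th) X (m * (i / m))) (w := vx (em th) X i)
      rw [dist_smul hT.1 hA, hL] at a1
      rw [hd, hL] at a2
      have e1 := Int.emod_add_mul_ediv i m
      have e2 := Int.emod_nonneg i hm0
      have e3 := Int.emod_lt_abs i hm0
      have e4 : |m| = m.natAbs := Int.abs_eq_natAbs m
      omega)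
    have hh1 : h' = 1 := by
      have := st.sec h'
      rw [← hh', hpr] at this
      exact this.symm
    rw [hh1, map_one] at hh'
    have : x = em y * x' * (em y)⁻¹ := by
      rw [hx']
      group
    rw [this, hh']
    group

end Pool.Agent.D6b
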