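import Pool.Agent.Lib.MP_d6b03d_al.Stmts

/-!
MP_d6b03d_al: M1, the limit group.
-/

set_option autoImplicit false

namespace Pool.Agent.D6b

open Base

namespace LimitAux

section Seq

variable (G : ℕ → Type) [∀ i, Group (G i)] (F : ∀ i, G i →* G (i + 1))

/-- the transition maps of a sequence -/
def mp (i j : ℕ) (h : i ≤ j) : G i →* G j :=
  Nat.leRecOn (C := fun k ↦ G i →* G k) h (fun {k} g ↦ (F k).comp g) (MonoidHom.id (G i))

lemma mp_self (i : ℕ) (x : G i) : mp G F i i le_rfl x = x := by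
  unfold mp
  rw [Nat.leRecOn_self]
  rfl

lemma mp_succ (i j : ℕ) (h : i ≤ j) (x : G i) :
    mp G F i (j + 1) (h.trans j.le_succ) x = F j (mp G F i j h x) := by
  unfold mp
  rw [Nat.leRecOn_succ (C := fun k ↦ G i →* G k) h]
  rfl

lemma mp_mp (i j : ℕ) (hij : i ≤ j) (k : ℕ) (hjk : j ≤ k) (x : G i) :
    mp G F j k hjk (mp G F i j hij x) = mp G F i k (hij.trans hjk) x := by
  induction k, hjk using Nat.le_induction with
  | base => rw [mp_self]
  | succ k hk ih => rw [mp_succ G F j k hk, ih, mp_succ G F i k (hij.trans hk)]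

instance : DirectedSystem G (fun i j h ↦ mp G F i j h) where
  map_self := fun i x ↦ mp_self G F i x
  map_map := fun k j i hij hjk x ↦ mp_mp G F i j hij k hjk x

theorem seqLimit : ∃ (L : Type) (_ : Group L) (ι : ∀ i, G i →* L),
    (∀ i x, ι (i + 1) (F i x) = ι i x) ∧ (∀ x : L, ∃ i y, ι i y = x) ∧
    (∀ i x, ι i x = 1 → ∃ (j : ℕ) (h : i ≤ j), mp G F i j h x = 1) ∧
    ∀ (H : Type) [Group H] (p : ∀ i, G i →* H), (∀ i x, p (i + 1) (F i x) = p i x) →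
      ∃ P : L →* H, ∀ i x, P (ι i x) = p i x := by
  let L := DirectLimit G (mp G F)
  let ι : ∀ i, G i →* L := fun i ↦
    { toFun := fun x ↦ ⟦⟨i, x⟩⟧
      map_one' := (DirectLimit.one_def i).symm
      map_mul' := fun x y ↦ (DirectLimit.mul_def i x y).symm }
  refine ⟨L, inferInstance, ι, ?_, ?_, ?_, ?_⟩
  · intro i x
    have h := DirectLimit.mk_apply (f := mp G F) i (i + 1) x (Nat.le_succ i)
    have h2 : mp G F i (i + 1) (Nat.le_succ i) x = F i x := by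
      have := mp_succ G F i i le_rfl x
      rw [mp_self] at this
      exact this
    rw [h2] at h
    exact h
  · intro x
    obtain ⟨i, y, hy⟩ := DirectLimit.exists_eq_mk (mp G F) x
    exact ⟨i, y, hy.symm⟩
  · intro i x hx
    have h1 : (⟦⟨i, x⟩⟧ : L) = ⟦⟨i, 1⟩⟧ := by
      rw [← DirectLimit.one_def i]; exact hx
    obtain ⟨j, h, h', e⟩ := Quotient.exact h1
    refine ⟨j, h, ?_⟩
    have e' : mp G F i j h x = mp G F i j h' 1 := e
    rw [e', map_one]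
  · intro H _ p hp
    have compat : ∀ i j h (x : G i), p i x = p j (mp G F i j h x) := by
      intro i j h x
      induction j, h using Nat.le_induction with
      | base => rw [mp_self]
      | succ k hk ih => rw [mp_succ G F i k hk, hp, ih]
    refine ⟨{ toFun := DirectLimit.lift (mp G F) (fun i x ↦ p i x) compat
              map_one' := ?_
              map_mul' := ?_ }, ?_⟩
    · rw [DirectLimit.one_def 0, DirectLimit.lift_def]
      exact map_one (p 0)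
    · intro x y
      obtain ⟨i, a, b, rfl, rfl⟩ := DirectLimit.exists_eq_mk₂ (mp G F) x y
      rw [DirectLimit.mul_def, DirectLimit.lift_def, DirectLimit.lift_def, DirectLimit.lift_def]
      exact map_mul (p i) a b
    · intro i x
      rfl

end Seq

section Step

variable {H : Type} [Group H] [Base H]

/-- a stage with a marked element and an array of elements -/
structure State (H : Type) [Group H] [Base H] where
  A : Stg H
  s : A.G
  hs : A.pr s = 1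
  hs1 : s ≠ 1
  e : ℕ → ℕ → A.G

theorem exists_step (hT : Tasks H) (A : Stg H) (s : A.G) (hs : A.pr s = 1) (hs1 : s ≠ 1)
    (x y : A.G) : ∃ (B : Stg H) (f : A.G →* B.G), Ext1 A B f ∧ f s ≠ 1 ∧
      (A.pr x ≠ 1 → ConjH B.em (f x)) ∧
      (A.pr x = 1 → x ≠ 1 → A.pr y = 1 → f y ∈ Mcl (B.em th) (f x)) := by
  by_cases h1 : A.pr x = 1
  · by_cases h2 : x ≠ 1 ∧ A.pr y = 1
    · obtain ⟨B, f, e1, e2, e3⟩ := hT.t2 A x y s h1 h2.1 h2.2 hs hs1
      exact ⟨B, f, e1, e2, fun h ↦ absurd h1 h, fun _ _ _ ↦ e3⟩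
    · refine ⟨A, MonoidHom.id _, ⟨fun _ ↦ rfl, fun _ ↦ rfl⟩, hs1, fun h ↦ absurd h1 h, ?_⟩
      intro _ h3 h4
      exact absurd ⟨h3, h4⟩ h2
  · obtain ⟨B, f, e1, e2, e3⟩ := hT.t1 A x s h1 hs hs1
    exact ⟨B, f, e1, e2, fun _ ↦ e3, fun h ↦ absurd h h1⟩

/-- the next stage -/
noncomputable def nB (hT : Tasks H) (σ : State H) (x y : σ.A.G) : Stg H :=
  (exists_step hT σ.A σ.s σ.hs σ.hs1 x y).choose

/-- the map to the next stage -/
noncomputable def nf (hT : Tasks H) (σ : State H) (x y : σ.A.G) : σ.A.G →* (nB hT σ x y).G :=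
  (exists_step hT σ.A σ.s σ.hs σ.hs1 x y).choose_spec.choose

theorem nf_spec (hT : Tasks H) (σ : State H) (x y : σ.A.G) :
    Ext1 σ.A (nB hT σ x y) (nf hT σ x y) ∧ nf hT σ x y σ.s ≠ 1 ∧
      (σ.A.pr x ≠ 1 → ConjH (nB hT σ x y).em (nf hT σ x y x)) ∧
      (σ.A.pr x = 1 → x ≠ 1 → σ.A.pr y = 1 →
        nf hT σ x y y ∈ Mcl ((nB hT σ x y).em th) (nf hT σ x y x)) :=
  (exists_step hT σ.A σ.s σ.hs σ.hs1 x y).choose_spec.choose_spec

/-- an enumeration of a stage -/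
noncomputable def en (A : Stg H) : ℕ → A.G :=
  haveI := A.cnt
  (exists_surjective_nat A.G).choose

theorem en_surj (A : Stg H) : Function.Surjective (en A) :=
  haveI := A.cnt
  (exists_surjective_nat A.G).choose_spec

/-- first element of the task of step `i` -/
def tx (σ : State H) (i : ℕ) : σ.A.G := σ.e i.unpair.1 i.unpair.2.unpair.1

/-- second element of the task of step `i` -/
def ty (σ : State H) (i : ℕ) : σ.A.G := σ.e i.unpair.1 i.unpair.2.unpair.2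

/-- step `i` -/
noncomputable def nx (hT : Tasks H) (i : ℕ) (σ : State H) : State H where
  A := nB hT σ (tx σ i) (ty σ i)
  s := nf hT σ (tx σ i) (ty σ i) σ.s
  hs := by
    rw [(nf_spec hT σ (tx σ i) (ty σ i)).1.1]
    exact σ.hs
  hs1 := (nf_spec hT σ (tx σ i) (ty σ i)).2.1
  e := fun j c ↦ if j = i + 1 then en _ c else nf hT σ (tx σ i) (ty σ i) (σ.e j c)

/-- the sequence of stages -/
noncomputable def sq (hT : Tasks H) (σ₀ : State H) : ℕ → State H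
  | 0 => σ₀
  | i + 1 => nx hT i (sq hT σ₀ i)

/-- the groups -/
def Gi (hT : Tasks H) (σ₀ : State H) (i : ℕ) : Type := (sq hT σ₀ i).A.G

noncomputable instance (hT : Tasks H) (σ₀ : State H) (i : ℕ) : Group (Gi hT σ₀ i) :=
  inferInstanceAs (Group (sq hT σ₀ i).A.G)

/-- the maps -/
noncomputable def Fi (hT : Tasks H) (σ₀ : State H) (i : ℕ) : Gi hT σ₀ i →* Gi hT σ₀ (i + 1) :=
  nf hT (sq hT σ₀ i) (tx (sq hT σ₀ i) i) (ty (sq hT σ₀ i) i)

/-- the projections -/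
noncomputable def pi' (hT : Tasks H) (σ₀ : State H) (i : ℕ) : Gi hT σ₀ i →* H := (sq hT σ₀ i).A.pr

/-- the embeddings -/
noncomputable def ei (hT : Tasks H) (σ₀ : State H) (i : ℕ) : H →* Gi hT σ₀ i := (sq hT σ₀ i).A.em

variable (hT : Tasks H) (σ₀ : State H)

lemma pi_F (i : ℕ) (x : Gi hT σ₀ i) : pi' hT σ₀ (i + 1) (Fi hT σ₀ i x) = pi' hT σ₀ i x :=
  (nf_spec hT (sq hT σ₀ i) (tx (sq hT σ₀ i) i) (ty (sq hT σ₀ i) i)).1.1 x

lemma F_ei (i : ℕ) (h : H) : Fi hT σ₀ i (ei hT σ₀ i h) = ei hT σ₀ (i + 1) h :=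
  (nf_spec hT (sq hT σ₀ i) (tx (sq hT σ₀ i) i) (ty (sq hT σ₀ i) i)).1.2 h

/-- the marked elements -/
noncomputable def si (i : ℕ) : Gi hT σ₀ i := (sq hT σ₀ i).s

/-- the arrays -/
noncomputable def ai (i : ℕ) (j c : ℕ) : Gi hT σ₀ i := (sq hT σ₀ i).e j c

lemma F_si (i : ℕ) : Fi hT σ₀ i (si hT σ₀ i) = si hT σ₀ (i + 1) := rfl

lemma si_ne (i : ℕ) : si hT σ₀ i ≠ 1 := (sq hT σ₀ i).hs1

lemma pi_si (i : ℕ) : pi' hT σ₀ i (si hT σ₀ i) = 1 := (sq hT σ₀ i).hs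

lemma ai_succ (i j c : ℕ) (h : j ≠ i + 1) :
    ai hT σ₀ (i + 1) j c = Fi hT σ₀ i (ai hT σ₀ i j c) := by
  show (nx hT i (sq hT σ₀ i)).e j c = _
  unfold nx
  simp only [if_neg h]
  rfl

lemma ai_surj (h0 : Function.Surjective (σ₀.e 0)) (i : ℕ) :
    Function.Surjective (ai hT σ₀ i i) := by
  cases i with
  | zero => exact h0
  | succ i =>
    intro x
    obtain ⟨c, hc⟩ := en_surj (sq hT σ₀ (i + 1)).A x
    refine ⟨c, ?_⟩
    show (nx hT i (sq hT σ₀ i)).e (i + 1) c = _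
    unfold nx
    simp only [if_true]
    exact hc

lemma mp_ai (j c i : ℕ) (h : j ≤ i) :
    mp (Gi hT σ₀) (Fi hT σ₀) j i h (ai hT σ₀ j j c) = ai hT σ₀ i j c := by
  induction i, h using Nat.le_induction with
  | base => rw [mp_self]
  | succ k hk ih =>
    rw [mp_succ (Gi hT σ₀) (Fi hT σ₀) j k hk, ih, ai_succ hT σ₀ k j c (by omega)]

lemma mp_si (j i : ℕ) (h : j ≤ i) :
    mp (Gi hT σ₀) (Fi hT σ₀) j i h (si hT σ₀ j) = si hT σ₀ i := by
  induction i, h using Nat.le_induction with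
  | base => rw [mp_self]
  | succ k hk ih => rw [mp_succ (Gi hT σ₀) (Fi hT σ₀) j k hk, ih, F_si]

lemma mp_ei (j i : ℕ) (h : j ≤ i) (y : H) :
    mp (Gi hT σ₀) (Fi hT σ₀) j i h (ei hT σ₀ j y) = ei hT σ₀ i y := by
  induction i, h using Nat.le_induction with
  | base => rw [mp_self]
  | succ k hk ih => rw [mp_succ (Gi hT σ₀) (Fi hT σ₀) j k hk, ih, F_ei]

lemma pi_mp (j i : ℕ) (h : j ≤ i) (x : Gi hT σ₀ j) :
    pi' hT σ₀ i (mp (Gi hT σ₀) (Fi hT σ₀) j i h x) = pi' hT σ₀ j x := by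
  induction i, h using Nat.le_induction with
  | base => rw [mp_self]
  | succ k hk ih => rw [mp_succ (Gi hT σ₀) (Fi hT σ₀) j k hk, pi_F, ih]

lemma treat1 (i : ℕ) (hx : pi' hT σ₀ i (ai hT σ₀ i i.unpair.1 i.unpair.2.unpair.1) ≠ 1) :
    ∃ (g : Gi hT σ₀ (i + 1)) (h : H),
      Fi hT σ₀ i (ai hT σ₀ i i.unpair.1 i.unpair.2.unpair.1) =
        g * ei hT σ₀ (i + 1) h * g⁻¹ :=
  (nf_spec hT (sq hT σ₀ i) (tx (sq hT σ₀ i) i) (ty (sq hT σ₀ i) i)).2.2.1 hx

lemma treat2 (i : ℕ) (hx : pi' hT σ₀ i (ai hT σ₀ i i.unpair.1 i.unpair.2.unpair.1) = 1)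
    (hx1 : ai hT σ₀ i i.unpair.1 i.unpair.2.unpair.1 ≠ 1)
    (hy : pi' hT σ₀ i (ai hT σ₀ i i.unpair.1 i.unpair.2.unpair.2) = 1) :
    Fi hT σ₀ i (ai hT σ₀ i i.unpair.1 i.unpair.2.unpair.2) ∈
      Mcl (ei hT σ₀ (i + 1) th) (Fi hT σ₀ i (ai hT σ₀ i i.unpair.1 i.unpair.2.unpair.1)) :=
  (nf_spec hT (sq hT σ₀ i) (tx (sq hT σ₀ i) i) (ty (sq hT σ₀ i) i)).2.2.2 hx hx1 hy

end Step

lemma Mcl_map {A B : Type} [Group A] [Group B] (f : A →* B) (t k u : A) (h : u ∈ Mcl t k) :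
    f u ∈ Mcl (f t) (f k) := by
  have h1 : (Mcl t k).map f ≤ Mcl (f t) (f k) := by
    unfold Mcl
    rw [MonoidHom.map_closure, Subgroup.closure_le]
    rintro _ ⟨x, ⟨i, rfl⟩, rfl⟩
    apply Subgroup.subset_closure
    exact ⟨i, by simp⟩
  exact h1 ⟨u, h, rfl⟩

end LimitAux

open LimitAux

theorem stLimit : StLimit := by
  intro H _ _ _ hT
  obtain ⟨A, s, hs, hs1⟩ := hT.start
  let σ₀ : State H := ⟨A, s, hs, hs1, fun _ ↦ en A⟩
  have h0 : Function.Surjective (σ₀.e 0) := en_surj A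
  obtain ⟨L, _, ι, hι, hsur, hker, hlift⟩ := seqLimit (Gi hT σ₀) (Fi hT σ₀)
  obtain ⟨P, hP⟩ := hlift H (pi' hT σ₀) (pi_F hT σ₀)
  have hmp : ∀ (j i : ℕ) (h : j ≤ i) (x : Gi hT σ₀ j),
      ι i (mp (Gi hT σ₀) (Fi hT σ₀) j i h x) = ι j x := by
    intro j i h x
    induction i, h using Nat.le_induction with
    | base => rw [mp_self]
    | succ k hk ih => rw [mp_succ (Gi hT σ₀) (Fi hT σ₀) j k hk, hι, ih]
  have hE : ∀ (i : ℕ) (y : H), ι i (ei hT σ₀ i y) = ι 0 (ei hT σ₀ 0 y) := by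
    intro i y
    rw [← mp_ei hT σ₀ 0 i (Nat.zero_le i) y, hmp]
  have htask : ∀ (i j : ℕ) (x y : Gi hT σ₀ j), ∃ (i : ℕ),
      ι i (ai hT σ₀ i i.unpair.1 i.unpair.2.unpair.1) = ι j x ∧
      ι i (ai hT σ₀ i i.unpair.1 i.unpair.2.unpair.2) = ι j y := by
    intro i j x y
    obtain ⟨c, rfl⟩ := ai_surj hT σ₀ h0 j x
    obtain ⟨c', rfl⟩ := ai_surj hT σ₀ h0 j y
    have hle : j ≤ Nat.pair j (Nat.pair c c') := Nat.left_le_pair _ _
    refine ⟨Nat.pair j (Nat.pair c c'), ?_, ?_⟩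
    · rw [Nat.unpair_pair, Nat.unpair_pair]
      show ι _ (ai hT σ₀ _ j c) = _
      rw [← mp_ai hT σ₀ j c _ hle, hmp]
    · rw [Nat.unpair_pair, Nat.unpair_pair]
      show ι _ (ai hT σ₀ _ j c') = _
      rw [← mp_ai hT σ₀ j c' _ hle, hmp]
  refine ⟨L, inferInstance, P, (ι 0).comp (ei hT σ₀ 0), ?_, ?_, ?_, ?_, ?_⟩
  · intro h
    show P (ι 0 _) = h
    rw [hP]
    exact (sq hT σ₀ 0).A.ok.sec h
  · refine ⟨ι 0 (si hT σ₀ 0), ?_, ?_⟩
    · rw [hP, pi_si]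
    · intro h
      obtain ⟨j, hj, e⟩ := hker 0 _ h
      rw [mp_si] at e
      exact si_ne hT σ₀ j e
  · intro g hg
    obtain ⟨j, x, rfl⟩ := hsur g
    obtain ⟨i, e1, -⟩ := htask 0 j x x
    rw [← e1, hP] at hg
    obtain ⟨g', h, e⟩ := treat1 hT σ₀ i hg
    refine ⟨ι (i + 1) g', h, ?_⟩
    have := congrArg (ι (i + 1)) e
    rw [hι, e1, map_mul, map_mul, map_inv, hE] at this
    exact this
  · intro h hh x hx hc
    obtain ⟨i, y, rfl⟩ := hsur x
    have e1 : ι i (y * ei hT σ₀ i h * (ei hT σ₀ i h * y)⁻¹) = 1 := by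
      rw [map_mul, map_inv, map_mul, map_mul, hE, mul_inv_eq_one]
      exact hc
    obtain ⟨j, hj, e2⟩ := hker i _ e1
    rw [map_mul, map_inv, map_mul, map_mul, mp_ei, mul_inv_eq_one] at e2
    rw [hP, ← pi_mp hT σ₀ i j hj] at hx
    have e3 := hT.cen (sq hT σ₀ j).A h hh _ hx e2
    have e4 : ι j (mp (Gi hT σ₀) (Fi hT σ₀) i j hj y) = 1 := by
      rw [show mp (Gi hT σ₀) (Fi hT σ₀) i j hj y = 1 from e3, map_one]
    rwa [hmp] at e4
  · intro k u hk hk1 hu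
    obtain ⟨i, x, rfl⟩ := hsur k
    obtain ⟨i', y, rfl⟩ := hsur u
    rw [← hmp i (max i i') (le_max_left _ _)] at hk hk1 ⊢
    rw [← hmp i' (max i i') (le_max_right _ _)] at hu ⊢
    generalize mp (Gi hT σ₀) (Fi hT σ₀) i (max i i') (le_max_left _ _) x = x' at hk hk1 ⊢
    generalize mp (Gi hT σ₀) (Fi hT σ₀) i' (max i i') (le_max_right _ _) y = y' at hu ⊢
    obtain ⟨n, e1, e2⟩ := htask 0 (max i i') x' y'
    rw [← e1, hP] at hk
    rw [← e2, hP] at hu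
    have hne : ai hT σ₀ n n.unpair.1 n.unpair.2.unpair.1 ≠ 1 := by
      intro h
      rw [← e1, h, map_one] at hk1
      exact hk1 rfl
    have := Mcl_map (ι (n + 1)) _ _ _ (treat2 hT σ₀ n hk hne hu)
    rw [hι, hι, e1, e2, hE] at this
    exact this

end Pool.Agent.D6b
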