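import Pool.Agent.Lib.MP_d6b03d_al.Stmts

/-!
T2: a walk without backtracking in a tree is geodesic.
-/

set_option autoImplicit false

namespace Pool.Agent.D6b

theorem stLocal : StLocal := by
  intro V S hS n p hadj hne
  have key : ∀ m, m ≤ n → ∃ W : S.Walk (p 0) (p m), W.IsPath ∧ W.length = m ∧
      W.penultimate = p (m - 1) := by
    intro m
    induction m with
    | zero => exact fun _ ↦ ⟨SimpleGraph.Walk.nil, by simp, by simp, by simp⟩
    | succ m ih =>
      intro hm
      obtain ⟨W, hW, hlen, hpen⟩ := ih (by omega)
      have ha : S.Adj (p m) (p (m + 1)) := hadj m (by omega)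
      have hns : p (m + 1) ∉ W.support := by
        intro hmem
        have h1 := hS.isAcyclic.eq_penultimate_of_adj_end hW ha hmem
        rw [hpen] at h1
        rcases Nat.eq_zero_or_pos m with h0 | h0
        · subst h0
          simp only [zero_add, zero_tsub] at h1
          rw [zero_add, h1] at ha
          exact S.loopless.irrefl _ ha
        · have h2 := hne (m - 1) (by omega)
          have e : m - 1 + 2 = m + 1 := by omega
          rw [e] at h2
          exact h2 h1.symm
      refine ⟨W.concat ha, hW.concat hns ha, ?_, ?_⟩
      · rw [SimpleGraph.Walk.length_concat, hlen]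
      · rw [SimpleGraph.Walk.penultimate_concat]
        simp
  obtain ⟨W, hW, hlen, -⟩ := key n le_rfl
  obtain ⟨W', hW', hlen'⟩ := hS.connected.exists_path_of_dist (p 0) (p n)
  have : W = W' := (hS.existsUnique_path (p 0) (p n)).unique hW hW'
  rw [← hlen', ← this, hlen]

end Pool.Agent.D6b
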