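import Pool.Agent.Lib.MP_d6b03d_al.Stmts

/-!
MP_d6b03d_al, module E2: the free factor generated by `Y` and `a₁ b a₂ b a₃` is malnormal.
-/

set_option autoImplicit false

namespace Pool.Agent.D6b

namespace Mal

variable {G : Type} [Group G] {ι : Type}

/-- the factor of a letter -/
def le (a : ι → G) (i : ι) (e : Bool) : G := if e then a i else (a i)⁻¹

theorem wprod_nil (a : ι → G) : wprod a [] = 1 := rfl

theorem wprod_cons (a : ι → G) (x : ι × Bool × G) (l : List (ι × Bool × G)) :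
    wprod a (x :: l) = le a x.1 x.2.1 * x.2.2 * wprod a l := by
  unfold wprod le
  rw [List.map_cons, List.prod_cons]

theorem red_nil (P : Subgroup G) : Red P ([] : List (ι × Bool × G)) :=
  ⟨by simp, List.isChain_nil⟩

theorem red_cons {P : Subgroup G} {x : ι × Bool × G} {l : List (ι × Bool × G)} :
    Red P (x :: l) ↔ x.2.2 ∈ P ∧
      (∀ y ∈ l.head?, ¬ (x.1 = y.1 ∧ x.2.1 ≠ y.2.1 ∧ x.2.2 = 1)) ∧ Red P l := by
  unfold Red
  rw [List.isChain_cons]
  constructor
  · rintro ⟨h1, h2, h3⟩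
    exact ⟨h1 x List.mem_cons_self, h2, fun y hy => h1 y (List.mem_cons_of_mem _ hy), h3⟩
  · rintro ⟨h1, h2, h3, h4⟩
    refine ⟨?_, h2, h4⟩
    intro y hy
    rcases List.mem_cons.1 hy with rfl | hy
    · exact h1
    · exact h3 y hy

/-- reduced forms -/
theorem form {P : Subgroup G} {a : ι → G} {x : G}
    (hx : x ∈ P ⊔ Subgroup.closure (Set.range a)) :
    ∃ y ∈ P, ∃ l : List (ι × Bool × G), Red P l ∧ x = y * wprod a l := by
  have hcl : P ⊔ Subgroup.closure (Set.range a) = Subgroup.closure ((P : Set G) ∪ Set.range a) := by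
    rw [Subgroup.closure_union, Subgroup.closure_eq]
  rw [hcl] at hx
  have step : ∀ (i : ι) (e : Bool) (y : G), (∃ y₀ ∈ P, ∃ l : List (ι × Bool × G), Red P l ∧
      y = y₀ * wprod a l) → ∃ y₀ ∈ P, ∃ l : List (ι × Bool × G), Red P l ∧
      le a i e * y = y₀ * wprod a l := by
    rintro i e y ⟨y₀, hy₀, l, hl, rfl⟩
    by_cases hc : ∀ z ∈ l.head?, ¬ (i = z.1 ∧ e ≠ z.2.1 ∧ y₀ = 1)
    · refine ⟨1, P.one_mem, (i, e, y₀) :: l, red_cons.2 ⟨hy₀, hc, hl⟩, ?_⟩
      rw [wprod_cons]
      simp [mul_assoc]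
    · push Not at hc
      obtain ⟨z, hz, h1, h2, h3⟩ := hc
      cases l with
      | nil => simp at hz
      | cons w l =>
        simp only [List.head?_cons, Option.mem_def, Option.some.injEq] at hz
        subst hz
        obtain ⟨g1, g2, g3⟩ := red_cons.1 hl
        refine ⟨w.2.2, g1, l, g3, ?_⟩
        rw [wprod_cons, h3, h1]
        have h4 : le a w.1 e * le a w.1 w.2.1 = 1 := by
          unfold le
          cases e <;> cases h5 : w.2.1 <;> simp_all
        calc le a w.1 e * (1 * (le a w.1 w.2.1 * w.2.2 * wprod a l)) =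
            (le a w.1 e * le a w.1 w.2.1) * (w.2.2 * wprod a l) := by group
          _ = _ := by rw [h4, one_mul]
  have stepP : ∀ (p : G), p ∈ P → ∀ (y : G), (∃ y₀ ∈ P, ∃ l : List (ι × Bool × G), Red P l ∧
      y = y₀ * wprod a l) → ∃ y₀ ∈ P, ∃ l : List (ι × Bool × G), Red P l ∧
      p * y = y₀ * wprod a l := by
    rintro p hp y ⟨y₀, hy₀, l, hl, rfl⟩
    exact ⟨p * y₀, P.mul_mem hp hy₀, l, hl, by rw [mul_assoc]⟩
  induction hx using Subgroup.closure_induction_left with
  | one => exact ⟨1, P.one_mem, [], red_nil P, by simp [wprod_nil]⟩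
  | mul_left x hx y hy ih =>
    rcases hx with hx | ⟨i, rfl⟩
    · exact stepP x hx y ih
    · exact step i true y ih
  | inv_mul_cancel x hx y hy ih =>
    rcases hx with hx | ⟨i, rfl⟩
    · exact stepP x⁻¹ (P.inv_mem hx) y ih
    · exact step i false y ih

/-- the word of `w⁻¹ z u` -/
def J : G → List (ι × Bool × G) → List (ι × Bool × G) → List (ι × Bool × G)
  | _, [], acc => acc
  | z, x :: l, acc => J x.2.2⁻¹ l ((x.1, !x.2.1, z) :: acc)

/-- the first coefficient -/
def lc : G → List (ι × Bool × G) → G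
  | z, [] => z
  | _, x :: l => lc x.2.2⁻¹ l

theorem J_prod (a : ι → G) (l : List (ι × Bool × G)) : ∀ (z : G) (acc : List (ι × Bool × G)),
    lc z l * wprod a (J z l acc) = (wprod a l)⁻¹ * z * wprod a acc := by
  induction l with
  | nil =>
    intro z acc
    simp [lc, J, wprod_nil]
  | cons x l ih =>
    intro z acc
    rw [lc, J, ih, wprod_cons, wprod_cons]
    have h4 : le a x.1 (!x.2.1) = (le a x.1 x.2.1)⁻¹ := by
      unfold le
      cases x.2.1 <;> simp
    simp only [h4]
    group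

theorem lc_mem {P : Subgroup G} (l : List (ι × Bool × G)) : ∀ (z : G), z ∈ P → Red P l →
    lc z l ∈ P := by
  induction l with
  | nil =>
    intro z hz _
    exact hz
  | cons x l ih =>
    intro z _ hl
    obtain ⟨g1, -, g3⟩ := red_cons.1 hl
    exact ih _ (P.inv_mem g1) g3

theorem J_red {P : Subgroup G} (l : List (ι × Bool × G)) : ∀ (z : G)
    (acc : List (ι × Bool × G)), z ∈ P → Red P l → Red P acc → acc ≠ [] →
    (∀ x ∈ l.head?, ∀ y ∈ acc.head?, ¬ (x.1 = y.1 ∧ (!x.2.1) ≠ y.2.1 ∧ z = 1)) →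
    Red P (J z l acc) ∧ J z l acc ≠ [] := by
  induction l with
  | nil =>
    intro z acc _ _ hacc hne _
    exact ⟨hacc, hne⟩
  | cons x l ih =>
    intro z acc hz hl hacc _ hj
    obtain ⟨g1, g2, g3⟩ := red_cons.1 hl
    rw [J]
    apply ih _ _ (P.inv_mem g1) g3
    · rw [red_cons]
      exact ⟨hz, fun y hy => hj x (by simp) y hy, hacc⟩
    · simp
    · intro x' hx' y hy
      simp only [List.head?_cons, Option.mem_def, Option.some.injEq] at hy
      subst hy
      rintro ⟨h1, h2, h3⟩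
      apply g2 x' hx'
      refine ⟨h1.symm, ?_, inv_eq_one.1 h3⟩
      intro h4
      apply h2
      simp [h4]

theorem mal {P : Subgroup G} {a : ι → G} (hF : FreeOver P a) {x z : G}
    (hx : x ∈ P ⊔ Subgroup.closure (Set.range a)) (hz : z ∈ P) (hz1 : z ≠ 1)
    (h : x⁻¹ * z * x ∈ P) : x ∈ P := by
  obtain ⟨y, hy, l, hl, rfl⟩ := form hx
  cases hl' : l with
  | nil =>
    rw [wprod_nil, mul_one]
    exact hy
  | cons w l' =>
    exfalso
    have hne : l ≠ [] := by
      rw [hl']
      simp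
    have hz' : y⁻¹ * z * y ∈ P := P.mul_mem (P.mul_mem (P.inv_mem hy) hz) hy
    have hz1' : y⁻¹ * z * y ≠ 1 := by
      intro h1
      apply hz1
      have : z = y * (y⁻¹ * z * y) * y⁻¹ := by group
      rw [this, h1]
      group
    obtain ⟨h2, h3⟩ := J_red l (y⁻¹ * z * y) l hz' hl hl hne
      (fun _ _ _ _ h4 => hz1' h4.2.2)
    apply hF _ h3 h2
    have h4 := J_prod a l (y⁻¹ * z * y) l
    have h5 : wprod a (J (y⁻¹ * z * y) l l) = (lc (y⁻¹ * z * y) l)⁻¹ *
        ((y * wprod a l)⁻¹ * z * (y * wprod a l)) := by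
      have e : (y * wprod a l)⁻¹ * z * (y * wprod a l) =
          (wprod a l)⁻¹ * (y⁻¹ * z * y) * wprod a l := by group
      rw [e, ← h4]
      group
    rw [h5]
    exact P.mul_mem (P.inv_mem (lc_mem l _ hz' hl)) h

/-- reindexing -/
theorem reindex {κ : Type} {P : Subgroup G} {a : ι → G} (f : κ → ι) (hf : Function.Injective f)
    (hF : FreeOver P a) : FreeOver P (fun k => a (f k)) := by
  intro l hne hl
  have h1 : Red P (l.map fun x => (f x.1, x.2.1, x.2.2)) := by
    clear hne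
    induction l with
    | nil => exact red_nil P
    | cons x l ih =>
      obtain ⟨g1, g2, g3⟩ := red_cons.1 hl
      rw [List.map_cons, red_cons]
      refine ⟨g1, ?_, ih g3⟩
      intro y hy
      rw [List.head?_map, Option.mem_def, Option.map_eq_some_iff] at hy
      obtain ⟨y', hy', rfl⟩ := hy
      rintro ⟨h1, h2, h3⟩
      exact g2 y' hy' ⟨hf h1, h2, h3⟩
  have h2 : wprod a (l.map fun x => (f x.1, x.2.1, x.2.2)) = wprod (fun k => a (f k)) l := by
    unfold wprod
    rw [List.map_map]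
    rfl
  rw [← h2]
  exact hF _ (by simpa using hne) h1

/-- left factor -/
def lf (c c' : ι → G) (i : ι) (e : Bool) : G := if e then c i else (c' i)⁻¹

/-- the transformed word -/
def tr (c c' : ι → G) : List (ι × Bool × G) → List (ι × Bool × G)
  | [] => []
  | x :: l => (x.1, x.2.1, (lf c c' x.1 (!x.2.1))⁻¹ * x.2.2 *
      (match l.head? with
        | none => 1
        | some y => lf c c' y.1 y.2.1)) :: tr c c' l

theorem tr_head (c c' : ι → G) (l : List (ι × Bool × G)) :
    (tr c c' l).head?.map (fun x => (x.1, x.2.1)) = l.head?.map (fun x => (x.1, x.2.1)) := by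
  cases l with
  | nil => rfl
  | cons x l => rfl

theorem tr_red {P : Subgroup G} {c c' : ι → G} (hc : ∀ i, c i ∈ P) (hc' : ∀ i, c' i ∈ P)
    (l : List (ι × Bool × G)) (hl : Red P l) : Red P (tr c c' l) := by
  have hlf : ∀ i e, lf c c' i e ∈ P := by
    intro i e
    unfold lf
    cases e
    · exact P.inv_mem (hc' i)
    · exact hc i
  induction l with
  | nil => exact red_nil P
  | cons x l ih =>
    obtain ⟨g1, g2, g3⟩ := red_cons.1 hl
    rw [tr, red_cons]
    refine ⟨?_, ?_, ih g3⟩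
    · apply P.mul_mem (P.mul_mem (P.inv_mem (hlf _ _)) g1)
      cases l.head? with
      | none => exact P.one_mem
      | some y => exact hlf _ _
    · intro y hy
      cases l with
      | nil => simp [tr] at hy
      | cons w l =>
        rw [tr] at hy
        simp only [List.head?_cons, Option.mem_def, Option.some.injEq] at hy
        subst hy
        rintro ⟨h1, h2, h3⟩
        simp only at h1 h2 h3
        apply g2 w (by simp)
        refine ⟨h1, h2, ?_⟩
        have h4 : (!x.2.1) = w.2.1 := by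
          cases h5 : x.2.1 <;> cases h6 : w.2.1 <;> simp_all
        simp only [List.head?_cons] at h3
        rw [h4, h1] at h3
        have : x.2.2 = lf c c' w.1 w.2.1 * ((lf c c' w.1 w.2.1)⁻¹ * x.2.2 * lf c c' w.1 w.2.1) *
            (lf c c' w.1 w.2.1)⁻¹ := by group
        rw [this, h3]
        group

theorem tr_prod (a c c' : ι → G) (l : List (ι × Bool × G)) :
    wprod (fun i => c i * a i * c' i) l =
      (match l.head? with
        | none => 1
        | some y => lf c c' y.1 y.2.1) * wprod a (tr c c' l) := by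
  induction l with
  | nil => simp [tr, wprod_nil]
  | cons x l ih =>
    rw [wprod_cons, ih, tr, wprod_cons]
    simp only [List.head?_cons]
    have h1 : le (fun i => c i * a i * c' i) x.1 x.2.1 =
        lf c c' x.1 x.2.1 * le a x.1 x.2.1 * (lf c c' x.1 (!x.2.1))⁻¹ := by
      unfold le lf
      cases x.2.1 <;> simp [mul_assoc]
    rw [h1]
    group

theorem change {P : Subgroup G} {a c c' : ι → G} (hF : FreeOver P a) (hc : ∀ i, c i ∈ P)
    (hc' : ∀ i, c' i ∈ P) : FreeOver P (fun i => c i * a i * c' i) := by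
  intro l hne hl h
  have hlf : ∀ i e, lf c c' i e ∈ P := by
    intro i e
    unfold lf
    cases e
    · exact P.inv_mem (hc' i)
    · exact hc i
  rw [tr_prod] at h
  apply hF (tr c c' l)
  · cases l with
    | nil => exact absurd rfl hne
    | cons x l => simp [tr]
  · exact tr_red hc hc' l hl
  · have h2 := P.mul_mem (P.inv_mem (show (match l.head? with
        | none => 1
        | some y => lf c c' y.1 y.2.1) ∈ P by
          cases l.head? with
          | none => exact P.one_mem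
          | some y => exact hlf _ _)) h
    rwa [inv_mul_cancel_left] at h2

end Mal

open Mal in
theorem stMal (hE : StFAssoc) : StMal := by
  intro G _ Y a₁ a₂ a₃ b hb hF
  -- FreeOver Y (a₁, a₃, a₂)
  have e1 : (fun k : Fin 2 ⊕ Fin 1 => (![a₁, a₂, a₃] : Fin 3 → G)
      (Sum.elim (![0, 2] : Fin 2 → Fin 3) (![1] : Fin 1 → Fin 3) k)) =
      Sum.elim ![a₁, a₃] ![a₂] := by
    ext k
    rcases k with k | k
    · fin_cases k <;> rfl
    · fin_cases k; rfl
  have h1 : FreeOver Y (Sum.elim ![a₁, a₃] ![a₂]) := by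
    rw [← e1]
    apply reindex _ _ hF
    intro x y hxy
    rcases x with x | x <;> rcases y with y | y <;> fin_cases x <;> fin_cases y <;>
      simp_all
  obtain ⟨h2, h3⟩ := (hE G Y _ _ ![a₁, a₃] ![a₂]).1 h1
  set Y₁ := Y ⊔ Subgroup.closure (Set.range ![a₁, a₃]) with hY₁
  have ha₁ : a₁ ∈ Y₁ := (le_sup_right : _ ≤ Y₁) (Subgroup.subset_closure ⟨0, rfl⟩)
  have ha₃ : a₃ ∈ Y₁ := (le_sup_right : _ ≤ Y₁) (Subgroup.subset_closure ⟨1, rfl⟩)
  have hbY : b ∈ Y₁ := (le_sup_left : Y ≤ Y₁) hb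
  have h4 : FreeOver Y₁ ![a₁ * b * a₂ * b * a₃] := by
    have h5 := change (c := fun _ => a₁ * b) (c' := fun _ => b * a₃) h3
      (fun _ => Y₁.mul_mem ha₁ hbY) (fun _ => Y₁.mul_mem hbY ha₃)
    have e2 : (fun i : Fin 1 => a₁ * b * (![a₂] : Fin 1 → G) i * (b * a₃)) =
        ![a₁ * b * a₂ * b * a₃] := by
      ext i
      fin_cases i
      simp [mul_assoc]
    rw [e2] at h5
    exact h5
  have h6 : FreeOver Y (Sum.elim ![a₁, a₃] ![a₁ * b * a₂ * b * a₃]) :=
    (hE G Y _ _ _ _).2 ⟨h2, h4⟩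
  have h7 : FreeOver Y (Sum.elim ![a₁ * b * a₂ * b * a₃] ![a₁, a₃]) := by
    have e3 : (fun k : Fin 1 ⊕ Fin 2 => Sum.elim ![a₁, a₃] ![a₁ * b * a₂ * b * a₃] k.swap) =
        Sum.elim ![a₁ * b * a₂ * b * a₃] ![a₁, a₃] := by
      ext k
      rcases k with k | k <;> rfl
    rw [← e3]
    apply reindex _ _ h6
    intro x y hxy
    exact Sum.swap_leftInverse.injective hxy
  obtain ⟨h8, h9⟩ := (hE G Y _ _ _ _).1 h7
  refine ⟨h8, ?_⟩
  have e4 : Set.range ![a₁ * b * a₂ * b * a₃] = {a₁ * b * a₂ * b * a₃} := by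
    ext x
    constructor
    · rintro ⟨i, rfl⟩
      fin_cases i
      rfl
    · rintro rfl
      exact ⟨0, rfl⟩
  rw [e4] at h9
  intro x hx z hz hz1 hxz
  apply mal h9 _ hz hz1 hxz
  set B := Y ⊔ Subgroup.closure {a₁ * b * a₂ * b * a₃} with hB
  set C := B ⊔ Subgroup.closure (Set.range ![a₁, a₃]) with hC
  have k1 : a₁ ∈ C := (le_sup_right : _ ≤ C) (Subgroup.subset_closure ⟨0, rfl⟩)
  have k3 : a₃ ∈ C := (le_sup_right : _ ≤ C) (Subgroup.subset_closure ⟨1, rfl⟩)
  have kY : Y ≤ C := le_sup_left.trans (le_sup_left : B ≤ C)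
  have kv : a₁ * b * a₂ * b * a₃ ∈ C :=
    (le_sup_left : B ≤ C) ((le_sup_right : _ ≤ B) (Subgroup.subset_closure rfl))
  have kb : b ∈ C := kY hb
  have k2 : a₂ ∈ C := by
    have e5 : a₂ = (a₁ * b)⁻¹ * (a₁ * b * a₂ * b * a₃) * (b * a₃)⁻¹ := by group
    rw [e5]
    exact C.mul_mem (C.mul_mem (C.inv_mem (C.mul_mem k1 kb)) kv) (C.inv_mem (C.mul_mem kb k3))
  have : Y ⊔ Subgroup.closure {a₁, a₂, a₃} ≤ C := by
    apply sup_le kY
    rw [Subgroup.closure_le]
    rintro w (rfl | rfl | rfl)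
    · exact k1
    · exact k2
    · exact k3
  exact this hx

end Pool.Agent.D6b
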