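import Pool.Agent.Lib.MP_d6b03d_al.Stmts

/-!
MP_d6b03d_al, module T6: a geodesic with both ends close to a line runs in the line except near
its ends.
-/

set_option autoImplicit false

namespace Pool.Agent.D6b

theorem stNear (h1 : StFourPt) (h4 : StBtwU) : StNear := by
  intro V S hS L hL r D p hp ⟨a, ha⟩ ⟨b, hb⟩ i hDi hir
  have hc := hS.connected
  have e0 : S.dist (p 0) (p i) = i := by
    rw [hp 0 (by omega) i (by omega)]
    omega
  have er : S.dist (p r) (p i) = r - i := by
    rw [hp r (by omega) i (by omega)]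
    omega
  have e0r : S.dist (p 0) (p r) = r := by
    rw [hp 0 (by omega) r (by omega)]
    omega
  have A := h1 V S hS (p 0) (p r) (p i) (L a)
  rcases Nat.le_or_ge (S.dist (p 0) (L a) + S.dist (p r) (p i))
    (S.dist (p 0) (p i) + S.dist (p r) (L a)) with hle | hle
  swap
  · rw [max_eq_right hle] at A
    have h0 : S.dist (p i) (L a) = 0 := by omega
    exact ⟨a, hc.dist_eq_zero_iff.mp h0⟩
  rw [max_eq_left hle] at A
  have B := h1 V S hS (p r) (L a) (p i) (L b)
  rcases Nat.le_or_ge (S.dist (p r) (L b) + S.dist (L a) (p i))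
    (S.dist (p r) (p i) + S.dist (L a) (L b)) with hle' | hle'
  swap
  · rw [max_eq_right hle', S.dist_comm (u := L a) (v := p i)] at B
    have h0 : S.dist (p i) (L b) = 0 := by omega
    exact ⟨b, hc.dist_eq_zero_iff.mp h0⟩
  rw [max_eq_left hle'] at B
  have tri := hc.dist_triangle (u := L a) (v := p i) (w := L b)
  have cm := S.dist_comm (u := L a) (v := p i)
  have bt : Btw S (L a) (p i) (L b) := by
    unfold Btw
    omega
  have hab := hL a b
  set k := S.dist (L a) (p i) with hk
  have hkle : k ≤ (a - b).natAbs := by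
    rw [← hab]
    unfold Btw at bt
    omega
  rcases le_total a b with hle2 | hle2
  · refine ⟨a + k, (h4 V S hS).1 (L a) (L b) (p i) (L (a + k)) bt ?_ ?_⟩
    · unfold Btw
      rw [hL, hL, hL]
      omega
    · rw [hL, ← hk]
      omega
  · refine ⟨a - k, (h4 V S hS).1 (L a) (L b) (p i) (L (a - k)) bt ?_ ?_⟩
    · unfold Btw
      rw [hL, hL, hL]
      omega
    · rw [hL, ← hk]
      omega

end Pool.Agent.D6b
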