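import Pool.Agent.Lib.MP_d6b03d_al.Stmts

/-!
MP_d6b03d_al: module P1, abstract ping-pong.
-/

set_option autoImplicit false

namespace Pool.Agent.D6b

open Multiplicative Base

theorem stPP : StPP := by
  intro G V ι _ _ B a U v₀ h1 h2 h3 h4 l hl hred
  have act : ∀ (i : ι) (e : Bool) (z : V), z ∉ U i (!e) →
      (if e then a i else (a i)⁻¹) • z ∈ U i e := by
    intro i e z hz
    cases e with
    | true => simpa using h2 i z (by simpa using hz)
    | false => simpa using h3 i z (by simpa using hz)
  have key : ∀ (l' : List (ι × Bool × G)) (x : ι × Bool × G), Red B (x :: l') →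
      wprod a (x :: l') • v₀ ∈ U x.1 x.2.1 := by
    intro l'
    induction l' with
    | nil =>
      intro x hx
      have hp : x.2.2 ∈ B := hx.1 x (by simp)
      have : wprod a [x] = (if x.2.1 then a x.1 else (a x.1)⁻¹) * x.2.2 := by
        simp [wprod]
      rw [this, mul_smul]
      exact act _ _ _ (h1 _ hp _ _)
    | cons y l'' ih =>
      intro x hx
      have hp : x.2.2 ∈ B := hx.1 x (by simp)
      have hch := hx.2
      rw [List.isChain_cons_cons] at hch
      have hy : Red B (y :: l'') := ⟨fun z hz => hx.1 z (by simp [List.mem_cons.mp hz]), hch.2⟩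
      have hz := ih y hy
      have : wprod a (x :: y :: l'') =
          (if x.2.1 then a x.1 else (a x.1)⁻¹) * (x.2.2 * wprod a (y :: l'')) := by
        simp [wprod, mul_assoc]
      rw [this, mul_smul, mul_smul]
      refine act _ _ _ ?_
      intro hmem
      obtain ⟨q1, q2, q3⟩ := h4 _ hp _ _ _ _ _ hz hmem
      exact hch.1 ⟨q2, by rw [← q3]; cases x.2.1 <;> simp, q1⟩
  cases l with
  | nil => exact absurd rfl hl
  | cons x l' =>
    intro hB
    exact h1 _ hB _ _ (key l' x hred)

end Pool.Agent.D6b
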