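import Mathlib
import Pool.Agent.Lib.MP_d6b03d_al.Stmts
import Pool.Agent.Lib.MP_d6b03d_al.BtwU

/-!
T10: a fixed vertex projects to a fixed vertex of an invariant convex set.
-/

set_option autoImplicit false

namespace Pool.Agent.D6b

/-- the first vertex of a geodesic -/
theorem exists_step {V : Type} {S : SimpleGraph V} (hS : S.Connected) {u v : V} (h : u ≠ v) :
    ∃ r : V, S.Adj u r ∧ S.dist u r = 1 ∧ S.dist r v + 1 = S.dist u v ∧ Btw S u r v := by
  obtain ⟨w, hw⟩ := hS.exists_walk_length_eq_dist u v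
  cases w with
  | nil => exact absurd rfl h
  | cons hadj w' =>
    rename_i r
    have h1 : S.dist u r = 1 := SimpleGraph.dist_eq_one_iff_adj.2 hadj
    have h2 := SimpleGraph.dist_le w'
    rw [SimpleGraph.Walk.length_cons] at hw
    have h3 := hS.dist_triangle (u := u) (v := r) (w := v)
    refine ⟨r, hadj, h1, by omega, ?_⟩
    unfold Btw
    omega

theorem stProjFix (h1 : StFourPt) : StProjFix := by
  intro V S hS G _ _ hG e U hU hne hinv c hc
  classical
  obtain ⟨c', hc'U, hmin⟩ : ∃ c' ∈ U, ∀ x ∈ U, S.dist c c' ≤ S.dist c x := by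
    have hex : ∃ k : ℕ, ∃ x ∈ U, S.dist c x = k := by
      obtain ⟨x, hx⟩ := hne
      exact ⟨_, x, hx, rfl⟩
    obtain ⟨x, hx, hxk⟩ := Nat.find_spec hex
    exact ⟨x, hx, fun y hy => by rw [hxk]; exact Nat.find_min' hex ⟨y, hy, rfl⟩⟩
  refine ⟨c', hc'U, ?_⟩
  by_contra hcon
  have hd : S.dist c (e • c') = S.dist c c' := by
    have := dist_smul hS.connected hG e c c'
    rwa [hc] at this
  have hU' := hinv c' hc'U
  obtain ⟨r, hadj, hr1, hr2, hb⟩ := exists_step hS.connected (u := c') (v := e • c')
    (fun h => hcon h.symm)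
  have hrU : r ∈ U := hU _ hc'U _ hU' r hb
  have h4 := h1 V S hS c r c' (e • c')
  have h5 := hmin r hrU
  have h6 : S.dist r c' = 1 := by rw [SimpleGraph.dist_comm]; exact hr1
  rw [hd, h6] at h4
  rcases Nat.lt_or_ge (S.dist c' (e • c')) 2 with h7 | h7
  · -- adjacent vertices at the same distance
    have h8 : S.dist r (e • c') = 0 := by omega
    have h9 : r = e • c' := by
      rwa [hS.connected.dist_eq_zero_iff] at h8
    have h10 := hS.dist_ne_of_adj (u := c) hadj
    rw [h9] at h10
    exact h10 hd.symm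
  · have h11 : max (S.dist c c' + S.dist r (e • c')) (S.dist c c' + 1) =
        S.dist c c' + S.dist r (e • c') := max_eq_left (by omega)
    rw [h11] at h4
    omega

end Pool.Agent.D6b
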