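import Pool.Agent.Lib.MP_d6b03d_al.Stmts

/-!
MP_d6b03d_al, module StS1: the first task.
-/

set_option autoImplicit false

namespace Pool.Agent.D6b

open Multiplicative Base

namespace S1Task

theorem stage_iter (h1 : StBC) {H G : Type} [Group H] [Base H] [Group G] (pr : G →* H)
    (em : H →* G) (X : Subgroup G) (D : ℕ) (hst : IsStage pr em X D) (n : ℕ) :
    ∃ D' : ℕ, IsStage pr em (Xn (em th) X n) D' := by
  induction n with
  | zero => exact ⟨D, hst⟩
  | succ n ih =>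
    obtain ⟨D', hD'⟩ := ih
    exact ⟨D' + 2, h1 H G pr em _ D' hD'⟩

end S1Task

open S1Task in
theorem stS1 (h1 : StBC) (h2 : StAbsorb) (h4 : StS1Prep) (hH4 : StS1Ext) : StS1 := by
  intro H _ _ A g s₀ hg0 hg1 hs1
  by_cases hN : ConjN A.em g
  · obtain ⟨y, n, _, hn⟩ := hN
    exact ⟨A, MonoidHom.id _, ⟨fun _ => rfl, fun _ => rfl⟩, hs1, y, n, hn⟩
  obtain ⟨G, cnt, pr, em, X, D, ok⟩ := A
  simp only at g s₀ hg0 hg1 hs1 hN ⊢
  set t : G := em th with ht
  have hT := ok.td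
  obtain ⟨_, ⟨R, hR⟩, _⟩ := h4 H G pr em X D ok g hg0 hg1 hN
  set g' := t ^ R * g * (t ^ R)⁻¹ with hg'
  have hg'0 : hz (pr g') = 1 := by
    rw [hg', map_mul, map_mul, map_mul, map_mul, hg0, map_inv, map_inv]
    simp
  have hg'1 : pr g' ≠ 1 := by
    intro h
    apply hg1
    have : g = (t ^ R)⁻¹ * g' * t ^ R := by rw [hg']; group
    rw [this, map_mul, map_mul, h, map_inv]
    simp
  have hN' : ¬ ConjN em g' := by
    rintro ⟨y, n, hn, hy⟩
    refine hN ⟨(t ^ R)⁻¹ * y, n, hn, ?_⟩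
    have : g = (t ^ R)⁻¹ * g' * t ^ R := by rw [hg']; group
    rw [this, hy]
    group
  obtain ⟨_, _, i3, i4, i5⟩ := h4 H G pr em X D ok g' hg'0 hg'1 hN'
  obtain ⟨D₁, hst1⟩ := stage_iter h1 pr em X D ok (2 * R)
  set C : Subgroup G := Subgroup.centralizer {g'} with hC
  have hCm : ∀ c, c ∈ C ↔ c * g' = g' * c := fun c => Subgroup.mem_centralizer_singleton_iff
  have hCX : C ≤ Xn t X (2 * R) := by
    intro c hc
    rw [hCm] at hc
    have h5 : ((t ^ R)⁻¹ * c * t ^ R) * g = g * ((t ^ R)⁻¹ * c * t ^ R) := by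
      have : g = (t ^ R)⁻¹ * g' * t ^ R := by rw [hg']; group
      rw [this]
      calc (t ^ R)⁻¹ * c * t ^ R * ((t ^ R)⁻¹ * g' * t ^ R) = (t ^ R)⁻¹ * (c * g') * t ^ R := by
            group
        _ = (t ^ R)⁻¹ * (g' * c) * t ^ R := by rw [hc]
        _ = _ := by group
    have h6 := hR _ h5
    have h7 : Subgroup.closure {x : G | hz (pr x) = 1 ∧
        (CG X (em th)).dist (vx (em th) X 0) (x • vx (em th) X 0) ≤ R} ≤
        (Xn t X (2 * R)).comap (MulAut.conj (t ^ R)).toMonoidHom := by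
      rw [Subgroup.closure_le]
      rintro x ⟨hx0, hx⟩
      exact h2 G X t (hz.comp pr) hT R x hx0 hx
    have h8 := h7 h6
    have e : (MulAut.conj (t ^ R)).toMonoidHom ((t ^ R)⁻¹ * c * t ^ R) = c := by
      show t ^ R * ((t ^ R)⁻¹ * c * t ^ R) * (t ^ R)⁻¹ = c
      group
    rw [Subgroup.mem_comap, e] at h8
    exact h8
  obtain ⟨G', _, ι, s, pr', X', D', hinj, hcnt, hpri, hprs, hs, hok, hrel⟩ := hH4 H G pr em _ D₁
    hst1 C hCX (by
      intro γ c hc hc1 hγ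
      rw [hCm] at hc hγ ⊢
      exact i5 γ c hc hc1 hγ) (by
      intro c hc hc1
      rw [hCm] at hc
      exact i4 c hc hc1) (by
      intro c hc hc1
      rw [hCm] at hc
      exact i3 c hc hc1)
  refine ⟨⟨G', hcnt cnt, pr', ι.comp em, X', D', hok⟩, ι, ⟨hpri, fun h => rfl⟩, ?_, ?_⟩
  · intro h
    exact hs1 (hinj (by rw [map_one]; exact h))
  · have h9 := hrel g' ((hCm g').2 rfl)
    refine ⟨(s * ι (t ^ R))⁻¹, pr g', ?_⟩
    show ι g = (s * ι (t ^ R))⁻¹ * ι (em (pr g')) * ((s * ι (t ^ R))⁻¹)⁻¹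
    rw [← h9, hg', map_mul, map_mul, map_inv]
    group

end Pool.Agent.D6b
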