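import Pool.Agent.Lib.MP_d6b03d_al.Stmts
import Pool.Agent.Lib.MP_d6b03d_al.Basic
import Pool.Agent.Lib.MP_d6b03d_al.BtwU
import Pool.Agent.Lib.MP_d6b03d_al.ProjFix

/-!
MP_d6b03d_al, module H2: `F1`, `F2`, `F3` for the first step.
-/

set_option autoImplicit false

namespace Pool.Agent.D6b

open Multiplicative Base

namespace S1F

section

variable {G G' : Type} [Group G] [Group G']

theorem inc_smul {ι : G →* G'} {X' : Subgroup G'} (g : G') {p : G' ⧸ X'} {c : G' ⧸ ι.range}
    (h : Inc ι X' p c) : Inc ι X' (g • p) (g • c) := by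
  obtain ⟨x, h1, h2⟩ := h
  refine ⟨g * x, ?_, ?_⟩
  · rw [← h1, MulAction.Quotient.smul_coe, smul_eq_mul]
  · rw [← h2, MulAction.Quotient.smul_coe, smul_eq_mul]

/-- incidence with the copy `δ ι(G)` -/
theorem inc_copy {ι : G →* G'} {X' : Subgroup G'} {p : G' ⧸ X'} {δ : G'}
    (h : Inc ι X' p (δ : G' ⧸ ι.range)) : ∃ g : G, p = ((δ * ι g : G') : G' ⧸ X') := by
  obtain ⟨x, h1, h2⟩ := h
  have h3 : δ⁻¹ * x ∈ ι.range := (QuotientGroup.eq (s := ι.range)).1 h2.symm
  obtain ⟨g, hg⟩ := h3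
  refine ⟨g, ?_⟩
  rw [hg, mul_inv_cancel_left, h1]

theorem s_mem (ι : G →* G') (s : G') (t : G) (X : Subgroup G) : s ∈ XX ι s t X 1 := by
  apply Subgroup.subset_closure
  right
  refine ⟨0, Nat.one_pos, ?_⟩
  simp

theorem ι_mem (ι : G →* G') (s : G') (t : G) (X : Subgroup G) {x : G} (hx : x ∈ X) (m : ℕ) :
    ι x ∈ XX ι s t X m :=
  Subgroup.subset_closure (Or.inl ⟨x, hx, rfl⟩)

end

section

variable {H G G' : Type} [Group H] [Base H] [Group G] [Group G']
  {pr : G →* H} {em : H →* G} {X : Subgroup G} {D : ℕ} {ι : G →* G'} {s : G'}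
  {C C' : Subgroup G} {pr' : G' →* H}

/-- the new coset tree -/
theorem td' (h : S1Hyp pr em X D ι s C C' pr') :
    TD (XX ι s (em th) X 1) (ι (em th)) (hz.comp pr') where
  ht := by
    intro x hx
    have hle : XX ι s (em th) X 1 ≤ (hz.comp pr').ker := by
      unfold XX
      rw [Subgroup.closure_le]
      rintro z (⟨y, hy, rfl⟩ | ⟨j, _, rfl⟩)
      · have := h.st.td.ht y hy
        rw [SetLike.mem_coe, MonoidHom.mem_ker, MonoidHom.comp_apply, h.pri]
        exact this
      · rw [SetLike.mem_coe, MonoidHom.mem_ker, map_mul, map_mul, map_inv,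
          MonoidHom.comp_apply, MonoidHom.comp_apply, h.prs, map_one, mul_one, mul_inv_cancel]
    exact hle hx
  et := by
    have := h.st.td.et
    rw [MonoidHom.comp_apply, h.pri]
    exact this
  tree := h.tt.ttr

/-- an element of `ι(G)` fixing a vertex of the copy `ι(G)` -/
theorem fix_copy (h : S1Hyp pr em X D ι s C C' pr') {e₀ g : G}
    (hf : ι e₀ • ((ι g : G') : G' ⧸ XX ι s (em th) X 1) = ((ι g : G') : G' ⧸ XX ι s (em th) X 1)) :
    e₀ • (g : G ⧸ X) = (g : G ⧸ X) := by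
  rw [fix_iff] at hf ⊢
  apply h.tt.meet
  rwa [map_mul, map_mul, map_inv]

end

end S1F

open S1F

theorem stS1F (h4 : StBtwU) (h10 : StProjFix) (hB6 : StInc) (hH1 : StS1Star) : StS1F := by
  intro H G G' _ _ _ _ pr em X D ι s C C' pr' h
  obtain ⟨hEdge, -, hFix, hTwo⟩ := hH1 H G G' pr em X D ι s C C' pr' h
  obtain ⟨hInc, -, hDist, -⟩ := hB6 G G' X (em th) (hz.comp pr) ι s C C' 1 h.st.td le_rfl h.tt
  have hTD := td' h
  have hconn : (CG (XX ι s (em th) X 1) (ι (em th))).Connected := hTD.tree.connected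
  have hact : ActsOn (CG (XX ι s (em th) X 1) (ι (em th))) G' := actsOn_CG _ _
  have hactS : ActsOn (CG ι.range s) G' := actsOn_CG _ _
  have hline := isLine_vx hTD
  -- distances inside a copy
  have hD1 : ∀ (δ : G') (g g' : G),
      (CG (XX ι s (em th) X 1) (ι (em th))).dist ((δ * ι g : G') : G' ⧸ XX ι s (em th) X 1)
        ((δ * ι g' : G') : G' ⧸ XX ι s (em th) X 1) = (CG X (em th)).dist (g : G ⧸ X) g' := by
    intro δ g g'
    rw [← hDist g g']
    have := dist_smul hconn hact δ ((ι g : G') : G' ⧸ XX ι s (em th) X 1)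
      ((ι g' : G') : G' ⧸ XX ι s (em th) X 1)
    rw [MulAction.Quotient.smul_coe, MulAction.Quotient.smul_coe, smul_eq_mul, smul_eq_mul] at this
    exact this
  -- a vertex fixed by `e` in the tree of copies incident with a fixed vertex `p`
  have hcopy : ∀ (e : G') (p : G' ⧸ XX ι s (em th) X 1) (c : G' ⧸ ι.range), e • p = p →
      e • c = c → ∃ c' : G' ⧸ ι.range, Inc ι (XX ι s (em th) X 1) p c' ∧ e • c' = c' := by
    intro e p c hp hc
    obtain ⟨hcv, hne⟩ := hInc p
    obtain ⟨c', hc', hec'⟩ := h10 _ _ h.tt.str G' hactS e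
      {c | Inc ι (XX ι s (em th) X 1) p c} hcv hne
      (by
        intro u hu
        have := inc_smul e hu
        rw [hp] at this
        exact this) c hc
    exact ⟨c', hc', hec'⟩
  -- a common fixed edge of the new tree gives a fixed copy
  have hR0 : Inc ι (XX ι s (em th) X 1) (vx (ι (em th)) _ 0) ((1 : G') : G' ⧸ ι.range) := by
    refine ⟨1, ?_, rfl⟩
    unfold vx
    rw [zpow_zero]
  have hR1 : Inc ι (XX ι s (em th) X 1) (vx (ι (em th)) _ 1) ((1 : G') : G' ⧸ ι.range) := by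
    refine ⟨ι (em th), ?_, ?_⟩
    · unfold vx
      rw [zpow_one]
    · rw [eq_comm, QuotientGroup.eq]
      exact ⟨em th, by simp⟩
  have hfix01 : ∀ e : G', e • vx (ι (em th)) (XX ι s (em th) X 1) 0 = vx (ι (em th)) _ 0 →
      e • vx (ι (em th)) (XX ι s (em th) X 1) 1 = vx (ι (em th)) _ 1 →
      e • ((1 : G') : G' ⧸ ι.range) = ((1 : G') : G' ⧸ ι.range) := by
    intro e h0 h1
    apply hTwo
    · have := inc_smul e hR0
      rwa [h0] at this
    · have := inc_smul e hR1
      rwa [h1] at this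
  have hfixEdge : ∀ (e : G') (p q : G' ⧸ XX ι s (em th) X 1),
      (CG (XX ι s (em th) X 1) (ι (em th))).Adj p q → e • p = p → e • q = q →
      ∃ c : G' ⧸ ι.range, e • c = c := by
    have key : ∀ (e δ : G'), e • ((δ : G') : G' ⧸ XX ι s (em th) X 1) = δ →
        e • ((δ * ι (em th) : G') : G' ⧸ XX ι s (em th) X 1) = ((δ * ι (em th) : G') : _) →
        e • (δ : G' ⧸ ι.range) = δ := by
      intro e δ h0 h1
      have h2 := hfix01 (δ⁻¹ * e * δ) (by
        unfold vx
        rw [zpow_zero, fix_iff]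
        rw [fix_iff] at h0
        simpa using h0) (by
        unfold vx
        rw [zpow_one, fix_iff]
        rw [fix_iff] at h1
        simpa [mul_assoc] using h1)
      rw [fix_iff] at h2 ⊢
      simpa using h2
    intro e p q hpq hp hq
    obtain ⟨δ, ⟨h1, h2⟩ | ⟨h1, h2⟩⟩ := adj_cases hpq
    · refine ⟨_, key e δ ?_ ?_⟩
      · rw [← h1]; exact hp
      · rw [← h2]; exact hq
    · refine ⟨_, key e δ ?_ ?_⟩
      · rw [← h1]; exact hq
      · rw [← h2]; exact hp
  refine ⟨?_, ?_, ?_⟩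
  · -- F1
    intro e hne p q hp hq
    rcases eq_or_ne p q with hpq | hpq
    · rw [hpq, SimpleGraph.dist_self]
      exact Nat.zero_le _
    obtain ⟨p₁, hadj, -, -, hbtw⟩ := exists_step hconn hpq
    have hp₁ : e • p₁ = p₁ := (h4 _ _ hTD.tree).2 G' hact e p q p₁ hp hq hbtw
    obtain ⟨c, hc⟩ := hfixEdge e p p₁ hadj hp hp₁
    -- `c` is the only fixed copy
    have huniq : ∀ c' : G' ⧸ ι.range, e • c' = c' → c' = c := by
      intro c' hc'
      by_contra hcc
      obtain ⟨r, hr, -, -, hb⟩ := exists_step h.tt.str.connected (Ne.symm hcc)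
      have her : e • r = r := (h4 _ _ h.tt.str).2 G' hactS e c c' r hc hc' hb
      exact hne (hEdge e c r hr hc her)
    obtain ⟨cp, hcp, hecp⟩ := hcopy e p c hp hc
    obtain ⟨cq, hcq, hecq⟩ := hcopy e q c hq hc
    rw [huniq cp hecp] at hcp
    rw [huniq cq hecq] at hcq
    obtain ⟨δ, rfl⟩ := QuotientGroup.mk_surjective c
    obtain ⟨g₁, hg₁⟩ := inc_copy hcp
    obtain ⟨g₂, hg₂⟩ := inc_copy hcq
    have hc2 := hc
    rw [fix_iff] at hc2
    obtain ⟨e₀, he₀⟩ := hc2
    have hee : e = δ * ι e₀ * δ⁻¹ := by rw [he₀]; group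
    have hfx : ∀ (g : G), e • ((δ * ι g : G') : G' ⧸ XX ι s (em th) X 1) = ((δ * ι g : G') : _) →
        e₀ • (g : G ⧸ X) = (g : G ⧸ X) := by
      intro g hg
      apply fix_copy h
      rw [fix_iff] at hg ⊢
      rw [hee] at hg
      simpa [mul_assoc] using hg
    rw [hg₁, hg₂, hD1]
    apply h.st.F1 e₀
    · rintro ⟨g, n, hn, hgn⟩
      apply hne
      refine ⟨δ * ι g, n, hn, ?_⟩
      rw [hee, hgn, map_mul, map_mul, map_inv, MonoidHom.comp_apply]
      group
    · apply hfx
      rw [← hg₁]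
      exact hp
    · apply hfx
      rw [← hg₂]
      exact hq
  · -- F2
    intro n hn hn1 p hp
    have hR : ι (em n) • ((1 : G') : G' ⧸ ι.range) = ((1 : G') : G' ⧸ ι.range) := by
      rw [fix_iff]
      exact ⟨em n, by simp⟩
    obtain ⟨c, hc, hec⟩ := hcopy (ι (em n)) p _ hp hR
    by_cases hcR : c = ((1 : G') : G' ⧸ ι.range)
    · rw [hcR] at hc
      obtain ⟨g, hg⟩ := inc_copy hc
      rw [one_mul] at hg
      have h1 : em n • (g : G ⧸ X) = (g : G ⧸ X) := by
        apply fix_copy h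
        rw [← hg]
        exact hp
      obtain ⟨i, hi⟩ := h.st.F2 n hn hn1 _ h1
      refine ⟨i, ?_⟩
      have h2 : vx (ι (em th)) (XX ι s (em th) X 1) i =
          ((ι (em th ^ i) : G') : G' ⧸ XX ι s (em th) X 1) := by
        unfold vx
        rw [map_zpow]
      rw [hg, h2, hDist]
      exact hi
    · obtain ⟨k, hk, c₀, hc₀, hc₀1, hcc⟩ := hFix n c hn hn1 hec hcR
      rw [hk] at hc
      obtain ⟨g, hg⟩ := inc_copy hc
      have h1 : c₀ • (g : G ⧸ X) = (g : G ⧸ X) := by
        apply fix_copy h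
        rw [hg] at hp
        rw [fix_iff] at hp ⊢
        rw [← hcc]
        simpa [mul_assoc] using hp
      have h2 : c₀ • ((1 : G) : G ⧸ X) = ((1 : G) : G ⧸ X) := by
        rw [fix_iff]
        simpa using h.CX hc₀
      have h3 := h.st.F1 c₀ (h.nc c₀ hc₀ hc₀1) _ _ h1 h2
      refine ⟨toAdd (hz k), ?_⟩
      have h5 : vx (ι (em th)) (XX ι s (em th) X 1) (toAdd (hz k)) =
          ((ι (em k) * s * ι (1 : G) : G') : G' ⧸ XX ι s (em th) X 1) := by
        unfold vx
        rw [QuotientGroup.eq, map_one, mul_one, ← mul_assoc]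
        apply Subgroup.mul_mem _ _ (s_mem ι s (em th) X)
        have h6 : (ι (em th) ^ (toAdd (hz k)))⁻¹ * ι (em k) = ι (em (th ^ (-(toAdd (hz k))) * k)) := by
          rw [map_mul, map_mul, map_zpow, map_zpow, zpow_neg]
        rw [h6]
        apply ι_mem
        apply h.st.NX
        rw [map_mul, map_zpow, hz_th]
        apply Multiplicative.toAdd.injective
        rw [toAdd_mul, toAdd_zpow, toAdd_ofAdd, toAdd_one]
        simp
      rw [hg, h5, hD1]
      exact h3
  · -- F3
    intro e h0 hD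
    have hDpos := h.st.Dpos
    have h1 : e • vx (ι (em th)) (XX ι s (em th) X 1) 1 = vx (ι (em th)) _ 1 := by
      apply (h4 _ _ hTD.tree).2 G' hact e _ _ _ h0 hD
      unfold Btw
      rw [hline, hline, hline]
      omega
    have hR := hfix01 e h0 h1
    rw [fix_iff] at hR
    obtain ⟨e₀, he₀⟩ := hR
    have hee : ι e₀ = e := by rw [he₀]; group
    have hfx : ∀ i : ℤ, e • vx (ι (em th)) (XX ι s (em th) X 1) i = vx (ι (em th)) _ i →
        e₀ • vx (em th) X i = vx (em th) X i := by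
      intro i hi
      unfold vx at hi ⊢
      apply fix_copy h
      rw [map_zpow, hee]
      exact hi
    obtain ⟨n, hn, hen⟩ := h.st.F3 e₀ (hfx 0 h0) (hfx D hD)
    exact ⟨n, hn, by rw [← hee, hen]⟩

end Pool.Agent.D6b
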