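import Mathlib
import Pool.Agent.Lib.MP_d6b03d_al.Stmts
import Pool.Agent.Lib.MP_d6b03d_al.Basic

/-!
H3: the first step gives a stage (with a lemma which is also used for the second step).
-/

set_option autoImplicit false

namespace Pool.Agent.D6b

open Multiplicative Base

/-- the common part of the first two steps -/
theorem stage_of_tt {H G G' : Type} [Group H] [Base H] [Group G] [Group G'] {pr : G →* H}
    {em : H →* G} {X : Subgroup G} {D : ℕ} {ι : G →* G'} {s : G'} {C C' : Subgroup G} {m D' : ℕ}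
    {pr' : G' →* H} (hJ : StJ) (st : IsStage pr em X D) (tt : TwoTree (em th) X ι s C C' m)
    (pri : ∀ g, pr' (ι g) = pr g) (prs : pr' s = 1) (hD' : 1 ≤ D')
    (F1 : ∀ e : G', ¬ ConjN (ι.comp em) e → ∀ p q : G' ⧸ XX ι s (em th) X m, e • p = p →
      e • q = q → (CG (XX ι s (em th) X m) (ι (em th))).dist p q ≤ D')
    (F2 : ∀ n : H, hz n = 1 → n ≠ 1 → ∀ p : G' ⧸ XX ι s (em th) X m, ι (em n) • p = p →
      ∃ i : ℤ, (CG (XX ι s (em th) X m) (ι (em th))).dist p (vx (ι (em th)) _ i) ≤ D')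
    (F3 : ∀ e : G', e • vx (ι (em th)) (XX ι s (em th) X m) 0 = vx (ι (em th)) _ 0 →
      e • vx (ι (em th)) (XX ι s (em th) X m) D' = vx (ι (em th)) _ D' →
      ∃ n : H, hz n = 1 ∧ e = ι (em n))
    (hL : ∀ (L : ℤ → G' ⧸ ι.range) (z : G'), IsLine (CG ι.range s) L → hz (pr' z) = 1 →
      (∀ i : ℤ, z • L i = L i) → z = 1) :
    IsStage pr' (ι.comp em) (XX ι s (em th) X m) D' := by
  refine ⟨fun h => ?_, hD', ⟨?_, ?_, tt.ttr⟩, ?_, F1, F2, F3, ?_⟩
  · rw [MonoidHom.comp_apply, pri, st.sec]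
  · intro x hx
    unfold XX at hx
    induction hx using Subgroup.closure_induction with
    | mem x hx =>
      rcases hx with ⟨y, hy, rfl⟩ | ⟨j, -, rfl⟩
      · rw [MonoidHom.comp_apply, pri]
        exact st.td.ht y hy
      · rw [MonoidHom.comp_apply, map_mul pr', map_mul pr', prs, mul_one, map_inv pr',
          mul_inv_cancel, map_one]
    | one => rw [map_one]
    | mul x y _ _ hx hy => rw [map_mul, hx, hy, mul_one]
    | inv x _ hx => rw [map_inv, hx, inv_one]
  · rw [MonoidHom.comp_apply, MonoidHom.comp_apply, pri, st.sec, hz_th]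
  · intro n hn
    exact Subgroup.subset_closure (Or.inl ⟨em n, st.NX n hn, rfl⟩)
  · obtain ⟨η', h1, h2⟩ := tt.sht
    refine hJ H G' (G' ⧸ ι.range) (CG ι.range s) tt.str (actsOn_CG _ _)
      (noInv_CG (η := η') (by rintro x ⟨g, rfl⟩; exact h1 g) h2) pr'
      (fun L z hL1 hz1 hz2 => Or.inl (hL L z hL1 hz1 hz2)) ?_
    intro v e g
    induction v using QuotientGroup.induction_on with
    | H δ =>
      intro he hg hc hpe hpg hpg1
      rw [fix_iff] at he hg
      obtain ⟨e₀, he₀⟩ := he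
      obtain ⟨g₀, hg₀⟩ := hg
      have hc₀ : e₀ * g₀ = g₀ * e₀ := by
        apply tt.inj
        rw [map_mul, map_mul, he₀, hg₀]
        calc δ⁻¹ * e * δ * (δ⁻¹ * g * δ) = δ⁻¹ * (e * g) * δ := by group
          _ = δ⁻¹ * (g * e) * δ := by rw [hc]
          _ = _ := by group
      have a1 : pr e₀ = 1 := by
        rw [← pri, he₀, map_mul, map_mul, hpe, mul_one, ← map_mul, inv_mul_cancel, map_one]
      have a2 : pr g₀ = (pr' δ)⁻¹ * pr' g * pr' δ := by
        rw [← pri, hg₀, map_mul, map_mul, map_inv]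
      have a3 : hz (pr g₀) = 1 := by
        rw [a2, map_mul, map_mul, hpg, mul_one, map_inv, inv_mul_cancel]
      have a4 : pr g₀ ≠ 1 := by
        intro h0
        rw [a2] at h0
        apply hpg1
        have : pr' g = pr' δ * ((pr' δ)⁻¹ * pr' g * pr' δ) * (pr' δ)⁻¹ := by group
        rw [this, h0]
        group
      have a5 := st.J e₀ g₀ hc₀ a1 a3 a4
      rw [a5, map_one] at he₀
      have : e = δ * (δ⁻¹ * e * δ) * δ⁻¹ := by group
      rw [this, ← he₀]
      group

theorem isLine_adj {V : Type} {S : SimpleGraph V} {L : ℤ → V} (h : IsLine S L) (i : ℤ) :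
    S.Adj (L i) (L (i + 1)) := by
  rw [← SimpleGraph.dist_eq_one_iff_adj, h]
  omega

theorem isLine_ne {V : Type} {S : SimpleGraph V} {L : ℤ → V} (h : IsLine S L) {i j : ℤ}
    (hij : i ≠ j) : L i ≠ L j := by
  intro e
  have := h i j
  rw [e, SimpleGraph.dist_self] at this
  omega

theorem stS1Inv (hJ : StJ) (hS : StS1Star) (hF : StS1F) : StS1Inv := by
  intro H G G' _ _ _ _ pr em X D ι s C C' pr' hyp
  obtain ⟨F1, F2, F3⟩ := hF H G G' pr em X D ι s C C' pr' hyp
  refine stage_of_tt hJ hyp.st hyp.tt hyp.pri hyp.prs hyp.st.Dpos F1 F2 F3 ?_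
  intro L z hL _ hz2
  exact (hS H G G' pr em X D ι s C C' pr' hyp).2.1 z (L 0) (L 1) (L 2) (L 3)
    (isLine_adj hL 0) (isLine_adj hL 1) (isLine_adj hL 2) (isLine_ne hL (by norm_num))
    (isLine_ne hL (by norm_num)) (hz2 0) (hz2 1) (hz2 2) (hz2 3)

end Pool.Agent.D6b
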