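import Pool.Agent.Lib.MP_d6b03d_al.Tools

/-!
MP_d6b03d_al, module G4: centralizers, first step.
-/

set_option autoImplicit false

namespace Pool.Agent.D6b

open Multiplicative Base

open Tl in
theorem stS1Prep (hB : StBasic) (hU : StBtwU) (h8 : StAxis) (h9 : StAxisIn)
    (h10 : StProjFix) (h11 : StTC) (h3 : StLL) : StS1Prep := by
  intro H G _ _ _ pr em X D hst g hg0 hg1 hgN
  set S := CG X (em th) with hS
  have hT := hst.td
  have hB' := hB G X (em th) (hz.comp pr)
  have hA : ActsOn S G := hB'.1
  have hNI : NoInv S G := hB'.2.1 hT.ht hT.et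
  have tree : S.IsTree := hT.tree
  have fixht : ∀ (e : G) (p : G ⧸ X), e • p = p → hz (pr e) = 1 := fun e p h =>
    hB'.2.2.2.2.2.2.2 hT e p h
  obtain ⟨ht, ht1, ht2, ht3, ht4⟩ := exists_ht hB hT
  have ht2' : ∀ (g : G) (p : G ⧸ X), ht (g • p) = toAdd (hz (pr g)) + ht p := ht2
  have dsm : ∀ (g : G) (u v : G ⧸ X), S.dist (g • u) (g • v) = S.dist u v := dist_smul tree hA
  have F1 : ∀ e : G, ¬ ConjN em e → ∀ p q : G ⧸ X, e • p = p → e • q = q → S.dist p q ≤ D :=
    hst.F1
  have noline : ∀ e : G, ¬ ConjN em e → ∀ L : ℤ → G ⧸ X, IsLine S L → ¬ ∀ i, e • L i = L i := by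
    intro e he L hL h
    have h1 := F1 e he (L 0) (L ((D : ℤ) + 1)) (h _) (h _)
    rw [hL] at h1
    omega
  -- (i)
  have i1 : ∀ g : G, hz (pr g) = 1 → ¬ ConjN em g → ∀ c, c * g = g * c → hz (pr c) = 1 := by
    intro g hg0 hgN c hc
    rcases h11 _ S tree G hA hNI c g hc with ⟨v, hv, _⟩ | ⟨L, a, b, hL, _, hab⟩
    · exact fixht c v hv
    · have hb : b ≠ 0 := by
        rintro rfl
        exact noline g hgN L hL (fun i => by simpa using (hab i).2)
      have z1 : (c ^ b * g ^ (-a)) • L 0 = L 0 := by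
        rw [mul_smul, zpow_line (fun i => (hab i).2), zpow_line (fun i => (hab i).1)]
        congr 1
        ring
      have z2 := fixht _ _ z1
      rw [map_mul, map_mul, map_zpow, map_zpow, map_zpow, map_zpow, hg0, one_zpow, mul_one] at z2
      have z3 := congrArg toAdd z2
      rw [toAdd_zpow, toAdd_one, smul_eq_mul, mul_eq_zero] at z3
      rcases z3 with z3 | z3
      · exact absurd z3 hb
      · exact toAdd_eq_zero.1 z3
  -- (iii)
  have i3 : ∀ g : G, hz (pr g) = 1 → pr g ≠ 1 → ∀ c, c * g = g * c → pr c = 1 → c = 1 :=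
    fun g hg0 hg1 c hc hc1 => hst.J c g hc hc1 hg0 hg1
  -- (iv)
  have i4 : ∀ g : G, hz (pr g) = 1 → ¬ ConjN em g → ∀ c, c * g = g * c → c ≠ 1 →
      ¬ ConjN em c := by
    rintro g hg0 hgN c hc hc1 ⟨γ, n, hn, rfl⟩
    have hn1 : n ≠ 1 := by
      rintro rfl
      exact hc1 (by simp)
    have e1 : (γ⁻¹ * g * γ) * em n * (γ⁻¹ * g * γ)⁻¹ = em n := by
      rw [mul_inv_eq_iff_eq_mul]
      calc (γ⁻¹ * g * γ) * em n = γ⁻¹ * (g * (γ * em n * γ⁻¹)) * γ := by group
        _ = γ⁻¹ * ((γ * em n * γ⁻¹) * g) * γ := by rw [hc]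
        _ = em n * (γ⁻¹ * g * γ) := by group
    obtain ⟨h, hh⟩ := (h3 H G pr em X D hst).2.1 (γ⁻¹ * g * γ) n n hn hn1 hn e1
    refine hgN ⟨γ, h, ?_, by rw [← hh]; group⟩
    have h5 : pr (γ⁻¹ * g * γ) = h := by rw [hh, hst.sec]
    rw [← h5]
    simp [hg0]
  -- (v')
  have hN : ∀ x y : G, hz (pr x) = 1 → hz (pr y) = 1 → pr x * pr y = pr y * pr x :=
    fun x y hx hy => Base.comm _ _ hx hy
  have ab : ∀ g : G, hz (pr g) = 1 → pr g ≠ 1 → ¬ ConjN em g → ∀ c c', c * g = g * c →
      c' * g = g * c' → c * c' = c' * c := by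
    intro g hg0 hg1 hgN c c' hc hc'
    have h1 := i1 g hg0 hgN c hc
    have h2 := i1 g hg0 hgN c' hc'
    have h4 : (c * c' * (c' * c)⁻¹) = 1 := by
      apply i3 g hg0 hg1
      · have e1 : Commute c g := hc
        have e2 : Commute c' g := hc'
        exact ((e1.mul_left e2).mul_left (e2.mul_left e1).inv_left)
      · rw [map_mul, map_mul, map_inv, map_mul, hN c c' h1 h2, mul_inv_cancel]
    rwa [mul_inv_eq_one] at h4
  have hyp : ∀ c, c * g = g * c → c ≠ 1 → hz (pr c) = 1 ∧ pr c ≠ 1 ∧ ¬ ConjN em c :=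
    fun c hc hc1 => ⟨i1 g hg0 hgN c hc, fun h => hc1 (i3 g hg0 hg1 c hc h),
      i4 g hg0 hgN c hc hc1⟩
  have cc : ∀ c, c * g = g * c → c ≠ 1 → ∀ x, x * c = c * x → x * g = g * x := by
    intro c hc hc1 x hx
    obtain ⟨a1, a2, a3⟩ := hyp c hc hc1
    exact ab c a1 a2 a3 x g hx hc.symm
  refine ⟨i1 g hg0 hgN, ?_, i3 g hg0 hg1, i4 g hg0 hgN, ?_⟩
  · -- (ii)
    by_cases hfix : ∃ p : G ⧸ X, g • p = p
    · obtain ⟨p, hp⟩ := hfix
      refine ⟨2 * S.dist (vx (em th) X 0) p + D, fun c hc => Subgroup.subset_closure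
        ⟨i1 g hg0 hgN c hc, ?_⟩⟩
      have h1 : g • (c • p) = c • p := by rw [← mul_smul, ← hc, mul_smul, hp]
      have h2 := F1 g hgN p (c • p) hp h1
      have h4 : S.dist (vx (em th) X 0) (c • vx (em th) X 0) ≤
          S.dist (vx (em th) X 0) p + S.dist p (c • vx (em th) X 0) :=
        tree.connected.dist_triangle
      have h5 : S.dist p (c • vx (em th) X 0) ≤ S.dist p (c • p) +
          S.dist (c • p) (c • vx (em th) X 0) := tree.connected.dist_triangle
      have h6 := dsm c p (vx (em th) X 0)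
      have h7 : S.dist p (vx (em th) X 0) = S.dist (vx (em th) X 0) p := SimpleGraph.dist_comm
      omega
    · push Not at hfix
      obtain ⟨m, L, hm, hL, hgL⟩ := h8 _ S tree G hA hNI g hfix
      have h1 := (h9 _ S tree G hA g m L hm hL hgL).2
      have h2 : ∀ c : Subgroup.centralizer {g}, ∃ a : ℤ, ∀ i : ℤ, (c : G) • L i = L (i + a) := by
        intro c
        exact h1 c (Subgroup.mem_centralizer_singleton_iff.1 c.2).symm
      choose τ hτ using h2
      have hinj := line_inj hL
      let τ' : Subgroup.centralizer {g} →* Multiplicative ℤ := MonoidHom.mk'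
        (fun c => ofAdd (τ c)) (by
          intro a b
          rw [← ofAdd_add]
          congr 1
          have e1 := hτ (a * b) 0
          rw [Subgroup.coe_mul, mul_smul, hτ b, hτ a] at e1
          have e2 := hinj e1
          omega)
      have hker : Function.Injective τ' := by
        rw [injective_iff_map_eq_one]
        intro c hc
        have hc0 : τ c = 0 := ofAdd_eq_one.1 hc
        by_contra hne
        have hne' : (c : G) ≠ 1 := fun h => hne (Subtype.ext h)
        have hcg := Subgroup.mem_centralizer_singleton_iff.1 c.2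
        exact noline c (i4 g hg0 hgN c hcg hne') L hL
          (fun i => by rw [hτ c i, hc0, add_zero])
      have hcyc : IsCyclic (Subgroup.centralizer {g}) := isCyclic_of_injective τ' hker
      obtain ⟨c₀, hc₀⟩ := hcyc.exists_generator
      refine ⟨S.dist (vx (em th) X 0) ((c₀ : G) • vx (em th) X 0), fun c hc => ?_⟩
      obtain ⟨k, hk⟩ := Subgroup.mem_zpowers_iff.1
        (hc₀ ⟨c, Subgroup.mem_centralizer_singleton_iff.2 hc⟩)
      have hk' : (c₀ : G) ^ k = c := by
        have := congrArg Subtype.val hk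
        simpa using this
      rw [← hk']
      apply Subgroup.zpow_mem
      apply Subgroup.subset_closure
      exact ⟨i1 g hg0 hgN _ (Subgroup.mem_centralizer_singleton_iff.1 c₀.2), le_refl _⟩
  · -- (v)
    intro γ c hc hc1 hγ
    obtain ⟨a1, a2, a3⟩ := hyp c hc hc1
    set c' := γ * c * γ⁻¹ with hc'
    have hc'1 : c' ≠ 1 := by
      intro h
      apply hc1
      have : c = γ⁻¹ * c' * γ := by rw [hc']; group
      rw [this, h]
      group
    by_cases hγ0 : hz (pr γ) = 1
    · -- height zero
      have e1 : pr c' = pr c := by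
        rw [hc', map_mul, map_mul, map_inv, hN γ c hγ0 a1]
        group
      have e2 : c' * c⁻¹ = 1 := by
        apply i3 g hg0 hg1
        · have f1 : Commute c g := hc
          have f2 : Commute c' g := hγ
          exact f2.mul_left f1.inv_left
        · rw [map_mul, map_inv, e1, mul_inv_cancel]
      rw [mul_inv_eq_one] at e2
      apply cc c hc hc1
      rw [hc', mul_inv_eq_iff_eq_mul] at e2
      exact e2
    · exfalso
      set m : ℤ := toAdd (hz (pr γ)) with hm
      have hm0 : m ≠ 0 := fun h => hγ0 (toAdd_eq_zero.1 h)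
      -- γ normalizes the centralizer
      have norm : ∀ x, x * g = g * x → (γ * x * γ⁻¹) * g = g * (γ * x * γ⁻¹) := by
        intro x hx
        apply cc c' hγ hc'1
        have f1 : x * c = c * x := ab g hg0 hg1 hgN x c hx hc
        rw [hc']
        calc γ * x * γ⁻¹ * (γ * c * γ⁻¹) = γ * (x * c) * γ⁻¹ := by group
          _ = γ * (c * x) * γ⁻¹ := by rw [f1]
          _ = γ * c * γ⁻¹ * (γ * x * γ⁻¹) := by group
      have normj : ∀ j : ℕ, (γ ^ j * c * (γ ^ j)⁻¹) * g = g * (γ ^ j * c * (γ ^ j)⁻¹) := by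
        intro j
        induction j with
        | zero => simpa using hc
        | succ n ih =>
          have := norm _ ih
          have e : γ * (γ ^ n * c * (γ ^ n)⁻¹) * γ⁻¹ = γ ^ (n + 1) * c * (γ ^ (n + 1))⁻¹ := by
            rw [pow_succ']
            group
          rwa [e] at this
      have hgam : ∀ (j : ℕ) (p : G ⧸ X), ht (γ ^ j • p) = j * m + ht p := by
        intro j p
        rw [ht2', map_pow, map_pow, toAdd_pow, hm]
        simp
      by_cases hfix : ∃ v : G ⧸ X, c • v = v
      · obtain ⟨v, hv⟩ := hfix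
        set j := 2 * D + 1 with hj
        set cj := γ ^ j * c * (γ ^ j)⁻¹ with hcj
        have hcc : cj * c = c * cj := ab g hg0 hg1 hgN _ _ (normj j) hc
        have hcv : cj • (γ ^ j • v) = γ ^ j • v := by
          rw [hcj, ← mul_smul, inv_mul_cancel_right, mul_smul, hv]
        obtain ⟨w, hw1, hw2⟩ := h10 _ S tree G hA cj {p | c • p = p} (fix_cvx hU tree hA c)
          ⟨v, hv⟩ (by
            intro u hu
            show c • cj • u = cj • u
            rw [← mul_smul, ← hcc, mul_smul, hu]) (γ ^ j • v) hcv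
        have hcjN : ¬ ConjN em cj := by
          rintro ⟨y, n, hn, hy⟩
          refine a3 ⟨(γ ^ j)⁻¹ * y, n, hn, ?_⟩
          have : c = (γ ^ j)⁻¹ * cj * γ ^ j := by rw [hcj]; group
          rw [this, hy]
          group
        have d1 := F1 c a3 w v hw1 hv
        have d2 := F1 cj hcjN w (γ ^ j • v) hw2 hcv
        have d3 := ht3 w v
        have d4 := ht3 w (γ ^ j • v)
        rw [hgam] at d4
        have d3' : (ht w - ht v).natAbs ≤ D := le_trans d3 d1
        have d4' : (ht w - (j * m + ht v)).natAbs ≤ D := le_trans d4 d2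
        have d5 : |(j : ℤ) * m| ≤ 2 * D := by
          rw [abs_le]
          constructor <;> omega
        rw [abs_mul, Nat.abs_cast] at d5
        have d6 : 1 ≤ |m| := Int.one_le_abs hm0
        have d7 : (j : ℤ) ≤ j * |m| := by
          have : (0 : ℤ) ≤ j := by positivity
          nlinarith
        rw [hj] at d7 d5
        push_cast at d7 d5
        linarith
      · push Not at hfix
        obtain ⟨k, L, hk, hL, hcL⟩ := h8 _ S tree G hA hNI c hfix
        have hcc : c * c' = c' * c := ab g hg0 hg1 hgN _ _ hc hγ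
        obtain ⟨a, ha⟩ := (h9 _ S tree G hA c k L hk hL hcL).2 c' hcc
        have hL' := line_smul tree hA γ hL
        have hcL' : ∀ i : ℤ, c' • (γ • L i) = γ • L (i + k) := by
          intro i
          rw [hc', ← mul_smul, inv_mul_cancel_right, mul_smul, hcL]
        have hin : ∀ i : ℤ, γ • L i ∈ {p | ∃ i : ℤ, p = L i} := by
          apply (h9 _ S tree G hA c' k (fun i => γ • L i) hk hL' hcL').1 _
            (line_cvx hU tree hL) ⟨L 0, 0, rfl⟩
          · rintro _ ⟨i, rfl⟩
            exact ⟨_, ha i⟩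
          · rintro _ ⟨i, rfl⟩
            exact ⟨_, inv_line ha i⟩
        have hin' : ∀ n : ℕ, ∃ i : ℤ, γ ^ n • L 0 = L i := by
          intro n
          induction n with
          | zero => exact ⟨0, by simp⟩
          | succ n ih =>
            obtain ⟨i, hi⟩ := ih
            obtain ⟨j, hj⟩ := hin i
            exact ⟨j, by rw [pow_succ', mul_smul, hi, hj]⟩
        have hbd : ∀ i : ℤ, (ht (L i) - ht (L 0)).natAbs < k := by
          intro i
          have hk0 : (0 : ℤ) < k := by exact_mod_cast hk
          have e1 : ht (L i) = ht (L (i % k)) := by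
            have e2 := zpow_line hcL (i / k) (i % k)
            have e3 : i % k + i / k * k = i := by
              rw [mul_comm]
              exact Int.emod_add_mul_ediv i k
            rw [e3] at e2
            rw [← e2, ht2', map_zpow, map_zpow, a1, one_zpow]
            simp
          have e2 := ht3 (L (i % k)) (L 0)
          have e4 : (CG X (em th)).dist (L (i % k)) (L 0) = (i % k - 0).natAbs := hL _ _
          have e5 := Int.emod_nonneg i hk0.ne'
          have e6 := Int.emod_lt_of_pos i hk0
          rw [e1]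
          omega
        obtain ⟨i, hi⟩ := hin' k
        have h5 := hbd i
        rw [← hi, hgam] at h5
        have h6 : |(k : ℤ) * m| < k := by
          rw [abs_lt]
          constructor <;> omega
        rw [abs_mul, Nat.abs_cast] at h6
        have d6 : 1 ≤ |m| := Int.one_le_abs hm0
        have d7 : (k : ℤ) ≤ k * |m| := by
          have : (0 : ℤ) ≤ k := by positivity
          nlinarith
        linarith

end Pool.Agent.D6b
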