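import Pool.Agent.Lib.MP_d6b03d_al.Stmts

/-!
MP_d6b03d_al: module H1 (`StS1Star`): fixed vertices in the tree of copies, first step.
-/

set_option autoImplicit false

namespace Pool.Agent.D6b

open Multiplicative Base

/-- the first vertex after `u` on a path to `c` -/
theorem S1Star.step {V : Type} {S : SimpleGraph V} (hS : S.Connected) {u c : V} (h : u ≠ c) :
    ∃ d, S.Adj u d ∧ S.dist d c + 1 = S.dist u c := by
  obtain ⟨w, hw⟩ := hS.exists_walk_length_eq_dist u c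
  cases w with
  | nil => exact absurd rfl h
  | @cons _ d _ hadj p =>
    refine ⟨d, hadj, ?_⟩
    simp only [SimpleGraph.Walk.length_cons] at hw
    have h1 := SimpleGraph.dist_le p
    have h2 : S.dist u c ≤ S.dist u d + S.dist d c := hS.dist_triangle
    have h3 : S.dist u d = 1 := SimpleGraph.dist_eq_one_iff_adj.mpr hadj
    omega

section

variable {H G G' : Type} [Group H] [Base H] [Group G] [Group G']
  {pr : G →* H} {em : H →* G} {X : Subgroup G} {D : ℕ} {ι : G →* G'} {s : G'}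
  {C C' : Subgroup G} {pr' : G' →* H}

/-- an element fixing both ends of an edge -/
theorem S1Star.edge (h : S1Hyp pr em X D ι s C C' pr') {e δ : G'}
    (h1 : δ⁻¹ * e * δ ∈ ι.range) (h2 : (δ * s)⁻¹ * e * (δ * s) ∈ ι.range) :
    ∃ c ∈ C, δ⁻¹ * e * δ = ι (em (pr c)) ∧ (δ * s)⁻¹ * e * (δ * s) = ι c := by
  obtain ⟨x, hx⟩ := h1
  obtain ⟨y, hy⟩ := h2
  have h3 : x ∈ C' := by
    refine h.tt.relC' x ⟨y, ?_⟩
    rw [hx, hy]; group
  obtain ⟨c, hc, hxc⟩ := h.rC' x h3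
  refine ⟨c, hc, by rw [← hx, hxc], ?_⟩
  have h4 := h.rel c hc
  rw [← hxc, hx] at h4
  have h5 : ι c = s⁻¹ * (s * ι c * s⁻¹) * s := by group
  rw [h5, h4]; group

theorem S1Star.height (h : S1Hyp pr em X D ι s C C' pr') {c : G} (hc : c ∈ C) :
    hz (pr c) = 1 := by
  have := h.st.td.ht c (h.CX hc)
  simpa using this

/-- neighbours of the base vertex -/
theorem S1Star.nb (hB : StBasic) (h : S1Hyp pr em X D ι s C C' pr') {v : G' ⧸ ι.range}
    (hv : (CG ι.range s).Adj ((1 : G') : G' ⧸ ι.range) v) :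
    (∃ γ : G, v = ((ι γ * s : G') : G' ⧸ ι.range)) ∨
      ∃ γ : G, v = ((ι γ * s⁻¹ : G') : G' ⧸ ι.range) := by
  obtain ⟨η, hη, hs⟩ := h.tt.sht
  have hη' : ∀ x ∈ ι.range, η x = 1 := by
    rintro _ ⟨g, rfl⟩; exact hη g
  have hB6 := (hB G' ι.range s η).2.2.2.2.2.1 hs hη'
  rcases (hB6 _ _).1 hv with ⟨g, ⟨h1, h2⟩ | ⟨h1, h2⟩⟩
  · left
    have h3 : (1 : G')⁻¹ * g ∈ ι.range := QuotientGroup.eq.1 h1
    obtain ⟨γ, hγ⟩ := h3
    refine ⟨γ, ?_⟩
    rw [h2, hγ]; simp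
  · right
    have h3 : (1 : G')⁻¹ * (g * s) ∈ ι.range := QuotientGroup.eq.1 h2
    obtain ⟨γ, hγ⟩ := h3
    refine ⟨γ, ?_⟩
    rw [h1, hγ]; simp

/-- FACT A -/
theorem S1Star.factA (hB : StBasic) (h : S1Hyp pr em X D ι s C C' pr') {c : G} (hc : c ∈ C)
    (hc1 : c ≠ 1) {v : G' ⧸ ι.range}
    (hv : (CG ι.range s).Adj ((1 : G') : G' ⧸ ι.range) v) (hf : ι c • v = v) :
    v = ((s⁻¹ : G') : G' ⧸ ι.range) := by
  obtain ⟨η, hη, hs⟩ := h.tt.sht
  have hst := (hB G' ι.range s η).2.2.2.2.1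
  rcases S1Star.nb hB h hv with ⟨γ, rfl⟩ | ⟨γ, rfl⟩
  · exfalso
    obtain ⟨y, hy⟩ := (hst _ _).1 hf
    have h3 : γ⁻¹ * c * γ ∈ C' := by
      refine h.tt.relC' _ ⟨y, ?_⟩
      rw [hy]; simp only [map_mul, map_inv]; group
    obtain ⟨c₁, hc₁, he⟩ := h.rC' _ h3
    refine h.nc c hc hc1 ⟨γ, pr c₁, S1Star.height h hc₁, ?_⟩
    rw [← he]; group
  · obtain ⟨y, hy⟩ := (hst _ _).1 hf
    have h3 : γ⁻¹ * c * γ ∈ C := by
      refine h.tt.relC _ ⟨y, ?_⟩
      rw [hy]; simp only [map_mul, map_inv]; group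
    have h4 : γ⁻¹ ∈ C := by
      refine h.mal γ⁻¹ c hc hc1 ?_
      simpa using h3
    have h5 : γ ∈ C := by simpa using C.inv_mem h4
    have h6 := h.rel γ h5
    rw [QuotientGroup.eq]
    refine ⟨em (pr γ)⁻¹, ?_⟩
    rw [map_inv, map_inv, ← h6]; group

/-- FACT A, translated -/
theorem S1Star.factA' (hB : StBasic) (h : S1Hyp pr em X D ι s C C' pr') {e y : G'} {c : G}
    (hc : c ∈ C) (hc1 : c ≠ 1) (hy : y⁻¹ * e * y = ι c) {u u' : G' ⧸ ι.range}
    (hu : (CG ι.range s).Adj ((y : G') : G' ⧸ ι.range) u)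
    (hu' : (CG ι.range s).Adj ((y : G') : G' ⧸ ι.range) u')
    (hf : e • u = u) (hf' : e • u' = u') : u = u' := by
  obtain ⟨η, hη, hs⟩ := h.tt.sht
  have hact := (hB G' ι.range s η).1
  have key : ∀ v : G' ⧸ ι.range, (CG ι.range s).Adj ((y : G') : G' ⧸ ι.range) v → e • v = v →
      y⁻¹ • v = ((s⁻¹ : G') : G' ⧸ ι.range) := by
    intro v hv hfv
    refine S1Star.factA hB h hc hc1 ?_ ?_
    · have h1 := hact y⁻¹ _ _ hv
      have h2 : y⁻¹ • ((y : G') : G' ⧸ ι.range) = ((1 : G') : G' ⧸ ι.range) := by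
        show ((y⁻¹ * y : G') : G' ⧸ ι.range) = _
        rw [inv_mul_cancel]
      rwa [h2] at h1
    · rw [← hy, mul_smul, mul_smul, smul_inv_smul, hfv]
  have h1 := key u hu hf
  have h2 := key u' hu' hf'
  have h3 : y⁻¹ • u = y⁻¹ • u' := by rw [h1, h2]
  exact smul_left_cancel _ h3

end

theorem stS1Star (h4 : StBtwU) (hB : StBasic) (hI : StInc) (hL : StLL) : StS1Star := by
  intro H G G' _ _ _ _ pr em X D ι s C C' pr' h
  obtain ⟨η, hη, hs⟩ := h.tt.sht
  have hη' : ∀ x ∈ ι.range, η x = 1 := by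
    rintro _ ⟨g, rfl⟩; exact hη g
  have hTD : TD ι.range s η := ⟨hη', hs, h.tt.str⟩
  obtain ⟨hact, hni, -, -, hst, hadj, -, -⟩ := hB G' ι.range s η
  have hadj' := hadj hs hη'
  have hconn := h.tt.str.connected
  have hT4 := (h4 _ _ h.tt.str).2 G' hact
  refine ⟨?_, ?_, ?_, ?_⟩
  · -- (a)
    have main : ∀ (e δ : G'), e • ((δ : G') : G' ⧸ ι.range) = ((δ : G') : G' ⧸ ι.range) →
        e • ((δ * s : G') : G' ⧸ ι.range) = ((δ * s : G') : G' ⧸ ι.range) →
        ConjN (ι.comp em) e := by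
      intro e δ h1 h2
      obtain ⟨c, hc, h3, -⟩ := S1Star.edge h ((hst _ _).1 h1) ((hst _ _).1 h2)
      refine ⟨δ, pr c, S1Star.height h hc, ?_⟩
      show e = δ * ι (em (pr c)) * δ⁻¹
      rw [← h3]; group
    intro e c c' hcc h1 h2
    rcases (hadj' _ _).1 hcc with ⟨δ, ⟨rfl, rfl⟩ | ⟨rfl, rfl⟩⟩
    · exact main e δ h1 h2
    · exact main e δ h2 h1
  · -- (b)
    intro e c₀ c₁ c₂ c₃ h01 h12 h23 hne hne' f0 f1 f2 f3
    by_contra he
    rcases (hadj' _ _).1 h12 with ⟨δ, ⟨rfl, rfl⟩ | ⟨rfl, rfl⟩⟩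
    · obtain ⟨c, hc, -, h3⟩ := S1Star.edge h ((hst _ _).1 f1) ((hst _ _).1 f2)
      have hc1 : c ≠ 1 := by
        rintro rfl
        apply he
        rw [map_one] at h3
        have : e = (δ * s) * ((δ * s)⁻¹ * e * (δ * s)) * (δ * s)⁻¹ := by group
        rw [this, h3]; group
      exact hne' (S1Star.factA' hB h hc hc1 h3 h12.symm h23 f1 f3)
    · obtain ⟨c, hc, -, h3⟩ := S1Star.edge h ((hst _ _).1 f2) ((hst _ _).1 f1)
      have hc1 : c ≠ 1 := by
        rintro rfl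
        apply he
        rw [map_one] at h3
        have : e = (δ * s) * ((δ * s)⁻¹ * e * (δ * s)) * (δ * s)⁻¹ := by group
        rw [this, h3]; group
      exact hne (S1Star.factA' hB h hc hc1 h3 h01.symm h12 f0 f2)
  · -- (c)
    intro n c hn hn1 hf hcR
    have hemn : em n ≠ 1 := by
      intro h0
      apply hn1
      rw [← h.st.sec n, h0, map_one]
    have hfR : ι (em n) • ((1 : G') : G' ⧸ ι.range) = ((1 : G') : G' ⧸ ι.range) := by
      rw [hst]
      exact ⟨em n, by group⟩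
    obtain ⟨d₁, hd₁, hl₁⟩ := S1Star.step hconn (Ne.symm hcR)
    have hdd : (CG ι.range s).dist ((1 : G') : G' ⧸ ι.range) d₁ = 1 :=
      SimpleGraph.dist_eq_one_iff_adj.mpr hd₁
    have hf₁ : ι (em n) • d₁ = d₁ := by
      refine hT4 _ _ _ _ hfR hf ?_
      unfold Btw
      omega
    have main : ∃ h : H, d₁ = ((ι (em h) * s : G') : G' ⧸ ι.range) ∧
        ∃ c₀ ∈ C, c₀ ≠ 1 ∧ (ι (em h) * s)⁻¹ * ι (em n) * (ι (em h) * s) = ι c₀ := by
      rcases S1Star.nb hB h hd₁ with ⟨γ, rfl⟩ | ⟨γ, rfl⟩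
      · obtain ⟨y, hy⟩ := (hst _ _).1 hf₁
        have h3 : γ⁻¹ * em n * γ ∈ C' := by
          refine h.tt.relC' _ ⟨y, ?_⟩
          rw [hy]; simp only [map_mul, map_inv]; group
        obtain ⟨c₀, hc₀, he⟩ := h.rC' _ h3
        have hc01 : c₀ ≠ 1 := by
          rintro rfl
          apply hemn
          rw [map_one, map_one] at he
          have : em n = γ * (γ⁻¹ * em n * γ) * γ⁻¹ := by group
          rw [this, he]; group
        obtain ⟨k, hk⟩ := (hL H G pr em X D h.st).2.1 γ⁻¹ n (pr c₀) hn hn1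
          (S1Star.height h hc₀) (by simpa using he)
        have hγ : γ = em k⁻¹ := by rw [map_inv, ← hk, inv_inv]
        refine ⟨k⁻¹, by rw [← hγ], c₀, hc₀, hc01, ?_⟩
        rw [← hγ]
        have h6 := h.rel c₀ hc₀
        rw [← he] at h6
        have h7 : ι c₀ = s⁻¹ * (s * ι c₀ * s⁻¹) * s := by group
        rw [h7, h6]
        simp only [map_mul, map_inv]; group
      · exfalso
        obtain ⟨y, hy⟩ := (hst _ _).1 hf₁
        have h3 : γ⁻¹ * em n * γ ∈ C := by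
          refine h.tt.relC _ ⟨y, ?_⟩
          rw [hy]; simp only [map_mul, map_inv]; group
        refine h.nc _ h3 ?_ ⟨γ⁻¹, n, hn, by group⟩
        intro h0
        apply hemn
        have : em n = γ * (γ⁻¹ * em n * γ) * γ⁻¹ := by group
        rw [this, h0]; group
    obtain ⟨k, hk, c₀, hc₀, hc01, he⟩ := main
    by_cases hcd : d₁ = c
    · exact ⟨k, by rw [← hcd, hk], c₀, hc₀, hc01, he⟩
    · exfalso
      obtain ⟨d₂, hd₂, hl₂⟩ := S1Star.step hconn hcd
      have ht1 : (CG ι.range s).dist ((1 : G') : G' ⧸ ι.range) c ≤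
          (CG ι.range s).dist ((1 : G') : G' ⧸ ι.range) d₂ + (CG ι.range s).dist d₂ c :=
        hconn.dist_triangle
      have ht2 : (CG ι.range s).dist ((1 : G') : G' ⧸ ι.range) d₂ ≤
          (CG ι.range s).dist ((1 : G') : G' ⧸ ι.range) d₁ + (CG ι.range s).dist d₁ d₂ :=
        hconn.dist_triangle
      have ht3 : (CG ι.range s).dist d₁ d₂ = 1 := SimpleGraph.dist_eq_one_iff_adj.mpr hd₂
      have hf₂ : ι (em n) • d₂ = d₂ := by
        refine hT4 _ _ _ _ hfR hf ?_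
        unfold Btw
        omega
      rw [hk] at hd₁ hd₂
      have h9 := S1Star.factA' hB h hc₀ hc01 he hd₁.symm hd₂ hfR hf₂
      rw [← h9] at hl₂
      omega
  · -- (d)
    intro c hi0 hi1
    obtain ⟨hI1, -, -, hI4⟩ := hI G G' X (em th) _ ι s C C' 1 h.st.td le_rfl h.tt
    by_contra hcR
    obtain ⟨d₁, hd₁, hl₁⟩ := S1Star.step hconn (Ne.symm hcR)
    have hdd : (CG ι.range s).dist ((1 : G') : G' ⧸ ι.range) d₁ = 1 :=
      SimpleGraph.dist_eq_one_iff_adj.mpr hd₁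
    have hbt : Btw (CG ι.range s) ((1 : G') : G' ⧸ ι.range) d₁ c := by
      unfold Btw
      omega
    have hj0 : Inc ι (XX ι s (em th) X 1) (vx (ι (em th)) _ 0) d₁ := by
      refine (hI1 _).1 ((1 : G') : G' ⧸ ι.range) ?_ c hi0 d₁ hbt
      exact ⟨1, by simp [vx], rfl⟩
    have hj1 : Inc ι (XX ι s (em th) X 1) (vx (ι (em th)) _ 1) d₁ := by
      refine (hI1 _).1 ((1 : G') : G' ⧸ ι.range) ?_ c hi1 d₁ hbt
      refine ⟨ι (em th), by simp [vx], ?_⟩
      rw [QuotientGroup.eq]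
      exact ⟨(em th)⁻¹, by simp⟩
    obtain ⟨g, hg, hgc⟩ := hj0
    obtain ⟨g', hg', hgc'⟩ := hj1
    have hgX : g ∈ XX ι s (em th) X 1 := by
      have h1 : ((1 : G') : G' ⧸ XX ι s (em th) X 1) = (g : G' ⧸ XX ι s (em th) X 1) := by
        rw [hg]; simp [vx]
      have := QuotientGroup.eq.1 h1
      simpa using this
    have hgX' : (ι (em th))⁻¹ * g' ∈ XX ι s (em th) X 1 := by
      have h1 : ((ι (em th) : G') : G' ⧸ XX ι s (em th) X 1) =
          (g' : G' ⧸ XX ι s (em th) X 1) := by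
        rw [hg']; simp [vx]
      exact QuotientGroup.eq.1 h1
    have e0 := hI4 g hgX (by rw [hgc]; exact hd₁)
    have hR : (ι (em th))⁻¹ • ((1 : G') : G' ⧸ ι.range) = ((1 : G') : G' ⧸ ι.range) := by
      show (((ι (em th))⁻¹ * 1 : G') : G' ⧸ ι.range) = _
      rw [QuotientGroup.eq]
      exact ⟨em th, by simp⟩
    have hg'' : (ι (em th))⁻¹ • d₁ = (((ι (em th))⁻¹ * g' : G') : G' ⧸ ι.range) := by
      rw [← hgc']; rfl
    have e1 := hI4 _ hgX' (by
      have := hact (ι (em th))⁻¹ _ _ hd₁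
      rwa [hR, hg''] at this)
    obtain ⟨y, hy, j, hj, e0⟩ := e0
    obtain ⟨y', hy', j', hj', e1⟩ := e1
    have hj0 : j = 0 := by omega
    have hj0' : j' = 0 := by omega
    subst hj0 hj0'
    have hyh : hz (pr y) = 1 := by simpa using h.st.td.ht y hy
    have hyh' : hz (pr y') = 1 := by simpa using h.st.td.ht y' hy'
    have hth : hz (pr (em th)) = (ofAdd 1 : Multiplicative ℤ) := by rw [h.st.sec]; exact hz_th
    have hC : y⁻¹ * em th * y' ∉ C := by
      intro h0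
      have h1 := S1Star.height h h0
      simp only [map_mul, map_inv, hyh, hyh', hth] at h1
      exact absurd h1 (by decide)
    have hC' : y⁻¹ * em th * y' ∉ C' := by
      intro h0
      obtain ⟨c₀, hc₀, he⟩ := h.rC' _ h0
      have h1 := S1Star.height h hc₀
      have h2 : hz (pr (y⁻¹ * em th * y')) = 1 := by rw [he, h.st.sec, h1]
      simp only [map_mul, map_inv, hyh, hyh', hth] at h2
      exact absurd h2 (by decide)
    -- the same vertex
    have hE : ∀ z z' : G', (g : G' ⧸ ι.range) = (z : G' ⧸ ι.range) →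
        (((ι (em th))⁻¹ * g' : G') : G' ⧸ ι.range) = (z' : G' ⧸ ι.range) →
        z⁻¹ * (ι (em th) * z') ∈ ι.range := by
      intro z z' h1 h2
      rw [← QuotientGroup.eq]
      have h3 : ι (em th) • (((ι (em th))⁻¹ * g' : G') : G' ⧸ ι.range) =
          ι (em th) • (z' : G' ⧸ ι.range) := by rw [h2]
      have h4 : ι (em th) • (((ι (em th))⁻¹ * g' : G') : G' ⧸ ι.range) =
          (g' : G' ⧸ ι.range) := by
        show ((ι (em th) * ((ι (em th))⁻¹ * g') : G') : G' ⧸ ι.range) = _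
        rw [mul_inv_cancel_left]
      rw [← h1, hgc, ← hgc', ← h4, h3]
      rfl
    rcases e0 with e0 | e0 <;> rcases e1 with e1 | e1
    · have h1 := hE _ _ e0 e1
      obtain ⟨z, hz⟩ := h1
      apply hC'
      refine h.tt.relC' _ ⟨z, ?_⟩
      rw [hz]; simp only [map_mul, map_inv, pow_zero, mul_one]; group
    · have h1 := hη' _ (hE _ _ e0 e1)
      simp only [map_mul, map_inv, hη, hs] at h1
      exact absurd h1 (by decide)
    · have h1 := hη' _ (hE _ _ e0 e1)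
      simp only [map_mul, map_inv, hη, hs] at h1
      exact absurd h1 (by decide)
    · have h1 := hE _ _ e0 e1
      obtain ⟨z, hz⟩ := h1
      apply hC
      refine h.tt.relC _ ⟨z, ?_⟩
      rw [hz]; simp only [map_mul, map_inv, pow_zero, mul_one]; group

end Pool.Agent.D6b
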