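import Pool.Agent.Lib.MP_d6b03d_al.Stmts

/-!
MP_d6b03d_al, module B4: the two trees of an HNN extension of `G` with associated subgroups
inside `X`.
-/

set_option autoImplicit false

namespace Pool.Agent.D6b

open Multiplicative HNNExtension HNNExtension.NormalWord

namespace S1T

variable {G : Type} [Group G] {C C' : Subgroup G} {φ : C ≃* C'}

/-- words with entries in `X` -/
def InX (X : Subgroup G) (w : ReducedWord G C C') : Prop :=
  w.head ∈ X ∧ ∀ p ∈ w.toList, p.2 ∈ X

lemma tu_mul (u : ℤˣ) (a : G) (X : Subgroup G) (hC : C ≤ X) (hC' : C' ≤ X)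
    (ha : a ∈ toSubgroup C C' u) :
    ∃ b ∈ X, (t : HNNExtension G C C' φ) ^ (u : ℤ) * of a = of b * t ^ (u : ℤ) := by
  rcases Int.units_eq_one_or u with rfl | rfl
  · refine ⟨φ ⟨a, ha⟩, hC' (φ ⟨a, ha⟩).2, ?_⟩
    have := t_mul_of (φ := φ) ⟨a, ha⟩
    simpa using this
  · refine ⟨φ.symm ⟨a, ha⟩, hC (φ.symm ⟨a, ha⟩).2, ?_⟩
    have := inv_t_mul_of (φ := φ) ⟨a, ha⟩
    simpa using this

lemma step (X : Subgroup G) (hC : C ≤ X) (hC' : C' ≤ X) (u : ℤˣ) (w : ReducedWord G C C')
    (hw : InX X w) : ∃ w' : ReducedWord G C C', InX X w' ∧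
      w'.prod φ = t ^ (u : ℤ) * w.prod φ := by
  obtain ⟨g, l, hl⟩ := w
  obtain ⟨h1, h2⟩ := hw
  dsimp only at h1 h2
  by_cases hc : ((u, g) :: l).IsChain (fun a b => a.2 ∈ toSubgroup C C' a.1 → a.1 = b.1)
  · refine ⟨⟨1, (u, g) :: l, hc⟩, ⟨X.one_mem, ?_⟩, ?_⟩
    · intro p hp
      rcases List.mem_cons.1 hp with rfl | hp
      · exact h1
      · exact h2 p hp
    · simp [ReducedWord.prod, mul_assoc]
  · cases l with
    | nil => exact absurd (List.isChain_singleton _) hc
    | cons b l =>
      rw [List.isChain_cons_cons] at hc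
      have hgu : g ∈ toSubgroup C C' u ∧ u ≠ b.1 := by
        by_contra hcon
        apply hc
        refine ⟨fun hg => ?_, hl⟩
        by_contra hne
        exact hcon ⟨hg, hne⟩
      obtain ⟨hg, hne⟩ := hgu
      have hb : b.1 = -u := by
        rcases Int.units_eq_one_or u with rfl | rfl <;>
          rcases Int.units_eq_one_or b.1 with hb | hb <;> simp_all
      obtain ⟨a, haX, ha⟩ := tu_mul (φ := φ) u g X hC hC' hg
      refine ⟨⟨a * b.2, l, (List.isChain_cons.1 hl).2⟩, ⟨?_, ?_⟩, ?_⟩
      · exact X.mul_mem haX (h2 b (List.mem_cons_self ..))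
      · intro p hp
        exact h2 p (List.mem_cons_of_mem _ hp)
      · simp only [ReducedWord.prod, List.map_cons, List.prod_cons, map_mul]
        rw [hb, ← mul_assoc (t ^ (u : ℤ)), ha]
        have : (t : HNNExtension G C C' φ) ^ (u : ℤ) * t ^ ((-u : ℤˣ) : ℤ) = 1 := by
          rw [← zpow_add]; simp
        calc of a * of b.2 * (List.map (fun x => t ^ (x.1 : ℤ) * of x.2) l).prod
            = of a * (t ^ (u : ℤ) * t ^ ((-u : ℤˣ) : ℤ)) * of b.2 *
              (List.map (fun x => t ^ (x.1 : ℤ) * of x.2) l).prod := by rw [this, mul_one]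
          _ = _ := by simp only [mul_assoc]

lemma gens {G' : Type} [Group G'] (ι : G →* G') (s : G') (t : G) (X : Subgroup G) :
    (ι '' (X : Set G) ∪ {z | ∃ j : ℕ, j < 1 ∧ z = ι (t ^ j) * s * (ι (t ^ j))⁻¹}) =
      (ι '' (X : Set G) ∪ {s}) := by
  congr 1
  ext z
  simp only [Set.mem_ofPred_eq, Set.mem_singleton_iff]
  constructor
  · rintro ⟨j, hj, rfl⟩
    obtain rfl : j = 0 := by omega
    simp
  · rintro rfl
    exact ⟨0, by omega, by simp⟩

lemma XX_eq {G' : Type} [Group G'] (ι : G →* G') (s : G') (t : G) (X : Subgroup G) :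
    XX ι s t X 1 = Subgroup.closure (ι '' (X : Set G) ∪ {s}) := by
  rw [XX, gens]

lemma exists_word (X : Subgroup G) (hC : C ≤ X) (hC' : C' ≤ X) (x : HNNExtension G C C' φ)
    (hx : x ∈ Subgroup.closure ((of (φ := φ)) '' (X : Set G) ∪ {HNNExtension.t})) :
    ∃ w : ReducedWord G C C', InX X w ∧ w.prod φ = x := by
  induction hx using Subgroup.closure_induction_left with
  | one => exact ⟨ReducedWord.empty G C C', ⟨X.one_mem, by simp⟩, by simp [ReducedWord.prod]⟩
  | mul_left y hy z hz ih =>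
    obtain ⟨w, hw, rfl⟩ := ih
    rcases hy with ⟨g, hg, rfl⟩ | hy
    · refine ⟨⟨g * w.head, w.toList, w.chain⟩, ⟨X.mul_mem hg hw.1, hw.2⟩, ?_⟩
      simp [ReducedWord.prod, mul_assoc]
    · rw [Set.mem_singleton_iff] at hy
      subst hy
      obtain ⟨w', hw', h⟩ := step (φ := φ) X hC hC' 1 w hw
      exact ⟨w', hw', by rw [h]; simp⟩
  | inv_mul_cancel y hy z hz ih =>
    obtain ⟨w, hw, rfl⟩ := ih
    rcases hy with ⟨g, hg, rfl⟩ | hy
    · refine ⟨⟨g⁻¹ * w.head, w.toList, w.chain⟩, ⟨X.mul_mem (X.inv_mem hg) hw.1, hw.2⟩, ?_⟩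
      simp [ReducedWord.prod, mul_assoc]
    · rw [Set.mem_singleton_iff] at hy
      subst hy
      obtain ⟨w', hw', h⟩ := step (φ := φ) X hC hC' (-1) w hw
      exact ⟨w', hw', by rw [h]; simp⟩

end S1T

open S1T

theorem s1Tree (h0 : StBasic) (h1 : StBS1) (h2 : StBS2) (h2' : StUP) : StS1Tree := by
  intro G _ X t η htd C C' φ hC hC'
  obtain ⟨hb1, hb2, hb3, η₁, hη₁, hη₁s⟩ := h1 G C C' φ
  have hcl : Subgroup.closure ((X : Set G) ∪ {t}) = ⊤ := by
    obtain ⟨-, -, -, -, -, -, h, -⟩ := h0 G X t η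
    exact h htd
  refine ⟨of_injective φ, ⟨η₁, hη₁, hη₁s⟩, hb1, ?_, ?_, ?_, ?_⟩
  · rintro x ⟨y, hy⟩
    exact hb3 x y hy
  · rintro x ⟨y, hy⟩
    exact hb2 x y hy
  · have hηφ : ∀ a : C, (1 : Multiplicative ℤ) * η a = η (φ a : G) * 1 := by
      intro a
      rw [htd.ht a (hC a.2), htd.ht (φ a) (hC' (φ a).2)]
    set η' : HNNExtension G C C' φ →* Multiplicative ℤ := HNNExtension.lift η 1 hηφ with hη'
    rw [XX_eq]
    set X' : Subgroup (HNNExtension G C C' φ) :=
      Subgroup.closure ((of (φ := φ)) '' (X : Set G) ∪ {HNNExtension.t}) with hX'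
    have hsX : (HNNExtension.t : HNNExtension G C C' φ) ∈ X' :=
      Subgroup.subset_closure (Or.inr rfl)
    have hιX : ∀ x ∈ X, (of x : HNNExtension G C C' φ) ∈ X' := fun x hx =>
      Subgroup.subset_closure (Or.inl ⟨x, hx, rfl⟩)
    refine (h2' _ X' (of t) η' ?_ ?_ ?_ ?_).tree
    · intro x hx
      induction hx using Subgroup.closure_induction with
      | mem x hx =>
        rcases hx with ⟨g, hg, rfl⟩ | hx
        · rw [hη', lift_of]; exact htd.ht g hg
        · rw [Set.mem_singleton_iff] at hx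
          rw [hx, hη', lift_t]
      | one => exact map_one _
      | mul x y _ _ hx hy => rw [map_mul, hx, hy, one_mul]
      | inv x _ hx => rw [map_inv, hx, inv_one]
    · rw [hη', lift_of]; exact htd.et
    · rw [eq_top_iff]
      intro x _
      have hle : X' ≤ Subgroup.closure ((X' : Set (HNNExtension G C C' φ)) ∪ {of t}) := by
        intro z hz
        exact Subgroup.subset_closure (Or.inl hz)
      induction x using HNNExtension.induction_on with
      | of g =>
        have hg : g ∈ Subgroup.closure ((X : Set G) ∪ {t}) := by rw [hcl]; trivial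
        induction hg using Subgroup.closure_induction with
        | mem x hx =>
          rcases hx with hx | hx
          · exact hle (hιX x hx)
          · rw [Set.mem_singleton_iff] at hx
            rw [hx]
            exact Subgroup.subset_closure (Or.inr rfl)
        | one => rw [map_one]; exact Subgroup.one_mem _
        | mul x y _ _ hx hy =>
          rw [map_mul]
          exact Subgroup.mul_mem _ (hx trivial) (hy trivial)
        | inv x _ hx =>
          rw [map_inv]
          exact Subgroup.inv_mem _ (hx trivial)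
      | t => exact hle hsX
      | mul x y hx hy => exact Subgroup.mul_mem _ (hx trivial) (hy trivial)
      | inv x hx => exact Subgroup.inv_mem _ (hx trivial)
    · intro L _ ψ y hrel
      let iX : X →* X' :=
        { toFun := fun x => ⟨of (x : G), hιX x x.2⟩
          map_one' := by apply Subtype.ext; simp
          map_mul' := by intro a b; apply Subtype.ext; simp }
      obtain ⟨Ψ₀, hΨ₀, hΨ₀t⟩ := h2 G X t η htd L (ψ.comp iX) y (by
        intro x x' hxx
        simp only [MonoidHom.comp_apply]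
        apply hrel
        change (of t : HNNExtension G C C' φ) * of (x : G) * (of t)⁻¹ = of (x' : G)
        rw [← hxx]
        simp)
      have hcomm : ∀ c : C, ψ ⟨HNNExtension.t, hsX⟩ * Ψ₀ c =
          Ψ₀ (φ c : G) * ψ ⟨HNNExtension.t, hsX⟩ := by
        intro c
        have e1 : Ψ₀ (c : G) = ψ (iX ⟨c, hC c.2⟩) := hΨ₀ ⟨c, hC c.2⟩
        have e2 : Ψ₀ (φ c : G) = ψ (iX ⟨φ c, hC' (φ c).2⟩) := hΨ₀ ⟨φ c, hC' (φ c).2⟩
        rw [e1, e2, ← map_mul, ← map_mul]
        congr 1
        apply Subtype.ext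
        exact t_mul_of c
      refine ⟨HNNExtension.lift Ψ₀ (ψ ⟨HNNExtension.t, hsX⟩) hcomm, ?_, ?_⟩
      · rintro ⟨x, hx⟩
        change HNNExtension.lift Ψ₀ (ψ ⟨HNNExtension.t, hsX⟩) hcomm x = ψ ⟨x, hx⟩
        induction hx using Subgroup.closure_induction with
        | mem x hx =>
          rcases hx with ⟨g, hg, rfl⟩ | hx
          · rw [lift_of]
            exact hΨ₀ ⟨g, hg⟩
          · rw [Set.mem_singleton_iff] at hx
            subst hx
            rw [lift_t]
        | one => rw [map_one]; exact (map_one ψ).symm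
        | mul x y hx' hy' hx hy =>
          rw [map_mul, hx, hy, ← map_mul]
          rfl
        | inv x hx' hx =>
          rw [map_inv, hx, ← map_inv]
          rfl
      · rw [lift_of]
        exact hΨ₀t
  · intro g hg
    rw [XX_eq] at hg
    obtain ⟨w, hw, hp⟩ := exists_word X hC hC' _ hg
    have hnil := ReducedWord.toList_eq_nil_of_mem_of_range φ w (by rw [hp]; exact ⟨g, rfl⟩)
    have : (of w.head : HNNExtension G C C' φ) = of g := by
      rw [← hp]
      simp [ReducedWord.prod, hnil]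
    have := of_injective φ this
    rw [← this]
    exact hw.1

end Pool.Agent.D6b
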