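import Pool.Agent.Lib.MP_d6b03d_al.Stmts

/-!
MP_d6b03d_al: the second task, `StS2` (assembly from `B1`, `B5`, `G1`, `G2`, `G5`, `K5`).
-/

set_option autoImplicit false

namespace Pool.Agent.D6b

open Multiplicative Base

namespace S2Aux

/-- powers of an element of nonzero height are distinct -/
theorem pow_ne_one_of_height {G : Type} [Group G] (η : G →* Multiplicative ℤ) (g : G)
    (h : η g ≠ 1) : ∀ n : ℕ, 0 < n → g ^ n ≠ 1 := by
  intro n hn hg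
  have h1 : η g ^ n = 1 := by rw [← map_pow, hg, map_one]
  apply h
  have h2 : toAdd (η g ^ n) = 0 := by rw [h1]; rfl
  rw [toAdd_pow] at h2
  have h3 : toAdd (η g) = 0 := by
    rcases smul_eq_zero.1 h2 with h4 | h4
    · omega
    · exact h4
  exact toAdd_eq_zero.1 h3

/-- the isomorphism between two infinite cyclic groups -/
theorem exists_zpowers_equiv {G : Type} [Group G] (η : G →* Multiplicative ℤ) (g u : G)
    (hg : η g ≠ 1) (hu : η u ≠ 1) : ∃ φ : Subgroup.zpowers g ≃* Subgroup.zpowers u,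
      ((φ ⟨g, Subgroup.mem_zpowers g⟩ : Subgroup.zpowers u) : G) = u := by
  have gen : ∀ x : G, ∀ y : Subgroup.zpowers x,
      y ∈ Subgroup.zpowers (⟨x, Subgroup.mem_zpowers x⟩ : Subgroup.zpowers x) := by
    rintro x ⟨y, hy⟩
    obtain ⟨k, hk⟩ := Subgroup.mem_zpowers_iff.1 hy
    exact Subgroup.mem_zpowers_iff.2 ⟨k, Subtype.ext hk⟩
  have ord : ∀ x : G, η x ≠ 1 →
      orderOf (⟨x, Subgroup.mem_zpowers x⟩ : Subgroup.zpowers x) = 0 := by
    intro x hx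
    rw [orderOf_eq_zero_iff']
    intro n hn h1
    have h2 := congrArg Subtype.val h1
    exact pow_ne_one_of_height η x hx n hn (by simpa using h2)
  refine ⟨mulEquivOfOrderOfEq (gen g) (gen u) (by rw [ord g hg, ord u hu]), ?_⟩
  rw [mulEquivOfOrderOfEq_apply_gen]

/-- change of base, iterated -/
theorem stage_Xn (hBC : StBC) (H G : Type) [Group H] [Base H] [Group G] (pr : G →* H)
    (em : H →* G) (X : Subgroup G) (D : ℕ) (hst : IsStage pr em X D) (n : ℕ) :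
    ∃ D' : ℕ, IsStage pr em (Xn (em th) X n) D' := by
  induction n with
  | zero => exact ⟨D, hst⟩
  | succ n ih =>
    obtain ⟨D', h⟩ := ih
    exact ⟨D' + 2, hBC H G pr em _ D' h⟩

/-- HNN extensions of countable groups are countable -/
theorem countable_hnn {G : Type} [Group G] [Countable G] (A B : Subgroup G) (φ : A ≃* B) :
    Countable (HNNExtension G A B φ) := by
  have h1 : Countable (Monoid.Coprod G (Multiplicative ℤ)) := by
    have h2 : Countable (FreeMonoid (G ⊕ Multiplicative ℤ)) := by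
      have : Countable (List (G ⊕ Multiplicative ℤ)) := inferInstance
      exact this
    exact (Monoid.Coprod.mk_surjective).countable
  exact (Con.mk'_surjective (c := HNNExtension.con G A B φ)).countable

end S2Aux

open S2Aux in
/-- the second task -/
theorem stS2 (hT : StS2Tree) (hBC : StBC) (hAbs : StAbsorb) (hPrep : StS2Prep)
    (hInv : StS2Inv) : StS2 := by
  intro H _ _ A g s₀ hg hs₀
  by_cases hc : ConjH A.em g
  · exact ⟨A, MonoidHom.id _, ⟨fun _ => rfl, fun _ => rfl⟩, hs₀, hc⟩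
  obtain ⟨g₀, m, hm, hpr0, hnc, hcent, y, k, hyk⟩ := hPrep H A.G A.pr A.em A.X A.D A.ok g hg hc
  obtain ⟨t, ht⟩ : ∃ t : A.G, t = A.em th := ⟨_, rfl⟩
  have hprt : A.pr t = th := by rw [ht]; exact A.ok.sec th
  -- the element of height zero
  obtain ⟨κ₀, hκ₀⟩ : ∃ κ₀ : A.G, κ₀ = t ^ m * g₀ := ⟨_, rfl⟩
  have hprκ₀ : A.pr κ₀ = 1 := by
    rw [hκ₀, map_mul, map_pow, hprt, hpr0]
    group
  obtain ⟨R, hR⟩ : ∃ R : ℕ, R = (CG A.X t).dist (vx t A.X 0) (κ₀ • vx t A.X 0) := ⟨_, rfl⟩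
  have htd : TD A.X t (hz.comp A.pr) := by rw [ht]; exact A.ok.td
  have hκX : t ^ R * κ₀ * (t ^ R)⁻¹ ∈ Xn t A.X (2 * R) :=
    hAbs A.G A.X t (hz.comp A.pr) htd R κ₀ (by rw [MonoidHom.comp_apply, hprκ₀, map_one])
      hR.symm.le
  obtain ⟨κ, hκ⟩ : ∃ κ : A.G, κ = t ^ R * κ₀ * (t ^ R)⁻¹ := ⟨_, rfl⟩
  rw [← hκ] at hκX
  obtain ⟨D₁, hst₁⟩ := stage_Xn hBC H A.G A.pr A.em A.X A.D A.ok (2 * R)
  rw [← ht] at hst₁
  have hprκ : A.pr κ = 1 := by
    rw [hκ, map_mul, map_mul, hprκ₀, mul_one, map_inv, mul_inv_cancel]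
  -- the conjugate of `g₀`
  have hg₁ : t ^ (-(m : ℤ)) * κ = t ^ R * g₀ * (t ^ R)⁻¹ := by
    rw [hκ, hκ₀]
    group
  have hcent₁ : ∀ c : A.G, c * (t ^ (-(m : ℤ)) * κ) = (t ^ (-(m : ℤ)) * κ) * c →
      c ∈ Subgroup.zpowers (t ^ (-(m : ℤ)) * κ) := by
    intro c hcc
    rw [hg₁] at hcc ⊢
    have h1 : ((t ^ R)⁻¹ * c * t ^ R) * g₀ = g₀ * ((t ^ R)⁻¹ * c * t ^ R) := by
      calc ((t ^ R)⁻¹ * c * t ^ R) * g₀
          = (t ^ R)⁻¹ * (c * (t ^ R * g₀ * (t ^ R)⁻¹)) * t ^ R := by group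
        _ = (t ^ R)⁻¹ * ((t ^ R * g₀ * (t ^ R)⁻¹) * c) * t ^ R := by rw [hcc]
        _ = g₀ * ((t ^ R)⁻¹ * c * t ^ R) := by group
    obtain ⟨j, hj⟩ := Subgroup.mem_zpowers_iff.1 (hcent _ h1)
    refine Subgroup.mem_zpowers_iff.2 ⟨j, ?_⟩
    rw [conj_zpow, hj]
    group
  have hnc₁ : ¬ ConjH A.em (t ^ (-(m : ℤ)) * κ) := by
    rintro ⟨z, h, hz'⟩
    apply hnc
    refine ⟨(t ^ R)⁻¹ * z, h, ?_⟩
    rw [hg₁] at hz'
    calc g₀ = (t ^ R)⁻¹ * (t ^ R * g₀ * (t ^ R)⁻¹) * t ^ R := by group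
      _ = (t ^ R)⁻¹ * (z * A.em h * z⁻¹) * t ^ R := by rw [hz']
      _ = (t ^ R)⁻¹ * z * A.em h * ((t ^ R)⁻¹ * z)⁻¹ := by group
  -- heights
  have hηt : (hz.comp A.pr) (t ^ (-(m : ℤ))) ≠ 1 := by
    rw [map_zpow, MonoidHom.comp_apply, hprt, hz_th]
    intro h
    have h2 : toAdd ((ofAdd (1 : ℤ)) ^ (-(m : ℤ))) = 0 := by rw [h]; rfl
    rw [toAdd_zpow] at h2
    simp at h2
    omega
  have hηg : (hz.comp A.pr) (t ^ (-(m : ℤ)) * κ) ≠ 1 := by
    rw [map_mul]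
    have : (hz.comp A.pr) κ = 1 := by rw [MonoidHom.comp_apply, hprκ, map_one]
    rw [this, mul_one]
    exact hηt
  obtain ⟨φ, hφ⟩ := exists_zpowers_equiv (hz.comp A.pr) _ _ hηg hηt
  have htt := hT A.G (Xn t A.X (2 * R)) t (hz.comp A.pr) (by rw [ht] at hst₁ ⊢; exact hst₁.td)
    m hm κ hκX φ hφ
  -- the projection
  have hlift : ∀ a : Subgroup.zpowers (t ^ (-(m : ℤ)) * κ),
      1 * A.pr (a : A.G) = A.pr ((φ a : Subgroup.zpowers (t ^ (-(m : ℤ)))) : A.G) * 1 := by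
    rintro ⟨a, ha⟩
    obtain ⟨j, hj⟩ := Subgroup.mem_zpowers_iff.1 ha
    have h1 : (⟨a, ha⟩ : Subgroup.zpowers (t ^ (-(m : ℤ)) * κ)) =
        (⟨t ^ (-(m : ℤ)) * κ, Subgroup.mem_zpowers _⟩ :
          Subgroup.zpowers (t ^ (-(m : ℤ)) * κ)) ^ j := Subtype.ext hj.symm
    rw [h1, map_zpow]
    have h2 : (((φ ⟨t ^ (-(m : ℤ)) * κ, Subgroup.mem_zpowers _⟩) ^ j :
        Subgroup.zpowers (t ^ (-(m : ℤ)))) : A.G) = (t ^ (-(m : ℤ))) ^ j :=
      congrArg (fun x : A.G => x ^ j) hφ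
    rw [h2]
    show 1 * A.pr ((t ^ (-(m : ℤ)) * κ) ^ j) = _
    rw [map_zpow, map_mul, hprκ, mul_one, one_mul, mul_one, map_zpow A.pr (t ^ (-(m : ℤ)))]
  obtain ⟨pr', hpr'⟩ : ∃ pr' : HNNExtension A.G (Subgroup.zpowers (t ^ (-(m : ℤ)) * κ))
      (Subgroup.zpowers (t ^ (-(m : ℤ)))) φ →* H, pr' = HNNExtension.lift A.pr 1 hlift := ⟨_, rfl⟩
  have hrel : (HNNExtension.t : HNNExtension A.G (Subgroup.zpowers (t ^ (-(m : ℤ)) * κ))
      (Subgroup.zpowers (t ^ (-(m : ℤ)))) φ) * HNNExtension.of (t ^ (-(m : ℤ)) * κ) *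
      HNNExtension.t⁻¹ = HNNExtension.of (t ^ (-(m : ℤ))) := by
    have h1 := HNNExtension.equiv_eq_conj (φ := φ)
      (⟨t ^ (-(m : ℤ)) * κ, Subgroup.mem_zpowers _⟩ : Subgroup.zpowers (t ^ (-(m : ℤ)) * κ))
    rw [hφ] at h1
    exact h1.symm
  have hyp : S2Hyp A.pr A.em (Xn t A.X (2 * R)) D₁
      (HNNExtension.of (φ := φ)) HNNExtension.t m κ (t ^ (-(m : ℤ)) * κ) pr' := by
    subst ht
    exact {
      st := hst₁
      mpos := hm
      kX := hκX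
      prk := hprκ
      hg := rfl
      cent := hcent₁
      nh := hnc₁
      tt := htt
      rel := hrel
      pri := fun x => by rw [hpr', HNNExtension.lift_of]
      prs := by rw [hpr', HNNExtension.lift_t] }
  obtain ⟨D', hst'⟩ := hInv H A.G _ A.pr A.em _ D₁ _ _ m κ _ pr' hyp
  have hcnt : Countable (HNNExtension A.G (Subgroup.zpowers (t ^ (-(m : ℤ)) * κ))
      (Subgroup.zpowers (t ^ (-(m : ℤ)))) φ) := by
    have := A.cnt
    exact countable_hnn _ _ _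
  refine ⟨{ G := _, grp := inferInstance, cnt := hcnt, pr := pr',
            em := (HNNExtension.of (φ := φ)).comp A.em, X := _, D := D', ok := hst' },
    HNNExtension.of (φ := φ), ⟨?_, ?_⟩, ?_, ?_⟩
  · intro x
    show pr' (HNNExtension.of x) = A.pr x
    rw [hpr', HNNExtension.lift_of]
  · intro h
    rfl
  · intro h
    apply hs₀
    apply HNNExtension.of_injective (φ := φ)
    rw [map_one]
    exact h
  · -- conjugacy
    refine ⟨HNNExtension.of y * (HNNExtension.of (t ^ R))⁻¹ * HNNExtension.t⁻¹,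
      (th ^ (-(m : ℤ))) ^ k, ?_⟩
    show HNNExtension.of g = _
    have h0 : g₀ = (t ^ R)⁻¹ * (t ^ (-(m : ℤ)) * κ) * t ^ R := by rw [hg₁]; group
    have hem : (HNNExtension.of (φ := φ)).comp A.em ((th ^ (-(m : ℤ))) ^ k) =
        (HNNExtension.of (φ := φ) (t ^ (-(m : ℤ)))) ^ k := by
      have h3 : A.em (th ^ (-(m : ℤ))) = t ^ (-(m : ℤ)) := by rw [map_zpow, ← ht]
      rw [map_zpow, MonoidHom.comp_apply, h3]
    have hg1 : HNNExtension.of (φ := φ) (t ^ (-(m : ℤ)) * κ) = HNNExtension.t⁻¹ *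
        HNNExtension.of (φ := φ) (t ^ (-(m : ℤ))) * HNNExtension.t := by
      rw [← hrel]; group
    have hg0 : HNNExtension.of (φ := φ) g₀ = ((HNNExtension.of (t ^ R))⁻¹ * HNNExtension.t⁻¹) *
        HNNExtension.of (φ := φ) (t ^ (-(m : ℤ))) *
        ((HNNExtension.of (t ^ R))⁻¹ * HNNExtension.t⁻¹)⁻¹ := by
      rw [h0, map_mul, map_mul, map_inv, hg1]
      group
    rw [hyk, map_mul, map_mul, map_zpow, map_inv, hg0, conj_zpow]
    show _ = _ * (HNNExtension.of (φ := φ)).comp A.em ((th ^ (-(m : ℤ))) ^ k) * _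
    rw [hem]
    group

end Pool.Agent.D6b
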