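import Pool.Agent.Lib.MP_d6b03d_al.Stmts
import Pool.Agent.Lib.MP_d6b03d_al.ProjFix

/-!
MP_d6b03d_al, module K4: `F1`, `F2`, `F3` for the second step.
-/

set_option autoImplicit false

namespace Pool.Agent.D6b

open Multiplicative Base

namespace S2F

/-- an automorphism fixing no edge has at most one fixed vertex -/
theorem fix_unique (h4 : StBtwU) {V : Type} {S : SimpleGraph V} (hS : S.IsTree) {G : Type}
    [Group G] [MulAction G V] (hA : ActsOn S G) {e : G}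
    (hE : ∀ c c' : V, S.Adj c c' → e • c = c → e • c' = c' → False) {c c' : V} (hc : e • c = c)
    (hc' : e • c' = c') : c = c' := by
  by_contra hne
  obtain ⟨r, hadj, -, -, hb⟩ := exists_step hS.connected hne
  exact hE c r hadj hc ((h4 V S hS).2 G hA e c c' r hc hc' hb)

/-- a set without long paths containing a vertex `R` with two neighbours is a star -/
theorem star {V : Type} {S : SimpleGraph V} (hS : S.IsTree) {Q : Set V} (hQ : Cvx S Q)
    (hno : ∀ c₀ ∈ Q, ∀ c₁ ∈ Q, ∀ c₂ ∈ Q, ∀ c₃ ∈ Q, S.Adj c₀ c₁ → S.Adj c₁ c₂ → S.Adj c₂ c₃ →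
      c₀ ≠ c₂ → c₁ ≠ c₃ → False) {R a b : V} (hR : R ∈ Q) (ha : a ∈ Q) (hb : b ∈ Q)
    (hRa : S.Adj R a) (hRb : S.Adj R b) (hab : a ≠ b) {c : V} (hc : c ∈ Q) (hcR : c ≠ R) :
    S.Adj R c := by
  obtain ⟨x, hx, hx1, hx2, hx3⟩ := exists_step hS.connected (u := R) (v := c) (Ne.symm hcR)
  by_cases hxc : x = c
  · rwa [hxc] at hx
  exfalso
  obtain ⟨y, hy, hy1, hy2, hy3⟩ := exists_step hS.connected hxc
  have hRy : S.dist R y = 2 := by
    have h1 := hS.connected.dist_triangle (u := R) (v := y) (w := c)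
    have h2 := hS.connected.dist_triangle (u := R) (v := x) (w := y)
    omega
  have hy4 : Btw S R y c := by
    unfold Btw
    omega
  have hxQ : x ∈ Q := hQ R hR c hc x hx3
  have hyQ : y ∈ Q := hQ R hR c hc y hy4
  have hne : R ≠ y := by
    rintro rfl
    rw [SimpleGraph.dist_self] at hRy
    omega
  by_cases hax : a = x
  · exact hno b hb R hR x hxQ y hyQ hRb.symm hx hy (fun h => hab (hax.trans h.symm)) hne
  · exact hno a ha R hR x hxQ y hyQ hRa.symm hx hy hax hne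

theorem line_adj {V : Type} {S : SimpleGraph V} {L : ℤ → V} (hL : IsLine S L) (i : ℤ) :
    S.Adj (L i) (L (i + 1)) := by
  rw [← SimpleGraph.dist_eq_one_iff_adj, hL]
  omega

theorem line_ne {V : Type} {S : SimpleGraph V} {L : ℤ → V} (hL : IsLine S L) {i j : ℤ}
    (h : i ≠ j) : L i ≠ L j := by
  intro hc
  have h1 := hL i j
  rw [hc, SimpleGraph.dist_self] at h1
  omega

variable {H G G' : Type} [Group H] [Base H] [Group G] [Group G'] {pr : G →* H} {em : H →* G}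
  {X : Subgroup G} {D : ℕ} {ι : G →* G'} {s : G'} {m : ℕ} {κ g : G} {pr' : G' →* H}

theorem td (h : S2Hyp pr em X D ι s m κ g pr') :
    TD (XX ι s (em th) X m) (ι (em th)) (hz.comp pr') := by
  refine ⟨?_, ?_, h.tt.ttr⟩
  · intro x hx
    have hle : XX ι s (em th) X m ≤ (hz.comp pr').ker := by
      refine (Subgroup.closure_le _).2 ?_
      rintro z (⟨x, hx, rfl⟩ | ⟨j, hj, rfl⟩)
      · have h1 := h.st.td.ht x hx
        rw [SetLike.mem_coe, MonoidHom.mem_ker, MonoidHom.comp_apply, h.pri]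
        exact h1
      · rw [SetLike.mem_coe, MonoidHom.mem_ker, MonoidHom.comp_apply]
        simp only [map_mul, map_inv, h.prs, map_one, mul_one, mul_inv_cancel]
    exact hle hx
  · rw [MonoidHom.comp_apply, h.pri, h.st.sec]
    exact Base.hz_th

theorem inc_smul {X' : Subgroup G'} {p : G' ⧸ X'} {c : G' ⧸ ι.range} (h : Inc ι X' p c) (e : G') :
    Inc ι X' (e • p) (e • c) := by
  obtain ⟨x, rfl, rfl⟩ := h
  exact ⟨e * x, rfl, rfl⟩

theorem inc_smul_of_fix {X' : Subgroup G'} {p : G' ⧸ X'} {c : G' ⧸ ι.range} {e : G'}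
    (he : e • p = p) (h : Inc ι X' p c) : Inc ι X' p (e • c) := by
  have h1 := inc_smul h e
  rwa [he] at h1

theorem inv_fix {V : Type} [MulAction G' V] {e : G'} {p : V} (he : e • p = p) : e⁻¹ • p = p := by
  rw [inv_smul_eq_iff, he]

/-- `ι x` fixes the coset of `ι y` iff `x` fixes the coset of `y` -/
theorem fix_of_fix (hB : StBasic) {X' : Subgroup G'} (hm : ∀ g : G, ι g ∈ X' → g ∈ X) {x y : G}
    (h : ι x • ((ι y : G') : G' ⧸ X') = ((ι y : G') : G' ⧸ X')) :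
    x • ((y : G) : G ⧸ X) = ((y : G) : G ⧸ X) := by
  obtain ⟨-, -, -, -, h5, -, -, -⟩ := hB G' X' 1 1
  obtain ⟨-, -, -, -, h5', -, -, -⟩ := hB G X 1 1
  rw [h5']
  rw [h5] at h
  apply hm
  rw [map_mul, map_mul, map_inv]
  exact h

end S2F

open S2F in
theorem stS2F (h4 : StBtwU) (h8 : StAxis) (h9 : StAxisIn) (h10 : StProjFix) (hB : StBasic)
    (hI : StInc) (hL : StS2Lines) (hF : StS2Four) : StS2F := by
  intro H G G' _ _ _ _ pr em X D ι s m κ g pr' h
  obtain ⟨η', hη1, hη2⟩ := h.tt.sht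
  have hηR : ∀ x ∈ ι.range, η' x = 1 := by
    rintro _ ⟨x, rfl⟩
    exact hη1 x
  have hTD := td h
  obtain ⟨hA', -, -, -, hfix', -, -, hht⟩ := hB G' (XX ι s (em th) X m) (ι (em th)) (hz.comp pr')
  obtain ⟨hAS, hNS, -, -, hfixS, hadjS, -, -⟩ := hB G' ι.range s η'
  replace hNS := hNS hηR hη2
  replace hadjS := hadjS hη2 hηR
  replace hht := hht hTD
  obtain ⟨hAG, -, hline, -, hfixG, -, -, -⟩ := hB G X (em th) (hz.comp pr)
  replace hline := hline h.st.td
  obtain ⟨hI1, hI2, hI3, -⟩ := hI G G' X (em th) (hz.comp pr) ι s _ _ m h.st.td h.mpos h.tt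
  obtain ⟨-, -, hL3, hL4⟩ := hL H G G' pr em X D ι s m κ g pr' h
  obtain ⟨D₃, hD₃⟩ := hF H G G' pr em X D ι s m κ g pr' h
  have hT' := hTD.tree
  have hT := h.st.td.tree
  have hS := h.tt.str
  -- no edge of `S` is fixed
  have hedge : ∀ (e : G') (p : G' ⧸ XX ι s (em th) X m), e ≠ 1 → e • p = p →
      ∀ c c' : G' ⧸ ι.range, (CG ι.range s).Adj c c' → e • c = c → e • c' = c' → False := by
    intro e p he hp c c' hadj hc hc'
    exact he (hL4 e c c' hadj hc hc' (hht e p hp))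
  refine ⟨D + D₃ + 1, by omega, ?_, ?_, ?_⟩
  · -- F1
    intro e hne p q hp hq
    have he1 : e ≠ 1 := by
      rintro rfl
      exact hne ⟨1, 1, map_one _, by simp⟩
    by_cases hcase : ∀ c : G' ⧸ ι.range, e • c ≠ c
    · obtain ⟨k, L, hk, hLl, hLe⟩ := h8 _ _ hS G' hAS hNS e hcase
      have h9' := (h9 _ _ hS G' hAS e k L hk hLl hLe).1
      have hp' := h9' {c | Inc ι (XX ι s (em th) X m) p c} (hI1 p).1 (hI1 p).2
        (fun u hu => inc_smul_of_fix hp hu) (fun u hu => inc_smul_of_fix (inv_fix hp) hu)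
      have hq' := h9' {c | Inc ι (XX ι s (em th) X m) q c} (hI1 q).1 (hI1 q).2
        (fun u hu => inc_smul_of_fix hq hu) (fun u hu => inc_smul_of_fix (inv_fix hq) hu)
      have h5 := hD₃ p q (L 0) (L 1) (L 2) (L 3) (line_adj hLl 0) (line_adj hLl 1)
        (line_adj hLl 2) (line_ne hLl (by omega)) (line_ne hLl (by omega))
        ⟨hp' 0, hp' 1, hp' 2, hp' 3⟩ ⟨hq' 0, hq' 1, hq' 2, hq' 3⟩
      omega
    · push Not at hcase
      obtain ⟨c₀, hc₀⟩ := hcase
      have hun := fun c (hc : e • c = c) => fix_unique h4 hS hAS (hedge e p he1 hp) hc hc₀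
      obtain ⟨c₁, hc₁, hec₁⟩ := h10 _ _ hS G' hAS e {c | Inc ι (XX ι s (em th) X m) p c}
        (hI1 p).1 (hI1 p).2 (fun u hu => inc_smul_of_fix hp hu) c₀ hc₀
      obtain ⟨c₂, hc₂, hec₂⟩ := h10 _ _ hS G' hAS e {c | Inc ι (XX ι s (em th) X m) q c}
        (hI1 q).1 (hI1 q).2 (fun u hu => inc_smul_of_fix hq hu) c₀ hc₀
      rw [hun c₁ hec₁] at hc₁
      rw [hun c₂ hec₂] at hc₂
      obtain ⟨x, hx, hxc⟩ := hc₁
      obtain ⟨y, hy, hyc⟩ := hc₂
      obtain ⟨a, ha⟩ : x⁻¹ * y ∈ ι.range := by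
        rw [← QuotientGroup.eq, hxc, hyc]
      have hya : y = x * ι a := by rw [ha]; group
      obtain ⟨e₀, he₀⟩ : x⁻¹ * e * x ∈ ι.range := by
        rw [← hfixS, hxc]
        exact hc₀
      have hee : e = x * ι e₀ * x⁻¹ := by rw [he₀]; group
      have hnc : ¬ ConjN em e₀ := by
        rintro ⟨γ, n, hn, hγ⟩
        apply hne
        refine ⟨x * ι γ, n, hn, ?_⟩
        rw [hee, hγ, map_mul, map_mul, map_inv, MonoidHom.comp_apply]
        group
      have hf1 : e₀ • ((1 : G) : G ⧸ X) = ((1 : G) : G ⧸ X) := by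
        apply fix_of_fix hB h.tt.meet
        rw [map_one, hfix', inv_one, one_mul, mul_one, he₀, ← hfix', hx]
        exact hp
      have hf2 : e₀ • ((a : G) : G ⧸ X) = ((a : G) : G ⧸ X) := by
        apply fix_of_fix hB h.tt.meet
        rw [hfix', he₀]
        have h5 : (ι a)⁻¹ * (x⁻¹ * e * x) * ι a = y⁻¹ * e * y := by rw [hya]; group
        rw [h5, ← hfix', hy]
        exact hq
      have h6 := h.st.F1 e₀ hnc _ _ hf1 hf2
      rw [← hI3, map_one] at h6
      have h7 := dist_smul hT'.connected hA' x ((1 : G') : G' ⧸ XX ι s (em th) X m)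
        ((ι a : G') : G' ⧸ XX ι s (em th) X m)
      have h8' : x • ((1 : G') : G' ⧸ XX ι s (em th) X m) = p := by
        rw [← hx]
        show ((x * 1 : G') : G' ⧸ XX ι s (em th) X m) = _
        rw [mul_one]
      have h9' : x • ((ι a : G') : G' ⧸ XX ι s (em th) X m) = q := by
        rw [← hy, hya]
        rfl
      rw [h8', h9'] at h7
      omega
  · -- F2
    intro n hn hn1 p hp
    have he1 : ι (em n) ≠ 1 := by
      intro hc
      apply hn1
      have h5 : em n = 1 := h.tt.inj (by rw [hc, map_one])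
      rw [← h.st.sec n, h5, map_one]
    have hR : ι (em n) • ((1 : G') : G' ⧸ ι.range) = ((1 : G') : G' ⧸ ι.range) := by
      rw [hfixS, inv_one, one_mul, mul_one]
      exact ⟨_, rfl⟩
    obtain ⟨c₁, hc₁, hec₁⟩ := h10 _ _ hS G' hAS (ι (em n))
      {c | Inc ι (XX ι s (em th) X m) p c} (hI1 p).1 (hI1 p).2
      (fun u hu => inc_smul_of_fix hp hu) _ hR
    rw [fix_unique h4 hS hAS (hedge _ p he1 hp) hec₁ hR] at hc₁
    obtain ⟨x, hx, hxc⟩ := hc₁
    obtain ⟨g₀, hg₀⟩ : x ∈ ι.range := by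
      have h5 : (1 : G')⁻¹ * x ∈ ι.range := by rw [← QuotientGroup.eq, hxc]
      rwa [inv_one, one_mul] at h5
    rw [← hx, ← hg₀] at hp
    obtain ⟨i, hi⟩ := h.st.F2 n hn hn1 _ (fix_of_fix hB h.tt.meet hp)
    refine ⟨i, ?_⟩
    have h6 := hI3 g₀ (em th ^ i)
    rw [map_zpow] at h6
    have h7 : (CG (XX ι s (em th) X m) (ι (em th))).dist p
        (vx (ι (em th)) (XX ι s (em th) X m) i) = (CG X (em th)).dist (g₀ : G ⧸ X)
        (vx (em th) X i) := by
      rw [← hx, ← hg₀]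
      exact h6
    rw [h7]
    omega
  · -- F3
    intro e h0 hD'
    by_cases he1 : e = 1
    · exact ⟨1, map_one _, by rw [he1, map_one, map_one]⟩
    have hhe := hht e _ h0
    -- the set of common copies
    let p₀ := vx (ι (em th)) (XX ι s (em th) X m) 0
    let p₁ := vx (ι (em th)) (XX ι s (em th) X m) ((D + D₃ + 1 : ℕ) : ℤ)
    have h0' : e • p₀ = p₀ := h0
    have hD'' : e • p₁ = p₁ := hD'
    have hdist : (CG (XX ι s (em th) X m) (ι (em th))).dist p₀ p₁ = D + D₃ + 1 := by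
      have h5 := hI3 (em th ^ (0 : ℤ)) (em th ^ ((D + D₃ + 1 : ℕ) : ℤ))
      have h6 := hline 0 ((D + D₃ + 1 : ℕ) : ℤ)
      rw [map_zpow, map_zpow] at h5
      have h7 : (CG (XX ι s (em th) X m) (ι (em th))).dist p₀ p₁ =
        (CG X (em th)).dist (vx (em th) X 0) (vx (em th) X ((D + D₃ + 1 : ℕ) : ℤ)) := h5
      rw [h7, h6]
      omega
    let Q : Set (G' ⧸ ι.range) := {c | Inc ι (XX ι s (em th) X m) p₀ c ∧
      Inc ι (XX ι s (em th) X m) p₁ c}
    have hQ : Cvx (CG ι.range s) Q := fun p hp q hq r hr =>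
      ⟨(hI1 p₀).1 p hp.1 q hq.1 r hr, (hI1 p₁).1 p hp.2 q hq.2 r hr⟩
    have hinc : ∀ x : H, ((ι (em x) * s : G') : G' ⧸ ι.range) ∈ Q := fun x =>
      ⟨hL3 x 0, hL3 x _⟩
    have hRQ : ((1 : G') : G' ⧸ ι.range) ∈ Q := by
      constructor
      · refine ⟨1, ?_, rfl⟩
        show _ = ((ι (em th) ^ (0 : ℤ) : G') : G' ⧸ XX ι s (em th) X m)
        rw [zpow_zero]
      · refine ⟨ι (em th) ^ ((D + D₃ + 1 : ℕ) : ℤ), rfl, ?_⟩
        rw [QuotientGroup.eq, ← map_zpow, mul_one, ← map_inv]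
        exact ⟨_, rfl⟩
    have heQ : ∀ c ∈ Q, e • c ∈ Q := fun c hc =>
      ⟨inc_smul_of_fix h0' hc.1, inc_smul_of_fix hD'' hc.2⟩
    have heQ' : ∀ c ∈ Q, e⁻¹ • c ∈ Q := fun c hc =>
      ⟨inc_smul_of_fix (inv_fix h0') hc.1, inc_smul_of_fix (inv_fix hD'') hc.2⟩
    have hno : ∀ c₀ ∈ Q, ∀ c₁ ∈ Q, ∀ c₂ ∈ Q, ∀ c₃ ∈ Q, (CG ι.range s).Adj c₀ c₁ →
        (CG ι.range s).Adj c₁ c₂ → (CG ι.range s).Adj c₂ c₃ → c₀ ≠ c₂ → c₁ ≠ c₃ → False := by
      intro c₀ m0 c₁ m1 c₂ m2 c₃ m3 a0 a1 a2 n0 n1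
      have h5 := hD₃ p₀ p₁ c₀ c₁ c₂ c₃ a0 a1 a2 n0 n1 ⟨m0.1, m1.1, m2.1, m3.1⟩
        ⟨m0.2, m1.2, m2.2, m3.2⟩
      omega
    -- two neighbours of the base copy
    obtain ⟨n, hn, hn1⟩ := Base.nt (H := H)
    have hadj : ∀ x : H, (CG ι.range s).Adj ((1 : G') : G' ⧸ ι.range)
        ((ι (em x) * s : G') : G' ⧸ ι.range) := by
      intro x
      rw [hadjS]
      refine ⟨ι (em x), Or.inl ⟨?_, rfl⟩⟩
      rw [QuotientGroup.eq, inv_one, one_mul]
      exact ⟨_, rfl⟩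
    have hab : ((ι (em 1) * s : G') : G' ⧸ ι.range) ≠ ((ι (em n) * s : G') : G' ⧸ ι.range) := by
      intro hc
      rw [QuotientGroup.eq] at hc
      obtain ⟨y, hy⟩ := hc
      have h5 : ι (em n) = s * ι y * s⁻¹ := by
        rw [hy, map_one, map_one]
        group
      obtain ⟨k, hk⟩ := h.tt.relC' _ ⟨y, h5⟩
      apply hn1
      have h6 : pr (em n) = th ^ (-(m : ℤ) * k) := by
        rw [← hk]
        show pr ((em th ^ (-(m : ℤ))) ^ k) = _
        rw [← zpow_mul, map_zpow, h.st.sec]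
      rw [h.st.sec] at h6
      have h7 : hz n = ofAdd (-(m : ℤ) * k) := by
        rw [h6, map_zpow, Base.hz_th, ← ofAdd_zsmul, smul_eq_mul, mul_one]
      rw [hn] at h7
      have h8' : -(m : ℤ) * k = 0 := by
        have h9' := congrArg toAdd h7
        rw [toAdd_one, toAdd_ofAdd] at h9'
        exact h9'.symm
      rw [h6, h8', zpow_zero]
    -- a fixed vertex of `Q`
    have hfix : ∃ c : G' ⧸ ι.range, e • c = c := by
      by_contra hcon
      push Not at hcon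
      obtain ⟨k, L, hk, hLl, hLe⟩ := h8 _ _ hS G' hAS hNS e hcon
      have hLQ := (h9 _ _ hS G' hAS e k L hk hLl hLe).1 Q hQ ⟨_, hRQ⟩ heQ heQ'
      exact hno _ (hLQ 0) _ (hLQ 1) _ (hLQ 2) _ (hLQ 3) (line_adj hLl 0) (line_adj hLl 1)
        (line_adj hLl 2) (line_ne hLl (by omega)) (line_ne hLl (by omega))
    obtain ⟨c₀, hc₀⟩ := hfix
    obtain ⟨c, hcQ, hec⟩ := h10 _ _ hS G' hAS e Q hQ ⟨_, hRQ⟩ heQ c₀ hc₀
    have heR : e • ((1 : G') : G' ⧸ ι.range) = ((1 : G') : G' ⧸ ι.range) := by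
      by_cases hcR : c = ((1 : G') : G' ⧸ ι.range)
      · rw [hcR] at hec
        exact hec
      by_contra hcon
      have hRc := star hS hQ hno hRQ (hinc 1) (hinc n) (hadj 1) (hadj n) hab hcQ hcR
      have h5 := hAS e _ _ hRc.symm
      rw [hec] at h5
      by_cases hc1 : ((ι (em 1) * s : G') : G' ⧸ ι.range) = c
      · exact hno _ (hinc n) _ hRQ _ hcQ _ (heQ _ hRQ) (hadj n).symm hRc h5
          (fun h => hab (hc1.trans h.symm)) (Ne.symm hcon)
      · exact hno _ (hinc 1) _ hRQ _ hcQ _ (heQ _ hRQ) (hadj 1).symm hRc h5 hc1 (Ne.symm hcon)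
    obtain ⟨e₀, he₀⟩ : e ∈ ι.range := by
      rw [hfixS, inv_one, one_mul, mul_one] at heR
      exact heR
    have hf0 : e₀ • vx (em th) X 0 = vx (em th) X 0 := by
      apply fix_of_fix hB h.tt.meet
      rw [he₀, map_zpow]
      exact h0
    have hf1 : e₀ • vx (em th) X ((D + D₃ + 1 : ℕ) : ℤ) =
        vx (em th) X ((D + D₃ + 1 : ℕ) : ℤ) := by
      apply fix_of_fix hB h.tt.meet
      rw [he₀, map_zpow]
      exact hD'
    have hfD : e₀ • vx (em th) X (D : ℤ) = vx (em th) X (D : ℤ) := by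
      refine (h4 _ _ hT).2 G hAG e₀ _ _ _ hf0 hf1 ?_
      unfold Btw
      rw [hline, hline, hline]
      push_cast
      omega
    obtain ⟨n', hn', hen⟩ := h.st.F3 e₀ hf0 hfD
    exact ⟨n', hn', by rw [← he₀, hen]⟩

end Pool.Agent.D6b
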