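import Pool.Agent.Lib.MP_d6b03d_al.Basic
import Pool.Agent.Lib.MP_d6b03d_al.BtwU

/-!
MP_d6b03d_al, module K3 (`StS2Four`): no long path lies in four consecutive copies.
-/

set_option autoImplicit false

namespace Pool.Agent.D6b

open Multiplicative Base

namespace S2Four

theorem mk_smul_inv {G : Type} [Group G] {X : Subgroup G} (a b : G) :
    a⁻¹ • ((a * b : G) : G ⧸ X) = (b : G ⧸ X) := by
  rw [MulAction.Quotient.smul_coe, smul_eq_mul, inv_mul_cancel_left]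

/-- normal form of the neighbours of a copy -/
theorem nbr {G G' : Type} [Group G] [Group G'] (ι : G →* G') (s : G') (δ : G')
    (a : G' ⧸ ι.range) (h : (CG ι.range s).Adj (δ : G' ⧸ ι.range) a) :
    ∃ γ : G, a = ((δ * (ι γ * s) : G') : G' ⧸ ι.range) ∨
      a = ((δ * (ι γ * s⁻¹) : G') : G' ⧸ ι.range) := by
  obtain ⟨g, ⟨h1, h2⟩ | ⟨h1, h2⟩⟩ := adj_cases h
  · obtain ⟨γ, hγ⟩ := (QuotientGroup.eq (s := ι.range)).1 h1
    refine ⟨γ, Or.inl ?_⟩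
    rw [h2, hγ]; congr 1; group
  · obtain ⟨γ, hγ⟩ := (QuotientGroup.eq (s := ι.range)).1 h2
    refine ⟨γ, Or.inr ?_⟩
    rw [h1, hγ]; congr 1; group

/-- vertices incident with a copy -/
theorem inc_nf {G G' : Type} [Group G] [Group G'] (ι : G →* G') (X' : Subgroup G') (δ : G')
    (p : G' ⧸ X') (h : Inc ι X' p (δ : G' ⧸ ι.range)) :
    ∃ p₀ : G, p = ((δ * ι p₀ : G') : G' ⧸ X') := by
  obtain ⟨g', h1, h2⟩ := h
  obtain ⟨γ, hγ⟩ := (QuotientGroup.eq (s := ι.range)).1 h2.symm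
  refine ⟨γ, ?_⟩
  rw [← h1, hγ]; congr 1; group

theorem inc_tr {G G' : Type} [Group G] [Group G'] (ι : G →* G') (X' : Subgroup G') (δ x y : G')
    (h : Inc ι X' ((δ * x : G') : G' ⧸ X') ((δ * y : G') : G' ⧸ ι.range)) :
    Inc ι X' ((x : G') : G' ⧸ X') ((y : G') : G' ⧸ ι.range) := by
  obtain ⟨g', h1, h2⟩ := h
  refine ⟨δ⁻¹ * g', ?_, ?_⟩
  · have := congrArg (δ⁻¹ • ·) h1
    simpa [MulAction.Quotient.smul_coe] using this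
  · have := congrArg (δ⁻¹ • ·) h2
    simpa [MulAction.Quotient.smul_coe] using this

end S2Four

open S2Four in
theorem stS2Four (hInc : StInc) (hK1 : StS2Pair) (hK2 : StS2Lines) : StS2Four := by
  intro H G G' _ _ _ _ pr em X D ι s m κ g pr' hyp
  obtain ⟨D₃, hD⟩ := hK1 H G pr em X D hyp.st m κ g hyp.mpos hyp.kX hyp.hg hyp.cent hyp.nh
  obtain ⟨k1, k2, -, -⟩ := hK2 H G G' pr em X D ι s m κ g pr' hyp
  have hB := hInc G G' X (em th) _ ι s _ _ m hyp.st.td hyp.mpos hyp.tt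
  have htree := hyp.st.td.tree
  set t : G := em th with ht
  have hinv : ∀ (γ : G) (u v : G ⧸ X), (CG X t).dist (γ • u) (γ • v) = (CG X t).dist u v :=
    fun γ u v => dist_smul htree.connected (actsOn_CG X t) γ u v
  have hinv' : ∀ (γ : G') (u v : G' ⧸ XX ι s t X m),
      (CG (XX ι s t X m) (ι t)).dist (γ • u) (γ • v) = (CG (XX ι s t X m) (ι t)).dist u v :=
    fun γ u v => dist_smul hyp.tt.ttr.connected (actsOn_CG _ _) γ u v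
  -- out-in
  have hoi : ∀ γa γb p₀ q₀ : G,
      Inc ι (XX ι s t X m) (ι p₀ : G' ⧸ XX ι s t X m) ((ι γa * s⁻¹ : G') : G' ⧸ ι.range) →
      Inc ι (XX ι s t X m) (ι q₀ : G' ⧸ XX ι s t X m) ((ι γa * s⁻¹ : G') : G' ⧸ ι.range) →
      Inc ι (XX ι s t X m) (ι p₀ : G' ⧸ XX ι s t X m) ((ι γb * s : G') : G' ⧸ ι.range) →
      Inc ι (XX ι s t X m) (ι q₀ : G' ⧸ XX ι s t X m) ((ι γb * s : G') : G' ⧸ ι.range) →
      (CG X t).dist (p₀ : G ⧸ X) q₀ ≤ D₃ := by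
    intro γa γb p₀ q₀ h1 h2 h3 h4
    obtain ⟨k, j, hj, hp⟩ := k1 γa p₀ h1
    obtain ⟨k', j', hj', hq⟩ := k1 γa q₀ h2
    obtain ⟨i, hi⟩ := k2 γb p₀ h3
    obtain ⟨i', hi'⟩ := k2 γb q₀ h4
    rw [← hinv γa⁻¹]
    refine (hD (γa⁻¹ • (p₀ : G ⧸ X)) (γa⁻¹ • (q₀ : G ⧸ X)) (γa⁻¹ * γb) ⟨k, j, hj, ?_⟩
      ⟨k', j', hj', ?_⟩).1 i i' ?_ ?_
    · rw [hp, mul_assoc, mk_smul_inv]
    · rw [hq, mul_assoc, mk_smul_inv]
    · rw [hi, mul_smul]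
    · rw [hi', mul_smul]
  -- out-out
  have hoo : ∀ γa γb p₀ q₀ : G, γa⁻¹ * γb ∉ Subgroup.zpowers g →
      Inc ι (XX ι s t X m) (ι p₀ : G' ⧸ XX ι s t X m) ((ι γa * s⁻¹ : G') : G' ⧸ ι.range) →
      Inc ι (XX ι s t X m) (ι q₀ : G' ⧸ XX ι s t X m) ((ι γa * s⁻¹ : G') : G' ⧸ ι.range) →
      Inc ι (XX ι s t X m) (ι p₀ : G' ⧸ XX ι s t X m) ((ι γb * s⁻¹ : G') : G' ⧸ ι.range) →
      Inc ι (XX ι s t X m) (ι q₀ : G' ⧸ XX ι s t X m) ((ι γb * s⁻¹ : G') : G' ⧸ ι.range) →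
      (CG X t).dist (p₀ : G ⧸ X) q₀ ≤ D₃ := by
    intro γa γb p₀ q₀ hne h1 h2 h3 h4
    obtain ⟨k, j, hj, hp⟩ := k1 γa p₀ h1
    obtain ⟨k', j', hj', hq⟩ := k1 γa q₀ h2
    obtain ⟨i, l, hl, hi⟩ := k1 γb p₀ h3
    obtain ⟨i', l', hl', hi'⟩ := k1 γb q₀ h4
    rw [← hinv γa⁻¹]
    refine (hD (γa⁻¹ • (p₀ : G ⧸ X)) (γa⁻¹ • (q₀ : G ⧸ X)) (γa⁻¹ * γb) ⟨k, j, hj, ?_⟩
      ⟨k', j', hj', ?_⟩).2 hne ⟨i, l, hl, ?_⟩ ⟨i', l', hl', ?_⟩
    · rw [hp, mul_assoc, mk_smul_inv]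
    · rw [hq, mul_assoc, mk_smul_inv]
    · rw [hi, MulAction.Quotient.smul_coe, smul_eq_mul]; congr 1; group
    · rw [hi', MulAction.Quotient.smul_coe, smul_eq_mul]; congr 1; group
  -- heights
  obtain ⟨η', hη1, hη2⟩ := hyp.tt.sht
  have hR : ∀ x ∈ ι.range, η' x = 1 := by rintro _ ⟨x, rfl⟩; exact hη1 x
  -- `s⁻¹` conjugates
  have hsg : ∀ k : ℤ, ι (g ^ k) * s⁻¹ = s⁻¹ * ι ((t ^ (-(m : ℤ))) ^ k) := by
    intro k
    have h1 : SemiconjBy s (ι g) (ι (t ^ (-(m : ℤ)))) := by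
      have := hyp.rel
      unfold SemiconjBy
      rw [← this]; group
    have h2 := h1.zpow_right k
    unfold SemiconjBy at h2
    rw [map_zpow, map_zpow]
    calc (ι g) ^ k * s⁻¹ = s⁻¹ * (s * (ι g) ^ k) * s⁻¹ := by group
      _ = s⁻¹ * (ι (t ^ (-(m : ℤ)))) ^ k := by rw [h2]; group
  have core : ∀ (p q : G' ⧸ XX ι s t X m) (c a b : G' ⧸ ι.range),
      (CG ι.range s).Adj c a → (CG ι.range s).Adj c b → a ≠ b →
      Inc ι (XX ι s t X m) p c → Inc ι (XX ι s t X m) p a → Inc ι (XX ι s t X m) p b →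
      Inc ι (XX ι s t X m) q c → Inc ι (XX ι s t X m) q a → Inc ι (XX ι s t X m) q b →
      (CG (XX ι s t X m) (ι t)).dist p q ≤ D₃ ∨
        (hgt η' ι.range a = hgt η' ι.range c + 1 ∧ hgt η' ι.range b = hgt η' ι.range c + 1) := by
    intro p q c a b hca hcb hab pc pa pb qc qa qb
    induction c using QuotientGroup.induction_on with
    | H δ =>
    obtain ⟨p₀, rfl⟩ := inc_nf ι _ δ p pc
    obtain ⟨q₀, rfl⟩ := inc_nf ι _ δ q qc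
    have hd : (CG (XX ι s t X m) (ι t)).dist ((δ * ι p₀ : G') : G' ⧸ XX ι s t X m)
        ((δ * ι q₀ : G') : G' ⧸ XX ι s t X m) = (CG X t).dist (p₀ : G ⧸ X) q₀ := by
      rw [← hB.2.2.1 p₀ q₀, ← hinv' δ (ι p₀ : G' ⧸ XX ι s t X m)]
      simp only [MulAction.Quotient.smul_coe, smul_eq_mul]
    rw [hd]
    have hgin : ∀ γ : G, hgt η' ι.range ((δ * (ι γ * s) : G') : G' ⧸ ι.range) =
        hgt η' ι.range (δ : G' ⧸ ι.range) + 1 := by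
      intro γ
      rw [hgt_mk hR, hgt_mk hR, map_mul η', map_mul η', hη1, hη2, one_mul, toAdd_mul,
        toAdd_ofAdd]
    obtain ⟨γa, rfl | rfl⟩ := nbr ι s δ a hca
    · obtain ⟨γb, rfl | rfl⟩ := nbr ι s δ b hcb
      · exact Or.inr ⟨hgin γa, hgin γb⟩
      · exact Or.inl (hoi γb γa p₀ q₀ (inc_tr ι _ δ _ _ pb) (inc_tr ι _ δ _ _ qb)
          (inc_tr ι _ δ _ _ pa) (inc_tr ι _ δ _ _ qa))
    · obtain ⟨γb, rfl | rfl⟩ := nbr ι s δ b hcb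
      · exact Or.inl (hoi γa γb p₀ q₀ (inc_tr ι _ δ _ _ pa) (inc_tr ι _ δ _ _ qa)
          (inc_tr ι _ δ _ _ pb) (inc_tr ι _ δ _ _ qb))
      · refine Or.inl (hoo γa γb p₀ q₀ ?_ (inc_tr ι _ δ _ _ pa) (inc_tr ι _ δ _ _ qa)
          (inc_tr ι _ δ _ _ pb) (inc_tr ι _ δ _ _ qb))
        intro hmem
        obtain ⟨k, hk⟩ := Subgroup.mem_zpowers_iff.1 hmem
        apply hab
        rw [QuotientGroup.eq]
        refine ⟨(t ^ (-(m : ℤ))) ^ k, ?_⟩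
        have h1 : γb = γa * g ^ k := by rw [hk]; group
        rw [h1, map_mul, mul_assoc (ι γa), hsg k]
        group
  refine ⟨D₃, ?_⟩
  intro p q c₀ c₁ c₂ c₃ h01 h12 h23 h02 h13 ⟨p0, p1, p2, p3⟩ ⟨q0, q1, q2, q3⟩
  rcases core p q c₁ c₀ c₂ h01.symm h12 h02 p1 p0 p2 q1 q0 q2 with h | ⟨-, h⟩
  · exact h
  rcases core p q c₂ c₁ c₃ h12.symm h23 h13 p2 p1 p3 q2 q1 q3 with h' | ⟨h', -⟩
  · exact h'
  omega

end Pool.Agent.D6b
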