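import Mathlib
import Pool.Agent.Lib.MP_d6b03d_al.Stmts
import Pool.Agent.Lib.MP_d6b03d_al.S1Inv

/-!
K5: the second step gives a stage.
-/

set_option autoImplicit false

namespace Pool.Agent.D6b

open Multiplicative Base

theorem stS2Inv (hJ : StJ) (hK : StS2Lines) (hF : StS2F) : StS2Inv := by
  intro H G G' _ _ _ _ pr em X D ι s m κ g pr' hyp
  obtain ⟨D', hD', F1, F2, F3⟩ := hF H G G' pr em X D ι s m κ g pr' hyp
  refine ⟨D', stage_of_tt hJ hyp.st hyp.tt hyp.pri hyp.prs hD' F1 F2 F3 ?_⟩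
  intro L z hL hz1 hz2
  exact (hK H G G' pr em X D ι s m κ g pr' hyp).2.2.2 z (L 0) (L 1)
    (isLine_adj hL 0) (hz2 0) (hz2 1) hz1

end Pool.Agent.D6b
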