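import Pool.Agent.Lib.MP_d6b03d_al.Stmts

/-!
MP_d6b03d_al, K2: vertices common to adjacent copies (second step).
-/

set_option autoImplicit false

namespace Pool.Agent.D6b

open Multiplicative Base

namespace S2Lines

section

variable {G G' : Type} [Group G] [Group G']

lemma X_sub {ι : G →* G'} {s : G'} {t : G} {X : Subgroup G} {m : ℕ} {x : G} (hx : x ∈ X) :
    ι x ∈ XX ι s t X m :=
  Subgroup.subset_closure (Or.inl ⟨x, hx, rfl⟩)

lemma s_sub {ι : G →* G'} {s : G'} {t : G} {X : Subgroup G} {m : ℕ} {j : ℕ} (hj : j < m) :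
    ι (t ^ j) * s * (ι (t ^ j))⁻¹ ∈ XX ι s t X m :=
  Subgroup.subset_closure (Or.inr ⟨j, hj, rfl⟩)

/-- adjacency in the tree of copies -/
lemma adj_iff (h0 : StBasic) {t : G} {X : Subgroup G} {ι : G →* G'} {s : G'} {C C' : Subgroup G}
    {m : ℕ} (tt : TwoTree t X ι s C C' m) (u v : G' ⧸ ι.range) :
    (CG ι.range s).Adj u v ↔
      ∃ g : G', (u = g ∧ v = ((g * s : G') : G' ⧸ ι.range)) ∨
        (v = g ∧ u = ((g * s : G') : G' ⧸ ι.range)) := by
  obtain ⟨η', h1, h2⟩ := tt.sht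
  refine (h0 G' ι.range s η').2.2.2.2.2.1 h2 ?_ u v
  rintro _ ⟨x, rfl⟩
  exact h1 x

/-- relation between the two cosets when the copies are adjacent -/
lemma step (h0 : StBasic) (h6 : StInc) {t : G} {X : Subgroup G} {η : G →* Multiplicative ℤ}
    {ι : G →* G'} {s : G'} {C C' : Subgroup G} {m : ℕ} (td : TD X t η) (hm : 1 ≤ m)
    (tt : TwoTree t X ι s C C' m) (γ q : G) (g' : G')
    (hX : (g' : G' ⧸ XX ι s t X m) = ((ι q : G') : G' ⧸ XX ι s t X m)) :
    ((g' : G' ⧸ ι.range) = ((ι γ * s⁻¹ : G') : G' ⧸ ι.range) →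
      ∃ y ∈ X, ∃ j : ℕ, j < m ∧ (y * t ^ j)⁻¹ * (q⁻¹ * γ) ∈ C) ∧
    ((g' : G' ⧸ ι.range) = ((ι γ * s : G') : G' ⧸ ι.range) →
      ∃ y ∈ X, ∃ j : ℕ, j < m ∧ (y * t ^ j)⁻¹ * (q⁻¹ * γ) ∈ C') := by
  obtain ⟨η', e1, e2⟩ := id tt.sht
  have hx : (ι q)⁻¹ * g' ∈ XX ι s t X m := QuotientGroup.eq.1 hX.symm
  have key : ∀ a : G', (g' : G' ⧸ ι.range) = (a : G' ⧸ ι.range) →
      (((ι q)⁻¹ * g' : G') : G' ⧸ ι.range) = (((ι q)⁻¹ * a : G') : G' ⧸ ι.range) := by
    intro a ha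
    have := congrArg (fun z => (ι q)⁻¹ • z) ha
    simpa using this
  have inR : ∀ a b : G', (a : G' ⧸ ι.range) = (b : G' ⧸ ι.range) → ∃ z : G, a⁻¹ * b = ι z := by
    intro a b hab
    obtain ⟨z, hz⟩ := QuotientGroup.eq.1 hab
    exact ⟨z, hz.symm⟩
  constructor
  · intro hR
    have hk := key _ hR
    have hadj : (CG ι.range s).Adj ((1 : G') : G' ⧸ ι.range)
        (((ι q)⁻¹ * g' : G') : G' ⧸ ι.range) := by
      rw [adj_iff h0 tt]
      refine ⟨(ι q)⁻¹ * (ι γ * s⁻¹), Or.inr ⟨hk, ?_⟩⟩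
      rw [QuotientGroup.eq]
      exact ⟨q⁻¹ * γ, by simp [mul_assoc]⟩
    obtain ⟨y, hy, j, hj, h | h⟩ := (h6 G G' X t η ι s C C' m td hm tt).2.2.2 _ hx hadj
    · exfalso
      obtain ⟨z, hz⟩ := inR _ _ (hk.symm.trans h)
      have := congrArg (fun w => toAdd (η' w)) hz
      simp [e1, e2] at this
    · refine ⟨y, hy, j, hj, ?_⟩
      obtain ⟨z, hz⟩ := inR _ _ (h.symm.trans hk)
      refine tt.relC _ ⟨z, ?_⟩
      rw [← hz]
      simp only [map_mul, map_inv]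
      group
  · intro hR
    have hk := key _ hR
    have hadj : (CG ι.range s).Adj ((1 : G') : G' ⧸ ι.range)
        (((ι q)⁻¹ * g' : G') : G' ⧸ ι.range) := by
      rw [adj_iff h0 tt]
      refine ⟨(ι q)⁻¹ * ι γ, Or.inl ⟨?_, ?_⟩⟩
      · rw [QuotientGroup.eq]
        exact ⟨q⁻¹ * γ, by simp⟩
      · rw [hk, mul_assoc]
    obtain ⟨y, hy, j, hj, h | h⟩ := (h6 G G' X t η ι s C C' m td hm tt).2.2.2 _ hx hadj
    · refine ⟨y, hy, j, hj, ?_⟩
      obtain ⟨z, hz⟩ := inR _ _ (h.symm.trans hk)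
      refine tt.relC' _ ⟨z, ?_⟩
      rw [← hz]
      simp only [map_mul, map_inv]
      group
    · exfalso
      obtain ⟨z, hz⟩ := inR _ _ (hk.symm.trans h)
      have := congrArg (fun w => toAdd (η' w)) hz
      simp [e1, e2] at this

end

end S2Lines

open S2Lines in
theorem stS2Lines (h0 : StBasic) (h6 : StInc) : StS2Lines := by
  intro H G G' _ _ _ _ pr em X D ι s m κ g pr' hh
  have td := hh.st.td
  have tt := hh.tt
  refine ⟨?_, ?_, ?_, ?_⟩
  · rintro γ q ⟨g', h1, h2⟩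
    obtain ⟨y, hy, j, hj, hC⟩ := (step h0 h6 td hh.mpos tt γ q g' h1).1 h2
    obtain ⟨k, hk⟩ := hC
    refine ⟨-k, j, hj, ?_⟩
    rw [QuotientGroup.eq]
    have : q⁻¹ * (γ * g ^ (-k) * em th ^ (-(j : ℤ))) = y := by
      have h3 : q⁻¹ * γ = y * em th ^ j * g ^ k := by
        have : g ^ k = (y * em th ^ j)⁻¹ * (q⁻¹ * γ) := hk
        rw [this]; group
      have h4 : q⁻¹ * (γ * g ^ (-k) * em th ^ (-(j : ℤ)))
          = q⁻¹ * γ * g ^ (-k) * em th ^ (-(j : ℤ)) := by group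
      rw [h4, h3, zpow_neg, zpow_neg, zpow_natCast]
      group
    rw [this]
    exact hy
  · rintro γ q ⟨g', h1, h2⟩
    obtain ⟨y, hy, j, hj, hC⟩ := (step h0 h6 td hh.mpos tt γ q g' h1).2 h2
    obtain ⟨k, hk⟩ := hC
    refine ⟨m * k - j, ?_⟩
    have hv : γ • vx (em th) X (m * k - j) = ((γ * em th ^ ((m : ℤ) * k - j) : G) : G ⧸ X) := rfl
    rw [hv, QuotientGroup.eq]
    have : q⁻¹ * (γ * em th ^ ((m : ℤ) * k - j)) = y := by
      have h3 : q⁻¹ * γ = y * em th ^ j * em th ^ (-(m : ℤ) * k) := by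
        have : (em th ^ (-(m : ℤ))) ^ k = (y * em th ^ j)⁻¹ * (q⁻¹ * γ) := hk
        rw [zpow_mul, this]; group
      have h4 : q⁻¹ * (γ * em th ^ ((m : ℤ) * k - j))
          = q⁻¹ * γ * em th ^ ((m : ℤ) * k - j) := by group
      rw [h4, h3, ← zpow_natCast (em th) j, mul_assoc, mul_assoc, ← zpow_add, ← zpow_add]
      have : (j : ℤ) + (-(m : ℤ) * k + (m * k - j)) = 0 := by ring
      rw [this]; simp
    rw [this]
    exact hy
  · -- (3)
    have hgk : ∀ k : ℤ, s * (ι g) ^ k = (ι (em th)) ^ (-(m : ℤ) * k) * s := by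
      intro k
      have h1 : s * (ι g) ^ k * s⁻¹ = (s * ι g * s⁻¹) ^ k := by
        rw [conj_zpow]
      have h2 : s * (ι g) ^ k = (s * ι g * s⁻¹) ^ k * s := by rw [← h1]; group
      rw [h2, hh.rel, map_zpow, ← zpow_mul]
    have base : ∀ i : ℤ, ∃ r : G, ((s * ι r : G') : G' ⧸ XX ι s (em th) X m)
        = vx (ι (em th)) _ i := by
      intro i
      have hm0 : (0 : ℤ) < m := by have := hh.mpos; omega
      obtain ⟨j, hj⟩ := Int.eq_ofNat_of_zero_le (Int.emod_nonneg (-i) hm0.ne')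
      have hjm : j < m := by
        have := Int.emod_lt_of_pos (-i) hm0
        omega
      have hdiv : (m : ℤ) * ((-i) / m) + j = -i := by
        rw [← hj]; exact Int.mul_ediv_add_emod (-i) m
      refine ⟨g ^ ((-i) / m) * em th ^ (-(j : ℤ)), ?_⟩
      unfold vx
      symm
      rw [QuotientGroup.eq]
      have : (ι (em th) ^ i)⁻¹ * (s * ι (g ^ ((-i) / (m : ℤ)) * em th ^ (-(j : ℤ))))
          = ι (em th ^ j) * s * (ι (em th ^ j))⁻¹ := by
        rw [map_mul, map_zpow, map_zpow, ← mul_assoc s, hgk, map_pow, ← zpow_natCast, zpow_neg]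
        rw [← zpow_neg, ← mul_assoc, ← mul_assoc, ← zpow_add]
        have : -i + -(m : ℤ) * ((-i) / m) = j := by linarith
        rw [this]
      rw [this]
      exact s_sub hjm
    intro h i
    have hn : hz (h * th ^ (-(toAdd (hz h)))) = 1 := by
      rw [map_mul, map_zpow, hz_th]
      apply toAdd.injective
      simp
    obtain ⟨r, hr⟩ := base (i - toAdd (hz h))
    refine ⟨ι (em h) * (s * ι r), ?_, ?_⟩
    · have h1 : ((ι (em h) * (s * ι r) : G') : G' ⧸ XX ι s (em th) X m)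
          = ι (em h) • vx (ι (em th)) (XX ι s (em th) X m) (i - toAdd (hz h)) := by
        rw [← hr]; rfl
      rw [h1]
      have h2 : ι (em h) • vx (ι (em th)) (XX ι s (em th) X m) (i - toAdd (hz h))
          = ((ι (em h) * (ι (em th)) ^ (i - toAdd (hz h)) : G') : G' ⧸ XX ι s (em th) X m) := rfl
      rw [h2]
      unfold vx
      symm
      rw [QuotientGroup.eq]
      have h3 : (ι (em th) ^ i)⁻¹ * (ι (em h) * (ι (em th)) ^ (i - toAdd (hz h)))
          = ι (em (th ^ (-i) * (h * th ^ (-(toAdd (hz h)))) * (th ^ (-i))⁻¹)) := by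
        simp only [map_mul, map_zpow, map_inv]
        rw [← zpow_neg (ι (em th)) (-i), neg_neg, ← zpow_neg, mul_assoc, mul_assoc, ← zpow_add]
        congr 3
        ring
      rw [h3]
      refine X_sub (hh.st.NX _ ?_)
      rw [map_mul, map_mul, map_inv, hn]
      simp
    · rw [QuotientGroup.eq]
      exact ⟨r⁻¹, by rw [map_inv]; group⟩
  · intro e c c' hadj h1 h2 h3
    rw [adj_iff h0 tt] at hadj
    obtain ⟨δ, hδ⟩ := hadj
    have hfix := (h0 G' ι.range s 1).2.2.2.2.1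
    have hb : e • (δ : G' ⧸ ι.range) = δ ∧
        e • ((δ * s : G') : G' ⧸ ι.range) = ((δ * s : G') : G' ⧸ ι.range) := by
      rcases hδ with ⟨ha, hb⟩ | ⟨ha, hb⟩
      · rw [← ha, ← hb]; exact ⟨h1, h2⟩
      · rw [← ha, ← hb]; exact ⟨h2, h1⟩
    obtain ⟨x, hx⟩ := (hfix e δ).1 hb.1
    obtain ⟨y, hy⟩ := (hfix e (δ * s)).1 hb.2
    have hxC : x ∈ Subgroup.zpowers (em th ^ (-(m : ℤ))) := by
      refine tt.relC' x ⟨y, ?_⟩
      rw [hx, hy]; group
    obtain ⟨k, hk⟩ := hxC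
    have hk' : (em th ^ (-(m : ℤ))) ^ k = x := hk
    have hzx : hz (pr x) = 1 := by
      rw [← hh.pri, hx]
      simp only [map_mul, map_inv]
      rw [h3]; simp
    have hkz : k = 0 := by
      rw [← hk', map_zpow, map_zpow, map_zpow, map_zpow, hh.st.sec, hz_th] at hzx
      have := congrArg toAdd hzx
      simp at this
      have hm := hh.mpos
      rcases this with h | h
      · exact h
      · omega
    rw [hkz, zpow_zero] at hk'
    have : δ⁻¹ * e * δ = 1 := by rw [← hx, ← hk', map_one]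
    have h5 : e = δ * (δ⁻¹ * e * δ) * δ⁻¹ := by group
    rw [h5, this]; simp

end Pool.Agent.D6b
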