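import Pool.Agent.Lib.MP_d6b03d_al.Tools

/-!
MP_d6b03d_al, module G5: centralizers, second step.
-/

set_option autoImplicit false

namespace Pool.Agent.D6b

open Multiplicative Base

open Tl in
theorem stS2Prep (hB : StBasic) (h7 : StClose) (h11 : StTC) (h3 : StLL) : StS2Prep := by
  intro H G _ _ _ pr em X D hst g hg1 hgH
  set S := CG X (em th) with hS
  have hT := hst.td
  have hB' := hB G X (em th) (hz.comp pr)
  have hA : ActsOn S G := hB'.1
  have hNI : NoInv S G := hB'.2.1 hT.ht hT.et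
  have tree : S.IsTree := hT.tree
  have hvx : IsLine S (vx (em th) X) := hB'.2.2.1 hT
  have fixht : ∀ (e : G) (p : G ⧸ X), e • p = p → hz (pr e) = 1 := fun e p h =>
    hB'.2.2.2.2.2.2.2 hT e p h
  have dsm : ∀ (g : G) (u v : G ⧸ X), S.dist (g • u) (g • v) = S.dist u v := dist_smul tree hA
  have F1 : ∀ e : G, ¬ ConjN em e → ∀ p q : G ⧸ X, e • p = p → e • q = q → S.dist p q ≤ D :=
    hst.F1
  have noline : ∀ e : G, ¬ ConjN em e → ∀ L : ℤ → G ⧸ X, IsLine S L → ¬ ∀ i, e • L i = L i := by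
    intro e he L hL h
    have h1 := F1 e he (L 0) (L ((D : ℤ) + 1)) (h _) (h _)
    rw [hL] at h1
    omega
  -- the claim
  have claim : ∀ c, c * g = g * c → hz (pr c) = 1 → c = 1 := by
    intro c hc hc0
    rcases h11 _ S tree G hA hNI c g hc with ⟨v, _, hv⟩ | ⟨L, a, b, hL, _, hab⟩
    · exact absurd (fixht g v hv) hg1
    · have hb : b ≠ 0 := by
        rintro rfl
        exact hg1 (fixht g (L 0) (by simpa using (hab 0).2))
      have z1 : (c ^ b * g ^ (-a)) • L 0 = L 0 := by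
        rw [mul_smul, zpow_line (fun i => (hab i).2), zpow_line (fun i => (hab i).1)]
        congr 1
        ring
      have z2 := fixht _ _ z1
      rw [map_mul, map_mul, map_zpow, map_zpow, map_zpow, map_zpow, hc0, one_zpow, one_mul] at z2
      have z3 := congrArg toAdd z2
      rw [toAdd_zpow, toAdd_one, smul_eq_mul, mul_eq_zero] at z3
      have ha : a = 0 := by
        rcases z3 with z3 | z3
        · omega
        · exact absurd (toAdd_eq_zero.1 z3) hg1
      by_contra hc1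
      have hcN : ConjN em c := by
        by_contra h
        exact noline c h L hL (fun i => by rw [(hab i).1, ha, add_zero])
      obtain ⟨γ, n, hn, hcn⟩ := hcN
      have hn1 : n ≠ 1 := by
        rintro rfl
        exact hc1 (by simp [hcn])
      have hL' := line_smul tree hA γ⁻¹ hL
      have hfix : ∀ i : ℤ, em n • (γ⁻¹ • L i) = γ⁻¹ • L i := by
        intro i
        have e1 : em n = γ⁻¹ * c * γ := by rw [hcn]; group
        rw [e1, ← mul_smul, mul_assoc, mul_inv_cancel, mul_one, mul_smul, (hab i).1, ha, add_zero]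
      obtain ⟨c₀, ε, hε, hcε⟩ := h7 _ S tree (vx (em th) X) (fun i => γ⁻¹ • L i) hvx hL' D
        (fun i => hst.F2 n hn hn1 _ (hfix i))
      have hε2 : ε * ε = 1 := by rcases hε with rfl | rfl <;> rfl
      have hmap : ∀ j : ℤ, (γ⁻¹ * g * γ) • vx (em th) X j = vx (em th) X (j + ε * b) := by
        intro j
        have e1 : vx (em th) X j = γ⁻¹ • L (ε * (j - c₀)) := by
          rw [hcε]
          congr 1
          rw [← mul_assoc, hε2]
          ring
        rw [e1, ← mul_smul]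
        have e2 : γ⁻¹ * g * γ * γ⁻¹ = γ⁻¹ * g := by group
        rw [e2, mul_smul, (hab _).2, hcε]
        congr 1
        have : ε * (ε * (j - c₀) + b) = (ε * ε) * (j - c₀) + ε * b := by ring
        rw [this, hε2]
        ring
      obtain ⟨h, hh⟩ := (h3 H G pr em X D hst).1 (γ⁻¹ * g * γ) 0 (fun i => ⟨i + ε * b, by
        rw [hmap, SimpleGraph.dist_self]⟩)
      exact hgH ⟨γ, h, by rw [← hh]; group⟩
  -- the centralizer is cyclic
  let τ : Subgroup.centralizer {g} →* Multiplicative ℤ :=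
    (hz.comp pr).comp (Subgroup.centralizer {g}).subtype
  have hinj : Function.Injective τ := by
    rw [injective_iff_map_eq_one]
    intro c hc
    exact Subtype.ext (claim c (Subgroup.mem_centralizer_singleton_iff.1 c.2) hc)
  have hcyc : IsCyclic (Subgroup.centralizer {g}) := isCyclic_of_injective τ hinj
  obtain ⟨c₀, hc₀⟩ := hcyc.exists_generator
  have hgen : ∀ c, c * g = g * c → ∃ k : ℤ, c = (c₀ : G) ^ k := by
    intro c hc
    obtain ⟨k, hk⟩ := Subgroup.mem_zpowers_iff.1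
      (hc₀ ⟨c, Subgroup.mem_centralizer_singleton_iff.2 hc⟩)
    refine ⟨k, ?_⟩
    have := congrArg Subtype.val hk
    simpa using this.symm
  have hc₀g := Subgroup.mem_centralizer_singleton_iff.1 c₀.2
  -- choose the sign
  have hsign : ∃ c₁ : G, (∀ c, c * g = g * c → ∃ k : ℤ, c = c₁ ^ k) ∧ c₁ * g = g * c₁ ∧
      toAdd (hz (pr c₁)) < 0 := by
    obtain ⟨r, hr⟩ := hgen g rfl
    have h0 : toAdd (hz (pr (c₀ : G))) ≠ 0 := by
      intro h
      apply hg1
      rw [hr, map_zpow, map_zpow, toAdd_eq_zero.1 h, one_zpow]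
    rcases lt_or_gt_of_ne h0 with h | h
    · exact ⟨c₀, hgen, hc₀g, h⟩
    · refine ⟨(c₀ : G)⁻¹, ?_, ?_, ?_⟩
      · intro c hc
        obtain ⟨k, hk⟩ := hgen c hc
        exact ⟨-k, by rw [hk]; simp⟩
      · have : Commute (c₀ : G) g := hc₀g
        exact this.inv_left
      · rw [map_inv, map_inv, toAdd_inv]
        omega
  obtain ⟨c₁, hc₁, hc₁g, hneg⟩ := hsign
  obtain ⟨r, hr⟩ := hc₁ g rfl
  obtain ⟨m, hm⟩ : ∃ m : ℕ, toAdd (hz (pr c₁)) = -(m : ℤ) :=
    ⟨(toAdd (hz (pr c₁))).natAbs, by omega⟩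
  have hm1 : 1 ≤ m := by omega
  have hzc : hz (pr c₁) = (ofAdd 1) ^ (-(m : ℤ)) := by
    rw [← ofAdd_zsmul, smul_eq_mul, mul_one, ← hm, ofAdd_toAdd]
  obtain ⟨y, hy, hyc⟩ := Base.surj (-(m : ℤ)) (by omega) (pr c₁ * th ^ (m : ℤ)) (by
    rw [map_mul, hzc, map_zpow, Base.hz_th, ← zpow_add]
    simp)
  have hyc' : y * th ^ (-(m : ℤ)) * y⁻¹ = pr c₁ := by
    rw [hyc, mul_assoc, ← zpow_add]
    simp
  have hcomm : ∀ c, c * c₁ = c₁ * c → ∃ k : ℤ, c = c₁ ^ k := by
    intro c hc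
    apply hc₁
    rw [hr]
    have : Commute c c₁ := hc
    exact this.zpow_right r
  refine ⟨(em y)⁻¹ * c₁ * em y, m, hm1, ?_, ?_, ?_, em y, r, ?_⟩
  · rw [map_mul, map_mul, map_inv, hst.sec, ← hyc']
    group
  · rintro ⟨x, h, hx⟩
    apply hgH
    refine ⟨em y * x, h ^ r, ?_⟩
    have e1 : c₁ = (em y * x) * em h * (em y * x)⁻¹ := by
      have : c₁ = em y * ((em y)⁻¹ * c₁ * em y) * (em y)⁻¹ := by group
      rw [this, hx]
      group
    rw [hr, e1, map_zpow, ← conj_zpow]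
  · intro c hc
    obtain ⟨k, hk⟩ := hcomm (em y * c * (em y)⁻¹) (by
      calc em y * c * (em y)⁻¹ * c₁ = em y * (c * ((em y)⁻¹ * c₁ * em y)) * (em y)⁻¹ := by group
        _ = em y * (((em y)⁻¹ * c₁ * em y) * c) * (em y)⁻¹ := by rw [hc]
        _ = c₁ * (em y * c * (em y)⁻¹) := by group)
    refine Subgroup.mem_zpowers_iff.2 ⟨k, ?_⟩
    have e1 : (em y)⁻¹ * c₁ * em y = (em y)⁻¹ * c₁ * ((em y)⁻¹)⁻¹ := by simp
    rw [e1, conj_zpow, ← hk]
    group
  · have e1 : (em y)⁻¹ * c₁ * em y = (em y)⁻¹ * c₁ * ((em y)⁻¹)⁻¹ := by simp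
    rw [e1, conj_zpow, ← hr]
    group

end Pool.Agent.D6b
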