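import Pool.Agent.Lib.MP_d6b03d_al.Stmts

/-!
MP_d6b03d_al, module B5 (`StS2Tree`): the two trees of the second step.
-/

set_option autoImplicit false

namespace Pool.Agent.D6b

open Multiplicative HNNExtension HNNExtension.NormalWord

namespace S2T

variable {G : Type} [Group G]

section words

variable {A B : Subgroup G} {φ : A ≃* B} (t : G)

/-- the product of a word in the `t ^ j s t ^ (-j)` and elements of `G` -/
def val (φ : A ≃* B) (t : G) (l : List (ℤˣ × ℕ × G)) : HNNExtension G A B φ :=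
  (l.map fun x => of (t ^ x.2.1) * (HNNExtension.t (φ := φ)) ^ (x.1 : ℤ) *
    of ((t ^ x.2.1)⁻¹ * x.2.2)).prod

/-- the first exponent -/
def nj : List (ℤˣ × ℕ × G) → ℕ
  | [] => 0
  | b :: _ => b.2.1

/-- the associated word for the HNN extension -/
def conv (t : G) : List (ℤˣ × ℕ × G) → List (ℤˣ × G)
  | [] => []
  | a :: l => (a.1, (t ^ a.2.1)⁻¹ * a.2.2 * t ^ nj l) :: conv t l

theorem val_conv (l : List (ℤˣ × ℕ × G)) :
    val φ t l = of (t ^ nj l) *
      ((conv t l).map (fun x => (HNNExtension.t (φ := φ)) ^ (x.1 : ℤ) * of x.2)).prod := by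
  induction l with
  | nil => simp [val, conv, nj]
  | cons a l ih =>
    have h1 : val φ t (a :: l) = of (t ^ a.2.1) * (HNNExtension.t (φ := φ)) ^ (a.1 : ℤ) *
      of ((t ^ a.2.1)⁻¹ * a.2.2) * val φ t l := by simp [val]
    rw [h1, ih]
    simp only [conv, nj, List.map_cons, List.prod_cons, map_mul]
    group

/-- no cancellation -/
def NC (l : List (ℤˣ × ℕ × G)) : Prop :=
  l.IsChain (fun a b => ¬ (a.1 ≠ b.1 ∧ a.2.1 = b.2.1 ∧ a.2.2 = 1))

theorem conv_chain (A B : Subgroup G) (m : ℕ) (P : G → Prop)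
    (hA : ∀ (u : ℤˣ) (j j' : ℕ) (y : G), j < m → j' < m → P y →
      (t ^ j)⁻¹ * y * t ^ j' ∈ toSubgroup A B u → j = j' ∧ y = 1) :
    ∀ l : List (ℤˣ × ℕ × G), (∀ x ∈ l, x.2.1 < m ∧ P x.2.2) → NC l →
    (conv t l).IsChain (fun a b => a.2 ∈ toSubgroup A B a.1 → a.1 = b.1) := by
  intro l
  induction l with
  | nil => intro _ _; exact List.isChain_nil
  | cons a l ih =>
    intro hg hn
    cases l with
    | nil => exact List.isChain_singleton _
    | cons b l =>
      have hn' := List.isChain_cons_cons.1 hn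
      have h2 := ih (fun x hx => hg x (List.mem_cons_of_mem _ hx)) hn'.2
      simp only [conv] at h2 ⊢
      refine List.isChain_cons_cons.2 ⟨?_, h2⟩
      intro hmem
      by_contra hne
      have ha := hg a (by simp)
      have hb := hg b (by simp)
      obtain ⟨hj, hy⟩ := hA a.1 a.2.1 b.2.1 a.2.2 ha.1 hb.1 ha.2 (by simpa [nj] using hmem)
      exact hn'.1 ⟨hne, hj, hy⟩

/-- every element of the closure has a good word -/
theorem exists_word (m : ℕ) (X : Subgroup G) (z : HNNExtension G A B φ)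
    (hz : z ∈ XX (of (φ := φ)) (HNNExtension.t (φ := φ)) t X m) :
    ∃ (y : G) (l : List (ℤˣ × ℕ × G)), y ∈ X ∧ (∀ x ∈ l, x.2.1 < m ∧ x.2.2 ∈ X) ∧ NC l ∧
      z = of y * val φ t l := by
  have key : ∀ (u : ℤˣ) (j : ℕ), j < m → ∀ (y : G) (l : List (ℤˣ × ℕ × G)), y ∈ X →
      (∀ x ∈ l, x.2.1 < m ∧ x.2.2 ∈ X) → NC l →
      ∃ (y' : G) (l' : List (ℤˣ × ℕ × G)), y' ∈ X ∧ (∀ x ∈ l', x.2.1 < m ∧ x.2.2 ∈ X) ∧ NC l' ∧
        of (t ^ j) * (HNNExtension.t (φ := φ)) ^ (u : ℤ) * (of (t ^ j))⁻¹ * (of y * val φ t l) =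
          of y' * val φ t l' := by
    intro u j hj y l hy hl hn
    by_cases hc : NC ((u, j, y) :: l)
    · refine ⟨1, (u, j, y) :: l, X.one_mem, ?_, hc, ?_⟩
      · intro x hx
        rcases List.mem_cons.1 hx with rfl | hx
        · exact ⟨hj, hy⟩
        · exact hl x hx
      · simp only [val, List.map_cons, List.prod_cons, map_mul, map_one, map_inv]
        group
    · cases l with
      | nil => exact absurd (List.isChain_singleton _) hc
      | cons b l =>
        have hb : (u ≠ b.1 ∧ j = b.2.1 ∧ y = 1) := by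
          by_contra hh
          exact hc (List.isChain_cons_cons.2 ⟨hh, hn⟩)
        obtain ⟨h1, rfl, rfl⟩ := hb
        refine ⟨b.2.2, l, (hl b (by simp)).2, fun x hx => hl x (List.mem_cons_of_mem _ hx),
          hn.tail, ?_⟩
        have hu : (b.1 : ℤ) = -(u : ℤ) := by
          rcases Int.units_eq_one_or u with rfl | rfl <;>
            rcases Int.units_eq_one_or b.1 with h | h <;> simp_all
        simp only [val, List.map_cons, List.prod_cons, map_mul, map_one, map_inv, hu]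
        group
  unfold XX at hz
  induction hz using Subgroup.closure_induction_left with
  | one => exact ⟨1, [], X.one_mem, by simp, List.isChain_nil, by simp [val]⟩
  | mul_left x hx y' hy ih =>
    obtain ⟨y, l, hyX, hl, hn, rfl⟩ := ih
    rcases hx with ⟨x, hx, rfl⟩ | ⟨j, hj, rfl⟩
    · exact ⟨x * y, l, X.mul_mem hx hyX, hl, hn, by simp [mul_assoc]⟩
    · obtain ⟨y1, l1, h1, h2, h3, h4⟩ := key 1 j hj y l hyX hl hn
      exact ⟨y1, l1, h1, h2, h3, by simpa using h4⟩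
  | inv_mul_cancel x hx y' hy ih =>
    obtain ⟨y, l, hyX, hl, hn, rfl⟩ := ih
    rcases hx with ⟨x, hx, rfl⟩ | ⟨j, hj, rfl⟩
    · exact ⟨x⁻¹ * y, l, X.mul_mem (X.inv_mem hx) hyX, hl, hn, by simp [mul_assoc]⟩
    · obtain ⟨y1, l1, h1, h2, h3, h4⟩ := key (-1) j hj y l hyX hl hn
      refine ⟨y1, l1, h1, h2, h3, ?_⟩
      rw [← h4]
      simp only [Units.val_neg, Units.val_one, Int.reduceNeg, zpow_neg, zpow_one]
      group

/-- elements of the base in the closure -/
theorem meet_aux (m : ℕ) (X : Subgroup G)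
    (hA : ∀ (u : ℤˣ) (j j' : ℕ) (y : G), j < m → j' < m → y ∈ X →
      (t ^ j)⁻¹ * y * t ^ j' ∈ toSubgroup A B u → j = j' ∧ y = 1) (g : G)
    (hg : of g ∈ XX (of (φ := φ)) (HNNExtension.t (φ := φ)) t X m) : g ∈ X := by
  obtain ⟨y, l, hy, hl, hn, he⟩ := exists_word t m X _ hg
  have hch := conv_chain t A B m (· ∈ X) hA l hl hn
  let w : ReducedWord G A B := ⟨y * t ^ nj l, conv t l, hch⟩
  have hw : w.prod φ = of g := by
    rw [he, val_conv]
    simp only [ReducedWord.prod, w, map_mul, mul_assoc]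
  have h0 : conv t l = [] :=
    HNNExtension.ReducedWord.toList_eq_nil_of_mem_of_range φ w (by rw [hw]; exact ⟨g, rfl⟩)
  cases l with
  | nil =>
    have : (of g : HNNExtension G A B φ) = of y := by rw [he]; simp [val]
    rw [of_injective φ this]
    exact hy
  | cons a l => simp [conv] at h0

end words

end S2T

open S2T in
theorem stS2Tree (h0 : StBasic) (h1 : StBS1) (h2 : StBS2) (hU : StUP) : StS2Tree := by
  intro G _ X t η td m hm κ hκ φ hφ
  obtain ⟨b1, b2, b3, b4⟩ := h1 G (Subgroup.zpowers (t ^ (-(m : ℤ)) * κ))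
    (Subgroup.zpowers (t ^ (-(m : ℤ)))) φ
  -- values of `φ` on powers
  have hφk : ∀ k : ℤ, ((φ ⟨(t ^ (-(m : ℤ)) * κ) ^ k, Subgroup.zpow_mem _
      (Subgroup.mem_zpowers _) k⟩ : Subgroup.zpowers (t ^ (-(m : ℤ)))) : G) =
      (t ^ (-(m : ℤ))) ^ k := by
    intro k
    have : (⟨(t ^ (-(m : ℤ)) * κ) ^ k, Subgroup.zpow_mem _ (Subgroup.mem_zpowers _) k⟩ :
        Subgroup.zpowers (t ^ (-(m : ℤ)) * κ)) =
        ⟨t ^ (-(m : ℤ)) * κ, Subgroup.mem_zpowers _⟩ ^ k := by ext; simp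
    rw [this, map_zpow, Subgroup.coe_zpow, hφ]
  -- heights
  have hη1 : η (t ^ (-(m : ℤ))) = ofAdd (-(m : ℤ)) := by
    rw [map_zpow, td.et, ← ofAdd_zsmul]; simp
  have hηg : η (t ^ (-(m : ℤ)) * κ) = ofAdd (-(m : ℤ)) := by
    rw [map_mul, hη1, td.ht κ hκ, mul_one]
  have hpow : ∀ k : ℤ, (ofAdd (-(m : ℤ)) : Multiplicative ℤ) ^ k = ofAdd (-(m : ℤ) * k) := by
    intro k; rw [← ofAdd_zsmul]; simp [mul_comm]
  have hAB : ∀ (u : ℤˣ) (j j' : ℕ) (y : G), j < m → j' < m → y ∈ X →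
      (t ^ j)⁻¹ * y * t ^ j' ∈ toSubgroup (Subgroup.zpowers (t ^ (-(m : ℤ)) * κ))
        (Subgroup.zpowers (t ^ (-(m : ℤ)))) u → j = j' ∧ y = 1 := by
    intro u j j' y hj hj' hy hmem
    have hh : ∃ k : ℤ, ∃ a : G, η a = ofAdd (-(m : ℤ)) ∧ (t ^ j)⁻¹ * y * t ^ j' = a ^ k := by
      rcases Int.units_eq_one_or u with rfl | rfl
      · simp only [toSubgroup_one] at hmem
        obtain ⟨k, hk⟩ := Subgroup.mem_zpowers_iff.1 hmem
        exact ⟨k, _, hηg, hk.symm⟩
      · simp only [toSubgroup_neg_one] at hmem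
        obtain ⟨k, hk⟩ := Subgroup.mem_zpowers_iff.1 hmem
        exact ⟨k, _, hη1, hk.symm⟩
    obtain ⟨k, a, ha, hk⟩ := hh
    have h3 := congrArg η hk
    simp only [map_mul, map_inv, map_pow, map_zpow, td.et, td.ht y hy, ha, hpow, mul_one,
      ← ofAdd_nsmul, ← ofAdd_neg, ← ofAdd_add] at h3
    have h4 : -(j : ℤ) + j' = -(m : ℤ) * k := by
      have := ofAdd.injective h3
      simpa using this
    have hk0 : k = 0 := by
      by_contra hne
      have h5 : |(m : ℤ) * k| < m := by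
        have : (m : ℤ) * k = j - j' := by linarith
        rw [this, abs_lt]; constructor <;> omega
      have h6 : (1 : ℤ) ≤ |k| := Int.one_le_abs hne
      rw [abs_mul, Nat.abs_cast] at h5
      nlinarith [Int.natCast_nonneg m]
    subst hk0
    have hjj : j = j' := by simp at h4; omega
    subst hjj
    refine ⟨rfl, ?_⟩
    rw [zpow_zero] at hk
    have : y = t ^ j * ((t ^ j)⁻¹ * y * t ^ j) * (t ^ j)⁻¹ := by group
    rw [this, hk]; group
  -- notation
  set ι : G →* HNNExtension G (Subgroup.zpowers (t ^ (-(m : ℤ)) * κ))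
    (Subgroup.zpowers (t ^ (-(m : ℤ)))) φ := of with hι
  set s : HNNExtension G (Subgroup.zpowers (t ^ (-(m : ℤ)) * κ))
    (Subgroup.zpowers (t ^ (-(m : ℤ)))) φ := HNNExtension.t with hs
  -- the relation
  have hrel : s * ι (t ^ (-(m : ℤ)) * κ) = ι (t ^ (-(m : ℤ))) * s := by
    have := t_mul_of (φ := φ) ⟨t ^ (-(m : ℤ)) * κ, Subgroup.mem_zpowers _⟩
    rw [hφ] at this
    exact this
  have hsX : ∀ j < m, ι (t ^ j) * s * (ι (t ^ j))⁻¹ ∈ XX ι s t X m := by
    intro j hj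
    exact Subgroup.subset_closure (Or.inr ⟨j, hj, rfl⟩)
  have hιX : ∀ x ∈ X, ι x ∈ XX ι s t X m := by
    intro x hx
    exact Subgroup.subset_closure (Or.inl ⟨x, hx, rfl⟩)
  have hs0 : s ∈ XX ι s t X m := by simpa using hsX 0 (by omega)
  have hsm : ι (t ^ m) * s * (ι (t ^ m))⁻¹ = s * ι κ⁻¹ := by
    have h5 : ι (t ^ (-(m : ℤ))) = (ι (t ^ m))⁻¹ := by simp
    rw [map_mul, h5] at hrel
    rw [map_inv, eq_mul_inv_iff_mul_eq]
    calc ι (t ^ m) * s * (ι (t ^ m))⁻¹ * ι κ = ι (t ^ m) * (s * ((ι (t ^ m))⁻¹ * ι κ)) := by group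
      _ = ι (t ^ m) * ((ι (t ^ m))⁻¹ * s) := by rw [hrel]
      _ = s := by group
  have hsmX : ι (t ^ m) * s * (ι (t ^ m))⁻¹ ∈ XX ι s t X m := by
    rw [hsm]; exact Subgroup.mul_mem _ hs0 (hιX _ (X.inv_mem hκ))
  have hsX' : ∀ j ≤ m, ι (t ^ j) * s * (ι (t ^ j))⁻¹ ∈ XX ι s t X m := by
    intro j hj
    rcases hj.lt_or_eq with h | rfl
    · exact hsX j h
    · exact hsmX
  -- the height
  let η' : HNNExtension G (Subgroup.zpowers (t ^ (-(m : ℤ)) * κ))
      (Subgroup.zpowers (t ^ (-(m : ℤ)))) φ →* Multiplicative ℤ := lift η 1 (by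
    rintro ⟨a, ha⟩
    obtain ⟨k, rfl⟩ := Subgroup.mem_zpowers_iff.1 ha
    rw [hφk k, one_mul, mul_one, map_zpow, map_zpow, hηg, hη1])
  have hη'ι : ∀ g, η' (ι g) = η g := fun g => lift_of _ _ _ _
  have hη's : η' s = 1 := lift_t _ _ _
  have htd : TD (XX ι s t X m) (ι t) η' := by
    apply hU
    · intro x hx
      have : XX ι s t X m ≤ η'.ker := by
        refine (Subgroup.closure_le _).2 ?_
        rintro z (⟨x, hx, rfl⟩ | ⟨j, hj, rfl⟩)
        · simp only [SetLike.mem_coe, MonoidHom.mem_ker, hη'ι, td.ht x hx]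
        · simp only [SetLike.mem_coe, MonoidHom.mem_ker, map_mul, hη's, map_inv, mul_one,
            mul_inv_cancel]
      exact MonoidHom.mem_ker.1 (this hx)
    · rw [hη'ι, td.et]
    · rw [eq_top_iff]
      intro z _
      have hcl := (h0 G X t η).2.2.2.2.2.2.1 td
      have hG : ∀ g : G, ι g ∈ Subgroup.closure ((XX ι s t X m : Set _) ∪ {ι t}) := by
        intro g
        have hg : g ∈ Subgroup.closure ((X : Set G) ∪ {t}) := by rw [hcl]; trivial
        have : Subgroup.closure ((X : Set G) ∪ {t}) ≤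
            (Subgroup.closure ((XX ι s t X m : Set _) ∪ {ι t})).comap ι := by
          refine (Subgroup.closure_le _).2 ?_
          rintro x (hx | rfl)
          · exact Subgroup.subset_closure (Or.inl (hιX x hx))
          · exact Subgroup.subset_closure (Or.inr rfl)
        exact this hg
      induction z using HNNExtension.induction_on with
      | of g => exact hG g
      | t => exact Subgroup.subset_closure (Or.inl hs0)
      | mul x y hx hy => exact Subgroup.mul_mem _ (hx trivial) (hy trivial)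
      | inv x hx => exact Subgroup.inv_mem _ (hx trivial)
    · intro L _ ψ y hψ
      obtain ⟨Ψ₀, hΨX, hΨt⟩ := h2 G X t η td L
        (ψ.comp ((ι.comp X.subtype).codRestrict (XX ι s t X m) (fun x => hιX x x.2))) y (by
          intro x x' hx
          simp only [MonoidHom.comp_apply]
          apply hψ
          change ι t * ι (x : G) * (ι t)⁻¹ = ι (x' : G)
          rw [← hx]; simp)
      have hΨX' : ∀ (x : G) (hx : x ∈ X), Ψ₀ x = ψ ⟨ι x, hιX x hx⟩ := by
        intro x hx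
        exact hΨX ⟨x, hx⟩
      -- values on the `s_j`
      have hsj : ∀ (j : ℕ) (hj : j ≤ m), ψ ⟨_, hsX' j hj⟩ = y ^ j * ψ ⟨s, hs0⟩ * (y ^ j)⁻¹ := by
        intro j
        induction j with
        | zero =>
          intro _
          have : (⟨_, hsX' 0 (by omega)⟩ : XX ι s t X m) = ⟨s, hs0⟩ := by ext; simp
          rw [this]; simp
        | succ j ih =>
          intro hj
          have h6 := hψ ⟨_, hsX' j (by omega)⟩ ⟨_, hsX' (j + 1) hj⟩ (by
            simp only [map_pow]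
            group)
          rw [← h6, ih (by omega)]
          group
      have hkey : ψ ⟨s, hs0⟩ * Ψ₀ (t ^ (-(m : ℤ)) * κ) =
          Ψ₀ (t ^ (-(m : ℤ))) * ψ ⟨s, hs0⟩ := by
        have h7 := hsj m le_rfl
        have h8 : (⟨_, hsX' m le_rfl⟩ : XX ι s t X m) =
            ⟨s, hs0⟩ * ⟨ι κ⁻¹, hιX _ (X.inv_mem hκ)⟩ := by
          ext; simpa using hsm
        rw [h8, map_mul, ← hΨX' κ⁻¹ (X.inv_mem hκ)] at h7
        rw [map_mul, map_zpow, hΨt]
        rw [map_inv] at h7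
        have h9 : ψ ⟨s, hs0⟩ = y ^ m * ψ ⟨s, hs0⟩ * (y ^ m)⁻¹ * Ψ₀ κ := by
          rw [← h7]; group
        have h10 : y ^ (-(m : ℤ)) = (y ^ m)⁻¹ := by simp
        rw [h10]
        calc ψ ⟨s, hs0⟩ * ((y ^ m)⁻¹ * Ψ₀ κ)
            = (y ^ m)⁻¹ * (y ^ m * ψ ⟨s, hs0⟩ * (y ^ m)⁻¹ * Ψ₀ κ) := by group
          _ = (y ^ m)⁻¹ * ψ ⟨s, hs0⟩ := by rw [← h9]
      have hkeyk : ∀ k : ℤ, ψ ⟨s, hs0⟩ * Ψ₀ ((t ^ (-(m : ℤ)) * κ) ^ k) =
          Ψ₀ ((t ^ (-(m : ℤ))) ^ k) * ψ ⟨s, hs0⟩ := by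
        intro k
        have : SemiconjBy (ψ ⟨s, hs0⟩) (Ψ₀ (t ^ (-(m : ℤ)) * κ)) (Ψ₀ (t ^ (-(m : ℤ)))) := hkey
        rw [map_zpow, map_zpow]
        exact this.zpow_right k
      let Ψ : HNNExtension G (Subgroup.zpowers (t ^ (-(m : ℤ)) * κ))
          (Subgroup.zpowers (t ^ (-(m : ℤ)))) φ →* L := lift Ψ₀ (ψ ⟨s, hs0⟩) (by
        rintro ⟨a, ha⟩
        obtain ⟨k, rfl⟩ := Subgroup.mem_zpowers_iff.1 ha
        rw [hφk k]
        exact hkeyk k)
      have hΨι : ∀ g, Ψ (ι g) = Ψ₀ g := fun g => lift_of _ _ _ _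
      have hΨs : Ψ s = ψ ⟨s, hs0⟩ := lift_t _ _ _
      refine ⟨Ψ, ?_, by rw [hΨι, hΨt]⟩
      have hle : XX ι s t X m ≤
          ((Ψ.comp (XX ι s t X m).subtype).eqLocus ψ).map (XX ι s t X m).subtype := by
        refine (Subgroup.closure_le _).2 ?_
        rintro z (⟨x, hx, rfl⟩ | ⟨j, hj, rfl⟩)
        · refine ⟨⟨ι x, hιX x hx⟩, ?_, rfl⟩
          change Ψ (ι x) = ψ _
          rw [hΨι, hΨX' x hx]
        · refine ⟨⟨_, hsX j hj⟩, ?_, rfl⟩
          change Ψ (ι (t ^ j) * s * (ι (t ^ j))⁻¹) = ψ _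
          rw [map_mul, map_mul, map_inv, hΨι, hΨs, map_pow, hΨt]
          exact (hsj j hj.le).symm
      rintro ⟨x, hx⟩
      obtain ⟨x', hx', he⟩ := hle hx
      have : x' = ⟨x, hx⟩ := Subtype.ext he
      subst this
      exact hx'
  exact
    { inj := of_injective φ
      sht := b4
      str := b1
      relC := fun x ⟨y, hy⟩ => b3 x y hy
      relC' := fun x ⟨y, hy⟩ => b2 x y hy
      ttr := htd.tree
      meet := fun g hg => meet_aux t m X hAB g hg }

end Pool.Agent.D6b
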