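import Pool.Agent.Lib.MP_d6b03d_al.Stmts

/-!
MP_d6b03d_al, T3: subgraphs of trees.
-/

set_option autoImplicit false

namespace Pool.Agent.D6b

open SimpleGraph

theorem stSub : StSub := by
  classical
  intro V S' S hle hS u v hr
  obtain ⟨p, hp⟩ := hr.exists_isPath
  have hp' : (p.mapLe hle).IsPath := (Walk.isPath_mapLe hle).2 hp
  constructor
  · intro ha
    have h1 : (Walk.cons ha Walk.nil : S.Walk u v).IsPath := by
      simp [ha.ne]
    have h2 := hS.isAcyclic.path_unique ⟨p.mapLe hle, hp'⟩ ⟨_, h1⟩
    have h3 : p.mapLe hle = Walk.cons ha Walk.nil := congrArg Subtype.val h2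
    have h4 : s(u, v) ∈ (p.mapLe hle).edges := by
      rw [h3]
      simp
    rw [Walk.edges_mapLe_eq_edges] at h4
    exact Walk.adj_of_mem_edges p h4
  · intro r hb
    obtain ⟨q1, h1⟩ := hS.connected.exists_walk_length_eq_dist u r
    obtain ⟨q2, h2⟩ := hS.connected.exists_walk_length_eq_dist r v
    have h3 : (q1.append q2).length = S.dist u v := by
      rw [Walk.length_append, h1, h2]
      exact hb
    have h4 : (q1.append q2).IsPath := Walk.isPath_of_length_eq_dist _ h3
    have h5 := hS.isAcyclic.path_unique ⟨p.mapLe hle, hp'⟩ ⟨_, h4⟩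
    have h6 : p.mapLe hle = q1.append q2 := congrArg Subtype.val h5
    have h7 : r ∈ (p.mapLe hle).support := by
      rw [h6]
      simp
    rw [Walk.support_mapLe_eq_support] at h7
    exact ⟨p.takeUntil r h7⟩

end Pool.Agent.D6b
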