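import Pool.Agent.Lib.MP_d6b03d_al.Basic

/-!
MP_d6b03d_al, module E3 (`StSubtree`): subtrees of subgroups generated by elements of `X` and
`t X t⁻¹`.
-/

set_option autoImplicit false

namespace Pool.Agent.D6b

open Multiplicative Base

namespace Subtree

variable {G : Type} [Group G]

theorem vx0 (t : G) (X : Subgroup G) : vx t X 0 = ((1 : G) : G ⧸ X) := by
  unfold vx; simp

theorem vx1 (t : G) (X : Subgroup G) : vx t X 1 = ((t : G) : G ⧸ X) := by
  unfold vx; simp

theorem mem_cj {t x : G} {X : Subgroup G} : x ∈ cj t X ↔ t⁻¹ * x * t ∈ X := by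
  unfold cj
  constructor
  · rintro ⟨y, hy, rfl⟩
    have : t⁻¹ * (t * y * t⁻¹) * t = y := by group
    simpa [MulAut.conj_apply, this] using hy
  · intro h
    exact ⟨_, h, by simp [MulAut.conj_apply, mul_assoc]⟩

theorem fix0 {t : G} {X : Subgroup G} {x : G} : x • vx t X 0 = vx t X 0 ↔ x ∈ X := by
  rw [vx0, fix_iff]; simp

theorem fix1 {t : G} {X : Subgroup G} {x : G} : x • vx t X 1 = vx t X 1 ↔ x ∈ cj t X := by
  rw [vx1, fix_iff, mem_cj]

/-- the subgraph of the translates of the first edge -/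
def SK (X : Subgroup G) (t : G) (K : Subgroup G) : SimpleGraph (G ⧸ X) :=
  SimpleGraph.fromRel fun u v => ∃ g ∈ K, u = g • vx t X 0 ∧ v = g • vx t X 1

theorem adj01 {X : Subgroup G} {t : G} {η : G →* Multiplicative ℤ} (hX : ∀ x ∈ X, η x = 1)
    (ht : η t = ofAdd 1) (g : G) : (CG X t).Adj (g • vx t X 0) (g • vx t X 1) := by
  rw [vx0, vx1, MulAction.Quotient.smul_coe, MulAction.Quotient.smul_coe, smul_eq_mul,
    smul_eq_mul, mul_one]
  exact adj_mk hX ht g

theorem SK_adj {X : Subgroup G} {t : G} {η : G →* Multiplicative ℤ} (hX : ∀ x ∈ X, η x = 1)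
    (ht : η t = ofAdd 1) {K : Subgroup G} {u v : G ⧸ X} : (SK X t K).Adj u v ↔
    ∃ g ∈ K, (u = g • vx t X 0 ∧ v = g • vx t X 1) ∨ (v = g • vx t X 0 ∧ u = g • vx t X 1) := by
  unfold SK
  rw [SimpleGraph.fromRel_adj]
  constructor
  · rintro ⟨-, ⟨g, hg, h⟩ | ⟨g, hg, h⟩⟩
    · exact ⟨g, hg, Or.inl h⟩
    · exact ⟨g, hg, Or.inr h⟩
  · rintro ⟨g, hg, ⟨rfl, rfl⟩ | ⟨rfl, rfl⟩⟩
    · exact ⟨(adj01 hX ht g).ne, Or.inl ⟨g, hg, rfl, rfl⟩⟩
    · exact ⟨(adj01 hX ht g).ne.symm, Or.inr ⟨g, hg, rfl, rfl⟩⟩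

end Subtree

open Subtree in
theorem stSubtree (h3 : StSub) : StSubtree := by
  intro G _ X t η hT K hK hXK
  have hX := hT.ht
  have het := hT.et
  have hle : SK X t K ≤ CG X t := by
    intro u v h
    rw [SK_adj hX het] at h
    obtain ⟨g, -, ⟨rfl, rfl⟩ | ⟨rfl, rfl⟩⟩ := h
    · exact adj01 hX het g
    · exact (adj01 hX het g).symm
  have hedge : ∀ g ∈ K, (SK X t K).Adj (g • vx t X 0) (g • vx t X 1) := by
    intro g hg
    exact (SK_adj hX het).2 ⟨g, hg, Or.inl ⟨rfl, rfl⟩⟩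
  have hreach : ∀ g ∈ K, (SK X t K).Reachable (vx t X 0) (g • vx t X 0) := by
    have hstep : ∀ (g x : G), g ∈ K → x ∈ K → (x ∈ X ∨ x ∈ cj t X) →
        (SK X t K).Reachable (vx t X 0) (g • vx t X 0) →
        (SK X t K).Reachable (vx t X 0) ((g * x) • vx t X 0) := by
      intro g x hg hxK hx h
      rcases hx with hx | hx
      · rw [mul_smul, fix0.2 hx]; exact h
      · have h1 := (hedge g hg).reachable
        have h2 := (hedge (g * x) (K.mul_mem hg hxK)).reachable.symm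
        rw [mul_smul g x (vx t X 1), fix1.2 hx] at h2
        exact (h.trans h1).trans h2
    intro g hg
    have hg' := hg
    rw [hK] at hg'
    have key : g ∈ K ∧ (SK X t K).Reachable (vx t X 0) (g • vx t X 0) := by
      induction hg' using Subgroup.closure_induction_right with
      | one => exact ⟨K.one_mem, by rw [one_smul]⟩
      | mul_right g hgc x hx ih =>
        have hgK : g ∈ K := by rw [hK]; exact hgc
        have h1 := ih hgK
        exact ⟨K.mul_mem hgK hx.1, hstep g x hgK hx.1 hx.2 h1.2⟩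
      | mul_inv_cancel g hgc x hx ih =>
        have hgK : g ∈ K := by rw [hK]; exact hgc
        have h1 := ih hgK
        refine ⟨K.mul_mem hgK (K.inv_mem hx.1), hstep g x⁻¹ hgK (K.inv_mem hx.1) ?_ h1.2⟩
        rcases hx.2 with h | h
        · exact Or.inl (X.inv_mem h)
        · exact Or.inr ((cj t X).inv_mem h)
    exact key.2
  have hP : ∀ p : G ⧸ X, (∃ g ∈ K, p = g • vx t X 0 ∨ p = g • vx t X 1) →
      (SK X t K).Reachable (vx t X 0) p := by
    rintro p ⟨g, hg, rfl | rfl⟩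
    · exact hreach g hg
    · exact (hreach g hg).trans (hedge g hg).reachable
  have hW : ∀ p q : G ⧸ X, (∃ g ∈ K, p = g • vx t X 0 ∨ p = g • vx t X 1) →
      (SK X t K).Reachable p q → (∃ g ∈ K, q = g • vx t X 0 ∨ q = g • vx t X 1) := by
    intro p q hp ⟨w⟩
    induction w with
    | nil => exact hp
    | cons h w ih =>
      apply ih
      rw [SK_adj hX het] at h
      obtain ⟨g, hg, ⟨h1, h2⟩ | ⟨h1, h2⟩⟩ := h
      · exact ⟨g, hg, Or.inr h2⟩
      · exact ⟨g, hg, Or.inl h1⟩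
  refine ⟨?_, ?_⟩
  · intro p hp q hq r hr
    have h1 := (hP p hp).symm.trans (hP q hq)
    have h2 := (h3 (G ⧸ X) (SK X t K) (CG X t) hle hT.tree p q h1).2 r hr
    exact hW p r hp h2
  · intro z h0 h1
    have h2 := (hP _ h0).symm.trans (hP _ h1)
    have h4 := (h3 (G ⧸ X) (SK X t K) (CG X t) hle hT.tree _ _ h2).1 (adj01 hX het z)
    rw [SK_adj hX het] at h4
    obtain ⟨g, hg, ⟨e0, e1⟩ | ⟨e1, e0⟩⟩ := h4
    · have f0 : (g⁻¹ * z) • vx t X 0 = vx t X 0 := by rw [mul_smul, e0, inv_smul_smul]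
      have f1 : (g⁻¹ * z) • vx t X 1 = vx t X 1 := by rw [mul_smul, e1, inv_smul_smul]
      have h5 : g⁻¹ * z ∈ K := hXK ⟨fix0.1 f0, fix1.1 f1⟩
      have : z = g * (g⁻¹ * z) := by group
      rw [this]; exact K.mul_mem hg h5
    · exfalso
      have a0 := congrArg (hgt η X) e0
      have a1 := congrArg (hgt η X) e1
      rw [hgt_smul hX, hgt_smul hX, vx0, vx1, hgt_mk hX, hgt_mk hX, map_one, het, toAdd_one,
        toAdd_ofAdd] at a0 a1
      omega

end Pool.Agent.D6b
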