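import Pool.Agent.Lib.MP_d6b03d_al.Stmts

/-!
MP_d6b03d_al, module T11: two commuting automorphisms of a tree have a common fixed vertex or a
common axis.
-/

set_option autoImplicit false

namespace Pool.Agent.D6b

theorem stTC (h4 : StBtwU) (h8 : StAxis) (h9 : StAxisIn) (h10 : StProjFix) : StTC := by
  intro V S hS G _ _ hA hN e g heg
  by_cases hg : ∀ v : V, g • v ≠ v
  · right
    obtain ⟨m, L, hm, hL, hgL⟩ := h8 V S hS G hA hN g hg
    obtain ⟨c, hc⟩ := (h9 V S hS G hA g m L hm hL hgL).2 e heg.symm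
    exact ⟨L, c, m, hL, Or.inr (by omega), fun i => ⟨hc i, hgL i⟩⟩
  by_cases he : ∀ v : V, e • v ≠ v
  · right
    obtain ⟨m, L, hm, hL, heL⟩ := h8 V S hS G hA hN e he
    obtain ⟨c, hc⟩ := (h9 V S hS G hA e m L hm hL heL).2 g heg
    exact ⟨L, m, c, hL, Or.inl (by omega), fun i => ⟨heL i, hc i⟩⟩
  push Not at hg he
  obtain ⟨v, hv⟩ := hg
  obtain ⟨c, hc⟩ := he
  left
  obtain ⟨w, hw, hew⟩ := h10 V S hS G hA e {v | g • v = v}
    (fun p hp q hq r hr => (h4 V S hS).2 G hA g p q r hp hq hr) ⟨v, hv⟩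
    (fun u hu => by
      show g • e • u = e • u
      rw [← mul_smul, ← heg, mul_smul]
      exact congrArg _ hu) c hc
  exact ⟨w, hew, hw⟩

end Pool.Agent.D6b
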