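import Pool.Agent.Lib.MP_d6b03d_al.BS2

/-!
MP_d6b03d_al, B2': the universal property implies that the coset graph is a tree.
-/

set_option autoImplicit false

namespace Pool.Agent.D6b

open Multiplicative HNNExtension

/-- An isomorphism of groups induces an isomorphism of coset graphs. -/
def cgIso {G K : Type} [Group G] [Group K] (E : G ≃* K) (X : Subgroup G) (Y : Subgroup K) (t : G)
    (s : K) (hX : ∀ g, g ∈ X ↔ E g ∈ Y) (ht : E t = s) : CG X t ≃g CG Y s := by
  let e : (G ⧸ X) ≃ (K ⧸ Y) := Quotient.congr E.toEquiv (by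
    intro a b
    change QuotientGroup.leftRel X a b ↔ QuotientGroup.leftRel Y (E a) (E b)
    rw [QuotientGroup.leftRel_apply, QuotientGroup.leftRel_apply, hX]
    simp)
  have he : ∀ g : G, e (g : G ⧸ X) = ((E g : K) : K ⧸ Y) := fun g => rfl
  refine ⟨e, ?_⟩
  have hr : ∀ u v : G ⧸ X, (∃ g : K, e u = (g : K ⧸ Y) ∧ e v = ((g * s : K) : K ⧸ Y)) ↔
      ∃ g : G, u = (g : G ⧸ X) ∧ v = ((g * t : G) : G ⧸ X) := by
    intro u v
    constructor
    · rintro ⟨g, hu, hv⟩
      refine ⟨E.symm g, e.injective ?_, e.injective ?_⟩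
      · rw [hu, he]; simp
      · rw [hv, he]; simp [ht]
    · rintro ⟨g, rfl, rfl⟩
      refine ⟨E g, he g, ?_⟩
      rw [he, map_mul, ht]
  intro u v
  simp only [CG, SimpleGraph.fromRel_adj, hr, ne_eq, e.injective.eq_iff]

open BS2 in
/-- B2' -/
theorem stUP (h1 : StBS1) : StUP := by
  intro G _ X t η hht het hcl hUP
  refine ⟨hht, het, ?_⟩
  obtain ⟨Ψ, hΨX, hΨt⟩ := hUP (HNNExtension X (sA X t) (sB X t) (sφ X t)) HNNExtension.of
    HNNExtension.t (by
      intro x x' hx
      have hxA : x ∈ sA X t := mem_sA.2 (by rw [hx]; exact x'.2)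
      have hφ : ((sφ X t ⟨x, hxA⟩ : sB X t) : X) = x' := by
        ext
        simpa using hx
      have := equiv_eq_conj (φ := sφ X t) ⟨x, hxA⟩
      rw [← this, hφ])
  have hΦΨ : (Phi X t).comp Ψ = MonoidHom.id G := by
    refine MonoidHom.eq_of_eqOn_dense hcl ?_
    rintro g (hg | hg)
    · have := hΨX ⟨g, hg⟩
      simp only [MonoidHom.coe_comp, Function.comp_apply, MonoidHom.id_apply]
      simp only at this
      rw [this]
      simp
    · rw [Set.mem_singleton_iff] at hg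
      subst hg
      simp [hΨt]
  have hΨΦ : Ψ.comp (Phi X t) = MonoidHom.id _ := by
    apply HNNExtension.hom_ext
    · ext x
      simp [hΨX]
    · simp [hΨt]
  let E : G ≃* HNNExtension X (sA X t) (sB X t) (sφ X t) :=
    MonoidHom.toMulEquiv Ψ (Phi X t) hΦΨ hΨΦ
  have hE : ∀ g, E g = Ψ g := fun g => rfl
  refine (cgIso E X (HNNExtension.of (φ := sφ X t)).range t HNNExtension.t ?_ hΨt).isTree_iff.2
    (h1 X (sA X t) (sB X t) (sφ X t)).1
  intro g
  constructor
  · intro hg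
    exact ⟨⟨g, hg⟩, (hΨX ⟨g, hg⟩).symm⟩
  · rintro ⟨x, hx⟩
    have : Phi X t (Ψ g) = g := DFunLike.congr_fun hΦΨ g
    rw [← this, ← hE, ← hx, Phi_of]
    exact x.2

end Pool.Agent.D6b
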