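import Pool.Agent.Lib.MP_d6b03d_al.Absorb
import Pool.Agent.Lib.MP_d6b03d_al.Axis
import Pool.Agent.Lib.MP_d6b03d_al.AxisIn
import Pool.Agent.Lib.MP_d6b03d_al.BC
import Pool.Agent.Lib.MP_d6b03d_al.BCTree
import Pool.Agent.Lib.MP_d6b03d_al.BS1
import Pool.Agent.Lib.MP_d6b03d_al.BS2
import Pool.Agent.Lib.MP_d6b03d_al.BaseEx
import Pool.Agent.Lib.MP_d6b03d_al.Basic
import Pool.Agent.Lib.MP_d6b03d_al.BtwU
import Pool.Agent.Lib.MP_d6b03d_al.Close
import Pool.Agent.Lib.MP_d6b03d_al.Concat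
import Pool.Agent.Lib.MP_d6b03d_al.Deep
import Pool.Agent.Lib.MP_d6b03d_al.Dir
import Pool.Agent.Lib.MP_d6b03d_al.E
import Pool.Agent.Lib.MP_d6b03d_al.EAlg
import Pool.Agent.Lib.MP_d6b03d_al.EF
import Pool.Agent.Lib.MP_d6b03d_al.EInv
import Pool.Agent.Lib.MP_d6b03d_al.EIso
import Pool.Agent.Lib.MP_d6b03d_al.FAssoc
import Pool.Agent.Lib.MP_d6b03d_al.FixInt
import Pool.Agent.Lib.MP_d6b03d_al.FourPt
import Pool.Agent.Lib.MP_d6b03d_al.Gen
import Pool.Agent.Lib.MP_d6b03d_al.GenSide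
import Pool.Agent.Lib.MP_d6b03d_al.Inc
import Pool.Agent.Lib.MP_d6b03d_al.Init
import Pool.Agent.Lib.MP_d6b03d_al.JAbs
import Pool.Agent.Lib.MP_d6b03d_al.LL
import Pool.Agent.Lib.MP_d6b03d_al.Limit
import Pool.Agent.Lib.MP_d6b03d_al.Local
import Pool.Agent.Lib.MP_d6b03d_al.Mal
import Pool.Agent.Lib.MP_d6b03d_al.Near
import Pool.Agent.Lib.MP_d6b03d_al.PP
import Pool.Agent.Lib.MP_d6b03d_al.ProjFix
import Pool.Agent.Lib.MP_d6b03d_al.S1
import Pool.Agent.Lib.MP_d6b03d_al.S1Ext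
import Pool.Agent.Lib.MP_d6b03d_al.S1F
import Pool.Agent.Lib.MP_d6b03d_al.S1Inv
import Pool.Agent.Lib.MP_d6b03d_al.S1Prep
import Pool.Agent.Lib.MP_d6b03d_al.S1Star
import Pool.Agent.Lib.MP_d6b03d_al.S1Tree
import Pool.Agent.Lib.MP_d6b03d_al.S2
import Pool.Agent.Lib.MP_d6b03d_al.S2F
import Pool.Agent.Lib.MP_d6b03d_al.S2Four
import Pool.Agent.Lib.MP_d6b03d_al.S2Inv
import Pool.Agent.Lib.MP_d6b03d_al.S2Lines
import Pool.Agent.Lib.MP_d6b03d_al.S2Pair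
import Pool.Agent.Lib.MP_d6b03d_al.S2Prep
import Pool.Agent.Lib.MP_d6b03d_al.S2Tree
import Pool.Agent.Lib.MP_d6b03d_al.Sub
import Pool.Agent.Lib.MP_d6b03d_al.Subtree
import Pool.Agent.Lib.MP_d6b03d_al.TC
import Pool.Agent.Lib.MP_d6b03d_al.UP
import Pool.Agent.Lib.MP_d6b03d_al.Exit
import Pool.Agent.Lib.MP_d6b03d_al.FreeY
import Pool.Agent.Lib.MP_d6b03d_al.Core
import Pool.Agent.Lib.MP_d6b03d_al.EBuild
import Pool.Agent.Lib.MP_d6b03d_al.Final

set_option autoImplicit false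

namespace Pool.Agent.D6b

open Multiplicative Base

theorem tasks (hInit : StInit) (hExt : StS1Ext) (h1 : StS1) (h2 : StS2) (hE : StE)
    (hL : StLL) (H : Type) [Group H] [Base H] [Countable H] : Tasks H where
  start := by
    obtain ⟨G', iG, ι, s, pr', X', D', -, hcnt, -, hprs, hs, hst, -⟩ :=
      hExt H H (MonoidHom.id H) (MonoidHom.id H) (hz (H := H)).ker 1 (hInit H) ⊥ bot_le
        (fun γ c hc hc1 _ => absurd (Subgroup.mem_bot.1 hc) hc1)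
        (fun c hc hc1 => absurd (Subgroup.mem_bot.1 hc) hc1)
        (fun c hc _ => Subgroup.mem_bot.1 hc)
    exact ⟨⟨G', hcnt inferInstance, pr', ι.comp (MonoidHom.id H), X', D', hst⟩, s, hprs, hs⟩
  t1 := by
    intro A g s₀ hg _ hs₀
    by_cases h : hz (A.pr g) = 1
    · exact h1 H A g s₀ h hg hs₀
    · exact h2 H A g s₀ h hs₀
  t2 := by
    intro A k u s₀ hk hk1 hu hs hs1
    by_cases hu1 : u = 1
    · refine ⟨A, MonoidHom.id _, ⟨fun _ => rfl, fun _ => rfl⟩, hs1, ?_⟩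
      subst hu1
      exact Subgroup.one_mem _
    · exact hE H A k u s₀ hk hk1 hu hu1 hs hs1
  cen := by
    intro A h hh x hx hc
    exact (hL H A.G A.pr A.em A.X A.D A.ok).2.2.2 h hh x hx hc

/-- The counterexample. -/
theorem main_theorem :
    ∃ (G : Type) (_ : Group G) (H : Subgroup G) (a : G), Star H a ∧
      (∀ n : ℕ, 0 < n → a ^ n ≠ 1) ∧ ∃ x ∈ UU' a, ∃ y ∈ UU' a, x * y ∉ UU a := by
  have T1 := stFourPt
  have T2 := stLocal
  have T3 := stSub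
  have T4 := stBtwU
  have T5 := stConcat T1
  have T6 := stNear T1 T4
  have T7 := stClose T6
  have T8 := stAxis T2
  have T9 := stAxisIn T1 T7
  have T10 := stProjFix T1
  have T11 := stTC T4 T8 T9 T10
  have T12 := stDeep T1
  have B0 := stBasic
  have B1 := stBS1
  have B2 := stBS2 T2 B0
  have B2' := stUP B1
  have B3 := stBCTree B0 B1 B2 B2'
  have B4 := s1Tree B0 B1 B2 B2'
  have B5 := stS2Tree B0 B1 B2 B2'
  have B6 := incStmt T3 B0
  have G1 := stBC T4 B0 B3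
  have G2 := stAbsorb
  have G3 := stLL T7
  have G4 := stS1Prep B0 T4 T8 T9 T10 T11 G3
  have G5 := stS2Prep B0 T7 T11 G3
  have G6 := stJ T11
  have H1 := stS1Star T4 B0 B6 G3
  have H2 := stS1F T4 T10 B6 H1
  have H3 := stS1Inv G6 H1 H2
  have H4 := stS1Ext B1 B4 H3
  have S1 := stS1 G1 G2 G4 H4
  have K1 := stS2Pair T4 T6 B0 G3
  have K2 := stS2Lines B0 B6
  have K3 := stS2Four B6 K1 K2
  have K4 := stS2F T4 T8 T9 T10 B0 B6 K2 K3
  have K5 := stS2Inv G6 K2 K4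
  have S2 := stS2 B5 G1 G2 G5 K5
  have P1 := stPP
  have P2 := stDir B0 T3
  have P3 := stFixInt T4 B0
  have P4 := stExit B0
  have P5 := stFreeY T1 B0 P1 P2
  have P6 := stGenSide B0 P3 P4 P5
  have P7 := stGen P6
  have E1 := stFAssoc
  have E2 := stMal E1
  have E3 := stSubtree T3
  have E4 := stCore T1 T2 T5 T12 B0
  have E5 := stEAlg T2 B0 E1 E2 E3 E4
  have E7 := stEBuild B0 B1 B2 G1 E5 eIso
  have E8 := stEF T2 T4 B0
  have E9 := stEInv B0 T7 G6 E8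
  have SE := stE G1 G2 P7 E7 E9
  exact counterexample stBaseEx stLimit (fun H _ _ _ => tasks stInit H4 S1 S2 SE G3 H)

end Pool.Agent.D6b
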