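import Pool.Agent.Lib.MP_d6b03d_al.Stmts

/-!
MP_d6b03d_al: T5, concatenation of geodesics with small overlaps.
-/

set_option autoImplicit false

namespace Pool.Agent.D6b

namespace ConcatAux

variable {V : Type} {S : SimpleGraph V}

lemma claim (h4 : StFourPt) (hS : S.IsTree) (n : ℕ) (p : ℕ → V) (c : ℕ → ℕ)
    (h1 : ∀ i, 1 ≤ i → i < n → S.dist (p (i - 1)) (p i) + S.dist (p i) (p (i + 1)) ≤
      S.dist (p (i - 1)) (p (i + 1)) + 2 * c i)
    (h2 : ∀ i < n, c i + c (i + 1) < S.dist (p i) (p (i + 1))) :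
    ∀ j < n, S.dist (p 0) (p j) + S.dist (p j) (p (j + 1)) ≤
      S.dist (p 0) (p (j + 1)) + 2 * c j := by
  intro j
  induction j with
  | zero =>
    intro _
    rw [SimpleGraph.dist_self]
    omega
  | succ j ih =>
    intro hj
    have i1 := ih (by omega)
    have i2 := h1 (j + 1) (by omega) hj
    have i3 := h2 j (by omega)
    have i4 := h4 V S hS (p 0) (p (j + 1)) (p j) (p (j + 1 + 1))
    rw [Nat.add_sub_cancel] at i2
    rw [SimpleGraph.dist_comm (G := S) (u := p (j + 1)) (v := p j)] at i4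
    rcases le_max_iff.1 i4 with h | h <;> omega

lemma claim' (h4 : StFourPt) (hS : S.IsTree) (n : ℕ) (p : ℕ → V) (c : ℕ → ℕ)
    (h1 : ∀ i, 1 ≤ i → i < n → S.dist (p (i - 1)) (p i) + S.dist (p i) (p (i + 1)) ≤
      S.dist (p (i - 1)) (p (i + 1)) + 2 * c i)
    (h2 : ∀ i < n, c i + c (i + 1) < S.dist (p i) (p (i + 1))) (j : ℕ) (hj : j < n) :
    S.dist (p (j + 1)) (p n) + S.dist (p j) (p (j + 1)) ≤
      S.dist (p j) (p n) + 2 * c (j + 1) := by
  have key := claim h4 hS n (fun i ↦ p (n - i)) (fun i ↦ c (n - i))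
    (by
      intro i hi hin
      have := h1 (n - i) (by omega) (by omega)
      have e1 : n - i - 1 = n - (i + 1) := by omega
      have e2 : n - i + 1 = n - (i - 1) := by omega
      rw [e1, e2] at this
      show S.dist (p (n - (i - 1))) (p (n - i)) + S.dist (p (n - i)) (p (n - (i + 1))) ≤
        S.dist (p (n - (i - 1))) (p (n - (i + 1))) + 2 * c (n - i)
      rw [SimpleGraph.dist_comm (G := S) (u := p (n - (i - 1))) (v := p (n - i)),
        SimpleGraph.dist_comm (G := S) (u := p (n - i)) (v := p (n - (i + 1))),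
        SimpleGraph.dist_comm (G := S) (u := p (n - (i - 1))) (v := p (n - (i + 1)))]
      omega)
    (by
      intro i hi
      have := h2 (n - (i + 1)) (by omega)
      have e2 : n - (i + 1) + 1 = n - i := by omega
      rw [e2] at this
      show c (n - i) + c (n - (i + 1)) < S.dist (p (n - i)) (p (n - (i + 1)))
      rw [SimpleGraph.dist_comm (G := S) (u := p (n - i)) (v := p (n - (i + 1)))]
      omega)
    (n - (j + 1)) (by omega)
  have e1 : n - (n - (j + 1)) = j + 1 := by omega
  have e2 : n - (n - (j + 1) + 1) = j := by omega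
  simp only [e1, e2, Nat.sub_zero] at key
  rw [SimpleGraph.dist_comm (G := S) (u := p n) (v := p (j + 1)),
    SimpleGraph.dist_comm (G := S) (u := p (j + 1)) (v := p j),
    SimpleGraph.dist_comm (G := S) (u := p n) (v := p j)] at key
  exact key

lemma sum_le (n : ℕ) (p : ℕ → V) (c : ℕ → ℕ)
    (hc : ∀ j < n, S.dist (p 0) (p j) + S.dist (p j) (p (j + 1)) ≤
      S.dist (p 0) (p (j + 1)) + 2 * c j)
    (h2 : ∀ i < n, c i + c (i + 1) < S.dist (p i) (p (i + 1))) :
    ∀ j ≤ n, 1 ≤ j → ∑ i ∈ Finset.range j, (S.dist (p i) (p (i + 1)) - c i - c (i + 1)) + c j ≤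
      S.dist (p 0) (p j) := by
  intro j
  induction j with
  | zero => intro _ h; omega
  | succ j ih =>
    intro hj _
    rw [Finset.sum_range_succ]
    have i3 := h2 j (by omega)
    rcases Nat.eq_zero_or_pos j with rfl | h0
    · simp only [Finset.range_zero, Finset.sum_empty]
      omega
    · have i1 := ih (by omega) h0
      have i2 := hc j (by omega)
      omega

end ConcatAux

open ConcatAux

theorem stConcat (h4 : StFourPt) : StConcat := by
  intro V S hS n p c h1 h2
  have hc := claim h4 hS n p c h1 h2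
  have hconn : S.Connected := hS.connected
  refine ⟨?_, ?_⟩
  · rcases Nat.eq_zero_or_pos n with rfl | h0
    · simp
    · have := sum_le n p c hc h2 n le_rfl h0
      omega
  · intro j hj x hx hx1 hx2
    unfold Btw at hx ⊢
    have c1 := hc j hj
    have c2 := claim' h4 hS n p c h1 h2 j hj
    have d2 := h2 j hj
    have a1 := h4 V S hS (p 0) x (p j) (p (j + 1))
    have a2 := h4 V S hS x (p n) (p j) (p (j + 1))
    have a3 := h4 V S hS (p 0) x (p j) (p n)
    have a4 := h4 V S hS x (p n) (p 0) (p (j + 1))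
    have t1 : S.dist (p 0) (p n) ≤ S.dist (p 0) x + S.dist x (p n) := hconn.dist_triangle
    have t2 : S.dist (p 0) (p (j + 1)) ≤ S.dist (p 0) x + S.dist x (p (j + 1)) :=
      hconn.dist_triangle
    have t3 : S.dist (p j) (p n) ≤ S.dist (p j) x + S.dist x (p n) := hconn.dist_triangle
    rw [SimpleGraph.dist_comm (G := S) (u := x) (v := p j)] at a1 a2 a3
    rw [SimpleGraph.dist_comm (G := S) (u := p n) (v := p (j + 1))] at a2 a4
    rw [SimpleGraph.dist_comm (G := S) (u := p n) (v := p j)] at a2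
    rw [SimpleGraph.dist_comm (G := S) (u := x) (v := p 0),
      SimpleGraph.dist_comm (G := S) (u := p n) (v := p 0)] at a4
    rw [le_max_iff] at a1 a2 a3 a4
    omega

end Pool.Agent.D6b
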