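import Mathlib

/-!
MP_d6b03d_al: definitions.

`H = N ⋊ ⟨th⟩` (`Base`), stages `(G, pr : G → H, em : H → G, X, D)`:  `G` acts on the coset graph
`CG X t` (`t = em th`), which is a tree.
-/

set_option autoImplicit false

namespace Pool.Agent.D6b

open Multiplicative

/-! ### trees and actions -/

section Tree

variable {V : Type} (S : SimpleGraph V)

/-- `r` lies between `p` and `q`. -/
def Btw (p r q : V) : Prop := S.dist p r + S.dist r q = S.dist p q

/-- (geodesically) convex sets -/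
def Cvx (U : Set V) : Prop := ∀ p ∈ U, ∀ q ∈ U, ∀ r, Btw S p r q → r ∈ U

/-- bi-infinite geodesics -/
def IsLine (L : ℤ → V) : Prop := ∀ i j : ℤ, S.dist (L i) (L j) = (i - j).natAbs

/-- the group `G` acts by graph automorphisms -/
def ActsOn (G : Type) [Group G] [MulAction G V] : Prop :=
  ∀ (g : G) (u v : V), S.Adj u v → S.Adj (g • u) (g • v)

/-- no element exchanges two adjacent vertices -/
def NoInv (G : Type) [Group G] [MulAction G V] : Prop :=
  ∀ (g : G) (u v : V), S.Adj u v → g • u = v → g • v ≠ u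

end Tree

/-! ### the coset graph -/

section CosetGraph

variable {G : Type} [Group G]

/-- The coset graph: vertices `g X`, edges `{g X, g t X}`. -/
def CG (X : Subgroup G) (t : G) : SimpleGraph (G ⧸ X) :=
  SimpleGraph.fromRel fun u v => ∃ g : G, u = (g : G ⧸ X) ∧ v = ((g * t : G) : G ⧸ X)

/-- The vertices `t ^ i X` of the standard line. -/
def vx (t : G) (X : Subgroup G) (i : ℤ) : G ⧸ X := ((t ^ i : G) : G ⧸ X)

/-- The coset tree, with a height homomorphism. -/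
structure TD (X : Subgroup G) (t : G) (η : G →* Multiplicative ℤ) : Prop where
  ht : ∀ x ∈ X, η x = 1
  et : η t = ofAdd 1
  tree : (CG X t).IsTree

/-- `t X t⁻¹` -/
def cj (t : G) (X : Subgroup G) : Subgroup G := X.map (MulAut.conj t).toMonoidHom

/-- `Xn t X n` is generated by the `t ^ i X t ^ (-i)`, `0 ≤ i ≤ n`. -/
def Xn (t : G) (X : Subgroup G) : ℕ → Subgroup G
  | 0 => X
  | n + 1 => Xn t X n ⊔ cj t (Xn t X n)

/-- The subgroup generated by all `t ^ i k t ^ (-i)`. -/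
def Mcl (t k : G) : Subgroup G := Subgroup.closure {x | ∃ i : ℤ, x = t ^ i * k * (t ^ i)⁻¹}

end CosetGraph

/-! ### free over a subgroup -/

section Free

variable {G : Type} [Group G] {ι : Type}

/-- The product `a_{i1}^{±1} p_1 a_{i2}^{±1} p_2 ⋯`. -/
def wprod (a : ι → G) (l : List (ι × Bool × G)) : G :=
  (l.map fun x => (if x.2.1 then a x.1 else (a x.1)⁻¹) * x.2.2).prod

/-- Reduced words over `P`. -/
def Red (P : Subgroup G) (l : List (ι × Bool × G)) : Prop :=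
  (∀ x ∈ l, x.2.2 ∈ P) ∧ l.IsChain (fun x y => ¬ (x.1 = y.1 ∧ x.2.1 ≠ y.2.1 ∧ x.2.2 = 1))

/-- The family `a` is free over `P`: the subgroup generated by `P` and `a` is `P * F(a)`. -/
def FreeOver (P : Subgroup G) (a : ι → G) : Prop :=
  ∀ l : List (ι × Bool × G), l ≠ [] → Red P l → wprod a l ∉ P

end Free

/-! ### the base group and the stages -/

/-- `H = N ⋊ ⟨th⟩` with `N = ker hz` abelian, torsion-free, and `th ^ m - 1` onto on `N`. -/
class Base (H : Type) [Group H] where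
  hz : H →* Multiplicative ℤ
  th : H
  hz_th : hz th = ofAdd 1
  comm : ∀ x y : H, hz x = 1 → hz y = 1 → x * y = y * x
  tf : ∀ x : H, hz x = 1 → ∀ k : ℕ, 0 < k → x ^ k = 1 → x = 1
  nt : ∃ x : H, hz x = 1 ∧ x ≠ 1
  surj : ∀ m : ℤ, m ≠ 0 → ∀ x : H, hz x = 1 → ∃ y : H, hz y = 1 ∧ y * th ^ m * y⁻¹ = x * th ^ m

section Stage

variable {H : Type} [Group H] [Base H] {G : Type} [Group G]

/-- `e` is conjugate to an element of (the image of) `N`. -/
def ConjN (em : H →* G) (e : G) : Prop :=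
  ∃ (g : G) (n : H), Base.hz n = 1 ∧ e = g * em n * g⁻¹

/-- `e` is conjugate to an element of (the image of) `H`. -/
def ConjH (em : H →* G) (e : G) : Prop := ∃ (g : G) (h : H), e = g * em h * g⁻¹

/-- A stage: a group `G` over `H` acting on the tree `CG X t`, `t = em th`. -/
structure IsStage (pr : G →* H) (em : H →* G) (X : Subgroup G) (D : ℕ) : Prop where
  sec : ∀ h, pr (em h) = h
  Dpos : 1 ≤ D
  td : TD X (em Base.th) (Base.hz.comp pr)
  NX : ∀ n : H, Base.hz n = 1 → em n ∈ X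
  F1 : ∀ e : G, ¬ ConjN em e → ∀ p q : G ⧸ X, e • p = p → e • q = q →
    (CG X (em Base.th)).dist p q ≤ D
  F2 : ∀ n : H, Base.hz n = 1 → n ≠ 1 → ∀ p : G ⧸ X, em n • p = p →
    ∃ i : ℤ, (CG X (em Base.th)).dist p (vx (em Base.th) X i) ≤ D
  F3 : ∀ e : G, e • vx (em Base.th) X 0 = vx (em Base.th) X 0 →
    e • vx (em Base.th) X D = vx (em Base.th) X D → ∃ n : H, Base.hz n = 1 ∧ e = em n
  J : ∀ e g : G, e * g = g * e → pr e = 1 → Base.hz (pr g) = 1 → pr g ≠ 1 → e = 1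

end Stage

/-! ### two trees: an HNN extension `G'` of `G` with stable letter `s` -/

section Two

variable {G G' : Type} [Group G] [Group G']

/-- the subgroup of `G'` generated by `X` and the `t ^ j s t ^ (-j)`, `0 ≤ j < m` -/
def XX (ι : G →* G') (s : G') (t : G) (X : Subgroup G) (m : ℕ) : Subgroup G' :=
  Subgroup.closure (ι '' (X : Set G) ∪ {z | ∃ j : ℕ, j < m ∧ z = ι (t ^ j) * s * (ι (t ^ j))⁻¹})

/-- `G'` is an HNN extension of `G` (`s C s⁻¹ = C'`), with coset tree `CG ι.range s`, and it is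
also an HNN extension of `XX ι s t X m` with stable letter `t`. -/
structure TwoTree (t : G) (X : Subgroup G) (ι : G →* G') (s : G') (C C' : Subgroup G) (m : ℕ) :
    Prop where
  inj : Function.Injective ι
  sht : ∃ η' : G' →* Multiplicative ℤ, (∀ g, η' (ι g) = 1) ∧ η' s = ofAdd 1
  str : (CG ι.range s).IsTree
  relC : ∀ x : G, (∃ y : G, ι x = s⁻¹ * ι y * s) → x ∈ C
  relC' : ∀ x : G, (∃ y : G, ι x = s * ι y * s⁻¹) → x ∈ C'
  ttr : (CG (XX ι s t X m) (ι t)).IsTree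
  meet : ∀ g : G, ι g ∈ XX ι s t X m → g ∈ X

/-- incidence between a vertex `p` of the tree of `X'` and a copy `c` (a coset of `ι.range`) -/
def Inc (ι : G →* G') (X' : Subgroup G') (p : G' ⧸ X') (c : G' ⧸ ι.range) : Prop :=
  ∃ g : G', (g : G' ⧸ X') = p ∧ (g : G' ⧸ ι.range) = c

end Two

/-! ### hypotheses of the three extension steps -/

section Steps

variable {H : Type} [Group H] [Base H] {G G' : Type} [Group G] [Group G']

/-- first step: `s c s⁻¹ = em (pr c)` for `c` in a malnormal subgroup `C` -/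
structure S1Hyp (pr : G →* H) (em : H →* G) (X : Subgroup G) (D : ℕ) (ι : G →* G') (s : G')
    (C C' : Subgroup G) (pr' : G' →* H) : Prop where
  st : IsStage pr em X D
  tt : TwoTree (em Base.th) X ι s C C' 1
  CX : C ≤ X
  rel : ∀ c ∈ C, s * ι c * s⁻¹ = ι (em (pr c))
  rC' : ∀ c' ∈ C', ∃ c ∈ C, c' = em (pr c)
  mal : ∀ γ : G, ∀ c ∈ C, c ≠ 1 → γ * c * γ⁻¹ ∈ C → γ ∈ C
  nc : ∀ c ∈ C, c ≠ 1 → ¬ ConjN em c
  pri : ∀ g, pr' (ι g) = pr g
  prs : pr' s = 1

/-- second step: `s g s⁻¹ = t ^ (-m)`, `g = t ^ (-m) κ` -/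
structure S2Hyp (pr : G →* H) (em : H →* G) (X : Subgroup G) (D : ℕ) (ι : G →* G') (s : G')
    (m : ℕ) (κ g : G) (pr' : G' →* H) : Prop where
  st : IsStage pr em X D
  mpos : 1 ≤ m
  kX : κ ∈ X
  prk : pr κ = 1
  hg : g = em Base.th ^ (-(m : ℤ)) * κ
  cent : ∀ c : G, c * g = g * c → c ∈ Subgroup.zpowers g
  nh : ¬ ConjH em g
  tt : TwoTree (em Base.th) X ι s (Subgroup.zpowers g)
    (Subgroup.zpowers (em Base.th ^ (-(m : ℤ)))) m
  rel : s * ι g * s⁻¹ = ι (em Base.th ^ (-(m : ℤ)))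
  pri : ∀ g, pr' (ι g) = pr g
  prs : pr' s = 1

/-- third step: `G'` is an HNN extension of `Γ = X ⊔ t X t⁻¹` with associated subgroups `A` and
`B`; `f : G → G'` restricts to an embedding of `Γ`. `Dp` is the constant of the stage `Γ`. -/
structure EHyp (pr : G →* H) (em : H →* G) (X : Subgroup G) (Dp : ℕ) (f : G →* G')
    (A B : Subgroup G) (pr' : G' →* H) : Prop where
  sec : ∀ h, pr (em h) = h
  XA : X ≤ A
  YB : cj (em Base.th) X ≤ B
  AG : A ≤ X ⊔ cj (em Base.th) X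
  BG : B ≤ X ⊔ cj (em Base.th) X
  st : IsStage pr em (X ⊔ cj (em Base.th) X) Dp
  inj : ∀ x ∈ X ⊔ cj (em Base.th) X, f x = 1 → x = 1
  tr : TD ((X ⊔ cj (em Base.th) X).map f) (f (em Base.th)) (Base.hz.comp pr')
  eB : ∀ x ∈ X ⊔ cj (em Base.th) X, ∀ y ∈ X ⊔ cj (em Base.th) X,
    f x = f (em Base.th) * f y * (f (em Base.th))⁻¹ → x ∈ B
  eA : ∀ x ∈ X ⊔ cj (em Base.th) X, ∀ y ∈ X ⊔ cj (em Base.th) X,
    f x = (f (em Base.th))⁻¹ * f y * f (em Base.th) → x ∈ A
  rAB : ∀ x ∈ A, ∃ y ∈ B, f (em Base.th) * f x * (f (em Base.th))⁻¹ = f y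
  rBA : ∀ y ∈ B, ∃ x ∈ A, f (em Base.th) * f x * (f (em Base.th))⁻¹ = f y
  pri : ∀ g, pr' (f g) = pr g
  g1a : ∀ z ∈ B, ∀ x ∈ X ⊔ cj (em Base.th) X, x⁻¹ * z * x ∈ A →
    ∃ β ∈ B, β⁻¹ * z * β ∈ cj (em Base.th) X
  g1b : ∀ z ∈ B, ∀ x ∈ X ⊔ cj (em Base.th) X, x ∉ B → x⁻¹ * z * x ∈ B →
    ∃ β ∈ B, β⁻¹ * z * β ∈ cj (em Base.th) X
  g2 : ∀ z ∈ A, z ∈ B → z ∈ cj (em Base.th) X

/-- data for the general position lemma; `Nn` fixes the standard line -/
structure GH (X : Subgroup G) (t : G) (η : G →* Multiplicative ℤ) (D : ℕ) (Nn : Subgroup G) :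
    Prop where
  td : TD X t η
  Dpos : 1 ≤ D
  NX : ∀ n ∈ Nn, ∀ i : ℤ, n • vx t X i = vx t X i
  F2 : ∀ n ∈ Nn, n ≠ 1 → ∀ p : G ⧸ X, n • p = p → ∃ i : ℤ, (CG X t).dist p (vx t X i) ≤ D
  F3 : ∀ (e : G) (i : ℤ), e • vx t X i = vx t X i → e • vx t X (i + D) = vx t X (i + D) → e ∈ Nn

end Steps

/-! ### bundled stages -/

structure Stg (H : Type) [Group H] [Base H] where
  G : Type
  [grp : Group G]
  cnt : Countable G
  pr : G →* H
  em : H →* G
  X : Subgroup G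
  D : ℕ
  ok : IsStage pr em X D

attribute [instance] Stg.grp

/-- `f` is a morphism of stages (over and under `H`) -/
def Ext1 {H : Type} [Group H] [Base H] (A B : Stg H) (f : A.G →* B.G) : Prop :=
  (∀ x, B.pr (f x) = A.pr x) ∧ ∀ h, f (A.em h) = B.em h

end Pool.Agent.D6b
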