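import Pool.Agent.Lib.MP_d6b03d_al.FrobBasic

/-!
# A complement of a finite Frobenius group contains no Frobenius group
-/

open Subgroup

namespace Pool.Agent.Lib.MP_d6b03d_al

section sum

variable {M A : Type*} [Group M] [CommGroup A]

open Classical in
theorem prod_subgroup_eq_one [Fintype M] (θ : M →* MulAut A)
    (hfix : ∀ m, m ≠ 1 → ∀ v, θ m v = v → v = 1) (S : Subgroup M) (hS : S ≠ ⊥) (v : A) :
    ∏ m ∈ Finset.univ.filter (· ∈ S), θ m v = 1 := by
  obtain ⟨s, hs, hs1⟩ := (Subgroup.bot_or_exists_ne_one S).resolve_left hS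
  apply hfix s hs1
  rw [map_prod]
  refine Finset.prod_bij (fun m _ => s * m) ?_ ?_ ?_ ?_
  · intro m hm
    simp only [Finset.mem_filter, Finset.mem_univ, true_and] at hm ⊢
    exact S.mul_mem hs hm
  · intro m _ m' _ h
    exact mul_left_cancel h
  · intro m hm
    simp only [Finset.mem_filter, Finset.mem_univ, true_and] at hm
    exact ⟨s⁻¹ * m, by simpa using S.mul_mem (S.inv_mem hs) hm, by simp⟩
  · intro m _
    rw [map_mul]
    rfl

open Classical in
/-- The relation between the norms of a Frobenius group. -/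
theorem frob_sum [Finite M] (θ : M →* MulAut A) (hfix : ∀ m, m ≠ 1 → ∀ v, θ m v = v → v = 1)
    {F C : Subgroup M} (h : IsFrobenius ⊤ F C) (hC : C ≠ ⊥) (v : A) :
    v ^ Nat.card F = 1 := by
  have := Fintype.ofFinite M
  obtain ⟨c0, hc0, hc01⟩ := (Subgroup.bot_or_exists_ne_one C).resolve_left hC
  have htop : (⊤ : Subgroup M) ≠ ⊥ := by
    intro h0
    have : c0 ∈ (⊤ : Subgroup M) := mem_top _
    rw [h0] at this
    exact hc01 (by simpa using this)
  have p1 := prod_subgroup_eq_one θ hfix ⊤ htop v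
  have p2 := prod_subgroup_eq_one θ hfix F h.nontrivial v
  have e0 : (Finset.univ.filter (· ∈ (⊤ : Subgroup M))) = (Finset.univ : Finset M) := by
    ext x; simp
  rw [e0, ← Finset.prod_filter_mul_prod_filter_not Finset.univ (· ∈ F), p2, one_mul] at p1
  -- the product over the elements outside `F`
  set sF : Finset M := Finset.univ.filter (· ∈ F) with hsF
  set sC : Finset M := Finset.univ.filter (fun c => c ∈ C ∧ c ≠ 1) with hsC
  have p3 : ∏ p ∈ sF ×ˢ sC, θ (p.1⁻¹ * p.2 * p.1) v =
      ∏ m ∈ Finset.univ.filter (fun x => ¬ x ∈ F), θ m v := by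
    refine Finset.prod_bij (fun p _ => p.1⁻¹ * p.2 * p.1) ?_ ?_ ?_ ?_
    · rintro ⟨f, c⟩ hp
      simp only [hsF, hsC, Finset.mem_product, Finset.mem_filter, Finset.mem_univ, true_and]
        at hp ⊢
      intro h1
      have h2 := h.normal' (mem_top f) h1
      have h3 : c ∈ F := by
        have e : f * (f⁻¹ * c * f) * f⁻¹ = c := by group
        rwa [e] at h2
      exact hp.2.2 (h.eq_one_of_mem h3 hp.2.1)
    · rintro ⟨f, c⟩ hp ⟨f', c'⟩ hp' heq
      simp only [hsF, hsC, Finset.mem_product, Finset.mem_filter, Finset.mem_univ, true_and]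
        at hp hp' heq
      have hg : (f * f'⁻¹)⁻¹ * c * (f * f'⁻¹) = c' := by
        have : (f * f'⁻¹)⁻¹ * c * (f * f'⁻¹) = f' * (f⁻¹ * c * f) * f'⁻¹ := by group
        rw [this, heq]; group
      have hgC : f * f'⁻¹ ∈ C := by
        by_contra h1
        exact hp.2.2 (h.malnormal _ (mem_top _) h1 c hp.2.1 (by rw [hg]; exact hp'.2.1))
      have hg1 : f * f'⁻¹ = 1 :=
        h.eq_one_of_mem (F.mul_mem hp.1 (F.inv_mem hp'.1)) hgC
      have hff : f = f' := by rwa [mul_inv_eq_one] at hg1
      subst hff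
      rw [hg1] at hg
      simp only [inv_one, one_mul, mul_one] at hg
      rw [hg]
    · intro m hm
      simp only [Finset.mem_filter, Finset.mem_univ, true_and] at hm
      have h1 : ¬ ∀ g ∈ (⊤ : Subgroup M), g * m * g⁻¹ ∉ C := by
        rw [← h.partition m (mem_top m)]
        exact fun h2 => hm h2.1
      push Not at h1
      obtain ⟨g, -, hg⟩ := h1
      obtain ⟨f, hf, c, hc, hfc⟩ := h.mul g⁻¹ (mem_top _)
      have hgi : g = c⁻¹ * f⁻¹ := by
        have : g = (g⁻¹)⁻¹ := by simp
        rw [this, hfc, mul_inv_rev]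
      refine ⟨(f⁻¹, c * (g * m * g⁻¹) * c⁻¹), ?_, ?_⟩
      · simp only [hsF, hsC, Finset.mem_product, Finset.mem_filter, Finset.mem_univ, true_and]
        refine ⟨F.inv_mem hf, C.mul_mem (C.mul_mem hc hg) (C.inv_mem hc), ?_⟩
        intro h3
        apply hm
        have : m = 1 := by
          have e : m = g⁻¹ * c⁻¹ * (c * (g * m * g⁻¹) * c⁻¹) * c * g := by group
          rw [e, h3]; group
        rw [this]; exact F.one_mem
      · simp only
        rw [hgi]; group
    · rintro ⟨f, c⟩ _
      rfl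
  rw [← p3, Finset.prod_product] at p1
  have p4 : ∀ f ∈ sF, ∏ c ∈ sC, θ (f⁻¹ * c * f) v = v⁻¹ := by
    intro f _
    have q1 := prod_subgroup_eq_one θ hfix C hC (θ f v)
    have q2 : Finset.univ.filter (· ∈ C) = insert (1 : M) sC := by
      ext x
      simp only [hsC, Finset.mem_filter, Finset.mem_univ, true_and, Finset.mem_insert]
      constructor
      · intro h1
        by_cases h2 : x = 1
        · exact Or.inl h2
        · exact Or.inr ⟨h1, h2⟩
      · rintro (rfl | h1)
        · exact C.one_mem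
        · exact h1.1
    rw [q2, Finset.prod_insert (by simp [hsC])] at q1
    have q3 : ∏ c ∈ sC, θ c (θ f v) = (θ f v)⁻¹ := by
      rw [map_one, MulAut.one_apply] at q1
      exact eq_inv_of_mul_eq_one_right q1
    have q4 : ∏ c ∈ sC, θ (f⁻¹ * c * f) v = θ f⁻¹ (∏ c ∈ sC, θ c (θ f v)) := by
      rw [map_prod]
      apply Finset.prod_congr rfl
      intro c _
      rw [map_mul, map_mul]
      rfl
    rw [q4, q3, map_inv]
    congr 1
    rw [← MulAut.mul_apply, ← map_mul]
    simp
  rw [Finset.prod_congr rfl p4, Finset.prod_const] at p1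
  have hcard : sF.card = Nat.card F := by
    rw [Nat.card_eq_fintype_card, Fintype.card_subtype]
  rw [hcard, inv_pow, inv_eq_one] at p1
  exact p1

end sum

variable {G : Type*} [Group G]

theorem IsFrobenius.restrict {L F C : Subgroup G} (h : IsFrobenius L F C) :
    IsFrobenius (⊤ : Subgroup L) (F.subgroupOf L) (C.subgroupOf L) where
  kernel_le := le_top
  compl_le := le_top
  normal := by
    rintro ⟨g, hg⟩ - ⟨x, hx⟩ hxF
    exact h.normal g hg x hxF
  disjoint := by
    rw [eq_bot_iff]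
    rintro ⟨x, hx⟩ ⟨h1, h2⟩
    have : x = 1 := h.eq_one_of_mem h1 h2
    rw [mem_bot]
    exact Subtype.ext this
  mul := by
    rintro ⟨x, hx⟩ -
    obtain ⟨f, hf, c, hc, h1⟩ := h.mul x hx
    exact ⟨⟨f, h.kernel_le hf⟩, hf, ⟨c, h.compl_le hc⟩, hc, Subtype.ext h1⟩
  nontrivial := by
    intro h0
    obtain ⟨f, hf, hf1⟩ := (Subgroup.bot_or_exists_ne_one F).resolve_left h.nontrivial
    have : (⟨f, h.kernel_le hf⟩ : L) ∈ F.subgroupOf L := hf
    rw [h0, mem_bot] at this
    exact hf1 (congrArg Subtype.val this)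
  malnormal := by
    rintro ⟨g, hg⟩ - hgC ⟨x, hx⟩ hxC hxC'
    have : x = 1 := h.malnormal g hg hgC x hxC hxC'
    exact Subtype.ext this
  partition := by
    rintro ⟨x, hx⟩ -
    have := h.partition x hx
    constructor
    · rintro ⟨h1, h2⟩ ⟨g, hg⟩ -
      exact this.1 ⟨h1, fun h3 => h2 (Subtype.ext h3)⟩ g hg
    · intro h1
      have h2 := this.2 fun g hg => h1 ⟨g, hg⟩ (mem_top _)
      exact ⟨h2.1, fun h3 => h2.2 (congrArg Subtype.val h3)⟩

section finite

variable {X : Type*} [Group X] {F C : Subgroup X}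

/-- Elements outside the kernel act without fixed points on the kernel. -/
theorem IsFrobenius.fpf (h : IsFrobenius ⊤ F C) {x f : X} (hx : x ∉ F) (hf : f ∈ F)
    (hxf : x * f = f * x) : f = 1 := by
  have h1 : ¬ ∀ g ∈ (⊤ : Subgroup X), g * x * g⁻¹ ∉ C := by
    rw [← h.partition x (mem_top x)]
    exact fun h2 => hx h2.1
  push Not at h1
  obtain ⟨g, -, hg⟩ := h1
  have hf' : g * f * g⁻¹ ∈ F := h.normal' (mem_top g) hf
  have hcomm : (g * f * g⁻¹)⁻¹ * (g * x * g⁻¹) * (g * f * g⁻¹) = g * x * g⁻¹ := by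
    have : (g * f * g⁻¹)⁻¹ * (g * x * g⁻¹) * (g * f * g⁻¹) = g * (f⁻¹ * (x * f)) * g⁻¹ := by
      group
    rw [this, hxf]; group
  have hfC : g * f * g⁻¹ ∈ C := by
    by_contra h2
    have h3 := h.malnormal _ (mem_top _) h2 _ hg (by rw [hcomm]; exact hg)
    apply hx
    have : x = g⁻¹ * (g * x * g⁻¹) * g := by group
    rw [this, h3]
    simp
  have h3 := h.eq_one_of_mem hf' hfC
  have : f = g⁻¹ * (g * f * g⁻¹) * g := by group
  rw [this, h3]; group

theorem IsFrobenius.isComplement (h : IsFrobenius ⊤ F C) : IsComplement' F C := by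
  apply isComplement'_of_disjoint_and_mul_eq_univ (disjoint_iff.2 h.disjoint)
  rw [Set.eq_univ_iff_forall]
  intro x
  obtain ⟨f, hf, c, hc, hx⟩ := h.mul x (mem_top x)
  exact ⟨f, hf, c, hc, hx.symm⟩

theorem IsFrobenius.coprime [Finite X] (h : IsFrobenius ⊤ F C) : Nat.Coprime (Nat.card F) (Nat.card C) := by
  by_contra h0
  obtain ⟨p, hp, hpF, hpC⟩ := Nat.Prime.not_coprime_iff_dvd.1 h0
  have : Fact p.Prime := ⟨hp⟩
  obtain ⟨⟨c, hc⟩, hord⟩ := exists_prime_orderOf_dvd_card' p hpC
  have hord' : orderOf c = p := by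
    rw [← hord, ← Subgroup.orderOf_mk c hc]
  have hFn : F.Normal := ⟨fun n hn g => h.normal' (mem_top g) hn⟩
  let act : MulAction (zpowers c) F :=
    { smul := fun q f => ⟨(q : X) * f * (q : X)⁻¹, h.normal' (mem_top _) f.2⟩
      one_smul := by
        intro f
        apply Subtype.ext
        show ((1 : zpowers c) : X) * f * ((1 : zpowers c) : X)⁻¹ = f
        simp
      mul_smul := by
        intro q q' f
        apply Subtype.ext
        show ((q * q' : zpowers c) : X) * f * ((q * q' : zpowers c) : X)⁻¹ =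
          (q : X) * ((q' : X) * f * (q' : X)⁻¹) * (q : X)⁻¹
        rw [Subgroup.coe_mul]
        group }
  have hP : IsPGroup p (zpowers c) := by
    apply IsPGroup.of_card (n := 1)
    rw [Nat.card_zpowers, hord', pow_one]
  have hmod := hP.card_modEq_card_fixedPoints F
  have hfix : MulAction.fixedPoints (zpowers c) F = {1} := by
    ext f
    rw [MulAction.mem_fixedPoints, Set.mem_singleton_iff]
    constructor
    · intro h1
      have h2 := h1 ⟨c, mem_zpowers c⟩
      have h3 : c * (f : X) * c⁻¹ = f := congrArg Subtype.val h2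
      apply Subtype.ext
      refine h.fpf (x := c) ?_ f.2 ?_
      · intro h4
        have h5 := h.eq_one_of_mem h4 hc
        rw [h5, orderOf_one] at hord'
        exact hp.one_lt.ne hord'
      · calc c * (f : X) = (c * f * c⁻¹) * c := by group
          _ = f * c := by rw [h3]
    · rintro rfl q
      apply Subtype.ext
      show (q : X) * ((1 : F) : X) * (q : X)⁻¹ = ((1 : F) : X)
      simp
  rw [hfix] at hmod
  have h1 : Nat.card ({1} : Set F) = 1 := by simp
  rw [h1] at hmod
  have h2 : Nat.card F ≡ 0 [MOD p] := (Nat.modEq_zero_iff_dvd).2 hpF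
  have h3 : 1 ≡ 0 [MOD p] := hmod.symm.trans h2
  have h4 : p ∣ 1 := (Nat.modEq_zero_iff_dvd).1 h3
  exact hp.one_lt.ne' (Nat.dvd_one.1 h4)

/-- A complement of a finite Frobenius group contains no Frobenius group. -/
theorem no_frobenius [Finite X] {M F₁ C₁ : Subgroup X} (h : IsFrobenius ⊤ F C) (hM : M ≤ C)
    (h₁ : IsFrobenius M F₁ C₁) (hC₁ : C₁ ≠ ⊥) : False := by
  have hFn : F.Normal := ⟨fun n hn g => h.normal' (mem_top g) hn⟩
  -- a prime divisor of the order of the kernel
  have hF1 : Nat.card F ≠ 1 := by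
    intro h0
    exact h.nontrivial (Subgroup.eq_bot_of_card_eq F h0)
  obtain ⟨r, hr, hrF⟩ := Nat.exists_prime_and_dvd hF1
  have : Fact r.Prime := ⟨hr⟩
  let R : Sylow r F := default
  have hRbot : (R : Subgroup F) ≠ ⊥ := R.ne_bot_of_dvd_card hrF
  set R' : Subgroup X := (R : Subgroup F).map F.subtype with hR'
  have hR'F : R' ≤ F := by
    rintro _ ⟨x, -, rfl⟩
    exact x.2
  have hR'p : IsPGroup r R' := R.2.map F.subtype
  have hR'bot : R' ≠ ⊥ := by
    intro h0
    apply hRbot
    rwa [hR', Subgroup.map_eq_bot_iff_of_injective _ F.subtype_injective] at h0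
  have hfrat := R.normalizer_sup_eq_top
  rw [← hR'] at hfrat
  set Y := normalizer (R' : Set X) with hY
  -- Schur-Zassenhaus in the normalizer
  have hN0 : (F.subgroupOf Y).Normal := inferInstance
  have hcop : Nat.Coprime (Nat.card (F.subgroupOf Y)) (F.subgroupOf Y).index := by
    have d1 : Nat.card (F.subgroupOf Y) ∣ Nat.card F :=
      Subgroup.card_comap_dvd_of_injective F Y.subtype Y.subtype_injective
    have d2 : (F.subgroupOf Y).index ∣ F.index := Subgroup.relIndex_dvd_index_of_normal F Y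
    have d3 : F.index = Nat.card C := by
      rw [← h.isComplement.symm.index_eq_card]
    have := h.coprime
    rw [← d3] at this
    exact Nat.Coprime.coprime_dvd_left d1 (Nat.Coprime.coprime_dvd_right d2 this)
  obtain ⟨K0, hK0⟩ := Subgroup.exists_right_complement'_of_coprime hcop
  set K : Subgroup X := K0.map Y.subtype with hK
  have hKY : K ≤ Y := by
    rintro _ ⟨x, -, rfl⟩
    exact x.2
  have hKF : ∀ x ∈ K, x ∈ F → x = 1 := by
    rintro _ ⟨y, hy, rfl⟩ hyF
    have h2 : y ∈ F.subgroupOf Y ⊓ K0 := ⟨hyF, hy⟩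
    rw [hK0.disjoint.eq_bot] at h2
    have h3 : y = 1 := by simpa using h2
    rw [h3]; simp
  have hdec : ∀ x : X, ∃ k ∈ K, x * k⁻¹ ∈ F := by
    intro x
    have hx : x ∈ Y ⊔ F := by rw [hfrat]; exact mem_top x
    rw [sup_comm, Subgroup.mem_sup_of_normal_left] at hx
    obtain ⟨f, hf, y, hy, rfl⟩ := hx
    obtain ⟨⟨⟨n, hn⟩, ⟨k, hk⟩⟩, hnk⟩ := hK0.2 ⟨y, hy⟩
    simp only at hnk
    refine ⟨(k : X), ⟨k, hk, rfl⟩, ?_⟩
    have h2 : y = (n : X) * (k : X) := congrArg Subtype.val hnk.symm
    rw [h2]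
    have : f * ((n : X) * (k : X)) * (k : X)⁻¹ = f * n := by group
    rw [this]
    exact F.mul_mem hf hn
  choose κ hκK hκF using hdec
  have huniq : ∀ x k, k ∈ K → x * k⁻¹ ∈ F → κ x = k := by
    intro x k hk hxk
    have h2 : k * (κ x)⁻¹ ∈ F := by
      have := F.mul_mem (F.inv_mem hxk) (hκF x)
      have e : (x * k⁻¹)⁻¹ * (x * (κ x)⁻¹) = k * (κ x)⁻¹ := by group
      rwa [e] at this
    have h3 := hKF _ (K.mul_mem hk (K.inv_mem (hκK x))) h2
    rw [mul_inv_eq_one] at h3
    exact h3.symm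
  have hκ1 : κ 1 = 1 := huniq 1 1 K.one_mem (by simp)
  have hκmul : ∀ x y, κ (x * y) = κ x * κ y := by
    intro x y
    apply huniq _ _ (K.mul_mem (hκK x) (hκK y))
    have e : x * y * (κ x * κ y)⁻¹ = x * (y * (κ y)⁻¹) * x⁻¹ * (x * (κ x)⁻¹) := by group
    rw [e]
    exact F.mul_mem (h.normal' (mem_top x) (hκF y)) (hκF x)
  -- the abelian group `V`
  set V : Subgroup X := R' ⊓ centralizer (R' : Set X) with hV
  have hVY : ∀ k ∈ Y, ∀ v ∈ V, k * v * k⁻¹ ∈ V := by
    intro k hk v hv
    rw [hY, Subgroup.mem_normalizer_iff] at hk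
    refine Subgroup.mem_inf.2 ⟨(hk v).1 hv.1, ?_⟩
    rw [Subgroup.mem_centralizer_iff]
    intro w hw
    have h2 : k⁻¹ * w * k ∈ R' := by
      rw [SetLike.mem_coe] at hw
      have := (hk (k⁻¹ * w * k)).2
      apply this
      have e : k * (k⁻¹ * w * k) * k⁻¹ = w := by group
      have h3 : k * (k⁻¹ * w * k) * k⁻¹ ∈ R' := by rw [e]; exact hw
      exact h3
    have h3 := (Subgroup.mem_centralizer_iff.1 hv.2) _ h2
    have e1 : w * (k * v * k⁻¹) = k * ((k⁻¹ * w * k) * v) * k⁻¹ := by group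
    rw [e1, h3]; group
  let _inst : CommGroup V :=
    { (inferInstance : Group V) with
      mul_comm := by
        rintro ⟨v, hv⟩ ⟨w, hw⟩
        apply Subtype.ext
        show v * w = w * v
        exact (Subgroup.mem_centralizer_iff.1 hw.2) v hv.1 }
  -- the action of `M` on `V`
  let θ : M →* MulAut V :=
    { toFun := fun m =>
        { toFun := fun v => ⟨κ m * v * (κ m)⁻¹, hVY _ (hKY (hκK m)) _ v.2⟩
          invFun := fun v => ⟨(κ m)⁻¹ * v * κ m, by
            have := hVY _ (Y.inv_mem (hKY (hκK m))) _ v.2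
            simpa using this⟩
          left_inv := by
            intro v
            apply Subtype.ext
            simp [mul_assoc]
          right_inv := by
            intro v
            apply Subtype.ext
            simp [mul_assoc]
          map_mul' := by
            intro v w
            apply Subtype.ext
            show κ m * ((v : X) * w) * (κ m)⁻¹ = κ m * v * (κ m)⁻¹ * (κ m * w * (κ m)⁻¹)
            group }
      map_one' := by
        ext v
        show κ ((1 : M) : X) * (v : X) * (κ ((1 : M) : X))⁻¹ = v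
        rw [Subgroup.coe_one, hκ1]
        simp
      map_mul' := by
        intro m m'
        ext v
        show κ ((m * m' : M) : X) * (v : X) * (κ ((m * m' : M) : X))⁻¹ =
          κ m * (κ m' * v * (κ m')⁻¹) * (κ m)⁻¹
        rw [Subgroup.coe_mul, hκmul]
        group }
  have hθ : ∀ m : M, m ≠ 1 → ∀ v : V, θ m v = v → v = 1 := by
    intro m hm v hv
    have h2 : κ m * (v : X) * (κ m)⁻¹ = v := congrArg Subtype.val hv
    apply Subtype.ext
    refine h.fpf (x := κ m) ?_ (hR'F v.2.1) ?_
    · intro h3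
      apply hm
      have h4 : (m : X) ∈ F := by
        have := F.mul_mem (hκF m) h3
        simpa using this
      exact Subtype.ext (h.eq_one_of_mem h4 (hM m.2))
    · calc κ m * (v : X) = (κ m * v * (κ m)⁻¹) * κ m := by group
        _ = v * κ m := by rw [h2]
  have hC₁' : C₁.subgroupOf M ≠ ⊥ := by
    intro h0
    apply hC₁
    rw [eq_bot_iff]
    intro c hc
    have : (⟨c, h₁.compl_le hc⟩ : M) ∈ C₁.subgroupOf M := hc
    rw [h0, mem_bot] at this
    exact congrArg Subtype.val this
  have hsum := frob_sum θ hθ h₁.restrict hC₁'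
  -- a nontrivial element of `V`
  have hnt : Nontrivial R' := (Subgroup.nontrivial_iff_ne_bot R').2 hR'bot
  have hcn := hR'p.center_nontrivial
  obtain ⟨⟨z, hz⟩, hz1⟩ := exists_ne (1 : Subgroup.center R')
  have hzV : (z : X) ∈ V := by
    refine Subgroup.mem_inf.2 ⟨z.2, ?_⟩
    rw [Subgroup.mem_centralizer_iff]
    intro w hw
    have := (Subgroup.mem_center_iff.1 hz) ⟨w, hw⟩
    exact congrArg Subtype.val this
  have h5 := hsum ⟨z, hzV⟩
  have h5' : (z : X) ^ Nat.card (F₁.subgroupOf M) = 1 := by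
    have := congrArg Subtype.val h5
    simpa using this
  obtain ⟨n, hn⟩ := hR'p z
  have hn' : (z : X) ^ r ^ n = 1 := by
    have := congrArg Subtype.val hn
    simpa using this
  have hcop2 : Nat.Coprime (Nat.card (F₁.subgroupOf M)) (r ^ n) := by
    have d1 : Nat.card (F₁.subgroupOf M) ∣ Nat.card C :=
      (Subgroup.card_subgroup_dvd_card _).trans (Subgroup.card_dvd_of_le hM)
    have d2 : Nat.Coprime (Nat.card C) r :=
      (Nat.Coprime.coprime_dvd_left hrF h.coprime).symm
    exact Nat.Coprime.coprime_dvd_left d1 (Nat.Coprime.pow_right n d2)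
  have hz0 : (z : X) = 1 := by
    have d := Nat.dvd_gcd (orderOf_dvd_of_pow_eq_one h5') (orderOf_dvd_of_pow_eq_one hn')
    rw [hcop2] at d
    exact orderOf_eq_one_iff.1 (Nat.dvd_one.1 d)
  apply hz1
  apply Subtype.ext
  apply Subtype.ext
  exact hz0

end finite

end Pool.Agent.Lib.MP_d6b03d_al
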