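import Mathlib

/-!
# Frobenius groups with cyclic complement inside arbitrary groups
-/

namespace Pool.Agent.Lib.MP_d6b03d_al

variable {G : Type*} [Group G]

/-- The subgroup `L` of `G` is a Frobenius group with kernel `F` and complement `C`:
`L = F ⋊ C` with `F` normal in `L` and `F ≠ 1`; `C ∩ C^g = 1` for all `g ∈ L \ C`; and
`F \ {1} = L \ ⋃_{g ∈ L} C^g` (where `C^g = g⁻¹ C g`, so that `x ∈ C^g` iff `g x g⁻¹ ∈ C`). -/
structure IsFrobenius (L F C : Subgroup G) : Prop where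
  kernel_le : F ≤ L
  compl_le : C ≤ L
  normal : ∀ g ∈ L, ∀ x ∈ F, g⁻¹ * x * g ∈ F
  disjoint : F ⊓ C = ⊥
  mul : ∀ x ∈ L, ∃ f ∈ F, ∃ c ∈ C, x = f * c
  nontrivial : F ≠ ⊥
  malnormal : ∀ g ∈ L, g ∉ C → ∀ x ∈ C, g⁻¹ * x * g ∈ C → x = 1
  partition : ∀ x ∈ L, (x ∈ F ∧ x ≠ 1) ↔ ∀ g ∈ L, g * x * g⁻¹ ∉ C

/-- The union of the kernels of the Frobenius subgroups of `G` with complement `⟨a⟩`. -/
def U (a : G) : Set G :=
  {u | ∃ L F : Subgroup G, IsFrobenius L F (Subgroup.zpowers a) ∧ u ∈ F}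

/-- `y` is parallel to `x`. -/
def Par (x y : G) : Prop := x⁻¹ * y ∈ U x

namespace IsFrobenius

variable {L F C : Subgroup G} {x y : G}

theorem eq_one_of_mem (h : IsFrobenius L F C) (h1 : x ∈ F) (h2 : x ∈ C) : x = 1 := by
  have : x ∈ F ⊓ C := ⟨h1, h2⟩
  rw [h.disjoint] at this
  simpa using this

theorem normal' (h : IsFrobenius L F C) {g : G} (hg : g ∈ L) (hx : x ∈ F) : g * x * g⁻¹ ∈ F := by
  have := h.normal g⁻¹ (L.inv_mem hg) x hx
  simpa using this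

theorem map (h : IsFrobenius L F C) (e : G ≃* G) :
    IsFrobenius (L.map e.toMonoidHom) (F.map e.toMonoidHom) (C.map e.toMonoidHom) where
  kernel_le := Subgroup.map_mono h.kernel_le
  compl_le := Subgroup.map_mono h.compl_le
  normal := by
    rintro _ ⟨g, hg, rfl⟩ _ ⟨x, hx, rfl⟩
    exact ⟨g⁻¹ * x * g, h.normal g hg x hx, by simp⟩
  disjoint := by
    rw [eq_bot_iff]
    rintro _ ⟨⟨x, hx, rfl⟩, ⟨y, hy, hxy⟩⟩
    have : y = x := e.injective hxy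
    subst this
    rw [h.eq_one_of_mem hx hy]
    simp
  mul := by
    rintro _ ⟨x, hx, rfl⟩
    obtain ⟨f, hf, c, hc, rfl⟩ := h.mul x hx
    exact ⟨e f, ⟨f, hf, rfl⟩, e c, ⟨c, hc, rfl⟩, by simp⟩
  nontrivial := by
    intro h0
    apply h.nontrivial
    rw [Subgroup.map_eq_bot_iff_of_injective] at h0
    · exact h0
    · exact e.injective
  malnormal := by
    rintro _ ⟨g, hg, rfl⟩ hgC _ ⟨x, hx, rfl⟩ hx'
    have h1 : g ∉ C := fun h2 => hgC ⟨g, h2, rfl⟩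
    obtain ⟨y, hy, hxy⟩ := hx'
    have h3 : y = g⁻¹ * x * g := e.injective (by simpa using hxy)
    subst h3
    rw [h.malnormal g hg h1 x hx hy]
    simp
  partition := by
    rintro _ ⟨x, hx, rfl⟩
    have key := h.partition x hx
    have e1 : ((e.toMonoidHom x ∈ F.map e.toMonoidHom) ∧ e.toMonoidHom x ≠ 1) ↔
        (x ∈ F ∧ x ≠ 1) := by
      constructor
      · rintro ⟨⟨y, hy, hxy⟩, h2⟩
        have : y = x := e.injective hxy
        subst this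
        exact ⟨hy, fun h3 => h2 (by rw [h3]; simp)⟩
      · rintro ⟨h1, h2⟩
        refine ⟨⟨x, h1, rfl⟩, fun h3 => h2 (e.injective ?_)⟩
        simpa using h3
    rw [e1, key]
    constructor
    · rintro h1 _ ⟨g, hg, rfl⟩ ⟨y, hy, hxy⟩
      have h3 : y = g * x * g⁻¹ := e.injective (by simpa using hxy)
      subst h3
      exact h1 g hg hy
    · intro h1 g hg hy
      exact h1 (e g) ⟨g, hg, rfl⟩ ⟨_, hy, by simp⟩

theorem conj (h : IsFrobenius L F C) (u : G) :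
    IsFrobenius (L.map (MulAut.conj u).toMonoidHom) (F.map (MulAut.conj u).toMonoidHom)
      (C.map (MulAut.conj u).toMonoidHom) := h.map _

/-- Conjugates of powers of `x` modulo the kernel. -/
theorem conj_mem (h : IsFrobenius L F (Subgroup.zpowers x)) {g : G} (hg : g ∈ L) (m : ℤ) :
    (x ^ m)⁻¹ * (g⁻¹ * x ^ m * g) ∈ F := by
  have hx : x ∈ L := h.compl_le (Subgroup.mem_zpowers x)
  obtain ⟨f, hf, c, ⟨k, rfl⟩, rfl⟩ := h.mul g hg
  have hxk : x ^ k ∈ L := L.zpow_mem hx k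
  have hxm : x ^ m ∈ L := L.zpow_mem hx m
  -- (x^m)⁻¹ * (c⁻¹ f⁻¹ x^m f c) = c⁻¹ ((x^m)⁻¹ f⁻¹ x^m f) c
  have e1 : (x ^ m)⁻¹ * ((f * x ^ k)⁻¹ * x ^ m * (f * x ^ k)) =
      (x ^ k)⁻¹ * (((x ^ m)⁻¹ * f⁻¹ * x ^ m) * f) * x ^ k := by
    have hc : (x ^ m)⁻¹ * (x ^ k)⁻¹ = (x ^ k)⁻¹ * (x ^ m)⁻¹ := by
      rw [← mul_inv_rev, ← mul_inv_rev, ← zpow_add, ← zpow_add, add_comm]
    calc (x ^ m)⁻¹ * ((f * x ^ k)⁻¹ * x ^ m * (f * x ^ k))
        = ((x ^ m)⁻¹ * (x ^ k)⁻¹) * f⁻¹ * x ^ m * f * x ^ k := by group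
      _ = ((x ^ k)⁻¹ * (x ^ m)⁻¹) * f⁻¹ * x ^ m * f * x ^ k := by rw [hc]
      _ = _ := by group
  show (x ^ m)⁻¹ * ((f * x ^ k)⁻¹ * x ^ m * (f * x ^ k)) ∈ F
  rw [e1]
  exact h.normal _ hxk _ (F.mul_mem (h.normal _ hxm _ (F.inv_mem hf)) hf)

/-- An element which is congruent to `x ^ k ≠ 1` modulo the kernel is conjugate to `x ^ k`. -/
theorem exists_conj (h : IsFrobenius L F (Subgroup.zpowers x)) {k : ℤ} (hk : x ^ k ≠ 1)
    (hy : (x ^ k)⁻¹ * y ∈ F) : ∃ l ∈ L, y = l⁻¹ * x ^ k * l := by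
  have hx : x ∈ L := h.compl_le (Subgroup.mem_zpowers x)
  have hyL : y ∈ L := by
    have := L.mul_mem (L.zpow_mem hx k) (h.kernel_le hy)
    simpa using this
  have hyF : y ∉ F := by
    intro h1
    have h2 : x ^ k ∈ F := by
      have := F.mul_mem h1 (F.inv_mem hy)
      simpa [mul_assoc] using this
    exact hk (h.eq_one_of_mem h2 ⟨k, rfl⟩)
  have h3 : ¬ ∀ g ∈ L, g * y * g⁻¹ ∉ Subgroup.zpowers x := by
    rw [← h.partition y hyL]
    exact fun h4 => hyF h4.1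
  push Not at h3
  obtain ⟨g, hg, m, hm⟩ := h3
  simp only at hm
  have hy2 : y = g⁻¹ * x ^ m * g := by rw [hm]; group
  have h5 := h.conj_mem hg m
  rw [← hy2] at h5
  have h6 : (x ^ m)⁻¹ * x ^ k ∈ F := by
    have := F.mul_mem h5 (F.inv_mem hy)
    simpa [mul_assoc] using this
  have h7 : (x ^ m)⁻¹ * x ^ k = 1 :=
    h.eq_one_of_mem h6 (Subgroup.mul_mem _ (Subgroup.inv_mem _ ⟨m, rfl⟩) ⟨k, rfl⟩)
  have h8 : x ^ m = x ^ k := by
    rw [inv_mul_eq_one] at h7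
    exact h7
  exact ⟨g, hg, by rw [hy2, h8]⟩

end IsFrobenius

/-! ### The relation `Par` -/

theorem par_iff {x y : G} :
    Par x y ↔ ∃ L F : Subgroup G, IsFrobenius L F (Subgroup.zpowers x) ∧ x⁻¹ * y ∈ F := Iff.rfl

theorem U_conj {x u : G} (g : G) (h : u ∈ U x) : g * u * g⁻¹ ∈ U (g * x * g⁻¹) := by
  obtain ⟨L, F, h1, h2⟩ := h
  refine ⟨L.map (MulAut.conj g).toMonoidHom, F.map (MulAut.conj g).toMonoidHom, ?_, ?_⟩
  · have h3 := h1.conj g
    rw [MonoidHom.map_zpowers] at h3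
    simpa using h3
  · exact ⟨u, h2, by simp⟩

theorem Par.conj {x y : G} (h : Par x y) (g : G) : Par (g * x * g⁻¹) (g * y * g⁻¹) := by
  have := U_conj g h
  unfold Par
  convert this using 1
  group

theorem Par.conj' {x y : G} (h : Par x y) (g : G) : Par (g⁻¹ * x * g) (g⁻¹ * y * g) := by
  simpa using h.conj g⁻¹

theorem Par.symm {x y : G} (h : Par x y) (hx : x ≠ 1) : Par y x := by
  obtain ⟨L, F, h1, h2⟩ := h
  obtain ⟨l, hl, hy⟩ := h1.exists_conj (k := 1) (y := y) (by simpa using hx) (by simpa using h2)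
  rw [zpow_one] at hy
  have h3 := h1.conj l⁻¹
  have eL : L.map (MulAut.conj l⁻¹).toMonoidHom = L := by
    ext z
    constructor
    · rintro ⟨w, hw, rfl⟩
      simpa using L.mul_mem (L.mul_mem (L.inv_mem hl) hw) hl
    · intro hz
      exact ⟨l * z * l⁻¹, L.mul_mem (L.mul_mem hl hz) (L.inv_mem hl), by simp [mul_assoc]⟩
  have eF : F.map (MulAut.conj l⁻¹).toMonoidHom = F := by
    ext z
    constructor
    · rintro ⟨w, hw, rfl⟩
      simpa using h1.normal l hl w hw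
    · intro hz
      exact ⟨l * z * l⁻¹, h1.normal' hl hz, by simp [mul_assoc]⟩
  have eC : (Subgroup.zpowers x).map (MulAut.conj l⁻¹).toMonoidHom = Subgroup.zpowers y := by
    rw [MonoidHom.map_zpowers, hy]
    simp
  rw [eL, eF, eC] at h3
  refine ⟨L, F, h3, ?_⟩
  have := F.inv_mem h2
  simpa using this

/-- WORD LEMMA. -/
theorem Par.word {x y : G} (h : Par x y) (hx : x ≠ 1) (p q : ℤ) (hpq : x ^ (p + q) ≠ 1) :
    ∃ t, IsConj x t ∧ Par x t ∧ x ^ p * y ^ q = t ^ (p + q) := by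
  obtain ⟨L, F, h1, h2⟩ := h
  obtain ⟨l, hl, hy⟩ := h1.exists_conj (k := 1) (y := y) (by simpa using hx) (by simpa using h2)
  rw [zpow_one] at hy
  have hyq : y ^ q = l⁻¹ * x ^ q * l := by
    rw [hy]
    have : l⁻¹ * x * l = MulAut.conj l⁻¹ x := by simp
    rw [this, ← map_zpow]
    simp
  have h3 : (x ^ (p + q))⁻¹ * (x ^ p * y ^ q) ∈ F := by
    have e1 : (x ^ (p + q))⁻¹ * (x ^ p * y ^ q) = (x ^ q)⁻¹ * y ^ q := by
      rw [zpow_add]
      group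
    rw [e1, hyq]
    exact h1.conj_mem hl q
  obtain ⟨g, hg, h4⟩ := h1.exists_conj hpq h3
  refine ⟨g⁻¹ * x * g, ?_, ?_, ?_⟩
  · rw [isConj_iff]
    exact ⟨g⁻¹, by simp⟩
  · refine ⟨L, F, h1, ?_⟩
    have := h1.conj_mem hg 1
    simpa using this
  · rw [h4]
    have : g⁻¹ * x * g = MulAut.conj g⁻¹ x := by simp
    rw [this, ← map_zpow]
    simp

/-- The word lemma for exponent sum zero. -/
theorem Par.word0 {x y : G} (h : Par x y) (hx : x ≠ 1) (p : ℤ) :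
    x ^ p * y ^ (-p) ∈ U x := by
  obtain ⟨L, F, h1, h2⟩ := h
  obtain ⟨l, hl, hy⟩ := h1.exists_conj (k := 1) (y := y) (by simpa using hx) (by simpa using h2)
  rw [zpow_one] at hy
  have hyq : y ^ (-p) = l⁻¹ * x ^ (-p) * l := by
    rw [hy]
    have : l⁻¹ * x * l = MulAut.conj l⁻¹ x := by simp
    rw [this, ← map_zpow]
    simp
  refine ⟨L, F, h1, ?_⟩
  have e1 : x ^ p * y ^ (-p) = (x ^ (-p))⁻¹ * y ^ (-p) := by
    rw [zpow_neg x, inv_inv]
  rw [e1, hyq]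
  exact h1.conj_mem hl (-p)

theorem Par.pow_eq {x y : G} (h : Par x y) (hx : x ≠ 1) {i j : ℤ} (hij : x ^ i = y ^ j) :
    x ^ i = 1 ∨ x ^ (i - j) = 1 := by
  obtain ⟨L, F, h1, h2⟩ := h
  obtain ⟨l, hl, hy⟩ := h1.exists_conj (k := 1) (y := y) (by simpa using hx) (by simpa using h2)
  rw [zpow_one] at hy
  have hyj : y ^ j = l⁻¹ * x ^ j * l := by
    rw [hy]
    have : l⁻¹ * x * l = MulAut.conj l⁻¹ x := by simp
    rw [this, ← map_zpow]
    simp
  by_cases hlC : l ∈ Subgroup.zpowers x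
  · right
    obtain ⟨m, rfl⟩ := hlC
    simp only at hyj
    have e1 : (x ^ m)⁻¹ * x ^ j * x ^ m = x ^ j := by
      rw [← zpow_neg, ← zpow_add, ← zpow_add]
      congr 1
      ring
    rw [e1] at hyj
    rw [zpow_sub, hij, hyj]
    simp
  · left
    have := h1.malnormal l hl hlC (x ^ j) ⟨j, rfl⟩ (by rw [← hyj, ← hij]; exact ⟨i, rfl⟩)
    rw [hij, hyj, this]
    simp

end Pool.Agent.Lib.MP_d6b03d_al
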