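import Pool.Agent.Lib.MP_d6b03d_al.Stmts

/-!
MP_d6b03d_al, module P6: general position, one side.
-/

set_option autoImplicit false

namespace Pool.Agent.D6b

open Multiplicative

namespace GenSide

theorem mem_Xn {G : Type} [Group G] (t : G) (X : Subgroup G) (M j : ℕ) (hj : j ≤ M) (x : G)
    (hx : x ∈ X) : t ^ (j : ℤ) * x * (t ^ (j : ℤ))⁻¹ ∈ Xn t X M := by
  induction M generalizing j with
  | zero =>
    have : j = 0 := by omega
    subst this
    simpa [Xn] using hx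
  | succ M ih =>
    rcases Nat.lt_or_ge M j with h | h
    · have hj' : j = M + 1 := by omega
      subst hj'
      refine Subgroup.mem_sup_right ?_
      refine ⟨t ^ (M : ℤ) * x * (t ^ (M : ℤ))⁻¹, ih M le_rfl, ?_⟩
      simp only [MulEquiv.toMonoidHom_eq_coe, MonoidHom.coe_coe, MulAut.conj_apply]
      rw [show ((M + 1 : ℕ) : ℤ) = 1 + (M : ℤ) by push_cast; ring, zpow_add, zpow_one, mul_inv_rev]
      simp only [mul_assoc]
    · exact Subgroup.mem_sup_left (ih j h)

theorem fix_conj (h0 : StBasic) {G : Type} [Group G] (X : Subgroup G) (t : G)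
    (η : G →* Multiplicative ℤ) (g : G) (e i : ℤ) :
    (t ^ e * g * (t ^ e)⁻¹) • vx t X i = vx t X i ↔ g • vx t X (i - e) = vx t X (i - e) := by
  have hT := (h0 G X t η).2.2.2.1
  have h1 : vx t X i = t ^ e • vx t X (i - e) := by
    rw [hT]
    congr 1
    ring
  rw [h1, mul_smul, mul_smul, inv_smul_smul]
  exact smul_left_cancel_iff _

end GenSide

open GenSide in
theorem stGenSide (h0 : StBasic) (h3 : StFixInt) (h4 : StExit) (h5 : StFreeY) : StGenSide := by
  intro G _ X t η D Nn hGH k hk u hu hkN huN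
  obtain ⟨a, b, hab⟩ := h3 G X t η D Nn hGH k hk hkN
  obtain ⟨a', b', hab'⟩ := h3 G X t η D Nn hGH u hu huN
  have hmem := (h0 G X t η).2.2.2.2.1
  set r : ℕ := a + b with hr
  set k₀ : G := t ^ (-(b : ℤ)) * k * (t ^ (-(b : ℤ)))⁻¹ with hk0
  set K : ℤ → G := fun j => t ^ j * k₀ * (t ^ j)⁻¹ with hK
  set U : ℤ → G := fun j => t ^ j * u * (t ^ j)⁻¹ with hU
  have hk0fix : ∀ i : ℤ, k₀ • vx t X i = vx t X i ↔ (-(r : ℤ) ≤ i ∧ i ≤ 0) := by
    intro i
    rw [hk0, fix_conj h0 X t η, hab]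
    omega
  have hKfix : ∀ j i : ℤ, K j • vx t X i = vx t X i ↔ (j - r ≤ i ∧ i ≤ j) := by
    intro j i
    rw [hK]
    simp only
    rw [fix_conj h0 X t η, hk0fix]
    omega
  have hUfix : ∀ j i : ℤ, U j • vx t X i = vx t X i ↔ (j - a' ≤ i ∧ i ≤ j + b') := by
    intro j i
    rw [hU]
    simp only
    rw [fix_conj h0 X t η, hab']
    omega
  have hk0X : k₀ ∈ X := by
    have h1 := (hk0fix 0).mpr (by omega)
    have h2 := (hmem k₀ 1).mp (by simpa [vx] using h1)
    simpa using h2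
  set Q : ℕ := 10 * (D + r + a' + b' + 1) with hQ
  have hKXn : ∀ (M j : ℕ), j ≤ M → K j ∈ Xn t X M := fun M j hj => mem_Xn t X M j hj k₀ hk0X
  have hUXn : ∀ (M j : ℕ), j ≤ M → U j ∈ Xn t X M := fun M j hj => mem_Xn t X M j hj u hu
  have hk0Xn : ∀ M : ℕ, k₀ ∈ Xn t X M := by
    intro M
    have := hKXn M 0 (Nat.zero_le _)
    simpa [hK] using this
  have hKM : ∀ j : ℤ, K j ∈ Mcl t k := by
    intro j
    refine Subgroup.subset_closure ⟨j - b, ?_⟩
    simp only [hK, hk0]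
    rw [sub_eq_add_neg, zpow_add]
    group
  have hk0M : k₀ ∈ Mcl t k := by
    have := hKM 0
    simpa [hK] using this
  -- the three words
  set y₁ : G := K (10 * Q : ℕ) * K (13 * Q : ℕ) * K (16 * Q + r : ℕ) with hy1
  set y₂ : G := K (20 * Q : ℕ) * U (23 * Q : ℕ) * K (26 * Q + r : ℕ) with hy2
  set y₃ : G := K (30 * Q : ℕ) * K (33 * Q : ℕ) * K (36 * Q + r : ℕ) with hy3
  have e1 := h4 G X t η hGH.td (K (10 * Q : ℕ)) (K (13 * Q : ℕ)) (K (16 * Q + r : ℕ))
    (10 * Q - r) (10 * Q) (13 * Q - r) (13 * Q) (16 * Q) (16 * Q + r)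
    (fun i => by rw [hKfix]; omega) (fun i => by rw [hKfix]; omega)
    (fun i => by rw [hKfix]; omega) (by omega) (by omega) (by omega) (by omega) (by omega)
    (by omega)
  have e2 := h4 G X t η hGH.td (K (20 * Q : ℕ)) (U (23 * Q : ℕ)) (K (26 * Q + r : ℕ))
    (20 * Q - r) (20 * Q) (23 * Q - a') (23 * Q + b') (26 * Q) (26 * Q + r)
    (fun i => by rw [hKfix]; omega) (fun i => by rw [hUfix]; omega)
    (fun i => by rw [hKfix]; omega) (by omega) (by omega) (by omega) (by omega) (by omega)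
    (by omega)
  have e3 := h4 G X t η hGH.td (K (30 * Q : ℕ)) (K (33 * Q : ℕ)) (K (36 * Q + r : ℕ))
    (30 * Q - r) (30 * Q) (33 * Q - r) (33 * Q) (36 * Q) (36 * Q + r)
    (fun i => by rw [hKfix]; omega) (fun i => by rw [hKfix]; omega)
    (fun i => by rw [hKfix]; omega) (by omega) (by omega) (by omega) (by omega) (by omega)
    (by omega)
  rw [← hy1] at e1
  rw [← hy2] at e2
  rw [← hy3] at e3
  have F := h5 G X t η D Nn hGH (Fin 3) k₀ ![y₁, y₂, y₃]
    ![2 * (16 * Q), 2 * (26 * Q), 2 * (36 * Q)]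
    (fun i e => cond e ((![10 * Q, 20 * Q, 30 * Q] : Fin 3 → ℕ) i)
      ((![16 * Q, 26 * Q, 36 * Q] : Fin 3 → ℕ) i))
    ((hk0fix 0).mpr (by omega))
    (fun h => by
      have := (hk0fix 1).mp h
      omega)
    (by
      intro i m
      fin_cases i
      · simpa using e1.1 m
      · simpa using e2.1 m
      · simpa using e3.1 m)
    (by
      intro i m
      fin_cases i
      · have := e1.2 m
        simp only [Fin.zero_eta, Fin.isValue, Matrix.cons_val_zero, cond_false]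
        rw [this]
        omega
      · have := e2.2 m
        simp only [Fin.mk_one, Fin.isValue, Matrix.cons_val_one, Matrix.cons_val_zero, cond_false]
        rw [this]
        omega
      · have := e3.2 m
        simp only [Fin.reduceFinMk, Matrix.cons_val, cond_false]
        rw [this]
        omega)
    (by
      intro i e
      fin_cases i <;> cases e <;> simp <;> omega)
    (by
      intro i
      fin_cases i <;> simp <;> omega)
    (by
      intro i e j d
      fin_cases i <;> fin_cases j <;> cases e <;> cases d <;> simp)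
  refine ⟨k₀ * y₁ * k₀⁻¹, k₀ * y₂ * k₀⁻¹, k₀ * y₃ * k₀⁻¹, 37 * Q + r, ?_, ?_, ?_, ?_, ?_, ?_, ?_⟩
  · exact mul_mem (mul_mem (hk0Xn _) (mul_mem (mul_mem (hKXn _ _ (by omega)) (hKXn _ _ (by omega)))
      (hKXn _ _ (by omega)))) (inv_mem (hk0Xn _))
  · exact mul_mem (mul_mem (hk0Xn _) (mul_mem (mul_mem (hKXn _ _ (by omega)) (hUXn _ _ (by omega)))
      (hKXn _ _ (by omega)))) (inv_mem (hk0Xn _))
  · exact mul_mem (mul_mem (hk0Xn _) (mul_mem (mul_mem (hKXn _ _ (by omega)) (hKXn _ _ (by omega)))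
      (hKXn _ _ (by omega)))) (inv_mem (hk0Xn _))
  · exact mul_mem (mul_mem hk0M (mul_mem (mul_mem (hKM _) (hKM _)) (hKM _))) (inv_mem hk0M)
  · exact mul_mem (mul_mem hk0M (mul_mem (mul_mem (hKM _) (hKM _)) (hKM _))) (inv_mem hk0M)
  · refine ⟨k₀ * K (20 * Q : ℕ), mul_mem hk0M (hKM _), K (26 * Q + r : ℕ) * k₀⁻¹,
      mul_mem (hKM _) (inv_mem hk0M), ((23 * Q : ℕ) : ℤ), ?_⟩
    rw [hy2]
    simp only [hU]
    group
  · intro M
    have hF := F M
    have hEq : (fun i => k₀ * (![y₁, y₂, y₃] : Fin 3 → G) i * k₀⁻¹) =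
        ![k₀ * y₁ * k₀⁻¹, k₀ * y₂ * k₀⁻¹, k₀ * y₃ * k₀⁻¹] := by
      funext i
      fin_cases i <;> rfl
    rw [hEq] at hF
    exact hF

end Pool.Agent.D6b
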