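import Pool.Agent.Lib.MP_d6b03d_al.FrobBasic

/-!
# The union of the kernels is a subgroup if `H` centralises or inverts `a`
-/

namespace Pool.Agent.Lib.MP_d6b03d_al

variable {G : Type*} [Group G]

/-- Hypotheses: every element of `H` centralises or inverts `a`, complements lie in `H`. -/
structure Hyp (H : Subgroup G) (a : G) : Prop where
  mem : a ∈ H
  proper : H ≠ ⊤
  sq : a ^ 2 ≠ 1
  inv : ∀ h ∈ H, h⁻¹ * a * h = a ∨ h⁻¹ * a * h = a⁻¹
  frob : ∀ g ∉ H, ∃ F C : Subgroup G,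
    IsFrobenius (Subgroup.closure {a, g⁻¹ * a * g}) F C ∧ a ∈ C ∧ C ≤ H

variable {H : Subgroup G} {a : G}

namespace Hyp

theorem ne_one (h : Hyp H a) : a ≠ 1 := by
  intro h0
  apply h.sq
  rw [h0]; simp

theorem conj_notMem (h : Hyp H a) {y : G} (hy : y ∉ H) : y⁻¹ * a * y ∉ H := by
  intro hc
  obtain ⟨F, C, h1, haC, -⟩ := h.frob y hy
  obtain ⟨f, hf, hf1⟩ := (Subgroup.bot_or_exists_ne_one F).resolve_left h1.nontrivial
  have hfL := h1.kernel_le hf
  have hle : Subgroup.closure {a, y⁻¹ * a * y} ≤ H := by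
    rw [Subgroup.closure_le]
    rintro z (rfl | hz)
    · exact h.mem
    · rw [Set.mem_singleton_iff] at hz
      rw [hz]; exact hc
  have hfC : f ∉ C := fun h2 => hf1 (h1.eq_one_of_mem hf h2)
  have h3 : f⁻¹ * a * f ∈ C := by
    rcases h.inv f (hle hfL) with h4 | h4
    · rw [h4]; exact haC
    · rw [h4]; exact C.inv_mem haC
  exact h.ne_one (h1.malnormal f hfL hfC a haC h3)

theorem exists_conj (h : Hyp H a) {g : G} {L F C : Subgroup G}
    (h1 : IsFrobenius L F C) (hC : C ≤ H) (hb : g⁻¹ * a * g ∈ L) (hbF : g⁻¹ * a * g ∉ F) :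
    ∃ x ∈ L, g⁻¹ * a * g = x⁻¹ * a * x ∨
      (g⁻¹ * a * g = x⁻¹ * a⁻¹ * x ∧ ∃ k ∈ H, k⁻¹ * a * k = a⁻¹) := by
  have h2 : ¬ ∀ x ∈ L, x * (g⁻¹ * a * g) * x⁻¹ ∉ C := by
    rw [← h1.partition _ hb]
    exact fun h3 => hbF h3.1
  push Not at h2
  obtain ⟨x, hx, hxC⟩ := h2
  have h3 : (g * x⁻¹)⁻¹ * a * (g * x⁻¹) ∈ H := by
    have : (g * x⁻¹)⁻¹ * a * (g * x⁻¹) = x * (g⁻¹ * a * g) * x⁻¹ := by group
    rw [this]
    exact hC hxC
  have h4 : g * x⁻¹ ∈ H := by
    by_contra h5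
    exact h.conj_notMem h5 h3
  refine ⟨x, hx, ?_⟩
  have e1 : g⁻¹ * a * g = x⁻¹ * ((g * x⁻¹)⁻¹ * a * (g * x⁻¹)) * x := by group
  rcases h.inv _ h4 with h5 | h5
  · left
    rw [e1, h5]
  · right
    refine ⟨?_, _, h4, h5⟩
    rw [e1, h5]

end Hyp

/-- The subgroup `F ⟨a⟩`. -/
def ext {L F C : Subgroup G} (h : IsFrobenius L F C) (a : G) (ha : a ∈ L) : Subgroup G where
  carrier := {y | ∃ f ∈ F, ∃ k : ℤ, y = f * a ^ k}
  mul_mem' := by
    rintro _ _ ⟨f, hf, k, rfl⟩ ⟨f', hf', k', rfl⟩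
    refine ⟨f * (a ^ k * f' * (a ^ k)⁻¹), F.mul_mem hf (h.normal' (L.zpow_mem ha k) hf'),
      k + k', ?_⟩
    rw [zpow_add]
    group
  one_mem' := ⟨1, F.one_mem, 0, by simp⟩
  inv_mem' := by
    rintro _ ⟨f, hf, k, rfl⟩
    refine ⟨(a ^ k)⁻¹ * f⁻¹ * a ^ k, h.normal _ (L.zpow_mem ha k) _ (F.inv_mem hf), -k, ?_⟩
    rw [zpow_neg]
    group

theorem compl_eq {L F C : Subgroup G} (h : IsFrobenius L F C) {b : G} (haC : a ∈ C)
    (hL : L = Subgroup.closure {a, b}) (hb : ∃ f ∈ F, ∃ k : ℤ, b = f * a ^ k) :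
    C = Subgroup.zpowers a := by
  have ha : a ∈ L := h.compl_le haC
  have hle : L ≤ ext h a ha := by
    conv_lhs => rw [hL]
    rw [Subgroup.closure_le]
    rintro z (rfl | hz)
    · exact ⟨1, F.one_mem, 1, by simp⟩
    · rw [Set.mem_singleton_iff] at hz
      rw [hz]; exact hb
  apply le_antisymm
  · intro c hc
    obtain ⟨f, hf, k, hk⟩ := hle (h.compl_le hc)
    have h2 : f ∈ C := by
      have : f = c * (a ^ k)⁻¹ := by rw [hk]; group
      rw [this]
      exact C.mul_mem hc (C.inv_mem (C.zpow_mem haC k))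
    have h3 : f = 1 := h.eq_one_of_mem hf h2
    exact ⟨k, by simp [hk, h3]⟩
  · rw [Subgroup.zpowers_le]
    exact haC

namespace Hyp

/-- The complement of `⟨a, a^g⟩` is `⟨a⟩`. -/
theorem compl (h : Hyp H a) {g : G} {F C : Subgroup G}
    (h1 : IsFrobenius (Subgroup.closure {a, g⁻¹ * a * g}) F C) (haC : a ∈ C) (hC : C ≤ H) :
    C = Subgroup.zpowers a := by
  refine compl_eq h1 haC rfl ?_
  by_cases hbF : g⁻¹ * a * g ∈ F
  · exact ⟨_, hbF, 0, by simp⟩
  have hbL : g⁻¹ * a * g ∈ Subgroup.closure {a, g⁻¹ * a * g} :=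
    Subgroup.subset_closure (by simp)
  have haL : a ∈ Subgroup.closure {a, g⁻¹ * a * g} := h1.compl_le haC
  obtain ⟨x, hx, h2⟩ := h.exists_conj h1 hC hbL hbF
  obtain ⟨f, hf, c, hc, rfl⟩ := h1.mul x hx
  -- general computation
  have key : ∀ e : ℤ, ∃ f' ∈ F, (f * c)⁻¹ * a ^ e * (f * c) = f' * (c⁻¹ * a ^ e * c) := by
    intro e
    refine ⟨c⁻¹ * (f⁻¹ * (a ^ e * f * (a ^ e)⁻¹)) * c, ?_, by group⟩
    exact h1.normal c (h1.compl_le hc) _
      (F.mul_mem (F.inv_mem hf) (h1.normal' (Subgroup.zpow_mem _ haL e) hf))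
  have hcc : ∀ e : ℤ, ∃ k : ℤ, c⁻¹ * a ^ e * c = a ^ k := by
    intro e
    have e1 : c⁻¹ * a ^ e * c = (c⁻¹ * a * c) ^ e := by
      have : c⁻¹ * a * c = MulAut.conj c⁻¹ a := by simp
      rw [this, ← map_zpow]
      simp
    rcases h.inv c (hC hc) with h3 | h3
    · exact ⟨e, by rw [e1, h3]⟩
    · exact ⟨-e, by rw [e1, h3, inv_zpow, zpow_neg]⟩
  rcases h2 with h2 | ⟨h2, -⟩
  · obtain ⟨f', hf', h3⟩ := key 1
    obtain ⟨k, hk⟩ := hcc 1
    refine ⟨f', hf', k, ?_⟩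
    rw [h2, ← hk, ← h3, zpow_one]
  · obtain ⟨f', hf', h3⟩ := key (-1)
    obtain ⟨k, hk⟩ := hcc (-1)
    refine ⟨f', hf', k, ?_⟩
    rw [h2, ← hk, ← h3, zpow_neg_one]

theorem closure_conj (a g : G) :
    (Subgroup.closure {a, g⁻¹⁻¹ * a * g⁻¹}).map (MulAut.conj g⁻¹).toMonoidHom =
      Subgroup.closure {a, g⁻¹ * a * g} := by
  rw [MonoidHom.map_closure]
  congr 1
  ext z
  simp only [inv_inv, Set.image_pair, Set.mem_insert_iff, Set.mem_singleton_iff,
    MulEquiv.toMonoidHom_eq_coe, MonoidHom.coe_coe, MulAut.conj_apply]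
  have e1 : g⁻¹ * (g * a * g⁻¹) * g = a := by group
  rw [e1, or_comm]

/-- For `g ∉ H` the group `⟨a, a^g⟩` is Frobenius with complement `⟨a⟩` and `a^g` is not in the
kernel. -/
theorem frob' (h : Hyp H a) {g : G} (hg : g ∉ H) : ∃ F : Subgroup G,
    IsFrobenius (Subgroup.closure {a, g⁻¹ * a * g}) F (Subgroup.zpowers a) ∧
      g⁻¹ * a * g ∉ F := by
  obtain ⟨F, C, h1, haC, hCH⟩ := h.frob g hg
  have hC := h.compl h1 haC hCH
  subst hC
  refine ⟨F, h1, fun hbF => ?_⟩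
  have haL : a ∈ Subgroup.closure {a, g⁻¹ * a * g} := h1.compl_le haC
  have hbL : g⁻¹ * a * g ∈ Subgroup.closure {a, g⁻¹ * a * g} :=
    Subgroup.subset_closure (by simp)
  have haF : a ∉ F := fun h2 => h.ne_one (h1.eq_one_of_mem h2 haC)
  have hg' : g⁻¹ ∉ H := fun h2 => hg (by simpa using H.inv_mem h2)
  obtain ⟨F', C', h1', haC', hCH'⟩ := h.frob g⁻¹ hg'
  have hC' := h.compl h1' haC' hCH'
  subst hC'
  by_cases hbF' : g⁻¹⁻¹ * a * g⁻¹ ∈ F'
  · have h3 := h1'.conj g⁻¹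
    rw [closure_conj, MonoidHom.map_zpowers] at h3
    have e1 : (MulAut.conj g⁻¹).toMonoidHom a = g⁻¹ * a * g := by simp
    rw [e1] at h3
    set F2 := F'.map (MulAut.conj g⁻¹).toMonoidHom with hF2
    have haF2 : a ∈ F2 := ⟨_, hbF', by simp [mul_assoc]⟩
    have hbF2 : g⁻¹ * a * g ∉ F2 := by
      intro h4
      have h5 := h3.eq_one_of_mem h4 (Subgroup.mem_zpowers _)
      apply h.ne_one
      have : a = g * (g⁻¹ * a * g) * g⁻¹ := by group
      rw [this, h5]; group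
    have hab : a * (g⁻¹ * a * g) ∉ F := by
      intro h4
      apply haF
      have := F.mul_mem h4 (F.inv_mem hbF)
      simpa [mul_assoc] using this
    have hab2 : a * (g⁻¹ * a * g) ∈ F2 := by
      have h5 : ∀ y ∈ Subgroup.closure {a, g⁻¹ * a * g},
          y * (a * (g⁻¹ * a * g)) * y⁻¹ ∉ Subgroup.zpowers (g⁻¹ * a * g) := by
        intro y hy h6
        have h7 : Subgroup.zpowers (g⁻¹ * a * g) ≤ F := by
          rw [Subgroup.zpowers_le]; exact hbF
        apply hab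
        have h8 := h1.normal y hy _ (h7 h6)
        simpa [mul_assoc] using h8
      exact ((h3.partition _ (Subgroup.mul_mem _ haL hbL)).2 h5).1
    apply hbF2
    have := F2.mul_mem (F2.inv_mem haF2) hab2
    simpa [mul_assoc] using this
  · obtain ⟨x, hx, h2⟩ := h.exists_conj (g := g⁻¹) h1' hCH'
      (Subgroup.subset_closure (by simp)) hbF'
    have hy : g⁻¹ * x * g ∈ Subgroup.closure {a, g⁻¹ * a * g} := by
      rw [← closure_conj]
      exact ⟨x, hx, by simp⟩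
    apply haF
    rcases h2 with h2 | ⟨h2, -⟩
    · have e2 : a = (g⁻¹ * x * g)⁻¹ * (g⁻¹ * a * g) * (g⁻¹ * x * g) := by
        have : a = g⁻¹ * (g⁻¹⁻¹ * a * g⁻¹) * g := by group
        rw [h2] at this
        conv_lhs => rw [this]
        group
      rw [e2]
      exact h1.normal _ hy _ hbF
    · have e2 : a = (g⁻¹ * x * g)⁻¹ * (g⁻¹ * a * g)⁻¹ * (g⁻¹ * x * g) := by
        have : a = g⁻¹ * (g⁻¹⁻¹ * a * g⁻¹) * g := by group
        rw [h2] at this
        conv_lhs => rw [this]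
        group
      rw [e2]
      exact h1.normal _ hy _ (F.inv_mem hbF)

theorem par_self (h : Hyp H a) : Par a a := by
  obtain ⟨g, hg⟩ : ∃ g, g ∉ H := by
    by_contra h0
    push Not at h0
    exact h.proper (eq_top_iff.2 fun x _ => h0 x)
  obtain ⟨F, h1, -⟩ := h.frob' hg
  exact ⟨_, F, h1, by simp⟩

/-- Two conjugates of `a` are parallel up to a sign. -/
theorem par_or (h : Hyp H a) {x y : G} (hx : IsConj a x) (hy : IsConj a y) :
    Par x y ∨ (Par x y⁻¹ ∧ IsConj a y⁻¹ ∧ ∃ k ∈ H, k⁻¹ * a * k = a⁻¹) := by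
  obtain ⟨u, rfl⟩ := isConj_iff.1 hx
  obtain ⟨v, rfl⟩ := isConj_iff.1 hy
  have e1 : v * a * v⁻¹ = u * ((v⁻¹ * u)⁻¹ * a * (v⁻¹ * u)) * u⁻¹ := by group
  by_cases hg : v⁻¹ * u ∈ H
  · rcases h.inv _ hg with h2 | h2
    · left
      rw [e1, h2]
      exact h.par_self.conj u
    · right
      have e2 : (v * a * v⁻¹)⁻¹ = u * a * u⁻¹ := by
        rw [e1, h2]; group
      rw [e2]
      exact ⟨h.par_self.conj u, hx, _, hg, h2⟩
  · obtain ⟨F, h1, hbF⟩ := h.frob' hg
    obtain ⟨z, hz, h3⟩ := h.exists_conj h1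
      (by rw [Subgroup.zpowers_le]; exact h.mem) (Subgroup.subset_closure (by simp)) hbF
    rcases h3 with h3 | ⟨h3, h4⟩
    · left
      rw [e1]
      refine Par.conj ?_ u
      refine ⟨_, F, h1, ?_⟩
      have := h1.conj_mem hz 1
      rw [h3]
      simpa using this
    · right
      have e2 : (v * a * v⁻¹)⁻¹ = u * (z⁻¹ * a * z) * u⁻¹ := by
        rw [e1, h3]; group
      refine ⟨?_, ?_, h4⟩
      · rw [e2]
        refine Par.conj ?_ u
        refine ⟨_, F, h1, ?_⟩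
        have := h1.conj_mem hz 1
        simpa using this
      · rw [e2, isConj_iff]
        exact ⟨u * z⁻¹, by group⟩

end Hyp

theorem pow_conj {x : G} (hx : IsConj a x) (k : ℤ) : x ^ k = 1 ↔ a ^ k = 1 := by
  obtain ⟨u, rfl⟩ := isConj_iff.1 hx
  have : u * a * u⁻¹ = MulAut.conj u a := by simp
  rw [this, ← map_zpow]
  simp

namespace Hyp

theorem pow_eq (h : Hyp H a) {u v : G} (hu : IsConj a u) (hv : IsConj a v) {i j : ℤ}
    (hij : u ^ i = v ^ j) : a ^ i = 1 ∨ a ^ (i - j) = 1 ∨ a ^ (i + j) = 1 := by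
  have hu1 : u ≠ 1 := by
    intro h0
    have := (pow_conj hu 1).1 (by simpa using h0)
    exact h.ne_one (by simpa using this)
  rcases h.par_or hu hv with h1 | ⟨h1, -, -⟩
  · rcases h1.pow_eq hu1 hij with h2 | h2
    · left; exact (pow_conj hu i).1 h2
    · right; left; exact (pow_conj hu _).1 h2
  · have hij' : u ^ i = (v⁻¹) ^ (-j) := by simp [hij]
    rcases h1.pow_eq hu1 hij' with h2 | h2
    · left; exact (pow_conj hu i).1 h2
    · right; right
      rw [sub_neg_eq_add] at h2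
      exact (pow_conj hu _).1 h2

/-- Conjugates of `a` do not lie in kernels. -/
theorem notMem_U (h : Hyp H a) {x d : G} (hx : IsConj a x) (hd : IsConj a d) : d ∉ U x := by
  rintro ⟨L, F, h1, h2⟩
  have hx1 : x ≠ 1 := by
    intro h0
    have := (pow_conj hx 1).1 (by simpa using h0)
    exact h.ne_one (by simpa using this)
  have hxF : x ∉ F := fun h3 => hx1 (h1.eq_one_of_mem h3 (Subgroup.mem_zpowers x))
  have hxL : x ∈ L := h1.compl_le (Subgroup.mem_zpowers x)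
  obtain ⟨u, rfl⟩ := isConj_iff.1 hx
  obtain ⟨v, rfl⟩ := isConj_iff.1 hd
  have e1 : v * a * v⁻¹ = u * ((v⁻¹ * u)⁻¹ * a * (v⁻¹ * u)) * u⁻¹ := by group
  by_cases hg : v⁻¹ * u ∈ H
  · rcases h.inv _ hg with h3 | h3
    · apply hxF
      rw [e1, h3] at h2
      exact h2
    · apply hxF
      have e2 : (v * a * v⁻¹)⁻¹ = u * a * u⁻¹ := by
        rw [e1, h3]; group
      rw [← e2]
      exact F.inv_mem h2
  · obtain ⟨F3, h3, hbF⟩ := h.frob' hg
    obtain ⟨z, hz, h4⟩ := h.exists_conj h3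
      (by rw [Subgroup.zpowers_le]; exact h.mem) (Subgroup.subset_closure (by simp)) hbF
    have hM : u * z * u⁻¹ ∈ L := by
      have h5 : ∀ w ∈ Subgroup.closure {a, (v⁻¹ * u)⁻¹ * a * (v⁻¹ * u)}, u * w * u⁻¹ ∈ L := by
        intro w hw
        induction hw using Subgroup.closure_induction with
        | mem w hw =>
          rcases hw with rfl | hw
          · exact hxL
          · rw [Set.mem_singleton_iff] at hw
            rw [hw, ← e1]
            exact h1.kernel_le h2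
        | one => simpa using L.one_mem
        | mul w w' _ _ ih ih' =>
          have := L.mul_mem ih ih'
          have e3 : u * w * u⁻¹ * (u * w' * u⁻¹) = u * (w * w') * u⁻¹ := by group
          rwa [e3] at this
        | inv w _ ih =>
          have := L.inv_mem ih
          have e3 : (u * w * u⁻¹)⁻¹ = u * w⁻¹ * u⁻¹ := by group
          rwa [e3] at this
      exact h5 z hz
    have h6 := h1.conj_mem hM 1
    simp only [zpow_one] at h6
    apply hxF
    rcases h4 with h4 | ⟨h4, -⟩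
    · have e2 : v * a * v⁻¹ = (u * z * u⁻¹)⁻¹ * (u * a * u⁻¹) * (u * z * u⁻¹) := by
        rw [e1, h4]; group
      rw [← e2] at h6
      have := F.mul_mem h2 (F.inv_mem h6)
      simpa [mul_assoc] using this
    · have e2 : (v * a * v⁻¹)⁻¹ = (u * z * u⁻¹)⁻¹ * (u * a * u⁻¹) * (u * z * u⁻¹) := by
        rw [e1, h4]; group
      rw [← e2] at h6
      have := F.mul_mem (F.inv_mem h2) (F.inv_mem h6)
      simpa [mul_assoc] using this

/-- The alternative: `H` centralises `a`, or the order of `a` avoids the bad values. -/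
def Alt (H : Subgroup G) (a : G) : Prop :=
  (∀ h ∈ H, h⁻¹ * a * h = a) ∨ (a ^ 6 ≠ 1 ∧ a ^ 8 ≠ 1)

/-- TRANSITIVITY, order `5`. -/
theorem trans5 (h : Hyp H a) (h5 : a ^ 5 = 1) {x y z : G} (hx : IsConj a x) (hy : IsConj a y)
    (hz : IsConj a z) (hxy : Par x y) (hyz : Par y z) : Par x z := by
  rcases h.par_or hx hz with h1 | ⟨h1, hz', k, hk, hka⟩
  · exact h1
  exfalso
  have ne1 : ∀ {u : G}, IsConj a u → u ≠ 1 := by
    intro u hu h0
    have := (pow_conj hu 1).1 (by simpa using h0)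
    exact h.ne_one (by simpa using this)
  have h5' : a ^ (5 : ℤ) = 1 := by exact_mod_cast h5
  have n1 : ∀ k : ℤ, (k = 1 ∨ k = 2 ∨ k = 3 ∨ k = 4 ∨ k = 6 ∨
      k = -1 ∨ k = -2 ∨ k = -3 ∨ k = -4 ∨ k = -6) → a ^ k ≠ 1 := by
    intro k hk h0
    have hcop : ∃ m n : ℤ, m * k + n * 5 = 1 := by
      rcases hk with rfl | rfl | rfl | rfl | rfl | rfl | rfl | rfl | rfl | rfl
      · exact ⟨1, 0, by norm_num⟩
      · exact ⟨3, -1, by norm_num⟩
      · exact ⟨2, -1, by norm_num⟩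
      · exact ⟨-1, 1, by norm_num⟩
      · exact ⟨1, -1, by norm_num⟩
      · exact ⟨-1, 0, by norm_num⟩
      · exact ⟨-3, -1, by norm_num⟩
      · exact ⟨-2, -1, by norm_num⟩
      · exact ⟨1, 1, by norm_num⟩
      · exact ⟨-1, -1, by norm_num⟩
    obtain ⟨m, n, hmn⟩ := hcop
    apply h.ne_one
    have : a ^ (m * k + n * 5) = 1 := by
      rw [zpow_add, mul_comm m k, mul_comm n 5, zpow_mul, zpow_mul, h0, h5']
      simp
    rw [hmn, zpow_one] at this
    exact this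
  have nz : ∀ {u : G}, IsConj a u → ∀ k : ℤ, (k = 1 ∨ k = 2 ∨ k = 3 ∨ k = 4 ∨ k = 6 ∨
      k = -1 ∨ k = -2 ∨ k = -3 ∨ k = -4 ∨ k = -6) → u ^ k ≠ 1 := by
    intro u hu k hk h0
    exact n1 k hk ((pow_conj hu k).1 h0)
  -- kernel type and power type exclude each other
  have kd : ∀ {t s w : G} {j : ℤ}, IsConj a t → IsConj a s → w ∈ U t → w = s ^ j →
      (j = 4 ∨ j = -2) → False := by
    intro t s w j ht hs hw hws hj
    have hs5 : s ^ (5 : ℤ) = 1 := (pow_conj hs 5).2 h5'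
    obtain ⟨L, F, h2, h3⟩ := hw
    have h4 : s ∈ F := by
      rcases hj with rfl | rfl
      · have e1 : s = w ^ (-1 : ℤ) := by
          rw [hws, ← zpow_mul]
          calc s = s ^ (1 : ℤ) := by simp
            _ = s ^ ((4 : ℤ) * -1 + 5) := by norm_num
            _ = s ^ ((4 : ℤ) * -1) := by rw [zpow_add, hs5, mul_one]
        rw [e1]; exact F.zpow_mem h3 _
      · have e1 : s = w ^ (2 : ℤ) := by
          rw [hws, ← zpow_mul]
          calc s = s ^ (1 : ℤ) := by simp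
            _ = s ^ ((-2 : ℤ) * 2 + 5) := by norm_num
            _ = s ^ ((-2 : ℤ) * 2) := by rw [zpow_add, hs5, mul_one]
        rw [e1]; exact F.zpow_mem h3 _
    exact h.notMem_U ht hs ⟨L, F, h2, h4⟩
  -- step 1
  have s1 : ∃ s, IsConj a s ∧ (x * y * z ^ (2 : ℤ) = s ^ (4 : ℤ) ∨
      x * y * z ^ (2 : ℤ) ∈ U s) := by
    obtain ⟨t, ht, hxt, e1⟩ := hxy.word (ne1 hx) 1 1 (nz hx _ (by norm_num))
    have hta : IsConj a t := hx.trans ht
    rw [zpow_one, zpow_one] at e1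
    have e4 : t ^ (1 + 1 : ℤ) = t ^ (2 : ℤ) := by norm_num
    rcases h.par_or hta hz with h2 | ⟨h2, -, -⟩
    · obtain ⟨s, hs, -, e2⟩ := h2.word (ne1 hta) 2 2 (nz hta _ (by norm_num))
      refine ⟨s, hta.trans hs, Or.inl ?_⟩
      rw [e1, e4, e2]
      norm_num
    · refine ⟨t, hta, Or.inr ?_⟩
      have e3 : z ^ (2 : ℤ) = (z⁻¹) ^ (-2 : ℤ) := by simp
      rw [e1, e4, e3]
      exact h2.word0 (ne1 hta) 2
  -- step 2
  have s2 : ∃ s, IsConj a s ∧ (x * y * z ^ (2 : ℤ) = s ^ (4 : ℤ) ∨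
      x * y * z ^ (2 : ℤ) = s ^ (-2 : ℤ)) := by
    obtain ⟨t, ht, hyt, e1⟩ := hyz.word (ne1 hy) 1 2 (nz hy _ (by norm_num))
    have hta : IsConj a t := hy.trans ht
    rw [zpow_one] at e1
    have e1' : y * z ^ (2 : ℤ) = t ^ (3 : ℤ) := by
      rw [e1]; norm_num
    rcases h.par_or hx hta with h2 | ⟨h2, -, -⟩
    · obtain ⟨s, hs, -, e2⟩ := h2.word (ne1 hx) 1 3 (nz hx _ (by norm_num))
      refine ⟨s, hx.trans hs, Or.inl ?_⟩
      rw [mul_assoc, e1']
      rw [zpow_one] at e2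
      rw [e2]
      norm_num
    · obtain ⟨s, hs, -, e2⟩ := h2.word (ne1 hx) 1 (-3) (nz hx _ (by norm_num))
      refine ⟨s, hx.trans hs, Or.inr ?_⟩
      rw [mul_assoc, e1']
      have e3 : (t⁻¹) ^ (-3 : ℤ) = t ^ (3 : ℤ) := by simp
      rw [e3, zpow_one] at e2
      rw [e2]
      norm_num
  -- step 3
  have s3 : ∃ s, IsConj a s ∧ (x * y * z ^ (2 : ℤ) ∈ U s ∨
      x * y * z ^ (2 : ℤ) = s ^ (-2 : ℤ)) := by
    have h1' : Par z⁻¹ x := h1.symm (ne1 hx)
    obtain ⟨t, ht, -, e1⟩ := h1'.word (ne1 hz') (-2) 1 (nz hz' _ (by norm_num))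
    have hta : IsConj a t := hz'.trans ht
    have e1' : z ^ (2 : ℤ) * x = t ^ (-1 : ℤ) := by
      have e3 : (z⁻¹) ^ (-2 : ℤ) = z ^ (2 : ℤ) := by simp
      rw [e3, zpow_one] at e1
      rw [e1]
      norm_num
    have back : ∀ (s : G) (e : ℤ), z ^ (2 : ℤ) * x * y = s ^ e →
        x * y * z ^ (2 : ℤ) = ((z ^ (2 : ℤ))⁻¹ * s * z ^ (2 : ℤ)) ^ e := by
      intro s e hs
      generalize z ^ (2 : ℤ) = c at hs ⊢
      have e4 : c⁻¹ * s * c = MulAut.conj c⁻¹ s := by rw [MulAut.conj_apply]; group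
      rw [e4, ← map_zpow, ← hs, MulAut.conj_apply]
      group
    have cj : ∀ s : G, IsConj a s → IsConj a ((z ^ (2 : ℤ))⁻¹ * s * z ^ (2 : ℤ)) := by
      intro s hs
      refine hs.trans ?_
      rw [isConj_iff]
      exact ⟨(z ^ (2 : ℤ))⁻¹, by simp⟩
    rcases h.par_or hta hy with h2 | ⟨h2, -, -⟩
    · have h3 := h2.word0 (ne1 hta) (-1)
      rw [neg_neg, zpow_one, ← e1'] at h3
      have h4 := U_conj (z ^ (2 : ℤ))⁻¹ h3
      refine ⟨_, cj t hta, Or.inl ?_⟩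
      rw [inv_inv] at h4
      have e5 : (z ^ (2 : ℤ))⁻¹ * (z ^ (2 : ℤ) * x * y) * z ^ (2 : ℤ) = x * y * z ^ (2 : ℤ) := by
        group
      rwa [e5] at h4
    · obtain ⟨s, hs, -, e2⟩ := h2.word (ne1 hta) (-1) (-1) (nz hta _ (by norm_num))
      refine ⟨_, cj s (hta.trans hs), Or.inr (back s _ ?_)⟩
      rw [e1']
      have e3 : (y⁻¹) ^ (-1 : ℤ) = y := by simp
      rw [e3] at e2
      rw [e2]
      norm_num
  have cmp : ∀ {u v : G} {i j : ℤ}, IsConj a u → IsConj a v → u ^ i = v ^ j →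
      a ^ i ≠ 1 → a ^ (i - j) ≠ 1 → a ^ (i + j) ≠ 1 → False := by
    intro u v i j hu hv huv m1 m2 m3
    rcases h.pow_eq hu hv huv with h2 | h2 | h2
    · exact m1 h2
    · exact m2 h2
    · exact m3 h2
  obtain ⟨s, hs, q1⟩ := s1
  obtain ⟨s', hs', q2⟩ := s2
  obtain ⟨r, hr, q3⟩ := s3
  rcases q1 with q1 | q1
  · rcases q2 with q2 | q2
    · rcases q3 with q3 | q3
      · exact kd hr hs q3 q1 (by norm_num)
      · exact cmp hs hr (q1.symm.trans q3) (n1 _ (by norm_num)) (n1 _ (by norm_num))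
          (n1 _ (by norm_num))
    · exact cmp hs hs' (q1.symm.trans q2) (n1 _ (by norm_num)) (n1 _ (by norm_num))
        (n1 _ (by norm_num))
  · rcases q2 with q2 | q2
    · exact kd hs hs' q1 q2 (by norm_num)
    · exact kd hs hs' q1 q2 (by norm_num)

/-- TRANSITIVITY of the parallelism. -/
theorem trans (h : Hyp H a) (hc : Alt H a) {x y z : G} (hx : IsConj a x) (hy : IsConj a y)
    (hz : IsConj a z) (hxy : Par x y) (hyz : Par y z) : Par x z := by
  by_cases h5 : a ^ 5 = 1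
  · exact h.trans5 h5 hx hy hz hxy hyz
  rcases h.par_or hx hz with h1 | ⟨h1, hz', k, hk, hka⟩
  · exact h1
  exfalso
  rcases hc with hc | ⟨h6, h8⟩
  · have h2 := hc k hk
    rw [hka] at h2
    apply h.sq
    rw [pow_two]
    nth_rewrite 1 [← h2]
    simp
  -- numerical conditions
  have n1 : ∀ k : ℤ, (k = 1 ∨ k = 2 ∨ k = 3 ∨ k = 4 ∨ k = 5 ∨ k = 6 ∨ k = 8 ∨
      k = -1 ∨ k = -2 ∨ k = -3 ∨ k = -4 ∨ k = -6) → a ^ k ≠ 1 := by
    have g6 : ∀ m : ℤ, m ∣ 6 → a ^ m ≠ 1 := by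
      rintro m ⟨c, hc⟩ h0
      apply h6
      have : a ^ (6 : ℤ) = 1 := by rw [hc, zpow_mul, h0, one_zpow]
      exact_mod_cast this
    have g8 : ∀ m : ℤ, m ∣ 8 → a ^ m ≠ 1 := by
      rintro m ⟨c, hc⟩ h0
      apply h8
      have : a ^ (8 : ℤ) = 1 := by rw [hc, zpow_mul, h0, one_zpow]
      exact_mod_cast this
    rintro k (rfl | rfl | rfl | rfl | rfl | rfl | rfl | rfl | rfl | rfl | rfl | rfl)
    · exact g6 _ (by norm_num)
    · exact g6 _ (by norm_num)
    · exact g6 _ (by norm_num)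
    · exact g8 _ (by norm_num)
    · intro h0; apply h5; exact_mod_cast h0
    · exact g6 _ (by norm_num)
    · exact g8 _ (by norm_num)
    · exact g6 _ (by norm_num)
    · exact g6 _ (by norm_num)
    · exact g6 _ (by norm_num)
    · exact g8 _ (by norm_num)
    · exact g6 _ (by norm_num)
  have ne1 : ∀ {u : G}, IsConj a u → u ≠ 1 := by
    intro u hu h0
    have := (pow_conj hu 1).1 (by simpa using h0)
    exact h.ne_one (by simpa using this)
  have nz : ∀ {u : G}, IsConj a u → ∀ k : ℤ, (k = 1 ∨ k = 2 ∨ k = 3 ∨ k = 4 ∨ k = 5 ∨ k = 6 ∨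
      k = 8 ∨ k = -1 ∨ k = -2 ∨ k = -3 ∨ k = -4 ∨ k = -6) → u ^ k ≠ 1 := by
    intro u hu k hk h0
    exact n1 k hk ((pow_conj hu k).1 h0)
  -- step 1
  have s1 : ∃ s, IsConj a s ∧ (x * y * z ^ (3 : ℤ) = s ^ (5 : ℤ) ∨
      x * y * z ^ (3 : ℤ) = s ^ (-1 : ℤ)) := by
    obtain ⟨t, ht, hxt, e1⟩ := hxy.word (ne1 hx) 1 1 (nz hx _ (by norm_num))
    have hta : IsConj a t := hx.trans ht
    rw [zpow_one, zpow_one] at e1
    rcases h.par_or hta hz with h2 | ⟨h2, -, -⟩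
    · obtain ⟨s, hs, -, e2⟩ := h2.word (ne1 hta) 2 3 (nz hta _ (by norm_num))
      exact ⟨s, hta.trans hs, Or.inl (by rw [e1]; exact_mod_cast e2)⟩
    · obtain ⟨s, hs, -, e2⟩ := h2.word (ne1 hta) 2 (-3) (nz hta _ (by norm_num))
      refine ⟨s, hta.trans hs, Or.inr ?_⟩
      rw [e1]
      have e3 : (z⁻¹) ^ (-3 : ℤ) = z ^ (3 : ℤ) := by simp
      rw [e3] at e2
      have e4 : t ^ (1 + 1 : ℤ) = t ^ (2 : ℤ) := by norm_num
      rw [e4, e2]
      norm_num
  -- step 2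
  have s2 : ∃ s, IsConj a s ∧ (x * y * z ^ (3 : ℤ) = s ^ (5 : ℤ) ∨
      x * y * z ^ (3 : ℤ) = s ^ (-3 : ℤ)) := by
    obtain ⟨t, ht, hyt, e1⟩ := hyz.word (ne1 hy) 1 3 (nz hy _ (by norm_num))
    have hta : IsConj a t := hy.trans ht
    rw [zpow_one] at e1
    have e1' : y * z ^ (3 : ℤ) = t ^ (4 : ℤ) := by
      rw [e1]; norm_num
    rcases h.par_or hx hta with h2 | ⟨h2, -, -⟩
    · obtain ⟨s, hs, -, e2⟩ := h2.word (ne1 hx) 1 4 (nz hx _ (by norm_num))
      refine ⟨s, hx.trans hs, Or.inl ?_⟩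
      rw [mul_assoc, e1']
      rw [zpow_one] at e2
      rw [e2]
      norm_num
    · obtain ⟨s, hs, -, e2⟩ := h2.word (ne1 hx) 1 (-4) (nz hx _ (by norm_num))
      refine ⟨s, hx.trans hs, Or.inr ?_⟩
      rw [mul_assoc, e1']
      have e3 : (t⁻¹) ^ (-4 : ℤ) = t ^ (4 : ℤ) := by simp
      rw [e3, zpow_one] at e2
      rw [e2]
      norm_num
  -- step 3
  have s3 : ∃ s, IsConj a s ∧ (x * y * z ^ (3 : ℤ) = s ^ (-1 : ℤ) ∨
      x * y * z ^ (3 : ℤ) = s ^ (-3 : ℤ)) := by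
    have h1' : Par z⁻¹ x := h1.symm (ne1 hx)
    obtain ⟨t, ht, -, e1⟩ := h1'.word (ne1 hz') (-3) 1 (nz hz' _ (by norm_num))
    have hta : IsConj a t := hz'.trans ht
    have e1' : z ^ (3 : ℤ) * x = t ^ (-2 : ℤ) := by
      have e3 : (z⁻¹) ^ (-3 : ℤ) = z ^ (3 : ℤ) := by simp
      rw [e3, zpow_one] at e1
      rw [e1]
      norm_num
    have back : ∀ (s : G) (e : ℤ), z ^ (3 : ℤ) * x * y = s ^ e →
        x * y * z ^ (3 : ℤ) = ((z ^ (3 : ℤ))⁻¹ * s * z ^ (3 : ℤ)) ^ e := by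
      intro s e hs
      generalize z ^ (3 : ℤ) = c at hs ⊢
      have e4 : c⁻¹ * s * c = MulAut.conj c⁻¹ s := by rw [MulAut.conj_apply]; group
      rw [e4, ← map_zpow, ← hs, MulAut.conj_apply]
      group
    have cj : ∀ s : G, IsConj a s → IsConj a ((z ^ (3 : ℤ))⁻¹ * s * z ^ (3 : ℤ)) := by
      intro s hs
      refine hs.trans ?_
      rw [isConj_iff]
      exact ⟨(z ^ (3 : ℤ))⁻¹, by simp⟩
    rcases h.par_or hta hy with h2 | ⟨h2, -, -⟩
    · obtain ⟨s, hs, -, e2⟩ := h2.word (ne1 hta) (-2) 1 (nz hta _ (by norm_num))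
      refine ⟨_, cj s (hta.trans hs), Or.inl (back s _ ?_)⟩
      rw [e1']
      rw [zpow_one] at e2
      rw [e2]
      norm_num
    · obtain ⟨s, hs, -, e2⟩ := h2.word (ne1 hta) (-2) (-1) (nz hta _ (by norm_num))
      refine ⟨_, cj s (hta.trans hs), Or.inr (back s _ ?_)⟩
      rw [e1']
      have e3 : (y⁻¹) ^ (-1 : ℤ) = y := by simp
      rw [e3] at e2
      rw [e2]
      norm_num
  -- comparison
  have cmp : ∀ {u v : G} {i j : ℤ}, IsConj a u → IsConj a v → u ^ i = v ^ j →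
      a ^ i ≠ 1 → a ^ (i - j) ≠ 1 → a ^ (i + j) ≠ 1 → False := by
    intro u v i j hu hv huv m1 m2 m3
    rcases h.pow_eq hu hv huv with h2 | h2 | h2
    · exact m1 h2
    · exact m2 h2
    · exact m3 h2
  obtain ⟨s, hs, q1⟩ := s1
  obtain ⟨s', hs', q2⟩ := s2
  obtain ⟨r, hr, q3⟩ := s3
  rcases q1 with q1 | q1
  · rcases q2 with q2 | q2
    · rcases q3 with q3 | q3
      · exact cmp hs hr (q1.symm.trans q3) (n1 _ (by norm_num)) (n1 _ (by norm_num))
          (n1 _ (by norm_num))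
      · exact cmp hs hr (q1.symm.trans q3) (n1 _ (by norm_num)) (n1 _ (by norm_num))
          (n1 _ (by norm_num))
    · exact cmp hs hs' (q1.symm.trans q2) (n1 _ (by norm_num)) (n1 _ (by norm_num))
        (n1 _ (by norm_num))
  · rcases q2 with q2 | q2
    · exact cmp hs hs' (q1.symm.trans q2) (n1 _ (by norm_num)) (n1 _ (by norm_num))
        (n1 _ (by norm_num))
    · exact cmp hs hs' (q1.symm.trans q2) (n1 _ (by norm_num)) (n1 _ (by norm_num))
        (n1 _ (by norm_num))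

/-- The union of the kernels is closed under multiplication. -/
theorem mul_mem (h : Hyp H a) (hc : Alt H a) {u v : G} (hu : u ∈ U a) (hv : v ∈ U a) :
    u * v ∈ U a := by
  have ha1 := h.ne_one
  have hpb : Par a (a * u) := by unfold Par; simpa using hu
  have hpc : Par a (a * v) := by unfold Par; simpa using hv
  have conjOf : ∀ {b : G}, Par a b → IsConj a b := by
    rintro b ⟨L, F, h1, h2⟩
    obtain ⟨l, hl, hy⟩ := h1.exists_conj (k := 1) (y := b) (by simpa using ha1)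
      (by simpa using h2)
    rw [isConj_iff]
    exact ⟨l⁻¹, by rw [hy]; simp⟩
  have haa : IsConj a a := IsConj.refl a
  have hb := conjOf hpb
  have hcc := conjOf hpc
  have hb1 : a * u ≠ 1 := by
    intro h0
    have := (pow_conj hb 1).1 (by simpa using h0)
    exact ha1 (by simpa using this)
  have hpba := hpb.symm ha1
  have a2 : ∀ {x : G}, IsConj a x → x ^ (2 : ℤ) ≠ 1 := by
    intro x hx h0
    have := (pow_conj hx 2).1 h0
    apply h.sq
    exact_mod_cast this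
  have am : ∀ {x : G}, IsConj a x → ∀ k : ℤ, (k = 1 ∨ k = -1) → x ^ k ≠ 1 := by
    rintro x hx k hk h0
    have := (pow_conj hx k).1 h0
    rcases hk with rfl | rfl
    · exact ha1 (by simpa using this)
    · exact ha1 (by simpa using this)
  obtain ⟨t, ht, hbt, e1⟩ := hpba.word hb1 1 1 (a2 hb)
  have hta := hb.trans ht
  obtain ⟨s, hs, has, e2⟩ := hpc.word ha1 (-2) 1 (am haa _ (by norm_num))
  have hsa := haa.trans hs
  have ht1 : t ≠ 1 := by
    intro h0
    have := (pow_conj hta 1).1 (by simpa using h0)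
    exact ha1 (by simpa using this)
  have htb : Par t (a * u) := hbt.symm hb1
  have hta' : Par t a := h.trans hc hta hb haa htb hpba
  have hts : Par t s := h.trans hc hta haa hsa hta' has
  obtain ⟨w, hw, htw, e3⟩ := hts.word ht1 2 (-1) (am hta _ (by norm_num))
  have hwa := hta.trans hw
  have haw : Par a w := h.trans hc haa hta hwa (hta'.symm ht1) htw
  have e4 : a⁻¹ * w = u * v := by
    have e5 : w = t ^ (2 : ℤ) * s ^ (-1 : ℤ) := by
      rw [e3]; norm_num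
    have e6 : t ^ (2 : ℤ) = a * u * a := by
      have : t ^ (1 + 1 : ℤ) = a * u * a := by rw [← e1]; simp
      simpa using this
    have e7 : s ^ (-1 : ℤ) = a ^ (-2 : ℤ) * (a * v) := by
      have : s ^ (-2 + 1 : ℤ) = a ^ (-2 : ℤ) * (a * v) := by rw [← e2]; simp
      simpa using this
    rw [e5, e6, e7]
    group
  unfold Par at haw
  rwa [e4] at haw

/-- THEOREM: the union of the kernels is a subgroup. -/
theorem main (h : Hyp H a) (hc : Alt H a) : ∃ K : Subgroup G, (K : Set G) = U a := by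
  refine ⟨{ carrier := U a, mul_mem' := h.mul_mem hc, one_mem' := ?_, inv_mem' := ?_ }, rfl⟩
  · have := h.par_self
    unfold Par at this
    simpa using this
  · rintro u ⟨L, F, h1, h2⟩
    exact ⟨L, F, h1, F.inv_mem h2⟩

theorem isConj_of_par (h : Hyp H a) {b : G} (hb : Par a b) : IsConj a b := by
  obtain ⟨L, F, h1, h2⟩ := hb
  obtain ⟨l, hl, hy⟩ := h1.exists_conj (k := 1) (y := b) (by simpa using h.ne_one)
    (by simpa using h2)
  rw [isConj_iff]
  exact ⟨l⁻¹, by rw [hy]; simp⟩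

theorem U_inv (x : G) : U x⁻¹ = U x := by
  unfold U
  rw [Subgroup.zpowers_inv]

/-- THEOREM, with the structure of `G`: `G = U(a) ⋊ H`. -/
theorem main' (h : Hyp H a) (hc : Alt H a) :
    ∃ K : Subgroup G, (K : Set G) = U a ∧ K.Normal ∧ K ⊓ H = ⊥ ∧ K ⊔ H = ⊤ := by
  obtain ⟨K, hK⟩ := h.main hc
  have memK : ∀ u, u ∈ K ↔ u ∈ U a := by
    intro u
    rw [← hK]; rfl
  have haa : IsConj a a := IsConj.refl a
  -- parallel conjugates have the same kernels
  have key : ∀ x, IsConj a x → Par a x → U x ⊆ U a := by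
    intro x hx hpx u hu
    have h1 : Par x (x * u) := by unfold Par; simpa using hu
    have hx1 : x ≠ 1 := by
      intro h0
      have := (pow_conj hx 1).1 (by simpa using h0)
      exact h.ne_one (by simpa using this)
    have h2 : IsConj a (x * u) := by
      obtain ⟨L, F, h3, h4⟩ := h1
      obtain ⟨l, hl, hy⟩ := h3.exists_conj (k := 1) (y := x * u) (by simpa using hx1)
        (by simpa using h4)
      refine hx.trans ?_
      rw [isConj_iff]
      exact ⟨l⁻¹, by rw [hy]; simp⟩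
    have h3 : Par a (x * u) := h.trans hc haa hx h2 hpx h1
    have h4 : a⁻¹ * x ∈ K := (memK _).2 hpx
    have h5 : a⁻¹ * (x * u) ∈ K := (memK _).2 h3
    have h6 : u ∈ K := by
      have := K.mul_mem (K.inv_mem h4) h5
      have e : (a⁻¹ * x)⁻¹ * (a⁻¹ * (x * u)) = u := by group
      rwa [e] at this
    exact (memK _).1 h6
  refine ⟨K, hK, ⟨?_⟩, ?_, ?_⟩
  · intro u hu g
    rw [memK] at hu ⊢
    have h1 := U_conj g hu
    have hx : IsConj a (g * a * g⁻¹) := isConj_iff.2 ⟨g, rfl⟩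
    rcases h.par_or haa hx with h2 | ⟨h2, h3, -⟩
    · exact key _ hx h2 h1
    · rw [← U_inv] at h1
      exact key _ h3 h2 h1
  · rw [eq_bot_iff]
    rintro u ⟨hu, huH⟩
    obtain ⟨L, F, h1, h2⟩ := (memK u).1 hu
    rw [Subgroup.mem_bot]
    by_contra hu1
    have huC : u ∉ Subgroup.zpowers a := fun h3 => hu1 (h1.eq_one_of_mem h2 h3)
    have h3 : u⁻¹ * a * u ∈ Subgroup.zpowers a := by
      rcases h.inv u huH with h4 | h4
      · rw [h4]; exact Subgroup.mem_zpowers a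
      · rw [h4]; exact Subgroup.inv_mem _ (Subgroup.mem_zpowers a)
    exact h.ne_one (h1.malnormal u (h1.kernel_le h2) huC a (Subgroup.mem_zpowers a) h3)
  · rw [eq_top_iff]
    rintro g -
    have hb : IsConj a (g⁻¹ * a * g) := isConj_iff.2 ⟨g⁻¹, by simp⟩
    -- conjugators in Frobenius groups can be taken in the kernel
    have conjK : ∀ b, Par a b → ∃ f ∈ K, b = f * a * f⁻¹ := by
      rintro b ⟨L, F, h1, h2⟩
      obtain ⟨l, hl, hy⟩ := h1.exists_conj (k := 1) (y := b) (by simpa using h.ne_one)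
        (by simpa using h2)
      obtain ⟨f, hf, c, ⟨k, rfl⟩, hfc⟩ := h1.mul l⁻¹ (L.inv_mem hl)
      refine ⟨f, (memK f).2 ⟨L, F, h1, hf⟩, ?_⟩
      have hl' : l = (a ^ k)⁻¹ * f⁻¹ := by
        have : l = (l⁻¹)⁻¹ := by simp
        rw [this, hfc, mul_inv_rev]
      rw [hy, hl', zpow_one]
      group
    rcases h.par_or haa hb with h2 | ⟨h2, -, -⟩
    · obtain ⟨f, hf, hfb⟩ := conjK _ h2
      have h3 : g * f ∈ H := by
        by_contra h4
        apply h.conj_notMem h4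
        have e : (g * f)⁻¹ * a * (g * f) = f⁻¹ * (g⁻¹ * a * g) * f := by group
        rw [e, hfb]
        have e2 : f⁻¹ * (f * a * f⁻¹) * f = a := by group
        rw [e2]; exact h.mem
      have e : g = g * f * f⁻¹ := by group
      rw [e]
      exact Subgroup.mul_mem _ ((le_sup_right : H ≤ K ⊔ H) h3)
        ((le_sup_left : K ≤ K ⊔ H) (K.inv_mem hf))
    · obtain ⟨f, hf, hfb⟩ := conjK _ h2
      have h3 : g * f ∈ H := by
        by_contra h4
        apply h.conj_notMem h4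
        have e : (g * f)⁻¹ * a * (g * f) = (f⁻¹ * (g⁻¹ * a * g)⁻¹ * f)⁻¹ := by group
        rw [e, hfb]
        have e2 : (f⁻¹ * (f * a * f⁻¹) * f)⁻¹ = a⁻¹ := by group
        rw [e2]; exact H.inv_mem h.mem
      have e : g = g * f * f⁻¹ := by group
      rw [e]
      exact Subgroup.mul_mem _ ((le_sup_right : H ≤ K ⊔ H) h3)
        ((le_sup_left : K ≤ K ⊔ H) (K.inv_mem hf))

end Hyp

end Pool.Agent.Lib.MP_d6b03d_al
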