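import Mathlib
import Pool.Agent.Lib.MP_d6b03d_al.Stmts

/-!
H4: existence of the first extension.
-/

set_option autoImplicit false

namespace Pool.Agent.D6b

open Multiplicative Base

/-- HNN extensions of countable groups are countable -/
theorem countable_hnn {G : Type} [Group G] {A B : Subgroup G} (φ : A ≃* B) (hG : Countable G) :
    Countable (HNNExtension G A B φ) := by
  obtain ⟨d⟩ := HNNExtension.NormalWord.TransversalPair.nonempty G A B
  let F : G × List (ℤˣ × G) → HNNExtension G A B φ := fun w =>
    HNNExtension.of w.1 * (w.2.map (fun x => HNNExtension.t ^ (x.1 : ℤ) * HNNExtension.of x.2)).prod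
  have hF : Function.Surjective F := by
    intro g
    refine ⟨((g • (HNNExtension.NormalWord.empty : HNNExtension.NormalWord d)).head,
      (g • (HNNExtension.NormalWord.empty : HNNExtension.NormalWord d)).toList), ?_⟩
    have h := HNNExtension.NormalWord.prod_smul φ g
      (HNNExtension.NormalWord.empty : HNNExtension.NormalWord d)
    rw [HNNExtension.NormalWord.prod_empty, mul_one] at h
    exact h
  exact hF.countable

theorem stS1Ext (h1 : StBS1) (h4 : StS1Tree) (h3 : StS1Inv) : StS1Ext := by
  intro H G _ _ _ pr em X D st C hCX hmal hnc hpr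
  let f : C →* G := (em.comp pr).comp C.subtype
  have hem : Function.Injective em := fun a b hab => by
    rw [← st.sec a, ← st.sec b, hab]
  have hf : Function.Injective f := by
    rw [injective_iff_map_eq_one]
    intro c hc
    have h5 : em (pr c) = 1 := hc
    have h6 : pr (c : G) = 1 := hem (by rw [h5, map_one])
    exact Subtype.ext (hpr c c.2 h6)
  let φ : C ≃* f.range := MonoidHom.ofInjective hf
  have hφ : ∀ c : C, ((φ c : f.range) : G) = em (pr c) := fun c => rfl
  have hC' : f.range ≤ X := by
    rintro x ⟨c, rfl⟩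
    exact st.NX _ (st.td.ht c (hCX c.2))
  obtain ⟨_, _, _, η, hη1, hηt⟩ := h1 G C f.range φ
  have tt := h4 G X (em th) (hz.comp pr) st.td C f.range φ hCX hC'
  let pr' : HNNExtension G C f.range φ →* H := HNNExtension.lift pr 1 (by
    intro a
    rw [hφ, st.sec, one_mul, mul_one])
  have hpri : ∀ g, pr' (HNNExtension.of g) = pr g := fun g => HNNExtension.lift_of _ _ _ _
  have hprs : pr' HNNExtension.t = 1 := HNNExtension.lift_t _ _ _
  have hrel : ∀ c ∈ C, (HNNExtension.t : HNNExtension G C f.range φ) * HNNExtension.of c *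
      HNNExtension.t⁻¹ = HNNExtension.of (em (pr c)) := by
    intro c hc
    have := HNNExtension.equiv_eq_conj (φ := φ) ⟨c, hc⟩
    rw [hφ] at this
    exact this.symm
  refine ⟨HNNExtension G C f.range φ, inferInstance, HNNExtension.of, HNNExtension.t, pr',
    XX HNNExtension.of HNNExtension.t (em th) X 1, D, HNNExtension.of_injective φ,
    countable_hnn φ, hpri, hprs, ?_, ?_, hrel⟩
  · intro h
    rw [h, map_one] at hηt
    have : (1 : ℤ) = 0 := (congrArg toAdd hηt).symm
    omega
  · refine h3 H G (HNNExtension G C f.range φ) pr em X D HNNExtension.of HNNExtension.t C f.range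
      pr' ?_
    refine ⟨st, tt, hCX, hrel, ?_, hmal, hnc, hpri, hprs⟩
    rintro c' ⟨c, rfl⟩
    exact ⟨c, c.2, rfl⟩

end Pool.Agent.D6b
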