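import Pool.Agent.Lib.MP_d6b03d_al.Stmts

/-!
MP_d6b03d_al, module K1: overlaps of the axes.
-/

set_option autoImplicit false

namespace Pool.Agent.D6b

open Multiplicative Base

namespace S2Pair

section Gen

variable {G : Type} [Group G] {X : Subgroup G} {t : G} {η : G →* Multiplicative ℤ}

/-- the height of a vertex -/
def ht (η : G →* Multiplicative ℤ) (hX : ∀ x ∈ X, η x = 1) (u : G ⧸ X) : ℤ :=
  Quotient.liftOn' u (fun x => toAdd (η x)) (by
    intro a b h
    rw [QuotientGroup.leftRel_apply] at h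
    have h1 := hX _ h
    rw [map_mul, map_inv, inv_mul_eq_one] at h1
    simp only [h1])

theorem ht_mk (hX : ∀ x ∈ X, η x = 1) (x : G) : ht η hX (x : G ⧸ X) = toAdd (η x) := rfl

theorem ht_smul (hX : ∀ x ∈ X, η x = 1) (g : G) (u : G ⧸ X) :
    ht η hX (g • u) = toAdd (η g) + ht η hX u := by
  obtain ⟨x, rfl⟩ := QuotientGroup.mk_surjective u
  change ht η hX ((g * x : G) : G ⧸ X) = _
  rw [ht_mk, ht_mk, map_mul, toAdd_mul]

theorem ht_adj (hX : ∀ x ∈ X, η x = 1) (ht1 : η t = ofAdd 1) {u v : G ⧸ X}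
    (h : (CG X t).Adj u v) : ht η hX v = ht η hX u + 1 ∨ ht η hX v = ht η hX u - 1 := by
  unfold CG at h
  rw [SimpleGraph.fromRel_adj] at h
  obtain ⟨-, ⟨k, rfl, rfl⟩ | ⟨k, rfl, rfl⟩⟩ := h
  · left
    rw [ht_mk, ht_mk, map_mul, toAdd_mul, ht1, toAdd_ofAdd]
  · right
    rw [ht_mk, ht_mk, map_mul, toAdd_mul, ht1, toAdd_ofAdd]
    ring

theorem ht_walk (hX : ∀ x ∈ X, η x = 1) (ht1 : η t = ofAdd 1) {u v : G ⧸ X}
    (p : (CG X t).Walk u v) : |ht η hX u - ht η hX v| ≤ p.length := by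
  induction p with
  | nil => simp
  | cons h p ih =>
    rw [SimpleGraph.Walk.length_cons]
    push_cast
    rcases ht_adj hX ht1 h with h1 | h1
    · rw [h1] at ih
      rw [abs_le] at ih ⊢
      constructor <;> linarith [ih.1, ih.2]
    · rw [h1] at ih
      rw [abs_le] at ih ⊢
      constructor <;> linarith [ih.1, ih.2]

theorem ht_dist (hX : ∀ x ∈ X, η x = 1) (ht1 : η t = ofAdd 1) (hc : (CG X t).Connected)
    (u v : G ⧸ X) : |ht η hX u - ht η hX v| ≤ (CG X t).dist u v := by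
  obtain ⟨p, hp⟩ := hc.exists_walk_length_eq_dist u v
  rw [← hp]
  exact ht_walk hX ht1 p

theorem dist_le_of_adj {V : Type} {S : SimpleGraph V} (hS : S.Connected) (L : ℤ → V)
    (h : ∀ i, S.Adj (L i) (L (i + 1))) (i : ℤ) (n : ℕ) : S.dist (L i) (L (i + n)) ≤ n := by
  induction n with
  | zero => simp
  | succ n ih =>
    have h1 : S.dist (L (i + n)) (L (i + n + 1)) ≤ 1 := by
      rw [SimpleGraph.dist_eq_one_iff_adj.2 (h _)]
    have h2 := hS.dist_triangle (u := L i) (v := L (i + n)) (w := L (i + n + 1))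
    have e : i + ((n + 1 : ℕ) : ℤ) = i + n + 1 := by push_cast; ring
    rw [e]
    omega

theorem isLine_of (hX : ∀ x ∈ X, η x = 1) (ht1 : η t = ofAdd 1) (hc : (CG X t).Connected)
    (L : ℤ → G ⧸ X) (h : ∀ i, (CG X t).Adj (L i) (L (i + 1))) (c : ℤ)
    (hL : ∀ i, ht η hX (L i) = i + c) : IsLine (CG X t) L := by
  have key : ∀ (i : ℤ) (n : ℕ), (CG X t).dist (L i) (L (i + n)) = n := by
    intro i n
    apply le_antisymm (dist_le_of_adj hc L h i n)
    have h1 := ht_dist hX ht1 hc (L i) (L (i + n))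
    rw [hL, hL, abs_le] at h1
    have := h1.1
    have : (n : ℤ) ≤ ((CG X t).dist (L i) (L (i + n)) : ℕ) := by linarith
    exact_mod_cast this
  intro i j
  rcases le_total i j with hij | hij
  · obtain ⟨n, hn⟩ := Int.le.dest hij
    rw [← hn, key]
    omega
  · obtain ⟨n, hn⟩ := Int.le.dest hij
    rw [← hn, SimpleGraph.dist_comm, key]
    omega

theorem smul_mk (g x : G) : g • (x : G ⧸ X) = ((g * x : G) : G ⧸ X) := rfl

theorem dist_smul {V : Type} {S : SimpleGraph V} (hS : S.Connected) [MulAction G V]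
    (hA : ActsOn S G) (g : G) (u v : V) : S.dist (g • u) (g • v) = S.dist u v := by
  have key : ∀ (g : G) (u v : V), S.dist (g • u) (g • v) ≤ S.dist u v := by
    intro g u v
    obtain ⟨p, hp⟩ := hS.exists_walk_length_eq_dist u v
    let f : S →g S := ⟨fun x => g • x, fun {a b} hab => hA g a b hab⟩
    have h1 := SimpleGraph.dist_le (p.map f)
    rw [SimpleGraph.Walk.length_map, hp] at h1
    exact h1
  apply le_antisymm (key g u v)
  have h := key g⁻¹ (g • u) (g • v)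
  simpa using h

/-- two height-lines which meet at heights `a ≤ b` coincide in between -/
theorem coincide (hU : StBtwU) (hT : (CG X t).IsTree)
    {L L' : ℤ → G ⧸ X} (hL : IsLine (CG X t) L) (hL' : IsLine (CG X t) L') {c a b : ℤ}
    (ha : L a = L' (a - c)) (hb : L b = L' (b - c)) {s : ℤ} (h1 : a ≤ s) (h2 : s ≤ b) :
    L s = L' (s - c) := by
  apply (hU _ _ hT).1 (L a) (L b)
  · unfold Btw
    rw [hL, hL, hL]
    omega
  · unfold Btw
    rw [ha, hb, hL', hL', hL']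
    omega
  · rw [hL, ha, hL']
    omega

end Gen

section St

variable {H G : Type} [Group H] [Base H] [Group G] {pr : G →* H} {em : H →* G} {X : Subgroup G}
  {D : ℕ}

/-- the main argument: a height-line fixed by a conjugate of an element of `N` -/
theorem core (hNr : StNear) (hB : StBasic) (hs : IsStage pr em X D) {L : ℤ → G ⧸ X}
    (hL : IsLine (CG X (em th)) L)
    (hh : ∀ i, ht (Base.hz.comp pr) hs.td.ht (L i) = i) {δ : G} {n : H} (hn : hz n = 1)
    (hn1 : n ≠ 1) {a b : ℤ} (hab : a ≤ b)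
    (hfix : ∀ s, a ≤ s → s ≤ b → (δ * em n * δ⁻¹) • L s = L s) :
    ∃ c : ℤ, ∀ s, a + D ≤ s → s + D ≤ b → L s = δ • vx (em th) X (s - c) := by
  have hT := hs.td.tree
  obtain ⟨hA, hN, hLn, hsh, hst, -, -, -⟩ := hB G X (em th) (Base.hz.comp pr)
  have hline := hLn hs.td
  have hfix' : ∀ s, a ≤ s → s ≤ b → em n • (δ⁻¹ • L s) = δ⁻¹ • L s := by
    intro s h1 h2
    have h3 := congrArg (fun v => δ⁻¹ • v) (hfix s h1 h2)
    simp only [mul_smul, inv_smul_smul] at h3
    exact h3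
  have hF : ∀ s, a ≤ s → s ≤ b → ∃ i : ℤ,
      (CG X (em th)).dist (δ⁻¹ • L s) (vx (em th) X i) ≤ D := fun s h1 h2 =>
    hs.F2 n hn hn1 _ (hfix' s h1 h2)
  obtain ⟨r, hr⟩ := Int.le.dest hab
  have hnear := hNr _ (CG X (em th)) hT (vx (em th) X) hline r D (fun i => δ⁻¹ • L (a + i))
    (by
      intro i _ j _
      rw [dist_smul hT.connected hA, hL]
      congr 1
      ring)
    (by
      have := hF a le_rfl hab
      simpa using this)
    (by
      have := hF (a + r) (by omega) (by omega)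
      exact this)
  refine ⟨toAdd ((Base.hz.comp pr) δ), ?_⟩
  intro s h1 h2
  obtain ⟨i, hi⟩ := Int.le.dest (show a ≤ s by omega)
  obtain ⟨j, hj⟩ := hnear i (by omega) (by omega)
  rw [hi] at hj
  have h3 : L s = δ • vx (em th) X j := by
    rw [← hj, smul_inv_smul]
  have h4 := hh s
  rw [h3, ht_smul] at h4
  have h5 : ht (Base.hz.comp pr) hs.td.ht (vx (em th) X j) = j := by
    unfold vx
    rw [ht_mk, map_zpow, hs.td.et, ← ofAdd_zsmul, toAdd_ofAdd]
    simp
  rw [h5] at h4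
  rw [h3]
  congr 2
  linarith

end St

section Axis

variable {G : Type} [Group G] {X : Subgroup G} {t g κ : G} {m : ℕ}

/-- the vertex of height `i` of the axis of `g` -/
def lg (X : Subgroup G) (t g : G) (m : ℕ) (i : ℤ) : G ⧸ X :=
  ((g ^ ((-i) / (m : ℤ)) * t ^ (-((-i) % (m : ℤ))) : G) : G ⧸ X)

theorem lg_eq (hm : 1 ≤ m) (k : ℤ) (j : ℕ) (hj : j < m) :
    ((g ^ k * t ^ (-(j : ℤ)) : G) : G ⧸ X) = lg X t g m (-(k * m + j)) := by
  unfold lg
  have h1 : (k * (m : ℤ) + j) / (m : ℤ) = k := by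
    rw [add_comm, Int.add_mul_ediv_right _ _ (by omega), Int.ediv_eq_zero_of_lt (by omega)
      (by omega)]
    ring
  have h2 : (k * (m : ℤ) + j) % (m : ℤ) = j := by
    rw [add_comm, Int.add_mul_emod_self_right, Int.emod_eq_of_lt (by omega) (by omega)]
  rw [neg_neg, h1, h2]

theorem lg_cases (hm : 1 ≤ m) (i : ℤ) : ∃ (k : ℤ) (j : ℕ), j < m ∧ i = -(k * m + j) := by
  refine ⟨(-i) / (m : ℤ), ((-i) % (m : ℤ)).toNat, ?_, ?_⟩
  · have h1 := Int.emod_lt_of_pos (-i) (show (0 : ℤ) < m by omega)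
    omega
  · have h0 := Int.emod_nonneg (-i) (show (m : ℤ) ≠ 0 by omega)
    have h1 := Int.emod_add_mul_ediv (-i) (m : ℤ)
    rw [Int.toNat_of_nonneg h0]
    linarith [mul_comm (m : ℤ) ((-i) / (m : ℤ))]

theorem lg_step (hm : 1 ≤ m) (hκ : κ ∈ X) (hg : g = t ^ (-(m : ℤ)) * κ) (i : ℤ) :
    ∃ y : G, lg X t g m i = (y : G ⧸ X) ∧ lg X t g m (i + 1) = ((y * t : G) : G ⧸ X) := by
  obtain ⟨k, j, hj, rfl⟩ := lg_cases hm i
  rcases Nat.eq_zero_or_pos j with rfl | hj0
  · refine ⟨g ^ (k - 1) * t ^ (-(m : ℤ)), ?_, ?_⟩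
    · rw [← lg_eq hm k 0 (by omega), QuotientGroup.eq]
      have e : (g ^ k * t ^ (-((0 : ℕ) : ℤ)))⁻¹ * (g ^ (k - 1) * t ^ (-(m : ℤ))) = κ⁻¹ := by
        have e1 : g ^ k = g ^ (k - 1) * g := by
          rw [← zpow_add_one]
          congr 1
          ring
        have e2 : g ^ k = g ^ (k - 1) * (t ^ (-(m : ℤ)) * κ) := by
          rw [e1]
          congr 1
        rw [e2]
        simp only [Nat.cast_zero, neg_zero, zpow_zero, mul_one]
        group
      rw [e]
      exact X.inv_mem hκ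
    · have e : -(k * (m : ℤ) + ((0 : ℕ) : ℤ)) + 1 = -((k - 1) * (m : ℤ) + ((m - 1 : ℕ) : ℤ)) := by
        rw [Nat.cast_sub hm]
        push_cast
        ring
      rw [e, ← lg_eq hm (k - 1) (m - 1) (by omega), mul_assoc, ← zpow_add_one]
      congr 4
      rw [Nat.cast_sub hm]
      push_cast
      ring
  · refine ⟨g ^ k * t ^ (-(j : ℤ)), (lg_eq hm k j hj).symm, ?_⟩
    have e : -(k * (m : ℤ) + (j : ℤ)) + 1 = -(k * (m : ℤ) + ((j - 1 : ℕ) : ℤ)) := by
      rw [Nat.cast_sub (by omega : 1 ≤ j)]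
      push_cast
      ring
    rw [e, ← lg_eq hm k (j - 1) (by omega), mul_assoc, ← zpow_add_one]
    congr 4
    rw [Nat.cast_sub (by omega : 1 ≤ j)]
    push_cast
    ring

theorem lg_smul (hm : 1 ≤ m) (i : ℤ) : g • lg X t g m i = lg X t g m (i - m) := by
  obtain ⟨k, j, hj, rfl⟩ := lg_cases hm i
  have e : -(k * (m : ℤ) + (j : ℤ)) - m = -((k + 1) * (m : ℤ) + (j : ℤ)) := by ring
  rw [e, ← lg_eq hm k j hj, ← lg_eq hm (k + 1) j hj, smul_mk, ← mul_assoc, ← zpow_one_add,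
    add_comm 1 k]

theorem lg_ht {η : G →* Multiplicative ℤ} (hX : ∀ x ∈ X, η x = 1) (ht1 : η t = ofAdd 1)
    (hm : 1 ≤ m) (hκ : κ ∈ X) (hg : g = t ^ (-(m : ℤ)) * κ) (i : ℤ) :
    ht η hX (lg X t g m i) = i := by
  obtain ⟨k, j, hj, rfl⟩ := lg_cases hm i
  rw [← lg_eq hm k j hj, ht_mk]
  have hg1 : η g = ofAdd (-(m : ℤ)) := by
    rw [hg, map_mul, hX κ hκ, mul_one, map_zpow, ht1, ← ofAdd_zsmul]
    simp
  rw [map_mul, map_zpow, map_zpow, hg1, ht1, ← ofAdd_zsmul, ← ofAdd_zsmul, toAdd_mul,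
    toAdd_ofAdd, toAdd_ofAdd]
  simp
  ring

end Axis

section Main

variable {H G : Type} [Group H] [Base H] [Group G] {pr : G →* H} {em : H →* G} {X : Subgroup G}
  {D : ℕ}

theorem lg_line (hs : IsStage pr em X D) {m : ℕ} {κ g : G} (hm : 1 ≤ m) (hκ : κ ∈ X)
    (hg : g = em th ^ (-(m : ℤ)) * κ) : IsLine (CG X (em th)) (lg X (em th) g m) := by
  apply isLine_of hs.td.ht hs.td.et hs.td.tree.connected _ _ 0
  · intro i
    rw [lg_ht hs.td.ht hs.td.et hm hκ hg]
    ring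
  · intro i
    obtain ⟨y, h1, h2⟩ := lg_step hm hκ hg i
    unfold CG
    rw [SimpleGraph.fromRel_adj]
    refine ⟨?_, Or.inl ⟨y, h1, h2⟩⟩
    intro he
    have h3 := congrArg (ht (Base.hz.comp pr) hs.td.ht) he
    rw [lg_ht hs.td.ht hs.td.et hm hκ hg, lg_ht hs.td.ht hs.td.et hm hκ hg] at h3
    omega

theorem smul_line (hA : ActsOn (CG X (em th)) G) (hT : (CG X (em th)).IsTree)
    {L : ℤ → G ⧸ X} (hL : IsLine (CG X (em th)) L) (γ : G) :
    IsLine (CG X (em th)) (fun i => γ • L i) := by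
  intro i j
  rw [dist_smul hT.connected hA, hL]

/-- the case of one axis and one translate of the standard line -/
theorem inout (hU : StBtwU) (hNr : StNear) (hB : StBasic) (hLL : StLL)
    (hs : IsStage pr em X D) {m : ℕ} {κ g : G} (hm : 1 ≤ m) (hκ : κ ∈ X)
    (hg : g = em th ^ (-(m : ℤ)) * κ) (hnc : ¬ ConjH em g) (γ : G) (a b c : ℤ)
    (ha : lg X (em th) g m a = γ • vx (em th) X (a - c))
    (hb : lg X (em th) g m b = γ • vx (em th) X (b - c)) : b - a ≤ m + 3 * D := by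
  by_contra hlt
  push Not at hlt
  have hT := hs.td.tree
  obtain ⟨hA, hN, hLn, hsh, hst, -, -, -⟩ := hB G X (em th) (Base.hz.comp pr)
  have hline := hLn hs.td
  have hlg := lg_line hs hm hκ hg
  have hco : ∀ s, a ≤ s → s ≤ b → lg X (em th) g m s = γ • vx (em th) X (s - c) := by
    intro s h1 h2
    exact coincide hU hT hlg (smul_line hA hT hline γ) (c := c) ha hb h1 h2
  have hz : ∀ s, a + m ≤ s → s ≤ b →
      (g⁻¹ * (γ * em th ^ (-(m : ℤ)) * γ⁻¹)) • lg X (em th) g m s = lg X (em th) g m s := by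
    intro s h1 h2
    rw [mul_smul, inv_smul_eq_iff, lg_smul hm, hco s (by omega) h2, mul_smul, inv_smul_smul,
      mul_smul, hsh, hco (s - m) (by omega) (by omega)]
    congr 2
    ring
  by_cases hc : ConjN em (g⁻¹ * (γ * em th ^ (-(m : ℤ)) * γ⁻¹))
  · obtain ⟨δ, n, hn, hzn⟩ := hc
    by_cases hn1 : n = 1
    · rw [hn1, map_one, mul_one, mul_inv_cancel, inv_mul_eq_one] at hzn
      exact hnc ⟨γ, th ^ (-(m : ℤ)), by rw [map_zpow]; exact hzn⟩
    · obtain ⟨c', hc'⟩ := core hNr hB hs hlg (lg_ht hs.td.ht hs.td.et hm hκ hg) hn hn1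
        (a := a + m) (b := b) (by omega) (by
          intro s h1 h2
          rw [← hzn]
          exact hz s h1 h2)
      obtain ⟨-, -, h3, -⟩ := hLL H G pr em X D hs
      have key : ∀ s, a + m + D ≤ s → s + D ≤ b →
          (δ⁻¹ * γ) • vx (em th) X (s - c) = vx (em th) X (s - c') := by
        intro s h1 h2
        have e1 := hc' s h1 h2
        rw [hco s (by omega) (by omega)] at e1
        rw [mul_smul, e1, inv_smul_smul]
      obtain ⟨h, hh⟩ := h3 (δ⁻¹ * γ) (a + m + D - c) (a + m + D - c')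
        (key _ (by omega) (by omega)) (by
          have e1 : a + m + D - c + D = (a + m + D + D) - c := by ring
          have e2 : a + m + D - c' + D = (a + m + D + D) - c' := by ring
          rw [e1, e2]
          exact key _ (by omega) (by omega))
      apply hnc
      refine ⟨γ, th ^ (-(m : ℤ)) * (h⁻¹ * n⁻¹ * h), ?_⟩
      have e1 : δ = γ * (em h)⁻¹ := by
        rw [← hh]
        group
      rw [e1] at hzn
      have e2 : g = (γ * em th ^ (-(m : ℤ)) * γ⁻¹) *
          (γ * (em h)⁻¹ * em n * (γ * (em h)⁻¹)⁻¹)⁻¹ := by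
        rw [← hzn, mul_inv_rev, inv_inv, mul_inv_cancel_left]
      rw [map_mul, map_mul, map_mul, map_inv, map_inv, map_zpow]
      calc g = (γ * em th ^ (-(m : ℤ)) * γ⁻¹) *
          (γ * (em h)⁻¹ * em n * (γ * (em h)⁻¹)⁻¹)⁻¹ := e2
        _ = _ := by group
  · have h1 := hs.F1 _ hc _ _ (hz (a + m) le_rfl (by omega)) (hz b (by omega) le_rfl)
    rw [hlg] at h1
    omega

/-- the case of two axes -/
theorem outout (hU : StBtwU) (hNr : StNear) (hB : StBasic) (hLL : StLL)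
    (hs : IsStage pr em X D) {m : ℕ} {κ g : G} (hm : 1 ≤ m) (hκ : κ ∈ X)
    (hg : g = em th ^ (-(m : ℤ)) * κ) (hcen : ∀ c : G, c * g = g * c → c ∈ Subgroup.zpowers g)
    (hnc : ¬ ConjH em g) (γ : G) (hγ : γ ∉ Subgroup.zpowers g) (a b c : ℤ)
    (ha : lg X (em th) g m a = γ • lg X (em th) g m (a - c))
    (hb : lg X (em th) g m b = γ • lg X (em th) g m (b - c)) : b - a ≤ 2 * m + 5 * D := by
  by_contra hlt
  push Not at hlt
  have hT := hs.td.tree
  obtain ⟨hA, hN, hLn, hsh, hst, -, -, -⟩ := hB G X (em th) (Base.hz.comp pr)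
  have hline := hLn hs.td
  have hlg := lg_line hs hm hκ hg
  have hco : ∀ s, a ≤ s → s ≤ b → lg X (em th) g m s = γ • lg X (em th) g m (s - c) := by
    intro s h1 h2
    exact coincide hU hT hlg (smul_line hA hT hlg γ) (c := c) ha hb h1 h2
  have hz : ∀ s, a + m ≤ s → s ≤ b →
      (g⁻¹ * (γ * g * γ⁻¹)) • lg X (em th) g m s = lg X (em th) g m s := by
    intro s h1 h2
    rw [mul_smul, inv_smul_eq_iff, lg_smul hm, hco s (by omega) h2, mul_smul, inv_smul_smul,
      mul_smul, lg_smul hm, hco (s - m) (by omega) (by omega)]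
    congr 2
    ring
  by_cases hc : ConjN em (g⁻¹ * (γ * g * γ⁻¹))
  · obtain ⟨δ, n, hn, hzn⟩ := hc
    by_cases hn1 : n = 1
    · rw [hn1, map_one, mul_one, mul_inv_cancel, inv_mul_eq_one, eq_mul_inv_iff_mul_eq] at hzn
      exact hγ (hcen γ hzn.symm)
    · obtain ⟨c', hc'⟩ := core hNr hB hs hlg (lg_ht hs.td.ht hs.td.et hm hκ hg) hn hn1
        (a := a + m) (b := b) (by omega) (by
          intro s h1 h2
          rw [← hzn]
          exact hz s h1 h2)
      have h1 := inout hU hNr hB hLL hs hm hκ hg hnc δ (a + m + D) (b - D) c'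
        (hc' _ le_rfl (by omega)) (hc' _ (by omega) (by omega))
      omega
  · have h1 := hs.F1 _ hc _ _ (hz (a + m) le_rfl (by omega)) (hz b (by omega) le_rfl)
    rw [hlg] at h1
    omega

end Main

end S2Pair

open S2Pair in
theorem stS2Pair (hU : StBtwU) (hNr : StNear) (hB : StBasic) (hLL : StLL) : StS2Pair := by
  intro H G _ _ _ pr em X D hs m κ g hm hκ hg hcen hnc
  refine ⟨2 * m + 5 * D, ?_⟩
  rintro p q γ ⟨k, j, hj, rfl⟩ ⟨k', j', hj', rfl⟩
  rw [lg_eq hm k j hj, lg_eq hm k' j' hj']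
  generalize -(k * (m : ℤ) + j) = a
  generalize -(k' * (m : ℤ) + j') = b
  have hlg := lg_line hs hm hκ hg
  have hht := lg_ht hs.td.ht hs.td.et hm hκ hg
  have hv : ∀ i : ℤ, ht (Base.hz.comp pr) hs.td.ht (vx (em th) X i) = i := by
    intro i
    unfold vx
    rw [ht_mk, map_zpow, hs.td.et, ← ofAdd_zsmul, toAdd_ofAdd]
    simp
  refine ⟨?_, ?_⟩
  · intro i j h1 h2
    have e1 := congrArg (ht (Base.hz.comp pr) hs.td.ht) h1
    have e2 := congrArg (ht (Base.hz.comp pr) hs.td.ht) h2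
    rw [hht, ht_smul, hv] at e1 e2
    have f1 : i = a - toAdd ((Base.hz.comp pr) γ) := by omega
    have f2 : j = b - toAdd ((Base.hz.comp pr) γ) := by omega
    rw [f1] at h1
    rw [f2] at h2
    have g1 := inout hU hNr hB hLL hs hm hκ hg hnc γ a b _ h1 h2
    have g2 := inout hU hNr hB hLL hs hm hκ hg hnc γ b a _ h2 h1
    rw [hlg]
    omega
  · rintro hγ ⟨k₁, j₁, hj₁, h1⟩ ⟨k₂, j₂, hj₂, h2⟩
    rw [mul_assoc, ← smul_mk, lg_eq hm k₁ j₁ hj₁] at h1
    rw [mul_assoc, ← smul_mk, lg_eq hm k₂ j₂ hj₂] at h2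
    have e1 := congrArg (ht (Base.hz.comp pr) hs.td.ht) h1
    have e2 := congrArg (ht (Base.hz.comp pr) hs.td.ht) h2
    rw [hht, ht_smul, hht] at e1 e2
    have f1 : -(k₁ * (m : ℤ) + j₁) = a - toAdd ((Base.hz.comp pr) γ) := by omega
    have f2 : -(k₂ * (m : ℤ) + j₂) = b - toAdd ((Base.hz.comp pr) γ) := by omega
    rw [f1] at h1
    rw [f2] at h2
    have g1 := outout hU hNr hB hLL hs hm hκ hg hcen hnc γ hγ a b _ h1 h2
    have g2 := outout hU hNr hB hLL hs hm hκ hg hcen hnc γ hγ b a _ h2 h1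
    rw [hlg]
    omega

end Pool.Agent.D6b
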