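import Pool.Agent.Lib.MP_d6b03d_al.Stmts

/-!
MP_d6b03d_al: small tools on trees, lines and heights (helper95).
-/

set_option autoImplicit false

namespace Pool.Agent.D6b

open Multiplicative Base

namespace Tl

section

variable {V : Type} {S : SimpleGraph V}

theorem dist_smul_le (hS : S.IsTree) {G : Type} [Group G] [MulAction G V] (hA : ActsOn S G)
    (g : G) (u v : V) : S.dist (g • u) (g • v) ≤ S.dist u v := by
  obtain ⟨p, hp⟩ := hS.connected.exists_walk_length_eq_dist u v
  let f : S →g S := ⟨fun x => g • x, fun {a b} hab => hA g a b hab⟩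
  have h1 := SimpleGraph.dist_le (p.map f)
  rw [SimpleGraph.Walk.length_map, hp] at h1
  exact h1

theorem dist_smul (hS : S.IsTree) {G : Type} [Group G] [MulAction G V] (hA : ActsOn S G)
    (g : G) (u v : V) : S.dist (g • u) (g • v) = S.dist u v := by
  apply le_antisymm (dist_smul_le hS hA g u v)
  have h := dist_smul_le hS hA g⁻¹ (g • u) (g • v)
  simpa using h

theorem line_inj {L : ℤ → V} (hL : IsLine S L) : Function.Injective L := by
  intro i j hij
  have h := hL i j
  rw [hij, SimpleGraph.dist_self] at h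
  omega

theorem line_smul (hS : S.IsTree) {G : Type} [Group G] [MulAction G V] (hA : ActsOn S G)
    (g : G) {L : ℤ → V} (hL : IsLine S L) : IsLine S (fun i => g • L i) := by
  intro i j
  show S.dist (g • L i) (g • L j) = _
  rw [dist_smul hS hA, hL]

theorem line_cvx (hU : StBtwU) (hS : S.IsTree) {L : ℤ → V} (hL : IsLine S L) :
    Cvx S {p | ∃ i : ℤ, p = L i} := by
  rintro _ ⟨i, rfl⟩ _ ⟨j, rfl⟩ r hr
  have h1 := (hU V S hS).1
  have hr' := hr
  unfold Btw at hr
  rw [hL i j] at hr
  rcases le_total i j with hij | hij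
  · refine ⟨i + S.dist (L i) r, h1 (L i) (L j) r _ hr' ?_ ?_⟩
    · unfold Btw
      rw [hL, hL, hL]
      omega
    · rw [hL]
      omega
  · refine ⟨i - S.dist (L i) r, h1 (L i) (L j) r _ hr' ?_ ?_⟩
    · unfold Btw
      rw [hL, hL, hL]
      omega
    · rw [hL]
      omega

theorem fix_cvx (hU : StBtwU) (hS : S.IsTree) {G : Type} [Group G] [MulAction G V]
    (hA : ActsOn S G) (g : G) : Cvx S {p | g • p = p} := by
  intro p hp q hq r hr
  exact (hU V S hS).2 G hA g p q r hp hq hr

theorem inv_line {G : Type} [Group G] [MulAction G V] {g : G} {L : ℤ → V} {m : ℤ}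
    (hg : ∀ i : ℤ, g • L i = L (i + m)) (i : ℤ) : g⁻¹ • L i = L (i - m) := by
  rw [inv_smul_eq_iff, hg]
  congr 1
  ring

theorem pow_line {G : Type} [Group G] [MulAction G V] {g : G} {L : ℤ → V} {m : ℤ}
    (hg : ∀ i : ℤ, g • L i = L (i + m)) (k : ℕ) (i : ℤ) : g ^ k • L i = L (i + k * m) := by
  induction k generalizing i with
  | zero => simp
  | succ n ih =>
    rw [pow_succ, mul_smul, hg, ih]
    congr 1
    push_cast
    ring

theorem zpow_line {G : Type} [Group G] [MulAction G V] {g : G} {L : ℤ → V} {m : ℤ}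
    (hg : ∀ i : ℤ, g • L i = L (i + m)) (k : ℤ) (i : ℤ) : g ^ k • L i = L (i + k * m) := by
  obtain ⟨n, rfl | rfl⟩ := k.eq_nat_or_neg
  · rw [zpow_natCast, pow_line hg]
  · rw [zpow_neg, zpow_natCast, inv_line (pow_line hg n)]
    congr 1
    ring

end

section

variable {G : Type} [Group G] {X : Subgroup G} {t : G} {η : G →* Multiplicative ℤ}

/-- the height function on the vertices of the coset tree -/
theorem exists_ht (hB : StBasic) (hT : TD X t η) : ∃ ht : G ⧸ X → ℤ,
    (∀ g : G, ht (g : G ⧸ X) = toAdd (η g)) ∧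
    (∀ (g : G) (p : G ⧸ X), ht (g • p) = toAdd (η g) + ht p) ∧
    (∀ p q : G ⧸ X, (ht p - ht q).natAbs ≤ (CG X t).dist p q) ∧
    (∀ i : ℤ, ht (vx t X i) = i) := by
  let ht : G ⧸ X → ℤ := Quotient.lift (s := QuotientGroup.leftRel X) (fun g => toAdd (η g)) (by
    intro a b hab
    rw [← Quotient.eq_iff_equiv, Quotient.eq, QuotientGroup.leftRel_apply] at hab
    have h := hT.ht _ hab
    rw [map_mul, map_inv, inv_mul_eq_one] at h
    simp only [h])
  have h1 : ∀ g : G, ht (g : G ⧸ X) = toAdd (η g) := fun g => rfl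
  have h2 : ∀ (g : G) (p : G ⧸ X), ht (g • p) = toAdd (η g) + ht p := by
    intro g p
    induction p using QuotientGroup.induction_on with
    | H x =>
      have : (g • ((x : G) : G ⧸ X)) = ((g * x : G) : G ⧸ X) := rfl
      rw [this, h1, h1, map_mul, toAdd_mul]
  have h3 : ∀ p q : G ⧸ X, (CG X t).Adj p q → (ht p - ht q).natAbs ≤ 1 := by
    intro p q hpq
    rw [(hB G X t η).2.2.2.2.2.1 hT.et hT.ht] at hpq
    obtain ⟨g, ⟨rfl, rfl⟩ | ⟨rfl, rfl⟩⟩ := hpq
    · rw [h1, h1, map_mul, toAdd_mul, hT.et, toAdd_ofAdd]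
      omega
    · rw [h1, h1, map_mul, toAdd_mul, hT.et, toAdd_ofAdd]
      omega
  have h4 : ∀ (p q : G ⧸ X) (w : (CG X t).Walk p q), (ht p - ht q).natAbs ≤ w.length := by
    intro p q w
    induction w with
    | nil => simp
    | cons h w ih =>
      have := h3 _ _ h
      rw [SimpleGraph.Walk.length_cons]
      omega
  refine ⟨ht, h1, h2, ?_, ?_⟩
  · intro p q
    obtain ⟨w, hw⟩ := hT.tree.connected.exists_walk_length_eq_dist p q
    rw [← hw]
    exact h4 p q w
  · intro i
    unfold vx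
    rw [h1, map_zpow, hT.et, ← ofAdd_zsmul]
    simp

end

end Tl

end Pool.Agent.D6b
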